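import Pool.Agent.Work.MP_7084a3_full.B.GBW
import Pool.Agent.Work.MP_7084a3_h91.B.ASPH

set_option autoImplicit false

/-! # Spheres are zero (helper60) -/

namespace Pool.HE

open Pool.HA

section
variable {V A : Type} [AddCommGroup A] {adj : V → V → Prop} {T : V → V → V → A}
  {ang : V → V → V → ℝ}

/-- the accounting data of the angles -/
def accAng (hN : NP0 adj ang) : Acc adj T ℝ where
  f := ang
  g := fun _ _ => 0
  J := fun _ _ _ _ => 0
  κ := 1
  ψ := 0
  tri := by
    intro u v c huv huc hcv
    have := hN.sum u c v huc hcv huv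
    simpa using this
  swap := by intro v b L R; simp

theorem sec_ang (hN : NP0 adj ang) (la lb : ℕ → ℕ) (v : V) (ω : List (Stp V))
    (h : ∀ s ∈ ω, s.k = 0) : (accAng (T := T) hN).sec la lb v ω = wts ang v ω := by
  induction ω with
  | nil => simp [Acc.sec, wts]
  | cons s ω ih =>
    have hs := h s (by simp)
    have ih' := ih (fun t ht => h t (by simp [ht]))
    rcases ω with _ | ⟨t, ω⟩
    · simp [Acc.sec, wts, wt, Acc.val, hs, accAng]
    · rw [Acc.sec, ih', wts_cons v s]
      simp only [Acc.val, hs, accAng, Acc.jn, wt, if_true, add_zero]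

theorem gb0 (hN : NP0 adj ang) {Q : List (V × List (Stp V))} {D : A} {n : ℕ}
    (hQ : ∀ E ∈ Q, ∀ s ∈ E.2, s.k = 0)
    (hc : Concl adj T (fun _ => 0) (fun _ => 0) (fun _ => ∅) (fun _ _ => False) Q D n) :
    (Q.map (fun E => 1 - wts ang E.1 E.2)).sum ≤ -2 := by
  obtain ⟨L, l1, l2, l3⟩ := hc
  have h1 := l3 ℝ (accAng (T := T) hN)
  have e1 : (Q.map (fun E => (accAng (T := T) hN).sec (fun _ => 0) (fun _ => 0) E.1 E.2)).sum =
      (Q.map (fun E => wts ang E.1 E.2)).sum := by
    congr 1
    refine List.map_congr_left fun E hE => ?_
    exact sec_ang hN _ _ _ _ (hQ E hE)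
  have e2 : (L.map (fun E => (accAng (T := T) hN).csec (fun _ => 0) (fun _ => 0) E.1 E.2)).sum ≥
      (L.map (fun _ => (2 : ℝ))).sum := by
    apply List.sum_le_sum
    intro E hE
    obtain ⟨⟨a1, a2, a3⟩, a4⟩ := l1 E hE
    have hk : ∀ s ∈ E.2, TStp adj E.1 s := by
      intro s hs
      rcases a3 s hs with h | h
      · exact h
      · exact h.2.elim
    have e3 : (accAng (T := T) hN).csec (fun _ => 0) (fun _ => 0) E.1 E.2 = wts ang E.1 E.2 := by
      rw [Acc.csec, sec_ang hN _ _ _ _ (fun s hs => (hk s hs).1)]
      unfold Acc.jo
      split <;> simp [Acc.jn, accAng]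
    show (2 : ℝ) ≤ _
    rw [e3]
    refine hN.loop E.1 E.2 a1 ⟨hk, a2.imp fun _ _ h => ⟨h.1, h.2.1⟩⟩ ?_
    intro s hs t ht
    exact ⟨(a4 s hs t ht).1, (a4 s hs t ht).2.1⟩
  rw [e1] at h1
  simp only [List.map_const', List.sum_replicate, nsmul_eq_mul, accAng] at e2 h1
  simp only [AddMonoidHom.zero_apply, sub_zero, mul_one] at h1
  have e4 : (Q.map (fun E => 1 - wts ang E.1 E.2)).sum =
      Q.length - (Q.map (fun E => wts ang E.1 E.2)).sum := by
    clear h1 e1 e2 l2 l3 hQ
    induction Q with
    | nil => simp
    | cons E Q ih =>
      simp only [List.map_cons, List.sum_cons, List.length_cons]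
      rw [ih]; push_cast; ring
  have l2' : (2 : ℝ) * L.length = Q.length + n + 2 := by exact_mod_cast l2
  rw [e4]
  simp only [Acc.csec] at h1 e2
  linarith

end

theorem hFBR : Pool.HA.Stmt_FBR :=
  Pool.HA.stmt_FBR (Pool.HA.stmt_FROT Pool.HA.stmt_FCAT) Pool.HA.stmt_FCAT

theorem ASPH0_inner {V A : Type} [AddCommGroup A]
    {adj : V → V → Prop} {T : V → V → V → A} {ang : V → V → V → ℝ}
    (hT : TriOK adj T) (hN : NP0 adj ang) (n : ℕ)
    (IH : ∀ m < n, ∀ D : A, Fill adj T [] D m → D = 0)
    {l : List V} {D : A} {m : ℕ} (h : Fill adj T l D m) :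
    m ≤ n → (l = [] ∨ ∃ u v, adj u v ∧ l = [u, v]) → D = 0 := by
  induction h with
  | nil => intro _ _; rfl
  | @sph u v D m huv h1 ih =>
    intro hm _
    exact ih hm (Or.inr ⟨u, v, huv, rfl⟩)
  | @pair u v P₁ P₂ D₁ D₂ n₁ n₂ huv h1 h2 h3 h4 ih1 ih2 =>
    intro hm hl
    rcases hl with hl | ⟨u', v', -, hl⟩
    · cases hl
    · obtain ⟨-, hl⟩ := List.cons.inj hl
      have hlen := congrArg List.length hl
      simp only [List.length_append, List.length_cons, List.length_nil] at hlen
      have e1 : P₁ = [] := List.eq_nil_of_length_eq_zero (by omega)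
      have e2 : P₂ = [] := List.eq_nil_of_length_eq_zero (by omega)
      rw [ih1 (by omega) (Or.inl e1), ih2 (by omega) (Or.inl e2), add_zero]
  | @tri u v c q D₀ n₀ huv huc hcv h1 ih =>
    intro hm hl
    rcases hl with hl | ⟨u', v', -, hl⟩
    · cases hl
    have hq : q = [] := by
      have hlen := congrArg List.length hl
      simp only [List.length_cons, List.length_nil] at hlen
      exact List.eq_nil_of_length_eq_zero (by omega)
    subst hq
    by_contra hD
    have star : ∀ n', Fill adj T [] (D₀ + T u v c) n' → n ≤ n' := by
      intro n' h'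
      by_contra hc
      exact hD (IH n' (by omega) _ h')
    have star2 : ∀ a b, adj a b → ∀ n', Fill adj T [a, b] (D₀ + T u v c) n' → n ≤ n' :=
      fun a b hab n' h' => star n' (Fill.sph hab h')
    have hvu := hT.symm _ _ huv
    have hcu := hT.symm _ _ huc
    have hvc := hT.symm _ _ hcv
    have nuv : u ≠ v := fun e => hT.irr v (e ▸ huv)
    have nuc : u ≠ c := fun e => hT.irr c (e ▸ huc)
    have ncv : c ≠ v := fun e => hT.irr v (e ▸ hcv)
    have hTc : T v u c = - T u v c := hT.anti u v c
    have hT1 : T u c v = T v u c := by rw [hT.cyc u c v, hT.cyc c v u]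
    have hT2 : T c v u = T v u c := hT.cyc c v u
    have hgb0 := gbs_main (Y := fun _ => ∅) (la := fun _ => 0) (lb := fun _ => 0)
      (P := fun _ _ => False)
      (Pool.HA.stmt_FTRI (Pool.HA.stmt_FROT Pool.HA.stmt_FCAT)) hFBR hT h1
      [(u, [⟨c, v, 0⟩]), (c, [⟨v, u, 0⟩]), (v, [⟨u, c, 0⟩])] rfl (by simp) ?_ ?_ ?_ ?_ ?_
    have hgb := gb0 hN (by simp) hgb0
    · simp only [List.map_cons, List.map_nil, List.sum_cons, List.sum_nil, wts, wt, if_true,
        add_zero] at hgb
      have hs := hN.sum u c v huc hcv huv
      linarith
    · -- StOK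
      constructor
      · intro E hE
        simp only [List.mem_cons, List.not_mem_nil, or_false] at hE
        rcases hE with rfl | rfl | rfl
        · refine ⟨by simp, by simp, ?_⟩
          intro s hs
          rw [List.mem_singleton] at hs
          subst hs
          exact Or.inl ⟨rfl, huc, huv, hcv⟩
        · refine ⟨by simp, by simp, ?_⟩
          intro s hs
          rw [List.mem_singleton] at hs
          subst hs
          exact Or.inl ⟨rfl, hcv, hcu, hvu⟩
        · refine ⟨by simp, by simp, ?_⟩
          intro s hs
          rw [List.mem_singleton] at hs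
          subst hs
          exact Or.inl ⟨rfl, hvu, hvc, huc⟩
      · intro x E y hE
        rcases ASPH_three hE with ⟨rfl, rfl, rfl⟩ | ⟨rfl, rfl, rfl⟩ | ⟨rfl, rfl, rfl⟩
        · refine ⟨_, rfl, huc, ?_⟩
          intro s hs t ht
          simp only [List.head?_cons, List.getLast?_singleton, Option.mem_def,
            Option.some.injEq] at hs ht
          subst hs ht
          exact ⟨rfl, rfl, by simp [lsd, rsd]⟩
        · refine ⟨_, rfl, hcv, ?_⟩
          intro s hs t ht
          simp only [List.head?_cons, List.getLast?_singleton, Option.mem_def,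
            Option.some.injEq] at hs ht
          subst hs ht
          exact ⟨rfl, rfl, by simp [lsd, rsd]⟩
        · refine ⟨_, rfl, hvu, ?_⟩
          intro s hs t ht
          simp only [List.head?_cons, List.getLast?_singleton, Option.mem_def,
            Option.some.injEq] at hs ht
          subst hs ht
          exact ⟨rfl, rfl, by simp [lsd, rsd]⟩
    · -- MinF
      intro n' h'
      have := star2 u v huv _ (Fill.tri huv huc hcv h')
      omega
    · -- InvB
      intro x E y hE s hs d δ hd _ _ n' h'
      rcases ASPH_three hE with ⟨rfl, rfl, rfl⟩ | ⟨rfl, rfl, rfl⟩ | ⟨rfl, rfl, rfl⟩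
      · simp only [List.head?_cons, Option.mem_def, Option.some.injEq] at hs
        subst hs
        rcases hd with ⟨-, h9, rfl⟩ | ⟨h0, -⟩
        swap
        · exact absurd rfl h0
        have h9 : v = d := h9.symm
        subst h9
        simp only [List.map_nil, List.map_cons, List.nil_append] at h'
        have h2 := hFBR V A adj T hT [u] [] v c _ n' hvc h'
        rw [hT1, hTc, sub_neg_eq_add] at h2
        have := star2 u v huv _ h2
        omega
      · simp only [List.head?_cons, Option.mem_def, Option.some.injEq] at hs
        subst hs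
        rcases hd with ⟨-, h9, rfl⟩ | ⟨h0, -⟩
        swap
        · exact absurd rfl h0
        have h9 : u = d := h9.symm
        subst h9
        simp only [List.map_nil, List.map_cons, List.cons_append, List.nil_append] at h'
        have h2 := hFBR V A adj T hT [] [v] u c _ n' huc h'
        rw [hT2, hTc, sub_neg_eq_add] at h2
        have := star2 u v huv _ h2
        omega
      · simp only [List.head?_cons, Option.mem_def, Option.some.injEq] at hs
        subst hs
        rcases hd with ⟨-, h9, rfl⟩ | ⟨h0, -⟩
        swap
        · exact absurd rfl h0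
        have h9 : c = d := h9.symm
        subst h9
        simp only [List.map_nil, List.map_cons, List.cons_append, List.nil_append] at h'
        have h2 := hFBR V A adj T hT [u] [] c v _ n' hcv h'
        rw [hTc, sub_neg_eq_add] at h2
        have := star2 u c huc _ h2
        omega
    · -- InvC
      intro x E y E' z hE s hs s' hs' ha ha' d δ δ' _ _ _ _ _ n' _
      exfalso
      rcases ASPH_three hE with ⟨rfl, rfl, h5⟩ | ⟨rfl, rfl, h5⟩ | ⟨rfl, rfl, h5⟩
      · simp only [List.head?_cons, Option.mem_def, Option.some.injEq] at hs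
        subst hs
        rcases y with _ | ⟨y1, _ | ⟨y2, y⟩⟩
        · simp only [List.nil_append, List.cons.injEq] at h5
          obtain ⟨rfl, rfl⟩ := h5
          simp only [List.head?_cons, Option.mem_def, Option.some.injEq] at hs'
          subst hs'
          exact nuv ha'.symm
        · simp only [List.cons_append, List.nil_append, List.cons.injEq] at h5
          obtain ⟨rfl, rfl, rfl⟩ := h5
          exact ncv ha
        · have := congrArg List.length h5
          simp only [List.length_cons, List.length_append, List.length_nil] at this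
          omega
      · simp only [List.head?_cons, Option.mem_def, Option.some.injEq] at hs
        subst hs
        rcases y with _ | ⟨y1, y⟩
        · simp only [List.nil_append, List.cons.injEq] at h5
          obtain ⟨rfl, rfl⟩ := h5
          simp only [List.head?_cons, Option.mem_def, Option.some.injEq] at hs'
          subst hs'
          exact nuc ha'
        · have := congrArg List.length h5
          simp only [List.length_cons, List.length_append, List.length_nil] at this
          omega
      · have := congrArg List.length h5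
        simp only [List.length_cons, List.length_append, List.length_nil] at this
        omega
    · -- spheres
      intro D' n' hn' h'
      exact IH n' (by omega) D' h'

theorem stmt_ASPH0 : Stmt_ASPH0 := by
  intro V A _ adj T ang hT hN D n
  induction n using Nat.strong_induction_on generalizing D with
  | _ n IH =>
    intro h
    exact ASPH0_inner hT hN n (fun m hm D => IH m hm D) h le_rfl (Or.inl rfl)

end Pool.HE
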