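import Pool.Agent.Work.MP_7084a3_full.B.H73

set_option autoImplicit false

/-! # BAD1 -/

namespace Pool.HE

open Pool.HA

theorem stmt_BAD1 (hF3 : Stmt_F3) (hF4 : Stmt_F4) (hF5 : Stmt_F5) (hF6 : Stmt_F6)
    (hF7 : Stmt_F7) (hRFU : Stmt_RFU) (hDCOM : Stmt_DCOM) (hDCEN : Stmt_DCEN)
    (hDNCM : Stmt_DNCM) : Stmt_BAD1 := by
  classical
  intro S S' _ _ M M' hM hM' hS' φ s t hst hm hN
  obtain ⟨u, hJ, hu1⟩ := h73_exists_u (M := M) s t
  have hJ' : u.J = {s, t} := by ext a; simp [hJ a]
  have hfix := h73_fix_J hJ hu1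
  obtain ⟨a, ha⟩ : ∃ a, a = gen M s := ⟨_, rfl⟩
  obtain ⟨z, hz⟩ : ∃ z, z = zz M s t := ⟨_, rfl⟩
  have hau : a • u = u := by rw [hfix, ha]; exact left_mem_pr s t
  have hzu : z • u = u := by rw [hfix, hz]; exact h73_zz_mem s t
  have hzc : ∀ h : Art M, h • u = u → Commute z h := by
    intro h hh
    rw [hfix] at hh
    rw [hz]
    exact hDCEN S M hM.ne_zero s t hst h hh
  have hzt : Commute z (gen M t) := hzc _ (by rw [hfix]; exact right_mem_pr s t)
  have hza : Commute z a := hzc a hau
  have hz1 : ∀ k : ℤ, k ≠ 0 → z ^ k ≠ 1 := by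
    intro k hk
    rw [hz]
    exact h73_zz_zpow_ne_one (hM.ne_zero s t) hk
  rw [← ha] at hN
  rw [← ha, ← hz]
  refine ⟨(hza.map φ).symm, ?_⟩
  intro α β hαβ v' hv'
  have hβ : β ≠ 0 := by
    rintro rfl
    have hα : α ≠ 0 := by simpa using hαβ
    exact hN α hα v' (by simpa using hv')
  have hna : ∀ i : ℤ, z ^ β ≠ a ^ i := by
    intro i hi
    have h1 : Commute (gen M s ^ i) (gen M t) := by
      rw [← ha, ← hi]
      exact hzt.zpow_left β
    have h2 := hDNCM S M hM.ne_zero s t hst hm i h1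
    subst h2
    exact hz1 β hβ (by simpa using hi)
  obtain ⟨e, he⟩ : ∃ e, e = a ^ α * z ^ β := ⟨_, rfl⟩
  have hφe : φ e = φ a ^ α * φ z ^ β := by rw [he, map_mul, map_zpow, map_zpow]
  rw [← hφe] at hv'
  have heu : e • u = u := by
    rw [he]; exact h73_fix_mul (h73_fix_zpow hau α) (h73_fix_zpow hzu β)
  have he1 : e ≠ 1 := by
    intro h
    apply hna (-α)
    rw [he] at h
    rw [zpow_neg]
    exact (inv_eq_of_mul_eq_one_right h).symm
  have hae : Commute a e := by
    rw [he]
    exact ((Commute.refl a).zpow_right α).mul_right (hza.symm.zpow_right β)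
  have hnr : ¬ ∃ r, Rfl (gen M) r ∧ ∃ i : ℤ, e = r ^ i := by
    rintro ⟨r, hr, j, hj⟩
    have hj0 : j ≠ 0 := by
      rintro rfl
      exact he1 (by simpa using hj)
    have hru : r • u = u := (hF3 S M hM r hr).1 j hj0 u (by rw [← hj]; exact heu)
    have har : Commute a r := (hF4 S M hM r hr j hj0).2 a (by rw [← hj]; exact hae)
    obtain ⟨y, hy, b, hb, hrb⟩ := hRFU S M hM s t hst r u hr hJ' hu1 hru
    have h1 : gen M s = y * gen M b * y⁻¹ :=
      hDCOM S M hM.ne_zero s t hst hm y hy s b (Or.inl rfl) hb (by rw [← hrb, ← ha]; exact har)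
    have h2 : r = a := by rw [hrb, ← h1, ha]
    apply hna (j - α)
    rw [zpow_sub, ← h2, ← hj, he, h2]
    have h3 : Commute (a ^ α) (z ^ β) := (hza.symm.zpow_left α).zpow_right β
    rw [h3.eq]; group
  have huniq : ∀ k : ℤ, k ≠ 0 → ∀ w : Vtx (gen M), (e ^ k) • w = w → w = u := by
    rcases hF5 S M hM e u he1 heu with h | h
    · exact absurd h hnr
    · exact h
  have hce : ∀ y : Art M, Commute y e → Commute z y := fun y hy =>
    hzc y (h73_fix_of_comm heu huniq hy)
  have he1' : φ e ≠ 1 := by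
    intro h
    exact he1 (by simpa using h)
  rcases hF5 S' M' hM' (φ e) v' he1' hv' with ⟨r', hr', i, hi⟩ | h
  · have hzr : ∀ y', Commute y' r' → Commute (φ z) y' := by
      intro y' hy'
      have h1 : Commute y' (φ e) := by rw [hi]; exact hy'.zpow_right i
      have h2 : Commute (φ.symm y') e := by
        have := h1.map φ.symm
        simpa using this
      have h3 := (hce _ h2).map φ
      simpa using h3
    obtain ⟨l, hl⟩ := hF7 S' M' hM' hS' r' (φ z) hr' hzr
    have hl0 : l ≠ 0 := by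
      rintro rfl
      apply hz1 1 one_ne_zero
      apply φ.injective
      rw [zpow_one, map_one, hl, zpow_zero]
    have hC : ∀ h : Art M, Commute z h → Commute (φ h) r' := by
      intro h hh
      have h1 : Commute (φ h) (r' ^ l) := by rw [← hl]; exact (hh.map φ).symm
      exact (hF4 S' M' hM' r' hr' l hl0).2 _ h1
    have hst1 : Commute z (gen M s * gen M t) := by
      rw [← ha]
      exact hza.mul_right hzt
    obtain ⟨i', hi'⟩ := hF6 S' M' hM' r' (φ (gen M s * gen M t)) (M s t) l hr' (hC _ hst1)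
      (by omega) (by
        rw [← map_pow, ← hl, hz]
        rfl)
    have h1 : Commute (φ a) (φ (gen M s * gen M t)) := by
      rw [hi']
      exact (hC a hza).zpow_right i'
    have h2 : Commute a (a * gen M t) := by
      have := h1.map φ.symm
      rw [ha]
      rw [ha] at this
      simpa using this
    have h3 : Commute a (gen M t) := by
      have h4 : gen M t = a⁻¹ * (a * gen M t) := by group
      rw [h4]
      exact ((Commute.refl a).inv_right).mul_right h2
    have := hDNCM S M hM.ne_zero s t hst hm 1 (by rw [zpow_one, ← ha]; exact h3)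
    omega
  · have h1 : φ a • v' = v' := h73_fix_of_comm hv' h (hae.map φ)
    exact hN 1 one_ne_zero v' (by rw [zpow_one]; exact h1)

end Pool.HE
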