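import Pool.Agent.Work.MP_7084a3_full.B.H73

set_option autoImplicit false

/-! # BADX -/

namespace Pool.HE

open Pool.HA

theorem FP.symm {S : Type} {M : CoxeterMatrix S} {h x : Art M} (H : FP M h x) : FP M x h := by
  refine ⟨H.1.symm, fun a b hab v => ?_⟩
  rw [(H.1.symm.zpow_left a).zpow_right b |>.eq]
  exact H.2 b a hab.symm v

/-- the generators generate -/
theorem h73_gen_top {S : Type} {M : CoxeterMatrix S} (H : Subgroup (Art M))
    (h : ∀ s, gen M s ∈ H) (x : Art M) : x ∈ H := by
  have h1 : Subgroup.closure (Set.range (gen M)) = ⊤ :=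
    PresentedGroup.closure_range_of (braidRels M)
  have h2 : Subgroup.closure (Set.range (gen M)) ≤ H := by
    rw [Subgroup.closure_le]
    rintro _ ⟨s, rfl⟩
    exact h s
  exact h2 (by rw [h1]; exact Subgroup.mem_top x)

theorem stmt_BADX (hBAD1 : Stmt_BAD1) (hT5 : Stmt_T5) (hSTC : Stmt_STC) (hDCEN : Stmt_DCEN)
    (hDPG : Stmt_DPG) : Stmt_BADX := by
  classical
  intro S S' _ _ M M' hM hM' hS hS' φ s hN
  have hcz : ∀ t, s ≠ t → Commute (zz M s t) (gen M s) ∧ Commute (zz M s t) (gen M t) := by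
    intro t hst
    exact ⟨hDCEN S M hM.ne_zero s t hst _ (left_mem_pr s t),
      hDCEN S M hM.ne_zero s t hst _ (right_mem_pr s t)⟩
  -- a generator with label at least three
  obtain ⟨t₀, hst₀, hm₀⟩ : ∃ t₀, s ≠ t₀ ∧ 3 ≤ M s t₀ := by
    have := Fintype.ofFinite S
    rw [Nat.card_eq_fintype_card] at hS
    obtain ⟨t, htm, r, hrm, htr⟩ : ∃ t ∈ Finset.univ.erase s, ∃ r ∈ Finset.univ.erase s,
        t ≠ r := by
      have h1 : 1 < (Finset.univ.erase s).card := by
        rw [Finset.card_erase_of_mem (Finset.mem_univ s), Finset.card_univ]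
        omega
      exact Finset.one_lt_card.1 h1
    have hst : s ≠ t := (Finset.ne_of_mem_erase htm).symm
    have hsr : s ≠ r := (Finset.ne_of_mem_erase hrm).symm
    by_cases h2 : M s t = 2
    · exact ⟨r, hsr, hM.match hst hsr htr h2⟩
    · refine ⟨t, hst, ?_⟩
      have := hM.two_le hst
      omega
  have hFP : ∀ t, s ≠ t → 3 ≤ M s t → FP M' (φ (gen M s)) (φ (zz M s t)) := fun t ht hmt =>
    hBAD1 S S' M M' hM hM' hS' φ s t ht hmt hN
  obtain ⟨E, y, k, hE, hk, h1, -⟩ := hT5 S' M' hM' _ _ (hFP t₀ hst₀ hm₀)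
  have hstar : ∀ g : Art M', Commute g (φ (gen M s)) → y⁻¹ * g * y ∈ par (gen M') E :=
    hSTC S' M' hM' _ _ (hFP t₀ hst₀ hm₀) E y k hk h1
  have hall : ∀ t, y⁻¹ * φ (gen M t) * y ∈ par (gen M') E := by
    intro t
    by_cases hst : s = t
    · subst hst
      exact hstar _ (Commute.refl _)
    · by_cases hmt : 3 ≤ M s t
      · have h2 : y⁻¹ * φ (zz M s t) * y ∈ par (gen M') E := hstar _ ((hcz t hst).1.map φ)
        refine hSTC S' M' hM' _ _ (hFP t hst hmt).symm E y 1 one_pos (by rw [pow_one]; exact h2)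
          _ ((hcz t hst).2.symm.map φ)
      · have h2 : M s t = 2 := by
          have := hM.two_le hst
          omega
        have hbr := braid M hst (by omega)
        rw [h2] at hbr
        simp only [altG, mul_one] at hbr
        have h3 : Commute (gen M s) (gen M t) := hbr
        exact hstar _ (h3.symm.map φ)
  -- `φ` is onto
  have honto : ∀ x : Art M', y⁻¹ * x * y ∈ par (gen M') E := by
    intro x
    have h2 : ∀ z : Art M, z ∈ ((par (gen M') E).comap
        ((MulAut.conj y⁻¹).toMonoidHom.comp φ.toMonoidHom)) := by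
      apply h73_gen_top
      intro t
      rw [Subgroup.mem_comap]
      simpa using hall t
    have h3 := h2 (φ.symm x)
    rw [Subgroup.mem_comap] at h3
    simpa using h3
  have hmem : ∀ t' : S', t' ∈ E := by
    intro t'
    apply hDPG S' M' hM'.ne_zero E t'
    have := honto (y * gen M' t' * y⁻¹)
    have h2 : y⁻¹ * (y * gen M' t' * y⁻¹) * y = gen M' t' := by group
    rwa [h2] at this
  refine ⟨?_, fun a b c hab hbc hac => hE.2 a (hmem a) b (hmem b) c (hmem c) hab hbc hac⟩
  have := Fintype.ofFinite S'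
  rw [Nat.card_eq_fintype_card, ← Finset.card_univ, ← hE.1]
  congr 1
  ext t'
  simp [hmem t']

end Pool.HE
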