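import Pool.Agent.Work.MP_7084a3_full.B.CYC

set_option autoImplicit false

namespace Pool.HE

open Pool.HA BIGaux

theorem stmt_BIG (hCOR : Stmt_COR) (hSTR : Stmt_STR) (hNPC : Stmt_NPC0) (hEXF : Stmt_EXF)
    (hTTOK : Stmt_TTOK) (hW : Stmt_WCH) : Stmt_BIG := by
  intro S _ M hM r₁ r₂ v w P Q hr₁ hr₂
  classical
  obtain ⟨-, -, hcw, -⟩ := hW (Art M) S (gen M)
  have one : ∀ (r : Art M) (v : Vtx (gen M)) (W : List (Vtx (gen M))), Rfl (gen M) r →
      Wk W v v → Fx r W → Red W → W = [v] := by
    intro r v W hr hWk hFx hRed
    by_contra hne
    obtain ⟨W', rfl⟩ := wk_form hWk.1 hWk.2.1 hne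
    have hs : Wk [v] v v := ⟨rfl, rfl, by simp⟩
    have h1 := (hcw _ _ v v hWk hs).1
    have e : (v :: W' ++ [v]).dropLast ++ [v].reverse.dropLast = v :: W' := by
      rw [List.dropLast_concat]; simp
    rw [e] at h1
    have h2 := (CYCaux.cor hM hCOR hSTR hNPC hEXF hTTOK (P := flg v W') (by simp [flg])
      (by rw [flg_fst]; exact h1) (rflag_one hRed hr hFx)).1
    rw [nns_flg] at h2
    omega
  induction P generalizing v Q with
  | nil =>
    intro hP
    simp [Wk] at hP
  | cons p₀ P₀ ih =>
    intro hP hQ hF₁ hF₂ hRP hRQ
    have hp₀ : p₀ = v := by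
      have := hP.1
      simpa using this
    subst hp₀
    by_cases hPv : p₀ :: P₀ = [p₀]
    · have hwv : w = p₀ := by
        have := hP.2.1
        rw [hPv] at this
        simpa using this.symm
      subst hwv
      rw [hPv, one r₂ w Q hr₂ hQ hF₂ hRQ]
    · by_cases hQv : Q = [p₀]
      · have hwv : w = p₀ := by
          have := hQ.2.1
          rw [hQv] at this
          simpa using this.symm
        subst hwv
        rw [hQv, one r₁ w _ hr₁ hP hF₁ hRP]
      · obtain ⟨P', hP'⟩ := wk_form hP.1 hP.2.1 hPv
        obtain ⟨Q₁, hQ₁⟩ := wk_form hQ.1 hQ.2.1 hQv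
        have hQr : Q.reverse ≠ [w] := by
          intro h
          have h' := congrArg List.reverse h
          rw [List.reverse_reverse] at h'
          have h3 := hQ.1
          rw [h'] at h3
          apply hQv
          rw [h']
          simpa using h3
        obtain ⟨Q', hQ'⟩ := wk_form (P := Q.reverse) (v := w) (w := p₀)
          (by rw [List.head?_reverse]; exact hQ.2.1) (by rw [List.getLast?_reverse]; exact hQ.1)
          hQr
        have hcw' := (hcw (p₀ :: P₀) Q p₀ w hP hQ).1
        have e : (p₀ :: P₀).dropLast ++ Q.reverse.dropLast =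
            (flg p₀ P' ++ flg w Q').map Prod.fst := by
          rw [List.map_append, flg_fst, flg_fst, hP', hQ', List.dropLast_concat,
            List.dropLast_concat]
        rw [e] at hcw'
        have hRQ' := red_rev hRQ
        rw [hQ'] at hRQ'
        have hF₂' : Fx r₂ (w :: Q' ++ [p₀]) := by
          intro z hz
          rw [← hQ'] at hz
          exact hF₂ z (List.mem_reverse.1 hz)
        have hRP' := hRP
        have hF₁' := hF₁
        rw [hP'] at hRP' hF₁'
        have h3 := (CYCaux.cor hM hCOR hSTR hNPC hEXF hTTOK (P := flg p₀ P' ++ flg w Q')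
          (by simp [flg]) hcw' (rflag_two hRP' hRQ' hr₁ hr₂ hF₁' hF₂')).2
          (by rw [nns_append, nns_flg, nns_flg]) [] (p₀, false)
          (P'.map (fun v => (v, true)) ++ flg w Q') (by simp [flg]) rfl
        -- the second vertices
        have hP₀ : P₀ = P' ++ [w] := by
          have := hP'
          rw [List.cons_append, List.cons.injEq] at this
          exact this.2
        have hQ₁' : Q₁ ++ [w] = Q'.reverse ++ [w] := by
          have h4 := congrArg List.reverse hQ'
          rw [List.reverse_reverse] at h4
          rw [hQ₁] at h4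
          simpa using h4
        have hQ₁'' : Q₁ = Q'.reverse := by
          simpa using hQ₁'
        obtain ⟨a, ha⟩ : ∃ a, (P' ++ [w]).head? = some a := by
          cases P' with
          | nil => exact ⟨w, rfl⟩
          | cons c P' => exact ⟨c, rfl⟩
        obtain ⟨b, hb⟩ : ∃ b, (Q₁ ++ [w]).head? = some b := by
          cases Q₁ with
          | nil => exact ⟨w, rfl⟩
          | cons c P' => exact ⟨c, rfl⟩
        have hab : a = b := by
          have h5 : ∃ c, (a, c) ∈ (P'.map (fun v => (v, true)) ++ flg w Q' ++ []).head? := by
            cases P' with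
            | nil =>
              simp at ha
              subst ha
              exact ⟨false, by simp [flg]⟩
            | cons c P' =>
              simp at ha
              subst ha
              exact ⟨true, by simp⟩
          have h6 : ∃ c, (b, c) ∈ (P'.map (fun v => (v, true)) ++ flg w Q' ++ []).getLast? := by
            rw [hQ₁''] at hb
            rcases List.eq_nil_or_concat Q' with rfl | ⟨Q'', c, rfl⟩
            · simp at hb
              subst hb
              exact ⟨false, by simp [flg]⟩
            · simp at hb
              subst hb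
              refine ⟨true, ?_⟩
              have e1 : P'.map (fun v => (v, true)) ++ flg w (Q''.concat c) ++ [] =
                  (P'.map (fun v => (v, true)) ++ (w, false) :: Q''.map (fun v => (v, true))) ++
                    [(c, true)] := by
                simp [flg]
              rw [e1, List.getLast?_concat]
              rfl
          obtain ⟨c, hc⟩ := h5
          obtain ⟨d, hd⟩ := h6
          exact h3 (a, c) hc (b, d) hd
        subst hab
        have hQ₂ : Q = p₀ :: (Q₁ ++ [w]) := by rw [hQ₁]; simp
        have hwP : Wk P₀ a w := by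
          refine ⟨by rw [hP₀]; exact ha, by rw [hP₀]; simp, ?_⟩
          exact hP.2.2.tail
        have hwQ : Wk (Q₁ ++ [w]) a w := by
          refine ⟨hb, by simp, ?_⟩
          have := hQ.2.2
          rw [hQ₂] at this
          exact this.tail
        have h7 := ih a (Q₁ ++ [w]) hwP hwQ (fun z hz => hF₁ z (List.mem_cons_of_mem _ hz))
          (fun z hz => hF₂ z (by rw [hQ₂]; exact List.mem_cons_of_mem _ hz))
          (fun x a b c y e => hRP (p₀ :: x) a b c y (by rw [e]; rfl))
          (fun x a b c y e => hRQ (p₀ :: x) a b c y (by rw [hQ₂, e]; rfl))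
        rw [hQ₂, h7]

end Pool.HE
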