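import Pool.Agent.Work.MP_7084a3_full.InterfaceG

set_option autoImplicit false

/-! # Block COR: closed walks with straight positions -/

namespace Pool.HE

open Pool.HA

namespace CORp

section gaps
variable {V : Type}

theorem prev_cons (q : V × ℕ) (x : List (V × ℕ)) (p : V) :
    (x.getLast?.map Prod.fst).getD q.1 = ((q :: x).getLast?.map Prod.fst).getD p := by
  rw [List.getLast?_cons]
  cases h : x.getLast? <;> simp

theorem mem_gapsGo (f : V) (l : List (V × ℕ)) : ∀ (p : V) (z : V × Stp V),
    z ∈ gapsGo f p l ↔ ∃ x q y, l = x ++ q :: y ∧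
      z = (q.1, ⟨(y.head?.map Prod.fst).getD f, (x.getLast?.map Prod.fst).getD p, q.2⟩) := by
  induction l with
  | nil => intro p z; simp [gapsGo]
  | cons q l ih =>
    intro p z
    cases l with
    | nil =>
      simp only [gapsGo, List.mem_singleton]
      constructor
      · intro h; exact ⟨[], q, [], rfl, by simpa using h⟩
      · rintro ⟨x, q', y, h, hz⟩
        cases x with
        | nil =>
          simp only [List.nil_append, List.cons.injEq] at h
          obtain ⟨rfl, rfl⟩ := h
          simpa using hz
        | cons a x => simp at h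
    | cons r l =>
      rw [show gapsGo f p (q :: r :: l) = (q.1, ⟨r.1, p, q.2⟩) :: gapsGo f q.1 (r :: l) from rfl,
        List.mem_cons, ih q.1 z]
      constructor
      · rintro (h | ⟨x, q', y, h, hz⟩)
        · exact ⟨[], q, r :: l, rfl, by simpa using h⟩
        · refine ⟨q :: x, q', y, by rw [h]; rfl, ?_⟩
          rw [hz, prev_cons q x p]
      · rintro ⟨x, q', y, h, hz⟩
        cases x with
        | nil =>
          left
          simp only [List.nil_append, List.cons.injEq] at h
          obtain ⟨rfl, rfl⟩ := h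
          simpa using hz
        | cons a x =>
          right
          simp only [List.cons_append, List.cons.injEq] at h
          obtain ⟨rfl, h⟩ := h
          refine ⟨x, q', y, h, ?_⟩
          rw [hz, prev_cons q x p]

theorem nx (x y : List (V × ℕ)) (q q0 : V × ℕ) (h : (x ++ q :: y).head? = some q0)
    (hne : y ++ x ≠ []) :
    ∃ r, (y ++ x).head? = some r ∧ (y.head?.map Prod.fst).getD q0.1 = r.1 := by
  cases y with
  | nil =>
    cases x with
    | nil => simp at hne
    | cons a x =>
      simp only [List.cons_append, List.head?_cons, Option.some.injEq] at h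
      subst h
      exact ⟨a, rfl, rfl⟩
  | cons a y => exact ⟨a, rfl, rfl⟩

theorem pv (x y : List (V × ℕ)) (q r0 : V × ℕ) (h : (x ++ q :: y).getLast? = some r0)
    (hne : y ++ x ≠ []) :
    ∃ p, (y ++ x).getLast? = some p ∧ (x.getLast?.map Prod.fst).getD r0.1 = p.1 := by
  cases hx : x.getLast? with
  | none =>
    rw [List.getLast?_eq_none_iff] at hx
    subst hx
    simp only [List.append_nil, ne_eq] at hne
    simp only [List.nil_append] at h
    rw [List.getLast?_cons] at h
    cases hy : y.getLast? with
    | none => rw [List.getLast?_eq_none_iff] at hy; exact absurd hy hne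
    | some p =>
      rw [hy] at h
      simp only [Option.getD_some, Option.some.injEq] at h
      subst h
      exact ⟨p, by rw [List.append_nil, hy], rfl⟩
  | some p =>
    refine ⟨p, ?_, rfl⟩
    rw [List.getLast?_append, hx]; rfl

theorem mem_gaps (P : List (V × ℕ)) (z : V × Stp V) (h2 : 2 ≤ P.length) :
    z ∈ gaps P ↔ ∃ x q y, P = x ++ q :: y ∧ ∃ r, (y ++ x).head? = some r ∧
      ∃ p, (y ++ x).getLast? = some p ∧ z = (q.1, ⟨r.1, p.1, q.2⟩) := by
  have hne : P ≠ [] := by rintro rfl; simp at h2
  obtain ⟨q0, hq0⟩ : ∃ q0, P.head? = some q0 := by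
    cases P with
    | nil => exact absurd rfl hne
    | cons a P => exact ⟨a, rfl⟩
  obtain ⟨r0, hr0⟩ : ∃ r0, P.getLast? = some r0 :=
    ⟨P.getLast hne, List.getLast?_eq_some_getLast hne⟩
  have e : gaps P = gapsGo q0.1 r0.1 P := by
    unfold gaps
    rw [hq0, hr0]
  rw [e, mem_gapsGo]
  have hnn : ∀ x q y, P = x ++ q :: y → y ++ x ≠ [] := by
    intro x q y h h'
    have h1 : (y ++ x).length = 0 := by rw [h']; rfl
    rw [h] at h2
    simp only [List.length_append, List.length_cons] at h1 h2
    omega
  constructor
  · rintro ⟨x, q, y, h, hz⟩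
    obtain ⟨r, hr1, hr2⟩ := nx x y q q0 (h ▸ hq0) (hnn x q y h)
    obtain ⟨p, hp1, hp2⟩ := pv x y q r0 (h ▸ hr0) (hnn x q y h)
    exact ⟨x, q, y, h, r, hr1, p, hp1, by rw [hz, hr2, hp2]⟩
  · rintro ⟨x, q, y, h, r, hr, p, hp, hz⟩
    obtain ⟨r', hr1, hr2⟩ := nx x y q q0 (h ▸ hq0) (hnn x q y h)
    obtain ⟨p', hp1, hp2⟩ := pv x y q r0 (h ▸ hr0) (hnn x q y h)
    refine ⟨x, q, y, h, ?_⟩
    rw [hr1] at hr; rw [hp1] at hp
    simp only [Option.some.injEq] at hr hp
    subst hr; subst hp
    rw [hz, hr2, hp2]

theorem kinds_go (f : V) (l : List (V × ℕ)) : ∀ p : V,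
    (gapsGo f p l).map (fun z => z.2.k) = l.map Prod.snd := by
  induction l with
  | nil => intro p; rfl
  | cons q l ih =>
    intro p
    cases l with
    | nil => rfl
    | cons r l =>
      rw [show gapsGo f p (q :: r :: l) = (q.1, ⟨r.1, p, q.2⟩) :: gapsGo f q.1 (r :: l) from rfl,
        List.map_cons, ih q.1]
      rfl

theorem kinds (P : List (V × ℕ)) (hne : P ≠ []) :
    (gaps P).map (fun z => z.2.k) = P.map Prod.snd := by
  obtain ⟨q0, hq0⟩ : ∃ q0, P.head? = some q0 := by
    cases P with
    | nil => exact absurd rfl hne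
    | cons a P => exact ⟨a, rfl⟩
  obtain ⟨r0, hr0⟩ : ∃ r0, P.getLast? = some r0 :=
    ⟨P.getLast hne, List.getLast?_eq_some_getLast hne⟩
  have e : gaps P = gapsGo q0.1 r0.1 P := by
    unfold gaps
    rw [hq0, hr0]
  rw [e, kinds_go]

/-- kinds of the positions -/
def kd (q : V × Bool) : V × ℕ := (q.1, if q.2 then 1 else 2)

theorem sum_kd (P : List (V × Bool)) :
    ((P.map kd).map (fun z => (z.2 : ℝ))).sum = P.length + nns P := by
  induction P with
  | nil => simp [nns]
  | cons q P ih =>
    rw [List.map_cons, List.map_cons, List.sum_cons, ih]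
    unfold nns kd
    rw [List.countP_cons, List.length_cons]
    cases q.2 <;> simp <;> ring

end gaps

section loops
variable {V : Type}

theorem sum_shift (f : ℕ → ℝ) (K : ℕ) (hf : ∀ j, f (j + K) = f j) (a : ℕ) :
    ∑ j ∈ Finset.range K, f (a + j) = ∑ j ∈ Finset.range K, f j := by
  induction a with
  | zero => simp
  | succ a ih =>
    rw [← ih]
    have h1 := Finset.sum_range_succ (fun j => f (a + j)) K
    have h2 := Finset.sum_range_succ' (fun j => f (a + j)) K
    rw [h1] at h2
    have h3 : f (a + K) = f (a + 0) := by rw [hf]; rfl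
    rw [h3] at h2
    have h4 : ∑ j ∈ Finset.range K, f (a + j) = ∑ j ∈ Finset.range K, f (a + (j + 1)) := by
      linarith
    rw [h4]
    apply Finset.sum_congr rfl
    intro j _
    congr 1
    ring

theorem sum_list (f : ℕ → ℝ) (n : ℕ) :
    ((List.range n).map f).sum = ∑ j ∈ Finset.range n, f j := by
  induction n with
  | zero => simp
  | succ n ih =>
    rw [List.range_succ, List.map_append, List.sum_append, ih, Finset.sum_range_succ]
    simp

theorem chain_range {α : Type} (R : α → α → Prop) (s : ℕ → α) (n : ℕ)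
    (h : ∀ j, j + 1 < n → R (s j) (s (j + 1))) : ((List.range n).map s).IsChain R := by
  rw [List.isChain_iff_getElem]
  intro i hi
  simp only [List.length_map, List.length_range] at hi
  simpa using h i hi

theorem head_range {α : Type} (s : ℕ → α) (n : ℕ) (x : α) (h : x ∈ ((List.range n).map s).head?) :
    x = s 0 := by
  cases n with
  | zero => simp at h
  | succ n =>
    rw [List.range_succ_eq_map] at h
    simp at h
    exact h.symm

theorem last_range {α : Type} (s : ℕ → α) (n : ℕ) (x : α)
    (h : x ∈ ((List.range (n + 1)).map s).getLast?) : x = s n := by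
  rw [List.range_succ, List.map_append] at h
  simp at h
  exact h.symm

variable {adj : V → V → Prop} {ang : V → V → V → ℝ}

theorem wt_pos (h0 : NP0 adj ang) (v : V) (s : Stp V)
    (hs : TStp adj v s ∨ (s.k = 1 ∧ Str adj ang v s.a s.b) ∨ s.k = 2) : 0 < wt ang v s := by
  unfold wt
  rcases hs with h | h | h
  · rw [if_pos h.1]
    exact h0.pos v s.a s.b h.2.1 h.2.2.2 h.2.2.1
  · rw [if_neg (by omega), h.1]; norm_num
  · rw [if_neg (by omega), h]; norm_num

theorem wt_gap (v : V) (s : Stp V) (hs : s.k ≠ 0) : 1 ≤ wt ang v s := by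
  unfold wt
  rw [if_neg hs]
  have : 1 ≤ s.k := by omega
  exact_mod_cast this

theorem loop_ge (h0 : NP0 adj ang) (v : V) (K : ℕ) (s : ℕ → Stp V) (hK : 0 < K)
    (hper : ∀ j, s (j + K) = s j)
    (hst : ∀ j, TStp adj v (s j) ∨ ((s j).k = 1 ∧ Str adj ang v (s j).a (s j).b) ∨ (s j).k = 2)
    (hc : ∀ j, Cmp (s j) (s (j + 1))) :
    2 ≤ ∑ j ∈ Finset.range K, wt ang v (s j) := by
  have hpos : ∀ j, 0 < wt ang v (s j) := fun j => wt_pos h0 v (s j) (hst j)
  by_cases hA : ∀ j, (s j).k = 0
  · have hT : ∀ j, TStp adj v (s j) := by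
      intro j
      rcases hst j with h | h | h
      · exact h
      · exact absurd (hA j) (by omega)
      · exact absurd (hA j) (by omega)
    obtain ⟨K', rfl⟩ : ∃ K', K = K' + 1 := ⟨K - 1, by omega⟩
    have h := h0.loop v ((List.range (K' + 1)).map s)
      (by intro h'; simpa using congrArg List.length h')
      ⟨by
        intro x hx
        simp only [List.mem_map] at hx
        obtain ⟨j, _, rfl⟩ := hx
        exact hT j, chain_range Cmp s _ (fun j _ => hc j)⟩
      (by
        intro x hx t ht
        rw [last_range s K' x hx, head_range s _ t ht]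
        have := hc K'
        have h2 := hper 0
        rw [Nat.zero_add] at h2
        rw [h2] at this
        exact this)
    unfold wts at h
    rw [List.map_map, show (wt ang v ∘ s) = fun j => wt ang v (s j) from rfl, sum_list] at h
    exact h
  · push Not at hA
    obtain ⟨j0, hj0⟩ := hA
    rw [← sum_shift (fun j => wt ang v (s j)) K (fun j => by simp only [hper]) j0]
    obtain ⟨K', rfl⟩ : ∃ K', K = K' + 1 := ⟨K - 1, by omega⟩
    rw [Finset.sum_range_succ']
    simp only [Nat.add_zero]
    have hrest : 0 ≤ ∑ j ∈ Finset.range K', wt ang v (s (j0 + (j + 1))) :=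
      Finset.sum_nonneg fun j _ => (hpos _).le
    rcases hst j0 with h | h | h
    · exact absurd h.1 hj0
    · have hw : wt ang v (s j0) = 1 := by
        unfold wt; rw [if_neg hj0, h.1]; norm_num
      rw [hw]
      have key : 1 ≤ ∑ j ∈ Finset.range K', wt ang v (s (j0 + (j + 1))) := by
        by_cases hB : ∃ j1, j1 < K' ∧ (s (j0 + (j1 + 1))).k ≠ 0
        · obtain ⟨j1, hj1, hk⟩ := hB
          have h1 := wt_gap (ang := ang) v _ hk
          have h2 := Finset.single_le_sum (f := fun j => wt ang v (s (j0 + (j + 1))))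
            (fun j _ => (hpos _).le) (Finset.mem_range.mpr hj1)
          exact h1.trans h2
        · push Not at hB
          cases K' with
          | zero =>
            exfalso
            have h1 := (hc j0).1
            rw [hper j0] at h1
            exact h.2.1 h1.symm
          | succ K'' =>
            have hT : ∀ j, j < K'' + 1 → TStp adj v (s (j0 + (j + 1))) := by
              intro j hj
              have h1 := hB j hj
              rcases hst (j0 + (j + 1)) with h' | h' | h'
              · exact h'
              · exact absurd h1 (by omega)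
              · exact absurd h1 (by omega)
            have h3 := h.2.2 ((List.range (K'' + 1)).map (fun j => s (j0 + (j + 1))))
              (by intro h'; simpa using congrArg List.length h')
              ⟨by
                intro x hx
                simp only [List.mem_map, List.mem_range] at hx
                obtain ⟨j, hj, rfl⟩ := hx
                exact hT j hj,
                chain_range Cmp (fun j => s (j0 + (j + 1))) _ (fun j _ => hc _)⟩
              (by
                intro t ht
                rw [head_range _ _ t ht]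
                exact ((hc j0).1).symm)
              (by
                intro t ht
                rw [last_range _ _ t ht]
                have h4 := (hc (j0 + (K'' + 1))).1
                rw [show j0 + (K'' + 1) + 1 = j0 + (K'' + 1 + 1) by ring, hper j0] at h4
                exact h4)
            unfold wts at h3
            rw [List.map_map, show (wt ang v ∘ fun j => s (j0 + (j + 1))) =
              fun j => wt ang v (s (j0 + (j + 1))) from rfl, sum_list] at h3
            exact h3
      linarith
    · have hw : wt ang v (s j0) = 2 := by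
        unfold wt; rw [if_neg hj0, h]; norm_num
      rw [hw]; linarith

theorem no_fill1 {A : Type} [AddCommGroup A] {T : V → V → V → A} {a : V} {D : A} {n : ℕ}
    (h : Fill adj T [a] D n) : False := by
  generalize hl : [a] = l at h
  cases h with
  | nil => simp at hl
  | sph _ _ => simp at hl
  | pair _ _ _ _ _ => simp at hl
  | tri _ _ _ _ => simp at hl

end loops

end CORp

open CORp in
theorem stmt_COR (hG : Stmt_GBW) (hA : Stmt_ASPH0) : Stmt_COR := by
  classical
  intro V A _ adj T ang hT h0 P hP hF hfill
  obtain ⟨D, n1, hD⟩ := hfill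
  have hex : ∃ n, Fill adj T (P.map Prod.fst) D n := ⟨n1, hD⟩
  set n := Nat.find hex with hn
  have hmin : MinF adj T (P.map Prod.fst) D n :=
    ⟨Nat.find_spec hex, fun n' h' => Nat.find_min' hex h'⟩
  -- length at least two
  have hlen : 2 ≤ P.length := by
    rcases P with _ | ⟨a, _ | ⟨b, P⟩⟩
    · exact absurd rfl hP
    · exfalso
      exact no_fill1 hmin.1
    · simp
  have hmapfst : (P.map kd).map Prod.fst = P.map Prod.fst := by
    rw [List.map_map]; rfl
  obtain ⟨X, hX, hcard, hacc⟩ := hG V A adj T hT (fun _ => 0) (fun _ => 0) (fun _ => ∅)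
    (P.map kd) D n (by simpa using hP)
    (by
      intro q hq
      simp only [List.mem_map] at hq
      obtain ⟨a, _, rfl⟩ := hq
      unfold kd
      cases a.2 <;> simp)
    (by
      rw [List.isChain_iff_getElem]
      intro i hi; rfl)
    (fun _ _ _ _ => rfl) (by rw [hmapfst]; exact hmin)
    (fun x q y _ r _ c hc => absurd hc (Set.notMem_empty c))
    (fun D' n' _ h' => hA V A adj T ang hT h0 D' n' h')
  have hlen' : 2 ≤ (P.map kd).length := by simpa using hlen
  -- the steps
  have hst : ∀ i j, TStp adj (X.v i) (X.s i j) ∨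
      ((X.s i j).k = 1 ∧ Str adj ang (X.v i) (X.s i j).a (X.s i j).b) ∨ (X.s i j).k = 2 := by
    intro i j
    rcases hX.stp i j with h | ⟨_, h⟩
    · exact Or.inl h
    · right
      rw [mem_gaps _ _ hlen'] at h
      obtain ⟨x', q', y', hP', r', hr', p', hp', hz⟩ := h
      rw [List.map_eq_append_iff] at hP'
      obtain ⟨x, l, hPx, hx, hl⟩ := hP'
      rw [List.map_eq_cons_iff] at hl
      obtain ⟨q, y, rfl, hq, hy⟩ := hl
      rw [Prod.mk.injEq] at hz
      obtain ⟨hz1, hz2⟩ := hz
      rw [hz2, hz1]
      rw [← hx, ← hy, ← List.map_append, List.head?_map, Option.map_eq_some_iff] at hr'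
      rw [← hx, ← hy, ← List.map_append, List.getLast?_map, Option.map_eq_some_iff] at hp'
      obtain ⟨r, hr, hr2⟩ := hr'
      obtain ⟨p, hp, hp2⟩ := hp'
      rw [← hq, ← hr2, ← hp2]
      by_cases hb : q.2 = true
      · left
        refine ⟨by simp [kd, hb], ?_⟩
        exact hF x q y hPx hb r hr p hp
      · right
        simp [kd, hb]
  have hcmp : ∀ i j, Cmp (X.s i j) (X.s i (j + 1)) := fun i j =>
    ⟨(hX.cmp i j).1, (hX.cmp i j).2.1⟩
  have hge : ∀ i, 2 ≤ ∑ j ∈ Finset.range (X.K i), wt ang (X.v i) (X.s i j) := fun i =>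
    loop_ge h0 (X.v i) (X.K i) (X.s i) (hX.pos i) (hX.per i) (hst i) (hcmp i)
  -- the total weight
  have hacc1 := hacc ℝ
    { f := ang
      g := fun _ s => (s.k : ℝ)
      J := fun _ _ _ _ => 0
      κ := 1
      ψ := 0
      tri := by
        intro u v c huv huc hcv
        have h1 := h0.sum u v c huv (h0.symm _ _ hcv) huc
        have e1 := h0.comm u c v
        have e2 := h0.comm c v u
        have e3 := h0.comm v u c
        simp only [AddMonoidHom.zero_apply, sub_zero]
        linarith
      swap := by intros; simp }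
  have htot : ∑ i, ∑ j ∈ Finset.range (X.K i), wt ang (X.v i) (X.s i j)
      = P.length + nns P + n := by
    have e1 : ((gaps (P.map kd)).map (fun q => (q.2.k : ℝ))).sum = P.length + nns P := by
      rw [← sum_kd P]
      have h1 := kinds (P.map kd) (by simpa using hP)
      have h2 := congrArg (List.map (fun m : ℕ => (m : ℝ))) h1
      rw [List.map_map, List.map_map] at h2
      have h3 := congrArg List.sum h2
      exact h3
    rw [e1] at hacc1
    simp only [LSys.tot, Acc.val, Acc.jn, add_zero, nsmul_eq_mul, mul_one,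
      AddMonoidHom.zero_apply, sub_zero] at hacc1
    rw [← hacc1]
    rfl
  have hsum : ∑ i, (∑ j ∈ Finset.range (X.K i), wt ang (X.v i) (X.s i j) - 2)
      = (nns P : ℝ) - 2 := by
    rw [Finset.sum_sub_distrib, htot, Finset.sum_const, Finset.card_univ, nsmul_eq_mul]
    have h1 : (2:ℝ) * Fintype.card X.ι = P.length + n + 2 := by
      have : 2 * Fintype.card X.ι = P.length + n + 2 := by simpa using hcard
      exact_mod_cast this
    linarith
  have hnn : ∀ i ∈ (Finset.univ : Finset X.ι),
      0 ≤ ∑ j ∈ Finset.range (X.K i), wt ang (X.v i) (X.s i j) - 2 := fun i _ => by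
    have := hge i
    linarith
  have h2 : (2:ℝ) ≤ nns P := by
    have := Finset.sum_nonneg hnn
    rw [hsum] at this
    linarith
  refine ⟨by exact_mod_cast h2, ?_⟩
  intro hns x q y hPx hq r hr p hp
  have hz : ∀ i ∈ (Finset.univ : Finset X.ι),
      ∑ j ∈ Finset.range (X.K i), wt ang (X.v i) (X.s i j) - 2 = 0 := by
    rw [← Finset.sum_eq_zero_iff_of_nonneg hnn, hsum, hns]
    norm_num
  -- the gap
  have hmem : (q.1, (⟨r.1, p.1, 2⟩ : Stp V)) ∈ gaps (P.map kd) := by
    rw [mem_gaps _ _ hlen']
    refine ⟨x.map kd, kd q, y.map kd, by rw [hPx]; simp, kd r, ?_, kd p, ?_, ?_⟩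
    · rw [← List.map_append, List.head?_map, Option.mem_def.mp hr]; rfl
    · rw [← List.map_append, List.getLast?_map, Option.mem_def.mp hp]; rfl
    · simp [kd, hq]
  have hacc2 := hacc ℤ
    { f := fun _ _ _ => 0
      g := fun v s => if v = q.1 ∧ s = ⟨r.1, p.1, 2⟩ then 1 else 0
      J := fun _ _ _ _ => 0
      κ := 0
      ψ := 0
      tri := by intros; simp
      swap := by intros; simp }
  have hpos2 : 0 < ((gaps (P.map kd)).map (fun z =>
      if z.1 = q.1 ∧ z.2 = (⟨r.1, p.1, 2⟩ : Stp V) then (1:ℤ) else 0)).sum := by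
    have hg : ∀ l : List (V × Stp V), (q.1, (⟨r.1, p.1, 2⟩ : Stp V)) ∈ l →
        0 < (l.map (fun z => if z.1 = q.1 ∧ z.2 = (⟨r.1, p.1, 2⟩ : Stp V) then (1:ℤ) else 0)).sum := by
      intro l hl
      have hle : ∀ l' : List (V × Stp V), 0 ≤ (l'.map (fun z =>
          if z.1 = q.1 ∧ z.2 = (⟨r.1, p.1, 2⟩ : Stp V) then (1:ℤ) else 0)).sum := by
        intro l'
        apply List.sum_nonneg
        intro a ha
        simp only [List.mem_map] at ha
        obtain ⟨b, _, rfl⟩ := ha
        split_ifs <;> norm_num
      induction l with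
      | nil => simp at hl
      | cons b l ih =>
        rw [List.map_cons, List.sum_cons]
        rcases List.mem_cons.mp hl with h | h
        · rw [← h, if_pos ⟨rfl, rfl⟩]
          have := hle l
          linarith
        · have := ih h
          have h3 : (0:ℤ) ≤ if b.1 = q.1 ∧ b.2 = (⟨r.1, p.1, 2⟩ : Stp V) then (1:ℤ) else 0 := by
            split_ifs <;> norm_num
          linarith
    exact hg _ hmem
  simp only [LSys.tot, Acc.val, Acc.jn, add_zero, smul_zero, sub_zero,
    AddMonoidHom.zero_apply] at hacc2
  rw [← hacc2] at hpos2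
  obtain ⟨i, _, hi⟩ := Finset.exists_ne_zero_of_sum_ne_zero hpos2.ne'
  obtain ⟨j, hj, hij⟩ := Finset.exists_ne_zero_of_sum_ne_zero hi
  by_cases hk : (X.s i j).k = 0
  · rw [if_pos hk] at hij; exact absurd rfl hij
  rw [if_neg hk] at hij
  by_cases hb : X.v i = q.1 ∧ X.s i j = ⟨r.1, p.1, 2⟩
  swap
  · rw [if_neg hb] at hij; exact absurd rfl hij
  have hw2 : wt ang (X.v i) (X.s i j) = 2 := by
    unfold wt; rw [if_neg hk, hb.2]; norm_num
  have hi2 := hz i (Finset.mem_univ i)
  have hpos : ∀ j, 0 < wt ang (X.v i) (X.s i j) := fun j => wt_pos h0 _ _ (hst i j)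
  have hK : X.K i = 1 := by
    by_contra hK
    have hKp := hX.pos i
    have : ∃ j', j' ∈ Finset.range (X.K i) ∧ j' ≠ j := by
      rw [Finset.mem_range] at hj
      rcases Nat.eq_zero_or_pos j with h | h
      · exact ⟨1, Finset.mem_range.mpr (by omega), by omega⟩
      · exact ⟨0, Finset.mem_range.mpr (by omega), by omega⟩
    obtain ⟨j', hj', hjj⟩ := this
    have h3 : wt ang (X.v i) (X.s i j) + wt ang (X.v i) (X.s i j')
        ≤ ∑ j ∈ Finset.range (X.K i), wt ang (X.v i) (X.s i j) := by
      rw [← Finset.sum_pair (f := fun j => wt ang (X.v i) (X.s i j)) (Ne.symm hjj)]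
      apply Finset.sum_le_sum_of_subset_of_nonneg
      · intro a ha
        simp only [Finset.mem_insert, Finset.mem_singleton] at ha
        rcases ha with rfl | rfl
        · exact hj
        · exact hj'
      · intro a _ _
        exact (hpos a).le
    have h4 := hpos j'
    rw [hw2] at h3
    linarith
  have h5 := (hcmp i j).1
  have h6 : X.s i (j + 1) = X.s i j := by
    have := hX.per i j
    rw [hK] at this
    exact this
  rw [h6, hb.2] at h5
  exact h5.symm

end Pool.HE
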