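import Pool.Agent.Work.MP_7084a3_full.InterfaceG
import Pool.Agent.Work.MP_7084a3_full.InterfaceE
import Pool.Agent.Work.MP_7084a3_h91.B.XISO
import Pool.Agent.Work.MP_7084a3_h91.B.BIG

set_option autoImplicit false

namespace Pool.HE

open Pool.HA

/-- flagged closed walks of reflections are flagged closed walks with straight positions -/
theorem CYCaux.flag {S : Type} [DecidableEq S] {M : CoxeterMatrix S} (hM : ETyp M)
    (hSTR : Stmt_STR) (hTTOK : Stmt_TTOK) {P : List (Vtx (gen M) × Bool)}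
    (hP : CW Vtx.ad (P.map Prod.fst)) (hR : RFlag P) : FlagOK Vtx.ad (ang M 0) P := by
  have hT := hTTOK (Art M) S (gen M)
  intro x q y h hq r hr p hp
  obtain ⟨hne, ρ, hρ, h1, h2, h3⟩ := hR x q y h hq r hr p hp
  exact hSTR S M hM 0 ρ p.1 q.1 r.1 hρ (hT.symm _ _ (xiso_prev hP h hp)) (xiso_next hP h hr)
    (Ne.symm hne) h3 h2 h1

/-- COR for closed walks flagged by reflections -/
theorem CYCaux.cor {S : Type} [Finite S] [DecidableEq S] {M : CoxeterMatrix S} (hM : ETyp M)
    (hCOR : Stmt_COR) (hSTR : Stmt_STR) (hNPC : Stmt_NPC0) (hEXF : Stmt_EXF)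
    (hTTOK : Stmt_TTOK) {P : List (Vtx (gen M) × Bool)} (hP0 : P ≠ [])
    (hP : CW Vtx.ad (P.map Prod.fst)) (hR : RFlag P) :
    2 ≤ nns P ∧ (nns P = 2 → ∀ x q y, P = x ++ q :: y → q.2 = false →
        ∀ r ∈ (y ++ x).head?, ∀ p ∈ (y ++ x).getLast?, r.1 = p.1) := by
  obtain ⟨D, n, hD⟩ := hEXF S M hM.ne_zero (P.map Prod.fst) hP
  exact hCOR (Vtx (gen M)) (C2 (gen M)) Vtx.ad TT (ang M 0) (hTTOK (Art M) S (gen M))
    (hNPC S M hM).1 P hP0 (CYCaux.flag hM hSTR hTTOK hP hR) ⟨D, n, hD⟩

theorem stmt_CYC (hCOR : Stmt_COR) (hSTR : Stmt_STR) (hNPC : Stmt_NPC0) (hEXF : Stmt_EXF)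
    (hTTOK : Stmt_TTOK) : Stmt_CYC := by
  intro S _ M hM r l hr hl hcw hfx hred
  classical
  have hmap : (l.map fun v => (v, true)).map Prod.fst = l := by
    rw [List.map_map]
    exact List.map_id _
  have h1 := CYCaux.cor hM hCOR hSTR hNPC hEXF hTTOK (P := l.map fun v => (v, true))
    (by simpa using hl) (by rw [hmap]; exact hcw) (by
    intro x q y h hq
    obtain ⟨x', z', hl', hx, hz⟩ := List.map_eq_append_iff.1 h
    obtain ⟨q', y', hz', hq', hy⟩ := List.map_eq_cons_iff.1 hz
    subst hx hy hq' hz'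
    intro n hn p hp
    rw [← List.map_append, List.head?_map] at hn
    rw [← List.map_append, List.getLast?_map] at hp
    obtain ⟨n', hn', rfl⟩ := Option.mem_map.1 hn
    obtain ⟨p', hp', rfl⟩ := Option.mem_map.1 hp
    refine ⟨hred x' q' y' hl' n' hn' p' hp', r, hr, ?_, ?_, ?_⟩
    · apply hfx
      have h2 := List.mem_of_mem_head? hn'
      rw [hl']
      rcases List.mem_append.1 h2 with h3 | h3
      · exact List.mem_append_right _ (List.mem_cons_of_mem _ h3)
      · exact List.mem_append_left _ h3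
    · apply hfx
      rw [hl']
      simp
    · apply hfx
      have h2 := List.mem_of_mem_getLast? hp'
      rw [hl']
      rcases List.mem_append.1 h2 with h3 | h3
      · exact List.mem_append_right _ (List.mem_cons_of_mem _ h3)
      · exact List.mem_append_left _ h3)
  have h2 : nns (l.map fun v => (v, true)) = 0 := by
    unfold nns
    rw [List.countP_eq_zero]
    intro a ha
    obtain ⟨b, -, rfl⟩ := List.mem_map.1 ha
    simp
  have := h1.1
  omega

end Pool.HE
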