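import Pool.Agent.Work.MP_7084a3_full.InterfaceE

set_option autoImplicit false

namespace Pool.HE

open Pool.HA

namespace CYCDaux

variable {G S : Type} [Group G] {g : S → G}

open Classical in
/-- signed coefficient of a directed edge -/
noncomputable def w (c : C1 g) (x y : Vtx g) : ℤ :=
  if x.ty < y.ty then c (x, y) else if y.ty < x.ty then - c (y, x) else 0

theorem w_add (c d : C1 g) (x y : Vtx g) : w (c + d) x y = w c x y + w d x y := by
  unfold w
  split_ifs <;> simp [Finsupp.add_apply]
  ring

theorem w_sub (c d : C1 g) (x y : Vtx g) : w (c - d) x y = w c x y - w d x y := by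
  unfold w
  split_ifs <;> simp [Finsupp.sub_apply]
  ring

theorem w_EE (a b x y : Vtx g) (h : a ≠ x) : w (EE a b) x y ≤ 0 := by
  have h1 : (a, b) ≠ (x, y) := fun e => h (by simpa using congrArg Prod.fst e)
  classical
  unfold w EE dl1
  rcases lt_trichotomy a.ty b.ty with hab | hab | hab
  · rw [if_pos hab, if_neg (by omega : ¬ b.ty < a.ty)]
    split_ifs with h2 h3
    · rw [sub_zero, Finsupp.single_apply, if_neg h1]
    · rw [sub_zero, Finsupp.single_apply]
      split_ifs <;> simp
    · exact le_rfl
  · rw [if_neg (by omega : ¬ a.ty < b.ty), if_neg (by omega : ¬ b.ty < a.ty)]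
    simp
  · rw [if_pos hab, if_neg (by omega : ¬ a.ty < b.ty)]
    split_ifs with h2 h3
    · rw [zero_sub, Finsupp.neg_apply, Finsupp.single_apply]
      split_ifs <;> simp
    · rw [zero_sub, Finsupp.neg_apply, Finsupp.single_apply, if_neg]
      · simp
      · intro e
        exact h1 (by rw [Prod.mk.injEq] at e ⊢; exact ⟨e.2, e.1⟩)
    · exact le_rfl

theorem nf_eq {X : Type} (c : X →₀ ℤ) (s : Finset X) (hs : c.support ⊆ s) :
    nf c = ∑ x ∈ s, (c x).natAbs := by
  unfold nf
  exact Finsupp.sum_of_support_subset _ hs _ (by simp)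

theorem nf_single {X : Type} (c : X →₀ ℤ) (p : X) (d : ℤ)
    (h : (c p + d).natAbs + 1 ≤ (c p).natAbs) : nf (c + Finsupp.single p d) + 1 ≤ nf c := by
  classical
  have h1 : (c + Finsupp.single p d).support ⊆ insert p c.support := by
    intro x hx
    rw [Finset.mem_insert]
    by_contra hc
    push Not at hc
    rw [Finsupp.mem_support_iff, Finsupp.add_apply, Finsupp.single_apply, if_neg (Ne.symm hc.1),
      add_zero] at hx
    exact hc.2 (Finsupp.mem_support_iff.2 hx)
  rw [nf_eq _ _ h1, nf_eq c (insert p c.support) (Finset.subset_insert _ _)]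
  rw [← Finset.add_sum_erase _ _ (Finset.mem_insert_self p c.support),
    ← Finset.add_sum_erase _ _ (Finset.mem_insert_self p c.support)]
  have h2 : ∑ x ∈ (insert p c.support).erase p, ((c + Finsupp.single p d) x).natAbs =
      ∑ x ∈ (insert p c.support).erase p, (c x).natAbs := by
    apply Finset.sum_congr rfl
    intro x hx
    rw [Finsupp.add_apply, Finsupp.single_apply, if_neg (Ne.symm (Finset.ne_of_mem_erase hx)),
      add_zero]
  rw [h2, Finsupp.add_apply, Finsupp.single_apply, if_pos rfl]
  omega

theorem nf_EE (c : C1 g) (a b : Vtx g) (h : 1 ≤ w c a b) : nf (c - EE a b) + 1 ≤ nf c := by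
  classical
  unfold w at h
  unfold EE dl1
  rcases lt_trichotomy a.ty b.ty with hab | hab | hab
  · rw [if_pos hab] at h
    rw [if_pos hab, if_neg (by omega : ¬ b.ty < a.ty), sub_zero, sub_eq_add_neg,
      ← Finsupp.single_neg]
    apply nf_single
    omega
  · rw [if_neg (by omega), if_neg (by omega)] at h
    omega
  · rw [if_neg (by omega), if_pos hab] at h
    rw [if_pos hab, if_neg (by omega : ¬ a.ty < b.ty), zero_sub, sub_neg_eq_add]
    apply nf_single
    omega

theorem nf_path (c : C1 g) (f : ℕ → Vtx g) (n : ℕ) (hinj : ∀ i < n, ∀ j < n, f i = f j → i = j)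
    (hw : ∀ i < n, 1 ≤ w c (f i) (f (i + 1))) :
    nf (c - ∑ i ∈ Finset.range n, EE (f i) (f (i + 1))) + n ≤ nf c := by
  induction n with
  | zero => simp
  | succ n ih =>
    have h1 := ih (fun i hi j hj => hinj i (by omega) j (by omega)) (fun i hi => hw i (by omega))
    rw [Finset.sum_range_succ, ← sub_sub]
    have h2 : 1 ≤ w (c - ∑ i ∈ Finset.range n, EE (f i) (f (i + 1))) (f n) (f (n + 1)) := by
      rw [w_sub]
      have h3 : ∀ m ≤ n, w (∑ i ∈ Finset.range m, EE (f i) (f (i + 1))) (f n) (f (n + 1)) ≤ 0 := by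
        intro m hm
        induction m with
        | zero =>
          simp [w]
        | succ m ihm =>
          rw [Finset.sum_range_succ, w_add]
          have h4 := ihm (by omega)
          have h5 := w_EE (f m) (f (m + 1)) (f n) (f (n + 1)) (fun e => by
            have := hinj m (by omega) n (by omega) e
            omega)
          omega
      have h6 := h3 n le_rfl
      have h7 := hw n (by omega)
      omega
    have h8 := nf_EE _ _ _ h2
    omega

theorem bd1_single (p : Vtx g × Vtx g) (a : ℤ) :
    bd1 g (Finsupp.single p a) = Finsupp.single p.2 a - Finsupp.single p.1 a := by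
  unfold bd1
  rw [Finsupp.liftAddHom_apply_single]
  simp [AddMonoidHom.flip_apply, Finsupp.smul_single]

theorem bd1_EE (a b : Vtx g) (h : a.ty ≠ b.ty) :
    bd1 g (EE a b) = Finsupp.single b 1 - Finsupp.single a 1 := by
  classical
  unfold EE dl1
  rcases lt_or_gt_of_ne h with hab | hab
  · rw [if_pos hab, if_neg (by omega : ¬ b.ty < a.ty), sub_zero, bd1_single]
  · rw [if_pos hab, if_neg (by omega : ¬ a.ty < b.ty), zero_sub, map_neg, bd1_single]
    simp

theorem w_ne (c : C1 g) (a b : Vtx g) (h : 1 ≤ w c a b) : a.ty ≠ b.ty := by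
  intro e
  unfold w at h
  rw [if_neg (by omega), if_neg (by omega)] at h
  omega

theorem bd1_path (c : C1 g) (f : ℕ → Vtx g) (n : ℕ)
    (hw : ∀ i < n, 1 ≤ w c (f i) (f (i + 1))) :
    bd1 g (∑ i ∈ Finset.range n, EE (f i) (f (i + 1))) =
      Finsupp.single (f n) 1 - Finsupp.single (f 0) 1 := by
  induction n with
  | zero => simp
  | succ n ih =>
    rw [Finset.sum_range_succ, map_add, ih (fun i hi => hw i (by omega)),
      bd1_EE _ _ (w_ne c _ _ (hw n (by omega)))]
    abel

theorem wch_snoc (l : List (Vtx g)) (a b : Vtx g) : wch (l ++ [a, b]) = wch (l ++ [a]) + EE a b := by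
  induction l with
  | nil => simp [wch]
  | cons x l ih =>
    cases l with
    | nil => simp [wch]
    | cons y l =>
      simp only [List.cons_append, wch] at ih ⊢
      rw [ih, add_assoc]

theorem wch_range (f : ℕ → Vtx g) (n : ℕ) :
    wch ((List.range (n + 1)).map f) = ∑ i ∈ Finset.range n, EE (f i) (f (i + 1)) := by
  induction n with
  | zero => simp [wch]
  | succ n ih =>
    rw [Finset.sum_range_succ, ← ih, List.range_succ, List.range_succ]
    simp only [List.map_append, List.map_cons, List.map_nil, List.append_assoc, List.cons_append,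
      List.nil_append]
    rw [wch_snoc]

theorem cch_range (f : ℕ → Vtx g) (n : ℕ) (hn : f n = f 0) :
    cch ((List.range n).map f) = ∑ i ∈ Finset.range n, EE (f i) (f (i + 1)) := by
  rw [← wch_range]
  cases n with
  | zero => simp [cch, wch]
  | succ n =>
    rw [List.range_succ (n := n + 1), List.map_append, List.map_cons, List.map_nil, hn,
      List.range_succ_eq_map, List.map_cons]
    rfl

/-- outgoing edge exists -/
theorem bal (c : C1 g) (hc : ∀ p ∈ c.support, p.1.ty < p.2.ty ∧ p.1.ad p.2) (h0 : bd1 g c = 0)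
    (x v : Vtx g) (hx : 1 ≤ w c x v) : ∃ y, 1 ≤ w c v y := by
  classical
  by_contra hno
  push Not at hno
  have h1 : (bd1 g c) v = c.sum (fun p a => a * ((if p.2 = v then 1 else 0) -
      (if p.1 = v then 1 else 0))) := by
    conv_lhs => rw [← Finsupp.sum_single c]
    rw [Finsupp.sum, map_sum, Finsupp.finset_sum_apply]
    apply Finset.sum_congr rfl
    intro p _
    rw [bd1_single, Finsupp.sub_apply]
    by_cases e2 : p.2 = v <;> by_cases e1 : p.1 = v <;> simp [Finsupp.single_apply, e1, e2]
  rw [h0, Finsupp.zero_apply] at h1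
  have h2 : ∀ p ∈ c.support, 0 ≤ c p * ((if p.2 = v then 1 else 0) -
      (if p.1 = v then (1 : ℤ) else 0)) := by
    intro p hp
    have hlt := (hc p hp).1
    by_cases e2 : p.2 = v
    · have e1 : p.1 ≠ v := by
        intro e
        rw [e, e2] at hlt
        omega
      rw [if_pos e2, if_neg e1]
      have h3 := hno p.1
      unfold w at h3
      rw [← e2, if_neg (by omega), if_pos hlt] at h3
      have : c (p.1, p.2) = c p := rfl
      rw [this] at h3
      omega
    · rw [if_neg e2]
      by_cases e1 : p.1 = v
      · rw [if_pos e1]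
        have h3 := hno p.2
        unfold w at h3
        rw [← e1, if_pos hlt] at h3
        have : c (p.1, p.2) = c p := rfl
        rw [this] at h3
        omega
      · rw [if_neg e1]
        simp
  have h3 := (Finset.sum_eq_zero_iff_of_nonneg h2).1 (by rw [Finsupp.sum] at h1; exact h1.symm)
  unfold w at hx
  split_ifs at hx with h4 h5
  · have hm : (x, v) ∈ c.support := Finsupp.mem_support_iff.2 (by omega)
    have h6 := h3 _ hm
    have h7 : x ≠ v := by
      intro e
      rw [e] at h4
      omega
    simp only [if_true, if_neg h7, sub_zero, mul_one] at h6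
    omega
  · have hm : (v, x) ∈ c.support := Finsupp.mem_support_iff.2 (by omega)
    have h6 := h3 _ hm
    have h7 : x ≠ v := by
      intro e
      rw [e] at h5
      omega
    simp only [if_true, if_neg h7] at h6
    omega
  · omega

/-- existence of a cycle of positive edges -/
theorem cyc (c : C1 g) (hc : ∀ p ∈ c.support, p.1.ty < p.2.ty ∧ p.1.ad p.2) (h0 : bd1 g c = 0)
    (hne : c ≠ 0) : ∃ (f : ℕ → Vtx g) (n : ℕ), 0 < n ∧ f n = f 0 ∧
      (∀ i < n, ∀ j < n, f i = f j → i = j) ∧ ∀ i, 1 ≤ w c (f i) (f (i + 1)) := by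
  classical
  obtain ⟨p, hp⟩ := Finsupp.support_nonempty_iff.2 hne
  have hp0 := Finsupp.mem_support_iff.1 hp
  have hplt := (hc p hp).1
  obtain ⟨v0, y0, h1⟩ : ∃ v y, 1 ≤ w c v y := by
    rcases lt_or_gt_of_ne hp0 with h | h
    · refine ⟨p.2, p.1, ?_⟩
      unfold w
      rw [if_neg (by omega), if_pos hplt]
      have : c (p.1, p.2) = c p := rfl
      rw [this]
      omega
    · refine ⟨p.1, p.2, ?_⟩
      unfold w
      rw [if_pos hplt]
      have : c (p.1, p.2) = c p := rfl
      rw [this]
      omega
  let P : Set (Vtx g) := {v | ∃ y, 1 ≤ w c v y}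
  have hfin : P.Finite := by
    apply (Finset.finite_toSet (c.support.image Prod.fst ∪ c.support.image Prod.snd)).subset
    rintro v ⟨y, hy⟩
    unfold w at hy
    rw [Finset.mem_coe, Finset.mem_union, Finset.mem_image, Finset.mem_image]
    split_ifs at hy with h4 h5
    · exact Or.inl ⟨(v, y), Finsupp.mem_support_iff.2 (by omega), rfl⟩
    · exact Or.inr ⟨(y, v), Finsupp.mem_support_iff.2 (by omega), rfl⟩
    · omega
  let nx : Vtx g → Vtx g := fun v => if h : ∃ y, 1 ≤ w c v y then h.choose else v
  have hnx : ∀ v ∈ P, 1 ≤ w c v (nx v) := by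
    intro v hv
    have hv' : ∃ y, 1 ≤ w c v y := hv
    show 1 ≤ w c v (if h : ∃ y, 1 ≤ w c v y then h.choose else v)
    rw [dif_pos hv']
    exact hv'.choose_spec
  have hP : ∀ v ∈ P, nx v ∈ P := fun v hv => bal c hc h0 v (nx v) (hnx v hv)
  have hit : ∀ n, nx^[n] v0 ∈ P := by
    intro n
    induction n with
    | zero => exact ⟨y0, h1⟩
    | succ n ih =>
      rw [Function.iterate_succ_apply']
      exact hP _ ih
  obtain ⟨i, j, hij, he⟩ : ∃ i j, i < j ∧ nx^[i] v0 = nx^[j] v0 := by
    have : Finite P := hfin
    obtain ⟨i, j, hne', he⟩ := Finite.exists_ne_map_eq_of_infinite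
      (fun n : ℕ => (⟨nx^[n] v0, hit n⟩ : P))
    have he' : nx^[i] v0 = nx^[j] v0 := by simpa using he
    rcases lt_or_gt_of_ne hne' with h | h
    · exact ⟨i, j, h, he'⟩
    · exact ⟨j, i, h, he'.symm⟩
  have hper : Function.IsPeriodicPt nx (j - i) (nx^[i] v0) := by
    show nx^[j - i] (nx^[i] v0) = nx^[i] v0
    rw [← Function.iterate_add_apply, Nat.sub_add_cancel hij.le, he]
  refine ⟨fun k => nx^[k] (nx^[i] v0), Function.minimalPeriod nx (nx^[i] v0), ?_, ?_, ?_, ?_⟩
  · exact hper.minimalPeriod_pos (by omega)
  · exact Function.isPeriodicPt_minimalPeriod nx (nx^[i] v0)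
  · intro a ha b hb hab
    exact Function.iterate_injOn_Iio_minimalPeriod (Set.mem_Iio.2 ha) (Set.mem_Iio.2 hb) hab
  · intro k
    show 1 ≤ w c (nx^[k] (nx^[i] v0)) (nx^[k + 1] (nx^[i] v0))
    rw [Function.iterate_succ_apply']
    apply hnx
    rw [← Function.iterate_add_apply]
    exact hit _

theorem ad_symm {v u : Vtx g} (h : v.ad u) : u.ad v := by
  obtain ⟨⟨x, h1, h2⟩, h3⟩ := h
  exact ⟨⟨x, h2, h1⟩, h3.symm⟩

theorem w_ad (c : C1 g) (hc : ∀ p ∈ c.support, p.1.ty < p.2.ty ∧ p.1.ad p.2)
    (x y : Vtx g) (h : 1 ≤ w c x y) : x.ad y := by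
  unfold w at h
  split_ifs at h with h4 h5
  · exact (hc (x, y) (Finsupp.mem_support_iff.2 (by omega))).2
  · exact ad_symm (hc (y, x) (Finsupp.mem_support_iff.2 (by omega))).2
  · omega

theorem cw_range (f : ℕ → Vtx g) (n : ℕ) (hn : 0 < n) (h0 : f n = f 0)
    (had : ∀ i, (f i).ad (f (i + 1))) : CW Vtx.ad ((List.range n).map f) := by
  intro x q y he
  have hlen : n = x.length + (y.length + 1) := by
    have := congrArg List.length he
    simpa using this
  have hget : ∀ i (hi : i < n), ((List.range n).map f)[i]? = some (f i) := by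
    intro i hi
    rw [List.getElem?_map, List.getElem?_range hi]
    rfl
  have hq : q = f x.length := by
    have h1 := hget x.length (by omega)
    rw [he, List.getElem?_append_right le_rfl, Nat.sub_self] at h1
    simpa using h1
  cases y with
  | cons r y =>
    refine ⟨r, by simp, ?_⟩
    have h1 := hget (x.length + 1) (by simp at hlen; omega)
    rw [he, List.getElem?_append_right (by omega), Nat.add_sub_cancel_left] at h1
    have h2 : r = f (x.length + 1) := by simpa using h1
    rw [hq, h2]
    exact had _
  | nil =>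
    simp only [List.length_nil, zero_add] at hlen
    cases x with
    | nil =>
      exfalso
      simp only [List.length_nil, zero_add] at hlen
      subst hlen
      have h1 := had 0
      rw [zero_add, h0] at h1
      rcases h1.2 with h | h
      · exact (ssubset_irrefl _) h
      · exact (ssubset_irrefl _) h
    | cons r x =>
      refine ⟨r, by simp, ?_⟩
      have h1 := hget 0 (by omega)
      rw [he] at h1
      have h2 : r = f 0 := by simpa using h1
      rw [hq, h2, ← h0, hlen]
      exact had _

theorem supp_path (c : C1 g) (hc : ∀ p ∈ c.support, p.1.ty < p.2.ty ∧ p.1.ad p.2)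
    (f : ℕ → Vtx g) (n : ℕ) (hw : ∀ i < n, 1 ≤ w c (f i) (f (i + 1))) :
    ∀ p ∈ (∑ i ∈ Finset.range n, EE (f i) (f (i + 1))).support, p.1.ty < p.2.ty ∧ p.1.ad p.2 := by
  classical
  induction n with
  | zero => simp
  | succ n ih =>
    intro p hp
    rw [Finset.sum_range_succ] at hp
    rcases Finset.mem_union.1 (Finsupp.support_add hp) with h | h
    · exact ih (fun i hi => hw i (by omega)) p h
    · have had := w_ad c hc _ _ (hw n (by omega))
      rw [Finsupp.mem_support_iff] at h
      unfold EE dl1 at h
      rcases lt_trichotomy (f n).ty (f (n + 1)).ty with hab | hab | hab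
      · rw [if_pos hab, if_neg (by omega : ¬ (f (n + 1)).ty < (f n).ty), sub_zero,
          Finsupp.single_apply] at h
        by_cases e : (f n, f (n + 1)) = p
        · rw [← e]
          exact ⟨hab, had⟩
        · rw [if_neg e] at h
          exact absurd rfl h
      · rw [if_neg (by omega), if_neg (by omega)] at h
        simp at h
      · rw [if_pos hab, if_neg (by omega : ¬ (f n).ty < (f (n + 1)).ty), zero_sub,
          Finsupp.neg_apply, Finsupp.single_apply] at h
        by_cases e : (f (n + 1), f n) = p
        · rw [← e]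
          exact ⟨hab, ad_symm had⟩
        · rw [if_neg e] at h
          simp at h

theorem main (N : ℕ) : ∀ (c : C1 g), nf c ≤ N →
    (∀ p ∈ c.support, p.1.ty < p.2.ty ∧ p.1.ad p.2) → bd1 g c = 0 →
    ∃ ls : List (List (Vtx g)), (∀ l ∈ ls, l ≠ [] ∧ CW Vtx.ad l) ∧ (ls.map cch).sum = c ∧
      (ls.map List.length).sum ≤ nf c := by
  classical
  induction N with
  | zero =>
    intro c hN hc h0
    by_cases hne : c = 0
    · exact ⟨[], by simp, by simp [hne], by simp⟩
    · exfalso
      obtain ⟨p, hp⟩ := Finsupp.support_nonempty_iff.2 hne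
      have h1 : (c p).natAbs ≤ nf c := by
        rw [nf_eq c _ (Finset.Subset.refl _)]
        exact Finset.single_le_sum (f := fun x => (c x).natAbs) (fun _ _ => Nat.zero_le _) hp
      have := Finsupp.mem_support_iff.1 hp
      omega
  | succ N ih =>
    intro c hN hc h0
    by_cases hne : c = 0
    · exact ⟨[], by simp, by simp [hne], by simp⟩
    · obtain ⟨f, n, hn, hfn, hinj, hw⟩ := cyc c hc h0 hne
      have h1 := nf_path c f n hinj (fun i _ => hw i)
      have h2 : ∀ p ∈ (c - ∑ i ∈ Finset.range n, EE (f i) (f (i + 1))).support,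
          p.1.ty < p.2.ty ∧ p.1.ad p.2 := by
        intro p hp
        rcases Finset.mem_union.1 (Finsupp.support_sub hp) with h | h
        · exact hc p h
        · exact supp_path c hc f n (fun i _ => hw i) p h
      have h3 : bd1 g (c - ∑ i ∈ Finset.range n, EE (f i) (f (i + 1))) = 0 := by
        rw [map_sub, h0, bd1_path c f n (fun i _ => hw i), hfn]
        simp
      obtain ⟨ls, hls1, hls2, hls3⟩ := ih _ (by omega) h2 h3
      refine ⟨(List.range n).map f :: ls, ?_, ?_, ?_⟩
      · intro l hl
        rcases List.mem_cons.1 hl with h | h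
        · rw [h]
          refine ⟨?_, cw_range f n hn hfn (fun i => w_ad c hc _ _ (hw i))⟩
          intro e
          have := congrArg List.length e
          simp at this
          omega
        · exact hls1 l h
      · rw [List.map_cons, List.sum_cons, hls2, cch_range f n hfn]
        abel
      · rw [List.map_cons, List.sum_cons]
        simp only [List.length_map, List.length_range]
        omega

end CYCDaux

theorem stmt_CYCD : Stmt_CYCD := by
  intro G S _ g c hc h0
  exact CYCDaux.main (nf c) c le_rfl hc h0

end Pool.HE
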