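import Pool.Agent.Work.MP_7084a3_full.InterfaceH

set_option autoImplicit false

/-! # Block CZ (helper20): the centre of a type 2 stabiliser -/

namespace Pool.HE

open Pool.HA

namespace CZ

variable {S : Type} {M : CoxeterMatrix S}

theorem esum_altG (s t : S) (n : ℕ) :
    esum M (altG (gen M s) (gen M t) n) = Multiplicative.ofAdd (n : ℤ) := by
  induction n generalizing s t with
  | zero => simp [altG]
  | succ n ih =>
    rw [altG, map_mul, ih, esum_gen, ← ofAdd_add]
    congr 1
    push_cast
    ring

/-- the exponent sum as an integer -/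
noncomputable def es (M : CoxeterMatrix S) (x : Art M) : ℤ := Multiplicative.toAdd (esum M x)

theorem es_mul (x y : Art M) : es M (x * y) = es M x + es M y := by
  simp [es]

theorem es_inv (x : Art M) : es M x⁻¹ = -es M x := by
  simp [es]

theorem es_zpow (x : Art M) (k : ℤ) : es M (x ^ k) = k * es M x := by
  simp [es]

theorem es_pow (x : Art M) (k : ℕ) : es M (x ^ k) = k * es M x := by
  simp [es]

theorem es_gen (s : S) : es M (gen M s) = 1 := by
  simp [es]

theorem es_altG (s t : S) (n : ℕ) : es M (altG (gen M s) (gen M t) n) = n := by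
  simp [es, esum_altG]

theorem es_rfl {r : Art M} (h : Rfl (gen M) r) : es M r = 1 := by
  simp [es, h.esum_eq]

theorem es_conj (x y : Art M) : es M (x * y * x⁻¹) = es M y := by
  rw [es_mul, es_mul, es_inv]
  ring

theorem es_one : es M (1 : Art M) = 0 := by simp [es]

/-- no reflection is central in a dihedral parabolic subgroup -/
theorem not_central (hD : Stmt_DCPC) (hM : ∀ s t, M s t ≠ 0) {s t : S} (hst : s ≠ t)
    (hm : 3 ≤ M s t) {r : Art M} (hr : r ∈ pr (gen M) s t) (he : es M r = 1)
    (hc : ∀ h ∈ pr (gen M) s t, Commute r h) : False := by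
  obtain ⟨w, -, l, h | h⟩ := hD S M hM s t hst hm r hr 1 one_pos (by simpa using hc)
  · rw [h, es_conj, es_zpow, es_mul, es_gen, es_gen] at he
    omega
  · rw [h, es_conj, es_zpow, es_altG] at he
    have h1 : ((M s t : ℕ) : ℤ) ∣ 1 := ⟨l, by rw [← he]; ring⟩
    have h2 := Int.le_of_dvd one_pos h1
    omega

end CZ

open CZ in
theorem stmt_CZ (hF5 : Stmt_F5) (hF4 : Stmt_F4) (hF3 : Stmt_F3) (hDCEN : Stmt_DCEN)
    (hDCPC : Stmt_DCPC) : Stmt_CZ := by
  intro S _ M hM s t x u hst hm hJ hx k hk
  have hcen := hDCEN S M hM.ne_zero s t hst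
  set z := x * (gen M s * gen M t) ^ M s t * x⁻¹ with hz
  have hmem : (gen M s * gen M t) ^ M s t ∈ pr (gen M) s t :=
    pow_mem (mul_mem (left_mem_pr s t) (right_mem_pr s t)) _
  have hzu : z • u = u := by
    rw [Vtx.fix2' hJ hx, hz]
    rw [show x⁻¹ * (x * (gen M s * gen M t) ^ M s t * x⁻¹) * x = (gen M s * gen M t) ^ M s t by
      group]
    exact hmem
  have hes : es M z = 2 * M s t := by
    rw [hz, es_conj, es_pow, es_mul, es_gen, es_gen]
    ring
  have hz1 : z ≠ 1 := by
    intro h
    rw [h, es_one] at hes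
    omega
  have key : ∀ w : Vtx (gen M), (z ^ k) • w = w → w = u := by
    rcases hF5 S M hM z u hz1 hzu with ⟨r, hr, i, hi⟩ | h
    · exfalso
      have hi0 : i ≠ 0 := by
        rintro rfl
        exact hz1 (by rw [hi, zpow_zero])
      have hru : r • u = u := (hF3 S M hM r hr).1 i hi0 u (by rw [← hi, hzu])
      rw [Vtx.fix2' hJ hx] at hru
      refine not_central hDCPC hM.ne_zero hst hm hru ?_ ?_
      · have := es_conj x⁻¹ r
        rw [inv_inv] at this
        rw [this, es_rfl hr]
      · intro h hh
        have h1 : Commute (x * h * x⁻¹) z := by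
          rw [hz]
          have := (hcen h hh).symm
          exact (this.conj x)
        rw [hi] at h1
        have h2 := ((hF4 S M hM r hr i hi0).2 (x * h * x⁻¹) h1).symm
        have h3 := h2.conj x⁻¹
        rw [inv_inv] at h3
        rwa [show x⁻¹ * (x * h * x⁻¹) * x = h by group] at h3
    · exact h k hk
  refine ⟨key, fun y hy => ?_⟩
  apply key
  have hzk : (z ^ k) • u = u := by
    have : z ∈ MulAction.stabilizer (Art M) u := hzu
    exact (MulAction.stabilizer (Art M) u).zpow_mem this k
  exact Fx.of_commute hy hzk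

end Pool.HE
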