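import Pool.Agent.Work.MP_7084a3_full.InterfaceC
import Pool.Agent.Work.MP_7084a3_h91.B.DROOT

set_option autoImplicit false

namespace Pool.HE

open Pool.HA

namespace DCOMaux

theorem esum_altG {S : Type} (M : CoxeterMatrix S) : ∀ (n : ℕ) (s t : S),
    esum M (altG (gen M s) (gen M t) n) = Multiplicative.ofAdd (n : ℤ)
  | 0, s, t => by simp [altG]
  | n + 1, s, t => by
    rw [altG, map_mul, esum_altG M n, esum_gen, ← ofAdd_add]
    congr 1
    push_cast; ring

theorem esum_conj {S : Type} (M : CoxeterMatrix S) (w y : Art M) :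
    esum M (w * y * w⁻¹) = esum M y := by
  rw [map_mul, map_mul, map_inv, mul_right_comm, mul_inv_cancel, one_mul]

/-- the commutant of the matrix of a generator -/
theorem mat {K : Type} [Field K] {q L : K} (hq1 : 1 + q ≠ 0) (B : Matrix (Fin 2) (Fin 2) K)
    (hc : !![-q, L; 0, 1] * B = B * !![-q, L; 0, 1]) (htr : B.trace = 1 - q)
    (hdet : B.det = -q) :
    B = !![-q, L; 0, 1] ∨ !![-q, L; 0, 1] * B = (-q) • (1 : Matrix (Fin 2) (Fin 2) K) := by
  rw [Matrix.trace_fin_two] at htr
  rw [Matrix.det_fin_two] at hdet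
  have h10 := congrFun (congrFun hc 1) 0
  have h01 := congrFun (congrFun hc 0) 1
  simp [Matrix.mul_apply, Fin.sum_univ_two] at h10 h01
  set x := B 0 0 with hx
  set y := B 0 1 with hy
  set z := B 1 0 with hz
  set w := B 1 1 with hw
  have hz0 : z = 0 := by
    have : z * (1 + q) = 0 := by linear_combination h10
    rcases mul_eq_zero.1 this with h | h
    · exact h
    · exact absurd h hq1
  have hy0 : (1 + q) * y = L * (w - x) := by linear_combination -h01
  have hxx : (x - 1) * (x + q) = 0 := by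
    rw [hz0] at hdet
    linear_combination x * htr - hdet
  rcases mul_eq_zero.1 hxx with h | h
  · right
    have hx1 : x = 1 := by linear_combination h
    have hw1 : w = -q := by linear_combination htr - h
    have hy1 : y = -L := by
      have : (1 + q) * (y + L) = 0 := by rw [mul_add, hy0, hx1, hw1]; ring
      rcases mul_eq_zero.1 this with h | h
      · exact absurd h hq1
      · linear_combination h
    ext i j
    fin_cases i <;> fin_cases j
    · simp [Matrix.mul_apply, Fin.sum_univ_two, ← hx, ← hz, hx1, hz0]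
    · simp [Matrix.mul_apply, Fin.sum_univ_two, ← hy, ← hw, hy1, hw1]
      ring
    · simp [Matrix.mul_apply, Fin.sum_univ_two, ← hx, ← hz, hz0]
    · simp [Matrix.mul_apply, Fin.sum_univ_two, ← hy, ← hw, hw1]
  · left
    have hx1 : x = -q := by linear_combination h
    have hw1 : w = 1 := by linear_combination htr - h
    have hy1 : y = L := by
      have : (1 + q) * (y - L) = 0 := by rw [mul_sub, hy0, hx1, hw1]; ring
      rcases mul_eq_zero.1 this with h | h
      · exact absurd h hq1
      · linear_combination h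
    ext i j
    fin_cases i <;> fin_cases j
    · simp [← hx, hx1]
    · simp [← hy, hy1]
    · simp [← hz, hz0]
    · simp [← hw, hw1]

theorem core (hDTH : Stmt_DTH) (hDINJ : Stmt_DINJ) (hDCPC : Stmt_DCPC) (hDNCM : Stmt_DNCM)
    {S : Type} (M : CoxeterMatrix S) (hne : ∀ s t, M s t ≠ 0) (s t : S) (hst : s ≠ t)
    (hm : 3 ≤ M s t) (x : Art M) (hx : x ∈ pr (gen M) s t) (b : S) (hb : b = s ∨ b = t)
    (hcom : Commute (gen M s) (x * gen M b * x⁻¹)) : gen M s = x * gen M b * x⁻¹ := by
  obtain ⟨F, _, u, j, θ, Φ, hUJ, hΦs, hΦt, hθs, hθt, hθ⟩ := hDTH S M hne s t hst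
  have hbm : gen M b ∈ pr (gen M) s t := by
    rcases hb with rfl | rfl
    · exact left_mem_pr _ _
    · exact right_mem_pr _ _
  let X : ↥(pr (gen M) s t) := ⟨x, hx⟩
  let A : ↥(pr (gen M) s t) := ⟨gen M s, left_mem_pr s t⟩
  let B : ↥(pr (gen M) s t) := ⟨gen M b, hbm⟩
  have hAB : A * (X * B * X⁻¹) = (X * B * X⁻¹) * A := Subtype.ext hcom
  have hΦA : Φ A = sM (M s t) := hΦs A rfl
  have htrB : (Φ B).trace = 1 - RatFunc.X ∧ (Φ B).det = -RatFunc.X := by
    rcases hb with h | h
    · have h1 : Φ B = sM (M s t) := hΦs B (by show gen M b = gen M s; rw [h])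
      rw [h1, Matrix.trace_fin_two, Matrix.det_fin_two]
      simp [sM]
      ring
    · have h1 : Φ B = tM (M s t) := hΦt B (by show gen M b = gen M t; rw [h])
      rw [h1, Matrix.trace_fin_two, Matrix.det_fin_two]
      simp [tM]
      ring
  have hXX : Φ X⁻¹ * Φ X = 1 := by rw [← map_mul, inv_mul_cancel, map_one]
  have htr : (Φ (X * B * X⁻¹)).trace = 1 - RatFunc.X := by
    rw [map_mul, map_mul, Matrix.trace_mul_comm, ← mul_assoc, hXX, one_mul]
    exact htrB.1
  have hdet : (Φ (X * B * X⁻¹)).det = -RatFunc.X := by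
    rw [map_mul, map_mul, Matrix.det_mul, Matrix.det_mul, mul_comm, ← mul_assoc,
      ← Matrix.det_mul, hXX, Matrix.det_one, one_mul]
    exact htrB.2
  have hq1 : (1 : KK) + RatFunc.X ≠ 0 := by
    intro h
    have h1 : (RatFunc.X : KK) = algebraMap ℝ KK (-1) := by
      rw [map_neg, map_one]
      linear_combination h
    exact droot_X h1
  have hc : sM (M s t) * Φ (X * B * X⁻¹) = Φ (X * B * X⁻¹) * sM (M s t) := by
    rw [← hΦA, ← map_mul, ← map_mul, hAB]
  have he : ∀ y : ↥(pr (gen M) s t), θ y = 1 → esum M y.1 = 1 → y = 1 :=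
    hDINJ S M hne s t hst F u j θ hUJ hθs hθt
  rcases mat hq1 _ hc htr hdet with h | h
  · -- equal matrices
    have h1 : θ (A⁻¹ * (X * B * X⁻¹)) = 1 := by
      rw [hθ]
      refine ⟨1, ?_⟩
      rw [map_mul, h, one_smul]
      have : (!![-RatFunc.X, algebraMap ℝ KK (lam (M s t)); 0, 1] :
        Matrix (Fin 2) (Fin 2) KK) = Φ A := by rw [hΦA]; rfl
      rw [this, ← map_mul, inv_mul_cancel, map_one]
    have h2 := he _ h1 (by
      show esum M ((gen M s)⁻¹ * (x * gen M b * x⁻¹)) = 1
      rw [map_mul, esum_conj, map_inv, esum_gen, esum_gen, inv_mul_cancel])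
    have h3 : X * B * X⁻¹ = A := by
      have := congrArg (fun y => A * y) h2
      simpa using this
    exact (congrArg Subtype.val h3).symm
  · -- the product is central
    exfalso
    set P : ↥(pr (gen M) s t) := A * (X * B * X⁻¹) with hP
    have hθP : θ P = 1 := by
      rw [hθ]
      refine ⟨-RatFunc.X, ?_⟩
      rw [hP, map_mul, hΦA]
      exact h
    have hPc : ∀ h : ↥(pr (gen M) s t), P * h = h * P := by
      intro h
      have h1 := he (P * h * P⁻¹ * h⁻¹) (by
        rw [map_mul, map_mul, map_mul, map_inv, map_inv, hθP]; simp) (by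
        show esum M (P.1 * h.1 * P.1⁻¹ * h.1⁻¹) = 1
        rw [map_mul, map_mul, map_mul, map_inv, map_inv]
        rw [mul_comm (esum M P.1) (esum M h.1), mul_assoc (esum M h.1), mul_inv_cancel, mul_one,
          mul_inv_cancel])
      have h2 := congrArg (fun y => y * h * P) h1
      simpa [mul_assoc] using h2
    have hesP : esum M P.1 = Multiplicative.ofAdd (2 : ℤ) := by
      show esum M (gen M s * (x * gen M b * x⁻¹)) = _
      rw [map_mul, esum_conj, esum_gen, esum_gen, ← ofAdd_add]
      rfl
    obtain ⟨w, hw, l, hl⟩ := hDCPC S M hne s t hst hm P.1 P.2 1 one_pos (by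
      intro h hh
      rw [pow_one]
      exact congrArg Subtype.val (hPc ⟨h, hh⟩))
    rcases hl with hl | hl
    · have h1 := congrArg (esum M) hl
      rw [esum_conj, map_zpow, hesP, map_mul, esum_gen, esum_gen, ← ofAdd_add,
        ← ofAdd_zsmul] at h1
      have h2 : (2 : ℤ) = l • (1 + 1) := h1
      rw [smul_eq_mul] at h2
      have h3 : l = 1 := by omega
      subst h3
      rw [zpow_one] at hl
      have h4 : P.1 * w = w * P.1 := congrArg Subtype.val (hPc ⟨w, hw⟩)
      have h5 : P.1 = gen M s * gen M t := by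
        have h6 : w * P.1 = w * (gen M s * gen M t) := by
          rw [← h4, hl]; group
        exact mul_left_cancel h6
      have h7 : P.1 * gen M s = gen M s * P.1 := congrArg Subtype.val (hPc A)
      rw [h5, mul_assoc] at h7
      have h8 : gen M t * gen M s = gen M s * gen M t := mul_left_cancel h7
      have h9 := hDNCM S M hne s t hst hm 1 (by rw [zpow_one]; exact h8.symm)
      omega
    · have h1 := congrArg (esum M) hl
      rw [esum_conj, map_zpow, hesP, esum_altG, ← ofAdd_zsmul] at h1
      have h2 : (2 : ℤ) = l • ((M s t : ℕ) : ℤ) := h1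
      rw [smul_eq_mul] at h2
      have h3 : (3 : ℤ) ≤ ((M s t : ℕ) : ℤ) := by exact_mod_cast hm
      rcases le_or_gt l 0 with h4 | h4
      · nlinarith
      · nlinarith

end DCOMaux

open DCOMaux in
theorem stmt_DCOM (hDTH : Stmt_DTH) (hDINJ : Stmt_DINJ) (hDCPC : Stmt_DCPC)
    (hDNCM : Stmt_DNCM) : Stmt_DCOM := by
  intro S M hne s t hst hm x hx a b ha hb hcom
  rcases ha with rfl | rfl
  · exact core hDTH hDINJ hDCPC hDNCM M hne a t hst hm x hx b hb hcom
  · refine core hDTH hDINJ hDCPC hDNCM M hne a s hst.symm (by rw [M.symmetric]; exact hm) x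
      (by rw [pr_comm]; exact hx) b hb.symm hcom

end Pool.HE
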