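import Pool.Agent.Work.MP_7084a3_full.InterfaceE
import Pool.Agent.Work.MP_7084a3_h91.B.BD
import Pool.Agent.Work.MP_7084a3_h91.B.TTOK

set_option autoImplicit false

namespace Pool.HE

open Pool.HA

/-! ## norms -/

theorem DEC_nf_zero {X : Type} : nf (0 : X →₀ ℤ) = 0 := by simp [nf]

theorem DEC_nf_single {X : Type} (x : X) (n : ℤ) : nf (Finsupp.single x n) = n.natAbs := by
  simp [nf]

theorem DEC_nf_neg {X : Type} (D : X →₀ ℤ) : nf (-D) = nf D := by
  classical
  rw [BD_nf_le (-D) D.support (by rw [Finsupp.support_neg]),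
    BD_nf_le D D.support (Finset.Subset.refl _)]
  simp

theorem DEC_nf_sum {X ι : Type} (s : Finset ι) (f : ι → X →₀ ℤ) :
    nf (∑ i ∈ s, f i) ≤ ∑ i ∈ s, nf (f i) := by
  classical
  induction s using Finset.induction_on with
  | empty => simp [nf]
  | insert a s ha ih =>
    rw [Finset.sum_insert ha, Finset.sum_insert ha]
    exact (BD_nf_add _ _).trans (Nat.add_le_add_left ih _)

section
variable {G S : Type} [Group G] {g : S → G}

theorem DEC_nf_dl1 (x y : Vtx g) : nf (dl1 x y : C1 g) ≤ 1 := by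
  unfold dl1
  split_ifs
  · rw [DEC_nf_single]; simp
  · rw [DEC_nf_zero]; simp

theorem DEC_nf_EE (x y : Vtx g) : nf (EE x y : C1 g) ≤ 1 := by
  unfold EE
  by_cases h : x.ty < y.ty
  · have h' : ¬ y.ty < x.ty := by omega
    have : (dl1 y x : C1 g) = 0 := by unfold dl1; rw [if_neg h']
    rw [this, sub_zero]
    exact DEC_nf_dl1 x y
  · have : (dl1 x y : C1 g) = 0 := by unfold dl1; rw [if_neg h]
    rw [this, zero_sub, DEC_nf_neg]
    exact DEC_nf_dl1 y x

/-- triangle chains at a type 0 vertex -/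
theorem DEC_TT0 {v a b : Vtx g} (hv : v.ty = 0) (h1 : v.ad a) (h2 : a.ad b) (h3 : v.ad b) :
    ∃ (t : Vtx g × Vtx g × Vtx g) (n : ℤ), TT v a b = Finsupp.single t n ∧ n.natAbs = 1 ∧
      t.1 = v ∧ ((t.2.1 = a ∧ t.2.2 = b) ∨ (t.2.1 = b ∧ t.2.2 = a)) ∧
      (t.1.ty = 0 ∧ t.2.1.ty = 1 ∧ t.2.2.ty = 2 ∧ t.1.ad t.2.1 ∧ t.2.1.ad t.2.2 ∧
        t.1.ad t.2.2) := by
  have a2 := Vtx.ad_symm h2
  rcases Vtx.flag_ty h1 h2 h3 with ⟨b1, b2, b3⟩ | ⟨b1, b2, b3⟩ | ⟨b1, b2, b3⟩ | ⟨b1, b2, b3⟩ |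
    ⟨b1, b2, b3⟩ | ⟨b1, b2, b3⟩
  · refine ⟨(v, a, b), 1, ?_, rfl, rfl, Or.inl ⟨rfl, rfl⟩, ⟨b1, b2, b3, h1, h2, h3⟩⟩
    simp [TT, dlt, b1, b2, b3]
  · refine ⟨(v, b, a), -1, ?_, rfl, rfl, Or.inr ⟨rfl, rfl⟩, ⟨b1, b3, b2, h3, a2, h1⟩⟩
    simp [TT, dlt, b1, b2, b3]
  all_goals omega

theorem DEC_bd_TT {u v c : Vtx g} (h1 : u.ad v) (h2 : v.ad c) (h3 : u.ad c) :
    bd2 g (TT u v c) = EE u v + EE v c + EE c u := by
  obtain ⟨t, n, e, -, -, h⟩ := BD_TT h1 h2 h3
  rw [e, BD_bd2_single, h]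

theorem DEC_shift {B : Type} [AddCommMonoid B] {K : ℕ} (f : ℕ → B) (h : f K = f 0) :
    ∑ j ∈ Finset.range K, f (j + 1) = ∑ j ∈ Finset.range K, f j := by
  cases K with
  | zero => simp
  | succ K =>
    rw [Finset.sum_range_succ, h, Finset.sum_range_succ' f]

/-- boundary of the chain of a loop at a type 0 vertex -/
theorem DEC_bd_loop {v : Vtx g} {K : ℕ} {s : ℕ → Stp (Vtx g)} (hs : TLoop Vtx.ad v K s) :
    bd2 g (∑ j ∈ Finset.range K, TT v (s j).a (s j).b) =
      ∑ j ∈ Finset.range K, EE (s j).a (s j).b := by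
  rw [map_sum]
  have h1 : ∀ j ∈ Finset.range K, bd2 g (TT v (s j).a (s j).b) =
      EE (s j).a (s j).b + (EE v (s j).a - EE v (s (j + 1)).a) := by
    intro j _
    obtain ⟨-, h1, h2, h3⟩ := hs.stp j
    rw [DEC_bd_TT h1 h3 h2, ← (hs.cmp j).1, BD_EE_anti v (s j).b]
    abel
  rw [Finset.sum_congr rfl h1, Finset.sum_add_distrib, Finset.sum_sub_distrib,
    DEC_shift (fun j => EE v (s j).a), sub_self, add_zero]
  have := hs.per 0
  rw [zero_add] at this
  simp only [this]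

end

/-! ## the junction function -/

section
variable {S : Type} [DecidableEq S] (M : CoxeterMatrix S)

/-- the condition for the junction -/
def DEC_cond (κ : Pl M) (v b p q : Vtx (gen M)) : Prop :=
  v.ty = 0 ∧ b.ty = 1 ∧ p.ty = 2 ∧ q.ty = 2 ∧ κ.1 = p.J ∪ q.J ∧
    ∃ y, v.mem y ∧ (QuotientGroup.mk y : Art M ⧸ par (gen M) κ.1) = κ.2

open Classical in
/-- half of the junction function -/
noncomputable def DEC_A (κ : Pl M) (v b : Vtx (gen M)) (L R : Vtx (gen M) ⊕ ℕ) : C1 (gen M) :=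
  match L, R with
  | .inl p, .inl q => if DEC_cond M κ v b p q then EE p b + EE b q else 0
  | _, _ => 0

theorem DEC_A_ll (κ : Pl M) (v b p q : Vtx (gen M)) (h : DEC_cond M κ v b p q) :
    DEC_A M κ v b (.inl p) (.inl q) = EE p b + EE b q := by
  unfold DEC_A
  simp only
  rw [if_pos h]

theorem DEC_A_ll' (κ : Pl M) (v b p q : Vtx (gen M)) (h : ¬ DEC_cond M κ v b p q) :
    DEC_A M κ v b (.inl p) (.inl q) = 0 := by
  unfold DEC_A
  simp only
  rw [if_neg h]

theorem DEC_A_zero (κ : Pl M) (v b : Vtx (gen M)) (L R : Vtx (gen M) ⊕ ℕ)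
    (h : ¬ (v.ty = 0 ∧ b.ty = 1)) : DEC_A M κ v b L R = 0 := by
  rcases L with p | m
  · rcases R with q | m'
    · exact DEC_A_ll' M κ v b p q (fun hc => h ⟨hc.1, hc.2.1⟩)
    · rfl
  · rfl

theorem DEC_nf_A (κ : Pl M) (v b : Vtx (gen M)) (L R : Vtx (gen M) ⊕ ℕ) :
    nf (DEC_A M κ v b L R) ≤ 2 := by
  rcases L with p | m
  · rcases R with q | m'
    · by_cases h : DEC_cond M κ v b p q
      · rw [DEC_A_ll M κ v b p q h]
        exact (BD_nf_add _ _).trans (Nat.add_le_add (DEC_nf_EE _ _) (DEC_nf_EE _ _))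
      · rw [DEC_A_ll' M κ v b p q h, DEC_nf_zero]; omega
    · change nf (0 : C1 (gen M)) ≤ 2
      rw [DEC_nf_zero]; omega
  · change nf (0 : C1 (gen M)) ≤ 2
    rw [DEC_nf_zero]; omega

omit [DecidableEq S] in
/-- planes at a type 0 vertex -/
theorem DEC_pl {v : Vtx (gen M)} (hv : v.ty = 0) {y : Art M} (hy : v.mem y) (κ : Pl M)
    (E : Finset S) :
    (κ.1 = E ∧ ∃ y', v.mem y' ∧ (QuotientGroup.mk y' : Art M ⧸ par (gen M) κ.1) = κ.2) ↔
      (⟨E, QuotientGroup.mk y⟩ : Pl M) = κ := by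
  constructor
  · rintro ⟨h1, y', h2, h3⟩
    obtain ⟨E', c⟩ := κ
    dsimp only at h1 h3
    subst h1
    rw [Vtx.mem0 hv hy h2, ← h3]
  · rintro rfl
    exact ⟨rfl, y, hy, rfl⟩

open Classical in
theorem DEC_sum_A (Ks : Finset (Pl M)) (v b : Vtx (gen M)) (L R : Vtx (gen M) ⊕ ℕ) :
    ∑ κ ∈ Ks, nf (DEC_A M κ v b L R) ≤ 2 := by
  rcases L with p | m
  · rcases R with q | m'
    · by_cases hv : v.ty = 0
      · obtain ⟨y, hy⟩ := v.exists_mem
        have h1 : ∀ κ ∈ Ks, κ ≠ (⟨p.J ∪ q.J, QuotientGroup.mk y⟩ : Pl M) →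
            nf (DEC_A M κ v b (.inl p) (.inl q)) = 0 := by
          intro κ _ hne
          rw [DEC_A_ll' M κ v b p q, DEC_nf_zero]
          rintro ⟨-, -, -, -, h5, h6⟩
          exact hne ((DEC_pl M hv hy κ _).1 ⟨h5, h6⟩).symm
        by_cases hk : (⟨p.J ∪ q.J, QuotientGroup.mk y⟩ : Pl M) ∈ Ks
        · refine (le_of_eq (Finset.sum_eq_single_of_mem
            (⟨p.J ∪ q.J, QuotientGroup.mk y⟩ : Pl M) hk h1)).trans ?_
          exact DEC_nf_A M _ v b _ _
        · rw [Finset.sum_eq_zero]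
          · omega
          · intro κ hκ
            exact h1 κ hκ (fun e => hk (e ▸ hκ))
      · rw [Finset.sum_eq_zero]
        · omega
        · intro κ _
          rw [DEC_A_zero M κ v b _ _ (fun h => hv h.1), DEC_nf_zero]
    · rw [Finset.sum_eq_zero]
      · omega
      · intro κ _
        change nf (0 : C1 (gen M)) = 0
        rw [DEC_nf_zero]
  · rw [Finset.sum_eq_zero]
    · omega
    · intro κ _
      change nf (0 : C1 (gen M)) = 0
      rw [DEC_nf_zero]

theorem DEC_sum_J (Ks : Finset (Pl M)) (v b : Vtx (gen M)) (L R : Vtx (gen M) ⊕ ℕ) :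
    ∑ κ ∈ Ks, nf (DEC_A M κ v b L R - DEC_A M κ b v R L) ≤ 2 := by
  by_cases hv : v.ty = 0
  · have : ∀ κ ∈ Ks, nf (DEC_A M κ v b L R - DEC_A M κ b v R L) = nf (DEC_A M κ v b L R) := by
      intro κ _
      rw [DEC_A_zero M κ b v R L (fun h => by omega), sub_zero]
    rw [Finset.sum_congr rfl this]
    exact DEC_sum_A M Ks v b L R
  · have : ∀ κ ∈ Ks, nf (DEC_A M κ v b L R - DEC_A M κ b v R L) = nf (DEC_A M κ b v R L) := by
      intro κ _
      rw [DEC_A_zero M κ v b L R (fun h => hv h.1), zero_sub, DEC_nf_neg]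
    rw [Finset.sum_congr rfl this]
    exact DEC_sum_A M Ks b v R L

/-- the accounting data for the chain -/
noncomputable def DEC_F1 : Acc Vtx.ad (TT : Vtx (gen M) → _ → _ → C2 (gen M)) (C2 (gen M)) where
  f u a b := if u.ty = 0 then TT u a b else 0
  g _ _ := 0
  J _ _ _ _ := 0
  κ := 0
  ψ := AddMonoidHom.id _
  tri := by
    intro u v c h1 h2 h3
    obtain ⟨-, -, hc, ha⟩ := stmt_TTOK (Art M) S (gen M)
    have e1 : (TT u c v : C2 (gen M)) = - TT u v c := by
      rw [ha c u v, hc c u v]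
    have e2 : (TT c v u : C2 (gen M)) = - TT u v c := by
      rw [hc c v u, ha u v c]
    have e3 : (TT v u c : C2 (gen M)) = - TT u v c := ha u v c
    rw [e1, e2, e3]
    simp only [AddMonoidHom.id_apply, zero_sub]
    rcases Vtx.flag_ty h1 (Vtx.ad_symm h3) h2 with ⟨b1, b2, b3⟩ | ⟨b1, b2, b3⟩ | ⟨b1, b2, b3⟩ |
      ⟨b1, b2, b3⟩ | ⟨b1, b2, b3⟩ | ⟨b1, b2, b3⟩ <;> simp [b1, b2, b3]
  swap := by simp

/-- the accounting data for the boundary in the plane `κ` -/
noncomputable def DEC_F2 (κ : Pl M) :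
    Acc Vtx.ad (TT : Vtx (gen M) → _ → _ → C2 (gen M)) (C1 (gen M)) where
  f _ _ _ := 0
  g _ _ := 0
  J v b L R := DEC_A M κ v b L R - DEC_A M κ b v R L
  κ := 0
  ψ := 0
  tri := by simp
  swap := by intro v b L R; abel

/-- the junction term at the position `j` of a loop at `v` -/
noncomputable def DEC_t (κ : Pl M) (v : Vtx (gen M)) (s : ℕ → Stp (Vtx (gen M))) (j : ℕ) :
    C1 (gen M) :=
  DEC_A M κ v (s (j + 1)).a (.inl (s j).a) (.inl (s (j + 1)).b) -
    DEC_A M κ (s (j + 1)).a v (.inl (s (j + 1)).b) (.inl (s j).a)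

omit [DecidableEq S] in
theorem DEC_b {v : Vtx (gen M)} {K : ℕ} {s : ℕ → Stp (Vtx (gen M))} (hs : TLoop Vtx.ad v K s)
    (j : ℕ) : (s j).b = (s (j + 1)).a := (hs.cmp j).1

open Classical in
theorem DEC_good (κ : Pl M) {v : Vtx (gen M)} {K : ℕ} {s : ℕ → Stp (Vtx (gen M))}
    (hs : TLoop Vtx.ad v K s) (hv : v.ty = 0) {y : Art M} (hy : v.mem y) {E : Finset S}
    (hE : E.card = 3) (hsE : ∀ j, (s j).a.J ⊆ E) :
    ∑ j ∈ Finset.range K, DEC_t M κ v s j =
      if (⟨E, QuotientGroup.mk y⟩ : Pl M) = κ then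
        ∑ j ∈ Finset.range K, (EE (s j).a (s j).b : C1 (gen M)) else 0 := by
  have hterm : ∀ j, DEC_t M κ v s j =
      if (⟨E, QuotientGroup.mk y⟩ : Pl M) = κ then
        ((if (s j).b.ty = 1 then (EE (s j).a (s j).b : C1 (gen M)) else 0) +
          (if (s (j + 1)).a.ty = 1 then (EE (s (j + 1)).a (s (j + 1)).b : C1 (gen M)) else 0))
      else 0 := by
    intro j
    unfold DEC_t
    have hb := DEC_b M hs j
    obtain ⟨-, a1, a2, a3⟩ := hs.stp j
    obtain ⟨-, c1, c2, c3⟩ := hs.stp (j + 1)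
    have hred := (hs.cmp j).2 (hs.stp j).1 (hs.stp (j + 1)).1
    rw [DEC_A_zero M κ (s (j + 1)).a v _ _ (fun h => by omega), sub_zero]
    by_cases h1 : (s (j + 1)).a.ty = 1
    · have h1' : (s j).b.ty = 1 := by rw [hb]; exact h1
      rw [if_pos h1, if_pos h1']
      have hp : (s j).a.ty = 2 := by
        rcases Vtx.flag_ty a1 a3 a2 with h | h | h | h | h | h <;> omega
      have hq : (s (j + 1)).b.ty = 2 := by
        rcases Vtx.flag_ty c1 c3 c2 with h | h | h | h | h | h <;> omega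
      have hpE := hsE j
      have hqE : (s (j + 1)).b.J ⊆ E := by
        rw [DEC_b M hs (j + 1)]; exact hsE (j + 2)
      have hpy : (s j).a.mem y := Vtx.ad_mem a1 (by omega) hy
      have hqy : (s (j + 1)).b.mem y := Vtx.ad_mem c2 (by omega) hy
      have hne : (s j).a.J ≠ (s (j + 1)).b.J := fun h => hred (Vtx.ext_mem h hpy hqy)
      have hun : (s j).a.J ∪ (s (j + 1)).b.J = E := by
        apply Finset.eq_of_subset_of_card_le (Finset.union_subset hpE hqE)
        have hcp : (s j).a.J.card = 2 := hp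
        have hcq : (s (j + 1)).b.J.card = 2 := hq
        have hss : (s j).a.J ⊂ (s j).a.J ∪ (s (j + 1)).b.J := by
          rw [Finset.ssubset_iff_subset_ne]
          refine ⟨Finset.subset_union_left, fun h => ?_⟩
          have h5 : (s (j + 1)).b.J ⊆ (s j).a.J := by
            rw [h]; exact Finset.subset_union_right
          exact hne (Finset.eq_of_subset_of_card_le h5 (by omega)).symm
        have := Finset.card_lt_card hss
        omega
      by_cases hk : (⟨E, QuotientGroup.mk y⟩ : Pl M) = κ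
      · rw [if_pos hk, DEC_A_ll, hb]
        refine ⟨hv, h1, hp, hq, ?_⟩
        rw [hun]
        exact (DEC_pl M hv hy κ E).2 hk
      · rw [if_neg hk, DEC_A_ll']
        rintro ⟨-, -, -, -, h5, h6⟩
        rw [hun] at h5
        exact hk ((DEC_pl M hv hy κ E).1 ⟨h5, h6⟩)
    · have h1' : ¬ (s j).b.ty = 1 := by rw [hb]; exact h1
      rw [if_neg h1, if_neg h1', DEC_A_zero M κ v _ _ _ (fun h => h1 h.2)]
      simp
  rw [Finset.sum_congr rfl (fun j _ => hterm j)]
  by_cases hk : (⟨E, QuotientGroup.mk y⟩ : Pl M) = κ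
  · simp only [if_pos hk]
    rw [Finset.sum_add_distrib,
      DEC_shift (fun j => if (s j).a.ty = 1 then (EE (s j).a (s j).b : C1 (gen M)) else 0),
      ← Finset.sum_add_distrib]
    · apply Finset.sum_congr rfl
      intro j _
      obtain ⟨-, a1, a2, a3⟩ := hs.stp j
      rcases Vtx.flag_ty a1 a3 a2 with ⟨b1, b2, b3⟩ | ⟨b1, b2, b3⟩ | ⟨b1, b2, b3⟩ |
        ⟨b1, b2, b3⟩ | ⟨b1, b2, b3⟩ | ⟨b1, b2, b3⟩ <;> first | omega | simp [b2, b3]
    · have := hs.per 0
      rw [zero_add] at this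
      simp only [this]
  · simp only [if_neg hk, Finset.sum_const_zero]

theorem DEC_pairQ (κ : Pl M) {w o₁ o₂ p q : Vtx (gen M)} (h1 : w.ad o₁) (h2 : w.ad o₂)
    (hp : w.ad p) (hw : w.ty = 1) (ho₁ : o₁.ty = 0) (ho₂ : o₂.ty = 0) (hpt : p.ty = 2)
    (hqt : q.ty = 2) :
    DEC_A M κ o₁ w (.inl p) (.inl q) + DEC_A M κ o₂ w (.inl q) (.inl p) = 0 := by
  have key : ∀ (o o' p q : Vtx (gen M)), w.ad o → w.ad o' → o.ty = 0 → o'.ty = 0 → p.ty = 2 →
      q.ty = 2 → w.J ⊂ p.J ∪ q.J → DEC_cond M κ o w p q → DEC_cond M κ o' w q p := by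
    rintro o o' p q ho ho' t t' tp tq hsub ⟨-, -, -, -, h5, y, h6, h7⟩
    obtain ⟨y', hy'⟩ := o'.exists_mem
    refine ⟨t', hw, tq, tp, by rw [h5, Finset.union_comm], y', hy', ?_⟩
    rw [← h7, QuotientGroup.eq]
    have m1 : w.mem y := Vtx.ad_mem (Vtx.ad_symm ho) (by omega) h6
    have m2 : w.mem y' := Vtx.ad_mem (Vtx.ad_symm ho') (by omega) hy'
    rw [Vtx.mem_iff m2] at m1
    rw [h5]
    exact par_mono hsub.subset m1
  have hsub : w.J ⊂ p.J ∪ q.J :=
    lt_of_lt_of_le (Vtx.ad_ss hp (by omega)) (Finset.subset_union_left)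
  by_cases hc : DEC_cond M κ o₁ w p q
  · rw [DEC_A_ll M κ o₁ w p q hc,
      DEC_A_ll M κ o₂ w q p (key o₁ o₂ p q h1 h2 ho₁ ho₂ hpt hqt hsub hc),
      BD_EE_anti w q, BD_EE_anti w p]
    abel
  · rw [DEC_A_ll' M κ o₁ w p q hc, DEC_A_ll' M κ o₂ w q p, add_zero]
    intro hc'
    exact hc (key o₂ o₁ q p h2 h1 ho₂ ho₁ hqt hpt (by rwa [Finset.union_comm]) hc')

theorem DEC_ty1 (κ : Pl M) {v : Vtx (gen M)} {s : ℕ → Stp (Vtx (gen M))}
    (hs : TLoop Vtx.ad v 4 s) (hv : v.ty = 1) :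
    ∑ j ∈ Finset.range 4, DEC_t M κ v s j = 0 := by
  have hterm : ∀ j, DEC_t M κ v s j =
      - DEC_A M κ (s (j + 1)).a v (.inl (s (j + 2)).a) (.inl (s j).a) := by
    intro j
    unfold DEC_t
    rw [DEC_A_zero M κ v _ _ _ (fun h => by omega), zero_sub, DEC_b M hs (j + 1)]
  rw [Finset.sum_congr rfl (fun j _ => hterm j)]
  simp only [Finset.sum_range_succ, Finset.sum_range_zero, zero_add]
  have e4 : s 4 = s 0 := hs.per 0
  have e5 : s 5 = s 1 := hs.per 1
  norm_num only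
  rw [e4, e5]
  have had : ∀ j, v.ad (s j).a := fun j => (hs.stp j).2.1
  have hty : ∀ j, ((s j).a.ty = 0 ∧ (s (j + 1)).a.ty = 2) ∨
      ((s j).a.ty = 2 ∧ (s (j + 1)).a.ty = 0) := by
    intro j
    obtain ⟨-, a1, a2, a3⟩ := hs.stp j
    rw [DEC_b M hs j] at a2 a3
    rcases Vtx.flag_ty a1 a3 a2 with h | h | h | h | h | h <;> omega
  have t0 := hty 0
  have t1 := hty 1
  have t2 := hty 2
  norm_num only at t0 t1 t2
  rcases t0 with ⟨t0, t0'⟩ | ⟨t0, t0'⟩
  · have t2' : (s 2).a.ty = 0 := by omega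
    have t3' : (s 3).a.ty = 2 := by omega
    rw [DEC_A_zero M κ (s 1).a v _ _ (fun h => by omega),
      DEC_A_zero M κ (s 3).a v _ _ (fun h => by omega)]
    have := DEC_pairQ M κ (had 2) (had 0) (had 3) hv t2' t0 t3' t0'
    rw [neg_zero, zero_add, add_zero, ← neg_add, this, neg_zero]
  · have t2' : (s 2).a.ty = 2 := by omega
    have t3' : (s 3).a.ty = 0 := by omega
    rw [DEC_A_zero M κ (s 2).a v _ _ (fun h => by omega),
      DEC_A_zero M κ (s 0).a v _ _ (fun h => by omega)]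
    have := DEC_pairQ M κ (had 1) (had 3) (had 2) hv t0' t3' t2' t0
    rw [neg_zero, add_zero, add_zero, ← neg_add, this, neg_zero]

theorem DEC_ty2 (κ : Pl M) {v : Vtx (gen M)} {s : ℕ → Stp (Vtx (gen M))} (hv : v.ty = 2)
    (j : ℕ) : DEC_t M κ v s j = 0 := by
  unfold DEC_t
  rw [DEC_A_zero M κ v _ _ _ (fun h => by omega), DEC_A_zero M κ _ v _ _ (fun h => by omega),
    sub_zero]

end

open Classical in
theorem stmt_DEC (hGBX : Stmt_GBX) (hLE : Stmt_LE) : Stmt_DEC := by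
  intro S _ _ M hM
  obtain ⟨C₁, hC₁⟩ := hGBX S M hM
  obtain ⟨c, hc, hLE⟩ := hLE S M hM
  refine ⟨2 * C₁, fun l hl hCW => ?_⟩
  obtain ⟨D, n, X, hFill, hX, hacc, hlen⟩ := hC₁ l hl hCW
  -- flat loops
  have hTL : ∀ i, X.Flat (ang M 0) i → TLoop Vtx.ad (X.v i) (X.K i) (X.s i) := by
    intro i hi
    refine ⟨hX.pos i, hX.per i, ?_, ?_⟩
    · intro j
      rcases hX.stp i j with h | h
      · exact h
      · exact absurd (hi.1 j) h.1
    · intro j
      exact ⟨(hX.cmp i j).1, (hX.cmp i j).2.1⟩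
  have hflat : ∀ i, X.Flat (ang M 0) i → X.K i = fl M (X.v i) ∧
      ((X.v i).ty = 0 → ∃ E : Finset S, ETri M E ∧ ∀ j, (X.s i j).a.J ⊆ E) := by
    intro i hi
    have hw : ∑ j ∈ Finset.range (X.K i), ang M 0 (X.v i) (X.s i j).a (X.s i j).b = 2 := by
      rw [← hi.2]
      unfold LSys.wt
      exact Finset.sum_congr rfl (fun j _ => by rw [if_pos (hi.1 j)])
    rcases hLE (X.v i) (X.K i) (X.s i) (hTL i hi) with ⟨h1, -, h3⟩ | h
    · exact ⟨h1, h3⟩
    · exfalso
      rw [hw] at h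
      have : (0 : ℝ) < X.K i := by exact_mod_cast hX.pos i
      nlinarith [mul_pos hc this]
  have hE : ∀ i, ∃ E : Finset S, X.Flat (ang M 0) i → (X.v i).ty = 0 →
      ETri M E ∧ ∀ j, (X.s i j).a.J ⊆ E := by
    intro i
    by_cases h : X.Flat (ang M 0) i ∧ (X.v i).ty = 0
    · obtain ⟨E, hE⟩ := (hflat i h.1).2 h.2
      exact ⟨E, fun _ _ => hE⟩
    · exact ⟨∅, fun h1 h2 => absurd ⟨h1, h2⟩ h⟩
  choose E hE using hE
  have hy : ∀ i, ∃ y, (X.v i).mem y := fun i => (X.v i).exists_mem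
  choose y hy using hy
  let κi : X.ι → Pl M := fun i => ⟨E i, QuotientGroup.mk (y i)⟩
  let good : X.ι → Prop := fun i => X.Flat (ang M 0) i ∧ (X.v i).ty = 0
  let part : X.ι → C2 (gen M) := fun i => ∑ j ∈ Finset.range (X.K i),
    (if (X.s i j).k = 0 then (if (X.v i).ty = 0 then TT (X.v i) (X.s i j).a (X.s i j).b else 0)
      else 0)
  have hD : D = - ∑ i, part i := by
    have h := hacc _ (DEC_F1 M) (fun _ _ => rfl)
    have h2 : X.tot (fun _ => 0) (fun _ => 0) (DEC_F1 M) = ∑ i, part i := by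
      unfold LSys.tot
      apply Finset.sum_congr rfl
      intro i _
      apply Finset.sum_congr rfl
      intro j _
      simp only [Acc.val, Acc.jn, DEC_F1, add_zero]
    rw [h2] at h
    rw [h]
    simp [DEC_F1]
  -- size of the parts
  have hpart : ∀ i, nf (part i) ≤ X.K i := by
    intro i
    refine (DEC_nf_sum _ _).trans ?_
    calc _ ≤ ∑ j ∈ Finset.range (X.K i), 1 := by
          apply Finset.sum_le_sum
          intro j _
          split_ifs with h1 h2
          · rcases hX.stp i j with h | h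
            · obtain ⟨-, a1, a2, a3⟩ := h
              obtain ⟨t, m, e, hm, -⟩ := DEC_TT0 h2 a1 a3 a2
              rw [e, DEC_nf_single, hm]
            · exact absurd h1 h.1
          · rw [DEC_nf_zero]; omega
          · rw [DEC_nf_zero]; omega
      _ = X.K i := by simp
  -- the parts of the good loops
  have hpartg : ∀ i, good i → part i =
      ∑ j ∈ Finset.range (X.K i), TT (X.v i) (X.s i j).a (X.s i j).b := by
    intro i hi
    apply Finset.sum_congr rfl
    intro j _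
    rw [if_pos (hi.1.1 j), if_pos hi.2]
  have hsupp : ∀ i, good i → ∀ t ∈ (part i).support,
      (t.1.ty = 0 ∧ t.2.1.ty = 1 ∧ t.2.2.ty = 2 ∧ t.1.ad t.2.1 ∧ t.2.1.ad t.2.2 ∧
        t.1.ad t.2.2) ∧ OnP M (κi i) t.1 ∧ OnP M (κi i) t.2.1 ∧ OnP M (κi i) t.2.2 := by
    intro i hi t ht
    rw [hpartg i hi] at ht
    obtain ⟨j, hj, ht⟩ := Finset.mem_biUnion.1 (Finsupp.support_finsetSum ht)
    have hL := hTL i hi.1
    obtain ⟨-, a1, a2, a3⟩ := hL.stp j
    obtain ⟨t', m, e, hm, h1, h2, h3⟩ := DEC_TT0 hi.2 a1 a3 a2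
    rw [e] at ht
    have ht' := Finsupp.support_single_subset ht
    rw [Finset.mem_singleton] at ht'
    subst ht'
    have hEi := hE i hi.1 hi.2
    have haP : OnP M (κi i) (X.s i j).a :=
      ⟨hEi.2 j, y i, Vtx.ad_mem a1 (by have := Vtx.ad_ty_ne a1; omega) (hy i), rfl⟩
    have hbP : OnP M (κi i) (X.s i j).b := by
      refine ⟨?_, y i, Vtx.ad_mem a2 (by have := Vtx.ad_ty_ne a2; omega) (hy i), rfl⟩
      rw [DEC_b M hL j]
      exact hEi.2 (j + 1)
    refine ⟨h3, ?_, ?_, ?_⟩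
    · rw [h1]
      refine ⟨?_, y i, hy i, rfl⟩
      rw [Vtx.J0 hi.2]
      exact Finset.empty_subset _
    · rcases h2 with ⟨h2, -⟩ | ⟨h2, -⟩ <;> rw [h2] <;> assumption
    · rcases h2 with ⟨-, h2⟩ | ⟨-, h2⟩ <;> rw [h2] <;> assumption
  let Ks : Finset (Pl M) := (Finset.univ.filter good).image κi
  let T : Pl M → C2 (gen M) := fun κ => - ∑ i, if good i ∧ κi i = κ then part i else 0
  let σ : C2 (gen M) := - ∑ i, if good i then 0 else part i
  refine ⟨D, n, σ, Ks, T, hFill, ?_, ?_, ?_, ?_⟩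
  · rw [hD]
    change _ = - (∑ i, if good i then 0 else part i) +
      ∑ κ ∈ Ks, - ∑ i, if good i ∧ κi i = κ then part i else 0
    rw [Finset.sum_neg_distrib, ← neg_add, Finset.sum_comm, ← Finset.sum_add_distrib]
    congr 1
    apply Finset.sum_congr rfl
    intro i _
    by_cases hi : good i
    · rw [if_pos hi, zero_add]
      have hk : κi i ∈ Ks := Finset.mem_image_of_mem _ (by simp [hi])
      rw [Finset.sum_eq_single_of_mem _ hk]
      · rw [if_pos ⟨hi, rfl⟩]
      · intro κ _ hne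
        rw [if_neg (fun h => hne h.2.symm)]
    · rw [if_neg hi, Finset.sum_eq_zero, add_zero]
      intro κ _
      rw [if_neg (fun h => hi h.1)]
  · have h1 : nrm σ ≤ ∑ i, if X.Flat (ang M 0) i then 0 else X.K i := by
      change nf (- ∑ i, if good i then 0 else part i) ≤ _
      rw [DEC_nf_neg]
      refine (DEC_nf_sum _ _).trans ?_
      apply Finset.sum_le_sum
      intro i _
      by_cases hi : good i
      · rw [if_pos hi, DEC_nf_zero]; omega
      · rw [if_neg hi]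
        by_cases hf : X.Flat (ang M 0) i
        · have ht : ¬ (X.v i).ty = 0 := fun h => hi ⟨hf, h⟩
          have hz : part i = 0 := by
            apply Finset.sum_eq_zero
            intro j _
            simp [ht]
          rw [hz, DEC_nf_zero]; omega
        · rw [if_neg hf]
          exact hpart i
    have h2 := h1.trans hlen
    nlinarith [h2]
  · intro κ hκ
    obtain ⟨i₀, hi₀, rfl⟩ := Finset.mem_image.1 hκ
    have hg₀ : good i₀ := (Finset.mem_filter.1 hi₀).2
    refine ⟨(hE i₀ hg₀.1 hg₀.2).1, ?_⟩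
    have hall : ∀ t ∈ (T (κi i₀)).support,
        (t.1.ty = 0 ∧ t.2.1.ty = 1 ∧ t.2.2.ty = 2 ∧ t.1.ad t.2.1 ∧ t.2.1.ad t.2.2 ∧
          t.1.ad t.2.2) ∧ OnP M (κi i₀) t.1 ∧ OnP M (κi i₀) t.2.1 ∧ OnP M (κi i₀) t.2.2 := by
      intro t ht
      change t ∈ (- ∑ i, if good i ∧ κi i = κi i₀ then part i else 0).support at ht
      rw [Finsupp.support_neg] at ht
      obtain ⟨i, -, ht⟩ := Finset.mem_biUnion.1 (Finsupp.support_finsetSum ht)
      by_cases hi : good i ∧ κi i = κi i₀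
      · rw [if_pos hi] at ht
        rw [← hi.2]
        exact hsupp i hi.1 t ht
      · rw [if_neg hi] at ht
        simp at ht
    exact ⟨fun t ht => (hall t ht).1, fun t ht => (hall t ht).2⟩
  · -- the boundaries
    let jn : Pl M → X.ι → ℕ → C1 (gen M) := fun κ i j =>
      (DEC_F2 M κ).jn (fun _ => 0) (fun _ => 0) (X.v i) (X.s i j) (X.s i (j + 1))
    have htot : ∀ κ, ∑ i, ∑ j ∈ Finset.range (X.K i), jn κ i j = 0 := by
      intro κ
      have h := hacc _ (DEC_F2 M κ) (fun _ _ => rfl)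
      have h2 : X.tot (fun _ => 0) (fun _ => 0) (DEC_F2 M κ) =
          ∑ i, ∑ j ∈ Finset.range (X.K i), jn κ i j := by
        unfold LSys.tot
        apply Finset.sum_congr rfl
        intro i _
        apply Finset.sum_congr rfl
        intro j _
        have : (DEC_F2 M κ).val (X.v i) (X.s i j) = 0 := by
          simp [Acc.val, DEC_F2]
        rw [this, zero_add]
      rw [h2] at h
      rw [h]
      simp [DEC_F2]
    have hjnf : ∀ κ i, X.Flat (ang M 0) i → ∀ j, jn κ i j = DEC_t M κ (X.v i) (X.s i) j := by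
      intro κ i hi j
      have h1 := hi.1 j
      have h2 := hi.1 (j + 1)
      change (DEC_F2 M κ).jn (fun _ => 0) (fun _ => 0) (X.v i) (X.s i j) (X.s i (j + 1)) = _
      simp only [Acc.jn, rsd, lsd, h1, h2, if_true, DEC_F2, DEC_t]
    have hgood : ∀ κ i, good i → ∑ j ∈ Finset.range (X.K i), jn κ i j =
        if κi i = κ then bd2 (gen M) (part i) else 0 := by
      intro κ i hi
      have hL := hTL i hi.1
      rw [Finset.sum_congr rfl (fun j _ => hjnf κ i hi.1 j),
        DEC_good M κ hL hi.2 (hy i) (hE i hi.1 hi.2).1.1 (hE i hi.1 hi.2).2, hpartg i hi,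
        DEC_bd_loop hL]
      by_cases hk : κi i = κ
      · rw [if_pos hk]; exact if_pos hk
      · rw [if_neg hk]; exact if_neg hk
    have hbadflat : ∀ κ i, X.Flat (ang M 0) i → ¬ good i →
        ∑ j ∈ Finset.range (X.K i), jn κ i j = 0 := by
      intro κ i hi hng
      have hL := hTL i hi
      have ht0 : (X.v i).ty ≠ 0 := fun h => hng ⟨hi, h⟩
      have ht2 := (X.v i).ty_le
      rw [Finset.sum_congr rfl (fun j _ => hjnf κ i hi j)]
      by_cases h1 : (X.v i).ty = 1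
      · have hK : X.K i = 4 := by
          rw [(hflat i hi).1]
          simp [fl, h1]
        rw [hK] at hL ⊢
        exact DEC_ty1 M κ hL h1
      · exact Finset.sum_eq_zero (fun j _ => DEC_ty2 M κ (by omega) j)
    have hbdT : ∀ κ, bd2 (gen M) (T κ) =
        ∑ i, if X.Flat (ang M 0) i then 0 else ∑ j ∈ Finset.range (X.K i), jn κ i j := by
      intro κ
      change bd2 (gen M) (- ∑ i, if good i ∧ κi i = κ then part i else 0) = _
      rw [map_neg, map_sum, neg_eq_iff_add_eq_zero, ← Finset.sum_add_distrib]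
      refine Eq.trans ?_ (htot κ)
      apply Finset.sum_congr rfl
      intro i _
      by_cases hf : X.Flat (ang M 0) i
      · rw [if_pos hf, add_zero]
        by_cases hg : good i
        · rw [hgood κ i hg]
          by_cases hk : κi i = κ
          · rw [if_pos ⟨hg, hk⟩, if_pos hk]
          · rw [if_neg (fun h => hk h.2), if_neg hk, map_zero]
        · rw [if_neg (fun h => hg h.1), map_zero, hbadflat κ i hf hg]
      · rw [if_neg hf, if_neg (fun h => hf h.1.1), map_zero, zero_add]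
    calc ∑ κ ∈ Ks, nf (bd2 (gen M) (T κ))
        ≤ ∑ κ ∈ Ks, ∑ i, (if X.Flat (ang M 0) i then 0 else
            ∑ j ∈ Finset.range (X.K i), nf (jn κ i j)) := by
          apply Finset.sum_le_sum
          intro κ _
          rw [hbdT κ]
          refine (DEC_nf_sum _ _).trans ?_
          apply Finset.sum_le_sum
          intro i _
          split_ifs with h
          · rw [DEC_nf_zero]
          · exact DEC_nf_sum _ _
      _ = ∑ i, ∑ κ ∈ Ks, (if X.Flat (ang M 0) i then 0 else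
            ∑ j ∈ Finset.range (X.K i), nf (jn κ i j)) := Finset.sum_comm
      _ ≤ ∑ i, (if X.Flat (ang M 0) i then 0 else X.K i) * 2 := by
          apply Finset.sum_le_sum
          intro i _
          split_ifs with h
          · simp
          · rw [Finset.sum_comm]
            calc _ ≤ ∑ j ∈ Finset.range (X.K i), 2 :=
                  Finset.sum_le_sum (fun j _ => DEC_sum_J M Ks _ _ _ _)
              _ = X.K i * 2 := by simp
      _ = (∑ i, if X.Flat (ang M 0) i then 0 else X.K i) * 2 := by rw [Finset.sum_mul]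
      _ ≤ 2 * C₁ * l.length := by nlinarith [hlen]

end Pool.HE
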