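import Pool.Agent.Work.MP_7084a3_full.B.DCOM

set_option autoImplicit false

namespace Pool.HE

open Pool.HA

namespace DWNCaux

theorem cj {G : Type} [Group G] {a b : G} (ha : a * a = 1) (hb : b * b = 1) {g : G}
    (hg : g ∈ Subgroup.closure ({a, b} : Set G)) :
    g * (a * b) * g⁻¹ = a * b ∨ g * (a * b) * g⁻¹ = (a * b)⁻¹ := by
  have ha' : a⁻¹ = a := inv_eq_of_mul_eq_one_right ha
  have hb' : b⁻¹ = b := inv_eq_of_mul_eq_one_right hb
  induction hg using Subgroup.closure_induction with
  | mem x hx =>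
    right
    simp only [Set.mem_insert_iff, Set.mem_singleton_iff] at hx
    rcases hx with rfl | rfl
    · rw [mul_inv_rev, ha', hb', ← mul_assoc, ha, one_mul]
    · rw [mul_inv_rev, ha', hb', mul_assoc, mul_assoc, hb, mul_one]
  | one => left; simp
  | mul x y _ _ hx hy =>
    have e : x * y * (a * b) * (x * y)⁻¹ = x * (y * (a * b) * y⁻¹) * x⁻¹ := by group
    have e' : x * (a * b)⁻¹ * x⁻¹ = (x * (a * b) * x⁻¹)⁻¹ := by group
    rw [e]
    rcases hy with hy | hy
    · rw [hy]; exact hx
    · rw [hy, e']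
      rcases hx with hx | hx
      · rw [hx]; right; rfl
      · rw [hx, inv_inv]; left; rfl
  | inv x _ hx =>
    generalize a * b = c at hx ⊢
    rcases hx with hx | hx
    · left
      have : x⁻¹ * (x * c * x⁻¹) * x⁻¹⁻¹ = c := by group
      rwa [hx] at this
    · right
      have : x⁻¹ * (x * c * x⁻¹)⁻¹ * x⁻¹⁻¹ = c⁻¹ := by group
      rwa [hx, inv_inv] at this

theorem cj3 {G : Type} [Group G] {c g a : G} (hg : g * c * g⁻¹ = c ∨ g * c * g⁻¹ = c⁻¹)
    (ha : a * c * a⁻¹ = c⁻¹) : (g * a * g⁻¹) * c * (g * a * g⁻¹)⁻¹ = c⁻¹ := by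
  have e : (g * a * g⁻¹) * c * (g * a * g⁻¹)⁻¹ = g * (a * (g⁻¹ * c * g) * a⁻¹) * g⁻¹ := by group
  rcases hg with hg | hg
  · have h1 : g⁻¹ * c * g = c := by
      have : g⁻¹ * (g * c * g⁻¹) * g = c := by group
      rwa [hg] at this
    have h2 : g * c⁻¹ * g⁻¹ = (g * c * g⁻¹)⁻¹ := by group
    rw [e, h1, ha, h2, hg]
  · have h1 : g⁻¹ * c * g = c⁻¹ := by
      have : g⁻¹ * (g * c * g⁻¹)⁻¹ * g = c⁻¹ := by group
      rwa [hg, inv_inv] at this
    have h2 : a * c⁻¹ * a⁻¹ = (a * c * a⁻¹)⁻¹ := by group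
    rw [e, h1, h2, ha, inv_inv, hg]

end DWNCaux

open DCOMaux DWNCaux in
theorem stmt_DWNC (hDCPC : Stmt_DCPC) (hDPG : Stmt_DPG) (hPRJ : Stmt_PRJ) (hORD : Stmt_ORD)
    (hGREP : Stmt_GREP) : Stmt_DWNC := by
  intro S _ M hne s t hst hm
  classical
  constructor
  · intro α hα
    by_contra h0
    have hwm : gen M s * (gen M t)⁻¹ ∈ pr (gen M) s t :=
      mul_mem (left_mem_pr s t) (inv_mem (right_mem_pr s t))
    have hK : ∀ h ∈ pr (gen M) s t, Commute ((gen M s * (gen M t)⁻¹) ^ α.natAbs) h := by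
      intro h hh
      rcases Int.natAbs_eq α with e | e
      · have := hα h hh
        rw [e, zpow_natCast] at this
        exact this
      · have := hα h hh
        rw [e, zpow_neg, zpow_natCast] at this
        exact (Commute.inv_left_iff).1 this
    obtain ⟨v, hv, l, hl⟩ := hDCPC S M hne s t hst hm _ hwm α.natAbs (Int.natAbs_pos.2 h0) hK
    have hes : esum M (gen M s * (gen M t)⁻¹) = Multiplicative.ofAdd (0 : ℤ) := by
      rw [map_mul, map_inv, esum_gen, esum_gen, mul_inv_cancel]; rfl
    have hl0 : l = 0 := by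
      rcases hl with hl | hl
      · have h1 := congrArg (esum M) hl
        rw [esum_conj, map_zpow, hes, map_mul, esum_gen, esum_gen, ← ofAdd_add,
          ← ofAdd_zsmul] at h1
        have h2 : (0 : ℤ) = l • (1 + 1) := h1
        rw [smul_eq_mul] at h2
        omega
      · have h1 := congrArg (esum M) hl
        rw [esum_conj, map_zpow, hes, esum_altG, ← ofAdd_zsmul] at h1
        have h2 : (0 : ℤ) = l • ((M s t : ℕ) : ℤ) := h1
        rw [smul_eq_mul] at h2
        rcases mul_eq_zero.1 h2.symm with h3 | h3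
        · exact h3
        · have h4 : M s t = 0 := by exact_mod_cast h3
          omega
    have hw1 : gen M s * (gen M t)⁻¹ = 1 := by
      rcases hl with hl | hl
      · rw [hl, hl0]; simp
      · rw [hl, hl0]; simp
    have hgt : gen M s = gen M t := mul_inv_eq_one.1 hw1
    have h5 := hDPG S M hne {s} t (by
      rw [par_single, ← hgt]
      exact Subgroup.mem_zpowers _)
    rw [Finset.mem_singleton] at h5
    exact hst h5.symm
  · intro y hy a ha hcom
    have : Fintype S := Fintype.ofFinite S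
    obtain ⟨π, hπ, -⟩ := hPRJ S M hne
    obtain ⟨ρ, hρ⟩ := hGREP S M hne
    have hord := hORD S M ρ hne hρ s t
    have hss : ∀ i : S, M.simple i * M.simple i = 1 := by
      intro i
      have := M.toCoxeterSystem.simple_mul_simple_self i
      simpa using this
    have hsi : ∀ i : S, (M.simple i)⁻¹ = M.simple i :=
      fun i => inv_eq_of_mul_eq_one_right (hss i)
    have hπw : π (gen M s * (gen M t)⁻¹) = M.simple s * M.simple t := by
      rw [map_mul, map_inv, hπ, hπ, hsi]
    have hπy : π y ∈ Subgroup.closure ({M.simple s, M.simple t} : Set M.Group) := by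
      have h1 : π y ∈ (pr (gen M) s t).map π := Subgroup.mem_map_of_mem π hy
      rw [pr, MonoidHom.map_closure, Set.image_pair, hπ, hπ] at h1
      exact h1
    -- the conjugation by a generator inverts
    have hac : M.simple a * (M.simple s * M.simple t) * (M.simple a)⁻¹ =
        (M.simple s * M.simple t)⁻¹ := by
      rcases ha with rfl | rfl
      · rw [mul_inv_rev, hsi, hsi, ← mul_assoc, hss, one_mul]
      · rw [mul_inv_rev, hsi, hsi, mul_assoc, mul_assoc, hss, mul_one]
    have hc2 := hcom.map π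
    rw [hπw, map_mul, map_mul, map_inv, hπ] at hc2
    have key : (π y * M.simple a * (π y)⁻¹) * (M.simple s * M.simple t) *
        (π y * M.simple a * (π y)⁻¹)⁻¹ = (M.simple s * M.simple t)⁻¹ := by
      exact cj3 (cj (hss s) (hss t) hπy) hac
    rw [← hc2.eq] at key
    have h6 : M.simple s * M.simple t = (M.simple s * M.simple t)⁻¹ := by
      rw [← key]; group
    have h7 : (M.simple s * M.simple t) ^ 2 = 1 := by
      rw [pow_two]
      nth_rw 2 [h6]
      rw [mul_inv_cancel]
    have h8 := orderOf_dvd_of_pow_eq_one h7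
    rw [hord] at h8
    have := Nat.le_of_dvd two_pos h8
    omega

end Pool.HE
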