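import Pool.Agent.Work.MP_7084a3_full.B.H73

set_option autoImplicit false

/-! # EL2 -/

namespace Pool.HE

open Pool.HA

theorem h73_esum_altG {S : Type} (M : CoxeterMatrix S) (m : ℕ) : ∀ s t : S,
    esum M (altG (gen M s) (gen M t) m) = Multiplicative.ofAdd (m : ℤ) := by
  induction m with
  | zero => intro s t; simp [altG]
  | succ m ih =>
    intro s t
    rw [altG, map_mul, ih, esum_gen, ← ofAdd_add]
    congr 1
    push_cast
    ring

/-- no reflection in the parabolic commutes with the parabolic -/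
theorem h73_no_central_rfl (hDCPC : Stmt_DCPC) {S : Type} {M : CoxeterMatrix S}
    (hM : ∀ s t, M s t ≠ 0) {s t : S} (hst : s ≠ t) (hm : 3 ≤ M s t) {r : Art M}
    (hr : Rfl (gen M) r) (hrm : r ∈ pr (gen M) s t)
    (hc : ∀ h ∈ pr (gen M) s t, Commute r h) : False := by
  obtain ⟨w, -, l, hl⟩ := hDCPC S M hM s t hst hm r hrm 1 one_pos
    (fun h hh => by rw [pow_one]; exact hc h hh)
  have he : esum M r = Multiplicative.ofAdd 1 := hr.esum_eq
  have hcj : ∀ (w g : Art M), esum M (w * g * w⁻¹) = esum M g := by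
    intro w g
    rw [map_mul, map_mul, map_inv, mul_right_comm, mul_inv_cancel, one_mul]
  rcases hl with hl | hl
  · rw [hl, hcj, map_zpow, map_mul, esum_gen, esum_gen, ← ofAdd_add, ← ofAdd_zsmul] at he
    have := Multiplicative.ofAdd.injective he
    simp only [smul_eq_mul] at this
    omega
  · rw [hl, hcj, map_zpow, h73_esum_altG, ← ofAdd_zsmul] at he
    have := Multiplicative.ofAdd.injective he
    simp only [smul_eq_mul] at this
    have h3 : ((M s t : ℕ) : ℤ) ∣ 1 := ⟨l, by linarith⟩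
    have h4 := Int.le_of_dvd one_pos h3
    omega

/-- label two parabolics are abelian -/
theorem h73_comm_of_two {S : Type} {M : CoxeterMatrix S} {s t : S} (hst : s ≠ t)
    (h2 : M s t = 2) : ∀ p ∈ pr (gen M) s t, ∀ q ∈ pr (gen M) s t, Commute p q := by
  have hbr := braid M hst (by omega)
  rw [h2] at hbr
  simp only [altG, mul_one] at hbr
  have hself : ∀ p ∈ ({gen M s, gen M t} : Set (Art M)),
      ∀ q ∈ ({gen M s, gen M t} : Set (Art M)), Commute p q := by
    intro p hp q hq
    simp only [Set.mem_insert_iff, Set.mem_singleton_iff] at hp hq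
    rcases hp with rfl | rfl <;> rcases hq with rfl | rfl
    · exact Commute.refl _
    · exact hbr
    · exact hbr.symm
    · exact Commute.refl _
  intro p hp q hq
  have h1 : ∀ p ∈ ({gen M s, gen M t} : Set (Art M)), ∀ q ∈ pr (gen M) s t,
      Commute p q := by
    intro p hp q hq
    induction hq using Subgroup.closure_induction with
    | mem q hq => exact hself p hp q hq
    | one => exact Commute.one_right p
    | mul q q' _ _ h h' => exact h.mul_right h'
    | inv q _ h => exact h.inv_right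
  induction hp using Subgroup.closure_induction with
  | mem p hp => exact h1 p hp q hq
  | one => exact Commute.one_left q
  | mul p p' _ _ h h' => exact h.mul_left h'
  | inv p _ h => exact h.inv_left

theorem stmt_EL2 (hF3 : Stmt_F3) (hF4 : Stmt_F4) (hF5 : Stmt_F5) (hF6 : Stmt_F6)
    (hCZ : Stmt_CZ) (hDCEN : Stmt_DCEN) (hDCPC : Stmt_DCPC) (hDNCM : Stmt_DNCM) :
    Stmt_EL2 := by
  intro S S' _ _ _ M M' hM hM' φ s t u hst hm hJ' hu1 hnf
  have hJ : ∀ a, a ∈ u.J ↔ a = s ∨ a = t := by intro a; rw [hJ']; simp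
  have hfix := h73_fix_J hJ hu1
  obtain ⟨z, hz⟩ : ∃ z, z = zz M s t := ⟨_, rfl⟩
  have hsu : gen M s • u = u := by rw [hfix]; exact left_mem_pr s t
  have htu : gen M t • u = u := by rw [hfix]; exact right_mem_pr s t
  have hzu : z • u = u := by rw [hfix, hz]; exact h73_zz_mem s t
  have hzc : ∀ h : Art M, h • u = u → Commute z h := by
    intro h hh
    rw [hfix] at hh
    rw [hz]
    exact hDCEN S M hM.ne_zero s t hst h hh
  rw [← hz] at hnf
  obtain ⟨k, hk, v, hv⟩ : ∃ k : ℕ, 0 < k ∧ ∃ v : Vtx (gen M'), (φ z ^ k) • v = v := by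
    unfold NoFix at hnf
    push Not at hnf
    obtain ⟨k, hk, v, hv⟩ := hnf
    refine ⟨k.natAbs, Int.natAbs_pos.2 hk, v, ?_⟩
    have h1 : (φ z ^ (k.natAbs : ℤ)) • v = v := by
      rcases Int.natAbs_eq k with h | h
      · rw [← h]; exact hv
      · have h2 : ((k.natAbs : ℕ) : ℤ) = k * (-1) := by omega
        rw [h2, zpow_mul]
        exact h73_fix_zpow hv _
    rwa [zpow_natCast] at h1
  have hnst : ¬ Commute (gen M s) (gen M t) := by
    intro h
    have := hDNCM S M hM.ne_zero s t hst hm 1 (by simpa using h)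
    omega
  have hzm : (gen M s * gen M t) ^ M s t = z := by rw [hz]; rfl
  have hz1 : z ^ k ≠ 1 := by
    intro h
    have h1 := h73_zz_zpow_ne_one (M := M) (hM.ne_zero s t) (k := (k : ℤ)) (by omega)
    rw [← hz, zpow_natCast] at h1
    exact h1 h
  have hc1 : φ z ^ k ≠ 1 := by
    intro h
    apply hz1
    apply φ.injective
    rw [map_pow, h, map_one]
  have hcc : ∀ h : Art M, h • u = u → Commute (φ h) (φ z ^ k) := by
    intro h hh
    exact ((hzc h hh).symm.map φ).pow_right k
  have hnr : ¬ ∃ r', Rfl (gen M') r' ∧ ∃ i : ℤ, φ z ^ k = r' ^ i := by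
    rintro ⟨r', hr', i, hi⟩
    have hi0 : i ≠ 0 := by
      rintro rfl
      exact hc1 (by simpa using hi)
    have hC : ∀ h : Art M, h • u = u → Commute (φ h) r' := by
      intro h hh
      have := hcc h hh
      rw [hi] at this
      exact (hF4 S' M' hM' r' hr' i hi0).2 _ this
    obtain ⟨j, hj⟩ := hF6 S' M' hM' r' (φ (gen M s * gen M t)) (M s t * k) i hr'
      (hC _ (h73_fix_mul hsu htu)) (Nat.mul_pos (by omega) hk) (by
        rw [pow_mul, ← map_pow, hzm, hi])
    have h1 : Commute (φ (gen M s)) (φ (gen M s * gen M t)) := by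
      rw [hj]
      exact (hC _ hsu).zpow_right j
    have h2 : Commute (gen M s) (gen M s * gen M t) := by
      have := h1.map φ.symm
      simpa using this
    apply hnst
    have h3 : gen M t = (gen M s)⁻¹ * (gen M s * gen M t) := by group
    rw [h3]
    exact ((Commute.refl (gen M s)).inv_right).mul_right h2
  have huniq : ∀ j : ℤ, j ≠ 0 → ∀ w : Vtx (gen M'), ((φ z ^ k) ^ j) • w = w → w = v := by
    rcases hF5 S' M' hM' (φ z ^ k) v hc1 hv with h | h
    · exact absurd h hnr
    · exact h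
  have hst' : ∀ h : Art M, h • u = u → φ h • v = v := fun h hh =>
    h73_fix_of_comm hv huniq (hcc h hh)
  have hv0 : v.ty ≠ 0 := ty_ne_zero_of_fix hc1 hv
  have hv1 : v.ty ≠ 1 := by
    intro h1
    obtain ⟨r, hr, -, h⟩ := stab1 h1
    obtain ⟨i, hi⟩ := h _ hv
    exact hnr ⟨r, hr, i, hi⟩
  have hv2 : v.ty = 2 := by
    have := v.ty_le
    omega
  obtain ⟨s', t', hst2, hJ2⟩ : ∃ s' t', s' ≠ t' ∧ ∀ a, a ∈ v.J ↔ a = s' ∨ a = t' := by
    classical
    obtain ⟨s', t', h1, h2⟩ := Vtx.J2 hv2
    exact ⟨s', t', h1, fun a => by rw [h2]; simp⟩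
  obtain ⟨x', hx'⟩ := v.exists_mem
  have hfix' := fun h => Vtx.fix2' hJ2 hx' h
  have hlb : 3 ≤ lb M' v.J := by
    classical
    have hJ3 : v.J = {s', t'} := by ext a; simp [hJ2 a]
    rw [hJ3, lb_pair hst2 (hM'.ne_zero s' t')]
    have h2le := hM'.two_le hst2
    by_contra hlt
    have h2 : M' s' t' = 2 := by omega
    have hcomm := h73_comm_of_two hst2 h2
    have ha' := (hfix' (φ (gen M s))).1 (hst' _ hsu)
    have hb' := (hfix' (φ (gen M t))).1 (hst' _ htu)
    have h3 := hcomm _ ha' _ hb'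
    have h4 : Commute (φ (gen M s)) (φ (gen M t)) := by
      have e1 : φ (gen M s) = x' * (x'⁻¹ * φ (gen M s) * x') * x'⁻¹ := by group
      have e2 : φ (gen M t) = x' * (x'⁻¹ * φ (gen M t) * x') * x'⁻¹ := by group
      rw [e1, e2]
      exact (Commute.conj_iff x').2 h3
    apply hnst
    have := h4.map φ.symm
    simpa using this
  refine ⟨v, hv2, hlb, fun h => ⟨hst' h, ?_⟩⟩
  -- the reverse direction
  obtain ⟨z', hz'⟩ : ∃ z', z' = x' * (gen M' s' * gen M' t') ^ M' s' t' * x'⁻¹ := ⟨_, rfl⟩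
  have hzc' : ∀ h : Art M', h • v = v → Commute z' h := by
    intro h hh
    rw [hfix'] at hh
    have h1 := hDCEN S' M' hM'.ne_zero s' t' hst2 _ hh
    have h3 : h = x' * (x'⁻¹ * h * x') * x'⁻¹ := by group
    rw [h3, hz']
    exact (Commute.conj_iff x').2 h1
  obtain ⟨e, he⟩ : ∃ e, e = φ.symm z' := ⟨_, rfl⟩
  have hφe : φ e = z' := by rw [he]; simp
  have hez : Commute e z := by
    have h1 : Commute (φ e) (φ z) := by rw [hφe]; exact hzc' _ (hst' z hzu)
    have := h1.map φ.symm
    simpa using this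
  have heu : e • u = u := by
    refine (hCZ S M hM s t 1 u hst hm hJ hu1 1 one_ne_zero).2 e ?_
    rw [zpow_one, one_mul, inv_one, mul_one, hzm]
    exact hez
  have hz'1 : z' ≠ 1 := by
    intro h
    have h1 : zz M' s' t' ^ (1 : ℤ) ≠ 1 :=
      h73_zz_zpow_ne_one (hM'.ne_zero s' t') one_ne_zero
    apply h1
    have h2 : zz M' s' t' = x'⁻¹ * z' * x' := by rw [hz']; unfold zz; group
    rw [zpow_one, h2, h]
    group
  have he1 : e ≠ 1 := by
    intro h
    apply hz'1
    rw [← hφe, h, map_one]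
  have hec : ∀ h ∈ pr (gen M) s t, Commute e h := by
    intro h hh
    have h1 : Commute (φ e) (φ h) := by
      rw [hφe]
      exact hzc' _ (hst' h (by rw [hfix]; exact hh))
    have := h1.map φ.symm
    simpa using this
  have hner : ¬ ∃ r, Rfl (gen M) r ∧ ∃ i : ℤ, e = r ^ i := by
    rintro ⟨r, hr, i, hi⟩
    have hi0 : i ≠ 0 := by
      rintro rfl
      exact he1 (by simpa using hi)
    have hru : r • u = u := (hF3 S M hM r hr).1 i hi0 u (by rw [← hi]; exact heu)
    refine h73_no_central_rfl hDCPC hM.ne_zero hst hm hr ((hfix r).1 hru) ?_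
    intro h hh
    refine ((hF4 S M hM r hr i hi0).2 h ?_).symm
    rw [← hi]
    exact (hec h hh).symm
  have huniq' : ∀ j : ℤ, j ≠ 0 → ∀ w : Vtx (gen M), (e ^ j) • w = w → w = u := by
    rcases hF5 S M hM e u he1 heu with h | h
    · exact absurd h hner
    · exact h
  intro hh
  refine h73_fix_of_comm heu huniq' ?_
  have h1 : Commute (φ h) (φ e) := by rw [hφe]; exact (hzc' _ hh).symm
  have := h1.map φ.symm
  simpa using this

end Pool.HE
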