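import Pool.Agent.Work.MP_7084a3_full.InterfaceC
import Pool.Agent.Work.MP_7084a3_h91.B.WB

/-! Block EUC1. -/

set_option autoImplicit false
set_option linter.unusedSectionVars false
set_option linter.unusedVariables false

namespace Pool.HE

open Pool.HA

namespace EUC1

/-- `cos² (π / m)` -/
noncomputable def K (m : ℕ) : ℝ := Real.cos (Real.pi / m) ^ 2

theorem K2 : K 2 = 0 := by simp [K]
theorem K3 : K 3 = 1 / 4 := by
  unfold K
  rw [show ((3 : ℕ) : ℝ) = 3 by norm_num, Real.cos_pi_div_three]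
  norm_num
theorem K4 : K 4 = 1 / 2 := by
  unfold K
  rw [show ((4 : ℕ) : ℝ) = 4 by norm_num, Real.cos_pi_div_four, div_pow,
    Real.sq_sqrt (by norm_num)]
  norm_num
theorem K6 : K 6 = 3 / 4 := by
  unfold K
  rw [show ((6 : ℕ) : ℝ) = 6 by norm_num, Real.cos_pi_div_six, div_pow,
    Real.sq_sqrt (by norm_num)]
  norm_num

/-- the Euclidean labels -/
def Lab (a b c : ℕ) : Prop :=
  (a = 3 ∧ b = 3 ∧ c = 3) ∨ (a = 2 ∧ b = 4 ∧ c = 4) ∨ (a = 4 ∧ b = 2 ∧ c = 4) ∨
    (a = 4 ∧ b = 4 ∧ c = 2) ∨ (a = 2 ∧ b = 3 ∧ c = 6) ∨ (a = 2 ∧ b = 6 ∧ c = 3) ∨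
    (a = 3 ∧ b = 2 ∧ c = 6) ∨ (a = 6 ∧ b = 2 ∧ c = 3) ∨ (a = 3 ∧ b = 6 ∧ c = 2) ∨
    (a = 6 ∧ b = 3 ∧ c = 2)

theorem le6 (a b c : ℕ) (ha : 2 ≤ a) (hb : 2 ≤ b) (hc : 2 ≤ c)
    (h : b * c + a * c + a * b = a * b * c) : a ≤ 6 := by
  by_contra hc7
  have h7 : 7 ≤ a := by omega
  zify at h ha hb hc h7
  have h1 : (a : ℤ) * ((b : ℤ) * c - b - c) = b * c := by linear_combination -h
  have hpos : (0 : ℤ) < (b : ℤ) * c - b - c := by
    by_contra hn
    have h2 : (a : ℤ) * ((b : ℤ) * c - b - c) ≤ 0 :=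
      mul_nonpos_of_nonneg_of_nonpos (by linarith) (not_lt.1 hn)
    have h3 : (0 : ℤ) < (b : ℤ) * c := by positivity
    linarith
  have h4 : 7 * ((b : ℤ) * c - b - c) ≤ b * c := by
    have := mul_le_mul_of_nonneg_right h7 hpos.le
    linarith
  -- `6 b c ≤ 7 b + 7 c`, and `b c > b + c`
  have h5 : (0 : ℤ) < ((b : ℤ) - 1) * (c - 1) - 1 := by nlinarith
  have h6 : ((b : ℤ) - 1) * (c - 1) ≥ 2 := by linarith
  have h8 : 6 * ((b : ℤ) - 1) * (c - 1) ≤ (b - 1) + (c - 1) + 8 := by nlinarith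
  -- with `x = b - 1`, `y = c - 1`: `6 x y ≤ x + y + 8`, `x y ≥ 2`, `x, y ≥ 1`
  have hx : (1 : ℤ) ≤ (b : ℤ) - 1 := by linarith
  have hy : (1 : ℤ) ≤ (c : ℤ) - 1 := by linarith
  have h9 : ((b : ℤ) - 1) + (c - 1) ≤ (b - 1) * (c - 1) + 1 := by nlinarith
  linarith

theorem lab (a b c : ℕ) (ha : 2 ≤ a) (hb : 2 ≤ b) (hc : 2 ≤ c)
    (h : (1 : ℚ) / a + 1 / b + 1 / c = 1) : Lab a b c := by
  have ha0 : (a : ℚ) ≠ 0 := by positivity
  have hb0 : (b : ℚ) ≠ 0 := by positivity
  have hc0 : (c : ℚ) ≠ 0 := by positivity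
  have h1 : (b : ℚ) * c + a * c + a * b = a * b * c := by
    field_simp at h
    linarith
  have h2 : b * c + a * c + a * b = a * b * c := by exact_mod_cast h1
  have h3 := le6 a b c ha hb hc h2
  have h4 := le6 b a c hb ha hc (by linarith)
  have h5 := le6 c b a hc hb ha (by linarith)
  unfold Lab
  interval_cases a <;> interval_cases b <;> interval_cases c <;> simp at h2 ⊢

theorem nonneg (a b c : ℕ) (h : Lab a b c) (x y z : ℝ) (hx : x ^ 2 ≤ K a) (hy : y ^ 2 ≤ K b)
    (hz : z ^ 2 ≤ K c) : 0 ≤ 1 + 2 * x * y * z - x ^ 2 - y ^ 2 - z ^ 2 := by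
  have hz0 : ∀ t : ℝ, t ^ 2 ≤ 0 → t = 0 := fun t ht =>
    pow_eq_zero_iff two_ne_zero |>.1 (le_antisymm ht (sq_nonneg t))
  rcases h with ⟨rfl, rfl, rfl⟩ | ⟨rfl, rfl, rfl⟩ | ⟨rfl, rfl, rfl⟩ | ⟨rfl, rfl, rfl⟩ |
    ⟨rfl, rfl, rfl⟩ | ⟨rfl, rfl, rfl⟩ | ⟨rfl, rfl, rfl⟩ | ⟨rfl, rfl, rfl⟩ | ⟨rfl, rfl, rfl⟩ |
    ⟨rfl, rfl, rfl⟩ <;> simp only [K2, K3, K4, K6] at hx hy hz
  · have h1 : |x * y * z| ≤ 1 / 8 := by
      have e : ∀ t : ℝ, t ^ 2 ≤ 1 / 4 → |t| ≤ 1 / 2 := by
        intro t ht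
        apply abs_le_of_sq_le_sq _ (by norm_num)
        linarith
      rw [abs_mul, abs_mul]
      have hx' := e x hx
      have hy' := e y hy
      have hz' := e z hz
      calc |x| * |y| * |z| ≤ (1 / 2) * (1 / 2) * (1 / 2) := by gcongr
        _ = 1 / 8 := by norm_num
    have h2 := neg_le_of_abs_le h1
    nlinarith
  all_goals
    first
      | (rw [hz0 x hx]; nlinarith)
      | (rw [hz0 y hy]; nlinarith)
      | (rw [hz0 z hz]; nlinarith)

theorem dvd_lab (m d : ℕ) (hm : m = 2 ∨ m = 3 ∨ m = 4 ∨ m = 6) (hd : d ∣ m) (h1 : d ≠ 1) :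
    (d = 2 ∨ d = 3 ∨ d = 4 ∨ d = 6) ∧ K d ≤ K m := by
  have hle : d ≤ m := Nat.le_of_dvd (by omega) hd
  have hd0 : d ≠ 0 := by
    rintro rfl
    have := Nat.eq_zero_of_zero_dvd hd
    omega
  rcases hm with rfl | rfl | rfl | rfl
  · have : d = 2 := by omega
    subst this
    simp
  · have : d = 3 := by
      interval_cases d
      · omega
      · omega
      · omega
      · rfl
    subst this
    simp
  · interval_cases d
    · omega
    · omega
    · rw [K2, K4]; norm_num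
    · omega
    · simp
  · interval_cases d
    · omega
    · omega
    · rw [K2, K6]; norm_num
    · rw [K3, K6]; norm_num
    · omega
    · omega
    · simp

theorem lab_mem {a b c : ℕ} (h : Lab a b c) : (a = 2 ∨ a = 3 ∨ a = 4 ∨ a = 6) ∧
    (b = 2 ∨ b = 3 ∨ b = 4 ∨ b = 6) ∧ (c = 2 ∨ c = 3 ∨ c = 4 ∨ c = 6) := by
  unfold Lab at h
  omega

end EUC1

theorem stmt_EUC1 (hRR : Stmt_RR) (hPRJ : Stmt_PRJ) (hORDB : Stmt_ORDB)
    (hGREP : Pool.HA.Stmt_GREP) (hBFI : Pool.HA.Stmt_BFI) (hGRAM : Pool.HA.Stmt_GRAM) :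
    Stmt_EUC1 := by
  classical
  intro S S' _ _ M M' hM hM' hE h3 hnE
  refine ⟨fun φ => ?_⟩
  have := Fintype.ofFinite S
  have := Fintype.ofFinite S'
  obtain ⟨π', hπ', hsurj⟩ := hPRJ S' M' hM'.ne_zero
  obtain ⟨ρ', hρ'⟩ := hGREP S' M' hM'.ne_zero
  obtain ⟨hsym, hlin, hbs, hinv, hone, hrf⟩ := hBFI S' M' ρ' hρ'
  have hcS : Fintype.card S = 3 := by rw [← Nat.card_eq_fintype_card]; exact hE.1
  have hr : ∀ s, ∃ v, IsRf M' ρ' (π' (φ (gen M s))) v ∧ bf M' v v = 1 := by
    intro s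
    obtain ⟨r', ⟨x, s', rfl⟩, h⟩ := hRR S S' M M' hM hM' (by rw [hE.1]) h3 hnE φ (gen M s)
      (rfl_gen s)
    have e : π' (x * gen M' s' * x⁻¹) = π' x * M'.simple s' * (π' x)⁻¹ := by
      rw [map_mul, map_mul, hπ', map_inv]
    refine ⟨ρ' (π' x) (bs s'), ⟨π' x, s', ?_, Or.inl rfl⟩, hone _ ⟨_, _, rfl⟩⟩
    rcases h with h | h
    · rw [h, e]
    · rw [h, map_inv, e]
      have h1 : (M'.simple s')⁻¹ = M'.simple s' :=
        inv_eq_of_mul_eq_one_left (H45.simple_sq45 M' s')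
      rw [mul_inv_rev, mul_inv_rev, inv_inv, h1, mul_assoc]
  choose β hβ hβ1 using hr
  have hsq : ∀ s, π' (φ (gen M s)) * π' (φ (gen M s)) = 1 := by
    intro s
    obtain ⟨w, s', h, -⟩ := hβ s
    rw [h]
    have h1 := H45.simple_sq45 M' s'
    calc w * M'.simple s' * w⁻¹ * (w * M'.simple s' * w⁻¹)
        = w * (M'.simple s' * M'.simple s') * w⁻¹ := by group
      _ = 1 := by rw [h1]; group
  let W : Submodule ℝ (S' → ℝ) := Submodule.span ℝ (Set.range β)
  have hβW : ∀ s, β s ∈ W := fun s => Submodule.subset_span ⟨s, rfl⟩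
  have hcl : ∀ a : Art M, ∀ x, ρ' (π' (φ a)) x - x ∈ W := by
    intro a
    have ha : a ∈ Subgroup.closure (Set.range (gen M)) := by
      have : Subgroup.closure (Set.range (gen M)) = ⊤ :=
        PresentedGroup.closure_range_of (braidRels M)
      rw [this]
      trivial
    induction ha using Subgroup.closure_induction with
    | mem y hy =>
      obtain ⟨s, rfl⟩ := hy
      intro x
      rw [hrf _ _ (hβ s), sub_sub_cancel_left]
      exact W.neg_mem (W.smul_mem _ (hβW s))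
    | one =>
      intro x
      simp
    | mul y z _ _ hy hz =>
      intro x
      rw [map_mul, map_mul, map_mul, Module.End.mul_apply]
      have := W.add_mem (hy (ρ' (π' (φ z)) x)) (hz x)
      rwa [sub_add_sub_cancel] at this
    | inv y _ hy =>
      intro x
      have h1 := hy (ρ' (π' (φ y⁻¹)) x)
      rw [← Module.End.mul_apply, ← map_mul, ← map_mul, ← map_mul, mul_inv_cancel, map_one,
        map_one, map_one, Module.End.one_apply] at h1
      have := W.neg_mem h1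
      rwa [neg_sub] at this
  have hbsW : ∀ s', (bs s' : S' → ℝ) ∈ W := by
    intro s'
    obtain ⟨b, hb⟩ := hsurj (M'.simple s')
    have h1 := hcl (φ.symm b) (bs s')
    rw [MulEquiv.apply_symm_apply, hb, hρ', hbs, M'.diagonal] at h1
    have h2 : (bs s' : S' → ℝ) - (2 * -Real.cos (Real.pi / ((1 : ℕ) : ℝ))) • bs s' - bs s' =
        (-2 : ℝ) • bs s' := by
      rw [Nat.cast_one, div_one, Real.cos_pi]
      module
    rw [h2] at h1
    have h3 := W.smul_mem (-(1 / 2) : ℝ) h1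
    rwa [smul_smul, show (-(1 / 2) : ℝ) * -2 = 1 by norm_num, one_smul] at h3
  have hWtop : W = ⊤ := by
    rw [Submodule.eq_top_iff']
    intro v
    have : v = ∑ i, v i • (bs i : S' → ℝ) := by
      ext j
      simp [bs, Finset.sum_apply, Pi.single_apply]
    rw [this]
    exact W.sum_mem (fun i _ => W.smul_mem _ (hbsW i))
  have hcS' : Fintype.card S' = 3 := by
    apply le_antisymm
    · have h1 := finrank_range_le_card (R := ℝ) (b := β)
      unfold Set.finrank at h1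
      have h2 : Submodule.span ℝ (Set.range β) = ⊤ := hWtop
      rw [h2, finrank_top, Module.finrank_fintype_fun_eq_card, hcS] at h1
      exact h1
    · rw [← Nat.card_eq_fintype_card]
      exact h3
  have hind : LinearIndependent ℝ β := by
    apply linearIndependent_of_top_le_span_of_card_eq_finrank
    · exact hWtop.ge
    · rw [Module.finrank_fintype_fun_eq_card, hcS, hcS']
  -- the forms
  have hne : ∀ i j, i ≠ j → π' (φ (gen M i)) ≠ π' (φ (gen M j)) := by
    intro i j hij h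
    have h1 := hrf _ _ (hβ i) (β i)
    have h2 := hrf _ _ (hβ j) (β i)
    rw [h, h2, hβ1] at h1
    have h3 : (2 : ℝ) • β i + (-(2 * bf M' (β i) (β j))) • β j = 0 := by
      have h4 := sub_right_injective h1
      rw [neg_smul, h4]
      module
    have h4 := linearIndependent_iff'.1 hind {i, j}
      (fun k => if k = i then (2 : ℝ) else -(2 * bf M' (β i) (β j))) (by
        rw [Finset.sum_pair hij, if_pos rfl, if_neg (Ne.symm hij)]
        exact h3) i (by simp)
    rw [if_pos rfl] at h4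
    exact two_ne_zero h4
  have hK : ∀ i j, i ≠ j → (M i j = 2 ∨ M i j = 3 ∨ M i j = 4 ∨ M i j = 6) →
      bf M' (β i) (β j) ^ 2 ≤ EUC1.K (M i j) := by
    intro i j hij hlab
    have h1 : (π' (φ (gen M i)) * π' (φ (gen M j))) ^ M i j = 1 := by
      rw [← H45.altG_quot _ _ _ (hsq i) (hsq j)]
      have h2 := congrArg (fun a => π' (φ a)) (braid M hij (hM.ne_zero i j))
      have e : ∀ a b (n : ℕ), π' (φ (altG (gen M a) (gen M b) n)) =
          altG (π' (φ (gen M a))) (π' (φ (gen M b))) n := by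
        intro a b n
        exact H45.altG_map (π'.comp φ.toMonoidHom) n _ _
      simp only [e] at h2
      rw [h2, mul_inv_cancel]
    obtain ⟨d, hd⟩ : ∃ d, d = orderOf (π' (φ (gen M i)) * π' (φ (gen M j))) := ⟨_, rfl⟩
    have hdd : d ∣ M i j := by rw [hd]; exact orderOf_dvd_of_pow_eq_one h1
    have hd1 : d ≠ 1 := by
      intro h
      rw [h] at hd
      have h2 := orderOf_eq_one_iff.1 hd.symm
      apply hne i j hij
      have h3 := eq_inv_of_mul_eq_one_left h2
      rw [h3]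
      exact inv_eq_of_mul_eq_one_left (hsq j)
    obtain ⟨h4, h5⟩ := EUC1.dvd_lab _ d hlab hdd hd1
    have h6 := hORDB S' M' ρ' hM'.ne_zero hρ' _ _ _ _ (hβ i) (hβ j) d h4 hd.symm
    calc bf M' (β i) (β j) ^ 2 = EUC1.K d := by
          unfold EUC1.K
          rw [← h6, sq_abs]
      _ ≤ _ := h5
  -- the three generators
  obtain ⟨x, y, z, hxy, hxz, hyz, huniv⟩ := Finset.card_eq_three.1
    (show (Finset.univ : Finset S).card = 3 from hcS)
  obtain ⟨s, t, r, hst, htr, hsr, hsum⟩ : ∃ s t r : S', s ≠ t ∧ t ≠ r ∧ s ≠ r ∧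
      (1 : ℚ) / (M' s t : ℚ) + 1 / (M' t r : ℚ) + 1 / (M' s r : ℚ) ≠ 1 := by
    by_contra hc
    apply hnE
    refine ⟨by rw [Nat.card_eq_fintype_card, hcS'], fun s t r h1 h2 h3 => ?_⟩
    by_contra h4
    exact hc ⟨s, t, r, h1, h2, h3, h4⟩
  have hsum' := lt_of_le_of_ne (hM'.hyp s t r hst htr hsr) hsum
  have hgram := hGRAM (M' s t) (M' t r) (M' s r) (hM'.two_le hst) (hM'.two_le htr)
    (hM'.two_le hsr) hsum'
  have hlab := EUC1.lab (M x y) (M y z) (M x z) (hM.two_le hxy) (hM.two_le hyz) (hM.two_le hxz)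
    (hE.2 x y z hxy hyz hxz)
  obtain ⟨m1, m2, m3⟩ := EUC1.lab_mem hlab
  have hnn := EUC1.nonneg _ _ _ hlab _ _ _ (hK x y hxy m1) (hK y z hyz m2) (hK x z hxz m3)
  -- Gram matrices
  let f' : Fin 3 → S' := ![s, t, r]
  have hf' : Function.Injective f' := by
    intro i j hij
    fin_cases i <;> fin_cases j <;> simp [f'] at hij ⊢ <;>
      first | exact hst hij | exact hsr hij | exact hst hij.symm | exact htr hij |
        exact hsr hij.symm | exact htr hij.symm
  have hb' : Function.Bijective f' :=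
    (Fintype.bijective_iff_injective_and_card f').2 ⟨hf', by rw [hcS']; simp⟩
  let e' : Fin 3 ≃ S' := Equiv.ofBijective f' hb'
  let P : Matrix (Fin 3) (Fin 3) ℝ := fun i j => β (![x, y, z] i) (f' j)
  let G : Matrix (Fin 3) (Fin 3) ℝ := fun i j => -Real.cos (Real.pi / M' (f' i) (f' j))
  let B : Matrix (Fin 3) (Fin 3) ℝ := fun i j => bf M' (β (![x, y, z] i)) (β (![x, y, z] j))
  have hB : B = P * G * P.transpose := by
    ext i j
    have h1 : B i j = ∑ k : Fin 3, ∑ l : Fin 3, P i k * P j l * G k l := by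
      show bf M' (β (![x, y, z] i)) (β (![x, y, z] j)) = _
      unfold bf
      rw [← e'.sum_comp]
      refine Finset.sum_congr rfl (fun k _ => ?_)
      rw [← e'.sum_comp]
      rfl
    rw [h1]
    simp only [Matrix.mul_apply, Matrix.transpose_apply, Fin.sum_univ_three]
    ring
  have hdet : B.det = P.det ^ 2 * G.det := by
    rw [hB, Matrix.det_mul, Matrix.det_mul, Matrix.det_transpose]
    ring
  have hG : G.det < 0 := by
    rw [Matrix.det_fin_three]
    have g00 : G 0 0 = 1 := by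
      simp only [G]
      rw [M'.diagonal, Nat.cast_one, div_one, Real.cos_pi]; norm_num
    have g11 : G 1 1 = 1 := by
      simp only [G]
      rw [M'.diagonal, Nat.cast_one, div_one, Real.cos_pi]; norm_num
    have g22 : G 2 2 = 1 := by
      simp only [G]
      rw [M'.diagonal, Nat.cast_one, div_one, Real.cos_pi]; norm_num
    have g01 : G 0 1 = -Real.cos (Real.pi / M' s t) := rfl
    have g10 : G 1 0 = -Real.cos (Real.pi / M' s t) := by
      show -Real.cos (Real.pi / M' t s) = _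
      rw [M'.symmetric t s]
    have g12 : G 1 2 = -Real.cos (Real.pi / M' t r) := rfl
    have g21 : G 2 1 = -Real.cos (Real.pi / M' t r) := by
      show -Real.cos (Real.pi / M' r t) = _
      rw [M'.symmetric r t]
    have g02 : G 0 2 = -Real.cos (Real.pi / M' s r) := rfl
    have g20 : G 2 0 = -Real.cos (Real.pi / M' s r) := by
      show -Real.cos (Real.pi / M' r s) = _
      rw [M'.symmetric r s]
    rw [g00, g11, g22, g01, g10, g12, g21, g02, g20]
    linarith
  have hPdet : 0 < P.det ^ 2 := by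
    have : P.det ≠ 0 := by
      intro h0
      obtain ⟨v, hv, hv0⟩ := Matrix.exists_vecMul_eq_zero_iff.2 h0
      apply hv
      have h1 : ∑ i, v i • β (![x, y, z] i) = 0 := by
        ext s'
        obtain ⟨j, rfl⟩ := hb'.2 s'
        have h2 := congrFun hv0 j
        simp only [Matrix.vecMul, dotProduct, P] at h2
        rw [Finset.sum_apply]
        exact h2
      have hinj : Function.Injective (![x, y, z] : Fin 3 → S) := by
        intro i j hij
        fin_cases i <;> fin_cases j <;> simp at hij ⊢ <;>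
          first | exact hxy hij | exact hxz hij | exact hxy hij.symm | exact hyz hij |
            exact hxz hij.symm | exact hyz hij.symm
      have h3 := Fintype.linearIndependent_iff.1 (hind.comp _ hinj) v h1
      ext i
      exact h3 i
    positivity
  have hBneg : B.det < 0 := by
    rw [hdet]
    exact mul_neg_of_pos_of_neg hPdet hG
  rw [Matrix.det_fin_three] at hBneg
  have b00 : B 0 0 = 1 := hβ1 x
  have b11 : B 1 1 = 1 := hβ1 y
  have b22 : B 2 2 = 1 := hβ1 z
  have b01 : B 0 1 = bf M' (β x) (β y) := rfl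
  have b10 : B 1 0 = bf M' (β x) (β y) := hsym _ _
  have b12 : B 1 2 = bf M' (β y) (β z) := rfl
  have b21 : B 2 1 = bf M' (β y) (β z) := hsym _ _
  have b02 : B 0 2 = bf M' (β x) (β z) := rfl
  have b20 : B 2 0 = bf M' (β x) (β z) := hsym _ _
  rw [b00, b11, b22, b01, b10, b12, b21, b02, b20] at hBneg
  linarith

end Pool.HE
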