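import Pool.Agent.Work.MP_7084a3_full.InterfaceC

set_option autoImplicit false

/-! Block EUC2: Euclidean triangle Artin groups are distinguished by the number of homomorphisms to the
group of order two. -/

namespace Pool.HE

open Pool.HA

namespace EUC2B

/-- the group of order two -/
abbrev A : Type := Multiplicative (ZMod 2)

theorem sq_one (x : A) : x * x = 1 := by revert x; decide

theorem lift_alt_even {S : Type} (f : S → A) (s t : S) (k : ℕ) :
    FreeGroup.lift f (alt s t (2 * k)) = (f s * f t) ^ k := by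
  induction k with
  | zero => simp [alt]
  | succ k ih =>
    have : 2 * (k + 1) = (2 * k + 1) + 1 := by ring
    rw [this, alt, alt, map_mul, map_mul, ih, FreeGroup.lift_apply_of, FreeGroup.lift_apply_of,
      pow_succ', mul_assoc]

theorem lift_alt_odd {S : Type} (f : S → A) (s t : S) (k : ℕ) :
    FreeGroup.lift f (alt s t (2 * k + 1)) = (f s * f t) ^ k * f s := by
  rw [alt, map_mul, lift_alt_even, FreeGroup.lift_apply_of, mul_comm, mul_comm (f t) (f s)]

/-- the condition for a function on the generators to extend to a homomorphism to `A` -/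
def Ok {S : Type} (M : CoxeterMatrix S) (f : S → A) : Prop := ∀ s t, Odd (M s t) → f s = f t

theorem lift_rel {S : Type} {M : CoxeterMatrix S} {f : S → A} (hf : Ok M f) :
    ∀ r ∈ braidRels M, FreeGroup.lift f r = 1 := by
  rintro r ⟨s, t, -, -, rfl⟩
  rw [map_mul, map_inv, mul_inv_eq_one]
  rcases Nat.even_or_odd' (M s t) with ⟨k, hk | hk⟩
  · rw [hk, lift_alt_even, lift_alt_even, mul_comm]
  · have := hf s t ⟨k, hk⟩
    rw [hk, lift_alt_odd, lift_alt_odd, this]

theorem ok_of_hom {S : Type} {M : CoxeterMatrix S} (F : Art M →* A) :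
    Ok M (fun s => F (gen M s)) := by
  intro s t hst
  by_cases hne : s = t
  · subst hne; rfl
  obtain ⟨k, hk⟩ := hst
  have hr : alt s t (M s t) * (alt t s (M s t))⁻¹ ∈ braidRels M :=
    ⟨s, t, hne, by omega, rfl⟩
  have h1 : (QuotientGroup.mk (alt s t (M s t) * (alt t s (M s t))⁻¹) : Art M) = 1 :=
    PresentedGroup.one_of_mem hr
  have h2 : ∀ w : FreeGroup S, F (PresentedGroup.mk (braidRels M) w) =
      FreeGroup.lift (fun s => F (gen M s)) w := by
    intro w
    have : F.comp (PresentedGroup.mk (braidRels M)) = FreeGroup.lift (fun s => F (gen M s)) := by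
      ext s
      simp [gen, PresentedGroup.of]
    exact DFunLike.congr_fun this w
  have h3 := h2 (alt s t (M s t) * (alt t s (M s t))⁻¹)
  have h4 : PresentedGroup.mk (braidRels M) (alt s t (M s t) * (alt t s (M s t))⁻¹) = 1 := h1
  rw [h4, map_one, map_mul, map_inv, eq_comm, mul_inv_eq_one, hk, lift_alt_odd,
    lift_alt_odd, mul_comm (F (gen M t)) (F (gen M s))] at h3
  exact mul_left_cancel h3

/-- homomorphisms to `A` and functions on the generators -/
noncomputable def homEquiv {S : Type} (M : CoxeterMatrix S) : (Art M →* A) ≃ {f : S → A // Ok M f} where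
  toFun F := ⟨fun s => F (gen M s), ok_of_hom F⟩
  invFun f := PresentedGroup.toGroup (lift_rel f.2)
  left_inv F := by
    apply PresentedGroup.ext
    intro s
    rw [PresentedGroup.toGroup.of]
    rfl
  right_inv f := by
    apply Subtype.ext
    funext s
    exact PresentedGroup.toGroup.of (lift_rel f.2)

/-- the labels along a numbering of the generators -/
def Lab {S : Type} (M : CoxeterMatrix S) (e : Fin 3 ≃ S) (p q r : ℕ) : Prop :=
  M (e 0) (e 1) = p ∧ M (e 1) (e 2) = q ∧ M (e 0) (e 2) = r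

/-- functions on three points with conditions -/
def Q (p q r : ℕ) (f : Fin 3 → A) : Prop :=
  (Odd p → f 0 = f 1) ∧ (Odd q → f 1 = f 2) ∧ (Odd r → f 0 = f 2)

theorem ok_iff {S : Type} {M : CoxeterMatrix S} {e : Fin 3 ≃ S} {p q r : ℕ} (h : Lab M e p q r)
    (f : S → A) : Ok M f ↔ Q p q r (f ∘ e) := by
  obtain ⟨h1, h2, h3⟩ := h
  constructor
  · intro hf
    exact ⟨fun ho => hf _ _ (h1 ▸ ho), fun ho => hf _ _ (h2 ▸ ho), fun ho => hf _ _ (h3 ▸ ho)⟩
  · rintro ⟨k1, k2, k3⟩ s t hst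
    obtain ⟨i, rfl⟩ := e.surjective s
    obtain ⟨j, rfl⟩ := e.surjective t
    simp only [Function.comp_apply] at k1 k2 k3
    fin_cases i <;> fin_cases j <;> simp only [Fin.zero_eta, Fin.mk_one, Fin.reduceFinMk] at hst ⊢
    · exact k1 (h1 ▸ hst)
    · exact k3 (h3 ▸ hst)
    · rw [M.symmetric] at hst; exact (k1 (h1 ▸ hst)).symm
    · exact k2 (h2 ▸ hst)
    · rw [M.symmetric] at hst; exact (k3 (h3 ▸ hst)).symm
    · rw [M.symmetric] at hst; exact (k2 (h2 ▸ hst)).symm

theorem card_hom {S : Type} {M : CoxeterMatrix S} {e : Fin 3 ≃ S} {p q r : ℕ}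
    (h : Lab M e p q r) : Nat.card (Art M →* A) = Nat.card {f : Fin 3 → A // Q p q r f} := by
  rw [Nat.card_congr (homEquiv M)]
  refine Nat.card_congr ?_
  refine (Equiv.subtypeEquiv (Equiv.arrowCongr e.symm (Equiv.refl A)) ?_)
  intro f
  rw [ok_iff h f]
  rfl

theorem card_333 : Nat.card {f : Fin 3 → A // Q 3 3 3 f} = 2 := by
  have e : ∀ f : Fin 3 → A, Q 3 3 3 f ↔ (f 0 = f 1 ∧ f 1 = f 2 ∧ f 0 = f 2) := by
    intro f
    have : Odd 3 := by decide
    simp [Q, this]
  rw [Nat.card_congr (Equiv.subtypeEquivRight e), Nat.card_eq_fintype_card]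
  decide

theorem card_244 : Nat.card {f : Fin 3 → A // Q 2 4 4 f} = 8 := by
  have e : ∀ f : Fin 3 → A, Q 2 4 4 f ↔ True := by
    intro f
    have h2 : ¬ Odd 2 := by decide
    have h4 : ¬ Odd 4 := by decide
    simp [Q, h2, h4]
  rw [Nat.card_congr (Equiv.subtypeEquivRight e), Nat.card_eq_fintype_card]
  decide

theorem card_236 : Nat.card {f : Fin 3 → A // Q 2 3 6 f} = 4 := by
  have e : ∀ f : Fin 3 → A, Q 2 3 6 f ↔ f 1 = f 2 := by
    intro f
    have h2 : ¬ Odd 2 := by decide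
    have h3 : Odd 3 := by decide
    have h6 : ¬ Odd 6 := by decide
    simp [Q, h2, h3, h6]
  rw [Nat.card_congr (Equiv.subtypeEquivRight e), Nat.card_eq_fintype_card]
  decide

theorem solve {p q r : ℕ} (hp : 2 ≤ p) (hq : 2 ≤ q) (hr : 2 ≤ r)
    (h : (1 : ℚ) / p + 1 / q + 1 / r = 1) :
    (p = 3 ∧ q = 3 ∧ r = 3) ∨ (p = 2 ∧ q = 4 ∧ r = 4) ∨ (p = 4 ∧ q = 2 ∧ r = 4) ∨
    (p = 4 ∧ q = 4 ∧ r = 2) ∨ (p = 2 ∧ q = 3 ∧ r = 6) ∨ (p = 2 ∧ q = 6 ∧ r = 3) ∨
    (p = 3 ∧ q = 2 ∧ r = 6) ∨ (p = 6 ∧ q = 2 ∧ r = 3) ∨ (p = 3 ∧ q = 6 ∧ r = 2) ∨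
    (p = 6 ∧ q = 3 ∧ r = 2) := by
  have hp0 : (0 : ℚ) < p := by exact_mod_cast (by omega : 0 < p)
  have hq0 : (0 : ℚ) < q := by exact_mod_cast (by omega : 0 < q)
  have hr0 : (0 : ℚ) < r := by exact_mod_cast (by omega : 0 < r)
  have h1 : (q : ℚ) * r + p * r + p * q = p * q * r := by
    field_simp at h
    linarith
  have h2 : q * r + p * r + p * q = p * q * r := by exact_mod_cast h1
  -- one of the labels is at most three
  have key : ∀ x y z : ℕ, 2 ≤ x → 2 ≤ y → 2 ≤ z → y * z + x * z + x * y = x * y * z → x ≤ 6 := by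
    intro x y z hx hy hz hh
    by_contra hc
    push Not at hc
    rcases Nat.lt_or_ge y 3 with h3 | h3
    · have : y = 2 := by omega
      subst this
      rcases Nat.lt_or_ge z 3 with h4 | h4
      · have : z = 2 := by omega
        subst this
        omega
      · nlinarith
    · rcases Nat.lt_or_ge z 3 with h4 | h4
      · have : z = 2 := by omega
        subst this
        nlinarith
      · obtain ⟨a, rfl⟩ := Nat.exists_eq_add_of_le h3
        obtain ⟨b, rfl⟩ := Nat.exists_eq_add_of_le h4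
        obtain ⟨c, rfl⟩ := Nat.exists_eq_add_of_lt hc
        have e1 := Nat.zero_le (a * b)
        have e2 := Nat.zero_le (a * c)
        have e3 := Nat.zero_le (b * c)
        have e4 := Nat.zero_le (a * b * c)
        ring_nf at hh e1 e2 e3 e4
        omega
  have b1 := key p q r hp hq hr h2
  have b2 := key q r p hq hr hp (by linarith)
  have b3 := key r p q hr hp hq (by linarith)
  interval_cases p <;> interval_cases q <;> (try omega)

theorem exists_lab {S : Type} {M : CoxeterMatrix S} (hM : ETyp M) (hE : IsEuc M) :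
    ∃ e : Fin 3 ≃ S, Lab M e 3 3 3 ∨ Lab M e 2 4 4 ∨ Lab M e 2 3 6 := by
  obtain ⟨hc, hE⟩ := hE
  have hF : Finite S := Nat.finite_of_card_ne_zero (by omega)
  have e0 : Fin 3 ≃ S := by
    have := (Finite.equivFin S).symm
    rwa [hc] at this
  -- the labels along `e0`
  have ne : ∀ i j : Fin 3, i ≠ j → e0 i ≠ e0 j := fun i j hij h => hij (e0.injective h)
  have n01 := ne 0 1 (by decide)
  have n12 := ne 1 2 (by decide)
  have n02 := ne 0 2 (by decide)
  have hs := solve (hM.two_le n01) (hM.two_le n12) (hM.two_le n02) (hE _ _ _ n01 n12 n02)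
  -- permuting
  have perm : ∀ σ : Equiv.Perm (Fin 3), ∀ p q r, M (e0 (σ 0)) (e0 (σ 1)) = p →
      M (e0 (σ 1)) (e0 (σ 2)) = q → M (e0 (σ 0)) (e0 (σ 2)) = r → Lab M (σ.trans e0) p q r := by
    intro σ p q r h1 h2 h3
    exact ⟨h1, h2, h3⟩
  have sym := M.symmetric
  rcases hs with ⟨h1, h2, h3⟩ | ⟨h1, h2, h3⟩ | ⟨h1, h2, h3⟩ | ⟨h1, h2, h3⟩ | ⟨h1, h2, h3⟩ |
    ⟨h1, h2, h3⟩ | ⟨h1, h2, h3⟩ | ⟨h1, h2, h3⟩ | ⟨h1, h2, h3⟩ | ⟨h1, h2, h3⟩
  · exact ⟨e0, Or.inl ⟨h1, h2, h3⟩⟩
  · exact ⟨e0, Or.inr (Or.inl ⟨h1, h2, h3⟩)⟩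
  · -- p = 4, q = 2, r = 4: (σ0,σ1) = (1,2), σ2 = 0
    refine ⟨(Equiv.swap 0 2 : Equiv.Perm (Fin 3)).trans e0, Or.inr (Or.inl (perm _ 2 4 4 ?_ ?_ ?_))⟩
    · have a : (Equiv.swap 0 2 : Equiv.Perm (Fin 3)) 0 = 2 := by decide
      have b : (Equiv.swap 0 2 : Equiv.Perm (Fin 3)) 1 = 1 := by decide
      rw [a, b, sym]; exact h2
    · have a : (Equiv.swap 0 2 : Equiv.Perm (Fin 3)) 1 = 1 := by decide
      have b : (Equiv.swap 0 2 : Equiv.Perm (Fin 3)) 2 = 0 := by decide
      rw [a, b, sym]; exact h1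
    · have a : (Equiv.swap 0 2 : Equiv.Perm (Fin 3)) 0 = 2 := by decide
      have b : (Equiv.swap 0 2 : Equiv.Perm (Fin 3)) 2 = 0 := by decide
      rw [a, b, sym]; exact h3
  · -- p = 4, q = 4, r = 2: pair (0,2) first: σ = swap 1 2
    refine ⟨(Equiv.swap 1 2 : Equiv.Perm (Fin 3)).trans e0, Or.inr (Or.inl (perm _ 2 4 4 ?_ ?_ ?_))⟩
    · have a : (Equiv.swap 1 2 : Equiv.Perm (Fin 3)) 0 = 0 := by decide
      have b : (Equiv.swap 1 2 : Equiv.Perm (Fin 3)) 1 = 2 := by decide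
      rw [a, b]; exact h3
    · have a : (Equiv.swap 1 2 : Equiv.Perm (Fin 3)) 1 = 2 := by decide
      have b : (Equiv.swap 1 2 : Equiv.Perm (Fin 3)) 2 = 1 := by decide
      rw [a, b, sym]; exact h2
    · have a : (Equiv.swap 1 2 : Equiv.Perm (Fin 3)) 0 = 0 := by decide
      have b : (Equiv.swap 1 2 : Equiv.Perm (Fin 3)) 2 = 1 := by decide
      rw [a, b]; exact h1
  · exact ⟨e0, Or.inr (Or.inr ⟨h1, h2, h3⟩)⟩
  · -- p = 2, q = 6, r = 3: swap 0 1: labels (1,0) = 2, (0,2) = 3, (1,2) = 6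
    refine ⟨(Equiv.swap 0 1 : Equiv.Perm (Fin 3)).trans e0, Or.inr (Or.inr (perm _ 2 3 6 ?_ ?_ ?_))⟩
    · have a : (Equiv.swap 0 1 : Equiv.Perm (Fin 3)) 0 = 1 := by decide
      have b : (Equiv.swap 0 1 : Equiv.Perm (Fin 3)) 1 = 0 := by decide
      rw [a, b, sym]; exact h1
    · have a : (Equiv.swap 0 1 : Equiv.Perm (Fin 3)) 1 = 0 := by decide
      have b : (Equiv.swap 0 1 : Equiv.Perm (Fin 3)) 2 = 2 := by decide
      rw [a, b]; exact h3
    · have a : (Equiv.swap 0 1 : Equiv.Perm (Fin 3)) 0 = 1 := by decide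
      have b : (Equiv.swap 0 1 : Equiv.Perm (Fin 3)) 2 = 2 := by decide
      rw [a, b]; exact h2
  · -- p = 3, q = 2, r = 6: σ = (2, 1, 0): labels (2,1) = 2, (1,0) = 3, (2,0) = 6
    refine ⟨(Equiv.swap 0 2 : Equiv.Perm (Fin 3)).trans e0, Or.inr (Or.inr (perm _ 2 3 6 ?_ ?_ ?_))⟩
    · have a : (Equiv.swap 0 2 : Equiv.Perm (Fin 3)) 0 = 2 := by decide
      have b : (Equiv.swap 0 2 : Equiv.Perm (Fin 3)) 1 = 1 := by decide
      rw [a, b, sym]; exact h2
    · have a : (Equiv.swap 0 2 : Equiv.Perm (Fin 3)) 1 = 1 := by decide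
      have b : (Equiv.swap 0 2 : Equiv.Perm (Fin 3)) 2 = 0 := by decide
      rw [a, b, sym]; exact h1
    · have a : (Equiv.swap 0 2 : Equiv.Perm (Fin 3)) 0 = 2 := by decide
      have b : (Equiv.swap 0 2 : Equiv.Perm (Fin 3)) 2 = 0 := by decide
      rw [a, b, sym]; exact h3
  · -- p = 6, q = 2, r = 3: σ = (1, 2, 0): labels (1,2) = 2, (2,0) = 3, (1,0) = 6
    refine ⟨(finRotate 3).trans e0, Or.inr (Or.inr (perm _ 2 3 6 ?_ ?_ ?_))⟩
    · have a : (finRotate 3) 0 = 1 := by decide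
      have b : (finRotate 3) 1 = 2 := by decide
      rw [a, b]; exact h2
    · have a : (finRotate 3) 1 = 2 := by decide
      have b : (finRotate 3) 2 = 0 := by decide
      rw [a, b, sym]; exact h3
    · have a : (finRotate 3) 0 = 1 := by decide
      have b : (finRotate 3) 2 = 0 := by decide
      rw [a, b, sym]; exact h1
  · -- p = 3, q = 6, r = 2: σ = (2, 0, 1): labels (2,0) = 2, (0,1) = 3, (2,1) = 6
    refine ⟨(finRotate 3).symm.trans e0, Or.inr (Or.inr (perm _ 2 3 6 ?_ ?_ ?_))⟩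
    · have a : (finRotate 3).symm 0 = 2 := by decide
      have b : (finRotate 3).symm 1 = 0 := by decide
      rw [a, b, sym]; exact h3
    · have a : (finRotate 3).symm 1 = 0 := by decide
      have b : (finRotate 3).symm 2 = 1 := by decide
      rw [a, b]; exact h1
    · have a : (finRotate 3).symm 0 = 2 := by decide
      have b : (finRotate 3).symm 2 = 1 := by decide
      rw [a, b, sym]; exact h2
  · -- p = 6, q = 3, r = 2: σ = (0, 2, 1): labels (0,2) = 2, (2,1) = 3, (0,1) = 6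
    refine ⟨(Equiv.swap 1 2 : Equiv.Perm (Fin 3)).trans e0, Or.inr (Or.inr (perm _ 2 3 6 ?_ ?_ ?_))⟩
    · have a : (Equiv.swap 1 2 : Equiv.Perm (Fin 3)) 0 = 0 := by decide
      have b : (Equiv.swap 1 2 : Equiv.Perm (Fin 3)) 1 = 2 := by decide
      rw [a, b]; exact h3
    · have a : (Equiv.swap 1 2 : Equiv.Perm (Fin 3)) 1 = 2 := by decide
      have b : (Equiv.swap 1 2 : Equiv.Perm (Fin 3)) 2 = 1 := by decide
      rw [a, b, sym]; exact h2
    · have a : (Equiv.swap 1 2 : Equiv.Perm (Fin 3)) 0 = 0 := by decide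
      have b : (Equiv.swap 1 2 : Equiv.Perm (Fin 3)) 2 = 1 := by decide
      rw [a, b]; exact h1

theorem glue {S S' : Type} {M : CoxeterMatrix S} {M' : CoxeterMatrix S'} {e : Fin 3 ≃ S}
    {e' : Fin 3 ≃ S'} {p q r : ℕ} (h : Lab M e p q r) (h' : Lab M' e' p q r) :
    ∃ f : S ≃ S', ∀ s t, M' (f s) (f t) = M s t := by
  refine ⟨e.symm.trans e', ?_⟩
  intro s t
  obtain ⟨i, rfl⟩ := e.surjective s
  obtain ⟨j, rfl⟩ := e.surjective t
  simp only [Equiv.trans_apply, Equiv.symm_apply_apply]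
  obtain ⟨h1, h2, h3⟩ := h
  obtain ⟨k1, k2, k3⟩ := h'
  fin_cases i <;> fin_cases j <;> simp only [Fin.zero_eta, Fin.mk_one, Fin.reduceFinMk]
  · rw [M.diagonal, M'.diagonal]
  · rw [h1, k1]
  · rw [h3, k3]
  · rw [M.symmetric, M'.symmetric, h1, k1]
  · rw [M.diagonal, M'.diagonal]
  · rw [h2, k2]
  · rw [M.symmetric, M'.symmetric, h3, k3]
  · rw [M.symmetric, M'.symmetric, h2, k2]
  · rw [M.diagonal, M'.diagonal]

end EUC2B

open EUC2B in
theorem stmt_EUC2 : Stmt_EUC2 := by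
  intro S S' _ _ M M' hM hM' hE hE' ⟨φ⟩
  obtain ⟨e, he⟩ := exists_lab hM hE
  obtain ⟨e', he'⟩ := exists_lab hM' hE'
  have hc : Nat.card (Art M →* A) = Nat.card (Art M' →* A) :=
    Nat.card_congr
      { toFun := fun F => F.comp φ.symm.toMonoidHom
        invFun := fun F => F.comp φ.toMonoidHom
        left_inv := fun F => by ext x; simp
        right_inv := fun F => by ext x; simp }
  rcases he with h | h | h <;> rcases he' with h' | h' | h' <;>
    first
    | exact glue h h'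
    | (exfalso
       rw [card_hom h, card_hom h'] at hc
       simp only [card_333, card_244, card_236] at hc
       omega)

end Pool.HE
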