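import Pool.Agent.Work.MP_7084a3_full.InterfaceH

set_option autoImplicit false

namespace Pool.HE

open Pool.HA

namespace F3

variable {S : Type} {M : CoxeterMatrix S}

theorem step (h2 : Stmt_DROOT) (hM : ETyp M) {r : Art M} (hr : Rfl (gen M) r) {j : ℤ}
    (hj : j ≠ 0) {q q' : Vtx (gen M)} (hqq : q.ad q') (hq : r • q = q) (hq' : (r ^ j) • q' = q') :
    r • q' = q' := by
  classical
  have t1 : q.ty ≠ 0 := ty_ne_zero_of_fix hr.ne_one hq
  have t2 : q'.ty ≠ 0 := ty_ne_zero_of_fix (hr.zpow_ne_one hj) hq'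
  rcases ad_12 hqq t1 t2 with ⟨a, b⟩ | ⟨a, b⟩
  · exact Vtx.fix_up hqq (by omega) hq
  · obtain ⟨s, hs⟩ := Vtx.J1 b
    obtain ⟨p, p', hpp, hJ⟩ := Vtx.J2 a
    have hss : q'.J ⊂ q.J := Vtx.ad_ss (Vtx.ad_symm hqq) (by omega)
    have hsq : s ∈ q.J := by
      apply hss.subset
      rw [hs]; simp
    obtain ⟨t, hst, hJ'⟩ : ∃ t, s ≠ t ∧ q.J = {s, t} := by
      rw [hJ] at hsq
      simp only [Finset.mem_insert, Finset.mem_singleton] at hsq
      rcases hsq with rfl | rfl
      · exact ⟨p', hpp, hJ⟩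
      · exact ⟨p, hpp.symm, by rw [hJ, Finset.pair_comm]⟩
    obtain ⟨y, hy⟩ := q'.exists_mem
    have hyq : q.mem y := Vtx.ad_mem (Vtx.ad_symm hqq) (by omega) hy
    rw [Vtx.fix1 hs hy] at hq'
    obtain ⟨k, hk⟩ := hq'
    have hkj : j = k := by
      have h1 := congrArg (esum M) hk
      rw [hr.esum_zpow_eq, map_mul, map_mul, map_inv, mul_right_comm, mul_inv_cancel, one_mul,
        esum_zpow] at h1
      exact h1
    subst hkj
    rw [Vtx.fix2 hJ' hyq] at hq
    have hpow : (y⁻¹ * r * y) ^ j = gen M s ^ j := by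
      have : (y⁻¹ * r * y) ^ j = y⁻¹ * r ^ j * y := by
        have := conj_zpow (a := y⁻¹) (b := r) (i := j)
        rwa [inv_inv] at this
      rw [this, hk]; group
    obtain ⟨i, hi⟩ : ∃ i : ℤ, y⁻¹ * r * y = gen M s ^ i := by
      rcases lt_or_gt_of_ne hj with hneg | hposj
      · obtain ⟨n, hn⟩ : ∃ n : ℕ, j = -(n : ℤ) := ⟨j.natAbs, by omega⟩
        apply h2 S M hM.ne_zero s t hst _ hq n (n : ℤ) (by omega) (by omega)
        rw [hn, zpow_neg, zpow_neg] at hpow
        have := inv_injective hpow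
        simpa using this
      · obtain ⟨n, hn⟩ : ∃ n : ℕ, j = (n : ℤ) := ⟨j.natAbs, by omega⟩
        apply h2 S M hM.ne_zero s t hst _ hq n (n : ℤ) (by omega) (by omega)
        rw [hn] at hpow
        simpa using hpow
    rw [Vtx.fix1 hs hy]
    refine ⟨i, ?_⟩
    rw [← hi]; group

theorem path (h2 : Stmt_DROOT) (hM : ETyp M) {r : Art M} (hr : Rfl (gen M) r) {j : ℤ}
    (hj : j ≠ 0) : ∀ (l : List (Vtx (gen M))) (v : Vtx (gen M)), r • v = v →
      (v :: l).IsChain Vtx.ad → Fx (r ^ j) (v :: l) → Fx r (v :: l) := by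
  intro l
  induction l with
  | nil =>
    intro v hv _ _ w hw
    simp only [List.mem_singleton] at hw
    subst hw; exact hv
  | cons u l ih =>
    intro v hv hc hf w hw
    rw [List.isChain_cons_cons] at hc
    rcases List.mem_cons.1 hw with rfl | hw
    · exact hv
    · exact ih u (step h2 hM hr hj hc.1 hv (hf u (by simp))) hc.2
        (fun x hx => hf x (List.mem_cons_of_mem _ hx)) w hw

theorem path' (h2 : Stmt_DROOT) (hM : ETyp M) {r : Art M} (hr : Rfl (gen M) r) {j : ℤ}
    (hj : j ≠ 0) {l : List (Vtx (gen M))} {v w : Vtx (gen M)} (hv : r • v = v)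
    (hw : Wk l v w) (hf : Fx (r ^ j) l) : Fx r l := by
  obtain ⟨a, b, c⟩ := hw
  cases l with
  | nil => simp at a
  | cons u l =>
    simp only [List.head?_cons, Option.some.injEq] at a
    subst a
    exact path h2 hM hr hj l u hv c hf

end F3

theorem stmt_F3 (h1 : Stmt_X1) (h2 : Stmt_DROOT) : Stmt_F3 := by
  intro S _ M hM r hr
  constructor
  · intro k hk w hw
    obtain ⟨v, hv1, hv⟩ := hr.exists_fix
    by_cases hvw : v = w
    · subst hvw; exact hv
    obtain ⟨n, hn⟩ : ∃ n : ℕ, k = (n : ℤ) ∨ k = -(n : ℤ) := ⟨k.natAbs, by omega⟩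
    have hn0 : 0 < n := by omega
    have hwn : (r ^ n) • w = w := by
      rcases hn with h | h
      · rw [h] at hw; simpa using hw
      · rw [h, zpow_neg, zpow_natCast] at hw
        have := congrArg (fun x => (r ^ n) • x) hw
        simpa using this.symm
    have hvn : ∀ n : ℕ, (r ^ n) • v = v := by
      intro n
      induction n with
      | zero => simp
      | succ n ih => rw [pow_succ, mul_smul, hv, ih]
    obtain ⟨K, hK, l, hl, hf⟩ := h1 S M hM (r ^ n) v w
      (by intro k hk; rw [← pow_mul]; exact hr.pow_ne_one (Nat.mul_pos hn0 hk)) hvw (hvn n) hwn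
    have hf' : Fx (r ^ ((n * K : ℕ) : ℤ)) l := by
      rw [zpow_natCast, pow_mul]; exact hf
    have := F3.path' h2 hM hr (j := ((n * K : ℕ) : ℤ)) (by
      have := Nat.mul_pos hn0 hK
      omega) hv hl hf'
    exact this w (List.mem_of_getLast? hl.2.1)
  · intro v w hv hw
    by_cases hvw : v = w
    · subst hvw
      exact ⟨[v], ⟨rfl, rfl, List.isChain_singleton _⟩, by
        intro x hx; simp only [List.mem_singleton] at hx; subst hx; exact hv⟩
    obtain ⟨K, hK, l, hl, hf⟩ := h1 S M hM r v w (fun k hk => hr.pow_ne_one hk) hvw hv hw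
    refine ⟨l, hl, F3.path' h2 hM hr (j := (K : ℤ)) (by omega) hv hl ?_⟩
    rw [zpow_natCast]; exact hf

end Pool.HE
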