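import Pool.Agent.Work.MP_7084a3_full.InterfaceH

set_option autoImplicit false

namespace Pool.HE

open Pool.HA

theorem stmt_F4 (h1 : Stmt_F3) : Stmt_F4 := by
  intro S _ M hM r hr k hk
  have A : ∀ r₂ : Art M, Rfl (gen M) r₂ → ∀ j : ℤ, r ^ k = r₂ ^ j → r = r₂ := by
    intro r₂ hr₂ j e
    obtain ⟨v, hv, hf⟩ := hr₂.exists_fix
    have hf' : (r ^ k) • v = v := by
      rw [e]
      have : r₂ ∈ MulAction.stabilizer (Art M) v := hf
      exact (MulAction.stabilizer (Art M) v).zpow_mem this j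
    have hrv := (h1 S M hM r hr).1 k hk v hf'
    exact hr.eq_of_fix1 hr₂ hv hrv hf
  refine ⟨A, ?_⟩
  intro y hy
  have h2 := hr.conj y
  have h3 : r ^ k = (y * r * y⁻¹) ^ k := by
    rw [conj_zpow, hy.eq]; group
  have h4 := A _ h2 k h3
  have : y * r = r * y := by
    conv_rhs => rw [h4]
    group
  exact this

end Pool.HE
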