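import Pool.Agent.Work.MP_7084a3_full.InterfaceH

set_option autoImplicit false

/-! # F5 (helper48): an element with a fixed vertex is a power of a reflection or has a single one -/

namespace Pool.HE

open Pool.HA

theorem f5_zpow {G V : Type} [Group G] [MulAction G V] {h : G} {w : V} {k : ℤ}
    (hw : (h ^ k) • w = w) : (h ^ k.natAbs) • w = w := by
  rcases Int.natAbs_eq k with e | e
  · rw [e, zpow_natCast] at hw
    exact hw
  · rw [e, zpow_neg, zpow_natCast] at hw
    rw [← hw, smul_smul, mul_inv_cancel, one_smul]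
    exact hw.symm

theorem stmt_F5 (h1 : Stmt_X1) (h2 : Stmt_TFE) (h3 : Stmt_F4) (h4 : Stmt_F6) : Stmt_F5 := by
  intro S _ M hM h v hh hv
  by_contra hcon
  push Not at hcon
  obtain ⟨hA, k, hk, w, hkw, hwv⟩ := hcon
  have hkw' := f5_zpow hkw
  set n := k.natAbs with hn
  have hn0 : 0 < n := Int.natAbs_pos.mpr hk
  have hinf := h2 S M hM.ne_zero h v hv hh
  have hfix : ∀ m : ℕ, (h ^ m) • v = v := by
    intro m
    induction m with
    | zero => simp
    | succ m ih => rw [pow_succ, mul_smul, hv, ih]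
  obtain ⟨K, hK, l, hl, hF⟩ := h1 S M hM (h ^ n) v w
    (fun j hj => by rw [← pow_mul]; exact hinf _ (Nat.mul_pos hn0 hj)) hwv.symm (hfix n) hkw'
  rw [← pow_mul] at hF
  set h' := h ^ (n * K) with hh'
  have h'1 : h' ≠ 1 := hinf _ (Nat.mul_pos hn0 hK)
  obtain ⟨q, hq1, hqf⟩ : ∃ q : Vtx (gen M), q.ty = 1 ∧ h' • q = q := by
    obtain ⟨e1, e2, e3⟩ := hl
    rcases l with _ | ⟨a, _ | ⟨b, l⟩⟩
    · simp at e1
    · simp only [List.head?_cons, Option.some.injEq, List.getLast?_singleton] at e1 e2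
      exact absurd (e2.symm.trans e1) hwv
    · rw [List.isChain_cons_cons] at e3
      have f1 := hF a (by simp)
      have f2 := hF b (by simp)
      rcases ad_12 e3.1 (ty_ne_zero_of_fix h'1 f1) (ty_ne_zero_of_fix h'1 f2) with e | e
      · exact ⟨a, e.1, f1⟩
      · exact ⟨b, e.2, f2⟩
  obtain ⟨r, hr, -, hst⟩ := stab1 hq1
  obtain ⟨i, hi⟩ := hst h' hqf
  have hi0 : i ≠ 0 := by
    rintro rfl
    exact h'1 (by simpa using hi)
  have hc : Commute h r := (h3 S M hM r hr i hi0).2 h (by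
    rw [← hi, hh']
    exact Commute.self_pow h _)
  obtain ⟨j, hj⟩ := h4 S M hM r h (n * K) i hr hc (Nat.mul_pos hn0 hK) (by rw [← hi])
  exact hA r hr j hj

end Pool.HE
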