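import Pool.Agent.Work.MP_7084a3_full.InterfaceC
import Pool.Agent.Work.MP_7084a3_h91.B.Pre35

set_option autoImplicit false

/-! # Block FINP (helper24) -/

namespace Pool.HE

open Pool.HA Pool.HA.H35

/-- FINP -/
theorem stmt_FINP (hB : Stmt_BFI) (hF : Stmt_FAITH) : Stmt_FINP := by
  intro S _ _ M ρ hM hρ r₁ r₂ v₁ v₂ Ψ h1 h2 hfin hv hs1 hs2
  have F := FB.of hB hρ
  have hmem : ∀ i : ℕ, ρ ((r₁ * r₂) ^ i) v₁ ∈ Ψ := by
    intro i
    induction i with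
    | zero => rw [pow_zero, one_app]; exact hv
    | succ i ih =>
      rw [pow_succ', mul_app, mul_app]
      exact hs1 _ (hs2 _ ih)
  have key : ∀ i j : ℕ, i < j → ρ ((r₁ * r₂) ^ i) v₁ = ρ ((r₁ * r₂) ^ j) v₁ →
      ∃ k : ℕ, 0 < k ∧ (r₁ * r₂) ^ k = 1 := by
    intro i j hij he
    obtain ⟨k, rfl⟩ := Nat.exists_eq_add_of_lt hij
    have hfix : ρ ((r₁ * r₂) ^ (k + 1)) v₁ = v₁ := by
      have h3 : ρ (((r₁ * r₂) ^ i)⁻¹) (ρ ((r₁ * r₂) ^ i) v₁) =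
          ρ (((r₁ * r₂) ^ i)⁻¹) (ρ ((r₁ * r₂) ^ (i + k + 1)) v₁) := by rw [he]
      rw [← mul_app, ← mul_app, inv_mul_cancel, one_app, add_assoc, pow_add,
        inv_mul_cancel_left] at h3
      exact h3.symm
    obtain ⟨x, hx⟩ : ∃ x, x = (r₁ * r₂) ^ (k + 1) := ⟨_, rfl⟩
    rw [← hx] at hfix
    have hfix' : ρ x⁻¹ v₁ = v₁ := by
      conv_lhs => rw [← hfix]
      rw [← mul_app, inv_mul_cancel, one_app]
    have hq1 : r₁ * r₁ = 1 := FB.rf_sq h1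
    have hq2 : r₂ * r₂ = 1 := FB.rf_sq h2
    have hcomm : x * r₁ * x⁻¹ * r₁ = 1 := by
      apply hF S M ρ hM hρ
      refine LinearMap.ext fun w => ?_
      have e1 : ρ r₁ (ρ x⁻¹ (ρ r₁ w)) = ρ x⁻¹ w := by
        have e2 : bf M (ρ x⁻¹ w) v₁ = bf M w v₁ := by
          conv_lhs => rw [← hfix']
          exact F.inv _ _ _
        rw [F.rfx r₁ v₁ h1 w, map_sub, map_smul, hfix', F.rfx r₁ v₁ h1, F.sub_left, F.smul_left,
          e2, F.rf_nrm h1, mul_one]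
        module
      rw [mul_app, mul_app, mul_app, e1, ← mul_app, mul_inv_cancel, one_app, Module.End.one_apply]
    have hi1 : r₁⁻¹ = r₁ := inv_eq_of_mul_eq_one_left hq1
    have hi2 : r₂⁻¹ = r₂ := inv_eq_of_mul_eq_one_left hq2
    have hc : x * r₁ = r₁ * x := by
      have h4 : x * r₁ * x⁻¹ = r₁ := by
        rw [← hi1]
        exact eq_inv_of_mul_eq_one_left (by rw [hi1]; exact hcomm)
      rw [mul_inv_eq_iff_eq_mul] at h4
      exact h4
    have hd : r₁ * x * r₁⁻¹ = x⁻¹ := by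
      rw [hx, ← conj_pow, ← inv_pow]
      congr 1
      rw [hi1, mul_inv_rev, hi1, hi2, ← mul_assoc, hq1, one_mul]
    refine ⟨(k + 1) * 2, by omega, ?_⟩
    rw [pow_mul, ← hx, pow_two]
    rw [← hc, mul_inv_cancel_right] at hd
    exact eq_inv_iff_mul_eq_one.mp hd
  obtain ⟨i, -, j, -, hij, he⟩ := Set.infinite_univ.exists_ne_map_eq_of_mapsTo
    (f := fun i : ℕ => ρ ((r₁ * r₂) ^ i) v₁) (t := Ψ) (fun i _ => hmem i) hfin
  rcases lt_or_gt_of_ne hij with h | h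
  · exact key i j h he
  · exact key j i h he.symm

end Pool.HE
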