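import Pool.Agent.Work.MP_7084a3_full.InterfaceE

set_option autoImplicit false

namespace Pool.HE

open Pool.HA

namespace FLATaux

/-- a piece of a loop is a reduced link path -/
theorem piece {V : Type} {adj : V → V → Prop} {v : V} {K : ℕ} {s : ℕ → Stp V}
    (h : TLoop adj v K s) (j n : ℕ) (hn : 0 < n) :
    ∃ ω : List (Stp V), ω ≠ [] ∧ LPath adj v ω ∧ (∃ t ∈ ω.head?, t.a = (s j).a) ∧
      (∃ t ∈ ω.getLast?, t.b = (s (j + n)).a) ∧
      ∀ (ang : V → V → V → ℝ), wts ang v ω = ∑ i ∈ Finset.range n, ang v (s (j + i)).a (s (j + i)).b := by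
  refine ⟨(List.range n).map (fun i => s (j + i)), ?_, ⟨?_, ?_⟩, ?_, ?_, ?_⟩
  · intro he
    have := congrArg List.length he
    simp at this
    omega
  · intro x hx
    rw [List.mem_map] at hx
    obtain ⟨i, -, rfl⟩ := hx
    exact h.stp _
  · rw [List.isChain_iff_getElem]
    intro i hi
    simp only [List.getElem_map, List.getElem_range]
    exact h.cmp (j + i)
  · obtain ⟨m, rfl⟩ : ∃ m, n = m + 1 := ⟨n - 1, by omega⟩
    refine ⟨s j, ?_, rfl⟩
    rw [List.range_succ_eq_map]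
    simp
  · obtain ⟨m, rfl⟩ : ∃ m, n = m + 1 := ⟨n - 1, by omega⟩
    refine ⟨s (j + m), ?_, ?_⟩
    · rw [List.range_succ]
      simp
    · exact (h.cmp (j + m)).1
  · intro ang
    unfold wts
    rw [List.map_map, Finset.sum_range, ← List.sum_ofFn]
    congr 1
    rw [List.ofFn_eq_map]
    refine List.ext_getElem (by simp) ?_
    intro i h1 h2
    simp only [List.getElem_map, List.getElem_range, Function.comp, List.getElem_finRange]
    unfold wt
    rw [if_pos (h.stp _).1]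
    rfl

/-- the weight of a step at a vertex of type 1 or 2 -/
theorem wstep {S : Type} [DecidableEq S] {M : CoxeterMatrix S} {v : Vtx (gen M)}
    (hv : v.ty ≠ 0) {t : Stp (Vtx (gen M))} (ht : TStp Vtx.ad v t) :
    ang M 0 v t.a t.b = if v.ty = 1 then 1 / 2 else 1 / (2 * (lb M v.J : ℝ)) := by
  obtain ⟨-, h1, h2, h3⟩ := ht
  unfold ang
  rw [if_neg hv]
  split_ifs with h
  · rfl
  · have hv2 : v.ty = 2 := by
      have := v.ty_le
      omega
    have ha : t.a.J ⊆ v.J := by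
      have h4 := Vtx.ad_ty_ne h1
      have h5 := t.a.ty_le
      exact (Vtx.ad_ss (Vtx.ad_symm h1) (by omega)).1
    have hb : t.b.J ⊆ v.J := by
      have h4 := Vtx.ad_ty_ne h2
      have h5 := t.b.ty_le
      exact (Vtx.ad_ss (Vtx.ad_symm h2) (by omega)).1
    rw [Finset.union_eq_left.2 ha, Finset.union_eq_left.2 hb]

end FLATaux

open FLATaux

theorem stmt_FLAT (hN : Stmt_NPC0) (hLE : Stmt_LE) (hLNK : Stmt_LNK) : Stmt_FLAT := by
  intro S _ _ M hM v K s hv hs hsum
  obtain ⟨hNP, -⟩ := hN S M hM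
  obtain ⟨c, hc, hL⟩ := hLE S M hM
  have hK0 : 0 < K := hs.pos
  have hKfl : K = fl M v := by
    rcases hL v K s hs with h | h
    · exact h.1
    · have : 0 < c * (K : ℝ) := by positivity
      linarith
  -- the weight of a step
  obtain ⟨w, hw, hwK⟩ : ∃ w : ℝ, (∀ t : Stp (Vtx (gen M)), TStp Vtx.ad v t →
      ang M 0 v t.a t.b = w) ∧ (K : ℝ) * w = 2 := by
    refine ⟨if v.ty = 1 then 1 / 2 else 1 / (2 * (lb M v.J : ℝ)), fun t ht => wstep hv ht, ?_⟩
    have : ∀ j ∈ Finset.range K, ang M 0 v (s j).a (s j).b =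
        if v.ty = 1 then 1 / 2 else 1 / (2 * (lb M v.J : ℝ)) := fun j _ => wstep hv (hs.stp j)
    rw [Finset.sum_congr rfl this, Finset.sum_const, Finset.card_range, nsmul_eq_mul] at hsum
    exact hsum
  have hw0 : 0 < w := by
    have hK' : (0 : ℝ) < K := by exact_mod_cast hK0
    by_contra hcon
    push Not at hcon
    have := mul_nonpos_of_nonneg_of_nonpos hK'.le hcon
    linarith
  have hpw : ∀ j n, ∑ i ∈ Finset.range n, ang M 0 v (s (j + i)).a (s (j + i)).b = n * w := by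
    intro j n
    rw [Finset.sum_congr rfl fun i _ => hw _ (hs.stp (j + i)), Finset.sum_const,
      Finset.card_range, nsmul_eq_mul]
  -- `K` is even
  have hKe : K = 2 * (K / 2) := by
    rw [hKfl]
    unfold fl
    rw [if_neg hv]
    split_ifs with h
    · rfl
    · omega
  have hKh : 0 < K / 2 := by omega
  have hhalf : ((K / 2 : ℕ) : ℝ) * w = 1 := by
    have : (K : ℝ) = 2 * ((K / 2 : ℕ) : ℝ) := by exact_mod_cast hKe
    rw [this] at hwK
    linarith
  -- types
  have hty : ∀ j, (s (j + 1)).a.ty ≠ (s j).a.ty ∧ (s j).a.ty ≠ v.ty := by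
    intro j
    obtain ⟨-, h1, h2, h3⟩ := hs.stp j
    have e : (s j).b = (s (j + 1)).a := (hs.cmp j).1
    rw [← e]
    exact ⟨(Vtx.ad_ty_ne h3).symm, (Vtx.ad_ty_ne h1).symm⟩
  refine ⟨hKfl, ?_, ?_, ?_, fun j => (hty j).1⟩
  · intro j
    obtain ⟨ω, hne, hp, ⟨t, ht, hta⟩, ⟨u, hu, hub⟩, hwt⟩ := piece hs j (K / 2) hKh
    have h := (hLNK _ Vtx.ad (ang M 0) hNP v ω hne hp t ht u hu).2 (by rw [hwt, hpw, hhalf])
    rw [hta, hub] at h
    exact h
  · intro i j hij hjK
    obtain ⟨ω, hne, hp, ⟨t, ht, hta⟩, ⟨u, hu, hub⟩, hwt⟩ := piece hs i (j - i) (by omega)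
    have h := (hLNK _ Vtx.ad (ang M 0) hNP v ω hne hp t ht u hu).1 (by
      rw [hwt, hpw, ← hwK]
      apply mul_lt_mul_of_pos_right _ hw0
      exact_mod_cast (by omega : j - i < K))
    rw [hta, hub, Nat.add_sub_cancel' hij.le] at h
    exact h
  · intro j
    have h1 := hty j
    have h2 := hty (j + 1)
    have h3 := hty (j + 2)
    have a1 := (s j).a.ty_le
    have a2 := (s (j + 1)).a.ty_le
    have a3 := (s (j + 2)).a.ty_le
    have a4 := v.ty_le
    have e : j + 1 + 1 = j + 2 := rfl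
    rw [e] at h2
    omega

end Pool.HE
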