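import Pool.Agent.Work.MP_7084a3_full.B.GBS
import Pool.Agent.Work.MP_7084a3_h91.B.FCAT
import Pool.Agent.Work.MP_7084a3_h91.B.FCW
import Pool.Agent.Work.MP_7084a3_h91.B.FROT
import Pool.Agent.Work.MP_7084a3_h91.B.FTRI
import Pool.Agent.Work.MP_7084a3_h91.B.FBR

set_option autoImplicit false

/-! # Gauss–Bonnet for closed walks, and for lists of loops as loop systems (helper60) -/

namespace Pool.HE

open Pool.HA

/-! ## Loop systems from lists -/

section LS
variable {V A : Type} [AddCommGroup A] {adj : V → V → Prop} {T : V → V → V → A}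
  {la lb : ℕ → ℕ} {Y : ℕ → Set V} {P : V → Stp V → Prop}

/-- value of a chain as sums over positions -/
theorem sec_eq {B : Type} [AddCommGroup B] (F : Acc adj T B) (v : V) (ω : List (Stp V))
    (d : Stp V) :
    F.sec la lb v ω = ∑ j ∈ Finset.range ω.length, F.val v (ω.getD j d) +
      ∑ j ∈ Finset.range (ω.length - 1), F.jn la lb v (ω.getD j d) (ω.getD (j + 1) d) := by
  induction ω with
  | nil => simp [Acc.sec]
  | cons s ω ih =>
    rcases ω with _ | ⟨t, ω⟩
    · simp [Acc.sec]
    · rw [Acc.sec, ih]
      have h1 : (s :: t :: ω).length = (t :: ω).length + 1 := rfl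
      have h2 : (s :: t :: ω).length - 1 = ((t :: ω).length - 1) + 1 := by simp
      rw [h1, Finset.sum_range_succ', show (t :: ω).length + 1 - 1 = ((t :: ω).length - 1) + 1 by simp,
        Finset.sum_range_succ' _ ((t :: ω).length - 1)]
      simp only [List.getD_cons_succ, List.getD_cons_zero]
      abel

/-- value of a closed chain as a sum over positions -/
theorem csec_eq {B : Type} [AddCommGroup B] (F : Acc adj T B) (v : V) (ω : List (Stp V))
    (d : Stp V) (h : ω ≠ []) :
    F.csec la lb v ω = ∑ j ∈ Finset.range ω.length, (F.val v (ω.getD (j % ω.length) d) +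
      F.jn la lb v (ω.getD (j % ω.length) d) (ω.getD ((j + 1) % ω.length) d)) := by
  have hpos : 0 < ω.length := List.length_pos_iff.2 h
  obtain ⟨m, hm⟩ : ∃ m, ω.length = m + 1 := ⟨ω.length - 1, by omega⟩
  rw [Acc.csec, sec_eq F v ω d, Finset.sum_add_distrib]
  have e1 : ∑ j ∈ Finset.range ω.length, F.val v (ω.getD (j % ω.length) d) =
      ∑ j ∈ Finset.range ω.length, F.val v (ω.getD j d) := by
    refine Finset.sum_congr rfl fun j hj => ?_
    rw [Nat.mod_eq_of_lt (Finset.mem_range.1 hj)]
  have e2 : ∑ j ∈ Finset.range ω.length,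
      F.jn la lb v (ω.getD (j % ω.length) d) (ω.getD ((j + 1) % ω.length) d) =
      ∑ j ∈ Finset.range (ω.length - 1), F.jn la lb v (ω.getD j d) (ω.getD (j + 1) d) +
        F.jn la lb v (ω.getD m d) (ω.getD 0 d) := by
    rw [hm, Finset.sum_range_succ]
    congr 1
    · rw [Nat.add_sub_cancel]
      refine Finset.sum_congr rfl fun j hj => ?_
      have := Finset.mem_range.1 hj
      rw [Nat.mod_eq_of_lt (by omega), Nat.mod_eq_of_lt (by omega)]
    · rw [Nat.mod_eq_of_lt (by omega), Nat.mod_self]
  have e3 : F.jo la lb v ω.getLast? ω.head? = F.jn la lb v (ω.getD m d) (ω.getD 0 d) := by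
    have h1 : ω.getLast? = some (ω.getD m d) := by
      rw [List.getLast?_eq_getElem?, hm, Nat.add_sub_cancel, List.getD_eq_getElem?_getD,
        List.getElem?_eq_getElem (by omega)]
      simp
    have h2 : ω.head? = some (ω.getD 0 d) := by
      rw [List.head?_eq_getElem?, List.getD_eq_getElem?_getD, List.getElem?_eq_getElem (by omega)]
      simp
    rw [h1, h2]
    rfl
  rw [e1, e2, e3]
  abel

/-- the loop system of a list of closed sectors -/
def lsOf (d : Stp V) (L : List (V × List (Stp V))) : LSys V where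
  ι := Fin L.length
  fin := inferInstance
  v i := (L.get i).1
  K i := (L.get i).2.length
  s i j := (L.get i).2.getD (j % (L.get i).2.length) d

theorem lsOf_ok (d : Stp V) (L : List (V × List (Stp V)))
    (h : ∀ E ∈ L, SecY adj la lb Y P E.1 E.2 ∧
      ∀ s ∈ E.2.getLast?, ∀ t ∈ E.2.head?, CmpY la lb Y s t) :
    LSOK adj la lb Y P (lsOf d L) := by
  have hg : ∀ (ω : List (Stp V)) (j : ℕ) (hj : j < ω.length), ω.getD j d = ω[j] := by
    intro ω j hj
    rw [List.getD_eq_getElem?_getD, List.getElem?_eq_getElem hj]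
    simp
  refine ⟨?_, ?_, ?_, ?_⟩
  · intro i
    exact List.length_pos_iff.2 (h _ (List.get_mem L i)).1.1
  · intro i j
    simp only [lsOf, Nat.add_mod_right]
  · intro i j
    have hs := (h _ (List.get_mem L i)).1
    have hpos : 0 < (L.get i).2.length := List.length_pos_iff.2 hs.1
    simp only [lsOf]
    rw [hg _ _ (Nat.mod_lt _ hpos)]
    exact hs.2.2 _ (List.getElem_mem _)
  · intro i j
    obtain ⟨hs, hc⟩ := h _ (List.get_mem L i)
    have hpos : 0 < (L.get i).2.length := List.length_pos_iff.2 hs.1
    simp only [lsOf]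
    rw [hg _ _ (Nat.mod_lt _ hpos), hg _ _ (Nat.mod_lt _ hpos)]
    have hj := Nat.mod_lt j hpos
    by_cases h1 : j % (L.get i).2.length + 1 < (L.get i).2.length
    · have h2 : (j + 1) % (L.get i).2.length = j % (L.get i).2.length + 1 := by
        rw [Nat.add_mod, Nat.mod_eq_of_lt (show 1 < (L.get i).2.length by omega),
          Nat.mod_eq_of_lt h1]
      have h3 := List.isChain_iff_getElem.1 hs.2.1 (j % (L.get i).2.length) h1
      simp only [h2]
      exact h3
    · have h2 : (j + 1) % (L.get i).2.length = 0 := by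
        have h3 : j % (L.get i).2.length + 1 = (L.get i).2.length := by omega
        rw [← Nat.mod_add_mod, h3, Nat.mod_self]
      simp only [h2]
      apply hc
      · rw [Option.mem_def, List.getLast?_eq_getElem?,
          show (L.get i).2.length - 1 = j % (L.get i).2.length by omega,
          List.getElem?_eq_getElem hj]
      · rw [Option.mem_def, List.head?_eq_getElem?, List.getElem?_eq_getElem hpos]

theorem lsOf_tot {B : Type} [AddCommGroup B] (F : Acc adj T B) (d : Stp V)
    (L : List (V × List (Stp V))) (h : ∀ E ∈ L, E.2 ≠ []) :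
    (lsOf d L).tot la lb F = (L.map (fun E => F.csec la lb E.1 E.2)).sum := by
  have h1 : (lsOf d L).tot la lb F = ∑ i : Fin L.length, F.csec la lb (L.get i).1 (L.get i).2 := by
    unfold LSys.tot
    refine Finset.sum_congr rfl fun i _ => ?_
    rw [csec_eq F _ _ d (h _ (List.get_mem L i))]
    rfl
  rw [h1, ← List.sum_ofFn]
  congr 1
  apply List.ext_get
  · simp
  · intro n h1 h2
    simp

end LS

/-! ## The gap steps -/

section gp
variable {V : Type}

/-- the first vertex of a list of positions -/
def hdv (y : List (V × ℕ)) (f : V) : V := (y.head?.map Prod.fst).getD f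

/-- the last vertex -/
def ltv (x : List (V × ℕ)) (p : V) : V := (x.getLast?.map Prod.fst).getD p

theorem gapsGo_length (f : V) (P : List (V × ℕ)) :
    ∀ p, (gapsGo f p P).length = P.length := by
  induction P with
  | nil => intro p; simp [gapsGo]
  | cons q P ih =>
    intro p
    rcases P with _ | ⟨r, P⟩
    · simp [gapsGo]
    · rw [gapsGo, List.length_cons, ih]; rfl

theorem gapsGo_split (f : V) (x : List (V × ℕ)) :
    ∀ (p : V) (q : V × ℕ) (y : List (V × ℕ)), gapsGo f p (x ++ q :: y) =
      gapsGo q.1 p x ++ (q.1, ⟨hdv y f, ltv x p, q.2⟩) :: gapsGo f q.1 y := by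
  induction x with
  | nil =>
    intro p q y
    rcases y with _ | ⟨r, y⟩
    · simp [gapsGo, hdv, ltv]
    · simp [gapsGo, hdv, ltv]
  | cons a x ih =>
    intro p q y
    rcases x with _ | ⟨b, x⟩
    · have := ih a.1 q y
      simp only [List.nil_append] at this
      rw [List.cons_append, List.nil_append]
      show (a.1, (⟨q.1, p, a.2⟩ : Stp V)) :: gapsGo f a.1 (q :: y) = _
      rw [this]
      simp [gapsGo, ltv]
    · rw [List.cons_append, List.cons_append, gapsGo]
      have := ih a.1 q y
      rw [List.cons_append] at this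
      rw [this, gapsGo, List.cons_append]
      have h1 : ltv (b :: x) a.1 = ltv (a :: b :: x) p := by
        unfold ltv
        rw [List.getLast?_cons_cons]
        obtain ⟨z, hz⟩ := getLast?_some (show (b :: x) ≠ [] by simp)
        rw [hz]; simp
      rw [h1]

theorem gaps_eq {P : List (V × ℕ)} (h : P ≠ []) :
    ∃ f p, P.head?.map Prod.fst = some f ∧ P.getLast?.map Prod.fst = some p ∧
      gaps P = gapsGo f p P := by
  obtain ⟨q, P', rfl⟩ := List.exists_cons_of_ne_nil h
  obtain ⟨r, hr⟩ := getLast?_some h
  refine ⟨q.1, r.1, rfl, by rw [hr]; rfl, ?_⟩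
  unfold gaps
  rw [hr]
  simp

theorem gaps_length (P : List (V × ℕ)) : (gaps P).length = P.length := by
  by_cases h : P = []
  · subst h; simp [gaps]
  · obtain ⟨f, p, -, -, e⟩ := gaps_eq h
    rw [e, gapsGo_length]

/-- a split of the list of gaps comes from a split of the list of positions -/
theorem gaps_split {P : List (V × ℕ)} {x : List (V × Stp V)} {e : V × Stp V}
    {y : List (V × Stp V)} (h : gaps P = x ++ e :: y) :
    ∃ x' q y', P = x' ++ q :: y' ∧ x'.length = x.length ∧ e.1 = q.1 ∧ e.2.k = q.2 ∧
      (∀ r ∈ (y' ++ x').head?, e.2.a = r.1) ∧ (∀ r ∈ (y' ++ x').getLast?, e.2.b = r.1) ∧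
      x'.map Prod.fst = x.map Prod.fst ∧ y'.map Prod.fst = y.map Prod.fst := by
  have hlen := gaps_length P
  rw [h] at hlen
  simp only [List.length_append, List.length_cons] at hlen
  have hlt : x.length < P.length := by omega
  have hP : P ≠ [] := by rintro rfl; simp at hlt
  obtain ⟨f, p, hf, hp, e1⟩ := gaps_eq hP
  have hsp : P = P.take x.length ++ P[x.length] :: P.drop (x.length + 1) := by
    rw [List.getElem_cons_drop, List.take_append_drop]
  refine ⟨P.take x.length, P[x.length], P.drop (x.length + 1), hsp, ?_, ?_⟩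
  · simp; omega
  set x' := P.take x.length with hx'
  set q := P[x.length] with hq
  set y' := P.drop (x.length + 1) with hy'
  have hfst : ∀ (l : List (V × ℕ)) (f p : V), (gapsGo f p l).map Prod.fst = l.map Prod.fst := by
    intro l
    induction l with
    | nil => intro f p; simp [gapsGo]
    | cons a l ih =>
      intro f p
      rcases l with _ | ⟨b, l⟩
      · simp [gapsGo]
      · rw [gapsGo, List.map_cons, ih]; rfl
  have e2 : gaps P = gapsGo q.1 p x' ++ (q.1, ⟨hdv y' f, ltv x' p, q.2⟩) :: gapsGo f q.1 y' := by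
    rw [e1, hsp, gapsGo_split]
  rw [h] at e2
  have hl : x.length = (gapsGo q.1 p x').length := by
    rw [gapsGo_length, hx', List.length_take]; omega
  obtain ⟨i1, i2⟩ := List.append_inj e2 hl
  simp only [List.cons.injEq] at i2
  obtain ⟨i2, i3⟩ := i2
  refine ⟨by rw [i2], by rw [i2], ?_, ?_, ?_, ?_⟩
  · intro r hr
    rw [i2]
    show hdv y' f = r.1
    unfold hdv
    rcases hy0 : y' with _ | ⟨z, w⟩
    · rw [hy0, List.nil_append] at hr
      rw [hsp] at hf
      rcases hx0 : x' with _ | ⟨z, w⟩
      · rw [hx0] at hr; simp at hr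
      · rw [hx0] at hr hf
        simp only [List.head?_cons, Option.mem_def, Option.some.injEq] at hr
        simp only [List.cons_append, List.head?_cons, Option.map_some, Option.some.injEq] at hf
        rw [← hf, hr]
        simp
    · rw [hy0] at hr
      simp only [List.cons_append, List.head?_cons, Option.mem_def, Option.some.injEq] at hr
      rw [← hr]; simp
  · intro r hr
    rw [i2]
    show ltv x' p = r.1
    unfold ltv
    by_cases hx0 : x' = []
    · rw [hx0, List.append_nil] at hr
      rw [hsp, hx0, List.nil_append] at hp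
      have hy0 : y' ≠ [] := by rintro h0; rw [h0] at hr; simp at hr
      rw [getLast?_cons_ne _ hy0, Option.mem_def.1 hr] at hp
      simp only [Option.map_some, Option.some.injEq] at hp
      rw [hx0, hp]
      simp
    · rw [getLast?_append_ne _ hx0] at hr
      rw [Option.mem_def.1 hr]
      simp
  · rw [i1, hfst]
  · rw [i3, hfst]

end gp

/-! ## The theorem -/

theorem stmt_GBW : Stmt_GBW := by
  intro V A _ adj T hT la lb Y P D n hP hk hch hlast hM hY hsph
  have hsub : (gaps P).map Prod.fst = P.map Prod.fst := by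
    obtain ⟨f, p, -, -, e1⟩ := gaps_eq hP
    obtain ⟨⟨v, s⟩, l, hl⟩ : ∃ e l, gaps P = e :: l := by
      apply List.exists_cons_of_ne_nil
      intro h0
      have := gaps_length P
      rw [h0] at this
      exact hP (List.length_eq_zero_iff.1 this.symm)
    obtain ⟨x', q, y', h1, h2, h3, h4, -, -, h5, h6⟩ := gaps_split (x := []) (by rw [hl]; rfl)
    rw [hl, h1]
    simp only [List.length_nil, List.length_eq_zero_iff] at h2
    subst h2
    have h3' : v = q.1 := h3
    simp [h3', h6]
  have hcw : CW adj (P.map Prod.fst) := stmt_FCW V A adj T hT _ _ _ hM.1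
  set Q : List (V × List (Stp V)) := (gaps P).map (fun q => (q.1, [q.2])) with hQ
  have hQ1 : Q.map Prod.fst = P.map Prod.fst := by
    rw [hQ, List.map_map, ← hsub]
    rfl
  have hQne : Q ≠ [] := by
    intro h0
    have := congrArg List.length hQ1
    rw [h0] at this
    simp only [List.map_nil, List.length_nil, List.length_map] at this
    exact hP (List.length_eq_zero_iff.1 this.symm)
  -- splits of `Q`
  have hsplit : ∀ x E y, Q = x ++ E :: y → ∃ (x' : List (V × ℕ)) (q : V × ℕ) (y' : List (V × ℕ))
      (s : Stp V), P = x' ++ q :: y' ∧ E = (q.1, [s]) ∧ s.k = q.2 ∧ (q.1, s) ∈ gaps P ∧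
      (∀ r ∈ (y' ++ x').head?, s.a = r.1) ∧ (∀ r ∈ (y' ++ x').getLast?, s.b = r.1) ∧
      x'.map Prod.fst = x.map Prod.fst ∧ y'.map Prod.fst = y.map Prod.fst := by
    intro x E y h
    obtain ⟨x1, l1, h1, h2, h3⟩ := List.map_eq_append_iff.1 h
    obtain ⟨e, y1, h4, h5, h6⟩ := List.map_eq_cons_iff.1 h3
    subst h4
    obtain ⟨x', q, y', g1, g2, g3, g4, g5, g6, g7, g8⟩ := gaps_split h1
    refine ⟨x', q, y', e.2, g1, by rw [← h5, g3], g4, ?_, g5, g6, ?_, ?_⟩
    · rw [h1, ← g3]; simp
    · rw [g7, ← h2, List.map_map]; rfl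
    · rw [g8, ← h6, List.map_map]; rfl
  have hne1 : ∀ x' q y', P = x' ++ q :: y' → y' ++ x' ≠ [] := by
    intro x' q y' h h0
    obtain ⟨h1, h2⟩ := List.append_eq_nil_iff.1 h0
    subst h1 h2
    rw [h] at hcw
    obtain ⟨r, hr, h3⟩ := hcw [] q.1 [] rfl
    simp at hr
  have hSt : StY adj la lb Y (fun v s => (v, s) ∈ gaps P) Q := by
    refine ⟨?_, ?_⟩
    · intro E hE
      obtain ⟨x, y, h⟩ := List.append_of_mem hE
      obtain ⟨x', q, y', s, h1, h2, h3, h4, -⟩ := hsplit x E y h
      subst h2
      refine ⟨by simp, by simp, ?_⟩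
      intro t ht
      simp only [List.mem_singleton] at ht
      subst ht
      exact Or.inr ⟨by rw [h3]; exact hk q (by rw [h1]; simp), h4⟩
    · intro x E y h
      obtain ⟨x', q, y', s, h1, h2, h3, h4, h5, h6, h7, h8⟩ := hsplit x E y h
      have hne2 := hne1 _ _ _ h1
      have hne3 : y ++ x ≠ [] := by
        intro h0
        obtain ⟨e1, e2⟩ := List.append_eq_nil_iff.1 h0
        rw [e1] at h8; rw [e2] at h7
        simp only [List.map_nil, List.map_eq_nil_iff] at h7 h8
        exact hne2 (by rw [h7, h8]; rfl)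
      obtain ⟨E', l, hE'⟩ := List.exists_cons_of_ne_nil hne3
      refine ⟨E', by rw [hE']; simp, ?_⟩
      -- the split at `E'`
      have key : ∃ (x2' : List (V × ℕ)) (q2 : V × ℕ) (y2' : List (V × ℕ)) (s2 : Stp V),
          P = x2' ++ q2 :: y2' ∧ E' = (q2.1, [s2]) ∧ s2.k = q2.2 ∧
          s2.b = q.1 ∧ (∀ r ∈ (y' ++ x').head?, r.1 = q2.1) ∧ la q.2 = lb q2.2 := by
        rcases y with _ | ⟨y0, y⟩
        · -- wrap around
          simp only [List.map_nil, List.map_eq_nil_iff] at h8
          subst h8
          simp only [List.nil_append] at hE' hne2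
          subst hE'
          obtain ⟨x2', q2, y2', s2, g1, g2, g3, g4, g5, g6, g7, g8⟩ :=
            hsplit [] E' (l ++ [E]) (by rw [h]; simp)
          have hx2 : x2' = [] := by simpa using g7
          subst hx2
          rw [h2] at g8
          refine ⟨[], q2, y2', s2, g1, g2, g3, ?_, ?_, ?_⟩
          · -- last of y2' is q
            have : P.getLast? = some q := by rw [h1]; simp
            rw [g1, List.nil_append] at this
            have hy2 : y2' ≠ [] := by
              rintro rfl
              simp at g8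
            rw [getLast?_cons_ne _ hy2] at this
            exact g6 q (by simpa using this)
          · intro r hr
            have : P.head? = some r := by
              rw [h1, head?_append_ne _ hne2]; simpa using hr
            rw [g1] at this
            simp at this
            rw [this]
          · exact hlast q (by rw [h1]; simp) q2 (by rw [g1]; simp)
        · simp only [List.cons_append, List.cons.injEq] at hE'
          obtain ⟨rfl, -⟩ := hE'
          obtain ⟨x2', q2, y2', s2, g1, g2, g3, g4, g5, g6, g7, g8⟩ :=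
            hsplit (x ++ [E]) y0 y (by rw [h]; simp)
          have hx2 : x2' = x' ++ [q] := by
            have e1 : x2'.length = (x' ++ [q]).length := by
              have := congrArg List.length g7
              have h9 := congrArg List.length h7
              simp at this h9 ⊢
              omega
            have e2 : x2' ++ q2 :: y2' = (x' ++ [q]) ++ y' := by rw [← g1, h1]; simp
            exact (List.append_inj e2 e1).1
          have hy2 : y' = q2 :: y2' := by
            rw [hx2, h1] at g1
            simpa using g1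
          refine ⟨x2', q2, y2', s2, g1, g2, g3, ?_, ?_, ?_⟩
          · apply g6 q
            rw [hx2, ← List.append_assoc, getLast?_append_ne _ (by simp)]
            simp
          · intro r hr
            rw [hy2] at hr
            simp at hr
            rw [hr]
          · have h9 := hch
            rw [h1, hy2] at h9
            have h10 := (List.isChain_append.1 h9).2.1
            rw [List.isChain_cons_cons] at h10
            exact h10.1
      obtain ⟨x2', q2, y2', s2, g1, g2, g3, g4, g5, g6⟩ := key
      rw [h2, g2]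
      obtain ⟨r, l', hr⟩ := List.exists_cons_of_ne_nil hne2
      have hr1 := g5 r (by rw [hr]; simp)
      refine ⟨?_, ?_⟩
      · obtain ⟨r', hr', hadj⟩ := hcw (x'.map Prod.fst) q.1 (y'.map Prod.fst) (by rw [h1]; simp)
        rw [← List.map_append, hr] at hr'
        simp only [List.map_cons, List.head?_cons, Option.mem_def, Option.some.injEq] at hr'
        show adj q.1 q2.1
        rw [← hr1, hr']
        exact hadj
      · intro s' hs' t ht
        simp only [List.head?_cons, Option.mem_def, Option.some.injEq] at hs'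
        simp only [List.getLast?_singleton, Option.mem_def, Option.some.injEq] at ht
        subst hs' ht
        refine ⟨?_, g4, ?_⟩
        · rw [h5 r (by rw [hr]; simp), hr1]
        · have e1 : s.k ≠ 0 := by rw [h3]; exact hk q (by rw [h1]; simp)
          have e2 : s2.k ≠ 0 := by rw [g3]; exact hk q2 (by rw [g1]; simp)
          rw [lsd, rsd, if_neg e1, if_neg e2, h3, g3, g6]
  have hI1 : Inv1 adj T la Y Q D n := by
    intro x E y h s hs c δ hd hEc hca n' hn'
    obtain ⟨x', q, y', s', h1, h2, h3, h4, h5, h6, h7, h8⟩ := hsplit x E y h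
    subst h2
    simp only [List.head?_cons, Option.mem_def, Option.some.injEq] at hs
    subst hs
    have e1 : s'.k ≠ 0 := by rw [h3]; exact hk q (by rw [h1]; simp)
    rcases hd with ⟨h0, -⟩ | ⟨-, hc, rfl⟩
    · exact absurd h0 e1
    · obtain ⟨r, l', hr⟩ := List.exists_cons_of_ne_nil (hne1 _ _ _ h1)
      have e2 : s'.a = r.1 := h5 r (by rw [hr]; simp)
      rw [add_zero]
      rw [h3] at hc
      rw [e2] at hca hn'
      refine hY x' q y' h1 r (by rw [hr]; simp) c hc hEc hca n' ?_
      rw [h7, h8]
      exact hn'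
  have hI2 : Inv2 adj T la Y Q D n := by
    intro x E y E' z h s hs s' hs' ha ha' c δ δ' hd hd' hpos
    exfalso
    obtain ⟨x', q, y', s1, h1, h2, h3, h4, h5, h6, h7, h8⟩ := hsplit x E _ h
    obtain ⟨x2', q2, y2', s2, g1, g2, g3, g4, g5, g6, g7, g8⟩ :=
      hsplit (x ++ E :: y) E' z (by rw [h]; simp)
    subst h2 g2
    simp only [List.head?_cons, Option.mem_def, Option.some.injEq] at hs hs'
    subst hs hs'
    have e1 : s1.k ≠ 0 := by rw [h3]; exact hk q (by rw [h1]; simp)
    have e2 : s2.k ≠ 0 := by rw [g3]; exact hk q2 (by rw [g1]; simp)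
    rcases hd with ⟨h0, -⟩ | ⟨-, -, rfl⟩
    · exact e1 h0
    · rcases hd' with ⟨h0, -⟩ | ⟨-, -, rfl⟩
      · exact e2 h0
      · omega
  obtain ⟨L, l1, l2, l3⟩ := gbs_main (Y := Y) (la := la) (lb := lb) (P := fun v s => (v, s) ∈ gaps P)
    (Pool.HA.stmt_FTRI (Pool.HA.stmt_FROT Pool.HA.stmt_FCAT))
    (Pool.HA.stmt_FBR (Pool.HA.stmt_FROT Pool.HA.stmt_FCAT) Pool.HA.stmt_FCAT)
    hT hM.1 Q hQ1 hQne hSt hM.2 hI1 hI2 hsph
  obtain ⟨d⟩ : Nonempty (Stp V) := by
    obtain ⟨q, P', rfl⟩ := List.exists_cons_of_ne_nil hP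
    exact ⟨⟨q.1, q.1, 0⟩⟩
  refine ⟨lsOf d L, lsOf_ok d L l1, ?_, ?_⟩
  · have h1 : Fintype.card (lsOf d L).ι = L.length := Fintype.card_fin _
    have h2 : Q.length = P.length := by rw [hQ, List.length_map, gaps_length]
    rw [h1, l2, h2]
  · intro B _ F
    rw [lsOf_tot F d L (fun E hE => (l1 E hE).1.1), l3 B F]
    congr 3
    rw [hQ, List.map_map]
    refine List.map_congr_left ?_
    intro e he
    simp only [Function.comp_apply, Acc.sec]
    obtain ⟨x, y, h⟩ := List.append_of_mem he
    obtain ⟨x', q, y', g1, g2, g3, g4, -⟩ := gaps_split h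
    have e1 : e.2.k ≠ 0 := by rw [g4]; exact hk q (by rw [g1]; simp)
    rw [Acc.val, if_neg e1]

end Pool.HE
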