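import Pool.Agent.Work.MP_7084a3_full.InterfaceC

set_option autoImplicit false
set_option linter.unusedSectionVars false

/-! # Block GMI (helper52) -/

namespace Pool.HE

open Pool.HA

theorem stmt_GMI (hRR : Stmt_RR) (hWBE : Stmt_WBE) (hEL2 : Stmt_EL2) (hNEL2 : Stmt_NEL2)
    (hPRODE : Stmt_PRODE) (hORDB : Stmt_ORDB) (hORD : Stmt_ORD) (hTRC : Stmt_TRC)
    (hPRJ : Stmt_PRJ) : Stmt_GMI := by
  intro S S' _ _ _ _ M M' ρ ρ' hM hM' hρ hρ' hc hc' hE hE' hφ
  obtain ⟨φ⟩ := hφ
  obtain ⟨ψ, h1, h2, hcomp⟩ := hWBE S S' M M' hM hM' hc hc' hE hE' φ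
  have hβ : ∀ s, ∃ b, IsRf M' ρ' (ψ (M.simple s)) b := by
    intro s
    obtain ⟨w, s', h⟩ := h1 s
    exact ⟨ρ' w (bs s'), ⟨w, s', h, Or.inl rfl⟩⟩
  choose β hβ using hβ
  have hcos : ∀ s t, s ≠ t → 0 ≤ Real.cos (Real.pi / M s t) := by
    intro s t hst
    have h4 := hM.ne_zero s t
    have h5 := M.off_diagonal s t hst
    have h6 : (2 : ℝ) ≤ M s t := by
      have : 2 ≤ M s t := by omega
      exact_mod_cast this
    have hpi := Real.pi_pos
    refine Real.cos_nonneg_of_mem_Icc ⟨?_, ?_⟩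
    · have : 0 ≤ Real.pi / (M s t : ℝ) := by positivity
      linarith
    · rw [div_le_div_iff₀ (by linarith) (by norm_num)]
      nlinarith
  refine ⟨ψ, β, hM, hM', hρ, hρ', hβ, h2, ?_⟩
  intro s t hst
  have h4 := hM.ne_zero s t
  have h5 := M.off_diagonal s t hst
  have ho3 : orderOf (ψ (M.simple s * M.simple t)) = M s t := by
    have e3 : orderOf (ψ (M.simple s * M.simple t)) = orderOf (M.simple s * M.simple t) :=
      orderOf_injective ψ.toMonoidHom ψ.injective _
    rw [e3, hORD S M ρ hM.ne_zero hρ s t]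
  have hB : (M s t = 2 ∨ M s t = 3 ∨ M s t = 4 ∨ M s t = 6) →
      |bf M' (β s) (β t)| = Real.cos (Real.pi / M s t) := by
    intro hm
    refine hORDB S' M' ρ' hM'.ne_zero hρ' (ψ (M.simple s)) (ψ (M.simple t)) (β s) (β t) (hβ s)
      (hβ t) (M s t) hm ?_
    rw [← map_mul]
    exact ho3
  by_cases h6 : 3 ≤ M s t
  · by_cases hN : NoFix M' (φ (zz M s t))
    · exact hB (Or.inr (hNEL2 S S' M M' hM hM' hc' φ ψ h1 hcomp s t hst h6 hN))
    · obtain ⟨u', hu2, hu3, hst'⟩ := hEL2 S S' M M' hM hM' φ s t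
        (Vtx.mk (gen M) {s, t} (Finset.card_le_two) 1) hst h6 rfl rfl hN
      obtain ⟨s', t', w, hne, hw⟩ := hPRODE S S' M M' hM hM' φ s t
        (Vtx.mk (gen M) {s, t} (Finset.card_le_two) 1) u' hst h6 rfl rfl hu2 hu3 hst'
        (hRR S S' M M' hM hM' hc hc' hE' φ (gen M s) ⟨1, s, by simp⟩)
        (hRR S S' M M' hM hM' hc hc' hE' φ (gen M t) ⟨1, t, by simp⟩)
      obtain ⟨π, hπ, -⟩ := hPRJ S M hM.ne_zero
      obtain ⟨π', hπ', -⟩ := hPRJ S' M' hM'.ne_zero
      have hc1 : ψ (M.simple s * M.simple t) = π' (φ (gen M s * gen M t)) := by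
        rw [← hcomp π π' hπ hπ', map_mul π, hπ s, hπ t]
      have hconj : ∃ w s' t', s' ≠ t' ∧
          ψ (M.simple s * M.simple t) = w * (M'.simple s' * M'.simple t') * w⁻¹ := by
        rcases hw with hw | hw
        · refine ⟨π' w, s', t', hne, ?_⟩
          rw [hc1, hw, map_mul, map_mul, map_mul, hπ' s', hπ' t', map_inv]
        · refine ⟨π' w, t', s', hne.symm, ?_⟩
          have hsi : (M'.simple s')⁻¹ = M'.simple s' := M'.toCoxeterSystem.inv_simple s'
          have hti : (M'.simple t')⁻¹ = M'.simple t' := M'.toCoxeterSystem.inv_simple t'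
          rw [hc1, hw, map_mul, map_mul, map_inv, map_inv, map_mul, hπ' s', hπ' t', mul_inv_rev,
            hsi, hti]
      clear hw hne
      obtain ⟨w, s', t', hne, he⟩ := hconj
      have ho : M' s' t' = M s t := by
        have e1 := hORD S' M' ρ' hM'.ne_zero hρ' s' t'
        have e4 : orderOf (w * (M'.simple s' * M'.simple t') * w⁻¹) =
            orderOf (M'.simple s' * M'.simple t') := by
          have := orderOf_injective (MulAut.conj w).toMonoidHom (MulAut.conj w).injective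
            (M'.simple s' * M'.simple t')
          exact this
        rw [← e1, ← e4, ← he, ho3]
      have e5 := hTRC S' M' ρ' hρ' (ψ (M.simple s)) (ψ (M.simple t)) w (β s) (β t) s' t'
        (hβ s) (hβ t) hne (by rw [← map_mul]; exact he)
      rw [ho] at e5
      have e6 := hcos s t hst
      rw [← abs_of_nonneg e6]
      exact (sq_eq_sq_iff_abs_eq_abs _ _).1 e5
  · exact hB (Or.inl (by omega))

end Pool.HE
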