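import Pool.Agent.Work.MP_7084a3_full.InterfaceC
import Pool.Agent.Work.MP_7084a3_h91.B.Pre35

set_option autoImplicit false

/-! # Block INF3 (helper24) -/

namespace Pool.HE

open Pool.HA Pool.HA.H35

namespace H24

theorem cos_half (n : ℕ) (h : 3 ≤ n) : 1 / 2 ≤ Real.cos (Real.pi / n) := by
  have hp := Real.pi_pos
  have hn : (3 : ℝ) ≤ n := by exact_mod_cast h
  rw [← Real.cos_pi_div_three]
  apply Real.cos_le_cos_of_nonneg_of_le_pi
  · positivity
  · linarith
  · exact div_le_div_of_nonneg_left hp.le (by norm_num) hn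

theorem cos_sq_add (m n : ℕ) (hm : 2 ≤ m) (hn : 2 ≤ n)
    (h : (1 : ℝ) / m + 1 / n ≤ 1 / 2) :
    1 ≤ Real.cos (Real.pi / m) ^ 2 + Real.cos (Real.pi / n) ^ 2 := by
  have hp := Real.pi_pos
  have hm' : (2 : ℝ) ≤ m := by exact_mod_cast hm
  have hn' : (2 : ℝ) ≤ n := by exact_mod_cast hn
  have h1 : Real.pi / m ≤ Real.pi / 2 - Real.pi / n := by
    have : Real.pi * ((1 : ℝ) / m + 1 / n) ≤ Real.pi * (1 / 2) :=
      mul_le_mul_of_nonneg_left h hp.le
    have e : Real.pi * ((1 : ℝ) / m + 1 / n) = Real.pi / m + Real.pi / n := by ring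
    rw [e] at this
    linarith
  have h2 : Real.cos (Real.pi / 2 - Real.pi / n) ≤ Real.cos (Real.pi / m) := by
    apply Real.cos_le_cos_of_nonneg_of_le_pi
    · positivity
    · have : 0 ≤ Real.pi / n := by positivity
      linarith
    · exact h1
  rw [Real.cos_pi_div_two_sub] at h2
  have h3 : 0 ≤ Real.sin (Real.pi / n) := by
    apply Real.sin_nonneg_of_nonneg_of_le_pi
    · positivity
    · exact div_le_self hp.le (by linarith)
  have h4 := Real.sin_sq_add_cos_sq (Real.pi / n)
  have h5 : Real.sin (Real.pi / n) ^ 2 ≤ Real.cos (Real.pi / m) ^ 2 :=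
    pow_le_pow_left₀ h3 h2 2
  linarith

end H24

open H24

/-- INF3 -/
theorem stmt_INF3 (hG : Stmt_GREP) (hB : Stmt_BFI) (hI : Stmt_INFO) : Stmt_INF3 := by
  intro S _ _ M hM
  obtain ⟨ρ, hρ⟩ := hG S M hM.ne_zero
  have F := FB.of hB hρ
  have lab : ∀ {s t : S}, s ≠ t → 2 ≤ M s t := fun h => hM.two_le h
  -- the case of three labels at least 3
  have caseA : ∀ s t r : S, s ≠ t → t ≠ r → s ≠ r → 3 ≤ M s t → 3 ≤ M t r → 3 ≤ M s r →
      ∀ k : ℕ, 0 < k → (M.simple s * (M.simple t * M.simple r * (M.simple t)⁻¹)) ^ k ≠ 1 := by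
    intro s t r hst htr hsr h1 h2 h3
    have hr2 : IsRf M ρ (M.simple t * M.simple r * (M.simple t)⁻¹) (ρ (M.simple t) (bs r)) :=
      ⟨M.simple t, r, rfl, Or.inl rfl⟩
    have e2 : ρ (M.simple t) (bs r) = bs r + (2 * Real.cos (Real.pi / M t r)) • bs t := by
      rw [hρ t (bs r), F.bas, M.symmetric r t]
      module
    have f2 : bf M (bs s) (ρ (M.simple t) (bs r)) = -(Real.cos (Real.pi / M s r) +
        2 * Real.cos (Real.pi / M t r) * Real.cos (Real.pi / M s t)) := by
      rw [e2, F.add_right, F.smul_right, F.bas, F.bas]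
      ring
    have c1 := cos_half _ h1
    have c2 := cos_half _ h2
    have c3 := cos_half _ h3
    have hle : (1 : ℝ) / 4 ≤ Real.cos (Real.pi / M t r) * Real.cos (Real.pi / M s t) := by
      nlinarith
    have hcr : (ρ (M.simple t) (bs r)) r = 1 := by
      rw [e2]
      simp [bs, htr.symm]
    have hc0 : (bs s : S → ℝ) r = 0 := by simp [bs, hsr.symm]
    refine hI S M ρ hρ _ _ _ _ (F.simple_rf s) hr2 ?_ ?_ ?_
    · rw [f2, abs_neg, abs_of_nonneg (by nlinarith)]
      nlinarith [hle, c3]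
    · intro h
      have := congrFun h r
      rw [hcr, hc0] at this
      norm_num at this
    · intro h
      have := congrFun h r
      rw [Pi.neg_apply, hcr, hc0] at this
      norm_num at this
  have caseB : ∀ s t r : S, s ≠ t → t ≠ r → s ≠ r → M s r = 2 →
      ∀ k : ℕ, 0 < k → (M.simple t * ((M.simple s * M.simple r) * M.simple t *
        (M.simple s * M.simple r)⁻¹)) ^ k ≠ 1 := by
    intro s t r hst htr hsr h2
    have hr2 : IsRf M ρ ((M.simple s * M.simple r) * M.simple t * (M.simple s * M.simple r)⁻¹)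
      (ρ (M.simple s * M.simple r) (bs t)) := ⟨M.simple s * M.simple r, t, rfl, Or.inl rfl⟩
    have e1 : ρ (M.simple r) (bs t) = bs t + (2 * Real.cos (Real.pi / M t r)) • bs r := by
      rw [hρ r (bs t), F.bas]
      module
    have e2 : ρ (M.simple s * M.simple r) (bs t) = bs t + (2 * Real.cos (Real.pi / M s t)) • bs s +
        (2 * Real.cos (Real.pi / M t r)) • bs r := by
      rw [mul_app, e1, map_add, map_smul, hρ s (bs t), hρ s (bs r), F.bas, F.bas,
        M.symmetric t s, M.symmetric r s, h2]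
      norm_num
    have f2 : bf M (bs t) (ρ (M.simple s * M.simple r) (bs t)) =
        1 - 2 * (Real.cos (Real.pi / M s t) ^ 2 + Real.cos (Real.pi / M t r) ^ 2) := by
      rw [e2, F.add_right, F.add_right, F.smul_right, F.smul_right, F.bs_self, F.bas, F.bas,
        M.symmetric t s]
      ring
    have hsum := hM.hyp s t r hst htr hsr
    have hsum' : (1 : ℝ) / (M s t : ℝ) + 1 / (M t r : ℝ) ≤ 1 / 2 := by
      rw [h2] at hsum
      have h3 : (((1 : ℚ) / (M s t : ℚ) + 1 / (M t r : ℚ) : ℚ) : ℝ) ≤ ((1 / 2 : ℚ) : ℝ) := by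
        rw [Rat.cast_le]
        push_cast at hsum
        linarith
      push_cast at h3
      exact h3
    have hc := cos_sq_add _ _ (lab hst) (lab htr) hsum'
    have hcr : (ρ (M.simple s * M.simple r) (bs t)) t = 1 := by
      rw [e2]
      simp [bs, hst.symm, htr]
    have hc0 : (bs t : S → ℝ) t = 1 := by simp [bs]
    refine hI S M ρ hρ _ _ _ _ (F.simple_rf t) hr2 ?_ ?_ ?_
    · rw [f2, abs_sub_comm]
      exact le_trans (by linarith) (le_abs_self _)
    · intro h
      rw [← h, F.bs_self] at f2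
      linarith
    · intro h
      have := congrFun h t
      rw [Pi.neg_apply, hcr, hc0] at this
      norm_num at this
  -- the conclusion for a triple with labels in E
  have concB : ∀ (E : Set S) (s t r : S), s ∈ E → t ∈ E → r ∈ E → s ≠ t → t ≠ r → s ≠ r →
      M s r = 2 → ∃ (w₁ w₂ : M.Group) (x y : S), w₁ ∈ Subgroup.closure (M.simple '' E) ∧
      w₂ ∈ Subgroup.closure (M.simple '' E) ∧ x ∈ E ∧ y ∈ E ∧
      ∀ k : ℕ, 0 < k → ((w₁ * M.simple x * w₁⁻¹) * (w₂ * M.simple y * w₂⁻¹)) ^ k ≠ 1 := by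
    intro E s t r hs ht hr hst htr hsr h2
    refine ⟨1, M.simple s * M.simple r, t, t, Subgroup.one_mem _, Subgroup.mul_mem _
      (Subgroup.subset_closure ⟨s, hs, rfl⟩) (Subgroup.subset_closure ⟨r, hr, rfl⟩), ht, ht, ?_⟩
    intro k hk
    have := caseB s t r hst htr hsr h2 k hk
    rwa [one_mul, inv_one, mul_one]
  intro s t r hst htr hsr
  have hs : s ∈ ({s, t, r} : Set S) := by simp
  have ht : t ∈ ({s, t, r} : Set S) := by simp
  have hr : r ∈ ({s, t, r} : Set S) := by simp
  by_cases h1 : M s r = 2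
  · exact concB _ s t r hs ht hr hst htr hsr h1
  by_cases h2 : M s t = 2
  · exact concB _ s r t hs hr ht hsr htr.symm hst h2
  by_cases h3 : M t r = 2
  · exact concB _ t s r ht hs hr hst.symm hsr htr h3
  have l1 := lab hst
  have l2 := lab htr
  have l3 := lab hsr
  refine ⟨1, M.simple t, s, r, Subgroup.one_mem _, Subgroup.subset_closure ⟨t, ht, rfl⟩, hs, hr,
    ?_⟩
  intro k hk
  have := caseA s t r hst htr hsr (by omega) (by omega) (by omega) k hk
  rwa [one_mul, inv_one, mul_one]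

end Pool.HE
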