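import Pool.Agent.Work.MP_7084a3_full.InterfaceE
import Pool.Agent.Work.MP_7084a3_h91.B.INJ2

set_option autoImplicit false

namespace Pool.HE

open Pool.HA

theorem stmt_INJ2 (hEXF : Stmt_EXF) (hCONN : Stmt_CONN) (hNPC : Stmt_NPC0) (hUNI : Stmt_UNI0)
    (hFCAT : Stmt_FCAT) (hFROT : Stmt_FROT) (hFBR : Stmt_FBR) (hFREV : Stmt_FREV)
    (hFTRI : Stmt_FTRI) (hTTOK : Stmt_TTOK) (hWCH : Stmt_WCH) : Stmt_INJ2 := by
  intro S _ M hM D hD hbd
  classical
  have hN := (hNPC S M hM).1
  have hT := hTTOK (Art M) S (gen M)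
  have uni := hUNI _ _ Vtx.ad TT (ang M 0) hT hN
  set o : Vtx (gen M) := Vtx.mk (gen M) ∅ (by simp) 1 with ho
  choose γ hγ using fun u => hCONN S M o u
  have hcons : ∀ u, ∃ a, γ u = o :: a := by
    intro u
    have h1 := (hγ u).1
    rcases h : γ u with _ | ⟨x, a⟩
    · rw [h] at h1; simp at h1
    · rw [h] at h1
      have hx : x = o := by simpa using h1
      exact ⟨a, by rw [hx]⟩
  have ex : ∀ u v : Vtx (gen M), u.ad v →
      ∃ D n, Fill Vtx.ad TT (γ u ++ (γ v).reverse.dropLast) D n := by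
    intro u v huv
    have hW : Wk (γ u ++ [v]) o v := by
      refine ⟨?_, by simp, ?_⟩
      · obtain ⟨a, ha⟩ := hcons u
        rw [ha]; simp
      · rw [List.isChain_append]
        refine ⟨(hγ u).2.2, by simp, ?_⟩
        intro x hx y hy
        rw [(hγ u).2.1] at hx
        simp only [Option.mem_def, Option.some.injEq] at hx
        simp only [List.head?_cons, Option.mem_def, Option.some.injEq] at hy
        rw [← hx, ← hy]; exact huv
    have h1 := ((hWCH (Art M) S (gen M)).2.2.1 (γ u ++ [v]) (γ v) o v hW (hγ v)).1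
    rw [List.dropLast_concat] at h1
    exact hEXF S M hM.ne_zero _ h1
  obtain ⟨f, hf⟩ : ∃ f : Vtx (gen M) → Vtx (gen M) → C2 (gen M), ∀ u v : Vtx (gen M), u.ad v →
      ∃ n, Fill Vtx.ad TT (γ u ++ (γ v).reverse.dropLast) (f u v) n := by
    refine ⟨fun u v => if h : u.ad v then (ex u v h).choose else 0, ?_⟩
    intro u v huv
    simp only [dif_pos huv]
    exact (ex u v huv).choose_spec
  have hanti : ∀ u v : Vtx (gen M), u.ad v → f v u = - f u v := by
    intro u v huv
    obtain ⟨n, h1⟩ := hf u v huv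
    obtain ⟨n', h2⟩ := hf v u (hT.symm _ _ huv)
    have h3 := hFREV _ _ Vtx.ad TT hT _ _ _ h1
    obtain ⟨a, ha⟩ := hcons u
    obtain ⟨b, hb⟩ := hcons v
    have e : rv (γ u ++ (γ v).reverse.dropLast) = γ v ++ (γ u).reverse.dropLast := by
      rw [ha, hb, List.reverse_cons, List.reverse_cons, List.dropLast_concat, List.dropLast_concat]
      simp [rv]
    rw [e] at h3
    exact uni _ _ _ _ _ h2 h3
  have htri : ∀ u v c : Vtx (gen M), u.ad v → v.ad c → c.ad u →
      f u v + f v c + f c u = TT u v c := by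
    intro u v c huv hvc hcu
    obtain ⟨n1, h1⟩ := hf u v huv
    obtain ⟨n2, h2⟩ := hf v c hvc
    obtain ⟨n3, h3⟩ := hf c u hcu
    have hd : ∀ (w : Vtx (gen M)) (Y : List (Vtx (gen M))), (γ w ++ Y).head? = some o := by
      intro w Y
      obtain ⟨a, ha⟩ := hcons w
      rw [ha]; rfl
    have h12 := hFCAT _ _ Vtx.ad TT _ _ _ _ _ _ h1 h2 (by
      intro z hz z' hz'
      rw [hd] at hz hz'
      simp only [Option.mem_def, Option.some.injEq] at hz hz'
      rw [← hz, ← hz'])
    have h12' := INJ2h.mid hT hFBR (γ v) o v (hγ v) (γ u) (γ c).reverse.dropLast _ _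
      (by simpa only [List.append_assoc] using h12)
    have h123 := hFCAT _ _ Vtx.ad TT _ _ _ _ _ _ h12' h3 (by
      intro z hz z' hz'
      rw [hd] at hz hz'
      simp only [Option.mem_def, Option.some.injEq] at hz hz'
      rw [← hz, ← hz'])
    have h123' := INJ2h.mid hT hFBR (γ c) o c (hγ c) (γ u ++ [v]) (γ u).reverse.dropLast _ _
      (by simpa only [List.append_assoc, List.cons_append, List.nil_append] using h123)
    have hr := hFROT _ _ Vtx.ad TT hT (γ u ++ [v, c]) (γ u).reverse.dropLast _ _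
      (by simpa only [List.append_assoc, List.cons_append, List.nil_append] using h123')
    have hr' := INJ2h.mid hT hFBR (γ u) o u (hγ u) [] [v, c] _ _
      (by simpa only [List.append_assoc, List.cons_append, List.nil_append] using hr)
    have ht := hFTRI _ _ Vtx.ad TT hT [] [] u c v _ _ (hT.symm _ _ hcu) huv hvc hr'
    have h0 := uni _ _ _ _ _ (Fill.sph (hT.symm _ _ hcu) ht) Fill.nil
    have e1 : TT (g := gen M) u c v = - TT u v c := by
      rw [hT.cyc u c v, hT.anti v c u, ← hT.cyc u v c]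
    rw [e1] at h0
    rw [← sub_eq_add_neg, sub_eq_zero] at h0
    exact h0
  let h : C1 (gen M) →+ C2 (gen M) := Finsupp.liftAddHom
    (fun p : Vtx (gen M) × Vtx (gen M) => (AddMonoidHom.flip (smulAddHom ℤ (C2 (gen M)))) (f p.1 p.2))
  have hh : ∀ p : Vtx (gen M) × Vtx (gen M), h (Finsupp.single p 1) = f p.1 p.2 := by
    intro p
    simp [h]
  have hEE : ∀ x y : Vtx (gen M), x.ad y → h (EE x y) = f x y := by
    intro x y hxy
    rcases hxy.2 with h1 | h1
    · have h2 : x.ty < y.ty := Finset.card_lt_card h1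
      have h3 : ¬ y.ty < x.ty := by omega
      rw [EE, dl1, dl1, if_pos h2, if_neg h3, sub_zero, hh]
    · have h2 : y.ty < x.ty := Finset.card_lt_card h1
      have h3 : ¬ x.ty < y.ty := by omega
      rw [EE, dl1, dl1, if_pos h2, if_neg h3, zero_sub, map_neg, hh, hanti x y hxy, neg_neg]
  have key : h (bd2 (gen M) D) = D := by
    have e1 : bd2 (gen M) D = D.sum (fun t a => a • (EE t.1 t.2.1 + EE t.2.1 t.2.2 + EE t.2.2 t.1)) := rfl
    rw [e1, Finsupp.sum, map_sum]
    conv_rhs => rw [← Finsupp.sum_single D]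
    rw [Finsupp.sum]
    refine Finset.sum_congr rfl ?_
    intro t ht
    obtain ⟨h0, h1, h2, a1, a2, a3⟩ := hD t ht
    rw [map_zsmul, map_add, map_add, hEE _ _ a1, hEE _ _ a2, hEE _ _ (hT.symm _ _ a3),
      htri _ _ _ a1 a2 (hT.symm _ _ a3)]
    have e2 : TT t.1 t.2.1 t.2.2 = Finsupp.single t (1 : ℤ) := by
      simp [TT, dlt, h0, h1, h2]
    rw [e2, Finsupp.smul_single, smul_eq_mul, mul_one]
  rw [← key, hbd, map_zero]

end Pool.HE
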