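import Pool.Agent.Work.MP_7084a3_full.InterfaceE

set_option autoImplicit false

/-! # Block ISOC: quadratic isoperimetric inequality for chains -/

namespace Pool.HE

open Pool.HA

namespace IsoC

section
variable {G S : Type} [Group G] {g : S → G}

theorem EE_lt {x y : Vtx g} (h : x.ty < y.ty) : EE x y = Finsupp.single (x, y) 1 := by
  unfold EE dl1
  rw [if_pos h, if_neg (by omega), sub_zero]

theorem EE_gt {x y : Vtx g} (h : y.ty < x.ty) : EE x y = -Finsupp.single (y, x) 1 := by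
  unfold EE dl1
  rw [if_neg (by omega), if_pos h, zero_sub]

/-- edges of the boundary of a flagged chain -/
theorem supp_bd2 {T : C2 g} (hT : Flagged T) :
    ∀ p ∈ (bd2 g T).support, p.1.ty < p.2.ty ∧ p.1.ad p.2 := by
  intro p hp
  rw [Finsupp.mem_support_iff] at hp
  by_contra hno
  apply hp
  have hb : bd2 g T = ∑ t ∈ T.support,
      T t • (EE t.1 t.2.1 + EE t.2.1 t.2.2 + EE t.2.2 t.1) := by
    unfold bd2
    rw [Finsupp.liftAddHom_apply, Finsupp.sum]
    rfl
  rw [hb, Finsupp.finsetSum_apply]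
  refine Finset.sum_eq_zero fun t ht => ?_
  obtain ⟨h0, h1, h2, a01, a12, a02⟩ := hT t ht
  rw [EE_lt (by omega), EE_lt (by omega), EE_gt (by omega)]
  have n1 : (t.1, t.2.1) ≠ p := by
    rintro rfl
    exact hno ⟨by simp only; omega, a01⟩
  have n2 : (t.2.1, t.2.2) ≠ p := by
    rintro rfl
    exact hno ⟨by simp only; omega, a12⟩
  have n3 : (t.1, t.2.2) ≠ p := by
    rintro rfl
    exact hno ⟨by simp only; omega, a02⟩
  rw [Finsupp.smul_apply, Finsupp.add_apply, Finsupp.add_apply, Finsupp.neg_apply,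
    Finsupp.single_eq_of_ne n1.symm, Finsupp.single_eq_of_ne n2.symm,
    Finsupp.single_eq_of_ne n3.symm]
  simp

theorem nf_add {X : Type} (D D' : X →₀ ℤ) : nf (D + D') ≤ nf D + nf D' := by
  classical
  unfold nf
  have e1 : ∀ (E : X →₀ ℤ) (s : Finset X), E.support ⊆ s →
      E.sum (fun _ a => a.natAbs) = ∑ x ∈ s, (E x).natAbs := by
    intro E s hs
    exact Finsupp.sum_of_support_subset _ hs _ (fun _ _ => rfl)
  rw [e1 (D + D') (D.support ∪ D'.support) Finsupp.support_add,
    e1 D (D.support ∪ D'.support) Finset.subset_union_left,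
    e1 D' (D.support ∪ D'.support) Finset.subset_union_right, ← Finset.sum_add_distrib]
  exact Finset.sum_le_sum fun x _ => by
    rw [Finsupp.add_apply]; exact Int.natAbs_add_le _ _

theorem flag_add {D D' : C2 g} (h : Flagged D) (h' : Flagged D') : Flagged (D + D') := by
  classical
  intro t ht
  rcases Finset.mem_union.1 (Finsupp.support_add ht) with ht | ht
  · exact h t ht
  · exact h' t ht

theorem flag_sub {D D' : C2 g} (h : Flagged D) (h' : Flagged D') : Flagged (D - D') := by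
  classical
  intro t ht
  rcases Finset.mem_union.1 (Finsupp.support_sub ht) with ht | ht
  · exact h t ht
  · exact h' t ht

/-- fill all the walks of a list -/
theorem fills (hBD : Pool.HA.Stmt_BD) {C : ℕ}
    (H : ∀ l : List (Vtx g), CW Vtx.ad l →
      ∃ (D : C2 g) (n : ℕ), Fill Vtx.ad TT l D n ∧ n ≤ C * l.length ^ 2) :
    ∀ ls : List (List (Vtx g)), (∀ l ∈ ls, CW Vtx.ad l) → ∃ D : C2 g, Flagged D ∧
      bd2 g D = (ls.map cch).sum ∧ nrm D ≤ C * (ls.map List.length).sum ^ 2 := by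
  intro ls
  induction ls with
  | nil =>
    intro _
    refine ⟨0, ?_, ?_, ?_⟩
    · intro t ht; simp at ht
    · simp
    · simp [nrm, nf]
  | cons l ls ih =>
    intro hl
    obtain ⟨D, n, hF, hn⟩ := H l (hl l (by simp))
    obtain ⟨hb, hfl, hnn⟩ := hBD G S g l D n hF
    obtain ⟨D', hfl', hb', hn'⟩ := ih fun l' hl' => hl l' (by simp [hl'])
    refine ⟨D + D', flag_add hfl hfl', ?_, ?_⟩
    · rw [map_add, hb, hb', List.map_cons, List.sum_cons]
    · rw [List.map_cons, List.sum_cons]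
      set b := (ls.map List.length).sum with hbdef
      have h1 : nrm (D + D') ≤ nrm D + nrm D' := nf_add D D'
      have h2 : C * l.length ^ 2 + C * b ^ 2 ≤ C * (l.length + b) ^ 2 := by
        have h3 : l.length ^ 2 + b ^ 2 ≤ (l.length + b) ^ 2 := by
          have : (l.length + b) ^ 2 = l.length ^ 2 + b ^ 2 + 2 * l.length * b := by ring
          omega
        calc C * l.length ^ 2 + C * b ^ 2 = C * (l.length ^ 2 + b ^ 2) := by ring
          _ ≤ _ := Nat.mul_le_mul_left C h3
      omega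

end

end IsoC

theorem stmt_ISOC (hISOQ : Stmt_ISOQ) (hCYCD : Stmt_CYCD) (hINJ2 : Stmt_INJ2)
    (hBD : Pool.HA.Stmt_BD) (hBD1 : Pool.HA.Stmt_BD1) : Stmt_ISOC := by
  intro S _ _ M hM
  obtain ⟨C, HC⟩ := hISOQ S M hM
  refine ⟨C, fun T hT => ?_⟩
  obtain ⟨ls, hls, hsum, hlen⟩ := hCYCD (Art M) S (gen M) (bd2 (gen M) T) (IsoC.supp_bd2 hT)
    ((hBD1 (Art M) S (gen M)).2 T hT)
  obtain ⟨D, hfl, hb, hn⟩ := IsoC.fills hBD HC ls fun l hl => (hls l hl).2
  have h0 : T - D = 0 := by
    refine hINJ2 S M hM (T - D) (IsoC.flag_sub hT hfl) ?_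
    rw [map_sub, hb, hsum, sub_self]
  have hTD : T = D := sub_eq_zero.1 h0
  calc nrm T = nrm D := by rw [hTD]
    _ ≤ C * (ls.map List.length).sum ^ 2 := hn
    _ ≤ C * (nf (bd2 (gen M) T)) ^ 2 := Nat.mul_le_mul_left C (Nat.pow_le_pow_left hlen 2)

end Pool.HE
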