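import Pool.Agent.Work.MP_7084a3_full.InterfaceE

set_option autoImplicit false

/-! # Block ISOQ: the quadratic isoperimetric inequality -/

namespace Pool.HE

open Pool.HA

namespace ISOQ

section
variable {V : Type}

/-- positions of a loop system -/
def Pos (X : LSys V) : Type := Σ i : X.ι, Fin (X.K i)

instance (X : LSys V) : Fintype (Pos X) := inferInstanceAs (Fintype (Σ i : X.ι, Fin (X.K i)))

def pvt (X : LSys V) (x : Pos X) : V := X.v x.1

def pbt (X : LSys V) (x : Pos X) : V := (X.s x.1 ((x.2 : ℕ) + 1)).a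

def plab (X : LSys V) (x : Pos X) : V × V × (V ⊕ ℕ) × (V ⊕ ℕ) :=
  (pvt X x, pbt X x, rsd (fun _ => 0) (X.s x.1 x.2), lsd (fun _ => 0) (X.s x.1 ((x.2 : ℕ) + 1)))

def psw (z : V × V × (V ⊕ ℕ) × (V ⊕ ℕ)) : V × V × (V ⊕ ℕ) × (V ⊕ ℕ) :=
  (z.2.1, z.1, z.2.2.2, z.2.2.1)

/-- shift of a position -/
def sh (X : LSys V) (hpos : ∀ i, 0 < X.K i) (p : Pos X) (h : ℕ) : Pos X :=
  ⟨p.1, ⟨((p.2 : ℕ) + h) % X.K p.1, Nat.mod_lt _ (hpos _)⟩⟩

theorem s_mod (X : LSys V) (hper : ∀ i j, X.s i (j + X.K i) = X.s i j) (i : X.ι) (j : ℕ) :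
    X.s i (j % X.K i) = X.s i j :=
  Function.Periodic.map_mod_nat (fun j => hper i j) j

theorem s_mod_add (X : LSys V) (hper : ∀ i j, X.s i (j + X.K i) = X.s i j) (i : X.ι)
    (j h : ℕ) : X.s i (j % X.K i + h) = X.s i (j + h) := by
  rw [← s_mod X hper i (j % X.K i + h), ← s_mod X hper i (j + h), Nat.mod_add_mod]

theorem pbt_sh (X : LSys V) (hpos : ∀ i, 0 < X.K i)
    (hper : ∀ i j, X.s i (j + X.K i) = X.s i j) (p : Pos X) (h : ℕ) :
    pbt X (sh X hpos p h) = (X.s p.1 ((p.2 : ℕ) + h + 1)).a := by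
  unfold pbt sh
  simp only
  rw [s_mod_add X hper]

theorem pos_eq {X : LSys V} {i i' : X.ι} {j : Fin (X.K i)} {j' : Fin (X.K i')}
    (h : (⟨i, j⟩ : Pos X) = ⟨i', j'⟩) : i = i' ∧ (j : ℕ) = (j' : ℕ) := by
  have h' := (Sigma.mk.inj_iff (α := X.ι) (β := fun i => Fin (X.K i))).1 h
  obtain ⟨rfl, h2⟩ := h'
  exact ⟨rfl, by rw [eq_of_heq h2]⟩

theorem sh_inj (X : LSys V) (hpos : ∀ i, 0 < X.K i) (H : X.ι → ℕ) {p q : Pos X}
    (h : sh X hpos p (H p.1) = sh X hpos q (H q.1)) : p = q := by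
  obtain ⟨i, j⟩ := p
  obtain ⟨i', j'⟩ := q
  unfold sh at h
  obtain ⟨hi, h⟩ := pos_eq h
  simp only at hi h
  subst hi
  have h2 : (j : ℕ) ≡ j' [MOD X.K i] := Nat.ModEq.add_right_cancel' (H i) h
  have h3 : (j : ℕ) = j' := by
    have := h2
    unfold Nat.ModEq at this
    rwa [Nat.mod_eq_of_lt j.2, Nat.mod_eq_of_lt j'.2] at this
  rw [Fin.ext h3]

theorem sum_pos (X : LSys V) {B : Type} [AddCommMonoid B] (f : (i : X.ι) → ℕ → B) :
    ∑ x : Pos X, f x.1 x.2 = ∑ i, ∑ j ∈ Finset.range (X.K i), f i j := by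
  have h1 : ∑ x : Pos X, f x.1 x.2 = ∑ i, ∑ j : Fin (X.K i), f i j :=
    Fintype.sum_sigma (fun x : (Σ i : X.ι, Fin (X.K i)) => f x.1 x.2)
  rw [h1]
  exact Finset.sum_congr rfl fun i _ => (Finset.sum_range _).symm

end

end ISOQ

open ISOQ in
theorem stmt_ISOQ (hGBX : Stmt_GBX) (hTAU : Stmt_TAU) (hISQA : Stmt_ISQA) (hFLAT : Stmt_FLAT)
    (_hLE : Stmt_LE) (hNPC0 : Stmt_NPC0) (hEXF : Pool.HA.Stmt_EXF)
    (hTTOK : Pool.HA.Stmt_TTOK) : Stmt_ISOQ := by
  classical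
  intro S _ _ M hM
  obtain ⟨C, hC⟩ := hGBX S M hM
  obtain ⟨mm, hmm⟩ : ∃ mm : ℕ, ∀ J : Finset S, lb M J ≤ mm := by
    obtain ⟨mm, h⟩ := (Set.finite_range (fun J : Finset S => lb M J)).bddAbove
    exact ⟨mm, fun J => h ⟨J, rfl⟩⟩
  refine ⟨4 * mm * C ^ 2 + C, ?_⟩
  intro l hl
  by_cases hl0 : l = []
  · subst hl0
    exact ⟨0, 0, Fill.nil, by simp⟩
  obtain ⟨D, n, X, hF, hX, hacc, hnf⟩ := hC l hl0 hl
  refine ⟨D, n, hF, ?_⟩
  obtain ⟨hN, _⟩ := hNPC0 S M hM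
  -- flat loops
  have htl : ∀ i, X.Flat (ang M 0) i → TLoop Vtx.ad (X.v i) (X.K i) (X.s i) := by
    intro i hi
    refine ⟨hX.pos i, hX.per i, ?_, ?_⟩
    · intro j
      rcases hX.stp i j with h | h
      · exact h
      · exact absurd (hi.1 j) h.1
    · intro j
      exact ⟨(hX.cmp i j).1, (hX.cmp i j).2.1⟩
  have hsum : ∀ i, X.Flat (ang M 0) i →
      ∑ j ∈ Finset.range (X.K i), ang M 0 (X.v i) (X.s i j).a (X.s i j).b = 2 := by
    intro i hi
    rw [← hi.2]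
    unfold LSys.wt
    refine Finset.sum_congr rfl fun j _ => ?_
    rw [if_pos (hi.1 j)]
  have hflat : ∀ i, X.Flat (ang M 0) i → (X.v i).ty ≠ 0 → _ := fun i hi hty =>
    hFLAT S M hM (X.v i) (X.K i) (X.s i) hty (htl i hi) (hsum i hi)
  -- the permutation
  obtain ⟨τ, hτ⟩ := hTAU (Pos X) _ (plab X) psw (fun _ => rfl) (by
    intro J hJ
    have h := hacc ℤ ⟨fun _ _ _ => 0, fun _ _ => 0, fun v b L R => J (v, b, L, R), 0, 0,
      fun _ _ _ _ _ _ => by simp, fun v b L R => hJ (v, b, L, R)⟩ (fun _ _ => rfl)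
    simp only [LSys.tot, Acc.val, Acc.jn, ite_self, zero_add, smul_zero,
      AddMonoidHom.zero_apply, sub_zero] at h
    rw [← h]
    exact sum_pos X (fun i j => J (X.v i, (X.s i (j + 1)).a, rsd (fun _ => 0) (X.s i j),
      lsd (fun _ => 0) (X.s i (j + 1)))))
  have hτv : ∀ x, pvt X (τ x) = pbt X x := fun x => congrArg Prod.fst (hτ x)
  have hτb : ∀ x, pbt X (τ x) = pvt X x := fun x => congrArg (fun z => z.2.1) (hτ x)
  -- the set `I`
  let I : Type := {x : Pos X // (pvt X x).ty ≠ 0 ∧ (pbt X x).ty ≠ 0 ∧ (pvt X x).ad (pbt X x)}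
  let R : I → I → Prop := fun x y => X.Flat (ang M 0) (τ x.1).1 ∧
    y.1 = sh X hX.pos (τ x.1) (X.K (τ x.1).1 / 2)
  have hR1 : ∀ x y z : I, R x y → R x z → y = z := fun x y z h1 h2 =>
    Subtype.ext (h1.2.trans h2.2.symm)
  have hR2 : ∀ x y z : I, R x z → R y z → x = y := by
    intro x y z h1 h2
    have h3 := h1.2.symm.trans h2.2
    have h4 := sh_inj X hX.pos (fun i => X.K i / 2) h3
    exact Subtype.ext (τ.injective h4)
  have hty : ∀ x : I, (X.v (τ x.1).1).ty ≠ 0 := by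
    intro x
    have : X.v (τ x.1).1 = pbt X x.1 := hτv x.1
    rw [this]; exact x.2.2.1
  have hR3 : ∀ x y : I, R x y → pvt X y.1 = pbt X x.1 ∧
      Str Vtx.ad (ang M 0) (pvt X y.1) (pbt X y.1) (pvt X x.1) ∧
      Str Vtx.ad (ang M 0) (pvt X y.1) (pvt X x.1) (pbt X y.1) := by
    intro x y hxy
    obtain ⟨hfl, hy⟩ := hxy
    have h1 := hflat _ hfl (hty x)
    have hv : pvt X y.1 = X.v (τ x.1).1 := by rw [hy]; rfl
    have hb : pbt X y.1 = (X.s (τ x.1).1 (((τ x.1).2 : ℕ) + 1 + X.K (τ x.1).1 / 2)).a := by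
      rw [hy, pbt_sh X hX.pos hX.per]
      congr 2; ring
    have hx : pvt X x.1 = (X.s (τ x.1).1 (((τ x.1).2 : ℕ) + 1)).a := (hτb x.1).symm
    refine ⟨?_, ?_, ?_⟩
    · rw [hv]; exact hτv x.1
    · rw [hv, hb, hx]; exact (h1.2.1 _).2
    · rw [hv, hb, hx]; exact (h1.2.1 _).1
  -- even shifts keep the type
  have heven : ∀ i, X.Flat (ang M 0) i → (X.v i).ty ≠ 0 → ∀ j h,
      (X.s i (j + 2 * h)).a.ty = (X.s i j).a.ty := by
    intro i hi hti j h
    induction h with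
    | zero => rfl
    | succ h ih =>
      have := (hflat i hi hti).2.2.2.1 (j + 2 * h)
      rw [← ih, ← this]
      congr 2
  have hhalf : ∀ i, X.Flat (ang M 0) i → (X.v i).ty ≠ 0 → ∃ h, X.K i / 2 = 2 * h := by
    intro i hi hti
    have h1 := (hflat i hi hti).1
    unfold fl at h1
    rw [if_neg hti] at h1
    split_ifs at h1 with h2
    · exact ⟨1, by omega⟩
    · exact ⟨lb M (X.v i).J, by omega⟩
  -- terminal positions
  have hterm : ∀ x : {x : I // ∀ y, ¬ R x y}, ¬ X.Flat (ang M 0) (τ x.1.1).1 := by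
    intro x hfl
    obtain ⟨h, hh⟩ := hhalf _ hfl (hty x.1)
    have hv : pvt X (sh X hX.pos (τ x.1.1) (X.K (τ x.1.1).1 / 2)) = pbt X x.1.1 := hτv x.1.1
    have hb : pbt X (sh X hX.pos (τ x.1.1) (X.K (τ x.1.1).1 / 2))
        = (X.s (τ x.1.1).1 (((τ x.1.1).2 : ℕ) + 1 + 2 * h)).a := by
      rw [pbt_sh X hX.pos hX.per, hh]
      congr 2; ring
    refine x.2 ⟨sh X hX.pos (τ x.1.1) (X.K (τ x.1.1).1 / 2), ?_, ?_, ?_⟩ ⟨hfl, rfl⟩
    · rw [hv]; exact x.1.2.2.1
    · rw [hb, heven _ hfl (hty x.1)]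
      have : (X.s (τ x.1.1).1 (((τ x.1.1).2 : ℕ) + 1)).a = pvt X x.1.1 := hτb x.1.1
      rw [this]; exact x.1.2.1
    · rw [hb]
      exact ((htl _ hfl).stp _).2.1
  have hcardT : Nat.card {x : I // ∀ y, ¬ R x y} ≤ C * l.length := by
    have hinj : Function.Injective (fun x : {x : I // ∀ y, ¬ R x y} =>
        (⟨τ x.1.1, hterm x⟩ : {p : Pos X // ¬ X.Flat (ang M 0) p.1})) := by
      intro x y h
      simp only [Subtype.mk.injEq] at h
      exact Subtype.ext (Subtype.ext (τ.injective h))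
    refine (Nat.card_le_card_of_injective _ hinj).trans ?_
    refine le_trans (le_of_eq ?_) hnf
    rw [Nat.card_eq_fintype_card, Fintype.card_subtype, Finset.card_filter]
    rw [sum_pos X (fun i _ => if ¬ X.Flat (ang M 0) i then 1 else 0)]
    refine Finset.sum_congr rfl fun i _ => ?_
    by_cases hi : X.Flat (ang M 0) i
    · simp [hi]
    · simp [hi]
  -- the crossings
  let Om : Type := {i : X.ι // X.Flat (ang M 0) i ∧ (X.v i).ty = 2}
  have hty2 : ∀ o : Om, (X.v o.1).ty ≠ 0 := fun o => by rw [o.2.2]; norm_num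
  have hK : ∀ o : Om, X.K o.1 = 4 * lb M (X.v o.1).J ∧ 8 ≤ X.K o.1 := by
    intro o
    have h1 := (hflat o.1 o.2.1 (hty2 o)).1
    unfold fl at h1
    rw [if_neg (hty2 o), if_neg (by rw [o.2.2]; norm_num)] at h1
    refine ⟨h1, ?_⟩
    obtain ⟨s, t, hst, hJ⟩ := Vtx.J2 o.2.2
    rw [h1, hJ, lb_pair hst (hM.ne_zero s t)]
    have := hM.two_le hst
    omega
  let j0 : Om → ℕ := fun o => if (X.s o.1 1).a.ty ≠ 0 then 0 else 1
  have hj0 : ∀ o, j0 o ≤ 1 := by
    intro o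
    simp only [j0]
    split_ifs <;> omega
  have hj0t : ∀ o : Om, (X.s o.1 (j0 o + 1)).a.ty ≠ 0 := by
    intro o
    simp only [j0]
    split_ifs with h
    · exact h
    · have h1 := (hflat o.1 o.2.1 (hty2 o)).2.2.2.2 1
      push Not at h
      rw [h] at h1
      exact h1
  have hx0I : ∀ o : Om, ((⟨o.1, ⟨j0 o, by have := hj0 o; have := (hK o).2; omega⟩⟩ : Pos X) ∈
      {x : Pos X | (pvt X x).ty ≠ 0 ∧ (pbt X x).ty ≠ 0 ∧ (pvt X x).ad (pbt X x)}) := by
    intro o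
    exact ⟨hty2 o, hj0t o, ((htl _ o.2.1).stp _).2.1⟩
  have hx1I : ∀ o : Om, ((⟨o.1, ⟨j0 o + 2, by have := hj0 o; have := (hK o).2; omega⟩⟩ :
      Pos X) ∈
      {x : Pos X | (pvt X x).ty ≠ 0 ∧ (pbt X x).ty ≠ 0 ∧ (pvt X x).ad (pbt X x)}) := by
    intro o
    refine ⟨hty2 o, ?_, ((htl _ o.2.1).stp _).2.1⟩
    have h1 := heven o.1 o.2.1 (hty2 o) (j0 o + 1) 1
    have h2 : pbt X (⟨o.1, ⟨j0 o + 2, by have := hj0 o; have := (hK o).2; omega⟩⟩ : Pos X)
        = (X.s o.1 (j0 o + 1 + 2 * 1)).a := rfl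
    rw [h2, h1]
    exact hj0t o
  let x0 : Om → I := fun o => ⟨⟨o.1, ⟨j0 o, by have := hj0 o; have := (hK o).2; omega⟩⟩, hx0I o⟩
  let x1 : Om → I := fun o =>
    ⟨⟨o.1, ⟨j0 o + 2, by have := hj0 o; have := (hK o).2; omega⟩⟩, hx1I o⟩
  have hcardO : Fintype.card Om ≤ (Nat.card {x : I // ∀ y, ¬ R x y}) ^ 2 := by
    refine hISQA (Vtx (gen M)) (C2 (gen M)) Vtx.ad TT (ang M 0) (hTTOK _ _ _) hN
      (hEXF S M hM.ne_zero) I Om (fun x => pvt X x.1) (fun x => pbt X x.1) R x0 x1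
      (fun x => x.2.2.2) hR1 hR2 hR3 ?_ ?_ (fun _ => rfl) ?_ ?_
    · intro o o' h
      have h1 := congrArg (fun x : I => x.1.1) h
      exact Subtype.ext h1
    · intro o o' h
      have h1 := congrArg (fun x : I => x.1.1) h
      exact Subtype.ext h1
    · intro o
      exact (hflat o.1 o.2.1 (hty2 o)).2.2.1 (j0 o + 1) (j0 o + 2 + 1) (by omega)
        (by have := (hK o).2; omega)
    · intro o z hz
      obtain ⟨hfl, hz2⟩ := hz
      have hvz : pvt X z.1 = pbt X (τ z.1) := (hτb z.1).symm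
      rw [hvz]
      obtain ⟨p, hp⟩ : ∃ p, p = τ z.1 := ⟨_, rfl⟩
      rw [← hp] at hz2 hfl ⊢
      obtain ⟨i', j'⟩ := p
      have h8 := (hK o).2
      have h4 := (hK o).1
      have hj := hj0 o
      simp only [x1, sh] at hz2
      obtain ⟨hi, hz3⟩ := pos_eq hz2
      subst hi
      simp only at hz3
      have hj'K := j'.2
      have hj' : (j' : ℕ) = j0 o + 2 + X.K o.1 / 2 := by
        rcases lt_or_ge ((j' : ℕ) + X.K o.1 / 2) (X.K o.1) with hlt | hge
        · rw [Nat.mod_eq_of_lt hlt] at hz3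
          omega
        · rw [Nat.mod_eq_sub_mod hge, Nat.mod_eq_of_lt (by omega)] at hz3
          omega
      have h9 := (hflat o.1 o.2.1 (hty2 o)).2.2.1 (j0 o + 1) ((j' : ℕ) + 1) (by omega)
        (by omega)
      exact fun h => h9 h.symm
  -- the number of triangles
  have hn : (n : ℤ) ≤ ((4 * mm * Fintype.card Om + C * l.length : ℕ) : ℤ) := by
    have h := hacc ℤ ⟨fun u _ _ => if u.ty = 2 then 1 else 0, fun _ _ => 0, fun _ _ _ _ => 0, 1, 0,
      fun u v c h1 h2 h3 => by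
        have := Vtx.flag_ty h1 (Vtx.ad_symm h3) h2
        rcases this with ⟨a, b, c⟩ | ⟨a, b, c⟩ | ⟨a, b, c⟩ | ⟨a, b, c⟩ | ⟨a, b, c⟩ | ⟨a, b, c⟩ <;>
          simp [a, b, c], fun _ _ _ _ => by simp⟩ (fun _ _ => rfl)
    simp only [LSys.tot, Acc.val, Acc.jn, add_zero, smul_eq_mul, mul_one,
      AddMonoidHom.zero_apply, sub_zero, nsmul_eq_mul] at h
    rw [← h]
    have h1 : ∀ i, (∑ j ∈ Finset.range (X.K i),
        (if (X.s i j).k = 0 then (if (X.v i).ty = 2 then (1 : ℤ) else 0) else 0))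
        ≤ ((if X.Flat (ang M 0) i ∧ (X.v i).ty = 2 then 4 * mm else 0 : ℕ) : ℤ)
          + ((if X.Flat (ang M 0) i then 0 else X.K i : ℕ) : ℤ) := by
      intro i
      have h2 : (∑ j ∈ Finset.range (X.K i),
          (if (X.s i j).k = 0 then (if (X.v i).ty = 2 then (1 : ℤ) else 0) else 0))
          ≤ ∑ j ∈ Finset.range (X.K i), (if (X.v i).ty = 2 then (1 : ℤ) else 0) := by
        refine Finset.sum_le_sum fun j _ => ?_
        split_ifs <;> norm_num
      refine h2.trans ?_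
      rw [Finset.sum_const, Finset.card_range, nsmul_eq_mul]
      by_cases hi : X.Flat (ang M 0) i
      · by_cases ht : (X.v i).ty = 2
        · have h3 := (hK ⟨i, hi, ht⟩).1
          have h4 := hmm (X.v i).J
          simp only [hi, ht, if_true, and_self]
          rw [h3]
          push_cast
          have : (lb M (X.v i).J : ℤ) ≤ mm := by exact_mod_cast h4
          linarith
        · simp [hi, ht]
      · by_cases ht : (X.v i).ty = 2
        · simp [hi, ht]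
        · simp [hi, ht]
    refine (Finset.sum_le_sum fun i _ => h1 i).trans ?_
    rw [Finset.sum_add_distrib]
    have h5 : (∑ i, ((if X.Flat (ang M 0) i ∧ (X.v i).ty = 2 then 4 * mm else 0 : ℕ) : ℤ))
        = ((4 * mm * Fintype.card Om : ℕ) : ℤ) := by
      rw [← Nat.cast_sum]
      congr 1
      rw [← Finset.sum_filter, Finset.sum_const, Fintype.card_subtype, smul_eq_mul, mul_comm]
    rw [h5]
    have h6 : (∑ i, ((if X.Flat (ang M 0) i then 0 else X.K i : ℕ) : ℤ))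
        ≤ ((C * l.length : ℕ) : ℤ) := by
      rw [← Nat.cast_sum]
      exact_mod_cast hnf
    push_cast at h6 ⊢
    linarith
  have hn' : n ≤ 4 * mm * Fintype.card Om + C * l.length := by exact_mod_cast hn
  have hlen : 1 ≤ l.length := List.length_pos_iff.2 hl0
  have hO : Fintype.card Om ≤ (C * l.length) ^ 2 := hcardO.trans (Nat.pow_le_pow_left hcardT 2)
  calc n ≤ 4 * mm * Fintype.card Om + C * l.length := hn'
    _ ≤ 4 * mm * (C * l.length) ^ 2 + C * l.length ^ 2 := by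
        apply Nat.add_le_add (Nat.mul_le_mul_left _ hO)
        apply Nat.mul_le_mul_left
        calc l.length = l.length * 1 := (mul_one _).symm
          _ ≤ l.length * l.length := Nat.mul_le_mul_left _ hlen
          _ = l.length ^ 2 := (sq _).symm
    _ = (4 * mm * C ^ 2 + C) * l.length ^ 2 := by ring

end Pool.HE
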