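import Pool.Agent.Work.MP_7084a3_full.InterfaceG

set_option autoImplicit false

/-! # Block ISQA: counting crossings -/

namespace Pool.HE

open Pool.HA

namespace ISQA

section
variable {V : Type} {adj : V → V → Prop} {ang : V → V → V → ℝ}

/-- straight at all interior vertices -/
def SI (adj : V → V → Prop) (ang : V → V → V → ℝ) (L : List V) : Prop :=
  ∀ X p q r Y, L = X ++ p :: q :: r :: Y → Str adj ang q r p

theorem exists_head_split {α : Type} (l : List α) (a : α) :
    ∃ b t, l ++ [a] = b :: t ∧ (l ++ [a]).head? = some b := by
  cases l with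
  | nil => exact ⟨a, [], rfl, rfl⟩
  | cons b t => exact ⟨b, t ++ [a], rfl, rfl⟩

theorem exists_last_split {α : Type} (l : List α) (a : α) :
    ∃ t b, a :: l = t ++ [b] ∧ (a :: l).getLast? = some b := by
  refine ⟨(a :: l).dropLast, (a :: l).getLast (by simp), ?_, ?_⟩
  · rw [List.dropLast_append_getLast]
  · rw [List.getLast?_eq_some_getLast (by simp)]

/-- flags of a closed walk with two corners -/
theorem flagOK_two {v w : V} {A B : List V} (h1 : SI adj ang (v :: A ++ [w]))
    (h2 : SI adj ang (w :: B ++ [v])) :
    FlagOK adj ang ((v, false) :: (A.map (fun x => (x, true)) ++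
      (w, false) :: B.map (fun x => (x, true)))) := by
  intro X q Y hP hq r hr p hp
  cases X with
  | nil =>
    rw [List.nil_append, List.cons.injEq] at hP
    rw [← hP.1] at hq
    exact absurd hq (by simp)
  | cons x0 X' =>
    rw [List.cons_append, List.cons.injEq] at hP
    obtain ⟨h0, hP⟩ := hP
    subst h0
    rcases List.append_eq_append_iff.1 hP with ⟨a', ha, hb⟩ | ⟨c', hc, hd⟩
    · -- `X' = A' ++ a'`, `(w, false) :: B' = a' ++ q :: Y`
      cases a' with
      | nil =>
        rw [List.nil_append, List.cons.injEq] at hb
        rw [← hb.1] at hq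
        exact absurd hq (by simp)
      | cons y0 a'' =>
        rw [List.cons_append, List.cons.injEq] at hb
        obtain ⟨h0, hb⟩ := hb
        subst h0
        obtain ⟨b1, B2, hB, hb1, hb2⟩ := List.map_eq_append_iff.1 hb
        obtain ⟨b3, B3, hB3, hb3, hb4⟩ := List.map_eq_cons_iff.1 hb2
        have hr1 : r.1 = ((B3 ++ [v]).head?.getD v) := by
          rw [← hb4] at hr
          cases B3 with
          | nil =>
            simp only [List.map_nil, List.nil_append, List.cons_append, List.head?_cons,
              Option.mem_def, Option.some.injEq] at hr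
            rw [← hr]; rfl
          | cons b B3 =>
            simp only [List.map_cons, List.cons_append, List.head?_cons,
              Option.mem_def, Option.some.injEq] at hr
            rw [← hr]; rfl
        have hp1 : p.1 = ((w :: b1).getLast?.getD v) := by
          have e : Y ++ (v, false) :: X' = (Y ++ (v, false) :: A.map (fun x => (x, true))) ++
              ((w, false) :: b1.map (fun x => (x, true))) := by
            rw [ha, hb1]; simp
          rw [e, List.getLast?_append_of_ne_nil _ (by simp)] at hp
          have e2 : ((w, false) :: b1.map (fun x => (x, true))).getLast?.map Prod.fst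
              = (w :: b1).getLast? := by
            rw [← List.getLast?_map]
            congr 1
            simp [Function.comp_def]
          rw [← e2, hp]
          rfl
        obtain ⟨r1, R1, hR1, hR2⟩ := exists_head_split B3 v
        obtain ⟨P1, p1, hP1, hP2⟩ := exists_last_split b1 w
        rw [hR2] at hr1
        rw [hP2] at hp1
        have hL : w :: B ++ [v] = P1 ++ p1 :: b3 :: r1 :: R1 := by
          rw [hB, hB3]
          have : w :: (b1 ++ b3 :: B3) ++ [v] = (w :: b1) ++ b3 :: (B3 ++ [v]) := by simp
          rw [this, hR1, hP1]
          simp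
        have := h2 P1 p1 b3 r1 R1 hL
        rw [hr1, hp1, ← hb3]
        exact this
    · cases c' with
      | nil =>
        rw [List.nil_append, List.cons.injEq] at hd
        rw [hd.1] at hq
        exact absurd hq (by simp)
      | cons y0 c'' =>
        rw [List.cons_append, List.cons.injEq] at hd
        obtain ⟨h0, hd⟩ := hd
        subst h0
        obtain ⟨b1, B2, hB, hb1, hb2⟩ := List.map_eq_append_iff.1 hc
        obtain ⟨b3, B3, hB3, hb3, hb4⟩ := List.map_eq_cons_iff.1 hb2
        have hr1 : r.1 = ((B3 ++ [w]).head?.getD v) := by
          rw [hd, ← hb4] at hr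
          cases B3 with
          | nil =>
            simp only [List.map_nil, List.nil_append, List.cons_append, List.head?_cons,
              Option.mem_def, Option.some.injEq] at hr
            rw [← hr]; rfl
          | cons b B3 =>
            simp only [List.map_cons, List.cons_append, List.head?_cons,
              Option.mem_def, Option.some.injEq] at hr
            rw [← hr]; rfl
        have hp1 : p.1 = ((v :: b1).getLast?.getD v) := by
          have e : Y ++ (v, false) :: X' = Y ++ ((v, false) :: b1.map (fun x => (x, true))) := by
            rw [hb1]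
          rw [e, List.getLast?_append_of_ne_nil _ (by simp)] at hp
          have e2 : ((v, false) :: b1.map (fun x => (x, true))).getLast?.map Prod.fst
              = (v :: b1).getLast? := by
            rw [← List.getLast?_map]
            congr 1
            simp [Function.comp_def]
          rw [← e2, hp]
          rfl
        obtain ⟨r1, R1, hR1, hR2⟩ := exists_head_split B3 w
        obtain ⟨P1, p1, hP1, hP2⟩ := exists_last_split b1 v
        rw [hR2] at hr1
        rw [hP2] at hp1
        have hL : v :: A ++ [w] = P1 ++ p1 :: b3 :: r1 :: R1 := by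
          rw [hB, hB3]
          have : v :: (b1 ++ b3 :: B3) ++ [w] = (v :: b1) ++ b3 :: (B3 ++ [w]) := by simp
          rw [this, hR1, hP1]
          simp
        have := h1 P1 p1 b3 r1 R1 hL
        rw [hr1, hp1, ← hb3]
        exact this

/-- a chain which returns to its first vertex is a closed walk -/
theorem CW_of_chain {v : V} {A : List V} (hA : A ≠ []) (h : (v :: A ++ [v]).IsChain adj) :
    CW adj (v :: A) := by
  intro x q y he
  have h1 : v :: A ++ [v] = x ++ q :: (y ++ [v]) := by rw [he]; simp
  obtain ⟨r, R, hR, hR2⟩ := exists_head_split y v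
  rw [h1, hR] at h
  have h2 : adj q r := by
    have := List.IsChain.right_of_append h
    exact (List.isChain_cons_cons.1 this).1
  refine ⟨r, ?_, h2⟩
  cases y with
  | nil =>
    cases x with
    | nil =>
      rw [List.nil_append, List.cons.injEq] at he
      exact absurd he.2 hA
    | cons x0 x' =>
      rw [List.cons_append, List.cons.injEq] at he
      rw [List.nil_append] at hR2
      simp only [List.nil_append, List.head?_cons, Option.mem_def]
      rw [← he.1]
      simpa using hR2
  | cons y0 y' => simpa using hR2

end

section
variable {V I : Type} {adj : V → V → Prop} {ang : V → V → V → ℝ} {vt bt : I → V}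
  {R : I → I → Prop}

theorem chain_adj (hab : ∀ x, adj (vt x) (bt x))
    (hR : ∀ x y, R x y → vt y = bt x ∧ Str adj ang (vt y) (bt y) (vt x) ∧
        Str adj ang (vt y) (vt x) (bt y)) {l : List I} (hl : l.IsChain R) :
    (l.map vt).IsChain adj := by
  rw [List.isChain_map]
  refine hl.imp ?_
  intro a b hab'
  rw [(hR a b hab').1]
  exact hab a

theorem chain_SI
    (hR : ∀ x y, R x y → vt y = bt x ∧ Str adj ang (vt y) (bt y) (vt x) ∧
        Str adj ang (vt y) (vt x) (bt y)) {l : List I} (hl : l.IsChain R) :
    SI adj ang (l.map vt) ∧ SI adj ang (l.map vt).reverse := by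
  have key : ∀ X p q r Y, l.map vt = X ++ p :: q :: r :: Y →
      Str adj ang q r p ∧ Str adj ang q p r := by
    intro X p q r Y h
    obtain ⟨l1, l2, hl1, _, h2⟩ := List.map_eq_append_iff.1 h
    obtain ⟨a, l3, hl3, ha, h3⟩ := List.map_eq_cons_iff.1 h2
    obtain ⟨b, l4, hl4, hb, h4⟩ := List.map_eq_cons_iff.1 h3
    obtain ⟨c, l5, hl5, hc, _⟩ := List.map_eq_cons_iff.1 h4
    rw [hl1, hl3, hl4, hl5] at hl
    have h5 := List.IsChain.right_of_append hl
    rw [List.isChain_cons_cons, List.isChain_cons_cons] at h5
    have h6 := hR a b h5.1
    have h7 := hR b c h5.2.1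
    rw [← h7.1] at h6
    rw [← ha, ← hb, ← hc]
    exact ⟨h6.2.1, h6.2.2⟩
  refine ⟨fun X p q r Y h => (key X p q r Y h).1, fun X p q r Y h => ?_⟩
  have h1 : l.map vt = Y.reverse ++ r :: q :: p :: X.reverse := by
    rw [← List.reverse_reverse (l.map vt), h]
    simp
  exact (key _ _ _ _ _ h1).2

theorem chain_split {l : List I} {x y : I} (hx : l.head? = some x) (hy : l.getLast? = some y)
    (hxy : x ≠ y) : ∃ m, l = x :: m ++ [y] := by
  cases l with
  | nil => simp at hx
  | cons a t =>
    simp only [List.head?_cons, Option.some.injEq] at hx
    subst hx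
    obtain ⟨t', b, h1, h2⟩ := exists_last_split t a
    rw [h2, Option.some.injEq] at hy
    subst hy
    cases t' with
    | nil =>
      simp only [List.nil_append, List.cons.injEq] at h1
      exact absurd h1.1 hxy
    | cons c t'' =>
      rw [List.cons_append, List.cons.injEq] at h1
      refine ⟨t'', ?_⟩
      rw [h1.2]; simp

end

end ISQA

open ISQA in
theorem stmt_ISQA (hCOR : Stmt_COR) (hTRJ : Stmt_TRJ) : Stmt_ISQA := by
  intro V Ab _ adj T ang hT hN hfill I Ω _ _ vt bt R x₀ x₁ hab hR1 hR2 hR3 hx0 hx1 hv hb hz
  -- two corners
  have two : ∀ (v w : V) (A B : List V), (v :: A ++ [w]).IsChain adj →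
      (w :: B ++ [v]).IsChain adj → SI adj ang (v :: A ++ [w]) → SI adj ang (w :: B ++ [v]) →
      ∀ r ∈ (A ++ [w]).head?, ∀ p ∈ (w :: B).getLast?, r = p := by
    intro v w A B h1 h2 h3 h4 r hr p hp
    have hP := flagOK_two h3 h4
    obtain ⟨P, hPdef⟩ : ∃ P : List (V × Bool), P = ((v, false) :: (A.map (fun x => (x, true)) ++
      (w, false) :: B.map (fun x => (x, true)))) := ⟨_, rfl⟩
    rw [← hPdef] at hP
    have hmap : P.map Prod.fst = v :: (A ++ w :: B) := by
      rw [hPdef]; simp [Function.comp_def]
    have hne : P ≠ [] := by rw [hPdef]; simp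
    have hchain : (v :: (A ++ w :: B) ++ [v]).IsChain adj := by
      have e : v :: (A ++ w :: B) ++ [v] = (v :: A ++ [w]) ++ (B ++ [v]) := by simp
      rw [e]
      have h5 : (v :: A ++ [w]).IsChain adj := h1
      rw [List.isChain_append]
      refine ⟨h1, ?_, ?_⟩
      · exact List.IsChain.of_cons (by simpa using h2)
      · intro a ha b hb'
        rw [List.getLast?_append_of_ne_nil _ (by simp)] at ha
        simp only [List.getLast?_singleton, Option.mem_def, Option.some.injEq] at ha
        subst ha
        obtain ⟨c, C, hC1, hC2⟩ := exists_head_split B v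
        rw [hC2, Option.mem_def, Option.some.injEq] at hb'
        subst hb'
        rw [List.cons_append, hC1] at h2
        exact (List.isChain_cons_cons.1 h2).1
    have hcw : CW adj (P.map Prod.fst) := by
      rw [hmap]; exact CW_of_chain (by simp) hchain
    obtain ⟨hc1, hc2⟩ := hCOR V Ab adj T ang hT hN P hne hP (hfill _ hcw)
    have hnns : nns P = 2 := by
      rw [hPdef]
      unfold nns
      simp [List.countP_append, List.countP_map, Function.comp_def]
    have := hc2 hnns [] (v, false) (A.map (fun x => (x, true)) ++
      (w, false) :: B.map (fun x => (x, true))) (by rw [hPdef]; rfl) rfl (r, !(A.isEmpty)) ?_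
      (p, !(B.isEmpty)) ?_
    · exact this
    · rw [List.append_nil]
      cases A with
      | nil =>
        simp only [List.nil_append, List.head?_cons, Option.mem_def, Option.some.injEq] at hr
        subst hr; simp
      | cons a A =>
        simp only [List.cons_append, List.head?_cons, Option.mem_def, Option.some.injEq] at hr
        subst hr; simp
    · rw [List.append_nil, List.getLast?_append_of_ne_nil _ (by simp)]
      rcases List.eq_nil_or_concat B with hB | ⟨B', b, hB⟩
      · subst hB
        simp only [List.getLast?_singleton, Option.mem_def, Option.some.injEq] at hp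
        subst hp; simp
      · subst hB
        rw [List.concat_eq_append, ← List.cons_append, List.getLast?_append_of_ne_nil _ (by simp)]
          at hp
        simp only [List.getLast?_singleton, Option.mem_def, Option.some.injEq] at hp
        subst hp
        rw [List.concat_eq_append, List.map_append, ← List.cons_append,
          List.getLast?_append_of_ne_nil _ (by simp)]
        simp
  -- no cycles
  have hcyc : ∀ l : List I, l.IsChain R → ∀ x ∈ l.head?, ∀ y ∈ l.getLast?, ¬ R y x := by
    intro l hl x hx y hy hyx
    by_cases hxy : x = y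
    · subst hxy
      have h1 := (hR3 x x hyx).1
      have h2 := hab x
      rw [← h1] at h2
      exact hN.irr _ h2
    · obtain ⟨m, hm⟩ := chain_split hx hy hxy
      -- the closed walk `vt x, …, vt y`, all positions flagged
      obtain ⟨P, hPdef⟩ : ∃ P : List (V × Bool), P = l.map (fun z => (vt z, true)) := ⟨_, rfl⟩
      have hne : P ≠ [] := by rw [hPdef, hm]; simp
      have hlx : (l ++ [x]).IsChain R := by
        rw [List.isChain_append]
        refine ⟨hl, by simp, ?_⟩
        intro a ha b hb'
        simp only [List.head?_cons, Option.mem_def, Option.some.injEq] at hb'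
        subst hb'
        rw [Option.mem_def] at ha hy
        rw [ha, Option.some.injEq] at hy
        subst hy
        exact hyx
      have hcw : CW adj (P.map Prod.fst) := by
        have e : P.map Prod.fst = vt x :: (m.map vt ++ [vt y]) := by
          rw [hPdef, hm]; simp [Function.comp_def]
        rw [e]
        refine CW_of_chain (by simp) ?_
        have := chain_adj (adj := adj) (ang := ang) hab hR3 hlx
        rw [hm] at this
        simpa using this
      have hflag : FlagOK adj ang P := by
        intro X q Y hP _ r hr p hp
        rw [hPdef] at hP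
        obtain ⟨l1, l2, hl1, hX, h2⟩ := List.map_eq_append_iff.1 hP
        obtain ⟨b, l3, hl3, hb1, h3⟩ := List.map_eq_cons_iff.1 h2
        subst hX h3
        -- previous and next element in the cyclic order
        have hnext : ∃ c, R b c ∧ r = (vt c, true) := by
          cases l3 with
          | nil =>
            refine ⟨x, ?_, ?_⟩
            · rw [hl1, hl3] at hlx
              have e : l1 ++ [b] ++ [x] = l1 ++ b :: [x] := by simp
              rw [e] at hlx
              exact (List.isChain_cons_cons.1 (List.IsChain.right_of_append hlx)).1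
            · cases l1 with
              | nil =>
                rw [hl1, hl3] at hm
                have := congrArg List.length hm
                simp at this
              | cons d l1 =>
                rw [hl1] at hx
                simp only [List.cons_append, List.head?_cons, Option.mem_def,
                  Option.some.injEq] at hx
                subst hx
                simp only [List.map_nil, List.nil_append, List.map_cons, List.head?_cons,
                  Option.mem_def, Option.some.injEq] at hr
                exact hr.symm
          | cons c l3 =>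
            refine ⟨c, ?_, ?_⟩
            · rw [hl1, hl3] at hl
              exact (List.isChain_cons_cons.1 (List.IsChain.right_of_append hl)).1
            · simp only [List.map_cons, List.cons_append, List.head?_cons,
                  Option.mem_def, Option.some.injEq] at hr
              exact hr.symm
        have hprev : ∃ a, R a b ∧ p = (vt a, true) := by
          rcases List.eq_nil_or_concat l1 with h1 | ⟨l1', a, h1⟩
          · subst h1
            rw [List.nil_append] at hl1
            rw [hl1, hl3] at hx
            simp only [List.head?_cons, Option.mem_def, Option.some.injEq] at hx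
            subst hx
            refine ⟨y, hyx, ?_⟩
            rw [List.map_nil, List.append_nil, List.getLast?_map, Option.mem_def,
              Option.map_eq_some_iff] at hp
            obtain ⟨y', hy', hp⟩ := hp
            have : l.getLast? = some y' := by
              rw [hl1, hl3]
              cases l3 with
              | nil => simp at hy'
              | cons c l3 => rw [List.getLast?_cons_cons]; exact hy'
            rw [Option.mem_def, this, Option.some.injEq] at hy
            rw [← hp, hy]
          · rw [List.concat_eq_append] at h1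
            subst h1
            refine ⟨a, ?_, ?_⟩
            · rw [hl1, hl3] at hl
              have e : l1' ++ [a] ++ b :: l3 = l1' ++ a :: b :: l3 := by simp
              rw [e] at hl
              exact (List.isChain_cons_cons.1 (List.IsChain.right_of_append hl)).1
            · rw [List.map_append, ← List.append_assoc,
                List.getLast?_append_of_ne_nil _ (by simp)] at hp
              simp only [List.map_cons, List.map_nil, List.getLast?_singleton, Option.mem_def,
                Option.some.injEq] at hp
              exact hp.symm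
        obtain ⟨c, hbc, hr'⟩ := hnext
        obtain ⟨a, hab', hp'⟩ := hprev
        rw [hr', hp', ← hb1]
        have h6 := (hR3 a b hab').2.1
        rw [← (hR3 b c hbc).1] at h6
        exact h6
      have := (hCOR V Ab adj T ang hT hN P hne hflag (hfill _ hcw)).1
      have h0 : nns P = 0 := by
        rw [hPdef]
        unfold nns
        simp [List.countP_map, Function.comp_def]
      omega
  obtain ⟨f, hf1, hf2⟩ := hTRJ I R hR1 hR2 hcyc
  -- the two crossing cases
  have caseA : ∀ (o o' : Ω) (l0 l1 : List I), l0.IsChain R → l1.IsChain R →
      l0.head? = some (x₀ o) → l0.getLast? = some (x₀ o') → l1.head? = some (x₁ o) →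
      l1.getLast? = some (x₁ o') → o ≠ o' → False := by
    intro o o' l0 l1 hl0 hl1 e1 e2 e3 e4 hoo
    obtain ⟨m0, hm0⟩ := chain_split e1 e2 (fun h => hoo (hx0 h))
    obtain ⟨m1, hm1⟩ := chain_split e3 e4 (fun h => hoo (hx1 h))
    have c0 := chain_adj (adj := adj) (ang := ang) hab hR3 hl0
    have c1 := chain_adj (adj := adj) (ang := ang) hab hR3 hl1
    have s0 := (chain_SI (adj := adj) (ang := ang) hR3 hl0).1
    have s1 := (chain_SI (adj := adj) (ang := ang) hR3 hl1).2
    have m0e : l0.map vt = vt (x₀ o) :: m0.map vt ++ [vt (x₀ o')] := by rw [hm0]; simp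
    have m1e : (l1.map vt).reverse = vt (x₀ o') :: (m1.map vt).reverse ++ [vt (x₀ o)] := by
      rw [hm1, hv o, hv o']; simp
    rw [m0e] at c0 s0
    have c1r : (l1.map vt).reverse.IsChain adj := by
      rw [List.isChain_reverse]
      exact c1.imp fun a b h => hN.symm _ _ h
    rw [m1e] at c1r s1
    obtain ⟨r, t, hr1, hr2⟩ := exists_head_split m0 (x₀ o')
    obtain ⟨r', t', hr1', hr2'⟩ := exists_head_split m1 (x₁ o')
    have k1 : (m0.map vt ++ [vt (x₀ o')]).head? = some (vt r) := by
      have : m0.map vt ++ [vt (x₀ o')] = (m0 ++ [x₀ o']).map vt := by simp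
      rw [this, hr1]; rfl
    have k2 : (vt (x₀ o') :: (m1.map vt).reverse).getLast? = some (vt r') := by
      have : vt (x₀ o') :: (m1.map vt).reverse = ((m1 ++ [x₁ o']).map vt).reverse := by
        rw [hv o']; simp
      rw [this, hr1']; simp
    have key := two _ _ _ _ c0 c1r s0 s1 _ k1 _ k2
    have q1 : R (x₀ o) r := by
      rw [hm0, List.cons_append, hr1] at hl0
      exact (List.isChain_cons_cons.1 hl0).1
    have q2 : R (x₁ o) r' := by
      rw [hm1, List.cons_append, hr1'] at hl1
      exact (List.isChain_cons_cons.1 hl1).1
    rw [(hR3 _ _ q1).1, (hR3 _ _ q2).1] at key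
    exact hb o key
  have caseB : ∀ (o o' : Ω) (l0 l1 : List I), l0.IsChain R → l1.IsChain R →
      l0.head? = some (x₀ o) → l0.getLast? = some (x₀ o') → l1.head? = some (x₁ o') →
      l1.getLast? = some (x₁ o) → o ≠ o' → False := by
    intro o o' l0 l1 hl0 hl1 e1 e2 e3 e4 hoo
    obtain ⟨m0, hm0⟩ := chain_split e1 e2 (fun h => hoo (hx0 h))
    obtain ⟨m1, hm1⟩ := chain_split e3 e4 (fun h => hoo (hx1 h).symm)
    have c0 := chain_adj (adj := adj) (ang := ang) hab hR3 hl0
    have c1 := chain_adj (adj := adj) (ang := ang) hab hR3 hl1
    have s0 := (chain_SI (adj := adj) (ang := ang) hR3 hl0).1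
    have s1 := (chain_SI (adj := adj) (ang := ang) hR3 hl1).1
    have m0e : l0.map vt = vt (x₀ o) :: m0.map vt ++ [vt (x₀ o')] := by rw [hm0]; simp
    have m1e : l1.map vt = vt (x₀ o') :: m1.map vt ++ [vt (x₀ o)] := by
      rw [hm1, hv o, hv o']; simp
    rw [m0e] at c0 s0
    rw [m1e] at c1 s1
    obtain ⟨r, t, hr1, hr2⟩ := exists_head_split m0 (x₀ o')
    obtain ⟨t', p', hp1', hp2'⟩ := exists_last_split m1 (x₁ o')
    have k1 : (m0.map vt ++ [vt (x₀ o')]).head? = some (vt r) := by
      have : m0.map vt ++ [vt (x₀ o')] = (m0 ++ [x₀ o']).map vt := by simp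
      rw [this, hr1]; rfl
    have k2 : (vt (x₀ o') :: m1.map vt).getLast? = some (vt p') := by
      have : vt (x₀ o') :: m1.map vt = (x₁ o' :: m1).map vt := by
        rw [hv o']; simp
      rw [this, hp1']; simp
    have key := two _ _ _ _ c0 c1 s0 s1 _ k1 _ k2
    have q1 : R (x₀ o) r := by
      rw [hm0, List.cons_append, hr1] at hl0
      exact (List.isChain_cons_cons.1 hl0).1
    have q2 : R p' (x₁ o) := by
      rw [hm1, hp1'] at hl1
      have e : t' ++ [p'] ++ [x₁ o] = t' ++ p' :: [x₁ o] := by simp
      rw [e] at hl1
      exact (List.isChain_cons_cons.1 (List.IsChain.right_of_append hl1)).1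
    rw [(hR3 _ _ q1).1] at key
    exact hz o p' q2 key.symm
  -- injectivity
  have hinj : Function.Injective (fun o : Ω =>
      ((⟨f (x₀ o), hf1 _⟩, ⟨f (x₁ o), hf1 _⟩) :
        {x : I // ∀ y, ¬ R x y} × {x : I // ∀ y, ¬ R x y})) := by
    intro o o' h
    by_contra hoo
    simp only [Prod.mk.injEq, Subtype.mk.injEq] at h
    obtain ⟨l0, hl0, h0⟩ := hf2 _ _ h.1
    obtain ⟨l1, hl1, h1⟩ := hf2 _ _ h.2
    rcases h0 with ⟨a1, a2⟩ | ⟨a1, a2⟩ <;> rcases h1 with ⟨b1, b2⟩ | ⟨b1, b2⟩
    · exact caseA o o' l0 l1 hl0 hl1 a1 a2 b1 b2 hoo
    · exact caseB o o' l0 l1 hl0 hl1 a1 a2 b1 b2 hoo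
    · exact caseB o' o l0 l1 hl0 hl1 a1 a2 b1 b2 (fun h => hoo h.symm)
    · exact caseA o' o l0 l1 hl0 hl1 a1 a2 b1 b2 (fun h => hoo h.symm)
  have hcard := Nat.card_le_card_of_injective _ hinj
  rw [Nat.card_prod, Nat.card_eq_fintype_card] at hcard
  rw [sq]
  exact hcard

end Pool.HE
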