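import Pool.Agent.Work.MP_7084a3_full.InterfaceH

set_option autoImplicit false

namespace Pool.HE

open Pool.HA

theorem stmt_K1 (h7 : Stmt_F7) (h4 : Stmt_F4) (hD : Stmt_DPG) : Stmt_K1 := by
  intro S _ M hM hc z hz
  haveI : Nontrivial S := Finite.one_lt_card_iff_nontrivial.1 (by omega)
  obtain ⟨s, t, hst⟩ := exists_pair_ne S
  obtain ⟨i, hi⟩ := h7 S M hM hc (gen M s) z (rfl_gen s) (fun y _ => hz y)
  obtain ⟨j, hj⟩ := h7 S M hM hc (gen M t) z (rfl_gen t) (fun y _ => hz y)
  by_cases h0 : i = 0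
  · rw [hi, h0, zpow_zero]
  · exfalso
    have e : gen M s = gen M t :=
      (h4 S M hM (gen M s) (rfl_gen s) i h0).1 (gen M t) (rfl_gen t) j (by rw [← hi, hj])
    have h1 : gen M t ∈ par (gen M) ({s} : Finset S) := by
      rw [← e]
      exact gen_mem_par (Finset.mem_singleton_self s)
    have h2 := hD S M hM.ne_zero {s} t h1
    exact hst (Finset.mem_singleton.1 h2).symm

end Pool.HE
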