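import Pool.Agent.Work.MP_7084a3_full.InterfaceE

set_option autoImplicit false

/-! # Block LE: loops in the links, all types together -/

namespace Pool.HE

open Pool.HA

theorem stmt_LE (h0 : Stmt_LE0) (h1 : Stmt_LE1) (h2 : Stmt_LE2) : Stmt_LE := by
  intro S _ _ M hM
  obtain ⟨c0, hc0, H0⟩ := h0 S M hM
  obtain ⟨B, hB⟩ : ∃ B : ℕ, ∀ s t, M s t ≤ B := by
    obtain ⟨B, hB⟩ := (Set.finite_range (fun p : S × S => M p.1 p.2)).bddAbove
    exact ⟨B, fun s t => hB ⟨(s, t), rfl⟩⟩
  have hlb : ∀ J : Finset S, lb M J ≤ B := fun J => Finset.sup_le fun p _ => hB _ _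
  have hc2p : (0 : ℝ) < 1 / (2 * (B + 1) * (4 * (B + 1) + 1)) := by positivity
  refine ⟨min c0 (min (1 / 6) (1 / (2 * (B + 1) * (4 * (B + 1) + 1)))),
    lt_min hc0 (lt_min (by norm_num) hc2p), ?_⟩
  intro v K s hs
  have hKp : (0 : ℝ) ≤ K := Nat.cast_nonneg K
  have hty : v.ty ≤ 2 := v.1.2
  rcases (show v.ty = 0 ∨ v.ty = 1 ∨ v.ty = 2 by omega) with h | h | h
  · rcases H0 v K s h hs with ⟨hK, hsum, hE⟩ | hge
    · left
      refine ⟨?_, hsum, fun _ => hE⟩
      unfold fl
      rw [if_pos h, hK]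
    · right
      have : min c0 (min (1 / 6) (1 / (2 * (B + 1) * (4 * (B + 1) + 1)))) * K ≤ c0 * K :=
        mul_le_mul_of_nonneg_right (min_le_left _ _) hKp
      linarith
  · obtain ⟨hev, h4, hsum⟩ := h1 S M v K s h hs
    rw [hsum]
    rcases Nat.eq_or_lt_of_le h4 with hK | hK
    · left
      refine ⟨?_, ?_, fun h' => ?_⟩
      · unfold fl
        rw [if_neg (by omega), if_pos h, hK]
      · rw [← hK]; norm_num
      · omega
    · right
      have h6 : 6 ≤ K := by
        obtain ⟨k, hk⟩ := hev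
        omega
      have h6' : (6 : ℝ) ≤ K := by exact_mod_cast h6
      have : min c0 (min (1 / 6) (1 / (2 * (B + 1) * (4 * (B + 1) + 1)))) * K ≤ 1 / 6 * K :=
        mul_le_mul_of_nonneg_right ((min_le_right _ _).trans (min_le_left _ _)) hKp
      linarith
  · obtain ⟨hev, h4, hsum⟩ := h2 S M hM.ne_zero v K s h hs
    rw [hsum]
    set m := lb M v.J with hm
    have hm1 : 1 ≤ m := by
      have hne : v.J.Nonempty := by
        rw [← Finset.card_pos]
        have : v.J.card = 2 := h
        omega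
      obtain ⟨a, ha⟩ := hne
      have h5 : M a a ≤ m :=
        Finset.le_sup (f := fun p : S × S => M p.1 p.2) (b := (a, a))
          (Finset.mem_product.2 ⟨ha, ha⟩)
      rw [M.diagonal] at h5
      exact h5
    have hmB : m ≤ B := hlb _
    have hm1' : (1 : ℝ) ≤ m := by exact_mod_cast hm1
    have hmB' : (m : ℝ) ≤ B := by exact_mod_cast hmB
    rcases Nat.eq_or_lt_of_le h4 with hK | hK
    · left
      refine ⟨?_, ?_, fun h' => ?_⟩
      · unfold fl
        rw [if_neg (by omega), if_neg (by omega), hK]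
      · rw [← hK]
        push_cast
        field_simp
        norm_num
      · omega
    · right
      have hK' : 4 * (m : ℝ) + 1 ≤ K := by exact_mod_cast hK
      have e1 : min c0 (min (1 / 6) (1 / (2 * (B + 1) * (4 * (B + 1) + 1)))) * K
          ≤ 1 / (2 * (B + 1) * (4 * (B + 1) + 1)) * K :=
        mul_le_mul_of_nonneg_right ((min_le_right _ _).trans (min_le_right _ _)) hKp
      have e2 : 1 / (2 * ((B : ℝ) + 1) * (4 * (B + 1) + 1)) ≤ 1 / (2 * m * (4 * m + 1)) := by
        refine one_div_le_one_div_of_le (by positivity) ?_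
        refine mul_le_mul (by linarith) (by linarith) (by positivity) (by positivity)
      have e3 := mul_le_mul_of_nonneg_right e2 hKp
      have e4 : 1 / (2 * (m : ℝ) * (4 * m + 1)) * K + 2 ≤ K / (2 * m) := by
        rw [← sub_nonneg]
        have : (K : ℝ) / (2 * m) - (1 / (2 * (m : ℝ) * (4 * m + 1)) * K + 2)
            = 4 * m * (K - (4 * m + 1)) / (2 * m * (4 * m + 1)) := by
          field_simp; ring
        rw [this]
        refine div_nonneg (mul_nonneg (by positivity) (by linarith)) (by positivity)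
      linarith

end Pool.HE
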