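import Pool.Agent.Work.MP_7084a3_full.InterfaceE

set_option autoImplicit false

/-! Block LE0. -/

namespace Pool.HE

open Pool.HA

namespace le0

theorem sum_shift (G : ℕ → ℝ) (L : ℕ) (hG : ∀ i, G (i + L) = G i) :
    ∑ i ∈ Finset.range L, G (i + 1) = ∑ i ∈ Finset.range L, G i := by
  have h1 := Finset.sum_range_succ' G L
  have h2 := Finset.sum_range_succ G L
  have h3 := hG 0
  rw [zero_add] at h3
  linarith

theorem sum_pairs (G : ℕ → ℝ) (n : ℕ) :
    ∑ i ∈ Finset.range (2 * n), G i = ∑ i ∈ Finset.range n, (G (2 * i) + G (2 * i + 1)) := by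
  induction n with
  | zero => simp
  | succ n ih =>
    rw [Finset.sum_range_succ, ← ih, show 2 * (n + 1) = 2 * n + 1 + 1 by ring,
      Finset.sum_range_succ, Finset.sum_range_succ]
    ring

/-- the combinatorial structure of a loop at a type 0 vertex -/
theorem core {S : Type} [DecidableEq S] (M : CoxeterMatrix S) (hM : ∀ s t, M s t ≠ 0)
    (v : Vtx (gen M)) (K : ℕ) (f : ℕ → Stp (Vtx (gen M))) (hv : v.ty = 0)
    (hTL : TLoop Vtx.ad v K f) :
    ∃ (n : ℕ) (σ : ℕ → S), K = 2 * n ∧ 0 < n ∧ (∀ i, σ (i + n) = σ i) ∧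
      (∀ i, σ i ≠ σ (i + 1)) ∧ (∀ i, σ i ≠ σ (i + 2)) ∧
      (∀ j, ∃ i, (f j).a.J ⊆ {σ i, σ (i + 1)}) ∧
      ∑ j ∈ Finset.range K, ang M 0 v (f j).a (f j).b =
        ∑ i ∈ Finset.range n, (1 - 1 / (M (σ i) (σ (i + 1)) : ℝ)) := by
  obtain ⟨x, hx⟩ := v.exists_mem
  have hL : 0 < K := hTL.pos
  have hT : ∀ i, TStp Vtx.ad v (f i) := hTL.stp
  have f3 := hTL.cmp
  obtain ⟨A, hA⟩ : ∃ A : ℕ → Vtx (gen M), A = fun i => (f i).a := ⟨_, rfl⟩
  have hAb : ∀ i, (f i).b = A (i + 1) := fun i => by rw [hA]; exact (f3 i).1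
  have hAa : ∀ i, (f i).a = A i := fun i => by rw [hA]
  have hAL : ∀ i, A (i + K) = A i := fun i => by simp only [hA, hTL.per]
  have hvA : ∀ i, v.ad (A i) := fun i => by rw [← hAa]; exact (hT i).2.1
  have hAA : ∀ i, (A i).ad (A (i + 1)) := fun i => by rw [← hAa, ← hAb]; exact (hT i).2.2.2
  have hA2 : ∀ i, A i ≠ A (i + 2) := fun i => by
    have := (f3 i).2 (hT i).1 (hT (i + 1)).1
    rw [hAa, hAb] at this
    exact this
  have hty : ∀ i, (A i).ty = 1 ∨ (A i).ty = 2 := fun i => by
    have h1 := Vtx.ad_ty_ne (hvA i)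
    have h2 := (A i).ty_le
    omega
  have hmem : ∀ i, (A i).mem x := fun i => by
    apply Vtx.ad_mem (hvA i) _ hx
    rcases hty i with h | h <;> omega
  -- the weights
  obtain ⟨G, hG⟩ : ∃ G : ℕ → ℝ, G = fun j => ang M 0 v (A j) (A (j + 1)) := ⟨_, rfl⟩
  have hGL : ∀ j, G (j + K) = G j := fun j => by
    have e : j + K + 1 = (j + 1) + K := by ring
    simp only [hG, e, hAL]
  have hw : ∑ j ∈ Finset.range K, ang M 0 v (f j).a (f j).b = ∑ i ∈ Finset.range K, G i := by
    refine Finset.sum_congr rfl fun i _ => ?_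
    rw [hAa, hAb, hG]
  -- shift so that the first vertex has type 1
  obtain ⟨d, hd1, hd, hw2⟩ : ∃ d : ℕ, d ≤ 1 ∧ (A d).ty = 1 ∧
      ∑ i ∈ Finset.range K, G i = ∑ i ∈ Finset.range K, G (i + d) := by
    rcases hty 0 with h | h
    · exact ⟨0, by norm_num, h, by simp⟩
    · refine ⟨1, le_refl _, ?_, (sum_shift G K hGL).symm⟩
      have h1 := Vtx.ad_ty_ne (hAA 0)
      rw [zero_add] at h1
      have h2 := hty 1
      omega
  obtain ⟨B, hB⟩ : ∃ B : ℕ → Vtx (gen M), B = fun i => A (i + d) := ⟨_, rfl⟩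
  have hBL : ∀ i, B (i + K) = B i := fun i => by
    have e : i + K + d = (i + d) + K := by ring
    simp only [hB, e, hAL]
  have hBB : ∀ i, (B i).ad (B (i + 1)) := fun i => by
    have e : i + 1 + d = (i + d) + 1 := by ring
    simp only [hB, e]; exact hAA _
  have hB2 : ∀ i, B i ≠ B (i + 2) := fun i => by
    have e : i + 2 + d = (i + d) + 2 := by ring
    simp only [hB, e]; exact hA2 _
  have hBty : ∀ i, (B i).ty = 1 ∨ (B i).ty = 2 := fun i => by rw [hB]; exact hty _
  have hBmem : ∀ i, (B i).mem x := fun i => by rw [hB]; exact hmem _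
  have hB0 : (B 0).ty = 1 := by rw [hB]; simpa using hd
  have hodd : ∀ i, (B (2 * i)).ty = 1 ∧ (B (2 * i + 1)).ty = 2 := by
    intro i
    induction i with
    | zero =>
      refine ⟨by simpa using hB0, ?_⟩
      have h1 := Vtx.ad_ty_ne (hBB 0)
      have h2 := hBty (0 + 1)
      simp only [Nat.mul_zero] at *
      omega
    | succ i ih =>
      have h1 := Vtx.ad_ty_ne (hBB (2 * i + 1))
      have h2 := hBty (2 * i + 1 + 1)
      have h3 := Vtx.ad_ty_ne (hBB (2 * i + 1 + 1))
      have h4 := hBty (2 * i + 1 + 1 + 1)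
      have e : 2 * (i + 1) = 2 * i + 1 + 1 := by ring
      rw [e]
      omega
  obtain ⟨n, hn⟩ : ∃ n, K = 2 * n := by
    rcases Nat.even_or_odd' K with ⟨n, h | h⟩
    · exact ⟨n, h⟩
    · exfalso
      have h1 := hBL 0
      rw [zero_add, h] at h1
      have h2 := (hodd n).2
      rw [h1, hB0] at h2
      omega
  have hn0 : 0 < n := by omega
  choose s hs using fun i => Vtx.J1 (hodd i).1
  have hs1 : ∀ i, s i ≠ s (i + 1) := by
    intro i he
    apply hB2 (2 * i)
    have e : 2 * i + 2 = 2 * (i + 1) := by ring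
    rw [e]
    exact Vtx.ext_mem (by rw [hs, hs, he]) (hBmem _) (hBmem _)
  have hJ : ∀ i, (B (2 * i + 1)).J = {s i, s (i + 1)} := by
    intro i
    have h1 := Vtx.ad_ss (hBB (2 * i)) (by rw [(hodd i).1, (hodd i).2]; norm_num)
    have h2 := Vtx.ad_ss (Vtx.ad_symm (hBB (2 * i + 1))) (by
      have e : 2 * i + 1 + 1 = 2 * (i + 1) := by ring
      rw [e, (hodd (i + 1)).1, (hodd i).2]; norm_num)
    rw [hs] at h1
    have e : 2 * i + 1 + 1 = 2 * (i + 1) := by ring
    rw [e, hs] at h2
    symm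
    apply Finset.eq_of_subset_of_card_le
    · intro a ha
      rcases Finset.mem_insert.1 ha with h | h
      · rw [h]; exact h1.subset (Finset.mem_singleton_self _)
      · rw [Finset.mem_singleton.1 h]; exact h2.subset (Finset.mem_singleton_self _)
    · have h3 : (B (2 * i + 1)).J.card = 2 := (hodd i).2
      rw [h3, Finset.card_pair (hs1 i)]
  have hs2 : ∀ i, s i ≠ s (i + 2) := by
    intro i he
    apply hB2 (2 * i + 1)
    have e : 2 * i + 1 + 2 = 2 * (i + 1) + 1 := by ring
    rw [e]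
    refine Vtx.ext_mem ?_ (hBmem _) (hBmem _)
    rw [hJ, hJ, show i + 1 + 1 = i + 2 by ring, ← he, Finset.pair_comm]
  have hsn : ∀ i, s (i + n) = s i := by
    intro i
    have h1 := hBL (2 * i)
    have e : 2 * i + K = 2 * (i + n) := by rw [hn]; ring
    rw [e] at h1
    have h2 := hs (i + n)
    rw [h1, hs] at h2
    exact (Finset.singleton_injective h2).symm
  have hang : ∀ (a b : Vtx (gen M)) (i : ℕ), v.J ∪ a.J ∪ b.J = {s i, s (i + 1)} →
      ang M 0 v a b = 1 / 2 - 1 / (2 * (M (s i) (s (i + 1)) : ℝ)) := by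
    intro a b i h
    rw [ang, if_pos hv, h, lb_pair (hs1 i) (hM _ _), sub_zero]
  have hvJ : v.J = ∅ := Vtx.J0 hv
  refine ⟨n, s, hn, hn0, hsn, hs1, hs2, ?_, ?_⟩
  · intro j
    have e1 : (f j).a = B (j + K - d) := by
      rw [hAa, hB]
      have e : j + K - d + d = j + K := by omega
      simp only [e, hAL]
    rw [e1]
    rcases Nat.even_or_odd' (j + K - d) with ⟨i, h | h⟩
    · refine ⟨i, ?_⟩
      rw [h, hs]
      intro a ha
      rw [Finset.mem_singleton.1 ha]
      exact Finset.mem_insert_self _ _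
    · refine ⟨i, ?_⟩
      rw [h, hJ]
  · rw [hw, hw2, hn, sum_pairs (fun i => G (i + d))]
    refine Finset.sum_congr rfl fun i _ => ?_
    have g1 : G (2 * i + d) = 1 / 2 - 1 / (2 * (M (s i) (s (i + 1)) : ℝ)) := by
      have e1 : A (2 * i + d) = B (2 * i) := by rw [hB]
      have e2 : A (2 * i + d + 1) = B (2 * i + 1) := by
        rw [hB]; simp only; congr 1; ring
      simp only [hG, e1, e2]
      apply hang
      rw [hvJ, hs, hJ]
      ext a; simp
    have g2 : G (2 * i + 1 + d) = 1 / 2 - 1 / (2 * (M (s i) (s (i + 1)) : ℝ)) := by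
      have e1 : A (2 * i + 1 + d) = B (2 * i + 1) := by rw [hB]
      have e2 : A (2 * i + 1 + d + 1) = B (2 * (i + 1)) := by
        rw [hB]; simp only; congr 1; ring
      simp only [hG, e1, e2]
      apply hang
      rw [hvJ, hs, hJ]
      ext a; simp
    change G (2 * i + d) + G (2 * i + 1 + d) = _
    rw [g1, g2]
    have hm : (M (s i) (s (i + 1)) : ℝ) ≠ 0 := by exact_mod_cast hM _ _
    field_simp
    ring

/-- the sum of the reciprocals of a triple -/
noncomputable def tq {S : Type} (M : CoxeterMatrix S) (a b c : S) : ℝ :=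
  1 / (M a b : ℝ) + 1 / (M b c : ℝ) + 1 / (M a c : ℝ)

theorem tq_le {S : Type} {M : CoxeterMatrix S} (hM : ETyp M) {a b c : S} (h1 : a ≠ b) (h2 : b ≠ c)
    (h3 : a ≠ c) : tq M a b c ≤ 1 := by
  have h := hM.hyp a b c h1 h2 h3
  have h' : ((1 : ℚ) / (M a b : ℚ) + 1 / (M b c : ℚ) + 1 / (M a c : ℚ) : ℚ) ≤ ((1 : ℚ) : ℝ) := by
    exact_mod_cast h
  unfold tq
  push_cast at h'
  exact h'

/-- two adjacent terms -/
theorem two_terms {S : Type} {M : CoxeterMatrix S} (hM : ETyp M) {a b c : S} (h1 : a ≠ b)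
    (h2 : b ≠ c) (h3 : a ≠ c) : 1 / (M a b : ℝ) + 1 / (M b c : ℝ) ≤ 5 / 6 := by
  have ha := hM.two_le h1
  have hb := hM.two_le h2
  have key : ∀ m : ℕ, 3 ≤ m → 1 / (m : ℝ) ≤ 1 / 3 := by
    intro m hm
    exact one_div_le_one_div_of_le (by norm_num) (by exact_mod_cast hm)
  have key2 : ∀ m : ℕ, 2 ≤ m → 1 / (m : ℝ) ≤ 1 / 2 := by
    intro m hm
    exact one_div_le_one_div_of_le (by norm_num) (by exact_mod_cast hm)
  rcases Nat.lt_or_ge (M a b) 3 with h | h
  · have h4 : M a b = 2 := by omega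
    have h5 : 3 ≤ M b c := by
      have := hM.match (s := b) (t := a) (r := c) h1.symm h2 h3 (by rw [M.symmetric]; exact h4)
      exact this
    have := key2 _ ha
    have := key _ h5
    linarith
  · have := key _ h
    have := key2 _ hb
    linarith

theorem exists_gap {T : Type} [Finite T] (q : T → ℝ) : ∃ c : ℝ, 0 < c ∧ ∀ t, q t < 1 →
    c ≤ 1 - q t := by
  classical
  have := Fintype.ofFinite T
  rcases (Finset.univ.filter (fun t => q t < 1)).eq_empty_or_nonempty with h | h
  · refine ⟨1, one_pos, fun t ht => ?_⟩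
    have : t ∈ (Finset.univ.filter (fun t => q t < 1)) := by simp [ht]
    rw [h] at this
    exact absurd this (Finset.notMem_empty _)
  · obtain ⟨t0, ht0, hmin⟩ := Finset.exists_min_image _ (fun t => 1 - q t) h
    refine ⟨1 - q t0, ?_, fun t ht => hmin t (by simp [ht])⟩
    have := (Finset.mem_filter.1 ht0).2
    linarith

end le0

open le0 in
theorem stmt_LE0 : Stmt_LE0 := by
  intro S _ _ M hM
  obtain ⟨c', hc', hgap⟩ := exists_gap (fun t : S × S × S => tq M t.1 t.2.1 t.2.2)
  refine ⟨min (1 / 24) (c' / 6), lt_min (by norm_num) (by positivity), ?_⟩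
  intro v K f hv hTL
  obtain ⟨n, σ, hK, hn0, hper, hs1, hs2, hJ, hsum⟩ := core M hM.ne_zero v K f hv hTL
  have hn1 : n ≠ 1 := by
    rintro rfl
    exact hs1 0 (hper 0).symm
  have hn2 : n ≠ 2 := by
    rintro rfl
    exact hs2 0 (hper 0).symm
  have hc1 := min_le_left (1 / 24 : ℝ) (c' / 6)
  have hc2 := min_le_right (1 / 24 : ℝ) (c' / 6)
  rcases Nat.lt_or_ge n 4 with h4 | h4
  · have hn3 : n = 3 := by omega
    subst hn3
    have h30 : σ 3 = σ 0 := hper 0
    have h01' : σ 0 ≠ σ 1 := hs1 0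
    have h12' : σ 1 ≠ σ 2 := hs1 1
    have h02' : σ 0 ≠ σ 2 := hs2 0
    obtain ⟨a0, ha0⟩ : ∃ a0, a0 = σ 0 := ⟨_, rfl⟩
    obtain ⟨a1, ha1⟩ : ∃ a1, a1 = σ 1 := ⟨_, rfl⟩
    obtain ⟨a2, ha2⟩ : ∃ a2, a2 = σ 2 := ⟨_, rfl⟩
    have h01 : a0 ≠ a1 := by rw [ha0, ha1]; exact h01'
    have h12 : a1 ≠ a2 := by rw [ha1, ha2]; exact h12'
    have h02 : a0 ≠ a2 := by rw [ha0, ha2]; exact h02'
    have hs3 : ∑ i ∈ Finset.range 3, (1 - 1 / (M (σ i) (σ (i + 1)) : ℝ)) =
        3 - tq M a0 a1 a2 := by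
      rw [Finset.sum_range_succ, Finset.sum_range_succ, Finset.sum_range_succ,
        Finset.sum_range_zero]
      have e3 : σ (2 + 1) = a0 := by rw [ha0]; exact h30
      have e2 : σ (1 + 1) = a2 := ha2.symm
      have e1 : σ (0 + 1) = a1 := ha1.symm
      rw [e3, e2, e1, ← ha0, M.symmetric a2 a0]
      unfold tq
      ring
    have hle := tq_le hM h01 h12 h02
    rcases lt_or_eq_of_le hle with hlt | heq
    · right
      have := hgap (a0, a1, a2) hlt
      simp only at this
      rw [hsum, hs3, hK]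
      push_cast
      linarith
    · left
      refine ⟨by rw [hK], by rw [hsum, hs3, heq]; norm_num, {a0, a1, a2}, ?_, ?_⟩
      · have heqQ : (1 : ℚ) / (M a0 a1 : ℚ) + 1 / (M a1 a2 : ℚ) + 1 / (M a0 a2 : ℚ) = 1 := by
          unfold tq at heq
          have h1 : (((1 : ℚ) / (M a0 a1 : ℚ) + 1 / (M a1 a2 : ℚ) + 1 / (M a0 a2 : ℚ) : ℚ) : ℝ)
              = ((1 : ℚ) : ℝ) := by
            push_cast
            exact heq
          exact Rat.cast_injective h1
        refine ⟨Finset.card_eq_three.2 ⟨_, _, _, h01, h02, h12, rfl⟩, ?_⟩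
        intro a ha b hb c hc hab hbc hac
        have s01 := M.symmetric a1 a0
        have s02 := M.symmetric a2 a0
        have s12 := M.symmetric a2 a1
        clear ha0 ha1 ha2
        simp only [Finset.mem_insert, Finset.mem_singleton] at ha hb hc
        rcases ha with rfl | rfl | rfl <;> rcases hb with rfl | rfl | rfl <;>
          first
          | exact absurd rfl hab
          | (rcases hc with rfl | rfl | rfl <;>
              first
              | exact absurd rfl hbc
              | exact absurd rfl hac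
              | (first
                | linarith
                | (rw [s01]; linarith)
                | (rw [s02]; linarith)
                | (rw [s12]; linarith)
                | (rw [s01, s02]; linarith)
                | (rw [s01, s12]; linarith)
                | (rw [s02, s12]; linarith)
                | (rw [s01, s02, s12]; linarith)))
      · intro j
        obtain ⟨i, hi⟩ := hJ j
        refine hi.trans ?_
        have hmem : ∀ i, σ i ∈ ({a0, a1, a2} : Finset S) := by
          intro i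
          have h1 : ∀ m r : ℕ, σ (r + 3 * m) = σ r := by
            intro m r
            induction m with
            | zero => simp
            | succ m ih =>
              rw [show r + 3 * (m + 1) = (r + 3 * m) + 3 by ring, hper, ih]
          have h2 := h1 (i / 3) (i % 3)
          rw [Nat.mod_add_div] at h2
          rw [h2]
          have h3 : i % 3 = 0 ∨ i % 3 = 1 ∨ i % 3 = 2 := by omega
          rcases h3 with h | h | h
          · rw [h, ← ha0]; simp
          · rw [h, ← ha1]; simp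
          · rw [h, ← ha2]; simp
        intro a ha
        rcases Finset.mem_insert.1 ha with h | h
        · rw [h]; exact hmem _
        · rw [Finset.mem_singleton.1 h]; exact hmem _
  · right
    have h2 : ∑ i ∈ Finset.range n, (1 - 1 / (M (σ (i + 1)) (σ (i + 1 + 1)) : ℝ)) =
        ∑ i ∈ Finset.range n, (1 - 1 / (M (σ i) (σ (i + 1)) : ℝ)) := by
      apply sum_shift (fun i => 1 - 1 / (M (σ i) (σ (i + 1)) : ℝ)) n
      intro i
      have e : i + n + 1 = i + 1 + n := by ring
      simp only [e, hper]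
    have h3 : ∑ i ∈ Finset.range n, ((1 - 1 / (M (σ i) (σ (i + 1)) : ℝ)) +
        (1 - 1 / (M (σ (i + 1)) (σ (i + 1 + 1)) : ℝ))) ≥ ∑ i ∈ Finset.range n, (7 / 6 : ℝ) := by
      apply Finset.sum_le_sum
      intro i _
      have := two_terms hM (hs1 i) (hs1 (i + 1)) (hs2 i)
      linarith
    rw [Finset.sum_add_distrib, h2, Finset.sum_const, Finset.card_range, nsmul_eq_mul] at h3
    rw [hsum, hK]
    push_cast
    have h5 : (4 : ℝ) ≤ n := by exact_mod_cast h4
    nlinarith

end Pool.HE
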