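import Pool.Agent.Work.MP_7084a3_full.InterfaceE

set_option autoImplicit false

/-! # Block LE1: loops at a type 1 vertex -/

namespace Pool.HE

open Pool.HA

theorem stmt_LE1 : Stmt_LE1 := by
  intro S _ M v K s hv hL
  have hty : ∀ j, (s j).a.ty + (s j).b.ty = 2 ∧ (s j).a.ty ≠ (s j).b.ty := by
    intro j
    obtain ⟨-, h1, h2, h3⟩ := hL.stp j
    have a1 := Vtx.ad_ty_ne h1
    have a2 := Vtx.ad_ty_ne h2
    have a3 := Vtx.ad_ty_ne h3
    have b1 := (s j).a.ty_le
    have b2 := (s j).b.ty_le
    omega
  have hnext : ∀ j, (s j).a.ty + (s (j + 1)).a.ty = 2 := by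
    intro j
    rw [← (hL.cmp j).1]
    exact (hty j).1
  have hpar : ∀ j, (Even j → (s j).a.ty = (s 0).a.ty) ∧ (Odd j → (s j).a.ty + (s 0).a.ty = 2) := by
    intro j
    induction j with
    | zero =>
      refine ⟨fun _ => rfl, fun h => ?_⟩
      exact absurd h (by decide)
    | succ j ih =>
      have h1 := hnext j
      refine ⟨fun h => ?_, fun h => ?_⟩
      · have h2 : Odd j := by
          rcases Nat.even_or_odd j with h3 | h3
          · exact absurd h (Nat.not_even_iff_odd.2 h3.add_one)
          · exact h3
        have h3 := ih.2 h2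
        omega
      · have h2 : Even j := by
          rcases Nat.even_or_odd j with h3 | h3
          · exact h3
          · exact absurd h (Nat.not_odd_iff_even.2 h3.add_one)
        have h3 := ih.1 h2
        omega
  have hper0 : s K = s 0 := by
    have h := hL.per 0
    rwa [zero_add] at h
  have heven : Even K := by
    rcases Nat.even_or_odd K with h | h
    · exact h
    · exfalso
      have h1 := (hpar K).2 h
      rw [hper0] at h1
      have h2 := hty 0
      omega
  have h4 : 4 ≤ K := by
    by_contra hlt
    have hpos := hL.pos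
    have hK : K = 2 := by
      obtain ⟨k, hk⟩ := heven
      omega
    subst hK
    have h1 := hL.cmp 1
    have h2 : (1 + 1 : ℕ) = 2 := rfl
    rw [h2, hper0] at h1
    exact (hL.cmp 0).2 (hL.stp 0).1 (hL.stp 1).1 h1.1.symm
  refine ⟨heven, h4, ?_⟩
  have h5 : ∀ j ∈ Finset.range K, ang M 0 v (s j).a (s j).b = 1 / 2 := by
    intro j _
    unfold ang
    rw [if_neg (by omega), if_pos hv]
  rw [Finset.sum_congr rfl h5, Finset.sum_const, Finset.card_range, nsmul_eq_mul]
  ring

end Pool.HE
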