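import Pool.Agent.Work.MP_7084a3_full.InterfaceE

set_option autoImplicit false

/-! Block LE2. -/

namespace Pool.HE

open Pool.HA

namespace LE2Aux

variable {S : Type} [DecidableEq S]

theorem wt_eq {M : CoxeterMatrix S} (hM : ∀ s t, M s t ≠ 0) (ε : ℝ) {v : Vtx (gen M)} {a b : S}
    (hab : a ≠ b) (hv : v.J = {a, b}) {s : Stp (Vtx (gen M))} (hs : TStp Vtx.ad v s) :
    wt (ang M ε) v s = 1 / (2 * (M a b : ℝ)) := by
  obtain ⟨h0, h1, h2, h3⟩ := hs
  have hty : v.ty = 2 := by rw [Vtx.ty_eq, hv, Finset.card_pair hab]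
  have ha : s.a.J ⊆ v.J := by
    have h4 : s.a.ty < v.ty := by
      have := Vtx.ad_ty_ne h1
      have := s.a.ty_le
      omega
    exact (Vtx.ad_ss (Vtx.ad_symm h1) h4).subset
  have hb : s.b.J ⊆ v.J := by
    have h4 : s.b.ty < v.ty := by
      have := Vtx.ad_ty_ne h2
      have := s.b.ty_le
      omega
    exact (Vtx.ad_ss (Vtx.ad_symm h2) h4).subset
  unfold wt ang
  rw [if_pos h0, if_neg (by omega), if_neg (by omega),
    Finset.union_eq_left.2 ha, Finset.union_eq_left.2 hb, hv, lb_pair hab (hM a b)]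

theorem aux {M : CoxeterMatrix S} (hM : ∀ s t, M s t ≠ 0) (ε : ℝ) (v : Vtx (gen M)) :
    ∀ (n : ℕ) (a b : S), a ≠ b → v.J = {a, b} → ∀ ω : List (Stp (Vtx (gen M))), ω.length ≤ n →
    ω ≠ [] → LPath Vtx.ad v ω → (∀ s ∈ ω.head?, s.a.J = {a}) → (∀ s ∈ ω.getLast?, s.b.ty = 1) →
    ∃ (k : ℕ) (y : Art M) (l : List ℤ), l.length = k ∧ (∀ x ∈ l, x ≠ 0) ∧
      (∀ s ∈ ω.head?, s.b.ty = 0 ∧ s.b.mem y ∧ s.a.mem y) ∧
      (∀ s ∈ ω.getLast?, s.a.ty = 0 ∧ s.a.mem (y * altP (gen M b) (gen M a) l) ∧
        s.b.mem (y * altP (gen M b) (gen M a) l) ∧ s.b.J = if Even k then {b} else {a}) ∧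
      wts (ang M ε) v ω = (k + 1 : ℝ) / (M a b : ℝ) := by
  intro n
  induction n with
  | zero =>
    intro a b _ _ ω hn hne
    exact absurd (List.length_eq_zero_iff.1 (Nat.le_zero.1 hn)) hne
  | succ n ih =>
    intro a b hab hv ω hn hne hω hhead hlast
    have hty : v.ty = 2 := by rw [Vtx.ty_eq, hv, Finset.card_pair hab]
    match ω, hne, hn, hω, hhead, hlast with
    | [s1], _, _, hω, hhead, hlast =>
      exfalso
      obtain ⟨h0, h1, h2, h3⟩ := hω.1 s1 (by simp)
      have e1 : s1.a.J = {a} := hhead s1 (by simp)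
      have e2 : s1.b.ty = 1 := hlast s1 (by simp)
      have := Vtx.ad_ty_ne h3
      rw [Vtx.ty_eq s1.a, e1, Finset.card_singleton] at this
      omega
    | s1 :: s2 :: ω', _, hn, hω, hhead, hlast =>
      obtain ⟨hT, hC⟩ := hω
      have hT1 := hT s1 (by simp)
      have hT2 := hT s2 (by simp)
      obtain ⟨k1, a1, b1, c1⟩ := id hT1
      obtain ⟨k2, a2, b2, c2⟩ := id hT2
      rw [List.isChain_cons_cons] at hC
      obtain ⟨⟨hc12, hne12⟩, hC'⟩ := hC
      have hne12 := hne12 k1 k2
      have e1 : s1.a.J = {a} := hhead s1 (by simp)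
      have t1 : s1.a.ty = 1 := by rw [Vtx.ty_eq, e1, Finset.card_singleton]
      have t2 : s1.b.ty = 0 := by
        have q1 := Vtx.ad_ty_ne b1
        have q2 := Vtx.ad_ty_ne c1
        have q3 := s1.b.ty_le
        omega
      have t3 : s2.a.ty = 0 := by rw [← hc12]; exact t2
      have t4 : s2.b.ty = 1 := by
        have q1 := Vtx.ad_ty_ne b2
        have q2 := Vtx.ad_ty_ne c2
        have q3 := s2.b.ty_le
        omega
      obtain ⟨y, hy⟩ := s1.b.exists_mem
      have hy1 : s1.a.mem y := Vtx.ad_mem (Vtx.ad_symm c1) (by omega) hy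
      have hy2 : s2.a.mem y := by rw [← hc12]; exact hy
      have hy3 : s2.b.mem y := Vtx.ad_mem c2 (by omega) hy2
      have e2 : s2.b.J = {b} := by
        obtain ⟨c, hc⟩ := Vtx.J1 t4
        have h4 := (Vtx.ad_ss (Vtx.ad_symm b2) (by omega)).subset
        rw [hc, hv, Finset.singleton_subset_iff, Finset.mem_insert, Finset.mem_singleton] at h4
        rcases h4 with h4 | h4
        · exfalso
          subst h4
          exact hne12 (Vtx.ext_mem (e1.trans hc.symm) hy1 hy3)
        · rw [hc, h4]
      have w1 := wt_eq hM ε hab hv hT1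
      have w2 := wt_eq hM ε hab hv hT2
      have hm : (M a b : ℝ) ≠ 0 := by exact_mod_cast hM a b
      by_cases hne' : ω' = []
      · subst hne'
        refine ⟨0, y, [], rfl, by simp, ?_, ?_, ?_⟩
        · intro s hs
          simp only [List.head?_cons, Option.mem_some_iff] at hs
          subst hs
          exact ⟨t2, hy, hy1⟩
        · intro s hs
          simp only [List.getLast?_cons_cons, List.getLast?_singleton, Option.mem_some_iff] at hs
          subst hs
          simp only [altP, mul_one]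
          exact ⟨t3, hy2, hy3, by simp [e2]⟩
        · simp only [wts, List.map_cons, List.map_nil, List.sum_cons, List.sum_nil, w1, w2]
          field_simp
          push_cast
          ring
      · obtain ⟨s3, ω'', rfl⟩ := List.exists_cons_of_ne_nil hne'
        rw [List.isChain_cons_cons] at hC'
        obtain ⟨⟨hc23, hne23⟩, hC''⟩ := hC'
        have hT3 := hT s3 (by simp)
        have hne23 := hne23 k2 hT3.1
        have hv' : v.J = {b, a} := by rw [hv, Finset.pair_comm]
        have hhead' : ∀ s ∈ (s3 :: ω'').head?, s.a.J = {b} := by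
          intro s hs
          simp only [List.head?_cons, Option.mem_some_iff] at hs
          subst hs
          rw [← hc23]; exact e2
        have hlast' : ∀ s ∈ (s3 :: ω'').getLast?, s.b.ty = 1 := by
          intro s hs
          refine hlast s ?_
          rwa [List.getLast?_cons_cons, List.getLast?_cons_cons]
        obtain ⟨k', y', l', hl', hnz', hh', hL', hw'⟩ := ih b a hab.symm hv' (s3 :: ω'')
          (by simp only [List.length_cons] at hn ⊢; omega) (by simp)
          ⟨fun s hs => hT s (by simp only [List.mem_cons] at hs ⊢; tauto), hC''⟩ hhead' hlast'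
        obtain ⟨t5, m5, m6⟩ := hh' s3 (by simp)
        rw [← hc23] at m6
        obtain ⟨e, he⟩ := (Vtx.mem1 e2 hy3 y').1 m6
        have hez : e ≠ 0 := by
          rintro rfl
          rw [zpow_zero, mul_one] at he
          subst he
          exact hne23 (Vtx.ext_mem ((Vtx.J0 t3).trans (Vtx.J0 t5).symm) hy2 m5)
        have hprod : y * altP (gen M b) (gen M a) (e :: l') =
            y' * altP (gen M a) (gen M b) l' := by
          rw [altP, he, mul_assoc]
        refine ⟨k' + 1, y, e :: l', by simp [hl'], ?_, ?_, ?_, ?_⟩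
        · intro x hx
          rw [List.mem_cons] at hx
          rcases hx with rfl | hx
          · exact hez
          · exact hnz' x hx
        · intro s hs
          simp only [List.head?_cons, Option.mem_some_iff] at hs
          subst hs
          exact ⟨t2, hy, hy1⟩
        · intro s hs
          rw [List.getLast?_cons_cons, List.getLast?_cons_cons] at hs
          obtain ⟨p1, p2, p3, p4⟩ := hL' s hs
          rw [hprod]
          refine ⟨p1, p2, p3, ?_⟩
          rw [p4]
          by_cases hk : Even k'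
          · rw [if_pos hk, if_neg (by rw [Nat.even_add_one]; simpa using hk)]
          · rw [if_neg hk, if_pos (by rw [Nat.even_add_one]; exact hk)]
        · have hsym : (M b a : ℝ) = M a b := by rw [M.symmetric]
          have hw'' : wts (ang M ε) v (s1 :: s2 :: s3 :: ω'') =
              wt (ang M ε) v s1 + (wt (ang M ε) v s2 + wts (ang M ε) v (s3 :: ω'')) := by
            simp [wts]
          rw [hw'', w1, w2, hw', hsym]
          push_cast
          field_simp
          ring

theorem altP_append {G : Type} [Group G] (l : List ℤ) (e : ℤ) : ∀ x y : G,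
    altP x y (l ++ [e]) = altP x y l * (if Even l.length then x else y) ^ e := by
  induction l with
  | nil => intro x y; simp [altP]
  | cons a l ih =>
    intro x y
    simp only [List.cons_append, altP, ih, List.length_cons, Nat.even_add_one]
    by_cases h : Even l.length
    · simp [h, mul_assoc]
    · simp [h, mul_assoc]

/-- the main case: the loop starts at a type 1 vertex -/
theorem main (h2 : Pool.HA.Stmt_DSLG) {M : CoxeterMatrix S} (hM : ∀ s t, M s t ≠ 0)
    (v : Vtx (gen M)) (K : ℕ) (f : ℕ → Stp (Vtx (gen M))) (_hv : v.ty = 2)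
    (hTL : TLoop Vtx.ad v K f) (h01 : (f 0).a.ty = 1) {a b : S} (hab : a ≠ b)
    (ha : (f 0).a.J = {a}) (hJ' : v.J = {a, b}) : 4 * M a b ≤ K := by
  have hK := hTL.pos
  obtain ⟨ω, hω⟩ : ∃ ω : List (Stp (Vtx (gen M))), ω = List.ofFn (fun i : Fin K => f i) := ⟨_, rfl⟩
  have hlen : ω.length = K := by rw [hω]; simp
  have hne : ω ≠ [] := by
    intro h
    rw [h] at hlen
    simp at hlen
    omega
  have hget : ∀ (i : ℕ) (h : i < ω.length), ω[i] = f i := by
    intro i h
    subst hω
    simp
  have hL : LPath Vtx.ad v ω := by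
    refine ⟨?_, ?_⟩
    · intro s hs
      rw [hω, List.mem_ofFn] at hs
      obtain ⟨i, rfl⟩ := hs
      exact hTL.stp _
    · rw [List.isChain_iff_getElem]
      intro i h
      rw [hget, hget]
      exact hTL.cmp i
  have hhead : ω.head? = some (f 0) := by
    rw [List.head?_eq_getElem?, List.getElem?_eq_getElem (by omega), hget]
  have hlast : ω.getLast? = some (f (K - 1)) := by
    rw [List.getLast?_eq_getElem?, List.getElem?_eq_getElem (by omega), hget, hlen]
  have hCz : Cmp (f (K - 1)) (f 0) := by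
    have h1 := hTL.cmp (K - 1)
    have h2 : f (K - 1 + 1) = f 0 := by
      have h3 : K - 1 + 1 = 0 + K := by omega
      rw [h3, hTL.per]
    rw [h2] at h1
    exact h1
  have hT0 := hTL.stp 0
  have hTz := hTL.stp (K - 1)
  obtain ⟨k, y, l, hlk, hl0, hh, hg, hw⟩ := aux hM 0 v ω.length a b hab hJ' ω le_rfl hne hL
    (by intro s hs; rw [hhead] at hs; simp only [Option.mem_some_iff] at hs; subst hs; exact ha)
    (by intro s hs; rw [hlast] at hs; simp only [Option.mem_some_iff] at hs; subst hs
        rw [hCz.1]; exact h01)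
  obtain ⟨hb0, hby, hay⟩ := hh (f 0) (by rw [hhead]; rfl)
  obtain ⟨hza0, hzay, hzby, hzJ⟩ := hg (f (K - 1)) (by rw [hlast]; rfl)
  have hkodd : ¬ Even k := by
    intro hk
    rw [if_pos hk, hCz.1, ha] at hzJ
    exact hab (Finset.singleton_injective hzJ)
  rw [hCz.1] at hzby
  rw [Vtx.mem1 ha hay] at hzby
  obtain ⟨e, he⟩ := hzby
  have he' : altP (gen M b) (gen M a) l = gen M a ^ e := mul_left_cancel he
  have hene : e ≠ 0 := by
    intro h0
    rw [h0, zpow_zero] at he'
    rw [he', mul_one] at hzay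
    apply hCz.2 hTz.1 hT0.1
    exact Vtx.ext_mem (by rw [Vtx.J0 hza0, Vtx.J0 hb0]) hzay hby
  have key := h2 S M hM b a hab.symm (l ++ [-e]) (by simp)
    (by intro c hc
        simp only [List.mem_append, List.mem_singleton] at hc
        rcases hc with hc | rfl
        · exact hl0 c hc
        · simpa using hene)
    (by simp only [List.length_append, List.length_singleton, hlk, Nat.even_add_one]
        exact hkodd)
    (by rw [altP_append, hlk, if_neg hkodd, he']; group)
  simp only [List.length_append, List.length_singleton, hlk] at key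
  rw [M.symmetric] at key
  -- the weight is `K / (2 m)`
  have hw2 : wts (ang M 0) v ω = K * (1 / (2 * (M a b : ℝ))) := by
    have h3 : ∀ x ∈ ω.map (wt (ang M 0) v), x = 1 / (2 * (M a b : ℝ)) := by
      intro x hx
      rw [List.mem_map] at hx
      obtain ⟨s, hs, rfl⟩ := hx
      exact wt_eq hM 0 hab hJ' (hL.1 s hs)
    unfold wts
    rw [List.eq_replicate_of_mem h3, List.sum_replicate, List.length_map, hlen, nsmul_eq_mul]
  have hpos : 0 < (M a b : ℝ) := by
    have := hM a b
    positivity
  rw [hw2] at hw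
  have h4 : (K : ℝ) = 2 * (k + 1) := by
    field_simp at hw
    linarith
  have h5 : K = 2 * (k + 1) := by exact_mod_cast h4
  omega

end LE2Aux

open LE2Aux in
theorem stmt_LE2 (_h1 : Stmt_LK2) (h2 : Pool.HA.Stmt_DSLG) : Stmt_LE2 := by
  intro S _ M hM v K f hv hTL
  have hK := hTL.pos
  obtain ⟨A, hA⟩ : ∃ A : ℕ → Vtx (gen M), A = fun i => (f i).a := ⟨_, rfl⟩
  have hAb : ∀ i, (f i).b = A (i + 1) := fun i => by rw [hA]; exact (hTL.cmp i).1
  have hAa : ∀ i, (f i).a = A i := fun i => by rw [hA]
  have hAL : ∀ i, A (i + K) = A i := fun i => by simp only [hA, hTL.per]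
  have hvA : ∀ i, v.ad (A i) := fun i => by rw [← hAa]; exact (hTL.stp i).2.1
  have hAA : ∀ i, (A i).ad (A (i + 1)) := fun i => by
    rw [← hAa, ← hAb]; exact (hTL.stp i).2.2.2
  have hty : ∀ i, (A i).ty = 0 ∨ (A i).ty = 1 := fun i => by
    have h1 := Vtx.ad_ty_ne (hvA i)
    have h2 := (A i).ty_le
    omega
  have hne : ∀ i, (A i).ty ≠ (A (i + 1)).ty := fun i => Vtx.ad_ty_ne (hAA i)
  -- parity
  have hpar : ∀ i, (A (2 * i)).ty = (A 0).ty ∧ (A (2 * i + 1)).ty ≠ (A 0).ty := by
    intro i
    induction i with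
    | zero => exact ⟨rfl, (hne 0).symm⟩
    | succ i ih =>
      have h1 := hne (2 * i + 1)
      have h2 := hty (2 * i + 1 + 1)
      have h3 := hne (2 * i + 1 + 1)
      have h4 := hty (2 * i + 1 + 1 + 1)
      have h5 := hty (2 * i + 1)
      have h6 := hty 0
      have e : 2 * (i + 1) = 2 * i + 1 + 1 := by ring
      rw [e]
      omega
  have hKe : Even K := by
    rcases Nat.even_or_odd' K with ⟨n, h | h⟩
    · exact ⟨n, by omega⟩
    · exfalso
      have h1 := hAL 0
      rw [zero_add, h] at h1
      exact (hpar n).2 (by rw [h1])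
  obtain ⟨p, q, hpq, hJ⟩ := Vtx.J2 hv
  have hlb : lb M v.J = M p q := by rw [hJ, lb_pair hpq (hM p q)]
  have hw : ∑ j ∈ Finset.range K, ang M 0 v (f j).a (f j).b = K / (2 * (lb M v.J : ℝ)) := by
    have h3 : ∀ j ∈ Finset.range K, ang M 0 v (f j).a (f j).b = 1 / (2 * (M p q : ℝ)) := by
      intro j _
      have h4 := wt_eq hM 0 hpq hJ (hTL.stp j)
      rw [wt, if_pos (hTL.stp j).1] at h4
      exact h4
    rw [Finset.sum_congr rfl h3, Finset.sum_const, Finset.card_range, nsmul_eq_mul, hlb]
    ring
  refine ⟨hKe, ?_, hw⟩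
  -- the case of a loop starting at a type 1 vertex
  have key : ∀ f' : ℕ → Stp (Vtx (gen M)), TLoop Vtx.ad v K f' → (f' 0).a.ty = 1 →
      4 * lb M v.J ≤ K := by
    intro f' hTL' h01
    obtain ⟨a, ha⟩ := Vtx.J1 h01
    have hss : (f' 0).a.J ⊂ v.J := by
      have := Vtx.ad_ss (Vtx.ad_symm (hTL'.stp 0).2.1) (by omega)
      exact this
    have hav : a ∈ v.J := by
      apply hss.subset
      rw [ha]; simp
    obtain ⟨b, hab, hJ'⟩ : ∃ b, a ≠ b ∧ v.J = {a, b} := by
      rw [hJ] at hav
      simp only [Finset.mem_insert, Finset.mem_singleton] at hav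
      rcases hav with rfl | rfl
      · exact ⟨q, hpq, hJ⟩
      · exact ⟨p, hpq.symm, by rw [hJ, Finset.pair_comm]⟩
    have := main h2 hM v K f' hv hTL' h01 hab ha hJ'
    rw [hJ', lb_pair hab (hM a b)]
    exact this
  rcases hty 0 with h | h
  · apply key (fun i => f (i + 1))
    · refine ⟨hK, fun j => ?_, fun j => hTL.stp _, fun j => hTL.cmp _⟩
      have e : j + K + 1 = (j + 1) + K := by ring
      simp only [e, hTL.per]
    · have h1 := hne 0
      have h2 := hty 1
      rw [zero_add] at h1
      change (f (0 + 1)).a.ty = 1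
      rw [hAa, zero_add]
      omega
  · apply key f hTL
    rw [hAa]
    exact h

end Pool.HE
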