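import Pool.Agent.Work.MP_7084a3_full.InterfaceH

set_option autoImplicit false

namespace Pool.HE

open Pool.HA

namespace LK2Aux

variable {S : Type} [DecidableEq S]

theorem wt_eq {M : CoxeterMatrix S} (hM : ETyp M) (ε : ℝ) {v : Vtx (gen M)} {a b : S}
    (hab : a ≠ b) (hv : v.J = {a, b}) {s : Stp (Vtx (gen M))} (hs : TStp Vtx.ad v s) :
    wt (ang M ε) v s = 1 / (2 * (M a b : ℝ)) := by
  obtain ⟨h0, h1, h2, h3⟩ := hs
  have hty : v.ty = 2 := by rw [Vtx.ty_eq, hv, Finset.card_pair hab]
  have ha : s.a.J ⊆ v.J := by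
    have h4 : s.a.ty < v.ty := by
      have := Vtx.ad_ty_ne h1
      have := s.a.ty_le
      omega
    exact (Vtx.ad_ss (Vtx.ad_symm h1) h4).subset
  have hb : s.b.J ⊆ v.J := by
    have h4 : s.b.ty < v.ty := by
      have := Vtx.ad_ty_ne h2
      have := s.b.ty_le
      omega
    exact (Vtx.ad_ss (Vtx.ad_symm h2) h4).subset
  unfold wt ang
  rw [if_pos h0, if_neg (by omega), if_neg (by omega),
    Finset.union_eq_left.2 ha, Finset.union_eq_left.2 hb, hv, lb_pair hab (hM.ne_zero a b)]

theorem aux {M : CoxeterMatrix S} (hM : ETyp M) (ε : ℝ) (v : Vtx (gen M)) :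
    ∀ (n : ℕ) (a b : S), a ≠ b → v.J = {a, b} → ∀ ω : List (Stp (Vtx (gen M))), ω.length ≤ n →
    ω ≠ [] → LPath Vtx.ad v ω → (∀ s ∈ ω.head?, s.a.J = {a}) → (∀ s ∈ ω.getLast?, s.b.ty = 1) →
    ∃ (k : ℕ) (y : Art M) (l : List ℤ), l.length = k ∧ (∀ x ∈ l, x ≠ 0) ∧
      (∀ s ∈ ω.head?, s.b.ty = 0 ∧ s.b.mem y ∧ s.a.mem y) ∧
      (∀ s ∈ ω.getLast?, s.a.ty = 0 ∧ s.a.mem (y * altP (gen M b) (gen M a) l) ∧
        s.b.mem (y * altP (gen M b) (gen M a) l) ∧ s.b.J = if Even k then {b} else {a}) ∧
      wts (ang M ε) v ω = (k + 1 : ℝ) / (M a b : ℝ) := by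
  intro n
  induction n with
  | zero =>
    intro a b _ _ ω hn hne
    exact absurd (List.length_eq_zero_iff.1 (Nat.le_zero.1 hn)) hne
  | succ n ih =>
    intro a b hab hv ω hn hne hω hhead hlast
    have hty : v.ty = 2 := by rw [Vtx.ty_eq, hv, Finset.card_pair hab]
    match ω, hne, hn, hω, hhead, hlast with
    | [s1], _, _, hω, hhead, hlast =>
      exfalso
      obtain ⟨h0, h1, h2, h3⟩ := hω.1 s1 (by simp)
      have e1 : s1.a.J = {a} := hhead s1 (by simp)
      have e2 : s1.b.ty = 1 := hlast s1 (by simp)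
      have := Vtx.ad_ty_ne h3
      rw [Vtx.ty_eq s1.a, e1, Finset.card_singleton] at this
      omega
    | s1 :: s2 :: ω', _, hn, hω, hhead, hlast =>
      obtain ⟨hT, hC⟩ := hω
      have hT1 := hT s1 (by simp)
      have hT2 := hT s2 (by simp)
      obtain ⟨k1, a1, b1, c1⟩ := id hT1
      obtain ⟨k2, a2, b2, c2⟩ := id hT2
      rw [List.isChain_cons_cons] at hC
      obtain ⟨⟨hc12, hne12⟩, hC'⟩ := hC
      have hne12 := hne12 k1 k2
      have e1 : s1.a.J = {a} := hhead s1 (by simp)
      have t1 : s1.a.ty = 1 := by rw [Vtx.ty_eq, e1, Finset.card_singleton]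
      have t2 : s1.b.ty = 0 := by
        have q1 := Vtx.ad_ty_ne b1
        have q2 := Vtx.ad_ty_ne c1
        have q3 := s1.b.ty_le
        omega
      have t3 : s2.a.ty = 0 := by rw [← hc12]; exact t2
      have t4 : s2.b.ty = 1 := by
        have q1 := Vtx.ad_ty_ne b2
        have q2 := Vtx.ad_ty_ne c2
        have q3 := s2.b.ty_le
        omega
      obtain ⟨y, hy⟩ := s1.b.exists_mem
      have hy1 : s1.a.mem y := Vtx.ad_mem (Vtx.ad_symm c1) (by omega) hy
      have hy2 : s2.a.mem y := by rw [← hc12]; exact hy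
      have hy3 : s2.b.mem y := Vtx.ad_mem c2 (by omega) hy2
      have e2 : s2.b.J = {b} := by
        obtain ⟨c, hc⟩ := Vtx.J1 t4
        have h4 := (Vtx.ad_ss (Vtx.ad_symm b2) (by omega)).subset
        rw [hc, hv, Finset.singleton_subset_iff, Finset.mem_insert, Finset.mem_singleton] at h4
        rcases h4 with h4 | h4
        · exfalso
          subst h4
          exact hne12 (Vtx.ext_mem (e1.trans hc.symm) hy1 hy3)
        · rw [hc, h4]
      have w1 := wt_eq hM ε hab hv hT1
      have w2 := wt_eq hM ε hab hv hT2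
      have hm : (M a b : ℝ) ≠ 0 := by exact_mod_cast hM.ne_zero a b
      by_cases hne' : ω' = []
      · subst hne'
        refine ⟨0, y, [], rfl, by simp, ?_, ?_, ?_⟩
        · intro s hs
          simp only [List.head?_cons, Option.mem_some_iff] at hs
          subst hs
          exact ⟨t2, hy, hy1⟩
        · intro s hs
          simp only [List.getLast?_cons_cons, List.getLast?_singleton, Option.mem_some_iff] at hs
          subst hs
          simp only [altP, mul_one]
          exact ⟨t3, hy2, hy3, by simp [e2]⟩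
        · simp only [wts, List.map_cons, List.map_nil, List.sum_cons, List.sum_nil, w1, w2]
          field_simp
          push_cast
          ring
      · obtain ⟨s3, ω'', rfl⟩ := List.exists_cons_of_ne_nil hne'
        rw [List.isChain_cons_cons] at hC'
        obtain ⟨⟨hc23, hne23⟩, hC''⟩ := hC'
        have hT3 := hT s3 (by simp)
        have hne23 := hne23 k2 hT3.1
        have hv' : v.J = {b, a} := by rw [hv, Finset.pair_comm]
        have hhead' : ∀ s ∈ (s3 :: ω'').head?, s.a.J = {b} := by
          intro s hs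
          simp only [List.head?_cons, Option.mem_some_iff] at hs
          subst hs
          rw [← hc23]; exact e2
        have hlast' : ∀ s ∈ (s3 :: ω'').getLast?, s.b.ty = 1 := by
          intro s hs
          refine hlast s ?_
          rwa [List.getLast?_cons_cons, List.getLast?_cons_cons]
        obtain ⟨k', y', l', hl', hnz', hh', hL', hw'⟩ := ih b a hab.symm hv' (s3 :: ω'')
          (by simp only [List.length_cons] at hn ⊢; omega) (by simp)
          ⟨fun s hs => hT s (by simp only [List.mem_cons] at hs ⊢; tauto), hC''⟩ hhead' hlast'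
        obtain ⟨t5, m5, m6⟩ := hh' s3 (by simp)
        rw [← hc23] at m6
        obtain ⟨e, he⟩ := (Vtx.mem1 e2 hy3 y').1 m6
        have hez : e ≠ 0 := by
          rintro rfl
          rw [zpow_zero, mul_one] at he
          subst he
          exact hne23 (Vtx.ext_mem ((Vtx.J0 t3).trans (Vtx.J0 t5).symm) hy2 m5)
        have hprod : y * altP (gen M b) (gen M a) (e :: l') =
            y' * altP (gen M a) (gen M b) l' := by
          rw [altP, he, mul_assoc]
        refine ⟨k' + 1, y, e :: l', by simp [hl'], ?_, ?_, ?_, ?_⟩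
        · intro x hx
          rw [List.mem_cons] at hx
          rcases hx with rfl | hx
          · exact hez
          · exact hnz' x hx
        · intro s hs
          simp only [List.head?_cons, Option.mem_some_iff] at hs
          subst hs
          exact ⟨t2, hy, hy1⟩
        · intro s hs
          rw [List.getLast?_cons_cons, List.getLast?_cons_cons] at hs
          obtain ⟨p1, p2, p3, p4⟩ := hL' s hs
          rw [hprod]
          refine ⟨p1, p2, p3, ?_⟩
          rw [p4]
          by_cases hk : Even k'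
          · rw [if_pos hk, if_neg (by rw [Nat.even_add_one]; simpa using hk)]
          · rw [if_neg hk, if_pos (by rw [Nat.even_add_one]; exact hk)]
        · have hsym : (M b a : ℝ) = M a b := by rw [M.symmetric]
          have hw'' : wts (ang M ε) v (s1 :: s2 :: s3 :: ω'') =
              wt (ang M ε) v s1 + (wt (ang M ε) v s2 + wts (ang M ε) v (s3 :: ω'')) := by
            simp [wts]
          rw [hw'', w1, w2, hw', hsym]
          push_cast
          field_simp
          ring

end LK2Aux

theorem stmt_LK2 : Stmt_LK2 := by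
  intro S _ M hM ε v a b hab hv ω hne hω hh hl
  exact LK2Aux.aux hM ε v ω.length a b hab hv ω le_rfl hne hω hh hl

end Pool.HE
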