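import Pool.Agent.Work.MP_7084a3_full.InterfaceG

/-! # Block LNK (helper17) -/

set_option autoImplicit false

namespace Pool.HE

open Pool.HA

namespace LNKB

variable {V : Type} {adj : V → V → Prop} {ang : V → V → V → ℝ}

theorem wts_nil (v : V) : wts ang v [] = 0 := by simp [wts]

theorem wts_cons (v : V) (s : Stp V) (l : List (Stp V)) :
    wts ang v (s :: l) = wt ang v s + wts ang v l := by simp [wts]

theorem wts_append (v : V) (l l' : List (Stp V)) :
    wts ang v (l ++ l') = wts ang v l + wts ang v l' := by simp [wts]

theorem wt_pos (h : NP0 adj ang) {v : V} {s : Stp V} (hs : TStp adj v s) : 0 < wt ang v s := by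
  unfold wt
  rw [if_pos hs.1]
  exact h.pos _ _ _ hs.2.1 hs.2.2.2 hs.2.2.1

theorem wts_nonneg (h : NP0 adj ang) {v : V} : ∀ {l : List (Stp V)}, (∀ s ∈ l, TStp adj v s) →
    0 ≤ wts ang v l := by
  intro l
  induction l with
  | nil => intro _; rw [wts_nil]
  | cons s l ih =>
    intro hl
    rw [wts_cons]
    have h1 := wt_pos h (hl s List.mem_cons_self)
    have h2 := ih fun t ht => hl t (List.mem_cons_of_mem _ ht)
    linarith

theorem wts_pos (h : NP0 adj ang) {v : V} {l : List (Stp V)} (hne : l ≠ [])
    (hl : ∀ s ∈ l, TStp adj v s) : 0 < wts ang v l := by
  cases l with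
  | nil => exact absurd rfl hne
  | cons s l =>
    rw [wts_cons]
    have h1 := wt_pos h (hl s List.mem_cons_self)
    have h2 := wts_nonneg h (l := l) fun t ht => hl t (List.mem_cons_of_mem _ ht)
    linarith

/-- RED: a nonempty reduced closed link path has weight at least two -/
theorem red (h : NP0 adj ang) (v : V) : ∀ (N : ℕ) (ω : List (Stp V)), ω.length ≤ N → ω ≠ [] →
    LPath adj v ω → ∀ s ∈ ω.head?, ∀ t ∈ ω.getLast?, s.a = t.b → 2 ≤ wts ang v ω := by
  intro N
  induction N with
  | zero =>
    intro ω hN hne
    exact absurd (List.length_eq_zero_iff.1 (Nat.le_zero.1 hN)) hne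
  | succ N ih =>
    intro ω hN hne hω s hs t ht hst
    by_cases hc : Cmp t s
    · refine h.loop v ω hne hω ?_
      intro s' hs' t' ht'
      rw [Option.mem_def] at hs hs' ht ht'
      rw [hs] at ht'
      rw [ht] at hs'
      injection ht' with e1
      injection hs' with e2
      rw [← e1, ← e2]
      exact hc
    · -- the last step is the inverse of the first
      have hba : t.a = s.b := by
        by_contra hcon
        exact hc ⟨hst.symm, fun _ _ => hcon⟩
      cases ω with
      | nil => exact absurd rfl hne
      | cons x l =>
        rw [List.head?_cons, Option.mem_def] at hs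
        injection hs with hs
        subst hs
        rcases List.eq_nil_or_concat l with rfl | ⟨l', y, rfl⟩
        · -- one step
          rw [List.getLast?_singleton, Option.mem_def] at ht
          injection ht with ht
          subst ht
          have h1 := (hω.1 x List.mem_cons_self).2.2.2
          rw [hst] at h1
          exact absurd h1 (h.irr _)
        · rw [List.concat_eq_append] at *
          have hlast : (x :: (l' ++ [y])).getLast? = some y := by
            rw [← List.cons_append, List.getLast?_append]
            simp
          rw [Option.mem_def, hlast] at ht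
          injection ht with ht
          subst ht
          have hch := hω.2
          cases l' with
          | nil =>
            -- two steps
            have h2 : Cmp x y := by
              simpa using hch
            have kx := (hω.1 x List.mem_cons_self).1
            have ky := (hω.1 y (by simp)).1
            exact absurd hst (h2.2 kx ky)
          | cons z l'' =>
            -- remove the first and the last step
            have hω' : LPath adj v (z :: l'') := by
              refine ⟨fun u hu => hω.1 u ?_, ?_⟩
              · rw [List.mem_cons, List.mem_append]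
                exact Or.inr (Or.inl hu)
              · have h3 : ((z :: l'') ++ [y]).IsChain Cmp := by
                  exact (List.isChain_cons.1 hch).2
                exact (List.isChain_append.1 h3).1
            have hxz : x.b = z.a := by
              have h3 := (List.isChain_cons.1 hch).1 z (by simp)
              exact h3.1
            obtain ⟨u, hu⟩ : ∃ u, u ∈ (z :: l'').getLast? := by
              refine ⟨(z :: l'').getLast (List.cons_ne_nil _ _), ?_⟩
              rw [Option.mem_def]
              exact List.getLast?_eq_some_getLast _
            have huy : u.b = y.a := by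
              have h3 : ((z :: l'') ++ [y]).IsChain Cmp := (List.isChain_cons.1 hch).2
              have h4 := (List.isChain_append.1 h3).2.2 u hu y (by simp)
              exact h4.1
            have h5 := ih (z :: l'') (by
              simp only [List.length_cons, List.length_append, List.length_nil] at hN ⊢
              omega) (List.cons_ne_nil _ _) hω' z (by simp) u hu (by rw [← hxz, huy, hba])
            rw [wts_cons, wts_append]
            have h6 := wt_pos h (hω.1 x List.mem_cons_self)
            have h7 := wts_nonneg h (v := v) (l := [y]) fun t ht => hω.1 t (by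
              rw [List.mem_cons, List.mem_append]
              exact Or.inr (Or.inr ht))
            linarith

/-- CAT: two reduced paths which together make a closed path of weight less than two have the same
weight -/
theorem cat (h : NP0 adj ang) (v : V) : ∀ (N : ℕ) (p q : V) (ω₀ ω : List (Stp V)),
    ω₀.length + ω.length ≤ N → LPath adj v ω₀ → LPath adj v ω →
    (∀ s ∈ ω₀.head?, s.a = p) → (∀ s ∈ ω₀.getLast?, s.b = q) →
    (∀ s ∈ ω.head?, s.a = q) → (∀ s ∈ ω.getLast?, s.b = p) → (ω₀ = [] → p = q) → (ω = [] → p = q) →
    wts ang v ω₀ + wts ang v ω < 2 → wts ang v ω₀ = wts ang v ω := by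
  intro N
  induction N with
  | zero =>
    intro p q ω₀ ω hN _ _ _ _ _ _ _ _ _
    have h1 : ω₀ = [] := List.length_eq_zero_iff.1 (by omega)
    have h2 : ω = [] := List.length_eq_zero_iff.1 (by omega)
    rw [h1, h2]
  | succ N ih =>
    intro p q ω₀ ω hN h0 h1 a0 b0 a1 b1 e0 e1 hlt
    rcases List.eq_nil_or_concat ω₀ with rfl | ⟨l₀, s, rfl⟩
    · -- ω is closed
      have hpq := e0 rfl
      by_cases hω : ω = []
      · rw [hω]
      · exfalso
        obtain ⟨x, hx⟩ : ∃ x, x ∈ ω.head? := by
          refine ⟨ω.head hω, ?_⟩
          rw [Option.mem_def]
          exact List.head?_eq_some_head hω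
        obtain ⟨y, hy⟩ : ∃ y, y ∈ ω.getLast? := by
          refine ⟨ω.getLast hω, ?_⟩
          rw [Option.mem_def]
          exact List.getLast?_eq_some_getLast hω
        have h2 := red h v _ ω le_rfl hω h1 x hx y hy (by rw [a1 x hx, b1 y hy, hpq])
        rw [wts_nil] at hlt
        linarith
    · rw [List.concat_eq_append] at *
      cases ω with
      | nil =>
        -- ω₀ is closed
        exfalso
        have hpq := e1 rfl
        have hne : l₀ ++ [s] ≠ [] := by simp
        obtain ⟨x, hx⟩ : ∃ x, x ∈ (l₀ ++ [s]).head? := by
          refine ⟨(l₀ ++ [s]).head hne, ?_⟩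
          rw [Option.mem_def]
          exact List.head?_eq_some_head hne
        obtain ⟨y, hy⟩ : ∃ y, y ∈ (l₀ ++ [s]).getLast? := by
          refine ⟨(l₀ ++ [s]).getLast hne, ?_⟩
          rw [Option.mem_def]
          exact List.getLast?_eq_some_getLast hne
        have h2 := red h v _ (l₀ ++ [s]) le_rfl hne h0 x hx y hy (by rw [a0 x hx, b0 y hy, hpq])
        rw [wts_nil] at hlt
        linarith
      | cons t l =>
        have hs : TStp adj v s := h0.1 s (by simp)
        have ht : TStp adj v t := h1.1 t (by simp)
        have hsb : s.b = q := b0 s (by simp)
        have hta : t.a = q := a1 t (by simp)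
        by_cases hc : s.a = t.b
        · -- inverse steps
          have hw : wt ang v s = wt ang v t := by
            unfold wt
            rw [if_pos hs.1, if_pos ht.1, hsb, hta, hc, h.comm]
          have h0' : LPath adj v l₀ := by
            refine ⟨fun u hu => h0.1 u (List.mem_append_left _ hu), ?_⟩
            exact (List.isChain_append.1 h0.2).1
          have h1' : LPath adj v l := by
            refine ⟨fun u hu => h1.1 u (List.mem_cons_of_mem _ hu), ?_⟩
            exact (List.isChain_cons.1 h1.2).2
          have hb : ∀ u ∈ l₀.getLast?, u.b = s.a := by
            intro u hu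
            exact ((List.isChain_append.1 h0.2).2.2 u hu s (by simp)).1
          have ha : ∀ u ∈ l.head?, u.a = s.a := by
            intro u hu
            rw [hc]
            exact ((List.isChain_cons.1 h1.2).1 u hu).1.symm
          have hh : ∀ u ∈ l₀.head?, u.a = p := by
            intro u hu
            apply a0
            cases l₀ with
            | nil => simp at hu
            | cons z l₀ => simpa using hu
          have hl : ∀ u ∈ l.getLast?, u.b = p := by
            intro u hu
            apply b1
            cases l with
            | nil => simp at hu
            | cons z l => simpa using hu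
          have hr := ih p s.a l₀ l (by
            simp only [List.length_append, List.length_cons, List.length_nil] at hN
            omega) h0' h1' hh hb ha hl (by
              rintro rfl
              exact (a0 s (by simp)).symm) (by
              rintro rfl
              rw [hc]
              exact (b1 t (by simp)).symm) (by
              rw [wts_append, wts_cons, wts_cons, wts_nil] at hlt
              have := wt_pos h hs
              have := wt_pos h ht
              linarith)
          rw [wts_append, wts_cons, wts_cons, wts_nil, hw, hr]
          ring
        · -- reduced closed path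
          exfalso
          have hcl : LPath adj v ((l₀ ++ [s]) ++ (t :: l)) := by
            refine ⟨fun u hu => ?_, ?_⟩
            · rcases List.mem_append.1 hu with hu | hu
              · exact h0.1 u hu
              · exact h1.1 u hu
            · rw [List.isChain_append]
              refine ⟨h0.2, h1.2, ?_⟩
              intro x hx y hy
              rw [List.getLast?_append] at hx
              simp only [List.getLast?_singleton, Option.some_or, Option.mem_def,
                Option.some.injEq] at hx
              simp only [List.head?_cons, Option.mem_def, Option.some.injEq] at hy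
              subst hx hy
              exact ⟨by rw [hsb, hta], fun _ _ => hc⟩
          have hne : (l₀ ++ [s]) ++ (t :: l) ≠ [] := by simp
          have h2 := red h v _ _ le_rfl hne hcl
          have hne0 : l₀ ++ [s] ≠ [] := by simp
          obtain ⟨x, hx⟩ : ∃ x, x ∈ (l₀ ++ [s]).head? := by
            refine ⟨(l₀ ++ [s]).head hne0, ?_⟩
            rw [Option.mem_def]
            exact List.head?_eq_some_head hne0
          obtain ⟨y, hy⟩ : ∃ y, y ∈ (t :: l).getLast? := by
            refine ⟨(t :: l).getLast (List.cons_ne_nil _ _), ?_⟩
            rw [Option.mem_def]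
            exact List.getLast?_eq_some_getLast _
          have hx' : x ∈ ((l₀ ++ [s]) ++ (t :: l)).head? := by
            rw [Option.mem_def] at hx ⊢
            rw [List.head?_append_of_ne_nil _ hne0, hx]
          have hy' : y ∈ ((l₀ ++ [s]) ++ (t :: l)).getLast? := by
            rw [Option.mem_def] at hy ⊢
            rw [List.getLast?_append, hy, Option.some_or]
          have h3 := h2 x hx' y hy' (by rw [a0 x hx, b1 y hy])
          rw [wts_append] at h3
          linarith

/-- the reversed step -/
def rvs (s : Stp V) : Stp V := ⟨s.b, s.a, s.k⟩

theorem rvs_path (h : NP0 adj ang) {v : V} {ω : List (Stp V)} (hω : LPath adj v ω) :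
    LPath adj v (ω.map rvs).reverse := by
  refine ⟨fun s hs => ?_, ?_⟩
  · rw [List.mem_reverse, List.mem_map] at hs
    obtain ⟨t, ht, rfl⟩ := hs
    obtain ⟨h1, h2, h3, h4⟩ := hω.1 t ht
    exact ⟨h1, h3, h2, h.symm _ _ h4⟩
  · rw [List.isChain_reverse, List.isChain_map]
    apply hω.2.imp
    intro s t hst
    refine ⟨hst.1.symm, fun k1 k2 => ?_⟩
    exact fun h' => hst.2 k2 k1 h'.symm

theorem rvs_wts (h : NP0 adj ang) {v : V} {ω : List (Stp V)} :
    wts ang v (ω.map rvs).reverse = wts ang v ω := by
  unfold wts
  rw [List.map_reverse, List.sum_reverse, List.map_map]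
  congr 1
  apply List.map_congr_left
  intro s _
  simp only [Function.comp, wt, rvs]
  rw [h.comm]

/-- the first half of (b) -/
theorem str_of (h : NP0 adj ang) {v : V} {ω : List (Stp V)} (hne : ω ≠ []) (hω : LPath adj v ω)
    {s t : Stp V} (hs : s ∈ ω.head?) (ht : t ∈ ω.getLast?) (hw : wts ang v ω = 1) :
    Str adj ang v s.a t.b := by
  refine ⟨fun hst => ?_, ?_⟩
  · have := red h v _ ω le_rfl hne hω s hs t ht hst
    linarith
  · intro ω' hne' hω' hh hl
    by_contra hcon
    push Not at hcon
    have h1 := cat h v _ s.a t.b ω ω' le_rfl hω hω' (by
      intro x hx
      rw [Option.mem_def] at hx hs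
      rw [hs] at hx
      injection hx with e
      rw [e]) (by
      intro x hx
      rw [Option.mem_def] at hx ht
      rw [ht] at hx
      injection hx with e
      rw [e]) hh hl (fun e => absurd e hne) (fun e => absurd e hne') (by linarith)
    linarith

end LNKB

open LNKB in
theorem stmt_LNK : Stmt_LNK := by
  intro V adj ang h v ω hne hω s hs t ht
  refine ⟨fun hlt hst => ?_, fun hw => ⟨str_of h hne hω hs ht hw, ?_⟩⟩
  · have := red h v _ ω le_rfl hne hω s hs t ht hst
    linarith
  · have h1 := str_of h (ω := (ω.map rvs).reverse) (s := rvs t) (t := rvs s) (by simpa using hne)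
      (rvs_path h hω) (by
        rw [Option.mem_def] at ht ⊢
        rw [List.head?_reverse, List.getLast?_map, ht, Option.map_some]) (by
        rw [Option.mem_def] at hs ⊢
        rw [List.getLast?_reverse, List.head?_map, hs, Option.map_some]) (by rw [rvs_wts h, hw])
    exact h1

end Pool.HE
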