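import Pool.Agent.Work.MP_7084a3_full.InterfaceH

set_option autoImplicit false
set_option linter.unusedSectionVars false

/-! # Block MONO (helper79): the conclusion for Coxeter groups -/

namespace Pool.HE.MONO

open Pool.HA

open CoxeterSystem

section

variable {S S' : Type} [Fintype S] [DecidableEq S] [Fintype S'] [DecidableEq S']

/-- the linear map `bs c ↦ γ c` -/
noncomputable def fm (γ : S → (S' → ℝ)) (v : S → ℝ) : S' → ℝ := ∑ d, v d • γ d

theorem fm_bs (γ : S → (S' → ℝ)) (s : S) : fm γ (bs s) = γ s := by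
  unfold fm bs
  rw [Finset.sum_eq_single s]
  · simp
  · intro b _ hb
    rw [Pi.single_eq_of_ne hb, zero_smul]
  · intro h; exact absurd (Finset.mem_univ s) h

theorem fm_add (γ : S → (S' → ℝ)) (v w : S → ℝ) : fm γ (v + w) = fm γ v + fm γ w := by
  unfold fm
  rw [← Finset.sum_add_distrib]
  exact Finset.sum_congr rfl fun d _ => by rw [Pi.add_apply, add_smul]

theorem fm_smul (γ : S → (S' → ℝ)) (a : ℝ) (v : S → ℝ) : fm γ (a • v) = a • fm γ v := by
  unfold fm
  rw [Finset.smul_sum]
  exact Finset.sum_congr rfl fun d _ => by rw [Pi.smul_apply, smul_eq_mul, mul_smul]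

theorem fm_sub_smul (γ : S → (S' → ℝ)) (a : ℝ) (v w : S → ℝ) :
    fm γ (v - a • w) = fm γ v - a • fm γ w := by
  have e : v - a • w = v + (-a) • w := by rw [neg_smul, sub_eq_add_neg]
  rw [e, fm_add, fm_smul, neg_smul, ← sub_eq_add_neg]

theorem bf_bs (M : CoxeterMatrix S) (v : S → ℝ) (c : S) :
    bf M v (bs c) = ∑ s, v s * (-Real.cos (Real.pi / M s c)) := by
  unfold bf
  refine Finset.sum_congr rfl fun s _ => ?_
  rw [Finset.sum_eq_single c]
  · simp [bs]
  · intro b _ hb
    simp [bs, Pi.single_eq_of_ne hb]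
  · intro h; exact absurd (Finset.mem_univ c) h

theorem bf_sum {M' : CoxeterMatrix S'}
    (lin : ∀ (a b : ℝ) v v' w, bf M' (a • v + b • v') w = a * bf M' v w + b * bf M' v' w)
    (γ : S → (S' → ℝ)) (v : S → ℝ) (w : S' → ℝ) :
    bf M' (fm γ v) w = ∑ d, v d * bf M' (γ d) w := by
  let L : (S' → ℝ) →ₗ[ℝ] ℝ :=
    { toFun := fun x => bf M' x w
      map_add' := fun x y => by
        have := lin 1 1 x y w
        simpa using this
      map_smul' := fun a x => by
        have := lin a 0 x 0 w
        simpa using this }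
  have h : L (fm γ v) = ∑ d, v d * L (γ d) := by
    unfold fm
    rw [map_sum]
    exact Finset.sum_congr rfl fun d _ => by rw [map_smul, smul_eq_mul]
  exact h

end

end Pool.HE.MONO

namespace Pool.HE

open Pool.HA

open MONO

theorem stmt_MONO (hBFI : Stmt_BFI) (hPOS : Stmt_POS) : Stmt_MONO := by
  intro S S' _ _ _ _ M M' ρ ρ' ψ γ hW hbf hpr
  obtain ⟨sym, lin, bas, inv, rt, rf⟩ := hBFI S' M' ρ' hW.rep'
  have hge : ∀ s t, s ≠ t → 2 ≤ M s t := by
    intro s t hst
    have h2 := hW.hM.ne_zero s t
    have h3 := M.off_diagonal s t hst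
    omega
  have hge' : ∀ s t, s ≠ t → 2 ≤ M' s t := by
    intro s t hst
    have h2 := hW.hM'.ne_zero s t
    have h3 := M'.off_diagonal s t hst
    omega
  have hγγ : ∀ c, bf M' (γ c) (γ c) = 1 := fun c => rt _ (hpr c).1
  -- the form on the roots
  have hbf2 : ∀ c d, bf M' (γ c) (γ d) = -Real.cos (Real.pi / M c d) := by
    intro c d
    by_cases h : c = d
    · subst h
      rw [hγγ, M.diagonal]
      simp
    · exact hbf c d h
  have hiso : ∀ v c, bf M' (fm γ v) (γ c) = bf M v (bs c) := by
    intro v c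
    rw [bf_sum lin, bf_bs]
    exact Finset.sum_congr rfl fun d _ => by rw [hbf2]
  -- equivariance
  have heq : ∀ (w : M.Group) (v : S → ℝ), fm γ (ρ w v) = ρ' (ψ w) (fm γ v) := by
    intro w
    refine M.toCoxeterSystem.simple_induction_left
      (p := fun w => ∀ v, fm γ (ρ w v) = ρ' (ψ w) (fm γ v)) w ?_ ?_
    · intro v
      rw [map_one, map_one, map_one]; rfl
    · intro w s ih v
      have e1 : M.toCoxeterSystem.simple s = M.simple s := rfl
      rw [e1, map_mul, map_mul, map_mul, Module.End.mul_apply, Module.End.mul_apply, ← ih v,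
        hW.rep, fm_sub_smul, fm_bs, rf _ _ (hW.refl s), hiso]
  -- the simple roots of `M'`
  have hroot : ∀ s' : S', ∃ m : S → ℝ, (∀ c, 0 ≤ m c) ∧ bs s' = fm γ m := by
    intro s'
    obtain ⟨w, s, hws⟩ := hW.refl' s'
    have hs' : M'.simple s' = ψ w * ψ (M.simple s) * (ψ w)⁻¹ := by
      have h1 : ψ (ψ.symm (M'.simple s')) = ψ (w * M.simple s * w⁻¹) := by rw [hws]
      rw [MulEquiv.apply_symm_apply, map_mul, map_mul, map_inv] at h1
      exact h1
    obtain ⟨n, hn⟩ : ∃ n, n = ρ w (bs s) := ⟨_, rfl⟩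
    obtain ⟨u, hu⟩ : ∃ u, u = fm γ n := ⟨_, rfl⟩
    have hu1 : u = ρ' (ψ w) (γ s) := by rw [hu, hn, heq, fm_bs]
    have hrfu : IsRf M' ρ' (M'.simple s') u := by
      obtain ⟨w1, s1, h1, h2⟩ := hW.refl s
      refine ⟨ψ w * w1, s1, ?_, ?_⟩
      · rw [hs', h1, mul_inv_rev]
        simp only [mul_assoc]
      · rw [hu1, map_mul, Module.End.mul_apply]
        rcases h2 with h2 | h2
        · left; rw [h2]
        · right; rw [h2, map_neg]
    have hα : bs s' - (2 * bf M' (bs s') (bs s')) • bs s' =
        bs s' - (2 * bf M' (bs s') u) • u := by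
      rw [← hW.rep', ← rf _ _ hrfu]
    have hα1 : bf M' (bs s') (bs s') = 1 := by
      rw [bas, M'.diagonal]; simp
    rw [hα1] at hα
    have hb : bs s' = (bf M' (bs s') u) • u := by
      have h3 : (2 : ℝ) • bs s' = (2 : ℝ) • ((bf M' (bs s') u) • u) := by
        rw [smul_smul]
        have h4 := sub_right_injective hα
        rw [mul_one] at h4
        exact h4
      exact smul_right_injective _ (two_ne_zero) h3
    obtain ⟨b, hbb⟩ : ∃ b, b = bf M' (bs s') u := ⟨_, rfl⟩
    rw [← hbb] at hb
    have hfin : bs s' = fm γ (b • n) := by rw [fm_smul, ← hu]; exact hb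
    refine ⟨b • n, ?_, hfin⟩
    -- signs
    have hsg : (∀ c, 0 ≤ (b • n) c) ∨ (∀ c, (b • n) c ≤ 0) := by
      have hP := hPOS S M ρ hW.hM.ne_zero hW.rep w s
      have hne := M.toCoxeterSystem.length_mul_simple_ne w s
      have e1 : M.toCoxeterSystem.simple s = M.simple s := rfl
      rw [e1] at hne
      have hn' : (∀ c, 0 ≤ n c) ∨ (∀ c, n c ≤ 0) := by
        rw [hn]
        rcases lt_or_gt_of_ne hne with h | h
        · right; exact hP.2 h
        · left; exact hP.1 h
      simp only [Pi.smul_apply, smul_eq_mul]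
      rcases le_total 0 b with h0 | h0 <;> rcases hn' with h1 | h1
      · left; intro c; exact mul_nonneg h0 (h1 c)
      · right; intro c; exact mul_nonpos_of_nonneg_of_nonpos h0 (h1 c)
      · right; intro c; exact mul_nonpos_of_nonpos_of_nonneg h0 (h1 c)
      · left; intro c; exact mul_nonneg_of_nonpos_of_nonpos h0 (h1 c)
    rcases hsg with h | h
    · exact h
    · exfalso
      have h1 : (bs s' : S' → ℝ) s' ≤ 0 := by
        rw [hfin]
        unfold fm
        rw [Finset.sum_apply]
        refine Finset.sum_nonpos fun d _ => ?_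
        rw [Pi.smul_apply, smul_eq_mul]
        exact mul_nonpos_of_nonpos_of_nonneg (h d) ((hpr d).2 s')
      simp [bs] at h1
      linarith
  -- each simple root is one of the `γ c`
  have hκ : ∀ s' : S', ∃ c, γ c = bs s' := by
    intro s'
    obtain ⟨m, hm, hms⟩ := hroot s'
    have hval : ∀ t, (bs s' : S' → ℝ) t = ∑ d, m d * γ d t := by
      intro t
      rw [hms]
      unfold fm
      rw [Finset.sum_apply]
      rfl
    obtain ⟨c, hc⟩ : ∃ c, 0 < m c := by
      by_contra hcon
      push Not at hcon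
      have h1 := hval s'
      have h2 : ∑ d, m d * γ d s' = 0 := by
        refine Finset.sum_eq_zero fun d _ => ?_
        rw [le_antisymm (hcon d) (hm d), zero_mul]
      rw [h2] at h1
      simp [bs] at h1
    refine ⟨c, ?_⟩
    have hz : ∀ t, t ≠ s' → γ c t = 0 := by
      intro t ht
      have h1 := hval t
      have h0 : (bs s' : S' → ℝ) t = 0 := by unfold bs; exact Pi.single_eq_of_ne ht 1
      rw [h0] at h1
      have h2 : m c * γ c t ≤ ∑ d, m d * γ d t :=
        Finset.single_le_sum (f := fun d => m d * γ d t)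
          (fun d _ => mul_nonneg (hm d) ((hpr d).2 t)) (Finset.mem_univ c)
      rw [← h1] at h2
      have h3 := (hpr c).2 t
      nlinarith
    have he : γ c = (γ c s') • bs s' := by
      ext t
      rw [Pi.smul_apply, smul_eq_mul]
      by_cases ht : t = s'
      · subst ht; simp [bs]
      · rw [hz t ht]
        have h0 : (bs s' : S' → ℝ) t = 0 := by unfold bs; exact Pi.single_eq_of_ne ht 1
        rw [h0, mul_zero]
    have h1 := hγγ c
    obtain ⟨g, hg⟩ : ∃ g, g = γ c s' := ⟨_, rfl⟩
    have hg0 : 0 ≤ g := by rw [hg]; exact (hpr c).2 s'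
    rw [← hg] at he
    have hα1 : bf M' (bs s') (bs s') = 1 := by
      rw [bas, M'.diagonal]; simp
    have h2 : bf M' (g • bs s') (g • bs s') = g * (g * bf M' (bs s') (bs s')) := by
      have h3 := lin g 0 (bs s') 0 (g • bs s')
      have h4 := lin g 0 (bs s') 0 (bs s')
      simp only [smul_zero, add_zero, zero_mul] at h3 h4
      rw [h3, sym, h4]
    rw [he, h2, hα1, mul_one] at h1
    have hg1 : g = 1 := by nlinarith
    rw [he, hg1, one_smul]
  choose κ hκ using hκ
  have hbsi : ∀ a b : S', (bs a : S' → ℝ) = bs b → a = b := by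
    intro a b h
    by_contra hne
    have h1 := congrFun h a
    simp [bs, Pi.single_eq_of_ne hne] at h1
  have hinj : Function.Injective κ := by
    intro a b h
    apply hbsi
    rw [← hκ a, ← hκ b, h]
  -- surjectivity
  have hρκ : ∀ s', ρ' (ψ (M.simple (κ s'))) = ρ' (M'.simple s') := by
    intro s'
    refine LinearMap.ext fun x => ?_
    rw [rf _ _ (hW.refl (κ s')), hκ, hW.rep']
  have hsurj : Function.Surjective κ := by
    intro d
    by_contra hcon
    push Not at hcon
    have hlift : ∀ w' : M'.Group, ∃ w : M.Group, ρ' (ψ w) = ρ' w' ∧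
        ∀ v, (ρ w v) d = v d := by
      intro w'
      refine M'.toCoxeterSystem.simple_induction_left
        (p := fun w' => ∃ w : M.Group, ρ' (ψ w) = ρ' w' ∧ ∀ v, (ρ w v) d = v d) w' ?_ ?_
      · exact ⟨1, by rw [map_one], fun v => by rw [map_one]; rfl⟩
      · rintro w' s' ⟨w, h1, h2⟩
        refine ⟨M.simple (κ s') * w, ?_, ?_⟩
        · have e1 : M'.toCoxeterSystem.simple s' = M'.simple s' := rfl
          rw [e1, map_mul, map_mul, map_mul, h1, hρκ]
        · intro v
          rw [map_mul, Module.End.mul_apply, hW.rep, Pi.sub_apply, h2, Pi.smul_apply,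
            smul_eq_mul]
          have h3 : (bs (κ s') : S → ℝ) d = 0 := by
            unfold bs; exact Pi.single_eq_of_ne (fun h => hcon s' h.symm) 1
          rw [h3, mul_zero, sub_zero]
    obtain ⟨w, hw1, hw2⟩ := hlift (ψ (M.simple d))
    have h1 : fm γ (ρ w (bs d)) = -γ d := by
      rw [heq, hw1, ← heq, hW.rep, fm_sub_smul, fm_bs]
      have e : bf M (bs d) (bs d) = 1 := by
        rw [← hiso, fm_bs, hγγ]
      rw [e, mul_one, two_smul]
      abel
    have hd1 : (ρ w (bs d)) d = 1 := by rw [hw2]; simp [bs]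
    have hnn : ∀ c, 0 ≤ (ρ w (bs d)) c := by
      have hP := hPOS S M ρ hW.hM.ne_zero hW.rep w d
      have hne := M.toCoxeterSystem.length_mul_simple_ne w d
      have e1 : M.toCoxeterSystem.simple d = M.simple d := rfl
      rw [e1] at hne
      rcases lt_or_gt_of_ne hne with h | h
      · exfalso
        have := hP.2 h d
        rw [hd1] at this
        linarith
      · exact hP.1 h
    have hγ0 : ∀ t, γ d t = 0 := by
      intro t
      have h2 := congrFun h1 t
      have h3 : 0 ≤ fm γ (ρ w (bs d)) t := by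
        unfold fm
        rw [Finset.sum_apply]
        refine Finset.sum_nonneg fun c _ => ?_
        rw [Pi.smul_apply, smul_eq_mul]
        exact mul_nonneg (hnn c) ((hpr c).2 t)
      rw [h2, Pi.neg_apply] at h3
      have h4 := (hpr d).2 t
      linarith
    have h5 : γ d = 0 := funext hγ0
    have h6 := hγγ d
    rw [h5] at h6
    have h7 := lin 0 0 (0 : S' → ℝ) 0 0
    simp only [smul_zero, add_zero, zero_mul] at h7
    rw [h7] at h6
    exact absurd h6 (by norm_num)
  -- the bijection
  obtain ⟨e, he⟩ : ∃ e : S' ≃ S, ∀ s', e s' = κ s' := ⟨Equiv.ofBijective κ ⟨hinj, hsurj⟩,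
    fun s' => rfl⟩
  refine ⟨e.symm, ?_⟩
  have key : ∀ s' t', M' s' t' = M (κ s') (κ t') := by
    intro s' t'
    by_cases hst : s' = t'
    · subst hst
      rw [M'.diagonal, M.diagonal]
    · have h1 : -Real.cos (Real.pi / M' s' t') = -Real.cos (Real.pi / M (κ s') (κ t')) := by
        rw [← bas, ← hκ s', ← hκ t', hbf2]
      have h2 : Real.cos (Real.pi / M' s' t') = Real.cos (Real.pi / M (κ s') (κ t')) :=
        neg_injective h1
      have h3 := hge' s' t' hst
      have h4 := hge (κ s') (κ t') fun h => hst (hinj h)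
      have h5 : (2 : ℝ) ≤ M' s' t' := by exact_mod_cast h3
      have h6 : (2 : ℝ) ≤ M (κ s') (κ t') := by exact_mod_cast h4
      have hr : ∀ x : ℝ, 2 ≤ x → Real.pi / x ∈ Set.Icc 0 Real.pi := by
        intro x hx
        refine ⟨by positivity, ?_⟩
        rw [div_le_iff₀ (by linarith)]
        nlinarith [Real.pi_pos]
      have h7 := Real.injOn_cos (hr _ h5) (hr _ h6) h2
      have h8 : (M' s' t' : ℝ) = M (κ s') (κ t') := by
        have hpi := Real.pi_ne_zero
        have h9 : (M' s' t' : ℝ) ≠ 0 := by linarith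
        have h10 : (M (κ s') (κ t') : ℝ) ≠ 0 := by linarith
        field_simp at h7
        linarith
      exact_mod_cast h8
  intro s t
  rw [key, ← he, ← he, Equiv.apply_symm_apply, Equiv.apply_symm_apply]

end Pool.HE
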