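import Pool.Agent.Work.MP_7084a3_full.B.H73

set_option autoImplicit false

/-! # NEL1 -/

namespace Pool.HE

open Pool.HA

theorem stmt_NEL1 (hF3 : Stmt_F3) (hF4 : Stmt_F4) (hF5 : Stmt_F5) (hF7 : Stmt_F7)
    (hRFU : Stmt_RFU) (hDWNC : Stmt_DWNC) (hDCEN : Stmt_DCEN) : Stmt_NEL1 := by
  classical
  intro S S' _ _ M M' hM hM' hS' φ s t hst hm hN
  obtain ⟨u, hJ, hu1⟩ := h73_exists_u (M := M) s t
  have hJ' : u.J = {s, t} := by ext a; simp [hJ a]
  have hfix := h73_fix_J hJ hu1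
  obtain ⟨hW1, hW2⟩ := hDWNC S M hM.ne_zero s t hst hm
  obtain ⟨w, hw⟩ : ∃ w, w = gen M s * (gen M t)⁻¹ := ⟨_, rfl⟩
  obtain ⟨z, hz⟩ : ∃ z, z = zz M s t := ⟨_, rfl⟩
  have hwu : w • u = u := by
    rw [hfix, hw]
    exact Subgroup.mul_mem _ (left_mem_pr s t) (Subgroup.inv_mem _ (right_mem_pr s t))
  have hzu : z • u = u := by rw [hfix, hz]; exact h73_zz_mem s t
  have hzc : ∀ h : Art M, h • u = u → Commute z h := by
    intro h hh
    rw [hfix] at hh
    rw [hz]
    exact hDCEN S M hM.ne_zero s t hst h hh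
  have hzw : Commute z w := hzc w hwu
  rw [← hz] at hN
  rw [← hw] at hW1 hW2
  rw [← hw, ← hz]
  refine ⟨(hzw.map φ).symm, ?_⟩
  intro α β hαβ v' hv'
  have hα : α ≠ 0 := by
    rintro rfl
    have hβ : β ≠ 0 := by simpa using hαβ
    exact hN β hβ v' (by simpa using hv')
  obtain ⟨e, he⟩ : ∃ e, e = w ^ α * z ^ β := ⟨_, rfl⟩
  have hφe : φ e = φ w ^ α * φ z ^ β := by rw [he, map_mul, map_zpow, map_zpow]
  rw [← hφe] at hv'
  have heu : e • u = u := by
    rw [he]; exact h73_fix_mul (h73_fix_zpow hwu α) (h73_fix_zpow hzu β)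
  have he1 : e ≠ 1 := by
    intro h
    apply hα
    apply hW1
    intro h' hh'
    rw [he] at h
    have h1 : w ^ α = (z ^ β)⁻¹ := eq_inv_of_mul_eq_one_left h
    rw [h1]
    exact ((hzc h' (by rw [hfix]; exact hh')).zpow_left β).inv_left
  have hwe : Commute w e := by
    rw [he]
    exact ((Commute.refl w).zpow_right α).mul_right (hzw.symm.zpow_right β)
  have hnr : ¬ ∃ r, Rfl (gen M) r ∧ ∃ i : ℤ, e = r ^ i := by
    rintro ⟨r, hr, j, hj⟩
    have hj0 : j ≠ 0 := by
      rintro rfl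
      exact he1 (by simpa using hj)
    have hru : r • u = u := (hF3 S M hM r hr).1 j hj0 u (by rw [← hj]; exact heu)
    have hwr : Commute w r := (hF4 S M hM r hr j hj0).2 w (by rw [← hj]; exact hwe)
    obtain ⟨y, hy, b, hb, hrb⟩ := hRFU S M hM s t hst r u hr hJ' hu1 hru
    exact hW2 y hy b hb (by rw [← hrb]; exact hwr)
  have huniq : ∀ k : ℤ, k ≠ 0 → ∀ w : Vtx (gen M), (e ^ k) • w = w → w = u := by
    rcases hF5 S M hM e u he1 heu with h | h
    · exact absurd h hnr
    · exact h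
  have hce : ∀ y : Art M, Commute y e → Commute z y := fun y hy =>
    hzc y (h73_fix_of_comm heu huniq hy)
  have he1' : φ e ≠ 1 := by
    intro h
    exact he1 (by simpa using h)
  have hze : Commute z e := hzc e heu
  rcases hF5 S' M' hM' (φ e) v' he1' hv' with ⟨r', hr', i, hi⟩ | h
  · have hzr : ∀ y', Commute y' r' → Commute (φ z) y' := by
      intro y' hy'
      have h1 : Commute y' (φ e) := by rw [hi]; exact hy'.zpow_right i
      have h2 : Commute (φ.symm y') e := by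
        have := h1.map φ.symm
        simpa using this
      have h3 := (hce _ h2).map φ
      simpa using h3
    obtain ⟨l, hl⟩ := hF7 S' M' hM' hS' r' (φ z) hr' hzr
    obtain ⟨x, -, hx⟩ := hr'.exists_fix
    refine hN 1 one_ne_zero x ?_
    rw [zpow_one, hl]
    exact h73_fix_zpow hx l
  · have h1 : φ z • v' = v' := h73_fix_of_comm hv' h (hze.map φ)
    exact hN 1 one_ne_zero v' (by rw [zpow_one]; exact h1)

end Pool.HE
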