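import Pool.Agent.Work.MP_7084a3_full.InterfaceC

/-! # Block NEL2 (helper85) -/

set_option autoImplicit false

namespace Pool.HE

open Pool.HA

namespace NEL2h

theorem FP.symm {S : Type} {M : CoxeterMatrix S} {h x : Art M} (H : FP M h x) : FP M x h := by
  refine ⟨H.1.symm, fun a b hab v => ?_⟩
  have h1 : x ^ a * h ^ b = h ^ b * x ^ a := (H.1.symm.zpow_zpow a b).eq
  rw [h1]
  exact H.2 b a hab.symm v

theorem prj_par {S : Type} {M : CoxeterMatrix S} {π : Art M →* M.Group} (hπ : IsPrj M π)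
    (E : Finset S) {x : Art M} (hx : x ∈ par (gen M) E) :
    π x ∈ Subgroup.closure (M.simple '' (E : Set S)) := by
  have h1 : π x ∈ (par (gen M) E).map π := Subgroup.mem_map_of_mem π hx
  unfold par at h1
  rw [MonoidHom.map_closure, ← Set.image_comp] at h1
  have h2 : (π ∘ gen M) '' (E : Set S) = M.simple '' (E : Set S) := by
    apply Set.image_congr
    intro s _
    exact hπ s
  rwa [h2] at h1

end NEL2h

open NEL2h in
theorem stmt_NEL2 (hNEL1 : Stmt_NEL1) (hT5 : Stmt_T5) (hSTC : Stmt_STC) (hPRJ : Stmt_PRJ)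
    (hGREP : Pool.HA.Stmt_GREP) (hORD : Pool.HA.Stmt_ORD) (hCRY : Stmt_CRY)
    (hDCEN : Pool.HA.Stmt_DCEN) : Stmt_NEL2 := by
  classical
  intro S S' _ _ M M' hM hM' hc' φ ψ hψ hψπ s t hst hm hnf
  haveI : Fintype S := Fintype.ofFinite S
  haveI : Fintype S' := Fintype.ofFinite S'
  have hFP := hNEL1 S S' M M' hM hM' hc' φ s t hst hm hnf
  obtain ⟨E, y, k, hE, hk, -, hz⟩ := hT5 S' M' hM' _ _ hFP
  have hcs : Commute (φ (gen M s)) (φ (zz M s t)) := by
    have := hDCEN S M hM.ne_zero s t hst (gen M s) (left_mem_pr s t)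
    exact (this.map φ.toMonoidHom).symm
  have hct : Commute (φ (gen M t)) (φ (zz M s t)) := by
    have := hDCEN S M hM.ne_zero s t hst (gen M t) (right_mem_pr s t)
    exact (this.map φ.toMonoidHom).symm
  have h1 := hSTC S' M' hM' _ _ (FP.symm hFP) E y k hk hz _ hcs
  have h2 := hSTC S' M' hM' _ _ (FP.symm hFP) E y k hk hz _ hct
  obtain ⟨π, hπ, -⟩ := hPRJ S M hM.ne_zero
  obtain ⟨π', hπ', -⟩ := hPRJ S' M' hM'.ne_zero
  obtain ⟨ρ, hρ⟩ := hGREP S M hM.ne_zero
  obtain ⟨ρ', hρ'⟩ := hGREP S' M' hM'.ne_zero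
  have e := hψπ π π' hπ hπ'
  have es : ψ (M.simple s) = π' (φ (gen M s)) := by rw [← hπ s, e]
  have et : ψ (M.simple t) = π' (φ (gen M t)) := by rw [← hπ t, e]
  have h3 : (π' y)⁻¹ * (ψ (M.simple s) * ψ (M.simple t)) * π' y ∈
      Subgroup.closure (M'.simple '' (E : Set S')) := by
    have := prj_par hπ' E (mul_mem h1 h2)
    have e2 : π' (y⁻¹ * φ (gen M s) * y * (y⁻¹ * φ (gen M t) * y)) =
        (π' y)⁻¹ * (ψ (M.simple s) * ψ (M.simple t)) * π' y := by
      rw [es, et]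
      simp only [map_mul, map_inv]
      group
    rwa [e2] at this
  obtain ⟨w₁, s₁, hs₁⟩ := hψ s
  obtain ⟨w₂, s₂, hs₂⟩ := hψ t
  have hr1 : IsRf M' ρ' (ψ (M.simple s)) (ρ' w₁ (bs s₁)) := ⟨w₁, s₁, hs₁, Or.inl rfl⟩
  have hr2 : IsRf M' ρ' (ψ (M.simple t)) (ρ' w₂ (bs s₂)) := ⟨w₂, s₂, hs₂, Or.inl rfl⟩
  have hord := hORD S M ρ hM.ne_zero hρ s t
  have hord' : orderOf (ψ (M.simple s) * ψ (M.simple t)) = M s t := by
    rw [← map_mul, ← hord]
    exact orderOf_injective ψ.toMonoidHom ψ.injective _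
  have hfin : ∃ k : ℕ, 0 < k ∧ (ψ (M.simple s) * ψ (M.simple t)) ^ k = 1 :=
    ⟨M s t, by omega, by rw [← hord']; exact pow_orderOf_eq_one _⟩
  rcases hCRY S' M' ρ' hM'.ne_zero hρ' E hE (π' y) _ _ _ _ hr1 hr2 h3 hfin with h4 | h4
  · have h5 := orderOf_dvd_of_pow_eq_one h4
    rw [hord'] at h5
    have h6 := Nat.le_of_dvd (by norm_num) h5
    have : M s t = 3 ∨ M s t = 4 := by omega
    rcases this with h7 | h7
    · left; exact h7
    · right; left; exact h7
  · have h5 := orderOf_dvd_of_pow_eq_one h4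
    rw [hord'] at h5
    have h6 := Nat.le_of_dvd (by norm_num) h5
    have : M s t = 3 ∨ M s t = 4 ∨ M s t = 5 ∨ M s t = 6 := by omega
    rcases this with h7 | h7 | h7 | h7
    · left; exact h7
    · right; left; exact h7
    · rw [h7] at h5; norm_num at h5
    · right; right; exact h7

end Pool.HE
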