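import Pool.Agent.Work.MP_7084a3_full.InterfaceE

set_option autoImplicit false

namespace Pool.HE

open Pool.HA

namespace NPC0aux

theorem lb_mono {S : Type} (M : CoxeterMatrix S) {J K : Finset S} (h : J ⊆ K) :
    lb M J ≤ lb M K :=
  Finset.sup_mono (Finset.product_subset_product h h)

theorem lb_bound {S : Type} [Finite S] (M : CoxeterMatrix S) :
    ∃ B : ℕ, ∀ J : Finset S, lb M J ≤ B := by
  classical
  have := Fintype.ofFinite S
  exact ⟨lb M Finset.univ, fun J => lb_mono M (Finset.subset_univ J)⟩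

/-- the label of a triangle is at least two -/
theorem two_le_lb {S : Type} [DecidableEq S] {M : CoxeterMatrix S} (hM : ETyp M)
    {u v w : Vtx (gen M)} (huv : u.ad v) (hvw : v.ad w) (huw : u.ad w) :
    2 ≤ lb M (u.J ∪ v.J ∪ w.J) := by
  have key : ∀ x : Vtx (gen M), x.ty = 2 → x.J ⊆ u.J ∪ v.J ∪ w.J →
      2 ≤ lb M (u.J ∪ v.J ∪ w.J) := by
    intro x hx hs
    obtain ⟨s, t, hst, hJ⟩ := Vtx.J2 hx
    have := lb_mono M hs
    rw [hJ, lb_pair hst (hM.ne_zero s t)] at this
    exact (hM.two_le hst).trans this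
  rcases Vtx.flag_ty huv hvw huw with h | h | h | h | h | h
  · exact key w h.2.2 (fun i hi => by simp [hi])
  · exact key v h.2.1 (fun i hi => by simp [hi])
  · exact key w h.2.2 (fun i hi => by simp [hi])
  · exact key v h.2.1 (fun i hi => by simp [hi])
  · exact key u h.1 (fun i hi => by simp [hi])
  · exact key u h.1 (fun i hi => by simp [hi])

/-- lower bounds for the angles -/
theorem ang_ge {S : Type} [DecidableEq S] {M : CoxeterMatrix S} (hM : ETyp M) {B : ℕ}
    (hB : ∀ J : Finset S, lb M J ≤ B) {u v w : Vtx (gen M)} (huv : u.ad v) (hvw : v.ad w)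
    (huw : u.ad w) :
    1 / (2 * (B : ℝ)) ≤ ang M 0 u v w ∧ (u.ty ≠ 2 → 1 / 4 ≤ ang M 0 u v w) := by
  have hL := two_le_lb hM huv hvw huw
  have hL' : (2 : ℝ) ≤ (lb M (u.J ∪ v.J ∪ w.J) : ℝ) := by exact_mod_cast hL
  have hLB : (lb M (u.J ∪ v.J ∪ w.J) : ℝ) ≤ B := by exact_mod_cast hB _
  have h3 : (1 : ℝ) / (2 * (lb M (u.J ∪ v.J ∪ w.J) : ℝ)) ≤ 1 / 4 := by
    apply one_div_le_one_div_of_le <;> linarith
  have h4 : (1 : ℝ) / (2 * (B : ℝ)) ≤ 1 / (2 * (lb M (u.J ∪ v.J ∪ w.J) : ℝ)) := by
    apply one_div_le_one_div_of_le <;> linarith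
  unfold ang
  split_ifs with a b
  · exact ⟨by linarith, fun _ => by linarith⟩
  · exact ⟨by linarith, fun _ => by norm_num⟩
  · refine ⟨h4, fun h => absurd ?_ h⟩
    have := u.ty_le
    omega

/-- a closed list of steps as a periodic sequence -/
theorem tloop {V : Type} {adj : V → V → Prop} {v : V} {ω : List (Stp V)} (hne : ω ≠ [])
    (hp : LPath adj v ω) (hc : ∀ s ∈ ω.getLast?, ∀ t ∈ ω.head?, Cmp s t) :
    ∃ s : ℕ → Stp V, TLoop adj v ω.length s ∧ ∀ (ang : V → V → V → ℝ),
      wts ang v ω = ∑ j ∈ Finset.range ω.length, ang v (s j).a (s j).b := by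
  have hpos : 0 < ω.length := List.length_pos_of_ne_nil hne
  have hlt : ∀ j, j % ω.length < ω.length := fun j => Nat.mod_lt j hpos
  refine ⟨fun j => ω[j % ω.length]'(hlt j), ⟨hpos, ?_, ?_, ?_⟩, ?_⟩
  · intro j
    simp only [Nat.add_mod_right]
  · intro j
    exact hp.1 _ (List.getElem_mem _)
  · intro j
    by_cases h : j % ω.length + 1 < ω.length
    · have e : (j + 1) % ω.length = j % ω.length + 1 := by
        rw [Nat.add_mod, Nat.mod_eq_of_lt (show 1 < ω.length by omega), Nat.mod_eq_of_lt h]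
      simp only [e]
      exact List.isChain_iff_getElem.1 hp.2 (j % ω.length) h
    · have h1 : j % ω.length = ω.length - 1 := by
        have := hlt j
        omega
      have e : (j + 1) % ω.length = 0 := by
        rw [← Nat.mod_add_mod, h1, Nat.sub_add_cancel hpos, Nat.mod_self]
      simp only [e, h1]
      apply hc
      · rw [List.getLast?_eq_getElem?, List.getElem?_eq_getElem (by omega)]
        rfl
      · rw [List.head?_eq_getElem?, List.getElem?_eq_getElem hpos]
        rfl
  · intro ang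
    rw [Finset.sum_range]
    have h1 : ∀ j : Fin ω.length,
        ang v (ω[(j : ℕ) % ω.length]'(hlt j)).a (ω[(j : ℕ) % ω.length]'(hlt j)).b
          = wt ang v (ω.get j) := by
      intro j
      have h2 : (ω.get j).k = 0 := (hp.1 _ (List.get_mem ω j)).1
      unfold wt
      rw [if_pos h2]
      simp only [Nat.mod_eq_of_lt j.2, List.get_eq_getElem]
    rw [Finset.sum_congr rfl fun j _ => h1 j]
    unfold wts
    rw [← List.sum_ofFn]
    congr 1
    conv_lhs => rw [← List.ofFn_get ω]
    rw [List.map_ofFn]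
    rfl

end NPC0aux

open NPC0aux

theorem stmt_NPC0 (hLE : Stmt_LE) : Stmt_NPC0 := by
  intro S _ _ M hM
  obtain ⟨B, hB⟩ := lb_bound M
  obtain ⟨c, hc, hL⟩ := hLE S M hM
  refine ⟨?_, 1 / (2 * ((B : ℝ) + 1)), by positivity, ?_⟩
  · refine
      { symm := fun u v h => Vtx.ad_symm h
        irr := fun u => Vtx.ad_irrefl u
        comm := ?_
        pos := ?_
        sum := ?_
        loop := ?_ }
    · intro u v w
      have e : u.J ∪ v.J ∪ w.J = u.J ∪ w.J ∪ v.J := by
        rw [Finset.union_right_comm]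
      unfold ang
      rw [e]
    · intro u v w huv hvw huw
      have hL2 := two_le_lb hM huv hvw huw
      have hB2 := hB (u.J ∪ v.J ∪ w.J)
      have hB0 : (0 : ℝ) < B := by
        have : 0 < B := by omega
        exact_mod_cast this
      exact lt_of_lt_of_le (by positivity) (ang_ge hM hB huv hvw huw).1
    · intro u v w huv hvw huw
      have e1 : v.J ∪ w.J ∪ u.J = u.J ∪ v.J ∪ w.J := by
        rw [Finset.union_comm, ← Finset.union_assoc]
      have e2 : w.J ∪ u.J ∪ v.J = u.J ∪ v.J ∪ w.J := by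
        rw [Finset.union_assoc, Finset.union_comm]
      unfold ang
      rw [e1, e2]
      rcases Vtx.flag_ty huv hvw huw with h | h | h | h | h | h <;> obtain ⟨a, b, c⟩ := h <;>
        simp only [a, b, c] <;> norm_num <;> ring
    · intro v ω hne hp hcl
      obtain ⟨s, hs, hw⟩ := tloop hne hp hcl
      rw [hw]
      rcases hL v ω.length s hs with h | h
      · rw [h.2.1]
      · have : 0 ≤ c * (ω.length : ℝ) := by positivity
        linarith
  · intro u v w huv hvw huw
    have hB' : ∀ J : Finset S, lb M J ≤ B + 1 := fun J => (hB J).trans (Nat.le_succ B)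
    have := ang_ge hM hB' huv hvw huw
    push_cast at this
    exact this

end Pool.HE
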