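import Pool.Agent.Work.MP_7084a3_full.InterfaceC

/-! Block ORDB. -/

set_option autoImplicit false
set_option linter.unusedSectionVars false
set_option linter.unusedVariables false

namespace Pool.HE

open Pool.HA

namespace ORDB

variable {S : Type} [Fintype S] [DecidableEq S] (M : CoxeterMatrix S)

theorem bf_smul_add (hb : ∀ (a b : ℝ) v v' w, bf M (a • v + b • v') w =
    a * bf M v w + b * bf M v' w) (a : ℝ) (v w : S → ℝ) : bf M (a • v) w = a * bf M v w := by
  have h := hb a 0 v v w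
  simpa using h

theorem bf_add (hb : ∀ (a b : ℝ) v v' w, bf M (a • v + b • v') w =
    a * bf M v w + b * bf M v' w) (v v' w : S → ℝ) : bf M (v + v') w = bf M v w + bf M v' w := by
  have h := hb 1 1 v v' w
  simpa using h

theorem bf_sub (hb : ∀ (a b : ℝ) v v' w, bf M (a • v + b • v') w =
    a * bf M v w + b * bf M v' w) (v v' w : S → ℝ) : bf M (v - v') w = bf M v w - bf M v' w := by
  have h := hb 1 (-1) v v' w
  simp only [one_smul, one_mul, neg_smul, neg_mul] at h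
  rw [sub_eq_add_neg, h]
  ring

/-- all the facts about a product of two reflections -/
structure Two (T : Module.End ℝ (S → ℝ)) (v₁ v₂ : S → ℝ) (b : ℝ) : Prop where
  lt : b ^ 2 < 1
  t1 : T v₁ = (4 * b ^ 2 - 1) • v₁ - (2 * b) • v₂
  t2 : T v₂ = (2 * b) • v₁ - v₂
  ind : ∀ x y : ℝ, x • v₁ + y • v₂ = 0 → x = 0 ∧ y = 0
  dec : ∀ x, ∃ p q : ℝ, ∃ x' : S → ℝ, x = (p • v₁ + q • v₂) + x' ∧ T x' = x'

variable {M}
variable {T : Module.End ℝ (S → ℝ)} {v₁ v₂ : S → ℝ} {b : ℝ}

theorem Two.q1 (h : Two T v₁ v₂ b) : T (T v₁) = (4 * b ^ 2 - 2) • T v₁ - v₁ := by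
  conv_lhs => rw [h.t1]
  rw [map_sub, map_smul, map_smul, h.t1, h.t2]
  module

theorem Two.q2 (h : Two T v₁ v₂ b) : T (T v₂) = (4 * b ^ 2 - 2) • T v₂ - v₂ := by
  conv_lhs => rw [h.t2]
  rw [map_sub, map_smul, h.t1, h.t2]
  module

/-- if `T ^ k` fixes `v₁` and `v₂` then it is the identity -/
theorem Two.one (h : Two T v₁ v₂ b) (k : ℕ) (h1 : (T ^ k) v₁ = v₁) (h2 : (T ^ k) v₂ = v₂) :
    T ^ k = 1 := by
  apply LinearMap.ext
  intro x
  obtain ⟨p, q, x', hx, hx'⟩ := h.dec x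
  have h3 : ∀ n : ℕ, (T ^ n) x' = x' := by
    intro n
    induction n with
    | zero => simp
    | succ n ih => rw [pow_succ, Module.End.mul_apply, hx', ih]
  rw [hx, map_add, map_add, map_smul, map_smul, h1, h2, h3]
  simp

theorem Two.co (h : Two T v₁ v₂ b) (c d : ℝ) (hc : c • T v₂ - d • v₂ = v₂) :
    b * c = 0 ∧ c + d = -1 := by
  have h1 : (2 * b * c) • v₁ + (-c - d - 1) • v₂ = 0 := by
    have : c • T v₂ - d • v₂ - v₂ = 0 := by rw [hc, sub_self]
    rw [h.t2] at this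
    rw [← this]
    module
  obtain ⟨h2, h3⟩ := h.ind _ _ h1
  constructor
  · linarith
  · linarith

theorem Two.p2 (h : Two T v₁ v₂ b) (v : S → ℝ) (hv : T (T v) = (4 * b ^ 2 - 2) • T v - v) :
    (T ^ 2) v = (4 * b ^ 2 - 2) • T v - (1 : ℝ) • v := by
  rw [pow_two, Module.End.mul_apply, hv, one_smul]

theorem Two.p3 (h : Two T v₁ v₂ b) (v : S → ℝ) (hv : T (T v) = (4 * b ^ 2 - 2) • T v - v) :
    (T ^ 3) v = ((4 * b ^ 2 - 2) ^ 2 - 1) • T v - (4 * b ^ 2 - 2) • v := by
  have e : (T ^ 3) v = T (T (T v)) := by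
    rw [pow_succ, pow_succ, pow_one, Module.End.mul_apply, Module.End.mul_apply]
  rw [e, hv, map_sub, map_smul, hv]
  module

theorem Two.p4 (h : Two T v₁ v₂ b) (v : S → ℝ) (hv : T (T v) = (4 * b ^ 2 - 2) • T v - v) :
    (T ^ 4) v = ((4 * b ^ 2 - 2) ^ 3 - 2 * (4 * b ^ 2 - 2)) • T v -
      ((4 * b ^ 2 - 2) ^ 2 - 1) • v := by
  have e : (T ^ 4) v = T ((T ^ 3) v) := by
    rw [pow_succ' T 3, Module.End.mul_apply]
  rw [e, h.p3 v hv, map_sub, map_smul, map_smul, hv]
  module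

theorem Two.p6 (h : Two T v₁ v₂ b) (v : S → ℝ) (hv : T (T v) = (4 * b ^ 2 - 2) • T v - v) :
    (T ^ 6) v = ((4 * b ^ 2 - 2) ^ 5 - 4 * (4 * b ^ 2 - 2) ^ 3 + 3 * (4 * b ^ 2 - 2)) • T v -
      ((4 * b ^ 2 - 2) ^ 4 - 3 * (4 * b ^ 2 - 2) ^ 2 + 1) • v := by
  have e5 : (T ^ 5) v = ((4 * b ^ 2 - 2) ^ 4 - 3 * (4 * b ^ 2 - 2) ^ 2 + 1) • T v -
      ((4 * b ^ 2 - 2) ^ 3 - 2 * (4 * b ^ 2 - 2)) • v := by
    have e : (T ^ 5) v = T ((T ^ 4) v) := by
      rw [pow_succ' T 4, Module.End.mul_apply]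
    rw [e, h.p4 v hv, map_sub, map_smul, map_smul, hv]
    module
  have e : (T ^ 6) v = T ((T ^ 5) v) := by
    rw [pow_succ' T 5, Module.End.mul_apply]
  rw [e, e5, map_sub, map_smul, map_smul, hv]
  module

theorem Two.z2 (h : Two T v₁ v₂ b) (hb : b = 0) : T ^ 2 = 1 := by
  apply h.one
  · rw [h.p2 _ h.q1, h.t1, hb]
    module
  · rw [h.p2 _ h.q2, h.t2, hb]
    module

theorem Two.z3 (h : Two T v₁ v₂ b) (hb : 4 * b ^ 2 - 2 = -1) : T ^ 3 = 1 := by
  apply h.one
  · rw [h.p3 _ h.q1, hb]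
    module
  · rw [h.p3 _ h.q2, hb]
    module

end ORDB

theorem stmt_ORDB (hBFI : Pool.HA.Stmt_BFI) (hINFO : Pool.HA.Stmt_INFO)
    (hFAITH : Pool.HA.Stmt_FAITH) : Stmt_ORDB := by
  intro S _ _ M ρ hM hρ r₁ r₂ v₁ v₂ h₁ h₂ m hm hord
  obtain ⟨hsym, hlin, -, hinv, hone, hrf⟩ := hBFI S M ρ hρ
  have hrt : ∀ r v, IsRf M ρ r v → bf M v v = 1 := by
    rintro r v ⟨w, s, -, hv⟩
    have h1 : bf M (ρ w (bs s)) (ρ w (bs s)) = 1 := hone _ ⟨w, s, rfl⟩
    rcases hv with rfl | rfl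
    · exact h1
    · have h2 : ∀ x y, bf M (-x) y = - bf M x y := by
        intro x y
        have := ORDB.bf_smul_add M hlin (-1) x y
        simpa using this
      rw [h2, hsym, h2, h1]
      norm_num
  have e1 := hrt _ _ h₁
  have e2 := hrt _ _ h₂
  have hsq : ∀ r v, IsRf M ρ r v → r * r = 1 := by
    rintro r v ⟨w, s, rfl, -⟩
    rw [show w * M.simple s * w⁻¹ * (w * M.simple s * w⁻¹) =
      w * (M.simple s * M.simple s) * w⁻¹ by group]
    have : M.simple s * M.simple s = 1 := M.toCoxeterSystem.simple_mul_simple_self s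
    rw [this]
    group
  have hpos : 0 < m := by rcases hm with rfl | rfl | rfl | rfl <;> norm_num
  have hpow : (r₁ * r₂) ^ m = 1 := by rw [← hord]; exact pow_orderOf_eq_one _
  have hne : r₁ ≠ r₂ := by
    rintro rfl
    rw [hsq _ _ h₁, orderOf_one] at hord
    rcases hm with rfl | rfl | rfl | rfl <;> omega
  have hv : v₁ ≠ v₂ ∧ v₁ ≠ -v₂ := by
    constructor
    · rintro rfl
      apply hne
      have h3 : ρ (r₁ * r₂⁻¹) = 1 := by
        have h4 : ρ r₁ = ρ r₂ := by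
          apply LinearMap.ext
          intro x
          rw [hrf _ _ h₁, hrf _ _ h₂]
        rw [map_mul, h4, ← map_mul, mul_inv_cancel, map_one]
      have := hFAITH S M ρ hM hρ _ h3
      exact mul_inv_eq_one.1 this
    · intro hv
      apply hne
      have h3 : ρ (r₁ * r₂⁻¹) = 1 := by
        have h4 : ρ r₁ = ρ r₂ := by
          apply LinearMap.ext
          intro x
          rw [hrf _ _ h₁, hrf _ _ h₂, hv]
          have h2 : bf M x (-v₂) = - bf M x v₂ := by
            rw [hsym]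
            have := ORDB.bf_smul_add M hlin (-1) v₂ x
            rw [hsym x v₂]
            simpa using this
          rw [h2]
          module
        rw [map_mul, h4, ← map_mul, mul_inv_cancel, map_one]
      have := hFAITH S M ρ hM hρ _ h3
      exact mul_inv_eq_one.1 this
  have hlt : |bf M v₁ v₂| < 1 := by
    by_contra hc
    exact hINFO S M ρ hρ r₁ r₂ v₁ v₂ h₁ h₂ (not_lt.1 hc) hv.1 hv.2 m hpos hpow
  obtain ⟨b, hb⟩ : ∃ b, b = bf M v₁ v₂ := ⟨_, rfl⟩
  rw [← hb] at hlt ⊢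
  have hb2 : b ^ 2 < 1 := by
    rw [← sq_abs]
    have := abs_nonneg b
    nlinarith
  have hb' : bf M v₂ v₁ = b := by rw [hsym, hb]
  have hT : ∀ x, ρ (r₁ * r₂) x = x - (2 * bf M x v₂) • v₂ -
      (2 * (bf M x v₁ - 2 * bf M x v₂ * b)) • v₁ := by
    intro x
    rw [map_mul, Module.End.mul_apply, hrf _ _ h₂, hrf _ _ h₁]
    rw [ORDB.bf_sub M hlin, ORDB.bf_smul_add M hlin, hb']
  have two : ORDB.Two (ρ (r₁ * r₂)) v₁ v₂ b := by
    refine ⟨hb2, ?_, ?_, ?_, ?_⟩
    · rw [hT, e1, ← hb]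
      module
    · rw [hT, e2, hb']
      module
    · intro x y hxy
      have h3 : x * 1 + y * b = 0 := by
        have := hlin x y v₁ v₂ v₁
        rw [hxy, e1, hb'] at this
        rw [← this]
        have := ORDB.bf_smul_add M hlin 0 v₁ v₁
        simpa using this
      have h4 : x * b + y * 1 = 0 := by
        have := hlin x y v₁ v₂ v₂
        rw [hxy, e2, ← hb] at this
        rw [← this]
        have := ORDB.bf_smul_add M hlin 0 v₁ v₂
        simpa using this
      have h5 : x * (1 - b ^ 2) = 0 := by linear_combination h3 - b * h4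
      have h6 : x = 0 := by
        rcases mul_eq_zero.1 h5 with h | h
        · exact h
        · linarith
      rw [h6] at h4
      exact ⟨h6, by linarith⟩
    · intro x
      have h1b : 1 - b ^ 2 ≠ 0 := by linarith
      refine ⟨(bf M x v₁ - b * bf M x v₂) / (1 - b ^ 2), (bf M x v₂ - b * bf M x v₁) / (1 - b ^ 2),
        x - (((bf M x v₁ - b * bf M x v₂) / (1 - b ^ 2)) • v₁ +
          ((bf M x v₂ - b * bf M x v₁) / (1 - b ^ 2)) • v₂), by abel, ?_⟩
      rw [hT]
      have h5 : bf M (x - (((bf M x v₁ - b * bf M x v₂) / (1 - b ^ 2)) • v₁ +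
          ((bf M x v₂ - b * bf M x v₁) / (1 - b ^ 2)) • v₂)) v₁ = 0 := by
        rw [ORDB.bf_sub M hlin, hlin, e1, hb']
        field_simp
        ring
      have h6 : bf M (x - (((bf M x v₁ - b * bf M x v₂) / (1 - b ^ 2)) • v₁ +
          ((bf M x v₂ - b * bf M x v₁) / (1 - b ^ 2)) • v₂)) v₂ = 0 := by
        rw [ORDB.bf_sub M hlin, hlin, e2, ← hb]
        field_simp
        ring
      rw [h5, h6]
      simp
  have hT1 : ∀ k : ℕ, (ρ (r₁ * r₂)) ^ k = 1 → (r₁ * r₂) ^ k = 1 := by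
    intro k hk
    apply hFAITH S M ρ hM hρ
    rw [map_pow, hk]
  have hTm : ((ρ (r₁ * r₂)) ^ m) v₂ = v₂ := by
    rw [← map_pow, hpow, map_one]
    rfl
  have hdvd : ∀ k : ℕ, 0 < k → k < m → (r₁ * r₂) ^ k ≠ 1 := by
    intro k hk hkm hc
    have := orderOf_le_of_pow_eq_one hk hc
    omega
  obtain ⟨τ, hτ⟩ : ∃ τ, τ = 4 * b ^ 2 - 2 := ⟨_, rfl⟩
  rcases hm with rfl | rfl | rfl | rfl
  · rw [two.p2 _ two.q2] at hTm
    obtain ⟨h7, h8⟩ := two.co _ _ hTm
    have h9 : b = 0 := by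
      have : b ^ 2 = 0 := by linarith
      exact pow_eq_zero_iff (two_ne_zero) |>.1 this
    rw [h9]
    simp
  · rw [two.p3 _ two.q2] at hTm
    obtain ⟨h7, h8⟩ := two.co _ _ hTm
    rw [← hτ] at h7 h8
    have h9 : b ^ 2 = 1 / 4 := by
      rcases mul_eq_zero.1 h7 with h | h
      · rw [h] at hτ
        norm_num at hτ
        rw [hτ] at h8
        norm_num at h8
      · have : τ = -1 := by linarith
        rw [this] at hτ
        linarith
    rw [show ((3 : ℕ) : ℝ) = 3 by norm_num, Real.cos_pi_div_three]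
    have h10 : |b| ^ 2 = (1 / 2) ^ 2 := by rw [sq_abs, h9]; norm_num
    exact (pow_left_inj₀ (abs_nonneg b) (by norm_num) two_ne_zero).1 h10
  · rw [two.p4 _ two.q2] at hTm
    obtain ⟨h7, h8⟩ := two.co _ _ hTm
    rw [← hτ] at h7 h8
    have hb0 : b ≠ 0 := fun h => hdvd 2 (by norm_num) (by norm_num) (hT1 _ (two.z2 h))
    have h9 : b ^ 2 = 1 / 2 := by
      rcases mul_eq_zero.1 h7 with h | h
      · exact absurd h hb0
      · have h11 : τ ^ 2 = 0 := by linarith
        have : τ = 0 := pow_eq_zero_iff (two_ne_zero) |>.1 h11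
        rw [this] at hτ
        linarith
    rw [show ((4 : ℕ) : ℝ) = 4 by norm_num, Real.cos_pi_div_four]
    have h10 : |b| ^ 2 = (Real.sqrt 2 / 2) ^ 2 := by
      rw [sq_abs, h9, div_pow, Real.sq_sqrt (by norm_num)]
      norm_num
    exact (pow_left_inj₀ (abs_nonneg b) (by positivity) two_ne_zero).1 h10
  · rw [two.p6 _ two.q2] at hTm
    obtain ⟨h7, h8⟩ := two.co _ _ hTm
    rw [← hτ] at h7 h8
    have hb0 : b ≠ 0 := fun h => hdvd 2 (by norm_num) (by norm_num) (hT1 _ (two.z2 h))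
    have hτ1 : τ ≠ -1 := fun h =>
      hdvd 3 (by norm_num) (by norm_num) (hT1 _ (two.z3 (by rw [← hτ, h])))
    have h9 : b ^ 2 = 3 / 4 := by
      rcases mul_eq_zero.1 h7 with h | h
      · exact absurd h hb0
      · have h11 : τ ^ 4 - 3 * τ ^ 2 + 2 = 0 := by linarith
        have h12 : τ * ((τ ^ 2 - 1) * (τ ^ 2 - 3)) = 0 := by
          rw [← h]; ring
        have h13 : (τ ^ 2 - 1) * (τ ^ 2 - 2) = 0 := by
          rw [← h11]; ring
        have h14 : τ ^ 2 = 1 := by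
          rcases mul_eq_zero.1 h13 with h15 | h15
          · linarith
          · have h16 : τ ^ 2 = 2 := by linarith
            rw [h16] at h12
            norm_num at h12
            rw [h12] at h16
            norm_num at h16
        have h17 : (τ - 1) * (τ + 1) = 0 := by
          have : τ ^ 2 - 1 = 0 := by linarith
          rw [← this]; ring
        rcases mul_eq_zero.1 h17 with h18 | h18
        · have : τ = 1 := by linarith
          rw [this] at hτ
          linarith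
        · exact absurd (by linarith) hτ1
    rw [show ((6 : ℕ) : ℝ) = 6 by norm_num, Real.cos_pi_div_six]
    have h10 : |b| ^ 2 = (Real.sqrt 3 / 2) ^ 2 := by
      rw [sq_abs, h9, div_pow, Real.sq_sqrt (by norm_num)]
      norm_num
    exact (pow_left_inj₀ (abs_nonneg b) (by positivity) two_ne_zero).1 h10

end Pool.HE
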