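import Pool.Agent.Work.MP_7084a3_full.InterfaceE
import Pool.Agent.Work.MP_7084a3_helper90.Common

set_option autoImplicit false

namespace Pool.HE

open Pool.HA Pool.HA.H90

theorem stmt_OSUM (hZZS : Stmt_ZZS) (hZZ2 : Stmt_ZZ2) (hZPER : Stmt_ZPER) (hBD1 : Stmt_BD1)
    (hACT : Stmt_ACT) : Stmt_OSUM := by
  intro S _ M h x hFP v α β D hα hβ hD hDb
  by_contra hcon
  push Not at hcon
  obtain ⟨hhx, hfp⟩ := hFP
  have hfree : ∀ (a b : ℤ) (u : Vtx (gen M)), (h ^ a * x ^ b) • u = u → a = 0 ∧ b = 0 := by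
    intro a b u hu
    by_contra hab
    exact hfp a b (by tauto) u hu
  obtain ⟨a1, a2, a3, a4, a5, a6, a7, a8, a9⟩ := hACT (Art M) S (gen M)
  have hcom2 : Commute (PT (gen M) h) (PT (gen M) x) := hhx.map _
  have hcom1 : Commute (P1 (gen M) h) (P1 (gen M) x) := hhx.map _
  obtain ⟨P, Q, hPQ, hP, hQ⟩ := (hZZS _ (PT (gen M) h) (PT (gen M) x) hcom2).1 D hcon
  have hQf : Flagged Q := flagged_of_orbit hD fun t ht => by
    obtain ⟨a, b, hab⟩ := hQ t ht
    rw [← map_zpow, ← map_zpow, ← map_mul] at hab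
    exact ⟨_, hab⟩
  have m1 : mv (PT (gen M) h) P = act2 h P := rfl
  have m2 : mv (PT (gen M) x) Q = act2 x Q := rfl
  rw [m1, m2] at hPQ
  have h1 : wch α - bd2 (gen M) Q - mv (P1 (gen M) x) (wch α - bd2 (gen M) Q) =
      (wch β + bd2 (gen M) P) - mv (P1 (gen M) h) (wch β + bd2 (gen M) P) := by
    rw [mv_P1, mv_P1]
    rw [hPQ, map_add, map_sub, map_sub, (a1 _ _).1, (a1 _ _).1] at hDb
    rw [map_sub, map_add]
    have h2 : wch α - act1 x (wch α) = bd2 (gen M) P - act1 h (bd2 (gen M) P) +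
        (bd2 (gen M) Q - act1 x (bd2 (gen M) Q)) + (wch β - act1 h (wch β)) := by
      rw [hDb]; abel
    calc wch α - bd2 (gen M) Q - (act1 x (wch α) - act1 x (bd2 (gen M) Q)) =
        (wch α - act1 x (wch α)) - (bd2 (gen M) Q - act1 x (bd2 (gen M) Q)) := by abel
      _ = _ := by rw [h2]; abel
  obtain ⟨E, hE⟩ := hZZ2 _ (P1 (gen M) h) (P1 (gen M) x) hcom1 _ _ (by
    intro t _ a b hab
    rw [← map_zpow, ← map_zpow, ← map_mul, P1_apply] at hab
    exact hfree a b t.1 (congrArg Prod.fst hab)) h1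
  refine no_E hZPER hBD1 hACT h ?_ α v hα Q hQf E hE
  intro k hk u hu
  have := hfree k 0 u (by simpa using hu)
  omega

end Pool.HE
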