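import Pool.Agent.Work.MP_7084a3_full.InterfaceC
import Pool.Agent.Work.MP_7084a3_h91.B.WB

set_option autoImplicit false

/-! # Block PRJ (helper53) -/

namespace Pool.HE

open Pool.HA

theorem stmt_PRJ : Stmt_PRJ := by
  intro S M h0
  refine ⟨H45.qm M, fun s => H45.qm_gen M s, ?_⟩
  rw [← MonoidHom.range_eq_top, eq_top_iff]
  have h : Subgroup.closure (Set.range M.simple) = ⊤ := by
    have h1 := M.toCoxeterSystem.subgroup_closure_range_simple
    rwa [CoxeterMatrix.toCoxeterSystem_simple] at h1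
  rw [← h, Subgroup.closure_le]
  rintro x ⟨s, rfl⟩
  exact ⟨gen M s, H45.qm_gen M s⟩

end Pool.HE
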