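import Pool.Agent.Work.MP_7084a3_full.InterfaceC

set_option autoImplicit false

namespace Pool.HE

open Pool.HA

theorem stmt_RFU (hF3 : Stmt_F3) : Stmt_RFU := by
  intro S _ _ M hM s t hst r u hr huJ hu1 hru
  obtain ⟨v, hv1, hrv⟩ := hr.exists_fix
  obtain ⟨l, ⟨hl1, hl2, hl3⟩, hlF⟩ := (hF3 S M hM r hr).2 u v hru hrv
  have hu2 : u.ty = 2 := by rw [Vtx.ty_eq, huJ, Finset.card_pair hst]
  match l, hl1, hl2, hl3, hlF with
  | [], hl1, _, _, _ => simp at hl1
  | [x], hl1, hl2, _, _ =>
    have h1 : x = u := by simpa using hl1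
    have h2 : x = v := by simpa using hl2
    rw [← h2, h1, hu2] at hv1
    omega
  | x :: w :: l', hl1, _, hl3, hlF =>
    have h1 : x = u := by simpa using hl1
    subst h1
    have huw : x.ad w := by
      rw [List.isChain_cons_cons] at hl3
      exact hl3.1
    have hw : r • w = w := hlF w (by simp)
    have hw0 := ty_ne_zero_of_fix hr.ne_one hw
    have hw1 : w.ty = 1 := by
      have := Vtx.ad_ty_ne huw
      have := w.ty_le
      omega
    obtain ⟨a, ha⟩ := Vtx.J1 hw1
    obtain ⟨y, hy⟩ := w.exists_mem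
    have hlt : w.ty < x.ty := by omega
    have hyu := Vtx.ad_mem (Vtx.ad_symm huw) hlt hy
    have hsub := (Vtx.ad_ss (Vtx.ad_symm huw) hlt).subset
    rw [ha, huJ, Finset.singleton_subset_iff, Finset.mem_insert, Finset.mem_singleton] at hsub
    refine ⟨y, ?_, a, hsub, hr.eq_conj ha hw hy⟩
    rw [Vtx.mem2 huJ hu1] at hyu
    simpa using hyu

end Pool.HE
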