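import Pool.Agent.Work.MP_7084a3_full.InterfaceC

set_option autoImplicit false

namespace Pool.HE

open Pool.HA

theorem stmt_RR (hTRI : Stmt_TRI) (hBADX : Stmt_BADX) : Stmt_RR := by
  intro S S' _ _ M M' hM hM' hc hc' hE φ r hr
  obtain ⟨x, s, rfl⟩ := hr
  rcases hTRI S S' M M' hM hM' hc φ (gen M s) (rfl_gen s) with ⟨r', hr', h⟩ | h
  · refine ⟨φ x * r' * (φ x)⁻¹, hr'.conj _, ?_⟩
    rw [map_mul, map_mul, map_inv]
    rcases h with h | h
    · left; rw [h]
    · right; rw [h]; group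
  · exact absurd (hBADX S S' M M' hM hM' hc hc' φ s h) hE

end Pool.HE
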