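import Pool.Agent.Work.MP_7084a3_full.InterfaceH

set_option autoImplicit false
set_option linter.unusedSectionVars false

namespace Pool.HE

open Pool.HA

namespace SG3B

theorem cos_ge_half {m : ℕ} (hm : 3 ≤ m) : 1 / 2 ≤ Real.cos (Real.pi / m) := by
  have h3 : (3 : ℝ) ≤ (m : ℝ) := by exact_mod_cast hm
  have hpi := Real.pi_pos
  rw [← Real.cos_pi_div_three]
  apply Real.cos_le_cos_of_nonneg_of_le_pi
  · positivity
  · linarith
  · exact div_le_div_of_nonneg_left hpi.le (by norm_num) h3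

theorem cos_lt_one' {m : ℕ} (hm : 3 ≤ m) : Real.cos (Real.pi / m) < 1 := by
  have h3 : (3 : ℝ) ≤ (m : ℝ) := by exact_mod_cast hm
  have hpi := Real.pi_pos
  rw [← Real.cos_zero]
  apply Real.cos_lt_cos_of_nonneg_of_le_pi (le_refl 0)
  · rw [div_le_iff₀ (by linarith)]
    nlinarith
  · positivity

section

variable {S : Type} [Fintype S] [DecidableEq S]

theorem isRf_conj {M : CoxeterMatrix S} {ρ : M.Group →* Module.End ℝ (S → ℝ)} {r : M.Group}
    {v : S → ℝ} (h : IsRf M ρ r v) (g : M.Group) : IsRf M ρ (g * r * g⁻¹) (ρ g v) := by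
  obtain ⟨w, s, hr, hv⟩ := h
  refine ⟨g * w, s, ?_, ?_⟩
  · rw [hr]; group
  · rcases hv with hv | hv
    · left; rw [hv, map_mul]; rfl
    · right; rw [hv, map_mul, map_neg]; rfl

theorem isRf_simple (M : CoxeterMatrix S) (ρ : M.Group →* Module.End ℝ (S → ℝ)) (s : S) :
    IsRf M ρ (M.simple s) (bs s) := ⟨1, s, by simp, Or.inl (by simp)⟩

/-- `bf v (ρ g w)` for a reflection `g` with root `u` -/
theorem bf_refl (hB : Stmt_BFI) {M : CoxeterMatrix S} {ρ : M.Group →* Module.End ℝ (S → ℝ)}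
    (hρ : IsRep M ρ) {g : M.Group} {u : S → ℝ} (h : IsRf M ρ g u) (v w : S → ℝ) :
    bf M v (ρ g w) = bf M v w - 2 * bf M w u * bf M v u := by
  obtain ⟨hs, hl, _, _, _, hrf⟩ := hB S M ρ hρ
  rw [hrf g u h w, hs v, hs v w, hs v u]
  have := hl 1 (-(2 * bf M w u)) w u v
  rw [one_smul, neg_smul, ← sub_eq_add_neg] at this
  rw [this]
  ring

end

section

variable {S S' : Type} [Fintype S] [DecidableEq S] [Fintype S'] [DecidableEq S']
  {M : CoxeterMatrix S} {M' : CoxeterMatrix S'} {ρ : M.Group →* Module.End ℝ (S → ℝ)}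
  {ρ' : M'.Group →* Module.End ℝ (S' → ℝ)} {ψ : M.Group ≃* M'.Group} {β : S → (S' → ℝ)}

theorem key (hB : Stmt_BFI) (hF : Stmt_FINO) (hI : Stmt_INFO) (hW : WC M M' ρ ρ' ψ β)
    {s t r : S} (hst : s ≠ t) (htr : t ≠ r) (hsr : s ≠ r)
    (h1 : 3 ≤ M s t) (h2 : 3 ≤ M t r) (h3 : 3 ≤ M s r)
    (m1 : Real.cos (Real.pi / M s t) ≤ Real.cos (Real.pi / M s r))
    (m2 : Real.cos (Real.pi / M t r) ≤ Real.cos (Real.pi / M s r))
    (hpos : 0 < bf M' (β s) (β t) * bf M' (β t) (β r) * bf M' (β s) (β r)) : False := by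
  have a1 := cos_ge_half h1
  have a2 := cos_ge_half h2
  have a3 := cos_ge_half h3
  have b1 := cos_lt_one' h1
  have b2 := cos_lt_one' h2
  have b3 := cos_lt_one' h3
  have g1 := hW.gram s t hst
  have g2 := hW.gram t r htr
  have g3 := hW.gram s r hsr
  obtain ⟨hs, _, hc, _, _, _⟩ := hB S M ρ hW.rep
  obtain ⟨hs', _, _, _, _, _⟩ := hB S' M' ρ' hW.rep'
  -- infinite order in `M.Group`
  have hinf := hI S M ρ hW.rep (M.simple s) (M.simple t * M.simple r * (M.simple t)⁻¹) (bs s)
    (ρ (M.simple t) (bs r)) (isRf_simple M ρ s) (isRf_conj (isRf_simple M ρ r) _)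
  have hval : bf M (bs s) (ρ (M.simple t) (bs r)) = -Real.cos (Real.pi / M s r) -
      2 * Real.cos (Real.pi / M t r) * Real.cos (Real.pi / M s t) := by
    rw [bf_refl hB hW.rep (isRf_simple M ρ t), hc, hs (bs r) (bs t), hc, hc]
    ring
  have hcoord : ρ (M.simple t) (bs r) r = 1 := by
    rw [hW.rep t (bs r)]
    simp [bs, htr.symm]
  have hcoord2 : (bs s : S → ℝ) r = 0 := by
    simp [bs, hsr.symm]
  have hinf' := hinf (by
      rw [hval, abs_of_nonpos (by nlinarith)]
      nlinarith)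
    (fun h => by
      rw [h, hcoord] at hcoord2
      norm_num at hcoord2)
    (fun h => by
      rw [h, Pi.neg_apply, hcoord] at hcoord2
      norm_num at hcoord2)
  -- finite order in `M'.Group`
  have hfin := hF S' M' ρ' hW.hM'.ne_zero hW.rep' (ψ (M.simple s))
    (ψ (M.simple t) * ψ (M.simple r) * (ψ (M.simple t))⁻¹) (β s) (ρ' (ψ (M.simple t)) (β r))
    (hW.refl s) (isRf_conj (hW.refl r) _)
  have hval' : bf M' (β s) (ρ' (ψ (M.simple t)) (β r)) = bf M' (β s) (β r) -
      2 * bf M' (β t) (β r) * bf M' (β s) (β t) := by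
    rw [bf_refl hB hW.rep' (hW.refl t), hs' (β r) (β t)]
  have hlt : |bf M' (β s) (β r) - 2 * bf M' (β t) (β r) * bf M' (β s) (β t)| < 1 := by
    set x := bf M' (β s) (β r)
    set y := bf M' (β t) (β r)
    set z := bf M' (β s) (β t)
    set cx := Real.cos (Real.pi / M s r)
    set cy := Real.cos (Real.pi / M t r)
    set cz := Real.cos (Real.pi / M s t)
    have hyz : |y * z| = cy * cz := by rw [abs_mul, g2, g1]
    have hx0 : x ≠ 0 := by
      intro h
      rw [h, mul_zero] at hpos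
      exact lt_irrefl _ hpos
    have hpos' : 0 < x * (y * z) := by
      have : z * y * x = x * (y * z) := by ring
      rw [← this]; exact hpos
    rcases lt_or_gt_of_ne hx0 with hx | hx
    · have hyz' : y * z < 0 := by
        by_contra h
        exact absurd hpos' (not_lt.mpr (mul_nonpos_of_nonpos_of_nonneg hx.le (not_lt.mp h)))
      rw [abs_of_neg hyz'] at hyz
      rw [abs_of_neg hx] at g3
      rw [abs_lt]
      constructor <;> nlinarith
    · have hyz' : 0 < y * z := by
        by_contra h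
        exact absurd hpos' (not_lt.mpr (mul_nonpos_of_nonneg_of_nonpos hx.le (not_lt.mp h)))
      rw [abs_of_pos hyz'] at hyz
      rw [abs_of_pos hx] at g3
      rw [abs_lt]
      constructor <;> nlinarith
  obtain ⟨k, hk, hk1⟩ := hfin (by rw [hval']; exact hlt)
  apply hinf' k hk
  apply ψ.injective
  rw [map_pow, map_mul, map_mul, map_mul, map_inv, map_one]
  exact hk1

end

end SG3B

theorem stmt_SG3 (hB : Stmt_BFI) (hF : Stmt_FINO) (hI : Stmt_INFO) : Stmt_SG3 := by
  intro S S' _ _ _ _ M M' ρ ρ' ψ β hW s t r hst htr hsr h1 h2 h3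
  by_contra hneg
  have a1 := SG3B.cos_ge_half h1
  have a2 := SG3B.cos_ge_half h2
  have a3 := SG3B.cos_ge_half h3
  have g1 := hW.gram s t hst
  have g2 := hW.gram t r htr
  have g3 := hW.gram s r hsr
  have n1 : bf M' (β s) (β t) ≠ 0 := by
    intro h; rw [h, abs_zero] at g1; linarith
  have n2 : bf M' (β t) (β r) ≠ 0 := by
    intro h; rw [h, abs_zero] at g2; linarith
  have n3 : bf M' (β s) (β r) ≠ 0 := by
    intro h; rw [h, abs_zero] at g3; linarith
  have hpos : 0 < bf M' (β s) (β t) * bf M' (β t) (β r) * bf M' (β s) (β r) :=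
    lt_of_le_of_ne (not_lt.mp hneg) (Ne.symm (mul_ne_zero (mul_ne_zero n1 n2) n3))
  obtain ⟨hs', _, _, _, _, _⟩ := hB S' M' ρ' hW.rep'
  have hM : ∀ x y, M x y = M y x := M.symmetric
  -- the largest cosine
  rcases le_total (Real.cos (Real.pi / M s t)) (Real.cos (Real.pi / M s r)) with c1 | c1
  · rcases le_total (Real.cos (Real.pi / M t r)) (Real.cos (Real.pi / M s r)) with c2 | c2
    · exact SG3B.key hB hF hI hW hst htr hsr h1 h2 h3 c1 c2 hpos
    · -- the largest is `t r`: apply with `t s r`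
      refine SG3B.key hB hF hI hW (s := t) (t := s) (r := r) hst.symm hsr htr
        (by rw [hM]; exact h1) h3 h2 ?_ ?_ ?_
      · rw [hM t s]; exact le_trans c1 c2
      · exact c2
      · rw [hs' (β t) (β s)]
        calc 0 < _ := hpos
          _ = _ := by ring
  · rcases le_total (Real.cos (Real.pi / M t r)) (Real.cos (Real.pi / M s t)) with c2 | c2
    · -- the largest is `s t`: apply with `s r t`
      refine SG3B.key hB hF hI hW (s := s) (t := r) (r := t) hsr htr.symm hst
        h3 (by rw [hM]; exact h2) h1 ?_ ?_ ?_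
      · exact c1
      · rw [hM r t]; exact c2
      · rw [hs' (β r) (β t)]
        calc 0 < _ := hpos
          _ = _ := by ring
    · refine SG3B.key hB hF hI hW (s := t) (t := s) (r := r) hst.symm hsr htr
        (by rw [hM]; exact h1) h3 h2 ?_ ?_ ?_
      · rw [hM t s]; exact c2
      · exact le_trans c1 c2
      · rw [hs' (β t) (β s)]
        calc 0 < _ := hpos
          _ = _ := by ring

end Pool.HE
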