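import Pool.Agent.Work.MP_7084a3_full.InterfaceH

set_option autoImplicit false

namespace Pool.HE

open Pool.HA

theorem SGN_bf_smul {S : Type} [Fintype S] (M : CoxeterMatrix S) (a b : ℝ) (v w : S → ℝ) :
    bf M (a • v) (b • w) = a * b * bf M v w := by
  unfold bf
  rw [Finset.mul_sum]
  refine Finset.sum_congr rfl fun s _ => ?_
  rw [Finset.mul_sum]
  refine Finset.sum_congr rfl fun t _ => ?_
  simp only [Pi.smul_apply, smul_eq_mul]
  ring

theorem SGN_bf_symm {S : Type} [Fintype S] (M : CoxeterMatrix S) (v w : S → ℝ) :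
    bf M v w = bf M w v := by
  unfold bf
  rw [Finset.sum_comm]
  refine Finset.sum_congr rfl fun s _ => Finset.sum_congr rfl fun t _ => ?_
  rw [M.symmetric t s]
  ring

theorem SGN_two {S : Type} {M : CoxeterMatrix S} (hM : ETyp M) {s t : S} (hst : s ≠ t) :
    2 ≤ M s t := by
  have h0 := hM.ne_zero s t
  have h1 := M.off_diagonal s t hst
  omega

theorem SGN_cos {m : ℕ} (hm : 3 ≤ m) : 0 < Real.cos (Real.pi / m) := by
  have h3 : (3 : ℝ) ≤ m := by exact_mod_cast hm
  have hpi := Real.pi_pos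
  have h1 : Real.pi / m ≤ Real.pi / 3 := div_le_div_of_nonneg_left hpi.le (by norm_num) h3
  have h2 : 0 < Real.pi / m := by positivity
  exact Real.cos_pos_of_mem_Ioo ⟨by linarith, by linarith⟩

theorem stmt_SGN (h3 : Stmt_SG3) (h4 : Stmt_SG4) (hA : Stmt_SGA) : Stmt_SGN := by
  intro S S' _ _ _ _ M M' ρ ρ' ψ β hW
  have hM := hW.hM
  have hzero : ∀ s t, s ≠ t → bf M' (β s) (β t) = 0 → M s t = 2 := by
    intro s t hst h0
    have h1 := hW.gram s t hst
    rw [h0, abs_zero] at h1
    by_contra hne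
    have h2 := SGN_two hM hst
    have := SGN_cos (m := M s t) (by omega)
    linarith
  have hnz : ∀ s t, s ≠ t → bf M' (β s) (β t) ≠ 0 → 3 ≤ M s t := by
    intro s t hst h0
    by_contra hlt
    have h2 := SGN_two hM hst
    have h5 : M s t = 2 := by omega
    have h1 := hW.gram s t hst
    rw [h5] at h1
    simp only [Nat.cast_ofNat, Real.cos_pi_div_two, abs_eq_zero] at h1
    exact h0 h1
  obtain ⟨e, he, hB⟩ := hA S (fun s t => bf M' (β s) (β t)) (fun s t => SGN_bf_symm M' _ _)
    (by
      intro s t r hst hsr htr h0 h0'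
      have h1 := hzero s t hst h0
      have h2 := hzero s r hsr h0'
      have h5 := hM.hyp s t r hst htr hsr
      rw [h1, h2] at h5
      have h6 : (0 : ℚ) < (M t r : ℚ)⁻¹ := by
        have := hM.ne_zero t r
        positivity
      norm_num at h5
      linarith [h5, h6])
    (by
      intro s t r hst htr hsr h1 h2 h5
      exact h3 S S' M M' ρ ρ' ψ β hW s t r hst htr hsr (hnz s t hst h1) (hnz t r htr h2)
        (hnz s r hsr h5))
    (by
      intro s₁ s₂ s₃ s₄ hn h1 h2
      have hn' := hn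
      simp only [List.nodup_cons, List.mem_cons, List.not_mem_nil, or_false,
        not_or, not_false_eq_true, List.nodup_nil, and_true] at hn'
      exact h4 S S' M M' ρ ρ' ψ β hW s₁ s₂ s₃ s₄ hn (hzero _ _ hn'.1.2.1 h1)
        (hzero _ _ hn'.2.1.2 h2))
  have hbf : ∀ s t, bf M' (e s • β s) (e t • β t) = e s * e t * bf M' (β s) (β t) :=
    fun s t => SGN_bf_smul M' _ _ _ _
  refine ⟨fun s => e s • β s, ⟨hW.hM, hW.hM', hW.rep, hW.rep', ?_, hW.refl', ?_⟩, ?_⟩
  · intro s
    obtain ⟨w, s', h1, h2⟩ := hW.refl s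
    refine ⟨w, s', h1, ?_⟩
    rcases he s with h | h
    · rw [h, one_smul]; exact h2
    · rw [h, neg_one_smul]
      rcases h2 with h2 | h2
      · right; rw [h2]
      · left; rw [h2, neg_neg]
  · intro s t hst
    rw [hbf, hB s t hst, abs_neg, abs_abs]
    exact hW.gram s t hst
  · intro s t hst
    rw [hbf, hB s t hst]
    exact congrArg Neg.neg (hW.gram s t hst)

end Pool.HE
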