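import Pool.Agent.Work.MP_7084a3_full.InterfaceE
import Pool.Agent.Work.MP_7084a3_helper90.Common

set_option autoImplicit false

/-! # Block SQS: the chain of the big square (the computation of block X2 of helper90) -/

namespace Pool.HE

open Pool.HA

theorem mv_PT {G S : Type} [Group G] {g : S → G} (y : G) (D : C2 g) : mv (PT g y) D = act2 y D :=
  rfl

open Pool.HA.H90 in
theorem sqs_gen {G S : Type} [Group G] {g : S → G}
    (hINJ : ∀ D : C2 g, Flagged D → bd2 g D = 0 → D = 0) (hWCH : Pool.HA.Stmt_WCH)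
    (hACT : Pool.HA.Stmt_ACT) (h x : G) (hhx : Commute h x) (v : Vtx g)
    (α β : List (Vtx g)) (D : C2 g) (hα : Wk α v (h • v)) (hβ : Wk β v (x • v))
    (hD : Flagged D)
    (hDb : bd2 g D = (wch α - act1 x (wch α)) - (wch β - act1 h (wch β)))
    (m n : ℕ) (D' : C2 g) (hD' : Flagged D')
    (hDb' : bd2 g D' = (wch (pw h α m) - act1 (x ^ n) (wch (pw h α m))) -
      (wch (pw x β n) - act1 (h ^ m) (wch (pw x β n)))) :
    D' = ∑ i ∈ Finset.range m, ∑ j ∈ Finset.range n, mv (PT g h ^ i * PT g x ^ j) D := by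
  obtain ⟨w1, w2, w3, w4, w5⟩ := hWCH G S g
  obtain ⟨a1, a2, a3, a4, a5, a6, a7, a8, a9⟩ := hACT G S g
  have hflsum : ∀ (ι : Type) (s : Finset ι) (f : ι → C2 g), (∀ i ∈ s, Flagged (f i)) →
      Flagged (∑ i ∈ s, f i) := by
    classical
    intro ι s f
    induction s using Finset.induction_on with
    | empty => intro _ t ht; simp at ht
    | insert i s hi ih =>
      intro hf
      rw [Finset.sum_insert hi]
      exact (a3 _ _ (hf i (Finset.mem_insert_self _ _))
        (ih fun j hj => hf j (Finset.mem_insert_of_mem hj))).1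
  have hconv : ∀ i j : ℕ, mv (PT g h ^ i * PT g x ^ j) D = act2 (h ^ i) (act2 (x ^ j) D) := by
    intro i j
    rw [← map_pow, ← map_pow, ← map_mul, mv_PT, a4]
  have hfl : Flagged (∑ i ∈ Finset.range m, ∑ j ∈ Finset.range n,
      mv (PT g h ^ i * PT g x ^ j) D) := by
    apply hflsum
    intro i _
    apply hflsum
    intro j _
    rw [hconv]
    exact (a1 _ _).2.1 ((a1 _ _).2.1 hD)
  have h0 : (∑ i ∈ Finset.range m, ∑ j ∈ Finset.range n,
      mv (PT g h ^ i * PT g x ^ j) D) - D' = 0 := by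
    apply hINJ _ ((a3 _ _ hfl hD').2)
    rw [map_sub, hDb']
    have hcomm : ∀ (i j : ℕ) (A : C1 g), act1 (h ^ i) (act1 (x ^ j) A) =
        act1 (x ^ j) (act1 (h ^ i) A) := by
      intro i j A
      rw [← a5, ← a5, (hhx.pow_pow i j).eq]
    have hstep : bd2 g (∑ i ∈ Finset.range m, ∑ j ∈ Finset.range n,
        mv (PT g h ^ i * PT g x ^ j) D) =
        ∑ i ∈ Finset.range m, ∑ j ∈ Finset.range n, act1 (h ^ i) (act1 (x ^ j)
          ((wch α - act1 x (wch α)) - (wch β - act1 h (wch β)))) := by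
      rw [map_sum]
      refine Finset.sum_congr rfl fun i _ => ?_
      rw [map_sum]
      refine Finset.sum_congr rfl fun j _ => ?_
      rw [hconv, (a1 _ _).1, (a1 _ _).1, hDb]
    have hA : ∑ i ∈ Finset.range m, ∑ j ∈ Finset.range n, act1 (h ^ i) (act1 (x ^ j)
          (wch α - act1 x (wch α))) =
        wch (pw h α m) - act1 (x ^ n) (wch (pw h α m)) := by
      rw [(w5 h α v m hα).2.2]
      have e1 : ∀ i ∈ Finset.range m, ∑ j ∈ Finset.range n, act1 (h ^ i) (act1 (x ^ j)
          (wch α - act1 x (wch α))) = act1 (h ^ i) (wch α) -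
            act1 (x ^ n) (act1 (h ^ i) (wch α)) := by
        intro i _
        rw [← map_sum, tele hACT, map_sub, hcomm]
      rw [Finset.sum_congr rfl e1, Finset.sum_sub_distrib, map_sum]
    have hB : ∑ i ∈ Finset.range m, ∑ j ∈ Finset.range n, act1 (h ^ i) (act1 (x ^ j)
          (wch β - act1 h (wch β))) =
        wch (pw x β n) - act1 (h ^ m) (wch (pw x β n)) := by
      rw [Finset.sum_comm, (w5 x β v n hβ).2.2]
      have e1 : ∀ j ∈ Finset.range n, ∑ i ∈ Finset.range m, act1 (h ^ i) (act1 (x ^ j)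
          (wch β - act1 h (wch β))) = act1 (x ^ j) (wch β) -
            act1 (h ^ m) (act1 (x ^ j) (wch β)) := by
        intro j _
        have e2 : ∀ i ∈ Finset.range m, act1 (h ^ i) (act1 (x ^ j)
          (wch β - act1 h (wch β))) = act1 (x ^ j) (act1 (h ^ i) (wch β - act1 h (wch β))) :=
          fun i _ => hcomm i j _
        rw [Finset.sum_congr rfl e2, ← map_sum, tele hACT, map_sub, hcomm]
      rw [Finset.sum_congr rfl e1, Finset.sum_sub_distrib, map_sum]
    rw [hstep]
    have hsplit : ∀ i ∈ Finset.range m, ∑ j ∈ Finset.range n, act1 (h ^ i) (act1 (x ^ j)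
          ((wch α - act1 x (wch α)) - (wch β - act1 h (wch β)))) =
        ∑ j ∈ Finset.range n, act1 (h ^ i) (act1 (x ^ j) (wch α - act1 x (wch α))) -
        ∑ j ∈ Finset.range n, act1 (h ^ i) (act1 (x ^ j) (wch β - act1 h (wch β))) := by
      intro i _
      rw [← Finset.sum_sub_distrib]
      refine Finset.sum_congr rfl fun j _ => ?_
      rw [← map_sub, ← map_sub]
    rw [Finset.sum_congr rfl hsplit, Finset.sum_sub_distrib, hA, hB, sub_self]
  exact (sub_eq_zero.1 h0).symm

theorem stmt_SQS (hINJ2 : Stmt_INJ2) (hWCH : Pool.HA.Stmt_WCH) (hACT : Pool.HA.Stmt_ACT) :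
    Stmt_SQS := by
  intro S _ M hM h x hhx v α β D hα hβ hD hDb m n D' hD' hDb'
  exact sqs_gen (hINJ2 S M hM) hWCH hACT h x hhx v α β D hα hβ hD hDb m n D' hD' hDb'

end Pool.HE
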