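import Pool.Agent.Work.MP_7084a3_full.InterfaceE

set_option autoImplicit false

/-! # Block STC (helper69) -/

namespace Pool.HE

open Pool.HA

/-- powers of the first element of a free pair -/
theorem FP.pow_left {S : Type} {M : CoxeterMatrix S} {h x : Art M} (hf : FP M h x) {k : ℕ}
    (hk : 0 < k) : FP M (h ^ k) x := by
  refine ⟨hf.1.pow_left k, ?_⟩
  intro a b hab v
  have h1 : (h ^ k) ^ a = h ^ ((k : ℤ) * a) := by
    rw [zpow_mul, zpow_natCast]
  rw [h1]
  refine hf.2 ((k : ℤ) * a) b ?_ v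
  rcases hab with ha | hb
  · left
    exact mul_ne_zero (by exact_mod_cast hk.ne') ha
  · right
    exact hb

theorem stmt_STC (hU0 : Stmt_U0) (hU1 : Stmt_U1) : Stmt_STC := by
  intro S _ M hM h x hf E y k hk hy g hg
  by_contra hcon
  have h2 : (g * y)⁻¹ * h ^ k * (g * y) = y⁻¹ * h ^ k * y := by
    have hc : g⁻¹ * h ^ k * g = h ^ k := by
      have := (hg.pow_right k).eq
      rw [mul_assoc, ← this, ← mul_assoc, inv_mul_cancel, one_mul]
    calc (g * y)⁻¹ * h ^ k * (g * y) = y⁻¹ * (g⁻¹ * h ^ k * g) * y := by group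
      _ = y⁻¹ * h ^ k * y := by rw [hc]
  obtain ⟨L₀, hL⟩ := hU1 S M hM E y (g * y) (h ^ k) (by
    rw [← mul_assoc]; exact hcon) hy (by rw [h2]; exact hy)
  obtain ⟨N, hN⟩ := hU0 S M hM (h ^ k) x (hf.pow_left hk) (o0 M y) L₀
  obtain ⟨l, hl1, hl2⟩ := hL N
  exact absurd (hN l hl1) (not_lt.2 hl2)

end Pool.HE
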