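import Pool.Agent.Work.MP_7084a3_full.InterfaceE
import Pool.Agent.Work.MP_7084a3_helper90.Common

set_option autoImplicit false

/-! # Block T5: a free pair has powers in the stabiliser of a plane -/

namespace Pool.HE

open Pool.HA

namespace T5B

theorem PT_apply {G S : Type} [Group G] {g : S → G} (y : G) (t : Vtx g × Vtx g × Vtx g) :
    PT g y t = y • t := rfl

theorem PT_pow {G S : Type} [Group G] {g : S → G} (h x : G) (i j : ℕ)
    (t : Vtx g × Vtx g × Vtx g) : (PT g h ^ i * PT g x ^ j) t = (h ^ i * x ^ j) • t := by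
  rw [← map_pow, ← map_pow, ← map_mul, PT_apply]

theorem PT_zpow {G S : Type} [Group G] {g : S → G} (h x : G) (i j : ℤ)
    (t : Vtx g × Vtx g × Vtx g) : (PT g h ^ i * PT g x ^ j) t = (h ^ i * x ^ j) • t := by
  rw [← map_zpow, ← map_zpow, ← map_mul, PT_apply]

theorem osum_ne {X : Type} (σ τ : Equiv.Perm X) (t : X) (D : X →₀ ℤ) (h : osum σ τ t D ≠ 0) :
    ∃ a b : ℤ, (σ ^ a * τ ^ b) t ∈ D.support := by
  classical
  by_contra hcon
  push Not at hcon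
  apply h
  unfold osum
  rw [Finsupp.liftAddHom_apply, Finsupp.sum]
  refine Finset.sum_eq_zero fun x hx => ?_
  rw [if_neg]
  · rfl
  · rintro ⟨a, b, rfl⟩
    exact hcon a b hx

theorem card_le_nf {X : Type} (D : X →₀ ℤ) (s : Finset X) (hs : ∀ x ∈ s, D x ≠ 0) :
    s.card ≤ nf D := by
  classical
  have h1 : s ⊆ D.support := fun x hx => Finsupp.mem_support_iff.2 (hs x hx)
  calc s.card ≤ D.support.card := Finset.card_le_card h1
    _ = ∑ x ∈ D.support, 1 := by simp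
    _ ≤ ∑ x ∈ D.support, (D x).natAbs := by
        refine Finset.sum_le_sum fun x hx => ?_
        have := Finsupp.mem_support_iff.1 hx
        omega
    _ = nf D := rfl

end T5B

open T5B

theorem stmt_T5 (hDEC : Stmt_DEC) (hISOC : Stmt_ISOC) (hQUAD : Stmt_QUAD) (hSQS : Stmt_SQS)
    (hOSUM : Stmt_OSUM) (hZZS : Stmt_ZZS) (hT5C : Stmt_T5C) (hCONN : Pool.HA.Stmt_CONN)
    (hBD : Pool.HA.Stmt_BD) (hWCH : Pool.HA.Stmt_WCH) (hEXF : Pool.HA.Stmt_EXF) : Stmt_T5 := by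
  classical
  intro S _ M hM h x hFP
  obtain ⟨hhx, hfix⟩ := hFP
  have hfree : ∀ (a b : ℤ) (u : Vtx (gen M)), (h ^ a * x ^ b) • u = u → a = 0 ∧ b = 0 := by
    intro a b u hu
    by_contra hab
    exact hfix a b (by tauto) u hu
  obtain ⟨C, hC⟩ := hDEC S M hM
  obtain ⟨C', hC'⟩ := hISOC S M hM
  obtain ⟨w1, w2, w3, w4, w5⟩ := hWCH (Art M) S (gen M)
  set v : Vtx (gen M) := Vtx.mk (gen M) ∅ (by simp) 1 with hv
  obtain ⟨α, hα⟩ := hCONN S M v (h • v)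
  obtain ⟨β, hβ⟩ := hCONN S M v (x • v)
  -- the small square
  have hα' := w4 x _ _ _ hα
  have hβ' := w4 h _ _ _ hβ
  have ec : x • h • v = h • x • v := by rw [← mul_smul, ← mul_smul, hhx.eq]
  rw [ec] at hα'
  obtain ⟨l, hl, -, hlc⟩ := hQUAD (Art M) S (gen M) _ _ _ _ _ _ _ _ hα hβ'.1 hα'.1 hβ
  obtain ⟨D, n, hD⟩ := hEXF S M hM.ne_zero l hl
  obtain ⟨d1, d2, -⟩ := hBD (Art M) S (gen M) _ _ _ hD
  have hDb : bd2 (gen M) D = (wch α - act1 x (wch α)) - (wch β - act1 h (wch β)) := by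
    rw [d1, hlc, hα'.2, hβ'.2]; abel
  obtain ⟨t, ht⟩ := hOSUM S M h x ⟨hhx, hfix⟩ v α β D hα hβ d2 hDb
  obtain ⟨a0, b0, hab0⟩ := osum_ne _ _ _ _ ht
  rw [PT_zpow] at hab0
  have hty : t.1.ty = 0 := (d2 _ hab0).1
  obtain ⟨y, hy⟩ := t.1.exists_mem
  obtain ⟨-, z2, -⟩ := hZZS _ (PT (gen M) h) (PT (gen M) x) (hhx.map _)
  obtain ⟨K, hK⟩ := z2 D t (by
    intro a b hab
    rw [PT_zpow] at hab
    exact hfree a b t.1 (congrArg Prod.fst hab))
  by_contra hcon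
  push Not at hcon
  set C₁ : ℕ := 2 * α.length + 2 * β.length + 4 with hC₁
  obtain ⟨N, hN, hcount⟩ := hT5C (C * C₁ + C') K
  have hN0 : 0 < N := by omega
  -- the big square
  obtain ⟨p1, p2, p3⟩ := w5 h α v N hα
  obtain ⟨q1, q2, q3⟩ := w5 x β v N hβ
  obtain ⟨r1, r2⟩ := w4 (h ^ N) _ _ _ q1
  obtain ⟨s1, s2⟩ := w4 (x ^ N) _ _ _ p1
  have e1 : x ^ N • h ^ N • v = h ^ N • x ^ N • v := by
    rw [← mul_smul, ← mul_smul, (hhx.pow_pow N N).eq]
  rw [e1] at s1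
  obtain ⟨lN, g1, g2, g3⟩ := hQUAD (Art M) S (gen M) _ _ _ _ _ _ _ _ p1 r1 s1 q1
  have hlen : lN.length ≤ C₁ * N := by
    refine g2.trans ?_
    rw [List.length_map, List.length_map, p2, q2]
    have b1 : N * (α.length - 1) ≤ N * α.length := Nat.mul_le_mul_left _ (by omega)
    have b2 : N * (β.length - 1) ≤ N * β.length := Nat.mul_le_mul_left _ (by omega)
    rw [hC₁]
    nlinarith
  have hdec : ∃ (D' σ : C2 (gen M)) (Ks : Finset (Pl M)) (T : Pl M → C2 (gen M)),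
      Flagged D' ∧ bd2 (gen M) D' = cch lN ∧ D' = σ + ∑ κ ∈ Ks, T κ ∧
      nrm σ ≤ C * (C₁ * N) ∧
      (∀ κ ∈ Ks, ETri M κ.1 ∧ Flagged (T κ) ∧
        ∀ t ∈ (T κ).support, OnP M κ t.1 ∧ OnP M κ t.2.1 ∧ OnP M κ t.2.2) ∧
      ∑ κ ∈ Ks, nf (bd2 (gen M) (T κ)) ≤ C * (C₁ * N) := by
    by_cases h0 : lN = []
    · refine ⟨0, 0, ∅, 0, fun t ht => by simp at ht, ?_, by simp, by simp [nrm, nf],
        fun κ hκ => by simp at hκ, by simp⟩
      rw [map_zero, h0]; rfl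
    · obtain ⟨D', n', σ, Ks, T, f1, f2, f3, f4, f5⟩ := hC lN h0 g1
      obtain ⟨d1', d2', -⟩ := hBD (Art M) S (gen M) _ _ _ f1
      exact ⟨D', σ, Ks, T, d2', d1', f2, f3.trans (Nat.mul_le_mul_left _ hlen), f4,
        f5.trans (Nat.mul_le_mul_left _ hlen)⟩
  obtain ⟨D', σ, Ks, T, f0, f1, f2, f3, f4, f5⟩ := hdec
  have hD' := hSQS S M hM h x hhx v α β D hα hβ d2 hDb N N D' f0 (by
    rw [f1, g3, r2, s2]; abel)
  -- values
  have hval : ∀ i j : ℕ, K ≤ i → K ≤ j → i + K < N → j + K < N →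
      D' ((h ^ i * x ^ j) • t) ≠ 0 := by
    intro i j hi hj hi' hj'
    have := hK N i j hi hj hi' hj'
    rw [PT_pow, ← hD'] at this
    rw [this]
    exact ht
  -- injectivity
  have hinj : ∀ p q : ℕ × ℕ, (h ^ p.1 * x ^ p.2) • t = (h ^ q.1 * x ^ q.2) • t → p = q := by
    intro p q hpq
    have h1 : (h ^ ((p.1 : ℤ) - q.1) * x ^ ((p.2 : ℤ) - q.2)) • t.1 = t.1 := by
      have h2 : (h ^ p.1 * x ^ p.2) • t.1 = (h ^ q.1 * x ^ q.2) • t.1 := congrArg Prod.fst hpq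
      have h3 : h ^ ((p.1 : ℤ) - q.1) * x ^ ((p.2 : ℤ) - q.2) =
          (h ^ q.1 * x ^ q.2)⁻¹ * (h ^ p.1 * x ^ p.2) := by
        rw [zpow_sub, zpow_sub, zpow_natCast, zpow_natCast, zpow_natCast, zpow_natCast,
          mul_inv_rev]
        have c1 : Commute (h ^ q.1)⁻¹ (x ^ p.2) := (hhx.pow_pow _ _).inv_left
        have c2 : Commute (h ^ p.1) ((x ^ q.2)⁻¹) := (hhx.pow_pow _ _).inv_right
        have c3 : Commute (h ^ q.1)⁻¹ ((x ^ q.2)⁻¹) := (hhx.pow_pow _ _).inv_inv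
        have c4 : Commute (h ^ p.1) (h ^ q.1)⁻¹ := (Commute.refl h |>.pow_pow _ _).inv_right
        have c5 : Commute (x ^ p.2) ((x ^ q.2)⁻¹) := (Commute.refl x |>.pow_pow _ _).inv_right
        calc h ^ p.1 * (h ^ q.1)⁻¹ * (x ^ p.2 * (x ^ q.2)⁻¹)
            = h ^ p.1 * (h ^ q.1)⁻¹ * ((x ^ q.2)⁻¹ * x ^ p.2) := by rw [c5.eq]
          _ = h ^ p.1 * ((h ^ q.1)⁻¹ * (x ^ q.2)⁻¹) * x ^ p.2 := by simp only [mul_assoc]
          _ = h ^ p.1 * ((x ^ q.2)⁻¹ * (h ^ q.1)⁻¹) * x ^ p.2 := by rw [c3.eq]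
          _ = (h ^ p.1 * (x ^ q.2)⁻¹) * (h ^ q.1)⁻¹ * x ^ p.2 := by simp only [mul_assoc]
          _ = ((x ^ q.2)⁻¹ * h ^ p.1) * (h ^ q.1)⁻¹ * x ^ p.2 := by rw [c2.eq]
          _ = (x ^ q.2)⁻¹ * (h ^ p.1 * (h ^ q.1)⁻¹) * x ^ p.2 := by simp only [mul_assoc]
          _ = (x ^ q.2)⁻¹ * ((h ^ q.1)⁻¹ * h ^ p.1) * x ^ p.2 := by rw [c4.eq]
          _ = (x ^ q.2)⁻¹ * (h ^ q.1)⁻¹ * (h ^ p.1 * x ^ p.2) := by simp only [mul_assoc]
      rw [h3, mul_smul, h2, inv_smul_smul]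
    obtain ⟨h4, h5⟩ := hfree _ _ _ h1
    ext
    · omega
    · omega
  -- the sets
  let R : Finset (ℕ × ℕ) := Finset.range N ×ˢ Finset.range N
  let B : Finset (ℕ × ℕ) := Finset.Ico K (N - K) ×ˢ Finset.Ico K (N - K)
  let Zs : Finset (ℕ × ℕ) := R.filter (fun p => σ ((h ^ p.1 * x ^ p.2) • t) ≠ 0)
  let Z : Pl M → Finset (ℕ × ℕ) := fun κ => R.filter (fun p => T κ ((h ^ p.1 * x ^ p.2) • t) ≠ 0)
  have hcard : ∀ (P : C2 (gen M)) (s : Finset (ℕ × ℕ)),
      (∀ p ∈ s, P ((h ^ p.1 * x ^ p.2) • t) ≠ 0) → s.card ≤ nf P := by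
    intro P s hs
    have h1 : (s.image (fun p : ℕ × ℕ => (h ^ p.1 * x ^ p.2) • t)).card = s.card :=
      Finset.card_image_of_injective _ (fun p q hpq => hinj p q hpq)
    rw [← h1]
    apply card_le_nf
    intro z hz
    obtain ⟨p, hp, rfl⟩ := Finset.mem_image.1 hz
    exact hs p hp
  have hZs : Zs.card ≤ nrm σ := hcard σ Zs fun p hp => (Finset.mem_filter.1 hp).2
  have hZ1 : ∀ κ, (Z κ).card ≤ nf (T κ) := fun κ =>
    hcard (T κ) (Z κ) fun p hp => (Finset.mem_filter.1 hp).2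
  have hOn : ∀ κ ∈ Ks, ∀ p ∈ Z κ,
      (QuotientGroup.mk (h ^ p.1 * x ^ p.2 * y) : Art M ⧸ par (gen M) κ.1) = κ.2 := by
    intro κ hκ p hp
    have h1 := (Finset.mem_filter.1 hp).2
    have h2 := ((f4 κ hκ).2.2 _ (Finsupp.mem_support_iff.2 h1)).1
    obtain ⟨-, z, hz1, hz2⟩ := h2
    have h3 : ((h ^ p.1 * x ^ p.2) • t.1).mem (h ^ p.1 * x ^ p.2 * y) := Vtx.mem_smul _ hy
    have h4 : z = h ^ p.1 * x ^ p.2 * y := Vtx.mem0 (v := (h ^ p.1 * x ^ p.2) • t.1) hty hz1 h3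
    rw [← h4]; exact hz2
  have hZ2 : ∀ κ ∈ Ks, (Z κ).card ≤ N := by
    intro κ hκ
    have hE := (f4 κ hκ).1
    have hor : (∀ k : ℕ, 0 < k → y⁻¹ * h ^ k * y ∉ par (gen M) κ.1) ∨
        (∀ k : ℕ, 0 < k → y⁻¹ * x ^ k * y ∉ par (gen M) κ.1) := by
      by_contra hno
      push Not at hno
      obtain ⟨⟨k₁, hk₁, m₁⟩, ⟨k₂, hk₂, m₂⟩⟩ := hno
      apply hcon κ.1 y (k₁ * k₂) hE (Nat.mul_pos hk₁ hk₂)
      · have := (par (gen M) κ.1).pow_mem m₁ k₂
        have e : (y⁻¹ * h ^ k₁ * y) ^ k₂ = y⁻¹ * h ^ (k₁ * k₂) * y := by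
          have := conj_pow (a := y⁻¹) (b := h ^ k₁) (i := k₂)
          rw [inv_inv] at this
          rw [this, pow_mul]
        rwa [e] at this
      · have := (par (gen M) κ.1).pow_mem m₂ k₁
        have e : (y⁻¹ * x ^ k₂ * y) ^ k₁ = y⁻¹ * x ^ (k₁ * k₂) * y := by
          have := conj_pow (a := y⁻¹) (b := x ^ k₂) (i := k₁)
          rw [inv_inv] at this
          rw [this, mul_comm k₁ k₂, pow_mul]
        rwa [e] at this
    have hmk : ∀ p ∈ Z κ, ∀ q ∈ Z κ,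
        y⁻¹ * ((h ^ q.1 * x ^ q.2)⁻¹ * (h ^ p.1 * x ^ p.2)) * y ∈ par (gen M) κ.1 := by
      intro p hp q hq
      have h1 := (hOn κ hκ q hq).trans (hOn κ hκ p hp).symm
      have h2 := QuotientGroup.eq.1 h1
      have h3 : (h ^ q.1 * x ^ q.2 * y)⁻¹ * (h ^ p.1 * x ^ p.2 * y) =
          y⁻¹ * ((h ^ q.1 * x ^ q.2)⁻¹ * (h ^ p.1 * x ^ p.2)) * y := by group
      rwa [h3] at h2
    rcases hor with hor | hor
    · -- injective second coordinate
      have hlt : ∀ p ∈ Z κ, ∀ q ∈ Z κ, p.2 = q.2 → ¬ q.1 < p.1 := by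
        intro p hp q hq h2 h1
        apply hor (p.1 - q.1) (by omega)
        have h3 := hmk p hp q hq
        have h4 : (h ^ q.1 * x ^ q.2)⁻¹ * (h ^ p.1 * x ^ p.2) = h ^ (p.1 - q.1) := by
          have c1 : Commute (h ^ (p.1 - q.1)) (x ^ p.2) := hhx.pow_pow _ _
          have h5 : h ^ p.1 = h ^ q.1 * h ^ (p.1 - q.1) := by
            rw [← pow_add]; congr 1; omega
          rw [h5, ← h2, mul_assoc, c1.eq]
          group
        rwa [h4] at h3
      have h1 : (Z κ).card ≤ (Finset.range N).card := by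
        apply Finset.card_le_card_of_injOn Prod.snd
        · intro p hp
          have := (Finset.mem_filter.1 hp).1
          exact (Finset.mem_product.1 this).2
        · intro p hp q hq hpq
          have h1 := hlt p hp q hq hpq
          have h2 := hlt q hq p hp hpq.symm
          exact Prod.ext (by omega) hpq
      simpa using h1
    · have hlt : ∀ p ∈ Z κ, ∀ q ∈ Z κ, p.1 = q.1 → ¬ q.2 < p.2 := by
        intro p hp q hq h2 h1
        apply hor (p.2 - q.2) (by omega)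
        have h3 := hmk p hp q hq
        have h4 : (h ^ q.1 * x ^ q.2)⁻¹ * (h ^ p.1 * x ^ p.2) = x ^ (p.2 - q.2) := by
          have h5 : x ^ p.2 = x ^ q.2 * x ^ (p.2 - q.2) := by
            rw [← pow_add]; congr 1; omega
          rw [h5, ← h2]
          group
        rwa [h4] at h3
      have h1 : (Z κ).card ≤ (Finset.range N).card := by
        apply Finset.card_le_card_of_injOn Prod.fst
        · intro p hp
          have := (Finset.mem_filter.1 hp).1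
          exact (Finset.mem_product.1 this).1
        · intro p hp q hq hpq
          have h1 := hlt p hp q hq hpq
          have h2 := hlt q hq p hp hpq.symm
          exact Prod.ext hpq (by omega)
      simpa using h1
  have hB : B ⊆ Zs ∪ Ks.biUnion Z := by
    intro p hp
    obtain ⟨h1, h2⟩ := Finset.mem_product.1 hp
    rw [Finset.mem_Ico] at h1 h2
    have hR : p ∈ R := by
      apply Finset.mem_product.2
      simp only [Finset.mem_range]
      omega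
    have h3 := hval p.1 p.2 h1.1 h2.1 (by omega) (by omega)
    by_cases h4 : σ ((h ^ p.1 * x ^ p.2) • t) = 0
    · have h5 : ∃ κ ∈ Ks, T κ ((h ^ p.1 * x ^ p.2) • t) ≠ 0 := by
        by_contra hno
        push Not at hno
        apply h3
        rw [f2, Finsupp.add_apply, h4, zero_add, Finsupp.finsetSum_apply]
        exact Finset.sum_eq_zero hno
      obtain ⟨κ, hκ, hκ'⟩ := h5
      exact Finset.mem_union_right _ (Finset.mem_biUnion.2 ⟨κ, hκ, Finset.mem_filter.2 ⟨hR, hκ'⟩⟩)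
    · exact Finset.mem_union_left _ (Finset.mem_filter.2 ⟨hR, h4⟩)
  have hBc : B.card = (N - 2 * K) ^ 2 := by
    have : N - K - K = N - 2 * K := by omega
    rw [Finset.card_product, Nat.card_Ico, this, sq]
  have h1 : (N - 2 * K) ^ 2 ≤ nrm σ + ∑ κ ∈ Ks, (Z κ).card := by
    rw [← hBc]
    calc B.card ≤ (Zs ∪ Ks.biUnion Z).card := Finset.card_le_card hB
      _ ≤ Zs.card + (Ks.biUnion Z).card := Finset.card_union_le _ _
      _ ≤ nrm σ + ∑ κ ∈ Ks, (Z κ).card := Nat.add_le_add hZs Finset.card_biUnion_le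
  have h2 := hcount (Pl M) Ks (fun κ => (Z κ).card) (fun κ => nf (bd2 (gen M) (T κ))) (nrm σ)
    (f3.trans (by nlinarith)) (by
      intro κ hκ
      have a1 := hZ1 κ
      have a2 := hZ2 κ hκ
      have a3 := hC' (T κ) (f4 κ hκ).2.1
      have a4 : (Z κ).card ≤ C' * nf (bd2 (gen M) (T κ)) ^ 2 := a1.trans a3
      calc (Z κ).card ^ 2 = (Z κ).card * (Z κ).card := sq _
        _ ≤ N * (C' * nf (bd2 (gen M) (T κ)) ^ 2) := Nat.mul_le_mul a2 a4
        _ ≤ N * ((C * C₁ + C') * nf (bd2 (gen M) (T κ)) ^ 2) :=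
            Nat.mul_le_mul_left _ (Nat.mul_le_mul_right _ (Nat.le_add_left _ _)))
    (f5.trans (by nlinarith))
  exact absurd h2 (not_lt.2 h1)

end Pool.HE
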