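import Pool.Agent.Work.MP_7084a3_full.InterfaceE

set_option autoImplicit false

namespace Pool.HE

open Pool.HA

theorem stmt_T5C : Stmt_T5C := by
  intro C K
  refine ⟨(C ^ 2 + C + 2 * K + 3) ^ 2, by nlinarith [Nat.zero_le C, Nat.zero_le K], ?_⟩
  intro ι Ks Z L b hb hZ hL
  set M := C ^ 2 + C + 2 * K + 3 with hM
  have hZL : ∀ κ ∈ Ks, Z κ ≤ M * C * L κ := by
    intro κ hκ
    have h1 := hZ κ hκ
    have h2 : C ≤ C ^ 2 := by nlinarith [Nat.zero_le C, Nat.le_self_pow (two_ne_zero) C]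
    have h3 : Z κ ^ 2 ≤ (M * C * L κ) ^ 2 := by
      calc Z κ ^ 2 ≤ M ^ 2 * (C * L κ ^ 2) := h1
        _ ≤ M ^ 2 * (C ^ 2 * L κ ^ 2) := by gcongr
        _ = (M * C * L κ) ^ 2 := by ring
    exact (Nat.pow_le_pow_iff_left two_ne_zero).1 h3
  have hS : ∑ κ ∈ Ks, Z κ ≤ M * C * (C * M ^ 2) := by
    calc ∑ κ ∈ Ks, Z κ ≤ ∑ κ ∈ Ks, M * C * L κ := Finset.sum_le_sum hZL
      _ = M * C * ∑ κ ∈ Ks, L κ := by rw [Finset.mul_sum]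
      _ ≤ M * C * (C * M ^ 2) := by gcongr
  have h4 : M ^ 2 - M ≤ M ^ 2 - 2 * K := by omega
  have h5 : (M ^ 2 - M) ^ 2 ≤ (M ^ 2 - 2 * K) ^ 2 := Nat.pow_le_pow_left h4 2
  obtain ⟨m, hm⟩ : ∃ m, M = m + 1 := ⟨C ^ 2 + C + 2 * K + 2, by omega⟩
  have h6 : M ^ 2 - M = M * m := by
    rw [hm]
    have : (m + 1) ^ 2 = (m + 1) * m + (m + 1) := by ring
    omega
  rw [h6] at h5
  have h7 : m = C ^ 2 + C + 2 * K + 2 := by omega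
  have h8 : C + C ^ 2 * M < m ^ 2 := by
    rw [hm, h7]
    nlinarith [Nat.zero_le C, Nat.zero_le K, Nat.zero_le (C ^ 2), Nat.zero_le (C * K),
      Nat.zero_le (C ^ 2 * K), Nat.zero_le (K ^ 2), Nat.zero_le (C ^ 3), Nat.zero_le (C ^ 4)]
  have h9 : b + ∑ κ ∈ Ks, Z κ ≤ M ^ 2 * (C + C ^ 2 * M) := by
    calc b + ∑ κ ∈ Ks, Z κ ≤ C * M ^ 2 + M * C * (C * M ^ 2) := by gcongr
      _ = M ^ 2 * (C + C ^ 2 * M) := by ring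
  have h10 : M ^ 2 * (C + C ^ 2 * M) < M ^ 2 * m ^ 2 :=
    Nat.mul_lt_mul_of_pos_left h8 (by positivity)
  calc b + ∑ κ ∈ Ks, Z κ ≤ M ^ 2 * (C + C ^ 2 * M) := h9
    _ < M ^ 2 * m ^ 2 := h10
    _ = (M * m) ^ 2 := by ring
    _ ≤ _ := h5

end Pool.HE
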