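import Pool.Agent.Work.MP_7084a3_full.InterfaceG

/-! # Block TAU (helper17) -/

set_option autoImplicit false

namespace Pool.HE

open Pool.HA

theorem stmt_TAU : Stmt_TAU := by
  classical
  intro I Λ _ lab sw hsw hJ
  have hcard : ∀ l : Λ, Fintype.card {x // sw (lab x) = l} = Fintype.card {x // lab x = l} := by
    intro l
    have h := hJ (fun a => (if a = l then 1 else 0) - (if a = sw l then 1 else 0)) (by
      intro a
      have e1 : (sw a = l) ↔ (a = sw l) :=
        ⟨fun h => by rw [← h, hsw], fun h => by rw [h, hsw]⟩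
      have e2 : (sw a = sw l) ↔ (a = l) :=
        ⟨fun h => by rw [← hsw a, h, hsw], fun h => by rw [h]⟩
      simp only [e1, e2]
      ring)
    rw [Finset.sum_sub_distrib, Finset.sum_boole, Finset.sum_boole] at h
    rw [Fintype.card_subtype, Fintype.card_subtype]
    have e3 : (Finset.univ.filter fun x => sw (lab x) = l) =
        Finset.univ.filter fun x => lab x = sw l := by
      ext x
      simp only [Finset.mem_filter, Finset.mem_univ, true_and]
      exact ⟨fun h => by rw [← h, hsw], fun h => by rw [h, hsw]⟩
    rw [e3]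
    have h' : ((Finset.univ.filter fun x => lab x = l).card : ℤ) =
      ((Finset.univ.filter fun x => lab x = sw l).card : ℤ) := by
      simpa [sub_eq_zero] using h
    exact_mod_cast h'.symm
  set e : ∀ l : Λ, {x // sw (lab x) = l} ≃ {x // lab x = l} :=
    fun l => Fintype.equivOfCardEq (hcard l) with he
  refine ⟨((Equiv.sigmaFiberEquiv fun x => sw (lab x)).symm.trans
    (Equiv.sigmaCongrRight e)).trans (Equiv.sigmaFiberEquiv lab), ?_⟩
  intro x
  exact (e (sw (lab x)) ⟨x, rfl⟩).2

end Pool.HE
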