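import Pool.Agent.Work.MP_7084a3_full.InterfaceC

set_option autoImplicit false

/-! # Block TRI: the image of a reflection -/

namespace Pool.HE

open Pool.HA

namespace TRIB

theorem fix_zpow {G S : Type} [Group G] {g : S → G} {h : G} {v : Vtx g} (hv : h • v = v)
    (k : ℤ) : (h ^ k) • v = v := by
  have : h ∈ MulAction.stabilizer G v := hv
  exact (MulAction.stabilizer G v).zpow_mem this k

/-- the central element of the stabiliser of a type 2 vertex -/
theorem zc {S : Type} [DecidableEq S] (hDCEN : Pool.HA.Stmt_DCEN) {M : CoxeterMatrix S}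
    (hM : ETyp M) {s t : S} (hst : s ≠ t) {u : Vtx (gen M)} (hJ : u.J = {s, t}) {x : Art M}
    (hx : u.mem x) :
    (x * (gen M s * gen M t) ^ M s t * x⁻¹) • u = u ∧
      ∀ h : Art M, h • u = u → Commute (x * (gen M s * gen M t) ^ M s t * x⁻¹) h := by
  have hfix : ∀ h : Art M, h • u = u ↔ x⁻¹ * h * x ∈ pr (gen M) s t := fun h => Vtx.fix2 hJ hx h
  constructor
  · rw [hfix]
    have : x⁻¹ * (x * (gen M s * gen M t) ^ M s t * x⁻¹) * x = (gen M s * gen M t) ^ M s t := by
      group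
    rw [this]
    exact Subgroup.pow_mem _ (Subgroup.mul_mem _ (left_mem_pr s t) (right_mem_pr s t)) _
  · intro h hh
    rw [hfix] at hh
    have h1 := hDCEN S M hM.ne_zero s t hst _ hh
    have h3 : h = x * (x⁻¹ * h * x) * x⁻¹ := by group
    rw [h3]
    exact (Commute.conj_iff x).2 h1

/-- the stabiliser of a vertex of label 2 is abelian -/
theorem stab_comm {S : Type} [DecidableEq S] {M : CoxeterMatrix S} (hM : ETyp M) {s t : S}
    (hst : s ≠ t) (h2 : M s t = 2) {v : Vtx (gen M)} (hJ : v.J = {s, t}) {h h' : Art M}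
    (hh : h • v = v) (hh' : h' • v = v) : Commute h h' := by
  obtain ⟨x', hx'⟩ := v.exists_mem
  have hbr := braid M hst (hM.ne_zero s t)
  rw [h2] at hbr
  simp only [altG, mul_one] at hbr
  have hcomm : ∀ p ∈ pr (gen M) s t, ∀ q ∈ pr (gen M) s t, Commute p q := by
    have hself : ∀ p ∈ ({gen M s, gen M t} : Set (Art M)),
        ∀ q ∈ ({gen M s, gen M t} : Set (Art M)), Commute p q := by
      intro p hp q hq
      simp only [Set.mem_insert_iff, Set.mem_singleton_iff] at hp hq
      rcases hp with rfl | rfl <;> rcases hq with rfl | rfl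
      · exact Commute.refl _
      · exact hbr
      · exact hbr.symm
      · exact Commute.refl _
    intro p hp q hq
    have h1 : ∀ p ∈ ({gen M s, gen M t} : Set (Art M)), ∀ q ∈ pr (gen M) s t,
        Commute p q := by
      intro p hp q hq
      induction hq using Subgroup.closure_induction with
      | mem q hq => exact hself p hp q hq
      | one => exact Commute.one_right p
      | mul q q' _ _ h h' => exact h.mul_right h'
      | inv q _ h => exact h.inv_right
    induction hp using Subgroup.closure_induction with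
    | mem p hp => exact h1 p hp q hq
    | one => exact Commute.one_left q
    | mul p p' _ _ h h' => exact h.mul_left h'
    | inv p _ h => exact h.inv_left
  have ha' := (Vtx.fix2 hJ hx' h).1 hh
  have hb' := (Vtx.fix2 hJ hx' h').1 hh'
  have h3 := hcomm _ ha' _ hb'
  have e1 : h = x' * (x'⁻¹ * h * x') * x'⁻¹ := by group
  have e2 : h' = x' * (x'⁻¹ * h' * x') * x'⁻¹ := by group
  rw [e1, e2]
  exact (Commute.conj_iff x').2 h3

/-- the central element has positive exponent sum -/
theorem z_ne_one {S : Type} {M : CoxeterMatrix S} (hM : ETyp M) (s t : S) (x : Art M) :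
    x * (gen M s * gen M t) ^ M s t * x⁻¹ ≠ 1 := by
  intro h
  have h1 := congrArg (esum M) h
  rw [map_mul, map_mul, map_inv, mul_right_comm, mul_inv_cancel, one_mul, map_pow,
    map_mul, esum_gen, esum_gen, (esum M).map_one, ← ofAdd_add, ← ofAdd_nsmul] at h1
  have h2 : (M s t) • ((1 : ℤ) + 1) = 0 := Multiplicative.ofAdd.injective h1
  rw [nsmul_eq_mul] at h2
  have h3 : ((M s t : ℕ) : ℤ) ≠ 0 := by
    have := hM.ne_zero s t
    omega
  exact mul_ne_zero h3 (by norm_num : (1 : ℤ) + 1 ≠ 0) h2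

end TRIB

open TRIB

theorem stmt_TRI (hF4 : Stmt_F4) (hF5 : Stmt_F5) (hF6 : Stmt_F6) (hF7 : Stmt_F7)
    (hF10 : Stmt_F10) (hCZ : Stmt_CZ) (hDCEN : Pool.HA.Stmt_DCEN) (hDNCM : Pool.HA.Stmt_DNCM) :
    Stmt_TRI := by
  classical
  intro S S' _ _ M M' hM hM' hS φ r hr
  by_cases hN : NoFix M' (φ r)
  · exact Or.inr hN
  left
  unfold NoFix at hN
  push Not at hN
  obtain ⟨k, hk, v, hv⟩ := hN
  have hc1 : φ r ^ k ≠ 1 := by
    intro h
    rw [← map_zpow] at h
    have h2 : r ^ k = 1 := by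
      apply φ.injective
      rw [h, map_one]
    exact hr.zpow_ne_one hk h2
  have hcomm0 : ∀ y : Art M, Commute y r → Commute (φ y) (φ r ^ k) := fun y hy =>
    (hy.map φ).zpow_right k
  -- case R
  have caseR : (∃ r', Rfl (gen M') r' ∧ ∃ i : ℤ, φ r ^ k = r' ^ i) →
      ∃ r', Rfl (gen M') r' ∧ (φ r = r' ∨ φ r = r'⁻¹) := by
    rintro ⟨r', hr', i, hi⟩
    have hi0 : i ≠ 0 := by
      rintro rfl
      exact hc1 (by simpa using hi)
    have h1 : Commute (φ r) r' := by
      apply (hF4 S' M' hM' r' hr' i hi0).2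
      rw [← hi]
      exact (Commute.refl _).zpow_right k
    have h2 : ∃ l : ℤ, φ r = r' ^ l := by
      rcases Int.natAbs_eq k with h | h
      · apply hF6 S' M' hM' r' (φ r) k.natAbs i hr' h1 (Int.natAbs_pos.2 hk)
        rw [← zpow_natCast, ← h, hi]
      · apply hF6 S' M' hM' r' (φ r) k.natAbs (-i) hr' h1 (Int.natAbs_pos.2 hk)
        have h3 : ((k.natAbs : ℕ) : ℤ) = -k := by omega
        rw [← zpow_natCast, h3, zpow_neg, hi, zpow_neg]
    obtain ⟨l, hl⟩ := h2
    have hl0 : l ≠ 0 := by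
      rintro rfl
      rw [zpow_zero] at hl
      exact hc1 (by rw [hl, one_zpow])
    obtain ⟨j, hj⟩ := hF7 S M hM hS r (φ.symm r') hr (by
      intro y hy
      have h3 : Commute (φ y) (φ r) := hy.map φ
      rw [hl] at h3
      have h4 := (hF4 S' M' hM' r' hr' l hl0).2 _ h3
      have h5 := h4.map φ.symm
      simpa using h5.symm)
    have h6 := congrArg φ hj
    rw [MulEquiv.apply_symm_apply, map_zpow, hl, ← zpow_mul] at h6
    have h7 : r' ^ (1 : ℤ) = r' ^ (l * j) := by simpa using h6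
    have h8 : l * j = 1 := (hr'.zpow_inj hr' h7).symm
    refine ⟨r', hr', ?_⟩
    rcases Int.eq_one_or_neg_one_of_mul_eq_one h8 with h | h
    · left; rw [hl, h, zpow_one]
    · right; rw [hl, h, zpow_neg_one]
  rcases hF5 S' M' hM' (φ r ^ k) v hc1 hv with h | huniq
  · exact caseR h
  -- case D
  have hst : ∀ y : Art M, Commute y r → φ y • v = v := by
    intro y hy
    have h1 : (φ r ^ k) • (φ y • v) = φ y • v := Fx.of_commute (hcomm0 y hy) hv
    exact huniq 1 one_ne_zero _ (by simpa using h1)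
  by_cases hv1 : v.ty = 1
  · obtain ⟨r', hr', -, h⟩ := stab1 hv1
    obtain ⟨i, hi⟩ := h _ hv
    exact caseR ⟨r', hr', i, hi⟩
  exfalso
  have hv0 : v.ty ≠ 0 := ty_ne_zero_of_fix hc1 hv
  have hv2 : v.ty = 2 := by
    have := v.ty_le
    omega
  obtain ⟨s', t', hst', hJ'⟩ := Vtx.J2 hv2
  obtain ⟨x', hx'⟩ := v.exists_mem
  have hm' := hM'.two_le hst'
  rcases Nat.lt_or_ge 2 (M' s' t') with hm3 | hm2
  · -- label at least three
    obtain ⟨hζv, hζc⟩ := zc hDCEN hM' hst' hJ' hx'
    have hζ1 := z_ne_one hM' s' t' x'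
    set ζ : Art M' := x' * (gen M' s' * gen M' t') ^ M' s' t' * x'⁻¹ with hζ
    obtain ⟨j, hj⟩ := hF7 S M hM hS r (φ.symm ζ) hr (by
      intro y hy
      have h1 := (hζc _ (hst y hy)).map φ.symm
      simpa using h1)
    have hj0 : j ≠ 0 := by
      rintro rfl
      apply hζ1
      rw [zpow_zero] at hj
      have := congrArg φ hj
      simpa using this
    -- y
    obtain ⟨y, hy⟩ : ∃ y, y = φ.symm (x' * (gen M' s' * gen M' t') * x'⁻¹) := ⟨_, rfl⟩
    have hym : y ^ M' s' t' = r ^ j := by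
      rw [← hj, hy, ← map_pow, conj_pow]
    have hyr : Commute y r := by
      apply (hF4 S M hM r hr j hj0).2
      rw [← hym]
      exact (Commute.refl y).pow_right _
    obtain ⟨i, hi⟩ := hF6 S M hM r y (M' s' t') j hr hyr (by omega) hym
    obtain ⟨b, hb⟩ : ∃ b, b = φ.symm (x' * gen M' s' * x'⁻¹) := ⟨_, rfl⟩
    have hbfix : (x' * gen M' s' * x'⁻¹) • v = v := by
      rw [Vtx.fix2 hJ' hx']
      have : x'⁻¹ * (x' * gen M' s' * x'⁻¹) * x' = gen M' s' := by group
      rw [this]; exact left_mem_pr s' t'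
    have hbr : Commute b r := by
      apply (hF4 S M hM r hr j hj0).2
      rw [← hj, hb]
      exact ((hζc _ hbfix).symm).map φ.symm
    have hby : Commute b y := by
      rw [hi]; exact hbr.zpow_right i
    have h1 : Commute (x' * gen M' s' * x'⁻¹) (x' * (gen M' s' * gen M' t') * x'⁻¹) := by
      have := hby.map φ
      rw [hb, hy] at this
      simpa using this
    rw [Commute.conj_iff] at h1
    have h2 : Commute (gen M' s') (gen M' t') := by
      have h3 : gen M' t' = (gen M' s')⁻¹ * (gen M' s' * gen M' t') := by group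
      rw [h3]
      exact ((Commute.refl _).inv_right).mul_right h1
    have := hDNCM S' M' hM'.ne_zero s' t' hst' hm3 1 (by simpa using h2)
    omega
  · -- label two
    have h2 : M' s' t' = 2 := by omega
    obtain ⟨u₁, u₂, hne, hr1, hr2, hu⟩ := hF10 S M hM hS r hr
    obtain ⟨ht1, hl1⟩ := hu u₁ (by simp)
    obtain ⟨ht2, hl2⟩ := hu u₂ (by simp)
    obtain ⟨s₁, t₁, hst1, hJ1⟩ := Vtx.J2 ht1
    obtain ⟨s₂, t₂, hst2, hJ2⟩ := Vtx.J2 ht2
    rw [hJ1, lb_pair hst1 (hM.ne_zero _ _)] at hl1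
    rw [hJ2, lb_pair hst2 (hM.ne_zero _ _)] at hl2
    obtain ⟨x₁, hx₁⟩ := u₁.exists_mem
    obtain ⟨x₂, hx₂⟩ := u₂.exists_mem
    obtain ⟨-, c1⟩ := zc hDCEN hM hst1 hJ1 hx₁
    obtain ⟨-, c2⟩ := zc hDCEN hM hst2 hJ2 hx₂
    have k1 := hst _ (c1 r hr1)
    have k2 := hst _ (c2 r hr2)
    have h3 := (stab_comm hM' hst' h2 hJ' k1 k2).map φ.symm
    rw [MulEquiv.symm_apply_apply, MulEquiv.symm_apply_apply] at h3
    have d1 := (hCZ S M hM s₁ t₁ x₁ u₁ hst1 hl1 (by intro a; rw [hJ1]; simp) hx₁ 1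
      one_ne_zero).2 (x₂ * (gen M s₂ * gen M t₂) ^ M s₂ t₂ * x₂⁻¹) (by
        rw [zpow_one]; exact h3.symm)
    have d2 := (hCZ S M hM s₂ t₂ x₂ u₂ hst2 hl2 (by intro a; rw [hJ2]; simp) hx₂ 1
      one_ne_zero).1 u₁ (by rw [zpow_one]; exact d1)
    exact hne d2

end Pool.HE
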