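import Pool.Agent.Work.MP_7084a3_full.InterfaceG

set_option autoImplicit false

/-! # Block TRJ: trajectories of a finite partial injection without cycles -/

namespace Pool.HE

open Pool.HA Relation

namespace TRJp

theorem toChain {I : Type} {R : I → I → Prop} {x y : I} (h : ReflTransGen R x y) :
    ∃ l : List I, l.IsChain R ∧ l.head? = some x ∧ l.getLast? = some y := by
  induction h using ReflTransGen.head_induction_on with
  | refl => exact ⟨[y], by simp, rfl, rfl⟩
  | @head a b hab _ ih =>
    obtain ⟨l, h1, h2, h3⟩ := ih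
    cases l with
    | nil => simp at h2
    | cons c l =>
      simp only [List.head?_cons, Option.some.injEq] at h2
      subst h2
      refine ⟨a :: c :: l, ?_, rfl, ?_⟩
      · exact List.isChain_cons_cons.mpr ⟨hab, h1⟩
      · rw [List.getLast?_cons_cons]; exact h3

end TRJp

open TRJp in
theorem stmt_TRJ : Stmt_TRJ := by
  intro I _ R hf hi hc
  have hirr : ∀ x, ¬ TransGen R x x := by
    intro x hx
    obtain ⟨y, hxy, hyx⟩ := TransGen.head'_iff.mp hx
    obtain ⟨l, h1, h2, h3⟩ := toChain hyx
    exact hc l h1 y h2 x h3 hxy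
  have hwf : WellFounded (fun a b : I => TransGen R b a) := by
    have : IsTrans I (fun a b : I => TransGen R b a) := ⟨fun a b c h1 h2 => h2.trans h1⟩
    have : Std.Irrefl (fun a b : I => TransGen R b a) := ⟨fun a h => hirr a h⟩
    exact Finite.wellFounded_of_trans_of_irrefl _
  have hex : ∀ x, ∃ t, ReflTransGen R x t ∧ ∀ y, ¬ R t y := by
    intro x
    induction x using hwf.induction with
    | _ x ih =>
      by_cases h : ∃ y, R x y
      · obtain ⟨y, hy⟩ := h
        obtain ⟨t, h1, h2⟩ := ih y (TransGen.single hy)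
        exact ⟨t, ReflTransGen.head hy h1, h2⟩
      · exact ⟨x, ReflTransGen.refl, fun y hy => h ⟨y, hy⟩⟩
  choose f hf1 hf2 using hex
  refine ⟨f, hf2, ?_⟩
  intro x y hxy
  have h1 := hf1 x
  have h2 := hf1 y
  rw [← hxy] at h2
  have h3 : ReflTransGen R x y ∨ ReflTransGen R y x := by
    have u : Relator.RightUnique (Function.swap R) := fun a b c h h' => hi b c a h h'
    have := ReflTransGen.total_of_right_unique u (reflTransGen_swap.mpr h1)
      (reflTransGen_swap.mpr h2)
    rcases this with h | h
    · right; exact reflTransGen_swap.mp h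
    · left; exact reflTransGen_swap.mp h
  rcases h3 with h | h
  · obtain ⟨l, a, b, c⟩ := toChain h
    exact ⟨l, a, Or.inl ⟨b, c⟩⟩
  · obtain ⟨l, a, b, c⟩ := toChain h
    exact ⟨l, a, Or.inr ⟨b, c⟩⟩

end Pool.HE
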