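import Pool.Agent.Work.MP_7084a3_full.InterfaceE
import Pool.Agent.Work.MP_7084a3_helper90.Common

set_option autoImplicit false

/-! # Block U0: the orbit of a vertex under one element of a free pair is not bounded -/

namespace Pool.HE

open Pool.HA

theorem stmt_U0 (hOSUM : Stmt_OSUM) (hZZS : Stmt_ZZS) (hQUAD : Stmt_QUAD) (hISOQ : Stmt_ISOQ)
    (hINJ2 : Stmt_INJ2) (hBD : Pool.HA.Stmt_BD) (hWCH : Pool.HA.Stmt_WCH)
    (hCONN : Pool.HA.Stmt_CONN) (hACT : Pool.HA.Stmt_ACT) (hEXF : Pool.HA.Stmt_EXF) :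
    Stmt_U0 := by
  classical
  intro S _ M hM h x hFP y L₀
  by_contra hcon
  push Not at hcon
  obtain ⟨hhx, hfix⟩ := hFP
  obtain ⟨C, hC⟩ := hISOQ S M hM
  obtain ⟨w1, w2, w3, w4, w5⟩ := hWCH (Art M) S (gen M)
  obtain ⟨a1, a2, a3, a4, a5, a6, a7, a8, a9⟩ := hACT (Art M) S (gen M)
  obtain ⟨α, hα⟩ := hCONN S M y (h • y)
  obtain ⟨η, hη⟩ := hCONN S M y (x • y)
  -- the small square
  have hα' := w4 x _ _ _ hα
  have hη' := w4 h _ _ _ hη
  have ec : x • h • y = h • x • y := by rw [← mul_smul, ← mul_smul, hhx.eq]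
  rw [ec] at hα'
  obtain ⟨l, hl, -, hlc⟩ := hQUAD (Art M) S (gen M) _ _ _ _ _ _ _ _ hα hη'.1 hα'.1 hη
  obtain ⟨D₁, n, hD⟩ := hEXF S M hM.ne_zero l hl
  obtain ⟨d1, d2, -⟩ := hBD (Art M) S (gen M) _ _ _ hD
  have hDb : bd2 (gen M) D₁ = (wch α - act1 x (wch α)) - (wch η - act1 h (wch η)) := by
    rw [d1, hlc, hα'.2, hη'.2]; abel
  obtain ⟨t, ht⟩ := hOSUM S M h x ⟨hhx, hfix⟩ y α η D₁ hα hη d2 hDb
  obtain ⟨-, -, z3⟩ := hZZS _ (PT (gen M) h) (PT (gen M) x) (hhx.map _)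
  set O : C2 (gen M) →+ ℤ := osum (PT (gen M) h) (PT (gen M) x) t with hO
  have hOh : ∀ D : C2 (gen M), O (act2 h D) = O D := fun D => (z3 D t).1
  have hOx : ∀ D : C2 (gen M), O (act2 x D) = O D := fun D => (z3 D t).2.1
  have hOn : ∀ D : C2 (gen M), (O D).natAbs ≤ nf D := fun D => (z3 D t).2.2
  have hOi : ∀ (i : ℕ) (D : C2 (gen M)), O (act2 (h ^ i) D) = O D := by
    intro i
    induction i with
    | zero => intro D; rw [pow_zero, a7]
    | succ i ih => intro D; rw [pow_succ, a4, ih, hOh]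
  set B : ℕ := C * (2 * L₀ + 2 * η.length) ^ 2 with hB
  obtain ⟨β, hβ, hβL⟩ := hcon (B + 1)
  set N : ℕ := B + 1 with hN
  -- the thin square
  have hβ' := w4 x _ _ _ hβ
  have hη2 := w4 (h ^ N) _ _ _ hη
  have ec2 : x • h ^ N • y = h ^ N • x • y := by
    rw [← mul_smul, ← mul_smul, (hhx.symm.pow_right N).eq]
  rw [ec2] at hβ'
  obtain ⟨l', hl', hll, hlc'⟩ := hQUAD (Art M) S (gen M) _ _ _ _ _ _ _ _ hβ hη2.1 hβ'.1 hη
  obtain ⟨D', n', f1, f2⟩ := hC l' hl'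
  obtain ⟨e1, e2, e3⟩ := hBD (Art M) S (gen M) _ _ _ f1
  have hnf : nf D' ≤ B := by
    refine e3.trans (f2.trans ?_)
    rw [hB]
    apply Nat.mul_le_mul_left
    apply Nat.pow_le_pow_left
    refine hll.trans ?_
    rw [List.length_map, List.length_map]
    omega
  -- the filling of the long bigon
  obtain ⟨p1, p2, p3⟩ := w5 h α y N hα
  obtain ⟨c1, c2⟩ := w3 _ _ _ _ p1 hβ
  obtain ⟨G, m, hG⟩ := hEXF S M hM.ne_zero _ c1
  obtain ⟨g1, g2, -⟩ := hBD (Art M) S (gen M) _ _ _ hG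
  rw [c2] at g1
  have hflsum : ∀ (s : Finset ℕ) (f : ℕ → C2 (gen M)), (∀ i ∈ s, Flagged (f i)) →
      Flagged (∑ i ∈ s, f i) := by
    intro s f
    induction s using Finset.induction_on with
    | empty => intro _ t ht; simp at ht
    | insert i s hi ih =>
      intro hf
      rw [Finset.sum_insert hi]
      exact (a3 _ _ (hf i (Finset.mem_insert_self _ _))
        (ih fun j hj => hf j (Finset.mem_insert_of_mem hj))).1
  have hfl1 : Flagged (∑ i ∈ Finset.range N, act2 (h ^ i) D₁) :=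
    hflsum _ _ fun i _ => (a1 _ _).2.1 d2
  have hfl2 : Flagged (D' + (G - act2 x G)) :=
    (a3 _ _ e2 (a3 _ _ g2 ((a1 _ _).2.1 g2)).2).1
  have key : ∑ i ∈ Finset.range N, act2 (h ^ i) D₁ = D' + (G - act2 x G) := by
    rw [← sub_eq_zero]
    apply hINJ2 S M hM _ ((a3 _ _ hfl1 hfl2).2)
    rw [map_sub, map_add, map_sub, (a1 _ _).1, g1, e1, hlc', hβ'.2, hη2.2, map_sum]
    have s1 : ∑ i ∈ Finset.range N, bd2 (gen M) (act2 (h ^ i) D₁) =
        (wch (pw h α N) - act1 x (wch (pw h α N))) - (wch η - act1 (h ^ N) (wch η)) := by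
      have s2 : ∀ i ∈ Finset.range N, bd2 (gen M) (act2 (h ^ i) D₁) =
          (act1 (h ^ i) (wch α) - act1 x (act1 (h ^ i) (wch α))) -
            act1 (h ^ i) (wch η - act1 h (wch η)) := by
        intro i _
        rw [(a1 _ _).1, hDb, map_sub (act1 (h ^ i)), map_sub (act1 (h ^ i)) (wch α), ← a5, ← a5,
          (hhx.pow_left i).eq]
      rw [Finset.sum_congr rfl s2, Finset.sum_sub_distrib, Finset.sum_sub_distrib,
        H90.tele hACT, ← map_sum, ← p3]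
    rw [s1, map_sub]
    abel
  have h1 := congrArg O key
  rw [map_sum, map_add, map_sub, hOx, sub_self, add_zero,
    Finset.sum_congr rfl (fun i _ => hOi i D₁), Finset.sum_const, Finset.card_range,
    nsmul_eq_mul] at h1
  have h2 := (hOn D').trans hnf
  rw [← h1, Int.natAbs_mul, Int.natAbs_natCast] at h2
  have h3 : 1 ≤ (O D₁).natAbs := by
    have : (O D₁).natAbs ≠ 0 := Int.natAbs_ne_zero.2 ht
    omega
  have h4 : N * 1 ≤ N * (O D₁).natAbs := Nat.mul_le_mul_left _ h3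
  omega

end Pool.HE
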