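import Pool.Agent.Work.MP_7084a3_full.InterfaceE

/-! # Block U1 (helper85) -/

set_option autoImplicit false

namespace Pool.HE

open Pool.HA

namespace U1h

theorem card_le_nf {X : Type} (D : X →₀ ℤ) : D.support.card ≤ nf D := by
  unfold nf Finsupp.sum
  rw [Finset.card_eq_sum_ones]
  apply Finset.sum_le_sum
  intro x hx
  have := Finsupp.mem_support_iff.1 hx
  have : 0 < (D x).natAbs := Int.natAbs_pos.2 this
  exact this

theorem supp_dl1 {G S : Type} [Group G] {g : S → G} {x y : Vtx g} (h : x.ad y) :
    ∀ p ∈ (dl1 x y).support, p.1.ad p.2 := by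
  classical
  intro p hp
  unfold dl1 at hp
  split_ifs at hp with hl
  · have := Finsupp.support_single_subset hp
    rw [Finset.mem_singleton] at this
    subst this
    exact h
  · simp at hp

theorem supp_EE {G S : Type} [Group G] {g : S → G} {x y : Vtx g} (h : x.ad y) :
    ∀ p ∈ (EE x y).support, p.1.ad p.2 := by
  classical
  intro p hp
  unfold EE at hp
  have := Finsupp.support_sub hp
  rcases Finset.mem_union.1 this with h1 | h1
  · exact supp_dl1 h p h1
  · exact supp_dl1 (Vtx.ad_symm h) p h1

theorem supp_wch {G S : Type} [Group G] {g : S → G} : ∀ (l : List (Vtx g)), l.IsChain Vtx.ad →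
    ∀ p ∈ (wch l).support, p.1.ad p.2 := by
  classical
  intro l
  induction l with
  | nil => intro _ p hp; simp [wch] at hp
  | cons a l ih =>
    intro hc p hp
    cases l with
    | nil => simp [wch] at hp
    | cons b l =>
      rw [List.isChain_cons_cons] at hc
      rw [wch] at hp
      have := Finsupp.support_add hp
      rcases Finset.mem_union.1 this with h1 | h1
      · exact supp_EE hc.1 p h1
      · exact ih hc.2 p h1

theorem mem_ends {V : Type} [DecidableEq V] (A : Finset (V × V)) : ∀ (l : List V),
    l.IsChain (fun a b => (a, b) ∈ A ∨ (b, a) ∈ A) →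
    ∀ x ∈ l.tail, x ∈ A.image Prod.fst ∪ A.image Prod.snd := by
  intro l
  induction l with
  | nil => intro _ x hx; simp at hx
  | cons a l ih =>
    intro hc x hx
    cases l with
    | nil => simp at hx
    | cons b l =>
      rw [List.isChain_cons_cons] at hc
      simp only [List.tail_cons, List.mem_cons] at hx
      rcases hx with rfl | hx
      · rw [Finset.mem_union]
        rcases hc.1 with h | h
        · right; exact Finset.mem_image.2 ⟨_, h, rfl⟩
        · left; exact Finset.mem_image.2 ⟨_, h, rfl⟩
      · exact ih hc.2 x (by simpa using hx)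

end U1h

open U1h in
theorem stmt_U1 (hU1C : Stmt_U1C) (hZG2 : Stmt_ZG2) (hBD1 : Pool.HA.Stmt_BD1)
    (hCONN : Pool.HA.Stmt_CONN) : Stmt_U1 := by
  classical
  intro S _ M hM E y₁ y₂ h hne h1 h2
  obtain ⟨δ, hδ⟩ := hCONN S M (o0 M y₁) (o0 M y₂)
  refine ⟨2 * (54 * δ.length) + 1, fun N => ?_⟩
  by_cases hN : h ^ N = 1
  · refine ⟨[o0 M y₁], ⟨rfl, ?_, by simp⟩, by simp⟩
    rw [hN, one_smul]
    rfl
  · obtain ⟨β, hβ, hnf⟩ := hU1C S M hM E y₁ y₂ h δ hne h1 h2 hδ N hN
    have hvw : o0 M y₁ ≠ h ^ N • o0 M y₁ := by
      intro e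
      have h0 : (o0 M y₁).ty = 0 := rfl
      exact hN (Vtx.fix0 h0 e.symm)
    have hb := (hBD1 (Art M) S (gen M)).1 β _ _ hβ
    have hb' : ((wch β).sum fun p a => a • (Finsupp.single p.2 (1 : ℤ) - Finsupp.single p.1 1)) =
        Finsupp.single (h ^ N • o0 M y₁) 1 - Finsupp.single (o0 M y₁) 1 := by
      rw [← hb]
      rfl
    obtain ⟨l, hl1, hl2, hl3, hl4⟩ := hZG2 (Vtx (gen M)) (wch β) _ _ hvw hb'
    refine ⟨l, ⟨hl1, hl2, ?_⟩, ?_⟩
    · refine hl4.imp ?_
      intro a b hab
      rcases hab with hab | hab
      · have := supp_wch β hβ.2.2 (a, b) hab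
        exact this
      · have := supp_wch β hβ.2.2 (b, a) hab
        exact Vtx.ad_symm this
    · have hends := mem_ends (wch β).support l hl4
      have hc : l.tail.toFinset ⊆ (wch β).support.image Prod.fst ∪ (wch β).support.image Prod.snd := by
        intro x hx
        exact hends x (by simpa using hx)
      have hcard := Finset.card_le_card hc
      have hnd : l.tail.Nodup := hl3.tail
      rw [List.toFinset_card_of_nodup hnd] at hcard
      have h3 := Finset.card_union_le ((wch β).support.image Prod.fst) ((wch β).support.image Prod.snd)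
      have h4 := Finset.card_image_le (s := (wch β).support) (f := Prod.fst)
      have h5 := Finset.card_image_le (s := (wch β).support) (f := Prod.snd)
      have h6 := card_le_nf (wch β)
      have h7 : l.length ≤ l.tail.length + 1 := by
        rw [List.length_tail]; omega
      omega

end Pool.HE
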