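import Pool.Agent.Work.MP_7084a3_full.InterfaceE
import Pool.Agent.Work.MP_7084a3_h91.InterfaceX
import Pool.Agent.Work.MP_7084a3_h91.Basic

set_option autoImplicit false

/-! # U1A: the loop system of a strip (helper44) -/

namespace Pool.HE

open Pool.HA

namespace U1A

section lists
variable {V : Type}

theorem cyc_next {α : Type} {R : α → α → Prop} {P : List α} (hc : P.IsChain R)
    (hl : ∀ a ∈ P.getLast?, ∀ b ∈ P.head?, R a b) {x y : List α} {q : α}
    (hP : P = x ++ q :: y) :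
    (∀ r ∈ (y ++ x).head?, R q r) ∧ (∀ p ∈ (y ++ x).getLast?, R p q) := by
  subst hP
  rw [List.isChain_append] at hc
  obtain ⟨h1, h2, h3⟩ := hc
  constructor
  · intro r hr
    cases y with
    | nil =>
      cases x with
      | nil => simp at hr
      | cons a x =>
        simp only [List.nil_append, List.head?_cons, Option.mem_def, Option.some.injEq] at hr
        subst hr
        exact hl q (by rw [List.getLast?_append]; simp) a (by simp)
    | cons b y =>
      simp only [List.cons_append, List.head?_cons, Option.mem_def, Option.some.injEq] at hr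
      subst hr
      exact (List.isChain_cons_cons.1 h2).1
  · intro p hp
    rcases List.eq_nil_or_concat x with rfl | ⟨x', a, rfl⟩
    · rw [List.append_nil] at hp
      refine hl p ?_ q (by simp)
      rw [List.nil_append]
      cases y with
      | nil => simp at hp
      | cons b y => simpa using hp
    · simp only [List.concat_eq_append, ← List.append_assoc, List.getLast?_append,
        List.getLast?_singleton, Option.some_or, Option.mem_def, Option.some.injEq] at hp
      subst hp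
      exact h3 a (by simp) q (by simp)

theorem cw_of_chain {adj : V → V → Prop} {l : List V} (h2 : 2 ≤ l.length) (hc : l.IsChain adj)
    (hl : ∀ a ∈ l.getLast?, ∀ b ∈ l.head?, adj a b) : CW adj l := by
  intro x q y hP
  have h := (cyc_next hc hl hP).1
  cases hh : (y ++ x).head? with
  | none =>
    rw [List.head?_eq_none_iff] at hh
    have := congrArg List.length hP
    have h3 := congrArg List.length hh
    simp only [List.length_append, List.length_cons, List.length_nil] at this h3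
    omega
  | some r => exact ⟨r, rfl, h r hh⟩

theorem mem_gapsGo {f : V} {l : List (V × ℕ)} {v : V} {s : Stp V} :
    ∀ {p : V}, (v, s) ∈ gapsGo f p l →
    ∃ x y, l = x ++ (v, s.k) :: y ∧ s.a ∈ (y.map Prod.fst ++ [f]).head? ∧
      s.b ∈ (p :: x.map Prod.fst).getLast? := by
  induction l with
  | nil => intro p h; simp [gapsGo] at h
  | cons q l ih =>
    intro p h
    cases l with
    | nil =>
      simp only [gapsGo, List.mem_singleton, Prod.mk.injEq] at h
      obtain ⟨rfl, rfl⟩ := h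
      exact ⟨[], [], by simp⟩
    | cons r l =>
      rw [gapsGo, List.mem_cons] at h
      rcases h with h | h
      · simp only [Prod.mk.injEq] at h
        obtain ⟨rfl, rfl⟩ := h
        exact ⟨[], r :: l, by simp⟩
      · obtain ⟨x, y, h1, h2, h3⟩ := ih h
        refine ⟨q :: x, y, by rw [h1]; rfl, h2, ?_⟩
        rw [List.map_cons, List.getLast?_cons_cons]
        exact h3

theorem mem_gaps {P : List (V × ℕ)} (hP : 2 ≤ P.length) {v : V} {s : Stp V}
    (h : (v, s) ∈ gaps P) : ∃ x y r p, P = x ++ (v, s.k) :: y ∧ r ∈ (y ++ x).head? ∧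
      p ∈ (y ++ x).getLast? ∧ s.a = r.1 ∧ s.b = p.1 := by
  unfold gaps at h
  cases h1 : P.head? with
  | none => rw [h1] at h; simp at h
  | some q =>
    cases h2 : P.getLast? with
    | none => rw [h1, h2] at h; simp at h
    | some r =>
      rw [h1, h2] at h
      simp only at h
      obtain ⟨x, y, e, ha, hb⟩ := mem_gapsGo h
      have hxy : y ++ x ≠ [] := by
        intro h3
        have := congrArg List.length e
        have h3' := congrArg List.length h3
        simp only [List.length_append, List.length_cons, List.length_nil] at this h3'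
        omega
      -- next
      have hn : ∃ r' ∈ (y ++ x).head?, s.a = r'.1 := by
        cases y with
        | nil =>
          cases x with
          | nil => simp at hxy
          | cons c x =>
            refine ⟨c, by simp, ?_⟩
            rw [e] at h1
            simp only [List.cons_append, List.head?_cons, Option.some.injEq] at h1
            subst h1
            simpa [eq_comm] using ha
        | cons c y =>
          refine ⟨c, by simp, ?_⟩
          simpa [eq_comm] using ha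
      have hp : ∃ p' ∈ (y ++ x).getLast?, s.b = p'.1 := by
        rcases List.eq_nil_or_concat x with rfl | ⟨x', a, rfl⟩
        · rw [List.append_nil] at hxy ⊢
          rcases List.eq_nil_or_concat y with rfl | ⟨y', a, rfl⟩
          · simp at hxy
          · refine ⟨a, by simp, ?_⟩
            rw [e] at h2
            simp only [List.concat_eq_append, List.nil_append, ← List.cons_append,
              List.getLast?_append, List.getLast?_singleton, Option.some_or,
              Option.some.injEq] at h2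
            subst h2
            simpa [eq_comm] using hb
        · refine ⟨a, by simp, ?_⟩
          simp only [List.concat_eq_append, List.map_append, List.map_cons, List.map_nil,
            ← List.cons_append, List.getLast?_append, List.getLast?_singleton, Option.some_or,
            Option.mem_def, Option.some.injEq] at hb
          exact hb.symm
      obtain ⟨r', hr', hr''⟩ := hn
      obtain ⟨p', hp', hp''⟩ := hp
      exact ⟨x, y, r', p', e, hr', hp', hr'', hp''⟩

theorem gapsGo_k {B : Type} [AddCommMonoid B] (G : ℕ → B) (f : V) (l : List (V × ℕ)) :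
    ∀ p : V, ((gapsGo f p l).map (fun q => G q.2.k)).sum = (l.map (fun q => G q.2)).sum := by
  induction l with
  | nil => intro p; simp [gapsGo]
  | cons q l ih =>
    intro p
    cases l with
    | nil => simp [gapsGo]
    | cons r l =>
      rw [gapsGo, List.map_cons, List.sum_cons, ih]
      simp

theorem gaps_k {B : Type} [AddCommMonoid B] (G : ℕ → B) (P : List (V × ℕ)) :
    ((gaps P).map (fun q => G q.2.k)).sum = (P.map (fun q => G q.2)).sum := by
  unfold gaps
  cases P with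
  | nil => simp
  | cons q l =>
    cases h2 : (q :: l).getLast? with
    | none => simp at h2
    | some r =>
      simp only [List.head?_cons]
      exact gapsGo_k G _ _ _

/-- positions of one side of the strip -/
def kd (a m b : ℕ) (v : V) (mid : List V) (e : V) : List (V × ℕ) :=
  (v, a) :: (mid.map (fun w => (w, m)) ++ [(e, b)])

theorem kd_fst (a m b : ℕ) (v : V) (mid : List V) (e : V) :
    (kd a m b v mid e).map Prod.fst = v :: (mid ++ [e]) := by
  simp [kd, Function.comp_def]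

theorem kd_split {a m b : ℕ} (ha : a ≠ b) (hm : m ≠ b) (ham : a ≠ m) {L₁ L₂ : List (V × ℕ)}
    (h1 : ∀ q ∈ L₁, q.2 ≠ a ∧ q.2 ≠ m) (h2 : ∀ q ∈ L₂, q.2 ≠ a ∧ q.2 ≠ m) {v e : V}
    {mid : List V} {x y : List (V × ℕ)} {q : V × ℕ}
    (hP : L₁ ++ (kd a m b v mid e ++ L₂) = x ++ q :: y) (hq : q.2 = a ∨ q.2 = m) :
    ∃ x' r y', x = L₁ ++ x' ∧ y = r :: (y' ++ L₂) ∧ kd a m b v mid e = x' ++ q :: r :: y' ∧
      (q.2 = m → x' ≠ []) := by
  have hqn : ¬ (q.2 ≠ a ∧ q.2 ≠ m) := by tauto
  rw [List.append_eq_append_iff] at hP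
  rcases hP with ⟨x', hx, hP⟩ | ⟨c, hc, hP⟩
  · rw [List.append_eq_append_iff] at hP
    rcases hP with ⟨z, hz, hP⟩ | ⟨c, hc, hP⟩
    · exact absurd (h2 q (by rw [hP]; simp)) hqn
    · cases c with
      | nil =>
        rw [List.nil_append] at hP
        exact absurd (h2 q (by rw [← hP]; simp)) hqn
      | cons q' c =>
        rw [List.cons_append] at hP
        injection hP with e1 e2
        subst e1
        have hlast : (kd a m b v mid e).getLast? = some (e, b) := by
          unfold kd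
          rw [← List.cons_append, List.getLast?_append]
          simp
        have hhead : (kd a m b v mid e).head? = some (v, a) := rfl
        cases c with
        | nil =>
          rw [hc, List.getLast?_append] at hlast
          simp only [List.getLast?_singleton, Option.some_or, Option.some.injEq] at hlast
          rw [hlast] at hq
          simp only at hq
          rcases hq with h | h
          · exact absurd h.symm ha
          · exact absurd h.symm hm
        | cons r y' =>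
          refine ⟨x', r, y', hx, by rw [e2]; rfl, hc, ?_⟩
          rintro hqm rfl
          rw [hc] at hhead
          simp only [List.nil_append, List.head?_cons, Option.some.injEq] at hhead
          rw [hhead] at hqm
          exact ham hqm
  · cases c with
    | nil =>
      -- then `x = L₁`
      rw [List.append_nil] at hc
      rw [List.nil_append] at hP
      subst hc
      have hlen : 2 ≤ (kd a m b v mid e).length := by simp [kd]
      unfold kd at hP ⊢
      rw [List.cons_append] at hP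
      injection hP with e1 e2
      subst e1
      cases hmid : mid.map (fun w => (w, m)) ++ [(e, b)] with
      | nil => simp at hmid
      | cons r y' =>
        refine ⟨[], r, y', by simp, ?_, by simp, ?_⟩
        · rw [e2, hmid]; rfl
        · intro h; exact absurd h ham
    | cons q' c =>
      rw [List.cons_append] at hP
      injection hP with e1 e2
      subst e1
      exact absurd (h1 q (by rw [hc]; simp)) hqn

/-- consecutive positions of the strip -/
def Rel (adj : V → V → Prop) (la lb : ℕ → ℕ) (Y : ℕ → Set V) (q r : V × ℕ) : Prop :=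
  adj q.1 r.1 ∧ la q.2 = lb r.2 ∧ (la q.2 ≠ 0 → q.1 ∈ Y (la q.2) ∧ r.1 ∈ Y (la q.2))

theorem seg {adj : V → V → Prop} {la lb : ℕ → ℕ} {Y : ℕ → Set V} {i m k' : ℕ} {e : V}
    (hm1 : la m = i) (hm2 : lb m = i) (hk' : lb k' = i) (mid : List V) :
    ∀ (v : V) (k : ℕ), la k = i → (v :: (mid ++ [e])).IsChain adj →
      (i ≠ 0 → ∀ z ∈ v :: (mid ++ [e]), z ∈ Y i) →
      ((v, k) :: (mid.map (fun w => (w, m)) ++ [(e, k')])).IsChain (Rel adj la lb Y) := by
  induction mid with
  | nil =>
    intro v k hk hc hY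
    rw [List.nil_append, List.isChain_cons_cons] at hc
    refine List.isChain_cons_cons.2 ⟨⟨hc.1, by rw [hk, hk'], fun h => ?_⟩, List.isChain_singleton _⟩
    simp only at h ⊢
    rw [hk] at h ⊢
    exact ⟨hY h v (by simp), hY h e (by simp)⟩
  | cons w mid ih =>
    intro v k hk hc hY
    rw [List.cons_append, List.isChain_cons_cons] at hc
    rw [List.map_cons, List.cons_append]
    refine List.isChain_cons_cons.2 ⟨⟨hc.1, by rw [hk, hm2], fun h => ?_⟩,
      ih w m hm1 hc.2 fun h z hz => hY h z (List.mem_cons_of_mem _ (by simpa using hz))⟩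
    simp only at h ⊢
    rw [hk] at h ⊢
    exact ⟨hY h v (by simp), hY h w (by simp)⟩

/-- all positions of the strip -/
def PP (a₁ b₁ b₂ a₂ : V) (m₁ A m₂ B : List V) : List (V × ℕ) :=
  kd 5 3 6 a₁ m₁ b₁ ++ (A.map (fun w => (w, 2)) ++ (kd 7 4 8 b₂ m₂ a₂ ++ B.map (fun w => (w, 2))))

theorem PP_chain {adj : V → V → Prop} {Y : ℕ → Set V} {a₁ b₁ b₂ a₂ : V} {m₁ A m₂ B : List V}
    (h1 : (a₁ :: (m₁ ++ [b₁])).IsChain adj) (h2 : (b₁ :: (A ++ [b₂])).IsChain adj)
    (h3 : (b₂ :: (m₂ ++ [a₂])).IsChain adj) (h4 : (a₂ :: (B ++ [a₁])).IsChain adj)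
    (hY1 : ∀ z ∈ a₁ :: (m₁ ++ [b₁]), z ∈ Y 1) (hY2 : ∀ z ∈ b₂ :: (m₂ ++ [a₂]), z ∈ Y 2) :
    (PP a₁ b₁ b₂ a₂ m₁ A m₂ B).IsChain (Rel adj kla klb Y) ∧
      (∀ p ∈ (PP a₁ b₁ b₂ a₂ m₁ A m₂ B).getLast?, ∀ q ∈ (PP a₁ b₁ b₂ a₂ m₁ A m₂ B).head?,
        Rel adj kla klb Y p q) := by
  have s1 := seg (adj := adj) (la := kla) (lb := klb) (Y := Y) (i := 1) (m := 3) (k' := 6)
    (by simp [kla]) (by simp [klb]) (by simp [klb]) m₁ a₁ 5 (by simp [kla]) h1 (fun _ => hY1)
  have s2 := seg (adj := adj) (la := kla) (lb := klb) (Y := Y) (i := 0) (m := 2) (k' := 7)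
    (by simp [kla]) (by simp [klb]) (by simp [klb]) A b₁ 6 (by simp [kla]) h2 (by simp)
  have s3 := seg (adj := adj) (la := kla) (lb := klb) (Y := Y) (i := 2) (m := 4) (k' := 8)
    (by simp [kla]) (by simp [klb]) (by simp [klb]) m₂ b₂ 7 (by simp [kla]) h3 (fun _ => hY2)
  have s4 := seg (adj := adj) (la := kla) (lb := klb) (Y := Y) (i := 0) (m := 2) (k' := 5)
    (by simp [kla]) (by simp [klb]) (by simp [klb]) B a₂ 8 (by simp [kla]) h4 (by simp)
  have hP : ∀ L : List (V × ℕ), PP a₁ b₁ b₂ a₂ m₁ A m₂ B ++ L =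
      ((a₁, 5) :: m₁.map (fun w => (w, 3))) ++ (b₁, 6) :: (A.map (fun w => (w, 2)) ++
        (b₂, 7) :: (m₂.map (fun w => (w, 4)) ++ (a₂, 8) :: (B.map (fun w => (w, 2)) ++ L))) := by
    intro L
    simp [PP, kd]
  have hC : (PP a₁ b₁ b₂ a₂ m₁ A m₂ B ++ [(a₁, 5)]).IsChain (Rel adj kla klb Y) := by
    rw [hP, List.isChain_split]
    refine ⟨s1, ?_⟩
    rw [← List.cons_append, List.isChain_split]
    refine ⟨s2, ?_⟩
    rw [← List.cons_append, List.isChain_split]
    exact ⟨s3, s4⟩
  rw [List.isChain_append] at hC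
  refine ⟨hC.1, fun p hp q hq => ?_⟩
  have e : (PP a₁ b₁ b₂ a₂ m₁ A m₂ B).head? = some (a₁, 5) := rfl
  rw [e] at hq
  simp only [Option.mem_def, Option.some.injEq] at hq
  subst hq
  exact hC.2.2 p hp _ (by simp)

theorem list_ends {l : List V} {a b : V} (h1 : l.head? = some a) (h2 : l.getLast? = some b)
    (hab : a ≠ b) : ∃ m, l = a :: (m ++ [b]) := by
  cases l with
  | nil => simp at h1
  | cons c l =>
    simp only [List.head?_cons, Option.some.injEq] at h1
    subst h1
    rcases List.eq_nil_or_concat l with rfl | ⟨l', d, rfl⟩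
    · simp only [List.getLast?_singleton, Option.some.injEq] at h2
      exact absurd h2 hab
    · rw [List.concat_eq_append, ← List.cons_append, List.getLast?_append] at h2
      simp only [List.getLast?_singleton, Option.some_or, Option.some.injEq] at h2
      subst h2
      exact ⟨l', by simp⟩

end lists

section walks
variable {S : Type} {M : CoxeterMatrix S}

/-- walks from `v` to `w` in `K` -/
def OKw (K : Set (Vtx (gen M))) (v w : Vtx (gen M)) (l : List (Vtx (gen M))) : Prop :=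
  Wk l v w ∧ ∀ z ∈ l, z ∈ K

theorem OKw.insert {K : Set (Vtx (gen M))} {v w q r c : Vtx (gen M)} {x y : List (Vtx (gen M))}
    (h : OKw K v w (x ++ q :: r :: y)) (hc : c ∈ K) (h1 : q.ad c) (h2 : c.ad r) :
    OKw K v w (x ++ q :: c :: r :: y) := by
  obtain ⟨⟨a1, a2, a3⟩, a4⟩ := h
  refine ⟨⟨?_, ?_, ?_⟩, ?_⟩
  · cases x with
    | nil => simpa using a1
    | cons z x => simpa using a1
  · rw [List.getLast?_append] at a2 ⊢
    rw [List.getLast?_cons_cons] at a2 ⊢
    rw [List.getLast?_cons_cons]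
    exact a2
  · rw [List.isChain_append] at a3 ⊢
    refine ⟨a3.1, ?_, ?_⟩
    · exact List.isChain_cons_cons.2 ⟨h1, List.isChain_cons_cons.2 ⟨h2,
        (List.isChain_cons_cons.1 a3.2.1).2⟩⟩
    · simpa using a3.2.2
  · intro z hz
    simp only [List.mem_append, List.mem_cons] at hz
    rcases hz with hz | rfl | rfl | rfl | hz
    · exact a4 z (by simp [hz])
    · exact a4 z (by simp)
    · exact hc
    · exact a4 z (by simp)
    · exact a4 z (by simp [hz])

theorem OKw.remove {K : Set (Vtx (gen M))} {v w q p : Vtx (gen M)} {x y : List (Vtx (gen M))}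
    (h : OKw K v w (x ++ p :: q :: p :: y)) : OKw K v w (x ++ p :: y) := by
  obtain ⟨⟨a1, a2, a3⟩, a4⟩ := h
  refine ⟨⟨?_, ?_, ?_⟩, ?_⟩
  · cases x with
    | nil => simpa using a1
    | cons z x => simpa using a1
  · rw [List.getLast?_append] at a2 ⊢
    rw [List.getLast?_cons_cons, List.getLast?_cons_cons] at a2
    exact a2
  · rw [List.isChain_append] at a3 ⊢
    refine ⟨a3.1, ?_, ?_⟩
    · exact (List.isChain_cons_cons.1 (List.isChain_cons_cons.1 a3.2.1).2).2
    · simpa using a3.2.2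
  · intro z hz
    simp only [List.mem_append, List.mem_cons] at hz
    rcases hz with hz | rfl | hz
    · exact a4 z (by simp [hz])
    · exact a4 z (by simp)
    · exact a4 z (by simp [hz])

theorem mem_OnP {E : Finset S} {y : Art M} {v : Vtx (gen M)} :
    OnP M ⟨E, y⟩ v ↔ v.J ⊆ E ∧ ∃ x, v.mem x ∧ y⁻¹ * x ∈ par (gen M) E := by
  unfold OnP
  constructor
  · rintro ⟨h1, x, h2, h3⟩
    exact ⟨h1, x, h2, QuotientGroup.eq.1 h3.symm⟩
  · rintro ⟨h1, x, h2, h3⟩
    exact ⟨h1, x, h2, (QuotientGroup.eq.2 h3).symm⟩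

theorem o0_J (x : Art M) : (o0 M x).J = ∅ := rfl

theorem o0_mem (x : Art M) : (o0 M x).mem x := rfl

theorem smul_o0 (h x : Art M) : h • o0 M x = o0 M (h * x) := Vtx.smul_mk _ _ _ _

theorem o0_inj {x y : Art M} (h : o0 M x = o0 M y) : x = y :=
  Vtx.mem0 (v := o0 M y) (by simp [Vtx.ty_eq, o0_J]) (by rw [← h]; exact o0_mem x) (o0_mem y)

theorem walk_par (hWCH : Pool.HA.Stmt_WCH) {E : Finset S} {y p : Art M}
    (hp : p ∈ par (gen M) E) : ∀ z : Art M, y⁻¹ * z ∈ par (gen M) E →
      ∃ l, OKw {v | OnP M ⟨E, y⟩ v} (o0 M z) (o0 M (z * p)) l := by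
  obtain ⟨w1, w2, -⟩ := hWCH (Art M) S (gen M)
  unfold par at hp
  induction hp using Subgroup.closure_induction with
  | mem p hp =>
    obtain ⟨s, hs, rfl⟩ := hp
    have hs' : s ∈ E := by exact_mod_cast hs
    intro z hz
    have hzs : y⁻¹ * (z * gen M s) ∈ par (gen M) E := by
      rw [← mul_assoc]
      exact mul_mem hz (gen_mem_par hs')
    refine ⟨[o0 M z, Vtx.mk (gen M) {s} (by simp) z, o0 M (z * gen M s)], ⟨rfl, rfl, ?_⟩, ?_⟩
    · refine List.isChain_cons_cons.2 ⟨Vtx.ad_of (o0_mem z) (Vtx.mk_mem _ _ _) ?_,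
        List.isChain_cons_cons.2 ⟨Vtx.ad_symm (Vtx.ad_of (o0_mem _) ?_ ?_),
          List.isChain_singleton _⟩⟩
      · rw [o0_J]; simp
      · rw [Vtx.mk_mem_iff]
        rw [inv_mul_cancel_left]
        exact gen_mem_par (by simp)
      · rw [o0_J]; simp
    · intro v hv
      simp only [List.mem_cons, List.not_mem_nil, or_false] at hv
      rcases hv with rfl | rfl | rfl
      · exact mem_OnP.2 ⟨by rw [o0_J]; simp, z, o0_mem z, hz⟩
      · exact mem_OnP.2 ⟨by simpa using hs', z, Vtx.mk_mem _ _ _, hz⟩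
      · exact mem_OnP.2 ⟨by rw [o0_J]; simp, _, o0_mem _, hzs⟩
  | one =>
    intro z hz
    rw [mul_one]
    refine ⟨[o0 M z], ⟨rfl, rfl, List.isChain_singleton _⟩, ?_⟩
    intro v hv
    rw [List.mem_singleton] at hv
    subst hv
    exact mem_OnP.2 ⟨by rw [o0_J]; simp, z, o0_mem z, hz⟩
  | mul p q hp hq ih1 ih2 =>
    intro z hz
    obtain ⟨l1, a1, a2⟩ := ih1 z hz
    obtain ⟨l2, b1, b2⟩ := ih2 (z * p) (by rw [← mul_assoc]; exact mul_mem hz hp)
    refine ⟨l1.dropLast ++ l2, ?_, ?_⟩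
    · rw [← mul_assoc]
      exact (w1 _ _ _ _ _ a1 b1).1
    · intro v hv
      rw [List.mem_append] at hv
      rcases hv with hv | hv
      · exact a2 v (List.mem_of_mem_dropLast hv)
      · exact b2 v hv
  | inv p hp ih =>
    intro z hz
    obtain ⟨l, a1, a2⟩ := ih (z * p⁻¹) (by rw [← mul_assoc]; exact mul_mem hz (inv_mem hp))
    rw [inv_mul_cancel_right] at a1
    exact ⟨l.reverse, (w2 _ _ _ a1).1, fun v hv => a2 v (by simpa using hv)⟩

end walks

section sums
variable {S : Type} {M : CoxeterMatrix S}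

open Classical in
theorem sum_zero (f : Vtx (gen M)) (l : List (Vtx (gen M) × ℕ)) (hl : ∀ q ∈ l, kla q.2 ≠ 1) :
    ∀ p : Vtx (gen M), ((gapsGo f p l).map (fun q => if kla q.2.k = 1 then
      (EE q.1 q.2.a : C1 (gen M)) else 0)).sum = 0 := by
  induction l with
  | nil => intro p; simp [gapsGo]
  | cons q l ih =>
    intro p
    cases l with
    | nil =>
      have := hl q (by simp)
      simp [gapsGo, this]
    | cons r l =>
      rw [gapsGo, List.map_cons, List.sum_cons, ih (fun q hq => hl q (List.mem_cons_of_mem _ hq)),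
        if_neg (hl q (by simp)), add_zero]

open Classical in
theorem sum_wch (f e : Vtx (gen M)) (R : List (Vtx (gen M) × ℕ)) (hR : ∀ q ∈ R, kla q.2 ≠ 1)
    (mid : List (Vtx (gen M))) : ∀ (p v : Vtx (gen M)) (k : ℕ), kla k = 1 →
      ((gapsGo f p ((v, k) :: (mid.map (fun w => (w, 3)) ++ (e, 6) :: R))).map
        (fun q => if kla q.2.k = 1 then (EE q.1 q.2.a : C1 (gen M)) else 0)).sum =
      wch (v :: (mid ++ [e])) := by
  induction mid with
  | nil =>
    intro p v k hk
    rw [List.map_nil, List.nil_append, gapsGo, List.map_cons, List.sum_cons,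
      sum_zero f ((e, 6) :: R) (by
        intro q hq
        rw [List.mem_cons] at hq
        rcases hq with rfl | hq
        · simp [kla]
        · exact hR q hq), if_pos hk, List.nil_append]
    simp [wch]
  | cons w mid ih =>
    intro p v k hk
    rw [List.map_cons, List.cons_append, gapsGo, List.map_cons, List.sum_cons,
      ih v w 3 (by simp [kla]), if_pos hk]
    rfl

end sums

theorem PP_len {V : Type} (a₁ b₁ b₂ a₂ : V) (m₁ A m₂ B : List V) :
    (PP a₁ b₁ b₂ a₂ m₁ A m₂ B).length = m₁.length + m₂.length + A.length + B.length + 4 := by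
  simp [PP, kd]
  ring

end U1A

open Classical in
open U1A in
theorem stmt_U1A (hGBW : Stmt_GBW) (hASPH0 : Stmt_ASPH0) (hNPC0 : Stmt_NPC0)
    (hEXF : Pool.HA.Stmt_EXF) (hFBR : Pool.HA.Stmt_FBR) (hWCH : Pool.HA.Stmt_WCH)
    (hTTOK : Pool.HA.Stmt_TTOK) : Stmt_U1A := by
  intro S _ _ M hM E y₁ y₂ h δ hy hh1 hh2 hδ N hN
  have hT := hTTOK (Art M) S (gen M)
  obtain ⟨hNP, -⟩ := hNPC0 S M hM
  obtain ⟨w1, w2, -, w4, -⟩ := hWCH (Art M) S (gen M)
  set K₁ : Set (Vtx (gen M)) := {v | OnP M ⟨E, y₁⟩ v} with hK₁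
  set K₂ : Set (Vtx (gen M)) := {v | OnP M ⟨E, y₂⟩ v} with hK₂
  set a₁ := o0 M y₁ with ha₁
  set a₂ := o0 M y₂ with ha₂
  set b₁ := h ^ N • a₁ with hb₁
  set b₂ := h ^ N • a₂ with hb₂
  have hpow : ∀ y : Art M, y⁻¹ * h * y ∈ par (gen M) E → y⁻¹ * h ^ N * y ∈ par (gen M) E := by
    intro y hy
    have := pow_mem hy N
    have e : (y⁻¹ * h * y) ^ N = y⁻¹ * h ^ N * y := by
      have := conj_pow (a := y⁻¹) (b := h) (i := N)
      rwa [inv_inv] at this
    rwa [e] at this
  have hne : ∀ y : Art M, o0 M y ≠ h ^ N • o0 M y := by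
    intro y e
    rw [smul_o0] at e
    have := o0_inj e
    exact hN (mul_eq_right.1 this.symm)
  have hab1 : a₁ ≠ b₁ := hne y₁
  have hab2 : b₂ ≠ a₂ := (hne y₂).symm
  have ha12 : a₁ ≠ a₂ := by
    intro e
    apply hy
    rw [o0_inj e, inv_mul_cancel]
    exact one_mem _
  obtain ⟨A₀, hA₀⟩ := list_ends hδ.1 hδ.2.1 ha12
  -- existence of sides
  obtain ⟨β₀, hβ₀⟩ : ∃ β, OKw K₁ a₁ b₁ β := by
    obtain ⟨l, hl⟩ := walk_par hWCH (hpow y₁ hh1) y₁ (by rw [inv_mul_cancel]; exact one_mem _)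
    have e : y₁ * (y₁⁻¹ * h ^ N * y₁) = h ^ N * y₁ := by group
    rw [e, ← smul_o0] at hl
    exact ⟨l, hl⟩
  obtain ⟨γ₀, hγ₀⟩ : ∃ γ, OKw K₂ b₂ a₂ γ := by
    obtain ⟨l, hl⟩ := walk_par hWCH (hpow y₂ hh2) y₂ (by rw [inv_mul_cancel]; exact one_mem _)
    have e : y₂ * (y₂⁻¹ * h ^ N * y₂) = h ^ N * y₂ := by group
    rw [e, ← smul_o0] at hl
    exact ⟨l.reverse, (w2 _ _ _ hl.1).1, fun v hv => hl.2 v (by simpa using hv)⟩
  set A := A₀.map (fun v => h ^ N • v) with hA
  set B := A₀.reverse with hB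
  have hAc : (b₁ :: (A ++ [b₂])).IsChain Vtx.ad := by
    have := (w4 (h ^ N) δ a₁ a₂ hδ).1.2.2
    rw [hA₀] at this
    simpa using this
  have hBc : (a₂ :: (B ++ [a₁])).IsChain Vtx.ad := by
    have := (w2 δ a₁ a₂ hδ).1.2.2
    rw [hA₀] at this
    simpa using this
  have hYi : ∀ v, v ∈ YY M E y₁ y₂ 1 ↔ v ∈ K₁ := by
    intro v; simp [YY, hK₁]
  have hYi2 : ∀ v, v ∈ YY M E y₁ y₂ 2 ↔ v ∈ K₂ := by
    intro v; simp [YY, hK₂]
  -- shape of the sides
  have shape1 : ∀ β, OKw K₁ a₁ b₁ β → ∃ m, β = a₁ :: (m ++ [b₁]) := fun β hβ =>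
    list_ends hβ.1.1 hβ.1.2.1 hab1
  have shape2 : ∀ γ, OKw K₂ b₂ a₂ γ → ∃ m, γ = b₂ :: (m ++ [a₂]) := fun γ hγ =>
    list_ends hγ.1.1 hγ.1.2.1 hab2
  have chn : ∀ m₁ m₂, OKw K₁ a₁ b₁ (a₁ :: (m₁ ++ [b₁])) → OKw K₂ b₂ a₂ (b₂ :: (m₂ ++ [a₂])) →
      (PP a₁ b₁ b₂ a₂ m₁ A m₂ B).IsChain (Rel Vtx.ad kla klb (YY M E y₁ y₂)) ∧
      (∀ p ∈ (PP a₁ b₁ b₂ a₂ m₁ A m₂ B).getLast?, ∀ q ∈ (PP a₁ b₁ b₂ a₂ m₁ A m₂ B).head?,
        Rel Vtx.ad kla klb (YY M E y₁ y₂) p q) := fun m₁ m₂ h1 h2 =>
    PP_chain h1.1.2.2 hAc h2.1.2.2 hBc (fun z hz => (hYi z).2 (h1.2 z hz))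
      (fun z hz => (hYi2 z).2 (h2.2 z hz))
  have hfst : ∀ m₁ m₂, (PP a₁ b₁ b₂ a₂ m₁ A m₂ B).map Prod.fst =
      (a₁ :: (m₁ ++ [b₁])) ++ (A ++ ((b₂ :: (m₂ ++ [a₂])) ++ B)) := by
    intro m₁ m₂
    simp [PP, kd, Function.comp_def]
  have hex : ∃ n, ∃ β γ D, OKw K₁ a₁ b₁ β ∧ OKw K₂ b₂ a₂ γ ∧
      Fill Vtx.ad TT (β ++ (A ++ (γ ++ B))) D n := by
    obtain ⟨m₁, e1⟩ := shape1 _ hβ₀
    obtain ⟨m₂, e2⟩ := shape2 _ hγ₀
    obtain ⟨c1, c2⟩ := chn m₁ m₂ (e1 ▸ hβ₀) (e2 ▸ hγ₀)
    have hcw : CW Vtx.ad ((PP a₁ b₁ b₂ a₂ m₁ A m₂ B).map Prod.fst) := by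
      apply cw_of_chain
      · rw [List.length_map, PP_len]; omega
      · rw [List.isChain_map]
        exact c1.imp fun q r hqr => hqr.1
      · intro a ha b hb
        rw [List.getLast?_map] at ha
        rw [List.head?_map] at hb
        simp only [Option.mem_def, Option.map_eq_some_iff] at ha hb
        obtain ⟨a', ha', rfl⟩ := ha
        obtain ⟨b', hb', rfl⟩ := hb
        exact (c2 a' ha' b' hb').1
    obtain ⟨D, n, hD⟩ := hEXF S M hM.ne_zero _ hcw
    rw [hfst, ← e1, ← e2] at hD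
    exact ⟨n, β₀, γ₀, D, hβ₀, hγ₀, hD⟩
  obtain ⟨n₀, hn₀, hmin⟩ : ∃ n₀, (∃ β γ D, OKw K₁ a₁ b₁ β ∧ OKw K₂ b₂ a₂ γ ∧
      Fill Vtx.ad TT (β ++ (A ++ (γ ++ B))) D n₀) ∧ ∀ n β γ D, OKw K₁ a₁ b₁ β →
      OKw K₂ b₂ a₂ γ → Fill Vtx.ad TT (β ++ (A ++ (γ ++ B))) D n → n₀ ≤ n :=
    ⟨Nat.find hex, Nat.find_spec hex, fun n β γ D h1 h2 h3 =>
      Nat.find_min' hex ⟨β, γ, D, h1, h2, h3⟩⟩
  have hex2 : ∃ k, ∃ β γ D, OKw K₁ a₁ b₁ β ∧ OKw K₂ b₂ a₂ γ ∧
      Fill Vtx.ad TT (β ++ (A ++ (γ ++ B))) D n₀ ∧ β.length + γ.length = k := by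
    obtain ⟨β, γ, D, h1, h2, h3⟩ := hn₀
    exact ⟨_, β, γ, D, h1, h2, h3, rfl⟩
  obtain ⟨β, γ, D, hβ, hγ, hD, hmin2⟩ : ∃ β γ D, OKw K₁ a₁ b₁ β ∧ OKw K₂ b₂ a₂ γ ∧
      Fill Vtx.ad TT (β ++ (A ++ (γ ++ B))) D n₀ ∧ ∀ β' γ' D', OKw K₁ a₁ b₁ β' →
      OKw K₂ b₂ a₂ γ' → Fill Vtx.ad TT (β' ++ (A ++ (γ' ++ B))) D' n₀ →
      β.length + γ.length ≤ β'.length + γ'.length := by
    obtain ⟨β, γ, D, h1, h2, h3, h4⟩ := Nat.find_spec hex2
    refine ⟨β, γ, D, h1, h2, h3, fun β' γ' D' g1 g2 g3 => ?_⟩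
    rw [h4]
    exact Nat.find_min' hex2 ⟨β', γ', D', g1, g2, g3, rfl⟩
  obtain ⟨m₁, e1⟩ := shape1 _ hβ
  obtain ⟨m₂, e2⟩ := shape2 _ hγ
  obtain ⟨c1, c2⟩ := chn m₁ m₂ (e1 ▸ hβ) (e2 ▸ hγ)
  have hPf := hfst m₁ m₂
  have hPlen : 2 ≤ (PP a₁ b₁ b₂ a₂ m₁ A m₂ B).length := by rw [PP_len]; omega
  -- decomposition lemmas
  have dec1 : ∀ x q y, PP a₁ b₁ b₂ a₂ m₁ A m₂ B = x ++ q :: y → q.2 = 5 ∨ q.2 = 3 →
      ∃ (x' : List (Vtx (gen M))) (r : Vtx (gen M) × ℕ) (y' : List (Vtx (gen M))) ,
        x.map Prod.fst = x' ∧ y.map Prod.fst = r.1 :: (y' ++ (A ++ (γ ++ B))) ∧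
        y.head? = some r ∧ β = x' ++ q.1 :: r.1 :: y' ∧ (q.2 = 3 → x ≠ []) := by
    intro x q y hP hq
    unfold PP at hP
    obtain ⟨x', r, y', h1, h2, h3, h4⟩ := kd_split (a := 5) (m := 3) (b := 6) (L₁ := [])
      (L₂ := A.map (fun w => (w, 2)) ++ (kd 7 4 8 b₂ m₂ a₂ ++ B.map (fun w => (w, 2))))
      (by norm_num) (by norm_num) (by norm_num) (by simp) (by
        intro q hq
        simp only [kd, List.mem_append, List.mem_map, List.mem_cons, List.not_mem_nil,
          or_false] at hq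
        rcases hq with ⟨w, -, rfl⟩ | (rfl | (⟨w, -, rfl⟩ | rfl)) | ⟨w, -, rfl⟩ <;> simp)
      (by simpa using hP) hq
    rw [List.nil_append] at h1
    subst h1
    refine ⟨x.map Prod.fst, r, y'.map Prod.fst, rfl, ?_, by rw [h2]; rfl, ?_, h4⟩
    · rw [h2, e2]
      simp [kd, Function.comp_def]
    · have := congrArg (List.map Prod.fst) h3
      rw [kd_fst, ← e1] at this
      simpa using this
  have dec2 : ∀ x q y, PP a₁ b₁ b₂ a₂ m₁ A m₂ B = x ++ q :: y → q.2 = 7 ∨ q.2 = 4 →
      ∃ (x' : List (Vtx (gen M))) (r : Vtx (gen M) × ℕ) (y' : List (Vtx (gen M))) ,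
        x.map Prod.fst = β ++ (A ++ x') ∧ y.map Prod.fst = r.1 :: (y' ++ B) ∧
        y.head? = some r ∧ γ = x' ++ q.1 :: r.1 :: y' ∧ (q.2 = 4 → ∃ x'' p, x = x'' ++ [p] ∧
          ∃ x₃, x' = x₃ ++ [p.1]) := by
    intro x q y hP hq
    unfold PP at hP
    obtain ⟨x', r, y', h1, h2, h3, h4⟩ := kd_split (a := 7) (m := 4) (b := 8)
      (L₁ := kd 5 3 6 a₁ m₁ b₁ ++ A.map (fun w => (w, 2)))
      (L₂ := B.map (fun w => (w, 2)))
      (by norm_num) (by norm_num) (by norm_num) (by
        intro q hq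
        simp only [kd, List.mem_append, List.mem_map, List.mem_cons, List.not_mem_nil,
          or_false] at hq
        rcases hq with (rfl | (⟨w, -, rfl⟩ | rfl)) | ⟨w, -, rfl⟩ <;> simp) (by
        intro q hq
        simp only [List.mem_map] at hq
        rcases hq with ⟨w, -, rfl⟩
        simp)
      (by rw [List.append_assoc]; exact hP) hq
    refine ⟨x'.map Prod.fst, r, y'.map Prod.fst, ?_, ?_, by rw [h2]; rfl, ?_, ?_⟩
    · rw [h1, List.map_append, List.map_append, kd_fst, e1]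
      simp [Function.comp_def]
    · rw [h2]
      simp [Function.comp_def]
    · have := congrArg (List.map Prod.fst) h3
      rw [kd_fst, ← e2] at this
      simpa using this
    · intro hq4
      rcases List.eq_nil_or_concat x' with h | ⟨x₃, p, h⟩
      · exact absurd h (h4 hq4)
      · refine ⟨kd 5 3 6 a₁ m₁ b₁ ++ A.map (fun w => (w, 2)) ++ x₃, p, ?_, x₃.map Prod.fst, ?_⟩
        · rw [h1, h]; simp
        · rw [h]; simp
  -- inserting a vertex
  have hins : ∀ x q y, PP a₁ b₁ b₂ a₂ m₁ A m₂ B = x ++ q :: y → ∀ r ∈ (y ++ x).head?,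
      ∀ c ∈ YY M E y₁ y₂ (kla q.2), q.1.ad c → c.ad r.1 →
      ∀ n', Fill Vtx.ad TT (x.map Prod.fst ++ q.1 :: c :: y.map Prod.fst) (D - TT q.1 r.1 c) n' →
        n₀ ≤ n' := by
    intro x q y hP r hr c hc h1 h2 n' hF
    by_cases hq1 : q.2 = 5 ∨ q.2 = 3
    · obtain ⟨x', r', y', g1, g2, g3, g4, -⟩ := dec1 x q y hP hq1
      have hk : kla q.2 = 1 := by
        rcases hq1 with h | h <;> rw [h] <;> simp [kla]
      rw [hk, hYi] at hc
      have hrr : r = r' := by
        rw [List.head?_append, g3] at hr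
        simpa [eq_comm] using hr
      subst hrr
      have hβ' := hβ
      rw [g4] at hβ'
      refine hmin n' _ γ (D - TT q.1 r.1 c) (hβ'.insert hc h1 h2) hγ ?_
      rw [g1, g2] at hF
      simpa using hF
    · by_cases hq2 : q.2 = 7 ∨ q.2 = 4
      · obtain ⟨x', r', y', g1, g2, g3, g4, -⟩ := dec2 x q y hP hq2
        have hk : kla q.2 = 2 := by
          rcases hq2 with h | h <;> rw [h] <;> simp [kla]
        rw [hk, hYi2] at hc
        have hrr : r = r' := by
          rw [List.head?_append, g3] at hr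
          simpa [eq_comm] using hr
        subst hrr
        have hγ' := hγ
        rw [g4] at hγ'
        refine hmin n' β _ (D - TT q.1 r.1 c) hβ (hγ'.insert hc h1 h2) ?_
        rw [g1, g2] at hF
        simpa using hF
      · exfalso
        have hk : kla q.2 = 0 := by
          unfold kla
          rw [if_neg (by tauto), if_neg (by tauto)]
        rw [hk] at hc
        simp [YY] at hc
  have hsph : ∀ (D' : C2 (gen M)) (n' : ℕ), n' ≤ n₀ → Fill Vtx.ad TT [] D' n' → D' = 0 :=
    fun D' n' _ h => hASPH0 _ _ _ _ (ang M 0) hT hNP D' n' h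
  have hkind : ∀ q ∈ PP a₁ b₁ b₂ a₂ m₁ A m₂ B, 2 ≤ q.2 ∧ q.2 ≤ 8 := by
    intro q hq
    simp only [PP, kd, List.mem_append, List.mem_map, List.mem_cons, List.not_mem_nil,
      or_false] at hq
    rcases hq with (rfl | (⟨w, -, rfl⟩ | rfl)) | (⟨w, -, rfl⟩ |
      ((rfl | (⟨w, -, rfl⟩ | rfl)) | ⟨w, -, rfl⟩)) <;> simp
  obtain ⟨X, hX, hcard, hacc⟩ := hGBW (Vtx (gen M)) (C2 (gen M)) Vtx.ad TT hT kla klb
    (YY M E y₁ y₂) (PP a₁ b₁ b₂ a₂ m₁ A m₂ B) D n₀ (by
      intro h0; rw [h0] at hPlen; simp at hPlen)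
    (fun q hq => by have := (hkind q hq).1; omega)
    (c1.imp fun q r hqr => hqr.2.1) (fun q hq r hr => (c2 q hq r hr).2.1)
    ⟨by rw [hPf, ← e1, ← e2]; exact hD, fun n' hn' => by
      rw [hPf, ← e1, ← e2] at hn'
      exact hmin n' β γ D hβ hγ hn'⟩ hins hsph
  -- the gaps
  have hgap : ∀ v s, (v, s) ∈ gaps (PP a₁ b₁ b₂ a₂ m₁ A m₂ B) → GapU M E y₁ y₂ v s := by
    intro v s hvs
    obtain ⟨x, y, r, p, hP, hr, hp, hsa, hsb⟩ := mem_gaps hPlen hvs
    obtain ⟨k1, k2⟩ := cyc_next c1 c2 hP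
    have k1' := k1 r hr
    have k2' := k2 p hp
    obtain ⟨k3, k4⟩ := hkind (v, s.k) (by rw [hP]; simp)
    refine ⟨k3, k4, by rw [hsa]; exact k1'.1, by rw [hsb]; exact Vtx.ad_symm k2'.1, ?_, ?_, ?_⟩
    · rw [hsa]; exact k1'.2.2
    · rw [hsb]
      intro h0
      have := k2'.2.2 (by rw [k2'.2.1]; exact h0)
      rw [k2'.2.1] at this
      exact this.symm
    · rintro (hk | hk) hab
      · obtain ⟨x', r', y', g1, g2, g3, g4, g5⟩ := dec1 x _ y hP (Or.inr hk)
        have hrr : r = r' := by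
          rw [List.head?_append, g3] at hr
          simpa [eq_comm] using hr
        subst hrr
        rcases List.eq_nil_or_concat x with hx | ⟨x₃, p', hx⟩
        · exact g5 hk hx
        · have hpp : p = p' := by
            rw [hx, List.concat_eq_append, ← List.append_assoc, List.getLast?_append] at hp
            simpa [eq_comm] using hp
          subst hpp
          have hpr : p.1 = r.1 := by rw [← hsa, ← hsb, hab]
          rw [← g1, hx] at g4
          have g4' : β = x₃.map Prod.fst ++ p.1 :: v :: p.1 :: y' := by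
            rw [g4, hpr]; simp [hpr]
          have hβ' := hβ
          rw [g4'] at hβ'
          have hF : Fill Vtx.ad TT ((x₃.map Prod.fst ++ p.1 :: y') ++ (A ++ (γ ++ B))) D n₀ := by
            have := hFBR _ _ _ _ hT (x₃.map Prod.fst) (y' ++ (A ++ (γ ++ B))) p.1 v D n₀
              k2'.1 (by rw [g4'] at hD; simpa using hD)
            simpa using this
          have := hmin2 _ γ D hβ'.remove hγ hF
          rw [g4'] at this
          simp only [List.length_append, List.length_cons] at this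
          omega
      · obtain ⟨x', r', y', g1, g2, g3, g4, g5⟩ := dec2 x _ y hP (Or.inr hk)
        have hrr : r = r' := by
          rw [List.head?_append, g3] at hr
          simpa [eq_comm] using hr
        subst hrr
        obtain ⟨x₃, p', hx, x₄, hx'⟩ := g5 hk
        have hpp : p = p' := by
          rw [hx, ← List.append_assoc, List.getLast?_append] at hp
          simpa [eq_comm] using hp
        subst hpp
        have hpr : p.1 = r.1 := by rw [← hsa, ← hsb, hab]
        rw [hx'] at g4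
        have g4' : γ = x₄ ++ p.1 :: v :: p.1 :: y' := by
          rw [g4, hpr]; simp [hpr]
        have hγ' := hγ
        rw [g4'] at hγ'
        have hF : Fill Vtx.ad TT (β ++ (A ++ ((x₄ ++ p.1 :: y') ++ B))) D n₀ := by
          have := hFBR _ _ _ _ hT (β ++ A ++ x₄) (y' ++ B) p.1 v D n₀
            k2'.1 (by rw [g4'] at hD; simpa using hD)
          simpa using this
        have := hmin2 β _ D hβ hγ'.remove hF
        rw [g4'] at this
        simp only [List.length_append, List.length_cons] at this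
        omega
  have hδl : δ.length = A.length + 2 := by rw [hA₀, hA]; simp
  have hBl : B.length = A.length := by rw [hA, hB]; simp
  refine ⟨β, X, hβ.1, ⟨hX.pos, hX.per, fun i j => ?_, hX.cmp⟩, ?_, ?_, ?_, ?_⟩
  · rcases hX.stp i j with h | h
    · exact Or.inl h
    · exact Or.inr ⟨h.1, hgap _ _ h.2⟩
  · -- the sum of the weights
    let F : Acc Vtx.ad (TT (g := gen M)) ℝ :=
      { f := ang M 0
        g := fun _ s => kW s.k
        J := fun _ _ _ _ => 0
        κ := 1
        ψ := 0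
        tri := by
          intro u v c h1 h2 h3
          have := hNP.sum u c v h2 h3 h1
          simp only [AddMonoidHom.zero_apply, sub_zero]
          exact this
        swap := by intros; simp }
    have hF := hacc ℝ F
    have e3 : X.tot kla klb F = ∑ i, X.wt (ang M 0) kW i := by
      unfold LSys.tot LSys.wt
      refine Finset.sum_congr rfl fun i _ => Finset.sum_congr rfl fun j _ => ?_
      simp only [Acc.val, Acc.jn, F, add_zero]
    have e4 : ((gaps (PP a₁ b₁ b₂ a₂ m₁ A m₂ B)).map (fun q => F.g q.1 q.2)).sum =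
        (m₁.length + m₂.length + 2 * A.length + 2 * B.length + 8 : ℝ) := by
      have := gaps_k kW (PP a₁ b₁ b₂ a₂ m₁ A m₂ B)
      change ((gaps (PP a₁ b₁ b₂ a₂ m₁ A m₂ B)).map (fun q => kW q.2.k)).sum = _
      rw [this]
      simp [PP, kd, Function.comp_def, kW]
      ring
    rw [e3, e4] at hF
    have e5 : ((2 * Fintype.card X.ι : ℕ) : ℝ) = (m₁.length + m₂.length + A.length + B.length + 4 : ℝ)
        + n₀ + 2 := by
      rw [hcard, PP_len]
      push_cast
      ring
    rw [Finset.sum_sub_distrib, hF, hδl]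
    simp only [Finset.sum_const, Finset.card_univ, nsmul_eq_mul, F, AddMonoidHom.zero_apply]
    rw [hBl] at e5 ⊢
    push_cast at e5 ⊢
    linarith
  · -- the number of steps of other kinds
    let F : Acc Vtx.ad (TT (g := gen M)) ℤ :=
      { f := fun _ _ _ => 0
        g := fun _ s => if s.k = 0 ∨ s.k = 3 ∨ s.k = 4 then 0 else 1
        J := fun _ _ _ _ => 0
        κ := 0
        ψ := 0
        tri := by intros; simp
        swap := by intros; simp }
    have hF := hacc ℤ F
    have e3 : X.tot kla klb F = ∑ i, ∑ j ∈ Finset.range (X.K i),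
        (if (X.s i j).k = 0 ∨ (X.s i j).k = 3 ∨ (X.s i j).k = 4 then (0 : ℤ) else 1) := by
      unfold LSys.tot
      refine Finset.sum_congr rfl fun i _ => Finset.sum_congr rfl fun j _ => ?_
      simp only [Acc.val, Acc.jn, F, add_zero]
      by_cases h0 : (X.s i j).k = 0
      · simp [h0]
      · simp [h0]
    have e4 : ((gaps (PP a₁ b₁ b₂ a₂ m₁ A m₂ B)).map (fun q => F.g q.1 q.2)).sum =
        (A.length + B.length + 4 : ℤ) := by
      have := gaps_k (fun k => if k = 0 ∨ k = 3 ∨ k = 4 then (0 : ℤ) else 1)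
        (PP a₁ b₁ b₂ a₂ m₁ A m₂ B)
      change ((gaps (PP a₁ b₁ b₂ a₂ m₁ A m₂ B)).map (fun q =>
        if q.2.k = 0 ∨ q.2.k = 3 ∨ q.2.k = 4 then (0 : ℤ) else 1)).sum = _
      rw [this]
      simp [PP, kd, Function.comp_def]
      ring
    rw [e3, e4] at hF
    simp only [F, smul_zero, add_zero, AddMonoidHom.zero_apply, sub_zero] at hF
    have e5 : ((∑ i, ∑ j ∈ Finset.range (X.K i),
        (if (X.s i j).k = 0 ∨ (X.s i j).k = 3 ∨ (X.s i j).k = 4 then 0 else 1) : ℕ) : ℤ) =
        A.length + B.length + 4 := by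
      rw [← hF]
      push_cast
      rfl
    have e6 : 2 * δ.length = A.length + B.length + 4 := by rw [hδl, hBl]; ring
    rw [e6]
    exact_mod_cast e5.le
  · -- the chain of the first side
    let F : Acc Vtx.ad (TT (g := gen M)) (C1 (gen M)) :=
      { f := fun _ _ _ => 0
        g := fun v s => if kla s.k = 1 then (EE v s.a : C1 (gen M)) else 0
        J := fun _ _ _ _ => 0
        κ := 0
        ψ := 0
        tri := by intros; simp
        swap := by intros; simp }
    have hF := hacc (C1 (gen M)) F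
    have e3 : X.tot kla klb F = ∑ i, ∑ j ∈ Finset.range (X.K i),
        (if kla (X.s i j).k = 1 then (EE (X.v i) (X.s i j).a : C1 (gen M)) else 0) := by
      unfold LSys.tot
      refine Finset.sum_congr rfl fun i _ => Finset.sum_congr rfl fun j _ => ?_
      simp only [Acc.val, Acc.jn, F, add_zero]
      by_cases h0 : (X.s i j).k = 0
      · simp [h0, kla]
      · simp [h0]
    have e4 : ((gaps (PP a₁ b₁ b₂ a₂ m₁ A m₂ B)).map (fun q => F.g q.1 q.2)).sum = wch β := by
      change ((gaps (PP a₁ b₁ b₂ a₂ m₁ A m₂ B)).map (fun q =>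
        if kla q.2.k = 1 then (EE q.1 q.2.a : C1 (gen M)) else 0)).sum = _
      have hne' : (PP a₁ b₁ b₂ a₂ m₁ A m₂ B).getLast? ≠ none := by
        intro h0
        rw [List.getLast?_eq_none_iff] at h0
        rw [h0] at hPlen; simp at hPlen
      obtain ⟨z, hz⟩ := Option.ne_none_iff_exists'.1 hne'
      have hh : (PP a₁ b₁ b₂ a₂ m₁ A m₂ B).head? = some (a₁, 5) := rfl
      unfold gaps
      rw [hz, hh]
      simp only
      have hPP : PP a₁ b₁ b₂ a₂ m₁ A m₂ B = (a₁, 5) :: (m₁.map (fun w => (w, 3)) ++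
          (b₁, 6) :: (A.map (fun w => (w, 2)) ++ (kd 7 4 8 b₂ m₂ a₂ ++
            B.map (fun w => (w, 2))))) := by
        simp [PP, kd]
      rw [hPP, sum_wch a₁ b₁ _ (by
        intro q hq
        simp only [kd, List.mem_append, List.mem_map, List.mem_cons, List.not_mem_nil,
          or_false] at hq
        rcases hq with ⟨w, -, rfl⟩ | (rfl | (⟨w, -, rfl⟩ | rfl)) | ⟨w, -, rfl⟩ <;> simp [kla])
        m₁ z.1 a₁ 5 (by simp [kla]), ← e1]
    rw [e3, e4] at hF
    simpa [F] using hF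
  · intro B' _ F hg hf hκ hψ
    have hF := hacc B' F
    rw [hF, hκ, hψ]
    have : ((gaps (PP a₁ b₁ b₂ a₂ m₁ A m₂ B)).map (fun q => F.g q.1 q.2)).sum = 0 := by
      apply List.sum_eq_zero
      intro z hz
      rw [List.mem_map] at hz
      obtain ⟨q, -, rfl⟩ := hz
      exact hg _ _
    rw [this]
    simp

end Pool.HE
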