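import Pool.Agent.Work.MP_7084a3_full.InterfaceE
import Pool.Agent.Work.MP_7084a3_full.Basic

set_option autoImplicit false

/-! # Block U1B (helper63): loops of a strip -/

namespace Pool.HE

open Pool.HA

namespace U1B

/-! ### the sets `YY` -/

section YYs
variable {S : Type} {M : CoxeterMatrix S}

theorem onP_sub {κ : Pl M} {v : Vtx (gen M)} (h : OnP M κ v) : v.J ⊆ κ.1 := h.1

theorem onP_ad {κ : Pl M} {v c : Vtx (gen M)} (h : OnP M κ v) (hc : v.ad c) (hJ : c.J ⊆ κ.1) :
    OnP M κ c := by
  obtain ⟨h1, x, hx, hxk⟩ := h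
  obtain ⟨⟨y, hy, hyc⟩, -⟩ := hc
  refine ⟨hJ, y, hyc, ?_⟩
  rw [← hxk, eq_comm, QuotientGroup.eq]
  exact par_mono h1 ((Vtx.mem_iff hx y).1 hy)

theorem YY_sub {E : Finset S} {y₁ y₂ : Art M} {i : ℕ} {v : Vtx (gen M)}
    (h : v ∈ YY M E y₁ y₂ i) : v.J ⊆ E := by
  rcases h with ⟨-, h⟩ | ⟨-, h⟩
  · exact h.1
  · exact h.1

theorem YY_ad {E : Finset S} {y₁ y₂ : Art M} {i : ℕ} {v c : Vtx (gen M)}
    (h : v ∈ YY M E y₁ y₂ i) (hc : v.ad c) (hJ : c.J ⊆ E) : c ∈ YY M E y₁ y₂ i := by
  rcases h with ⟨a, h⟩ | ⟨a, h⟩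
  · exact Or.inl ⟨a, onP_ad h hc hJ⟩
  · exact Or.inr ⟨a, onP_ad h hc hJ⟩

/-- a triangle `v, b, c` with `v, b ∈ Y`, `c ∉ Y` -/
theorem tri_ty {E : Finset S} {y₁ y₂ : Art M} {i : ℕ} {v b c : Vtx (gen M)}
    (hv : v ∈ YY M E y₁ y₂ i) (hb : b ∈ YY M E y₁ y₂ i) (hc : c ∉ YY M E y₁ y₂ i)
    (h1 : v.ad b) (h2 : v.ad c) (h3 : b.ad c) :
    v.ty ≠ 2 ∧ (v.ty = 1 → b.ty = 0) ∧ (v.ty = 0 → b.ty = 1 ∧ c.ty = 2) := by
  have key : ∀ u : Vtx (gen M), u ∈ YY M E y₁ y₂ i → u.ad c → ¬ c.ty < u.ty := by
    intro u hu hadj hlt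
    have h4 := Vtx.ad_ss (Vtx.ad_symm hadj) hlt
    exact hc (YY_ad hu hadj (h4.subset.trans (YY_sub hu)))
  have kv := key v hv h2
  have kb := key b hb h3
  have := Vtx.flag_ty h1 h3 h2
  have := v.ty_le
  have := b.ty_le
  have := c.ty_le
  refine ⟨?_, ?_, ?_⟩ <;> omega

end YYs

/-! ### sums over a period -/

theorem sum_shift (f : ℕ → ℝ) (K : ℕ) (hf : ∀ j, f (j + K) = f j) (m : ℕ) :
    ∑ j ∈ Finset.range K, f (m + j) = ∑ j ∈ Finset.range K, f j := by
  induction m with
  | zero => exact Finset.sum_congr rfl fun j _ => by rw [Nat.zero_add]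
  | succ m ih =>
    rw [← ih]
    have h1 := Finset.sum_range_succ (fun j => f (m + j)) K
    have h2 := Finset.sum_range_succ' (fun j => f (m + j)) K
    have h3 : ∀ j, f (m + 1 + j) = f (m + (j + 1)) := fun j => by
      rw [show m + 1 + j = m + (j + 1) by ring]
    rw [Finset.sum_congr rfl fun j _ => h3 j]
    have h4 : f (m + K) = f (m + 0) := by rw [hf, Nat.add_zero]
    rw [h1, h4] at h2
    linarith

theorem kW_ge (k : ℕ) : 1 ≤ kW k := by
  unfold kW
  split <;> norm_num

/-! ### the estimate at a type 0 vertex -/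

section T0
variable {S : Type} [DecidableEq S] {M : CoxeterMatrix S}

theorem five_sixth (hM : ETyp M) {a b c : S} (hab : a ≠ b) (hbc : b ≠ c) (hac : a ≠ c) :
    1 / (M a b : ℝ) + 1 / (M b c : ℝ) ≤ 5 / 6 := by
  have h1 := hM.two_le hab
  have h2 := hM.two_le hbc
  have r1 : ∀ n : ℕ, 2 ≤ n → 1 / (n : ℝ) ≤ 1 / 2 := fun n hn =>
    one_div_le_one_div_of_le (by norm_num) (by exact_mod_cast hn)
  have r2 : ∀ n : ℕ, 3 ≤ n → 1 / (n : ℝ) ≤ 1 / 3 := fun n hn =>
    one_div_le_one_div_of_le (by norm_num) (by exact_mod_cast hn)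
  rcases Nat.lt_or_ge (M a b) 3 with h | h
  · have h3 : M b a = 2 := by rw [M.symmetric]; omega
    have h4 := hM.match hab.symm hbc hac h3
    have := r1 _ h1
    have := r2 _ h4
    linarith
  · have := r2 _ h
    have := r1 _ h2
    linarith

/-- link vertices at a type 0 vertex are determined by their labels -/
theorem link_ext {v a b : Vtx (gen M)} (hv : v.ty = 0) (ha : v.ad a) (hb : v.ad b)
    (hJ : a.J = b.J) : a = b := by
  obtain ⟨x, hx⟩ := v.exists_mem
  have h1 : v.ty < a.ty := by have := Vtx.ad_ty_ne ha; omega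
  have h2 : v.ty < b.ty := by have := Vtx.ad_ty_ne hb; omega
  exact Vtx.ext_mem hJ (Vtx.ad_mem ha h1 hx) (Vtx.ad_mem hb h2 hx)

/-- two consecutive triangles through the type 2 link vertex `c` -/
theorem corner (hM : ETyp M) {v a c b : Vtx (gen M)} (hv : v.ty = 0) (ha : v.ad a) (hc : v.ad c)
    (hb : v.ad b) (hac : a.ad c) (hcb : c.ad b) (h1 : a.ty = 1) (h2 : c.ty = 2) (h3 : b.ty = 1)
    (hab : a ≠ b) : ∃ s t : S, s ≠ t ∧ a.J = {s} ∧ b.J = {t} ∧ c.J = {s, t} ∧
      ang M 0 v a c + ang M 0 v c b = 1 - 1 / (M s t : ℝ) := by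
  obtain ⟨s, hs⟩ := Vtx.J1 h1
  obtain ⟨t, ht⟩ := Vtx.J1 h3
  have hst : s ≠ t := by
    intro h
    exact hab (link_ext hv ha hb (by rw [hs, ht, h]))
  have s1 : a.J ⊂ c.J := Vtx.ad_ss hac (by omega)
  have s2 : b.J ⊂ c.J := Vtx.ad_ss (Vtx.ad_symm hcb) (by omega)
  have hcJ : c.J = {s, t} := by
    refine (Finset.eq_of_subset_of_card_le ?_ ?_).symm
    · intro x hx
      rw [Finset.mem_insert, Finset.mem_singleton] at hx
      rcases hx with rfl | rfl
      · exact s1.subset (by rw [hs]; exact Finset.mem_singleton_self _)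
      · exact s2.subset (by rw [ht]; exact Finset.mem_singleton_self _)
    · rw [Finset.card_pair hst]
      exact h2.le
  refine ⟨s, t, hst, hs, ht, hcJ, ?_⟩
  have u1 : v.J ∪ a.J ∪ c.J = {s, t} := by
    rw [Vtx.J0 hv, Finset.empty_union, Finset.union_eq_right.2 s1.subset, hcJ]
  have u2 : v.J ∪ c.J ∪ b.J = {s, t} := by
    rw [Vtx.J0 hv, Finset.empty_union, Finset.union_eq_left.2 s2.subset, hcJ]
  unfold ang
  rw [if_pos hv, if_pos hv, u1, u2, lb_pair hst (hM.ne_zero s t)]
  ring

/-- four triangles in a row -/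
theorem four (hM : ETyp M) {v : Vtx (gen M)} {a c b d e : Vtx (gen M)} (hv : v.ty = 0)
    (ha : v.ad a) (hc : v.ad c) (hb : v.ad b) (hd : v.ad d) (he : v.ad e) (hac : a.ad c)
    (hcb : c.ad b) (hbd : b.ad d) (hde : d.ad e) (h1 : a.ty = 1) (h2 : c.ty = 2) (h3 : b.ty = 1)
    (h4 : d.ty = 2) (h5 : e.ty = 1) (hab : a ≠ b) (hcd : c ≠ d) (hbe : b ≠ e) :
    7 / 6 ≤ (ang M 0 v a c + ang M 0 v c b) + (ang M 0 v b d + ang M 0 v d e) := by
  obtain ⟨s, t, hst, hs, ht, hcJ, w1⟩ := corner hM hv ha hc hb hac hcb h1 h2 h3 hab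
  obtain ⟨t', r, htr, ht', hr, hdJ, w2⟩ := corner hM hv hb hd he hbd hde h3 h4 h5 hbe
  have e1 : t = t' := by
    rw [ht] at ht'
    exact Finset.singleton_injective ht'
  subst e1
  have hsr : s ≠ r := by
    intro h
    refine hcd (link_ext hv hc hd ?_)
    rw [hcJ, hdJ, h, Finset.pair_comm]
  have := five_sixth hM hst htr hsr
  rw [w1, w2]
  linarith

end T0

/-! ### one loop with a gap, starting at the gap -/

section loop
variable {S : Type} [DecidableEq S] {M : CoxeterMatrix S}

/-- the weight of a step -/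
noncomputable def w (M : CoxeterMatrix S) (v : Vtx (gen M)) (s : Stp (Vtx (gen M))) : ℝ :=
  if s.k = 0 then ang M 0 v s.a s.b else kW s.k

theorem loop_gap (hM : ETyp M) (hpos : ∀ u v w : Vtx (gen M), u.ad v → v.ad w → u.ad w →
      0 < ang M 0 u v w ∧ (u.ty ≠ 2 → 1 / 4 ≤ ang M 0 u v w))
    {E : Finset S} {y₁ y₂ : Art M} {v : Vtx (gen M)} {K : ℕ} {s : ℕ → Stp (Vtx (gen M))}
    (hK : 0 < K) (hper : ∀ j, s (j + K) = s j)
    (hstp : ∀ j, TStp Vtx.ad v (s j) ∨ ((s j).k ≠ 0 ∧ GapU M E y₁ y₂ v (s j)))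
    (hcmp : ∀ j, CmpY kla klb (YY M E y₁ y₂) (s j) (s (j + 1))) (h0 : (s 0).k ≠ 0) :
    2 ≤ ∑ j ∈ Finset.range K, w M v (s j) ∧
      (v.ty = 0 → (∃ j < K, (s j).k = 0) →
        ∑ j ∈ Finset.range K, (if (s j).k = 0 then (0 : ℝ) else 1) ≤
          13 * (∑ j ∈ Finset.range K, w M v (s j) - 2)) := by
  have hT : ∀ j, (s j).k = 0 → TStp Vtx.ad v (s j) := fun j hj => by
    rcases hstp j with h | h
    · exact h
    · exact absurd hj h.1
  have hG : ∀ j, (s j).k ≠ 0 → GapU M E y₁ y₂ v (s j) := fun j hj => by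
    rcases hstp j with h | h
    · exact absurd h.1 hj
    · exact h.2
  have hTa : ∀ j, (s j).k = 0 → 0 < w M v (s j) ∧ (v.ty ≠ 2 → 1 / 4 ≤ w M v (s j)) := by
    intro j hj
    obtain ⟨-, a1, a2, a3⟩ := hT j hj
    unfold w
    rw [if_pos hj]
    exact hpos _ _ _ a1 a3 a2
  have hGw : ∀ j, (s j).k ≠ 0 → 1 ≤ w M v (s j) := by
    intro j hj
    unfold w
    rw [if_neg hj]
    exact kW_ge _
  obtain ⟨γ, hγ⟩ : ∃ γ : ℝ, γ = ∑ j ∈ Finset.range K, (if (s j).k = 0 then (0 : ℝ) else 1) :=
    ⟨_, rfl⟩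
  rw [← hγ]
  by_cases h2 : ∃ j, 0 < j ∧ j < K ∧ (s j).k ≠ 0
  · -- at least two gaps
    obtain ⟨j₁, hj₁, hj₁K, hk₁⟩ := h2
    have hγ2 : 2 ≤ γ := by
      have h3 : ({0, j₁} : Finset ℕ) ⊆ Finset.range K := by
        intro x hx
        rw [Finset.mem_insert, Finset.mem_singleton] at hx
        rw [Finset.mem_range]
        omega
      have h4 := Finset.sum_le_sum_of_subset_of_nonneg h3
        (fun j _ _ => by split <;> norm_num)
        (f := fun j => if (s j).k = 0 then (0 : ℝ) else 1)
      rw [Finset.sum_pair hj₁.ne, if_neg h0, if_neg hk₁, ← hγ] at h4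
      linarith
    have hge : γ ≤ ∑ j ∈ Finset.range K, w M v (s j) := by
      rw [hγ]
      refine Finset.sum_le_sum fun j _ => ?_
      by_cases hk : (s j).k = 0
      · rw [if_pos hk]; exact (hTa j hk).1.le
      · rw [if_neg hk]; exact hGw j hk
    refine ⟨hγ2.trans hge, fun hv hex => ?_⟩
    obtain ⟨j₂, hj₂K, hk₂⟩ := hex
    have hge2 : γ + 1 / 4 ≤ ∑ j ∈ Finset.range K, w M v (s j) := by
      have e1 : ∑ j ∈ Finset.range K, (if j = j₂ then (1 / 4 : ℝ) else 0) = 1 / 4 := by
        rw [Finset.sum_ite_eq' (Finset.range K) j₂ (fun _ => (1 / 4 : ℝ)),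
          if_pos (Finset.mem_range.2 hj₂K)]
      rw [hγ, ← e1, ← Finset.sum_add_distrib]
      refine Finset.sum_le_sum fun j _ => ?_
      by_cases hk : (s j).k = 0
      · rw [if_pos hk]
        by_cases hj : j = j₂
        · rw [if_pos hj, zero_add]
          exact (hTa j hk).2 (by omega)
        · rw [if_neg hj, add_zero]
          exact (hTa j hk).1.le
      · rw [if_neg hk]
        have hj : j ≠ j₂ := by
          rintro rfl
          exact hk hk₂
        rw [if_neg hj, add_zero]
        exact hGw j hk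
    linarith
  · -- one gap
    push Not at h2
    obtain ⟨K', rfl⟩ : ∃ K', K = K' + 1 := ⟨K - 1, by omega⟩
    have hγ1 : γ = 1 := by
      rw [hγ, Finset.sum_range_succ', if_neg h0]
      have : ∑ j ∈ Finset.range K', (if (s (j + 1)).k = 0 then (0 : ℝ) else 1) = 0 := by
        refine Finset.sum_eq_zero fun j hj => ?_
        rw [Finset.mem_range] at hj
        rw [if_pos (h2 (j + 1) (by omega) (by omega))]
      rw [this, zero_add]
    have hsum : ∑ j ∈ Finset.range (K' + 1), w M v (s j) =
        ∑ j ∈ Finset.range K', w M v (s (j + 1)) + w M v (s 0) := Finset.sum_range_succ' _ _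
    have htr : ∀ j, j < K' → (s (j + 1)).k = 0 := fun j hj => h2 (j + 1) (by omega) (by omega)
    have hnn : 0 ≤ ∑ j ∈ Finset.range K', w M v (s (j + 1)) :=
      Finset.sum_nonneg fun j hj => (hTa _ (htr j (Finset.mem_range.1 hj))).1.le
    have hg0 := hG 0 h0
    by_cases h34 : (s 0).k = 3 ∨ (s 0).k = 4
    · -- a side inside the walk
      have hw0 : w M v (s 0) = 1 := by
        unfold w kW
        rw [if_neg h0, if_pos h34]
      obtain ⟨lam, hlam0, hla, hlb⟩ : ∃ lam : ℕ, lam ≠ 0 ∧ kla (s 0).k = lam ∧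
          klb (s 0).k = lam := by
        rcases h34 with h | h
        · exact ⟨1, by norm_num, by rw [h]; rfl, by rw [h]; rfl⟩
        · exact ⟨2, by norm_num, by rw [h]; rfl, by rw [h]; rfl⟩
      obtain ⟨-, -, hva, hvb, hya, hyb, hne⟩ := hg0
      have hne := hne h34
      rw [hla] at hya
      rw [hlb] at hyb
      obtain ⟨hvY, haY⟩ := hya hlam0
      obtain ⟨-, hbY⟩ := hyb hlam0
      have hK1 : K' ≠ 0 := by
        rintro rfl
        have h3 := (hcmp 0).1
        have h4 : s (0 + 1) = s 0 := hper 0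
        rw [h4] at h3
        exact hne h3.symm
      -- first and last triangle
      have hlast : (s (K' - 1 + 1)).k = 0 := htr (K' - 1) (by omega)
      have hlast' : K' - 1 + 1 + 1 = K' + 1 := by omega
      have hend : s (K' + 1) = s 0 := by
        have := hper 0
        rwa [Nat.zero_add] at this
      have hcl := hcmp (K' - 1 + 1)
      rw [hlast', hend] at hcl
      have hcf := hcmp 0
      have hTf := hT 1 (htr 0 (by omega))
      have hTl := hT _ hlast
      -- c₁ ∉ Y
      have hf1 : (s 1).a = (s 0).b := hcf.1.symm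
      have hf2 : (s 1).b ∉ YY M E y₁ y₂ lam := by
        have := hcf.2.2.1 h0 (htr 0 (by omega))
        rwa [hlb] at this
      have hl1 : (s (K' - 1 + 1)).b = (s 0).a := hcl.1
      have hl2 : (s (K' - 1 + 1)).a ∉ YY M E y₁ y₂ lam := by
        have := hcl.2.2.2 hlast h0
        rwa [hla] at this
      have tf := tri_ty hvY hbY hf2 hvb hTf.2.2.1 (by rw [← hf1]; exact hTf.2.2.2)
      have tl := tri_ty hvY haY hl2 hva hTl.2.1
        (by rw [← hl1]; exact Vtx.ad_symm hTl.2.2.2)
      have hcomp : ∀ j, (s (j + 1)).a = (s j).b := fun j => (hcmp j).1.symm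
      rcases (show v.ty = 0 ∨ v.ty = 1 by
        have := v.ty_le
        have := tf.1
        omega) with hv | hv
      · -- type 0
        have hpar : ∀ j, j ≤ K' → (j % 2 = 0 → (s (j + 1)).a.ty = 1) ∧
            (j % 2 = 1 → (s (j + 1)).a.ty = 2) := by
          intro j
          induction j with
          | zero =>
            intro _
            refine ⟨fun _ => ?_, fun h => by omega⟩
            rw [hcomp 0]
            exact (tf.2.2 hv).1
          | succ j ih =>
            intro hj
            obtain ⟨i1, i2⟩ := ih (by omega)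
            obtain ⟨-, a1, a2, a3⟩ := hT (j + 1) (htr j (by omega))
            have b1 := Vtx.flag_ty a1 a3 a2
            rw [hcomp (j + 1)]
            constructor
            · intro h
              have := i2 (by omega)
              omega
            · intro h
              have := i1 (by omega)
              omega
        have hKeven : K' % 2 = 0 := by
          by_contra hodd
          have h3 := (hpar K' le_rfl).2 (by omega)
          rw [hend] at h3
          have h4 := (tl.2.2 hv).1
          omega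
        have hK2 : K' ≠ 2 := by
          intro h
          have t1 := hT 1 (htr 0 (by omega))
          have t2 := hT 2 (htr 1 (by omega))
          have e2 : (s 2).b = (s 0).a := by
            have := hl1
            rw [h] at this
            exact this
          have e1 : (s 2).a = (s 1).b := hcomp 1
          have hne2 : (s 1).a ≠ (s 2).b := (hcmp 1).2.1 t1.1 t2.1
          have hc2 : (s 1).b.ty = 2 := (tf.2.2 hv).2
          have ha1 : (s 1).a.ty = 1 := by rw [hf1]; exact (tf.2.2 hv).1
          have hb1 : (s 2).b.ty = 1 := by rw [e2]; exact (tl.2.2 hv).1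
          obtain ⟨x, z, hxz, hx, hz, hc, -⟩ := corner hM hv t1.2.1 t1.2.2.1 t2.2.2.1 t1.2.2.2
            (by rw [← e1]; exact t2.2.2.2) ha1 hc2 hb1 hne2
          refine hf2 (YY_ad hvY t1.2.2.1 ?_)
          have s1 : (s 1).a.J ⊆ E := by rw [hf1]; exact YY_sub hbY
          have s2 : (s 2).b.J ⊆ E := by rw [e2]; exact YY_sub haY
          rw [hc]
          rw [hx] at s1
          rw [hz] at s2
          intro y hy
          rw [Finset.mem_insert, Finset.mem_singleton] at hy
          rcases hy with rfl | rfl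
          · exact s1 (Finset.mem_singleton_self _)
          · exact s2 (Finset.mem_singleton_self _)
        have hK4 : 4 ≤ K' := by omega
        have h76 : 7 / 6 ≤ ∑ j ∈ Finset.range K', w M v (s (j + 1)) := by
          have hsub : Finset.range 4 ⊆ Finset.range K' := Finset.range_subset_range.2 hK4
          refine le_trans ?_ (Finset.sum_le_sum_of_subset_of_nonneg hsub
            (fun j hj _ => (hTa _ (htr j (Finset.mem_range.1 hj))).1.le))
          have t1 := hT 1 (htr 0 (by omega))
          have t2 := hT 2 (htr 1 (by omega))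
          have t3 := hT 3 (htr 2 (by omega))
          have t4 := hT 4 (htr 3 (by omega))
          have c1 : (s 2).a = (s 1).b := hcomp 1
          have c2 : (s 3).a = (s 2).b := hcomp 2
          have c3 : (s 4).a = (s 3).b := hcomp 3
          have n1 : (s 1).a ≠ (s 2).b := (hcmp 1).2.1 t1.1 t2.1
          have n2 : (s 2).a ≠ (s 3).b := (hcmp 2).2.1 t2.1 t3.1
          have n3 : (s 3).a ≠ (s 4).b := (hcmp 3).2.1 t3.1 t4.1
          have y1 : (s 1).a.ty = 1 := (hpar 0 (by omega)).1 rfl
          have y2 : (s 2).a.ty = 2 := (hpar 1 (by omega)).2 rfl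
          have y3 : (s 3).a.ty = 1 := (hpar 2 (by omega)).1 rfl
          have y4 : (s 4).a.ty = 2 := (hpar 3 (by omega)).2 rfl
          have y5 : (s 5).a.ty = 1 := (hpar 4 (by omega)).1 rfl
          have c4 : (s 5).a = (s 4).b := hcomp 4
          rw [c4] at y5
          have := four hM hv t1.2.1 t2.2.1 t3.2.1 t4.2.1 t4.2.2.1
            (by rw [c1]; exact t1.2.2.2) (by rw [c2]; exact t2.2.2.2)
            (by rw [c3]; exact t3.2.2.2) t4.2.2.2 y1 y2 y3 y4 y5
            (by rw [c2]; exact n1) (by rw [c3]; exact n2) n3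
          rw [Finset.sum_range_succ, Finset.sum_range_succ, Finset.sum_range_succ,
            Finset.sum_range_succ, Finset.sum_range_zero]
          unfold w
          rw [if_pos (show (s (0 + 1)).k = 0 from t1.1), if_pos (show (s (1 + 1)).k = 0 from t2.1),
            if_pos (show (s (2 + 1)).k = 0 from t3.1), if_pos (show (s (3 + 1)).k = 0 from t4.1)]
          rw [show (s (0 + 1)).b = (s 2).a from c1.symm, show (s (1 + 1)).b = (s 3).a from c2.symm,
            show (s (2 + 1)).b = (s 4).a from c3.symm]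
          simp only [zero_add, Nat.reduceAdd]
          linarith
        rw [hsum, hw0, hγ1]
        exact ⟨by linarith, fun _ _ => by linarith⟩
      · -- type 1
        have hpar : ∀ j, j ≤ K' → (j % 2 = 0 → (s (j + 1)).a.ty = 0) ∧
            (j % 2 = 1 → (s (j + 1)).a.ty = 2) := by
          intro j
          induction j with
          | zero =>
            intro _
            refine ⟨fun _ => ?_, fun h => by omega⟩
            rw [hcomp 0]
            exact tf.2.1 hv
          | succ j ih =>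
            intro hj
            obtain ⟨i1, i2⟩ := ih (by omega)
            obtain ⟨-, a1, a2, a3⟩ := hT (j + 1) (htr j (by omega))
            have b1 := Vtx.flag_ty a1 a3 a2
            rw [hcomp (j + 1)]
            constructor
            · intro h
              have := i2 (by omega)
              omega
            · intro h
              have := i1 (by omega)
              omega
        have hKeven : K' % 2 = 0 := by
          by_contra hodd
          have h3 := (hpar K' le_rfl).2 (by omega)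
          rw [hend] at h3
          have h4 := tl.2.1 hv
          omega
        have h1 : 1 ≤ ∑ j ∈ Finset.range K', w M v (s (j + 1)) := by
          have hsub : Finset.range 2 ⊆ Finset.range K' :=
            Finset.range_subset_range.2 (by omega)
          refine le_trans ?_ (Finset.sum_le_sum_of_subset_of_nonneg hsub
            (fun j hj _ => (hTa _ (htr j (Finset.mem_range.1 hj))).1.le))
          rw [Finset.sum_range_succ, Finset.sum_range_succ, Finset.sum_range_zero]
          have e : ∀ j, (s j).k = 0 → w M v (s j) = 1 / 2 := by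
            intro j hj
            unfold w ang
            rw [if_pos hj, if_neg (by omega), if_pos hv]
          rw [e _ (htr 0 (by omega)), e _ (htr 1 (by omega))]
          norm_num
        rw [hsum, hw0]
        exact ⟨by linarith, fun h => by omega⟩
    · have hw0 : w M v (s 0) = 2 := by
        unfold w kW
        rw [if_neg h0, if_neg h34]
      rw [hsum, hw0, hγ1]
      refine ⟨by linarith, fun hv hex => ?_⟩
      obtain ⟨j, hj, hkj⟩ := hex
      have hj0 : j ≠ 0 := by
        rintro rfl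
        exact h0 hkj
      obtain ⟨j', rfl⟩ : ∃ j', j = j' + 1 := ⟨j - 1, by omega⟩
      have h3 := Finset.single_le_sum (f := fun j => w M v (s (j + 1)))
        (fun i hi => (hTa _ (htr i (Finset.mem_range.1 hi))).1.le)
        (Finset.mem_range.2 (show j' < K' by omega))
      have h4 := (hTa _ hkj).2 (by omega)
      have h5 : 1 / 4 ≤ ∑ j ∈ Finset.range K', w M v (s (j + 1)) := h4.trans h3
      linarith

end loop

end U1B

open U1B in
theorem stmt_U1B (hNPC0 : Stmt_NPC0) (hLE : Stmt_LE) : Stmt_U1B := by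
  intro S _ _ M hM E y₁ y₂ X hX
  obtain ⟨hNP, c₁, hc₁, hang⟩ := hNPC0 S M hM
  obtain ⟨c₂, hc₂, hle⟩ := hLE S M hM
  have hpos : ∀ u v w : Vtx (gen M), u.ad v → v.ad w → u.ad w →
      0 < ang M 0 u v w ∧ (u.ty ≠ 2 → 1 / 4 ≤ ang M 0 u v w) := fun u v w h1 h2 h3 =>
    ⟨hNP.pos u v w h1 h2 h3, (hang u v w h1 h2 h3).2⟩
  -- a loop with a gap
  have hgap : ∀ i, (∃ j, (X.s i j).k ≠ 0) → 2 ≤ X.wt (ang M 0) kW i ∧
      ((X.v i).ty = 0 → (∃ j, (X.s i j).k = 0) →
        (((Finset.range (X.K i)).filter (fun j => (X.s i j).k ≠ 0)).card : ℝ) ≤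
          13 * (X.wt (ang M 0) kW i - 2)) := by
    intro i hex
    obtain ⟨m, hm⟩ := hex
    obtain ⟨s, hs⟩ : ∃ s : ℕ → Stp (Vtx (gen M)), s = fun j => X.s i (m + j) := ⟨_, rfl⟩
    have hper : ∀ j, s (j + X.K i) = s j := by
      intro j
      rw [hs]
      show X.s i (m + (j + X.K i)) = X.s i (m + j)
      rw [← add_assoc, hX.per]
    have hstp : ∀ j, TStp Vtx.ad (X.v i) (s j) ∨ ((s j).k ≠ 0 ∧
        GapU M E y₁ y₂ (X.v i) (s j)) := by
      intro j
      rw [hs]
      exact hX.stp i (m + j)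
    have hcmp : ∀ j, CmpY kla klb (YY M E y₁ y₂) (s j) (s (j + 1)) := by
      intro j
      rw [hs]
      exact hX.cmp i (m + j)
    have h0 : (s 0).k ≠ 0 := by rw [hs]; exact hm
    have hmain := loop_gap hM hpos (hX.pos i) hper hstp hcmp h0
    have e1 : X.wt (ang M 0) kW i = ∑ j ∈ Finset.range (X.K i), w M (X.v i) (s j) := by
      rw [hs]
      exact (sum_shift (fun j => w M (X.v i) (X.s i j)) (X.K i)
        (fun j => by rw [hX.per i j]) m).symm
    have e2 : (((Finset.range (X.K i)).filter (fun j => (X.s i j).k ≠ 0)).card : ℝ) =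
        ∑ j ∈ Finset.range (X.K i), (if (s j).k = 0 then (0 : ℝ) else 1) := by
      have e3 : (((Finset.range (X.K i)).filter (fun j => (X.s i j).k ≠ 0)).card : ℝ) =
          ∑ j ∈ Finset.range (X.K i), (if (X.s i j).k = 0 then (0 : ℝ) else 1) := by
        rw [Finset.card_filter]
        push_cast
        refine Finset.sum_congr rfl fun j _ => ?_
        by_cases h : (X.s i j).k = 0
        · rw [if_neg (not_not.2 h), if_pos h]
        · rw [if_pos h, if_neg h]
      rw [e3, hs]
      exact (sum_shift (fun j => if (X.s i j).k = 0 then (0 : ℝ) else 1) (X.K i)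
        (fun j => by rw [hX.per i j]) m).symm
    rw [e1, e2]
    refine ⟨hmain.1, fun hv hex => hmain.2 hv ?_⟩
    obtain ⟨j, hj⟩ := hex
    -- find an index below `K`
    by_contra hcon
    push Not at hcon
    have hall : ∀ n, (s n).k ≠ 0 := by
      intro n
      induction n using Nat.strong_induction_on with
      | _ n ih =>
        rcases Nat.lt_or_ge n (X.K i) with h | h
        · exact hcon n h
        · have h3 := ih (n - X.K i) (by have := hX.pos i; omega)
          have h4 := hper (n - X.K i)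
          rw [Nat.sub_add_cancel h] at h4
          rw [h4]
          exact h3
    obtain ⟨K', hK'⟩ : ∃ n, j + n * X.K i = m + (j + n * X.K i - m) := by
      refine ⟨m, ?_⟩
      have : m ≤ m * X.K i := Nat.le_mul_of_pos_right m (hX.pos i)
      omega
    have hpm : ∀ n, X.s i (j + n * X.K i) = X.s i j := by
      intro n
      induction n with
      | zero => simp
      | succ n ih => rw [Nat.succ_mul, ← add_assoc, hX.per, ih]
    have h5 := hall (j + K' * X.K i - m)
    rw [hs] at h5
    apply h5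
    show (X.s i (m + (j + K' * X.K i - m))).k = 0
    rw [← hK', hpm]
    exact hj
  refine ⟨fun i => ?_, fun i hv hex hex' => (hgap i hex).2 hv hex', ?_, ?_⟩
  · by_cases hex : ∃ j, (X.s i j).k ≠ 0
    · exact (hgap i hex).1
    · push Not at hex
      have hT : TLoop Vtx.ad (X.v i) (X.K i) (X.s i) := ⟨hX.pos i, hX.per i, fun j => by
        rcases hX.stp i j with h | h
        · exact h
        · exact absurd (hex j) h.1, fun j => ⟨(hX.cmp i j).1, (hX.cmp i j).2.1⟩⟩
      have hw : X.wt (ang M 0) kW i =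
          ∑ j ∈ Finset.range (X.K i), ang M 0 (X.v i) (X.s i j).a (X.s i j).b := by
        unfold LSys.wt
        exact Finset.sum_congr rfl fun j _ => by rw [if_pos (hex j)]
      rw [hw]
      rcases hle (X.v i) (X.K i) (X.s i) hT with ⟨-, h, -⟩ | h
      · exact h.ge
      · refine le_trans ?_ h
        have : 0 ≤ c₂ * (X.K i : ℝ) := mul_nonneg hc₂.le (Nat.cast_nonneg _)
        linarith
  · intro i j hk hla
    have hkne : (X.s i (j + 1)).k ≠ 0 := by
      intro h
      rw [h] at hla
      exact hla rfl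
    obtain ⟨h1, h2, h3, h4⟩ : TStp Vtx.ad (X.v i) (X.s i j) := by
      rcases hX.stp i j with h | h
      · exact h
      · exact absurd hk h.1
    have hG : GapU M E y₁ y₂ (X.v i) (X.s i (j + 1)) := by
      rcases hX.stp i (j + 1) with h | h
      · exact absurd h.1 hkne
      · exact h.2
    obtain ⟨c1, -, -, c4⟩ := hX.cmp i j
    obtain ⟨-, -, -, -, hya, -, -⟩ := hG
    obtain ⟨hvY, haY⟩ := hya hla
    have := tri_ty hvY haY (c4 hk hkne) (by rw [← c1]; exact h3) h2
      (by rw [← c1]; exact Vtx.ad_symm h4)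
    exact ⟨this.1, this.2.1⟩
  · intro i j hlb hk
    have hkne : (X.s i j).k ≠ 0 := by
      intro h
      rw [h] at hlb
      exact hlb rfl
    obtain ⟨h1, h2, h3, h4⟩ : TStp Vtx.ad (X.v i) (X.s i (j + 1)) := by
      rcases hX.stp i (j + 1) with h | h
      · exact h
      · exact absurd hk h.1
    have hG : GapU M E y₁ y₂ (X.v i) (X.s i j) := by
      rcases hX.stp i j with h | h
      · exact absurd h.1 hkne
      · exact h.2
    obtain ⟨c1, -, c3, -⟩ := hX.cmp i j
    obtain ⟨-, -, -, -, -, hyb, -⟩ := hG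
    obtain ⟨hvY, hbY⟩ := hyb hlb
    rw [c1] at hbY
    have := tri_ty hvY hbY (c3 hkne hk) h2 h3 h4
    exact ⟨this.1, this.2.1⟩

end Pool.HE
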