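import Pool.Agent.Work.MP_7084a3_full.InterfaceE

set_option autoImplicit false

/-! # Block U1C (helper63): the chain of the side of a strip -/

namespace Pool.HE

open Pool.HA

namespace U1C

theorem nf_add {X : Type} (D D' : X →₀ ℤ) : nf (D + D') ≤ nf D + nf D' := by
  classical
  unfold nf
  have h1 : ∀ F : X →₀ ℤ, F.support ⊆ D.support ∪ D'.support →
      F.sum (fun _ a => a.natAbs) = ∑ x ∈ D.support ∪ D'.support, (F x).natAbs := by
    intro F hF
    exact Finsupp.sum_of_support_subset F hF _ (fun _ _ => rfl)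
  rw [h1 (D + D') Finsupp.support_add, h1 D Finset.subset_union_left,
    h1 D' Finset.subset_union_right, ← Finset.sum_add_distrib]
  refine Finset.sum_le_sum fun x _ => ?_
  rw [Finsupp.add_apply]
  exact Int.natAbs_add_le _ _

theorem nf_zero {X : Type} : nf (0 : X →₀ ℤ) = 0 := by
  unfold nf
  rw [Finsupp.sum_zero_index]

theorem nf_sum {X ι : Type} (s : Finset ι) (F : ι → (X →₀ ℤ)) :
    nf (∑ i ∈ s, F i) ≤ ∑ i ∈ s, nf (F i) := by
  classical
  induction s using Finset.induction_on with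
  | empty => rw [Finset.sum_empty, Finset.sum_empty, nf_zero]
  | insert a s ha ih =>
    rw [Finset.sum_insert ha, Finset.sum_insert ha]
    exact (nf_add _ _).trans (Nat.add_le_add_left ih _)

theorem nf_neg {X : Type} (D : X →₀ ℤ) : nf (-D) = nf D := by
  unfold nf Finsupp.sum
  rw [Finsupp.support_neg]
  refine Finset.sum_congr rfl fun x _ => ?_
  show ((-D) x).natAbs = (D x).natAbs
  rw [Finsupp.neg_apply, Int.natAbs_neg]

theorem nf_single {X : Type} (x : X) : nf (Finsupp.single x (1 : ℤ)) = 1 := by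
  unfold nf
  rw [Finsupp.sum_single_index rfl]
  rfl

theorem nf_EE {G S : Type} [Group G] {g : S → G} (a b : Vtx g) : nf (EE a b : C1 g) ≤ 1 := by
  classical
  unfold EE dl1
  rcases lt_trichotomy a.ty b.ty with h | h | h
  · rw [if_pos h, if_neg (by omega), sub_zero, nf_single]
  · rw [if_neg (by omega), if_neg (by omega), sub_zero, nf_zero]
    norm_num
  · rw [if_neg (by omega), if_pos h, zero_sub, nf_neg, nf_single]

theorem EE_anti {G S : Type} [Group G] {g : S → G} (a b : Vtx g) :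
    (EE a b : C1 g) + EE b a = 0 := by
  unfold EE
  abel

theorem sum_succ {A : Type} [AddCommGroup A] (f : ℕ → A) (K : ℕ) (hf : f K = f 0) :
    ∑ j ∈ Finset.range K, f (j + 1) = ∑ j ∈ Finset.range K, f j := by
  have h1 := Finset.sum_range_succ f K
  have h2 := Finset.sum_range_succ' f K
  rw [h1, hf] at h2
  exact (add_right_cancel h2).symm

/-- accounting data with junctions only -/
noncomputable def jacc {V A : Type} [AddCommGroup A] (adj : V → V → Prop) (T : V → V → V → A)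
    {B : Type} [AddCommGroup B] (J : V → V → V ⊕ ℕ → V ⊕ ℕ → B)
    (h : ∀ v b L R, J v b L R + J b v R L = 0) : Acc adj T B where
  f := fun _ _ _ => 0
  g := fun _ _ => 0
  J := J
  κ := 0
  ψ := 0
  tri := fun u v c _ _ _ => by simp
  swap := h

theorem jtot {V A : Type} [AddCommGroup A] {adj : V → V → Prop} {T : V → V → V → A}
    {B : Type} [AddCommGroup B] (J : V → V → V ⊕ ℕ → V ⊕ ℕ → B)
    (h : ∀ v b L R, J v b L R + J b v R L = 0) (la lb : ℕ → ℕ) (X : LSys V) :
    X.tot la lb (jacc adj T J h) = ∑ i, ∑ j ∈ Finset.range (X.K i),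
      J (X.v i) (X.s i (j + 1)).a (rsd lb (X.s i j)) (lsd la (X.s i (j + 1))) := by
  unfold LSys.tot
  refine Finset.sum_congr rfl fun i _ => Finset.sum_congr rfl fun j _ => ?_
  have : (jacc adj T J h).val (X.v i) (X.s i j) = 0 := by
    unfold Acc.val
    split <;> rfl
  rw [this, zero_add]
  rfl

end U1C

open U1C in
open Classical in
theorem stmt_U1C (hU1A : Stmt_U1A) (hU1B : Stmt_U1B) : Stmt_U1C := by
  intro S _ _ M hM E y₁ y₂ h δ hy h1 h2 hδ N hN
  obtain ⟨β₁, X, hβ, hX, hwt, hgap, hch, hacc⟩ := hU1A S M hM E y₁ y₂ h δ hy h1 h2 hδ N hN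
  refine ⟨β₁, hβ, ?_⟩
  obtain ⟨hw2, hw0, hL, -⟩ := hU1B S M hM E y₁ y₂ X hX
  -- notation
  obtain ⟨L, hLd⟩ : ∃ L : ∀ i : X.ι, ℕ → Vtx (gen M) ⊕ ℕ, L = fun i j => rsd klb (X.s i j) :=
    ⟨_, rfl⟩
  obtain ⟨R, hRd⟩ : ∃ R : ∀ i : X.ι, ℕ → Vtx (gen M) ⊕ ℕ, R = fun i j =>
    lsd kla (X.s i (j + 1)) := ⟨_, rfl⟩
  have hper : ∀ i, X.s i (X.K i) = X.s i 0 := fun i => by
    have := hX.per i 0
    rwa [Nat.zero_add] at this
  have hR1 : ∀ i j, R i j = Sum.inr 1 ↔ kla (X.s i (j + 1)).k = 1 := by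
    intro i j
    rw [hRd]
    show lsd kla (X.s i (j + 1)) = _ ↔ _
    unfold lsd
    by_cases hk : (X.s i (j + 1)).k = 0
    · rw [if_pos hk, hk]
      constructor
      · intro hh; exact absurd hh (by simp)
      · intro hh; exact absurd hh (by unfold kla; norm_num)
    · rw [if_neg hk]
      constructor
      · intro hh; exact Sum.inr_injective hh
      · intro hh; rw [hh]
  -- the first accounting identity
  have a1 := hacc (C1 (gen M)) (jacc Vtx.ad TT
    (fun v b L R => if L = Sum.inr 1 ∧ R = Sum.inr 1 then EE v b else 0)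
    (fun v b L R => by
      by_cases hh : L = Sum.inr 1 ∧ R = Sum.inr 1
      · rw [if_pos hh, if_pos hh.symm]; exact EE_anti _ _
      · rw [if_neg hh, if_neg (fun h' => hh h'.symm), add_zero]))
    (fun _ _ => rfl) (fun _ _ _ => rfl) rfl rfl
  rw [jtot] at a1
  -- the chain
  have e1 : wch β₁ = ∑ i, ∑ j ∈ Finset.range (X.K i), (if R i j = Sum.inr 1 ∧ ¬ L i j = Sum.inr 1
      then (EE (X.v i) (X.s i (j + 1)).a : C1 (gen M)) else 0) := by
    have e2 : wch β₁ = ∑ i, ∑ j ∈ Finset.range (X.K i), (if R i j = Sum.inr 1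
        then (EE (X.v i) (X.s i (j + 1)).a : C1 (gen M)) else 0) := by
      rw [← hch]
      refine Finset.sum_congr rfl fun i _ => ?_
      rw [← sum_succ (fun j => if kla (X.s i j).k = 1 then
        (EE (X.v i) (X.s i j).a : C1 (gen M)) else 0) (X.K i) (by rw [hper i])]
      refine Finset.sum_congr rfl fun j _ => ?_
      by_cases hh : kla (X.s i (j + 1)).k = 1
      · rw [if_pos hh, if_pos ((hR1 i j).2 hh)]
      · rw [if_neg hh, if_neg (fun h' => hh ((hR1 i j).1 h'))]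
    have e3 : ∑ i, ∑ j ∈ Finset.range (X.K i), (if L i j = Sum.inr 1 ∧ R i j = Sum.inr 1
        then (EE (X.v i) (X.s i (j + 1)).a : C1 (gen M)) else 0) = 0 := by
      rw [hLd, hRd]
      exact a1
    have e4 : wch β₁ = (∑ i, ∑ j ∈ Finset.range (X.K i), (if R i j = Sum.inr 1
        then (EE (X.v i) (X.s i (j + 1)).a : C1 (gen M)) else 0)) -
        ∑ i, ∑ j ∈ Finset.range (X.K i), (if L i j = Sum.inr 1 ∧ R i j = Sum.inr 1
        then (EE (X.v i) (X.s i (j + 1)).a : C1 (gen M)) else 0) := by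
      rw [e3, sub_zero]
      exact e2
    rw [e4, ← Finset.sum_sub_distrib]
    refine Finset.sum_congr rfl fun i _ => ?_
    rw [← Finset.sum_sub_distrib]
    refine Finset.sum_congr rfl fun j _ => ?_
    by_cases hR : R i j = Sum.inr 1
    · by_cases hL' : L i j = Sum.inr 1
      · rw [if_pos hR, if_pos ⟨hL', hR⟩, if_neg (fun h' => h'.2 hL'), sub_self]
      · rw [if_pos hR, if_neg (fun h' => hL' h'.1), if_pos ⟨hR, hL'⟩, sub_zero]
    · rw [if_neg hR, if_neg (fun h' => hR h'.2), if_neg (fun h' => hR h'.1), sub_zero]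
  -- the numbers
  obtain ⟨γ, hγ⟩ : ∃ γ : X.ι → ℕ, γ = fun i =>
    ((Finset.range (X.K i)).filter (fun j => (X.s i j).k ≠ 0)).card := ⟨_, rfl⟩
  obtain ⟨m, hm⟩ : ∃ m : X.ι → ℕ, m = fun i => if (X.v i).ty = 0 ∧ (∃ j, (X.s i j).k ≠ 0) ∧
    (∃ j, (X.s i j).k = 0) then γ i else 0 := ⟨_, rfl⟩
  have hγs : ∀ i, γ i = ∑ j ∈ Finset.range (X.K i), (if (X.s i j).k ≠ 0 then 1 else 0) := by
    intro i
    rw [hγ]
    exact Finset.card_filter _ _
  have hγs' : ∀ i, γ i = ∑ j ∈ Finset.range (X.K i),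
      (if (X.s i (j + 1)).k ≠ 0 then 1 else 0) := by
    intro i
    have h3 := sum_succ (fun j => if (X.s i j).k ≠ 0 then (1 : ℤ) else 0) (X.K i)
      (by rw [hper i])
    have h4 := hγs i
    have h5 : (γ i : ℤ) = ((∑ j ∈ Finset.range (X.K i),
      (if (X.s i (j + 1)).k ≠ 0 then 1 else 0) : ℕ) : ℤ) := by
      rw [h4]
      push_cast
      exact h3.symm
    exact_mod_cast h5
  have hmsum : (∑ i, m i) ≤ 26 * δ.length := by
    have h3 : ((∑ i, m i : ℕ) : ℝ) ≤ 13 * ∑ i, (X.wt (ang M 0) kW i - 2) := by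
      push_cast
      rw [Finset.mul_sum]
      refine Finset.sum_le_sum fun i _ => ?_
      rw [hm]
      dsimp only
      by_cases hh : (X.v i).ty = 0 ∧ (∃ j, (X.s i j).k ≠ 0) ∧ (∃ j, (X.s i j).k = 0)
      · rw [if_pos hh, hγ]
        exact hw0 i hh.1 hh.2.1 hh.2.2
      · rw [if_neg hh]
        have := hw2 i
        push_cast
        linarith
    rw [hwt] at h3
    have h4 : ((∑ i, m i : ℕ) : ℝ) ≤ ((26 * δ.length : ℕ) : ℝ) := by
      push_cast
      push_cast at h3
      linarith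
    exact_mod_cast h4
  -- number of junctions
  have hcount : nf (wch β₁) ≤ ∑ i, ∑ j ∈ Finset.range (X.K i),
      (if R i j = Sum.inr 1 ∧ ¬ L i j = Sum.inr 1 then 1 else 0) := by
    rw [e1]
    refine (nf_sum _ _).trans (Finset.sum_le_sum fun i _ => (nf_sum _ _).trans
      (Finset.sum_le_sum fun j _ => ?_))
    split
    · exact nf_EE _ _
    · rw [nf_zero]
  -- pointwise bound
  have hpt : ∀ i j, (if R i j = Sum.inr 1 ∧ ¬ L i j = Sum.inr 1 then 1 else 0) ≤
      (if (X.s i j).k = 0 ∨ (X.s i j).k = 3 ∨ (X.s i j).k = 4 then 0 else 1) +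
      ((if (X.v i).ty = 0 ∧ (X.s i j).k = 0 ∧ (X.s i (j + 1)).k ≠ 0 then 1 else 0) +
      (if (X.v i).ty = 1 ∧ (X.s i (j + 1)).a.ty = 0 ∧ (∃ p, L i j = Sum.inl p) ∧
        R i j = Sum.inr 1 then 1 else 0)) := by
    intro i j
    by_cases hh : R i j = Sum.inr 1 ∧ ¬ L i j = Sum.inr 1
    · rw [if_pos hh]
      obtain ⟨hR, hLn⟩ := hh
      have hka := (hR1 i j).1 hR
      have hkne : (X.s i (j + 1)).k ≠ 0 := by
        intro h0
        rw [h0] at hka
        exact absurd hka (by unfold kla; norm_num)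
      by_cases hk : (X.s i j).k = 0
      · -- triangle
        obtain ⟨t1, t2⟩ := hL i j hk (by rw [hka]; norm_num)
        have hLp : ∃ p, L i j = Sum.inl p := ⟨(X.s i j).a, by
          rw [hLd]
          show rsd klb (X.s i j) = _
          unfold rsd
          rw [if_pos hk]⟩
        have := (X.v i).ty_le
        rcases (show (X.v i).ty = 0 ∨ (X.v i).ty = 1 by omega) with hv | hv
        · rw [if_pos (show (X.v i).ty = 0 ∧ (X.s i j).k = 0 ∧ (X.s i (j + 1)).k ≠ 0 from
            ⟨hv, hk, hkne⟩)]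
          omega
        · rw [if_pos (show (X.v i).ty = 1 ∧ (X.s i (j + 1)).a.ty = 0 ∧
            (∃ p, L i j = Sum.inl p) ∧ R i j = Sum.inr 1 from ⟨hv, t2 hv, hLp, hR⟩)]
          omega
      · -- gap
        have hLk : L i j = Sum.inr (klb (X.s i j).k) := by
          rw [hLd]
          show rsd klb (X.s i j) = _
          unfold rsd
          rw [if_neg hk]
        have hG : GapU M E y₁ y₂ (X.v i) (X.s i j) := by
          rcases hX.stp i j with h3 | h3
          · exact absurd h3.1 hk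
          · exact h3.2
        have hG' : GapU M E y₁ y₂ (X.v i) (X.s i (j + 1)) := by
          rcases hX.stp i (j + 1) with h3 | h3
          · exact absurd h3.1 hkne
          · exact h3.2
        have hv1 : X.v i ∈ YY M E y₁ y₂ 1 := by
          have := (hG'.2.2.2.2.1 (by rw [hka]; norm_num)).1
          rwa [hka] at this
        have h34 : ¬ ((X.s i j).k = 0 ∨ (X.s i j).k = 3 ∨ (X.s i j).k = 4) := by
          rintro (h3 | h3 | h3)
          · exact hk h3
          · apply hLn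
            rw [hLk, h3]
            rfl
          · -- label 2
            have hlb : klb (X.s i j).k = 2 := by rw [h3]; rfl
            have hv2 : X.v i ∈ YY M E y₁ y₂ 2 := by
              have := (hG.2.2.2.2.2.1 (by rw [hlb]; norm_num)).1
              rwa [hlb] at this
            rcases hv1 with ⟨-, v1⟩ | ⟨h4, -⟩
            · rcases hv2 with ⟨h4, -⟩ | ⟨-, v2⟩
              · exact absurd h4 (by norm_num)
              · obtain ⟨x1, x, hx, hxe⟩ := v1
                obtain ⟨-, x', hx', hxe'⟩ := v2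
                have q1 : y₁⁻¹ * x ∈ par (gen M) E := QuotientGroup.eq.1 hxe.symm
                have q2 : y₂⁻¹ * x' ∈ par (gen M) E := QuotientGroup.eq.1 hxe'.symm
                have q3 : x⁻¹ * x' ∈ par (gen M) E := par_mono x1 ((Vtx.mem_iff hx x').1 hx')
                apply hy
                have q4 := (par (gen M) E).mul_mem ((par (gen M) E).mul_mem q1 q3)
                  ((par (gen M) E).inv_mem q2)
                have q5 : y₁⁻¹ * x * (x⁻¹ * x') * (y₂⁻¹ * x')⁻¹ = y₁⁻¹ * y₂ := by group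
                rwa [q5] at q4
            · exact absurd h4 (by norm_num)
        rw [if_neg h34]
        omega
    · rw [if_neg hh]
      exact Nat.zero_le _
  -- type 1 junctions
  have a2 := hacc ℤ (jacc Vtx.ad TT
    (fun v b L R => (if v.ty = 1 ∧ b.ty = 0 ∧ (∃ p, L = Sum.inl p) ∧ R = Sum.inr 1 then (1 : ℤ)
      else 0) - (if b.ty = 1 ∧ v.ty = 0 ∧ (∃ p, R = Sum.inl p) ∧ L = Sum.inr 1 then 1 else 0))
    (fun v b L R => by ring))
    (fun _ _ => rfl) (fun _ _ _ => rfl) rfl rfl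
  rw [jtot] at a2
  have hT3 : ∑ i, ∑ j ∈ Finset.range (X.K i), (if (X.v i).ty = 1 ∧ (X.s i (j + 1)).a.ty = 0 ∧
      (∃ p, L i j = Sum.inl p) ∧ R i j = Sum.inr 1 then 1 else 0) =
      ∑ i, ∑ j ∈ Finset.range (X.K i), (if (X.s i (j + 1)).a.ty = 1 ∧ (X.v i).ty = 0 ∧
      (∃ p, R i j = Sum.inl p) ∧ L i j = Sum.inr 1 then 1 else 0) := by
    have h3 : ∑ i, ∑ j ∈ Finset.range (X.K i), ((if (X.v i).ty = 1 ∧
        (X.s i (j + 1)).a.ty = 0 ∧ (∃ p, L i j = Sum.inl p) ∧ R i j = Sum.inr 1 then (1 : ℤ)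
        else 0) - (if (X.s i (j + 1)).a.ty = 1 ∧ (X.v i).ty = 0 ∧ (∃ p, R i j = Sum.inl p) ∧
        L i j = Sum.inr 1 then 1 else 0)) = 0 := by
      rw [hLd, hRd]
      exact a2
    simp only [Finset.sum_sub_distrib] at h3
    have h4 := sub_eq_zero.1 h3
    have h5 : ((∑ i, ∑ j ∈ Finset.range (X.K i), (if (X.v i).ty = 1 ∧
        (X.s i (j + 1)).a.ty = 0 ∧ (∃ p, L i j = Sum.inl p) ∧ R i j = Sum.inr 1 then 1 else 0 :
          ℕ) : ℕ) : ℤ) =
        ((∑ i, ∑ j ∈ Finset.range (X.K i), (if (X.s i (j + 1)).a.ty = 1 ∧ (X.v i).ty = 0 ∧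
        (∃ p, R i j = Sum.inl p) ∧ L i j = Sum.inr 1 then 1 else 0 : ℕ) : ℕ) : ℤ) := by
      push_cast
      exact h4
    exact_mod_cast h5
  -- bounds by `m`
  have hb1 : ∑ i, ∑ j ∈ Finset.range (X.K i),
      (if (X.v i).ty = 0 ∧ (X.s i j).k = 0 ∧ (X.s i (j + 1)).k ≠ 0 then 1 else 0) ≤ ∑ i, m i := by
    refine Finset.sum_le_sum fun i _ => ?_
    rw [hm]
    dsimp only
    by_cases hh : (X.v i).ty = 0 ∧ (∃ j, (X.s i j).k ≠ 0) ∧ (∃ j, (X.s i j).k = 0)
    · rw [if_pos hh, hγs' i]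
      refine Finset.sum_le_sum fun j _ => ?_
      by_cases h3 : (X.s i (j + 1)).k ≠ 0
      · rw [if_pos h3]
        split <;> norm_num
      · rw [if_neg h3, if_neg (fun h' => h3 h'.2.2)]
    · rw [if_neg hh]
      refine (Finset.sum_eq_zero fun j _ => ?_).le
      rw [if_neg (fun h' => hh ⟨h'.1, ⟨_, h'.2.2⟩, ⟨_, h'.2.1⟩⟩)]
  have hb2 : ∑ i, ∑ j ∈ Finset.range (X.K i), (if (X.s i (j + 1)).a.ty = 1 ∧ (X.v i).ty = 0 ∧
      (∃ p, R i j = Sum.inl p) ∧ L i j = Sum.inr 1 then 1 else 0) ≤ ∑ i, m i := by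
    refine Finset.sum_le_sum fun i _ => ?_
    have hkk : ∀ j, (∃ p, R i j = Sum.inl p) → L i j = Sum.inr 1 →
        (X.s i j).k ≠ 0 ∧ (X.s i (j + 1)).k = 0 := by
      intro j hp hq
      rw [hRd] at hp
      rw [hLd] at hq
      obtain ⟨p, hp⟩ := hp
      change lsd kla (X.s i (j + 1)) = _ at hp
      change rsd klb (X.s i j) = _ at hq
      unfold lsd at hp
      unfold rsd at hq
      constructor
      · intro h0
        rw [if_pos h0] at hq
        exact absurd hq (by simp)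
      · by_contra h0
        rw [if_neg h0] at hp
        exact absurd hp (by simp)
    rw [hm]
    dsimp only
    by_cases hh : (X.v i).ty = 0 ∧ (∃ j, (X.s i j).k ≠ 0) ∧ (∃ j, (X.s i j).k = 0)
    · rw [if_pos hh, hγs i]
      refine Finset.sum_le_sum fun j _ => ?_
      by_cases h3 : (X.s i j).k ≠ 0
      · rw [if_pos h3]
        split <;> norm_num
      · rw [if_neg h3, if_neg (fun h' => h3 (hkk j h'.2.2.1 h'.2.2.2).1)]
    · rw [if_neg hh]
      refine (Finset.sum_eq_zero fun j _ => ?_).le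
      rw [if_neg (fun h' => hh ⟨h'.2.1, ⟨_, (hkk j h'.2.2.1 h'.2.2.2).1⟩,
        ⟨_, (hkk j h'.2.2.1 h'.2.2.2).2⟩⟩)]
  -- conclusion
  have hfin : ∑ i, ∑ j ∈ Finset.range (X.K i),
      (if R i j = Sum.inr 1 ∧ ¬ L i j = Sum.inr 1 then 1 else 0) ≤
      ∑ i, ∑ j ∈ Finset.range (X.K i),
        (if (X.s i j).k = 0 ∨ (X.s i j).k = 3 ∨ (X.s i j).k = 4 then 0 else 1) +
      (∑ i, ∑ j ∈ Finset.range (X.K i),
        (if (X.v i).ty = 0 ∧ (X.s i j).k = 0 ∧ (X.s i (j + 1)).k ≠ 0 then 1 else 0) +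
      ∑ i, ∑ j ∈ Finset.range (X.K i), (if (X.v i).ty = 1 ∧ (X.s i (j + 1)).a.ty = 0 ∧
        (∃ p, L i j = Sum.inl p) ∧ R i j = Sum.inr 1 then 1 else 0)) := by
    simp only [← Finset.sum_add_distrib]
    exact Finset.sum_le_sum fun i _ => Finset.sum_le_sum fun j _ => hpt i j
  have hgap' : ∑ i, ∑ j ∈ Finset.range (X.K i),
      (if (X.s i j).k = 0 ∨ (X.s i j).k = 3 ∨ (X.s i j).k = 4 then 0 else 1) ≤ 2 * δ.length := by
    exact hgap
  rw [hT3] at hfin
  omega

end Pool.HE
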