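import Pool.Agent.Work.MP_7084a3_full.InterfaceG

set_option autoImplicit false

namespace Pool.HE

open Pool.HA

/-- a closed walk is a chain -/
theorem UNI_chain {V : Type} {adj : V → V → Prop} {l : List V} (h : CW adj l) : l.IsChain adj := by
  rw [List.isChain_iff_forall_rel_of_append_cons_cons]
  intro a b l₁ l₂ e
  obtain ⟨r, hr, har⟩ := h l₁ a (b :: l₂) e
  simp only [List.cons_append, List.head?_cons, Option.mem_def, Option.some.injEq] at hr
  subst hr
  exact har

/-- `u :: (p ++ x :: p.reverse)` can be collapsed to `[u, x₁]` -/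
theorem UNI_aux (hASPH : Stmt_ASPH0) (hFBR : Stmt_FBR) {V A : Type} [AddCommGroup A]
    {adj : V → V → Prop} {T : V → V → V → A} {ang : V → V → V → ℝ}
    (hT : TriOK adj T) (hN : NP0 adj ang) (u : V) (p : List V) :
    ∀ (x : V) (D : A) (n : ℕ), (u :: (p ++ [x])).IsChain adj →
      Fill adj T (u :: (p ++ x :: p.reverse)) D n → D = 0 := by
  induction p using List.reverseRecOn with
  | nil =>
    intro x D n hc h
    simp only [List.nil_append, List.reverse_nil] at hc h
    have hux : adj u x := by
      rw [List.isChain_cons_cons] at hc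
      exact hc.1
    exact hASPH V A adj T ang hT hN D n (Fill.sph hux h)
  | append_singleton p y ih =>
    intro x D n hc h
    have hyx : adj y x := by
      rw [List.isChain_iff_forall_rel_of_append_cons_cons] at hc
      exact hc (a := y) (b := x) (l₁ := u :: p) (l₂ := []) (by simp)
    have hc' : (u :: (p ++ [y])).IsChain adj := by
      have e : u :: (p ++ [y] ++ [x]) = (u :: (p ++ [y])) ++ [x] := by simp
      rw [e] at hc
      exact hc.left_of_append
    refine ih y D n hc' ?_
    have e : u :: (p ++ [y] ++ x :: (p ++ [y]).reverse) = (u :: p) ++ y :: x :: y :: p.reverse := by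
      simp
    rw [e] at h
    exact hFBR V A adj T hT (u :: p) p.reverse y x D n hyx h

theorem stmt_UNI0 (hASPH : Stmt_ASPH0) (hFREV : Stmt_FREV) (hFCAT : Stmt_FCAT) (hFBR : Stmt_FBR)
    (hFCW : Stmt_FCW) : Stmt_UNI0 := by
  intro V A _ adj T ang hT hN l D₁ D₂ n₁ n₂ h1 h2
  rcases l with _ | ⟨u, q⟩
  · rw [hASPH V A adj T ang hT hN D₁ n₁ h1, hASPH V A adj T ang hT hN D₂ n₂ h2]
  · have hcw := hFCW V A adj T hT _ _ _ h1
    have h3 := hFREV V A adj T hT _ _ _ h2
    have h4 := hFCAT V A adj T _ _ _ _ _ _ h1 h3 (by
      intro z hz z' hz'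
      simp only [rv, List.head?_cons, Option.mem_def, Option.some.injEq] at hz hz'
      rw [← hz, ← hz'])
    have hch := UNI_chain hcw
    rcases List.eq_nil_or_concat q with rfl | ⟨p, x, rfl⟩
    · exfalso
      obtain ⟨r, hr, -⟩ := hcw [] u [] rfl
      simp at hr
    · rw [List.concat_eq_append] at h4 hcw hch
      have hxu : adj x u := by
        obtain ⟨r, hr, har⟩ := hcw (u :: p) x [] (by simp)
        simp only [List.nil_append, List.head?_cons, Option.mem_def, Option.some.injEq] at hr
        subst hr
        exact har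
      have e : (u :: (p ++ [x])) ++ rv (u :: (p ++ [x]))
          = (u :: p) ++ x :: u :: x :: p.reverse := by
        simp [rv]
      rw [e] at h4
      have h5 := hFBR V A adj T hT (u :: p) p.reverse x u _ _ hxu h4
      have h6 := UNI_aux hASPH hFBR hT hN u p x _ _ hch (by simpa using h5)
      rw [← sub_eq_add_neg] at h6
      exact sub_eq_zero.mp h6

end Pool.HE
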