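import Pool.Agent.Work.MP_7084a3_full.InterfaceC
import Pool.Agent.Work.MP_7084a3_h91.B.WB

set_option autoImplicit false

/-! # Block WBE (helper52, after WB of helper45) -/

namespace Pool.HE

open Pool.HA Pool.HA.H45

theorem stmt_WBE (hRR : Stmt_RR) : Stmt_WBE := by
  intro S S' _ _ M M' hM hM' hc hc' hE hE' φ
  have c1 : ∀ s : S, ∃ w s', qm M' (φ (gen M s)) = w * M'.simple s' * w⁻¹ := fun s =>
    qm_rfl (hRR S S' M M' hM hM' hc hc' hE' φ (gen M s) (rfl_gen s))
  have c2 : ∀ s' : S', ∃ w s, qm M (φ.symm (gen M' s')) = w * M.simple s * w⁻¹ := fun s' =>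
    qm_rfl (hRR S' S M' M hM' hM hc' hc hE φ.symm (gen M' s') (rfl_gen s'))
  obtain ⟨F, hF⟩ := exists_lift M hM.ne_zero ((qm M').comp φ.toMonoidHom) (by
    intro s
    obtain ⟨w, s', hw⟩ := c1 s
    show qm M' (φ (gen M s)) * qm M' (φ (gen M s)) = 1
    rw [hw]
    exact conj_sq (simple_sq45 M' s'))
  obtain ⟨F', hF'⟩ := exists_lift M' hM'.ne_zero ((qm M).comp φ.symm.toMonoidHom) (by
    intro s
    obtain ⟨w, s', hw⟩ := c2 s
    show qm M (φ.symm (gen M' s)) * qm M (φ.symm (gen M' s)) = 1
    rw [hw]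
    exact conj_sq (simple_sq45 M s'))
  have hF : ∀ s, F (M.simple s) = qm M' (φ (gen M s)) := hF
  have hF' : ∀ s, F' (M'.simple s) = qm M (φ.symm (gen M' s)) := hF'
  have e1 : ∀ x : Art M, F (qm M x) = qm M' (φ x) := by
    have := art_hom_ext (M := M) (f := F.comp (qm M)) (g := (qm M').comp φ.toMonoidHom)
      (fun s => by
        show F (qm M (gen M s)) = qm M' (φ (gen M s))
        rw [qm_gen, hF])
    exact this
  have e2 : ∀ x : Art M', F' (qm M' x) = qm M (φ.symm x) := by
    have := art_hom_ext (M := M') (f := F'.comp (qm M')) (g := (qm M).comp φ.symm.toMonoidHom)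
      (fun s => by
        show F' (qm M' (gen M' s)) = qm M (φ.symm (gen M' s))
        rw [qm_gen, hF'])
    exact this
  have i1 : ∀ x, F' (F x) = x := by
    have := cox_hom_ext (M := M) (f := F'.comp F) (g := MonoidHom.id _) (fun s => by
      show F' (F (M.simple s)) = M.simple s
      rw [hF, e2, MulEquiv.symm_apply_apply, qm_gen])
    exact this
  have i2 : ∀ x, F (F' x) = x := by
    have := cox_hom_ext (M := M') (f := F.comp F') (g := MonoidHom.id _) (fun s => by
      show F (F' (M'.simple s)) = M'.simple s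
      rw [hF', e1, MulEquiv.apply_symm_apply, qm_gen])
    exact this
  refine ⟨{ toFun := F, invFun := F', left_inv := i1, right_inv := i2, map_mul' := map_mul F },
    ?_, ?_, ?_⟩
  · intro s
    obtain ⟨w, s', hw⟩ := c1 s
    exact ⟨w, s', (hF s).trans hw⟩
  · intro s'
    obtain ⟨w, s, hw⟩ := c2 s'
    exact ⟨w, s, (hF' s').trans hw⟩
  · intro π π' hπ hπ' x
    have p1 : ∀ x, π x = qm M x := by
      have := art_hom_ext (M := M) (f := π) (g := qm M) (fun s => by rw [hπ s, qm_gen])
      exact this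
    have p2 : ∀ x, π' x = qm M' x := by
      have := art_hom_ext (M := M') (f := π') (g := qm M') (fun s => by rw [hπ' s, qm_gen])
      exact this
    rw [p1, p2]
    exact e1 x

end Pool.HE
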