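import Pool.Agent.Work.MP_7084a3_full.InterfaceG
import Pool.Agent.Work.MP_7084a3_h91.B.ZZ1

set_option autoImplicit false

/-! # Block ZZS: orbit sums of two commuting permutations -/

namespace Pool.HE

open Pool.HA

namespace ZZSAux

open Finsupp Pool.HA.ZZ1Aux

open Classical in
theorem osum_eq {X : Type} (σ τ : Equiv.Perm X) (t : X) (D : X →₀ ℤ) :
    osum σ τ t D = ∑ x ∈ D.support, if (∃ a b : ℤ, (σ ^ a * τ ^ b) t = x) then D x else 0 := by
  unfold osum
  rw [Finsupp.liftAddHom_apply, Finsupp.sum]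
  refine Finset.sum_congr rfl (fun x _ => ?_)
  split_ifs <;> rfl

open Classical in
theorem osum_single {X : Type} (σ τ : Equiv.Perm X) (t x : X) (c : ℤ) :
    osum σ τ t (single x c) = if (∃ a b : ℤ, (σ ^ a * τ ^ b) t = x) then c else 0 := by
  unfold osum
  rw [Finsupp.liftAddHom_apply_single]
  split_ifs <;> rfl

theorem comm_mul {X : Type} {σ τ : Equiv.Perm X} (hc : Commute σ τ) (a b c d : ℤ) (x : X) :
    (σ ^ a * τ ^ b) ((σ ^ c * τ ^ d) x) = (σ ^ (a + c) * τ ^ (b + d)) x := by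
  have hg : (σ ^ a * τ ^ b) * (σ ^ c * τ ^ d) = σ ^ (a + c) * τ ^ (b + d) := by
    have h1 : τ ^ b * σ ^ c = σ ^ c * τ ^ b := (hc.zpow_zpow c b).symm.eq
    calc (σ ^ a * τ ^ b) * (σ ^ c * τ ^ d) = σ ^ a * (τ ^ b * σ ^ c) * τ ^ d := by group
      _ = σ ^ a * (σ ^ c * τ ^ b) * τ ^ d := by rw [h1]
      _ = σ ^ (a + c) * τ ^ (b + d) := by rw [zpow_add, zpow_add]; group
  rw [← hg]
  rfl

/-- the sum of the values of a finitely supported function over a large box -/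
theorem box_sum2 (d : (ℤ × ℤ) →₀ ℤ) (K N i j : ℕ)
    (hK : ∀ g ∈ d.support, g.1.natAbs ≤ K ∧ g.2.natAbs ≤ K) (hi : K ≤ i) (hj : K ≤ j)
    (hi' : i + K < N) (hj' : j + K < N) :
    ∑ a ∈ Finset.range N, ∑ b ∈ Finset.range N, d ((i : ℤ) - a, (j : ℤ) - b) =
      ∑ g ∈ d.support, d g := by
  classical
  rw [← Finset.sum_product']
  have hinj : Set.InjOn (fun p : ℕ × ℕ => (((i : ℤ) - p.1, (j : ℤ) - p.2) : ℤ × ℤ))
      ((Finset.range N ×ˢ Finset.range N : Finset (ℕ × ℕ)) : Set (ℕ × ℕ)) := by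
    rintro ⟨a, b⟩ - ⟨a', b'⟩ - h
    simp only [Prod.mk.injEq] at h
    ext <;> simp <;> omega
  have h2 := Finset.sum_image (f := fun g => d g) hinj
  rw [← h2]
  symm
  refine Finset.sum_subset ?_ ?_
  · intro g hg
    obtain ⟨h3, h4⟩ := hK g hg
    rw [Finset.mem_image]
    refine ⟨(((i : ℤ) - g.1).toNat, ((j : ℤ) - g.2).toNat), ?_, ?_⟩
    · rw [Finset.mem_product, Finset.mem_range, Finset.mem_range]
      constructor <;> simp <;> omega
    · ext <;> simp <;> omega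
  · intro g _ hg
    exact Finsupp.notMem_support_iff.1 hg

theorem part1 {X : Type} {σ τ : Equiv.Perm X} (hc : Commute σ τ) (D : X →₀ ℤ)
    (h : ∀ t, osum σ τ t D = 0) :
    ∃ P Q : X →₀ ℤ, D = (P - mv σ P) + (Q - mv τ Q) ∧
      (∀ x ∈ P.support, ∃ a b : ℤ, (σ ^ a * τ ^ b) x ∈ D.support) ∧
      (∀ x ∈ Q.support, ∃ a b : ℤ, (σ ^ a * τ ^ b) x ∈ D.support) := by
  classical
  have hg' := comm_mul hc
  let R : Setoid X :=
    { r := fun x y => ∃ a b : ℤ, (σ ^ a * τ ^ b) x = y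
      iseqv := ⟨fun x => ⟨0, 0, by simp⟩, by
        rintro x y ⟨a, b, rfl⟩
        refine ⟨-a, -b, ?_⟩
        rw [hg']; simp, by
        rintro x y z ⟨a, b, rfl⟩ ⟨c, d, rfl⟩
        exact ⟨c + a, d + b, (hg' _ _ _ _ _).symm⟩⟩ }
  have key : D.mapDomain (Quotient.mk R) = 0 := by
    ext q
    rw [Finsupp.zero_apply]
    obtain ⟨x₀, rfl⟩ := Quotient.exists_rep q
    have h1 := h x₀
    rw [osum_eq] at h1
    rw [Finsupp.mapDomain, Finsupp.sum_apply, Finsupp.sum]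
    refine Eq.trans (Finset.sum_congr rfl (fun x _ => ?_)) h1
    rw [Finsupp.single_apply]
    by_cases hx : ∃ a b : ℤ, (σ ^ a * τ ^ b) x₀ = x
    · rw [if_pos hx, if_pos]
      exact (Quotient.sound (hx : R x₀ x)).symm
    · rw [if_neg hx, if_neg]
      intro h2
      exact hx (Quotient.exact h2.symm)
  let r : X → X := fun x => (Quotient.mk R x).out
  have hr : ∀ x, ∃ a b : ℤ, (σ ^ a * τ ^ b) x = r x := by
    intro x
    exact Quotient.exact (Quotient.out_eq (Quotient.mk R x)).symm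
  have h0 : D.mapDomain r = 0 := by
    have h1 : r = Quotient.out ∘ Quotient.mk R := rfl
    rw [h1, Finsupp.mapDomain_comp, key, Finsupp.mapDomain_zero]
  have hD : D = ∑ x ∈ D.support, D x • (single x (1 : ℤ) - single (r x) 1) := by
    have h1 : ∑ x ∈ D.support, D x • (single x (1 : ℤ) - single (r x) 1) =
        D.sum single - D.mapDomain r := by
      rw [Finsupp.mapDomain, Finsupp.sum, Finsupp.sum, ← Finset.sum_sub_distrib]
      refine Finset.sum_congr rfl fun x _ => ?_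
      rw [smul_sub, Finsupp.smul_single, Finsupp.smul_single, smul_eq_mul, mul_one]
    rw [h1, h0, Finsupp.sum_single, sub_zero]
  let O : Set X := {y | ∃ a b : ℤ, (σ ^ a * τ ^ b) y ∈ D.support}
  have hone : ∀ x ∈ D.support, ∃ P ∈ Finsupp.supported ℤ ℤ O, ∃ Q ∈ Finsupp.supported ℤ ℤ O,
      single x (1 : ℤ) - single (r x) 1 = (P - mv σ P) + (Q - mv τ Q) := by
    intro x hx
    obtain ⟨a, b, hab⟩ := hr x
    obtain ⟨Q, hQ, hQ'⟩ := tele τ x b
    obtain ⟨P, hP, hP'⟩ := tele σ ((τ ^ b) x) a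
    refine ⟨P, Finsupp.supported_mono ?_ hP, Q, Finsupp.supported_mono ?_ hQ, ?_⟩
    · rintro y ⟨k, rfl⟩
      refine ⟨-k, -b, ?_⟩
      have : (σ ^ (-k) * τ ^ (-b)) ((σ ^ k) ((τ ^ b) x)) = x := by
        have h1 : (σ ^ k) ((τ ^ b) x) = (σ ^ k * τ ^ b) x := rfl
        rw [h1, hg']; simp
      rw [this]; exact hx
    · rintro y ⟨k, rfl⟩
      refine ⟨0, -k, ?_⟩
      have : (σ ^ (0 : ℤ) * τ ^ (-k)) ((τ ^ k) x) = x := by
        have h1 : (τ ^ k) x = (σ ^ (0 : ℤ) * τ ^ k) x := by simp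
        rw [h1, hg']; simp
      rw [this]; exact hx
    · rw [← hP', ← hQ', ← hab]
      have h1 : (σ ^ a) ((τ ^ b) x) = (σ ^ a * τ ^ b) x := rfl
      rw [h1]; abel
  choose! P hP Q hQ hPQ using hone
  refine ⟨∑ x ∈ D.support, D x • P x, ∑ x ∈ D.support, D x • Q x, ?_, ?_, ?_⟩
  · conv_lhs => rw [hD]
    rw [map_sum, map_sum, ← Finset.sum_sub_distrib, ← Finset.sum_sub_distrib,
      ← Finset.sum_add_distrib]
    refine Finset.sum_congr rfl fun x hx => ?_
    rw [hPQ x hx, map_zsmul, map_zsmul, smul_add, smul_sub, smul_sub]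
  · have h1 : ∑ x ∈ D.support, D x • P x ∈ Finsupp.supported ℤ ℤ O :=
      Submodule.sum_mem _ fun x hx => Submodule.smul_mem _ _ (hP x hx)
    intro x hx
    exact h1 hx
  · have h1 : ∑ x ∈ D.support, D x • Q x ∈ Finsupp.supported ℤ ℤ O :=
      Submodule.sum_mem _ fun x hx => Submodule.smul_mem _ _ (hQ x hx)
    intro x hx
    exact h1 hx

theorem part2 {X : Type} {σ τ : Equiv.Perm X} (hc : Commute σ τ) (D : X →₀ ℤ) (t : X)
    (hfree : ∀ a b : ℤ, (σ ^ a * τ ^ b) t = t → a = 0 ∧ b = 0) :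
    ∃ K : ℕ, ∀ N i j : ℕ, K ≤ i → K ≤ j → i + K < N → j + K < N →
      (∑ a ∈ Finset.range N, ∑ b ∈ Finset.range N, mv (σ ^ a * τ ^ b) D) ((σ ^ i * τ ^ j) t) =
        osum σ τ t D := by
  classical
  have hg' := comm_mul hc
  let e : ℤ × ℤ → X := fun g => (σ ^ g.1 * τ ^ g.2) t
  have he : Function.Injective e := by
    rintro ⟨a, b⟩ ⟨a', b'⟩ h
    have h1 : (σ ^ (a - a') * τ ^ (b - b')) t = t := by
      have h2 : (σ ^ (-a') * τ ^ (-b')) ((σ ^ a * τ ^ b) t) =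
          (σ ^ (-a') * τ ^ (-b')) ((σ ^ a' * τ ^ b') t) := congrArg _ h
      rw [hg', hg'] at h2
      have h3 : -a' + a = a - a' := by ring
      have h4 : -b' + b = b - b' := by ring
      rw [h3, h4] at h2
      rw [h2]; simp
    obtain ⟨h2, h3⟩ := hfree _ _ h1
    ext
    · show a = a'; omega
    · show b = b'; omega
  let d : (ℤ × ℤ) →₀ ℤ := D.comapDomain e he.injOn
  have hd : ∀ g, d g = D (e g) := fun g => rfl
  have hs : ∑ g ∈ d.support, d g = osum σ τ t D := by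
    rw [osum_eq, ← Finset.sum_filter]
    refine Finset.sum_nbij e ?_ he.injOn ?_ (fun g _ => hd g)
    · intro g hg1
      rw [Finset.mem_filter, Finsupp.mem_support_iff]
      refine ⟨?_, g.1, g.2, rfl⟩
      have := Finsupp.mem_support_iff.1 hg1
      rwa [hd] at this
    · intro x hx
      simp only [Finset.coe_filter, Set.mem_ofPred_eq] at hx
      obtain ⟨a, b, h⟩ := hx.2
      refine ⟨(a, b), ?_, h⟩
      rw [Finset.mem_coe, Finsupp.mem_support_iff, hd]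
      show D ((σ ^ a * τ ^ b) t) ≠ 0
      rw [h]
      exact Finsupp.mem_support_iff.1 hx.1
  let K : ℕ := d.support.sup (fun g => max g.1.natAbs g.2.natAbs)
  have hK : ∀ g ∈ d.support, g.1.natAbs ≤ K ∧ g.2.natAbs ≤ K := by
    intro g hg1
    have := Finset.le_sup (f := fun g : ℤ × ℤ => max g.1.natAbs g.2.natAbs) hg1
    exact ⟨(le_max_left _ _).trans this, (le_max_right _ _).trans this⟩
  refine ⟨K, fun N i j hi hj hi' hj' => ?_⟩
  rw [← hs, ← box_sum2 d K N i j hK hi hj hi' hj', Finsupp.finsetSum_apply]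
  refine Finset.sum_congr rfl fun a _ => ?_
  rw [Finsupp.finsetSum_apply]
  refine Finset.sum_congr rfl fun b _ => ?_
  rw [mv_apply, hd]
  congr 1
  show (σ ^ a * τ ^ b)⁻¹ ((σ ^ i * τ ^ j) t) = (σ ^ ((i : ℤ) - a) * τ ^ ((j : ℤ) - b)) t
  rw [Equiv.Perm.inv_eq_iff_eq, ← zpow_natCast σ a, ← zpow_natCast τ b, hg',
    ← zpow_natCast σ i, ← zpow_natCast τ j]
  congr 3 <;> ring

open Classical in
theorem part3a {X : Type} {σ τ : Equiv.Perm X} (hc : Commute σ τ) (D : X →₀ ℤ) (t : X)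
    (ρ : Equiv.Perm X) (u v : ℤ) (hρ : ρ = σ ^ u * τ ^ v) :
    osum σ τ t (mv ρ D) = osum σ τ t D := by
  have hg' := comm_mul hc
  have h : (osum σ τ t).comp (mv ρ) = osum σ τ t := by
    refine Finsupp.addHom_ext (fun x c => ?_)
    rw [AddMonoidHom.comp_apply, mv_single, osum_single, osum_single]
    have hiff : (∃ a b : ℤ, (σ ^ a * τ ^ b) t = ρ x) ↔ (∃ a b : ℤ, (σ ^ a * τ ^ b) t = x) := by
      constructor
      · rintro ⟨a, b, h⟩
        refine ⟨-u + a, -v + b, ?_⟩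
        rw [← hg', h, hρ, hg']
        simp
      · rintro ⟨a, b, h⟩
        refine ⟨u + a, v + b, ?_⟩
        rw [← hg', h, hρ]
    by_cases hx : ∃ a b : ℤ, (σ ^ a * τ ^ b) t = x
    · rw [if_pos hx, if_pos (hiff.mpr hx)]
    · rw [if_neg hx, if_neg (fun h' => hx (hiff.mp h'))]
  exact DFunLike.congr_fun h D

theorem part3b {X : Type} (σ τ : Equiv.Perm X) (D : X →₀ ℤ) (t : X) :
    (osum σ τ t D).natAbs ≤ nf D := by
  classical
  rw [osum_eq]
  unfold nf Finsupp.sum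
  refine (Int.natAbs_sum_le _ _).trans (Finset.sum_le_sum (fun x _ => ?_))
  split_ifs
  · exact le_rfl
  · simp

end ZZSAux

open ZZSAux in
theorem stmt_ZZS : Stmt_ZZS := by
  intro X σ τ hc
  refine ⟨fun D h => part1 hc D h, fun D t h => part2 hc D t h, fun D t => ⟨?_, ?_, ?_⟩⟩
  · exact part3a hc D t σ 1 0 (by simp)
  · exact part3a hc D t τ 0 1 (by simp)
  · exact part3b σ τ D t

end Pool.HE
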