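import Pool.Agent.Work.MP_7084a3_full.InterfaceC
import Pool.Agent.Work.MP_7084a3_h91.B.TRC

set_option autoImplicit false

/-! Block CRY: crystallographic restriction for the affine reflection subgroup of a Euclidean triple. -/

namespace Pool.HE

open Pool.HA

namespace CRYB

/-! ### Arithmetic of the labels -/

theorem key6 {x y z : ℕ} (hx : 2 ≤ x) (hy : 2 ≤ y) (hz : 2 ≤ z)
    (hh : y * z + x * z + x * y = x * y * z) : x ≤ 6 := by
  by_contra hc
  push Not at hc
  rcases Nat.lt_or_ge y 3 with h3 | h3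
  · have : y = 2 := by omega
    subst this
    rcases Nat.lt_or_ge z 3 with h4 | h4
    · have : z = 2 := by omega
      subst this
      omega
    · nlinarith
  · rcases Nat.lt_or_ge z 3 with h4 | h4
    · have : z = 2 := by omega
      subst this
      nlinarith
    · obtain ⟨a, rfl⟩ := Nat.exists_eq_add_of_le h3
      obtain ⟨b, rfl⟩ := Nat.exists_eq_add_of_le h4
      obtain ⟨c, rfl⟩ := Nat.exists_eq_add_of_lt hc
      have e1 := Nat.zero_le (a * b)
      have e2 := Nat.zero_le (a * c)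
      have e3 := Nat.zero_le (b * c)
      have e4 := Nat.zero_le (a * b * c)
      ring_nf at hh e1 e2 e3 e4
      omega

theorem solve {p q r : ℕ} (hp : 2 ≤ p) (hq : 2 ≤ q) (hr : 2 ≤ r)
    (h : (1 : ℚ) / p + 1 / q + 1 / r = 1) :
    (p = 3 ∧ q = 3 ∧ r = 3) ∨ (p = 2 ∧ q = 4 ∧ r = 4) ∨ (p = 4 ∧ q = 2 ∧ r = 4) ∨
    (p = 4 ∧ q = 4 ∧ r = 2) ∨ (p = 2 ∧ q = 3 ∧ r = 6) ∨ (p = 2 ∧ q = 6 ∧ r = 3) ∨
    (p = 3 ∧ q = 2 ∧ r = 6) ∨ (p = 6 ∧ q = 2 ∧ r = 3) ∨ (p = 3 ∧ q = 6 ∧ r = 2) ∨
    (p = 6 ∧ q = 3 ∧ r = 2) := by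
  have hp0 : (0 : ℚ) < p := by exact_mod_cast (by omega : 0 < p)
  have hq0 : (0 : ℚ) < q := by exact_mod_cast (by omega : 0 < q)
  have hr0 : (0 : ℚ) < r := by exact_mod_cast (by omega : 0 < r)
  have h1 : (q : ℚ) * r + p * r + p * q = p * q * r := by
    field_simp at h
    linarith
  have h2 : q * r + p * r + p * q = p * q * r := by exact_mod_cast h1
  have b1 := key6 hp hq hr h2
  have b2 := key6 hq hr hp (by linarith)
  have b3 := key6 hr hp hq (by linarith)
  interval_cases p <;> interval_cases q <;> (try omega)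

/-- `2 cos (π / m) y / x` and `2 cos (π / m) x / y` are integers -/
def Gd (m : ℕ) (x y : ℝ) : Prop :=
  (∃ k : ℤ, 2 * Real.cos (Real.pi / m) * y / x = k) ∧
    (∃ k : ℤ, 2 * Real.cos (Real.pi / m) * x / y = k)

theorem gd_symm {m : ℕ} {x y : ℝ} (h : Gd m x y) : Gd m y x := ⟨h.2, h.1⟩

theorem gd_two (x y : ℝ) : Gd 2 x y := by
  constructor <;> exact ⟨0, by simp⟩

theorem gd_three {x : ℝ} (hx : x ≠ 0) : Gd 3 x x := by
  have h : Real.cos (Real.pi / (3 : ℕ)) = 1 / 2 := by
    rw [Nat.cast_ofNat, Real.cos_pi_div_three]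
  constructor <;> refine ⟨1, ?_⟩ <;> rw [h] <;> field_simp <;> norm_num

theorem gd_four : Gd 4 1 (√2) := by
  have h : Real.cos (Real.pi / (4 : ℕ)) = √2 / 2 := by
    rw [Nat.cast_ofNat, Real.cos_pi_div_four]
  have h2 : √2 * √2 = (2 : ℝ) := Real.mul_self_sqrt (by norm_num)
  have h0 : √2 ≠ (0 : ℝ) := by positivity
  constructor
  · refine ⟨2, ?_⟩
    rw [h]
    push_cast
    linarith
  · refine ⟨1, ?_⟩
    rw [h]
    field_simp
    norm_num

theorem gd_six : Gd 6 1 (√3) := by
  have h : Real.cos (Real.pi / (6 : ℕ)) = √3 / 2 := by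
    rw [Nat.cast_ofNat, Real.cos_pi_div_six]
  have h2 : √3 * √3 = (3 : ℝ) := Real.mul_self_sqrt (by norm_num)
  have h0 : √3 ≠ (0 : ℝ) := by positivity
  constructor
  · refine ⟨3, ?_⟩
    rw [h]
    push_cast
    linarith
  · refine ⟨1, ?_⟩
    rw [h]
    field_simp
    norm_num

/-- scalings for the three labels -/
theorem exists_scal {p q r : ℕ} (hp : 2 ≤ p) (hq : 2 ≤ q) (hr : 2 ≤ r)
    (h : (1 : ℚ) / p + 1 / q + 1 / r = 1) :
    ∃ x y z : ℝ, x ≠ 0 ∧ y ≠ 0 ∧ z ≠ 0 ∧ Gd p x y ∧ Gd q y z ∧ Gd r x z := by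
  have h2 : √2 ≠ (0 : ℝ) := by positivity
  have h3 : √3 ≠ (0 : ℝ) := by positivity
  have h1 : (1 : ℝ) ≠ 0 := one_ne_zero
  rcases solve hp hq hr h with ⟨rfl, rfl, rfl⟩ | ⟨rfl, rfl, rfl⟩ | ⟨rfl, rfl, rfl⟩ | ⟨rfl, rfl, rfl⟩ |
    ⟨rfl, rfl, rfl⟩ | ⟨rfl, rfl, rfl⟩ | ⟨rfl, rfl, rfl⟩ | ⟨rfl, rfl, rfl⟩ | ⟨rfl, rfl, rfl⟩ |
    ⟨rfl, rfl, rfl⟩
  · exact ⟨1, 1, 1, h1, h1, h1, gd_three h1, gd_three h1, gd_three h1⟩
  · exact ⟨1, 1, √2, h1, h1, h2, gd_two _ _, gd_four, gd_four⟩
  · exact ⟨√2, 1, 1, h2, h1, h1, gd_symm gd_four, gd_two _ _, gd_symm gd_four⟩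
  · exact ⟨1, √2, 1, h1, h2, h1, gd_four, gd_symm gd_four, gd_two _ _⟩
  · exact ⟨1, √3, √3, h1, h3, h3, gd_two _ _, gd_three h3, gd_six⟩
  · exact ⟨√3, 1, √3, h3, h1, h3, gd_two _ _, gd_six, gd_three h3⟩
  · exact ⟨1, 1, √3, h1, h1, h3, gd_three h1, gd_two _ _, gd_six⟩
  · exact ⟨1, √3, 1, h1, h3, h1, gd_six, gd_two _ _, gd_three h1⟩
  · exact ⟨1, 1, √3, h1, h1, h3, gd_three h1, gd_six, gd_two _ _⟩
  · exact ⟨1, √3, √3, h1, h3, h3, gd_six, gd_three h3, gd_two _ _⟩

variable {S : Type} [Fintype S] [DecidableEq S]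

/-- the scaling function of a Euclidean triple -/
theorem exists_d (M : CoxeterMatrix S) (hM : ∀ s t, M s t ≠ 0) (E : Finset S) (hE : ETri M E) :
    ∃ d : S → ℝ, (∀ i, d i ≠ 0) ∧ ∀ i ∈ E, ∀ j ∈ E,
      ∃ k : ℤ, 2 * Real.cos (Real.pi / M i j) * d j / d i = k := by
  obtain ⟨hc, hE⟩ := hE
  obtain ⟨a, b, c, hab, hac, hbc, rfl⟩ := Finset.card_eq_three.1 hc
  have two : ∀ {s t : S}, s ≠ t → 2 ≤ M s t := by
    intro s t hst
    have h0 := hM s t
    have h1 := M.off_diagonal s t hst
    omega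
  have hs := hE a (by simp) b (by simp) c (by simp) hab hbc hac
  obtain ⟨x, y, z, hx, hy, hz, h1, h2, h3⟩ := exists_scal (two hab) (two hbc) (two hac) hs
  refine ⟨fun i => if i = a then x else if i = b then y else if i = c then z else 1, ?_, ?_⟩
  · intro i
    dsimp only
    split_ifs
    · exact hx
    · exact hy
    · exact hz
    · exact one_ne_zero
  · have da : (if a = a then x else if a = b then y else if a = c then z else 1) = x := by simp
    have db : (if b = a then x else if b = b then y else if b = c then z else 1) = y := by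
      simp [hab.symm]
    have dc : (if c = a then x else if c = b then y else if c = c then z else 1) = z := by
      simp [hac.symm, hbc.symm]
    have diag : ∀ (i : S) (w : ℝ), w ≠ 0 →
        ∃ k : ℤ, 2 * Real.cos (Real.pi / M i i) * w / w = k := by
      intro i w hw
      refine ⟨-2, ?_⟩
      rw [M.diagonal]
      field_simp
      simp
    intro i hi j hj
    simp only [Finset.mem_insert, Finset.mem_singleton] at hi hj
    dsimp only
    rcases hi with rfl | rfl | rfl <;> rcases hj with rfl | rfl | rfl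
    · rw [da]; exact diag _ _ hx
    · rw [da, db]; exact h1.1
    · rw [da, dc]; exact h3.1
    · rw [da, db, M.symmetric]; exact h1.2
    · rw [db]; exact diag _ _ hy
    · rw [db, dc]; exact h2.1
    · rw [da, dc, M.symmetric]; exact h3.2
    · rw [db, dc, M.symmetric]; exact h2.2
    · rw [dc]; exact diag _ _ hz

/-- the lattice and the fixed coordinates are preserved -/
def PP (d : S → ℝ) (E : Finset S) (T : Module.End ℝ (S → ℝ)) : Prop :=
  (∀ v : S → ℝ, (∀ i ∈ E, ∃ k : ℤ, v i / d i = k) → (∀ i, i ∉ E → v i = 0) →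
    (∀ i ∈ E, ∃ k : ℤ, T v i / d i = k)) ∧ ∀ (v : S → ℝ) (i : S), i ∉ E → T v i = v i

theorem PP_mul {d : S → ℝ} {E : Finset S} {T U : Module.End ℝ (S → ℝ)} (hT : PP d E T)
    (hU : PP d E U) : PP d E (T * U) := by
  constructor
  · intro v h1 h2 i hi
    rw [Module.End.mul_apply]
    refine hT.1 (U v) (hU.1 v h1 h2) ?_ i hi
    intro j hj
    rw [hU.2 v j hj, h2 j hj]
  · intro v i hi
    rw [Module.End.mul_apply, hT.2 _ i hi, hU.2 _ i hi]

theorem PP_one {d : S → ℝ} {E : Finset S} : PP d E (1 : Module.End ℝ (S → ℝ)) :=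
  ⟨fun v h1 _ i hi => h1 i hi, fun _ _ _ => rfl⟩

theorem bf_bs (M : CoxeterMatrix S) (v : S → ℝ) (s : S) :
    bf M v (bs s) = ∑ j, v j * (-Real.cos (Real.pi / M s j)) := by
  unfold bf bs
  refine Finset.sum_congr rfl fun j _ => ?_
  rw [Finset.sum_eq_single s]
  · rw [M.symmetric j s]; simp
  · intro t _ ht
    simp [Pi.single_eq_of_ne ht]
  · intro h; exact absurd (Finset.mem_univ _) h

theorem PP_simple {M : CoxeterMatrix S} {ρ : M.Group →* Module.End ℝ (S → ℝ)} (hρ : IsRep M ρ)
    {d : S → ℝ} (hd0 : ∀ i, d i ≠ 0) {E : Finset S}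
    (hd : ∀ i ∈ E, ∀ j ∈ E, ∃ k : ℤ, 2 * Real.cos (Real.pi / M i j) * d j / d i = k) {s : S}
    (hs : s ∈ E) : PP d E (ρ (M.simple s)) := by
  constructor
  · intro v h1 h2 i hi
    rw [hρ s v]
    by_cases his : i = s
    · subst his
      obtain ⟨a, ha⟩ := h1 i hi
      -- the form is an integer
      have hint : ∃ k : ℤ, 2 * bf M v (bs i) / d i = k := by
        rw [bf_bs]
        have : ∀ j, ∃ k : ℤ, 2 * (v j * (-Real.cos (Real.pi / M i j))) / d i = k := by
          intro j
          by_cases hj : j ∈ E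
          · obtain ⟨k, hk⟩ := h1 j hj
            obtain ⟨l, hl⟩ := hd i hi j hj
            refine ⟨-(k * l), ?_⟩
            push_cast
            rw [← hk, ← hl]
            have := hd0 i
            have := hd0 j
            field_simp
          · refine ⟨0, ?_⟩
            rw [h2 j hj]
            simp
        choose f hf using this
        refine ⟨∑ j, f j, ?_⟩
        push_cast
        rw [Finset.mul_sum, Finset.sum_div]
        exact Finset.sum_congr rfl fun j _ => hf j
      obtain ⟨b, hb⟩ := hint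
      refine ⟨a - b, ?_⟩
      push_cast
      rw [← ha, ← hb]
      simp [bs, sub_div]
    · obtain ⟨a, ha⟩ := h1 i hi
      refine ⟨a, ?_⟩
      rw [← ha]
      simp [bs, Pi.single_eq_of_ne his]
  · intro v i hi
    have his : i ≠ s := by rintro rfl; exact hi hs
    rw [hρ s v]
    simp [bs, Pi.single_eq_of_ne his]

theorem simple_inv (M : CoxeterMatrix S) (s : S) : (M.simple s)⁻¹ = M.simple s := by
  have := M.toCoxeterSystem.inv_simple s
  simpa using this

theorem PP_closure {M : CoxeterMatrix S} {ρ : M.Group →* Module.End ℝ (S → ℝ)} (hρ : IsRep M ρ)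
    {d : S → ℝ} (hd0 : ∀ i, d i ≠ 0) {E : Finset S}
    (hd : ∀ i ∈ E, ∀ j ∈ E, ∃ k : ℤ, 2 * Real.cos (Real.pi / M i j) * d j / d i = k)
    {w : M.Group} (hw : w ∈ Subgroup.closure (M.simple '' (E : Set S))) : PP d E (ρ w) := by
  have h1 : w ∈ Submonoid.closure (M.simple '' (E : Set S)) := by
    have h2 : w ∈ (Subgroup.closure (M.simple '' (E : Set S))).toSubmonoid := hw
    rw [Subgroup.closure_toSubmonoid] at h2
    have h3 : (M.simple '' (E : Set S)) ∪ (M.simple '' (E : Set S))⁻¹ = M.simple '' (E : Set S) := by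
      ext x
      simp only [Set.mem_union, Set.mem_inv, Set.mem_image]
      constructor
      · rintro (h | ⟨s, hs, h⟩)
        · exact h
        · refine ⟨s, hs, ?_⟩
          rw [← simple_inv, h, inv_inv]
      · exact fun h => Or.inl h
    rwa [h3] at h2
  induction h1 using Submonoid.closure_induction with
  | mem x hx =>
    obtain ⟨s, hs, rfl⟩ := hx
    exact PP_simple hρ hd0 hd (by exact_mod_cast hs)
  | one => rw [map_one]; exact PP_one
  | mul x y hx hy h1 h2 =>
    rw [map_mul]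
    have e : ∀ z, z ∈ Submonoid.closure (M.simple '' (E : Set S)) →
        z ∈ Subgroup.closure (M.simple '' (E : Set S)) := by
      intro z hz
      have : Submonoid.closure (M.simple '' (E : Set S)) ≤
          (Subgroup.closure (M.simple '' (E : Set S))).toSubmonoid :=
        Submonoid.closure_le.2 Subgroup.subset_closure
      exact this hz
    exact PP_mul (h1 (e x hx)) (h2 (e y hy))

/-- the trace is an integer -/
theorem trace_int {d : S → ℝ} (hd0 : ∀ i, d i ≠ 0) {E : Finset S} {T : Module.End ℝ (S → ℝ)}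
    (hT : PP d E T) : ∃ k : ℤ, LinearMap.trace ℝ (S → ℝ) T = k := by
  rw [LinearMap.trace_eq_matrix_trace ℝ (Pi.basisFun ℝ S)]
  have h1 : ∀ i, ∃ k : ℤ, LinearMap.toMatrix (Pi.basisFun ℝ S) (Pi.basisFun ℝ S) T i i = k := by
    intro i
    have e : LinearMap.toMatrix (Pi.basisFun ℝ S) (Pi.basisFun ℝ S) T i i =
        T (Pi.single i 1) i := by
      rw [LinearMap.toMatrix_apply]
      simp
    rw [e]
    by_cases hi : i ∈ E
    · have := hT.1 (Pi.single i (d i)) ?_ ?_ i hi
      · obtain ⟨k, hk⟩ := this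
        refine ⟨k, ?_⟩
        rw [← hk]
        have e2 : (Pi.single i (d i) : S → ℝ) = d i • (Pi.single i 1 : S → ℝ) := by
          ext j
          by_cases hj : j = i
          · subst hj; simp
          · simp [Pi.single_eq_of_ne hj]
        rw [e2, map_smul]
        have := hd0 i
        simp only [Pi.smul_apply, smul_eq_mul]
        field_simp
      · intro j hj
        by_cases hji : j = i
        · subst hji
          refine ⟨1, ?_⟩
          have := hd0 j
          simp [this]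
        · exact ⟨0, by simp [Pi.single_eq_of_ne hji]⟩
      · intro j hj
        have hji : j ≠ i := by rintro rfl; exact hj hi
        simp [Pi.single_eq_of_ne hji]
    · refine ⟨1, ?_⟩
      rw [hT.2 _ i hi]
      simp
  choose f hf using h1
  refine ⟨∑ i, f i, ?_⟩
  unfold Matrix.trace
  push_cast
  exact Finset.sum_congr rfl fun i _ => hf i

end CRYB

open CRYB in
theorem stmt_CRY (hB : Stmt_BFI) (hF : Stmt_FAITH) (hI : Stmt_INFO) : Stmt_CRY := by
  intro S _ _ M ρ hM hρ E hE g r₁ r₂ v₁ v₂ h₁ h₂ hg ⟨n, hn, hrn⟩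
  obtain ⟨d, hd0, hd⟩ := exists_d M hM E hE
  obtain ⟨k, hk⟩ := trace_int hd0 (PP_closure hρ hd0 hd hg)
  have htr := TRCB.trace_rr hB M ρ hρ h₁ h₂
  have e₁ := TRCB.bf_self hB M ρ hρ h₁
  have e₂ := TRCB.bf_self hB M ρ hρ h₂
  obtain ⟨hs, hl, _, _, _, hrf⟩ := hB S M ρ hρ
  have f₁ := hrf r₁ v₁ h₁
  have f₂ := hrf r₂ v₂ h₂
  have hconj : LinearMap.trace ℝ (S → ℝ) (ρ (g⁻¹ * (r₁ * r₂) * g)) =
      LinearMap.trace ℝ (S → ℝ) (ρ (r₁ * r₂)) := by
    rw [map_mul, LinearMap.trace_mul_comm, ← map_mul]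
    congr 2
    group
  rw [hconj, htr] at hk
  set b := bf M v₁ v₂ with hb
  -- squares of reflections
  have invol : ∀ (r : M.Group) (v : S → ℝ), IsRf M ρ r v → r * r = 1 := by
    intro r v h
    obtain ⟨w, s, hr, -⟩ := h
    have : M.simple s * M.simple s = 1 := by
      have := M.toCoxeterSystem.simple_mul_simple_self s
      simpa using this
    rw [hr]
    calc w * M.simple s * w⁻¹ * (w * M.simple s * w⁻¹) = w * (M.simple s * M.simple s) * w⁻¹ := by
          group
      _ = 1 := by rw [this]; group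
  have hsame : ρ r₁ = ρ r₂ → (r₁ * r₂) ^ 4 = 1 := by
    intro h
    have h3 : r₁ * r₂⁻¹ = 1 := by
      apply hF S M ρ hM hρ
      rw [map_mul, h, ← map_mul, mul_inv_cancel, map_one]
    have h4 : r₁ = r₂ := mul_inv_eq_one.1 h3
    rw [h4, invol r₂ v₂ h₂, one_pow]
  rcases le_or_gt 1 |b| with hb1 | hb1
  · by_cases hv : v₁ = v₂
    · left
      apply hsame
      apply LinearMap.ext
      intro x
      rw [f₁ x, f₂ x, hv]
    · by_cases hv' : v₁ = -v₂
      · left
        apply hsame
        apply LinearMap.ext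
        intro x
        rw [f₁ x, f₂ x, hv']
        have h5 : bf M x (-v₂) = - bf M x v₂ := by
          rw [hs x (-v₂), TRCB.bf_neg_left M hl, hs v₂ x]
        rw [h5]
        module
      · exact absurd hrn (hI S M ρ hρ r₁ r₂ v₁ v₂ h₁ h₂ hb1 hv hv' n hn)
  · -- the plane
    have hbsq : b ^ 2 < 1 := by
      rw [← sq_abs]
      have := abs_nonneg b
      nlinarith
    have hb4 : ∃ l : ℤ, 4 * b ^ 2 = l := by
      refine ⟨k - (Module.finrank ℝ (S → ℝ) : ℤ) + 4, ?_⟩
      push_cast
      linarith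
    obtain ⟨l, hl4⟩ := hb4
    have hl0 : 0 ≤ l := by
      have : (0 : ℝ) ≤ l := by rw [← hl4]; positivity
      exact_mod_cast this
    have hl3 : l ≤ 3 := by
      have : (l : ℝ) < 4 := by rw [← hl4]; linarith
      have : l < 4 := by exact_mod_cast this
      omega
    have hbf2 : bf M v₂ v₁ = b := by rw [hs v₂ v₁]
    -- T
    set T := ρ (r₁ * r₂) with hT
    have hlin : ∀ (a : ℝ) (x y z : S → ℝ), bf M (x - a • y) z = bf M x z - a * bf M y z := by
      intro a x y z
      have := hl 1 (-a) x y z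
      rw [one_smul, neg_smul, ← sub_eq_add_neg] at this
      rw [this]; ring
    have hTx : ∀ x, T x = x - (2 * bf M x v₂) • v₂ - (2 * bf M x v₁ - 4 * bf M x v₂ * b) • v₁ := by
      intro x
      rw [hT, map_mul, Module.End.mul_apply, f₂ x, f₁, hlin, hbf2]
      module
    have hT1 : T v₁ = (4 * b ^ 2 - 1) • v₁ - (2 * b) • v₂ := by
      rw [hTx v₁, e₁, ← hb]
      module
    have hT2 : T v₂ = (2 * b) • v₁ - v₂ := by
      rw [hTx v₂, e₂, hbf2]
      module
    -- relation
    have hrel : ∀ v : S → ℝ, (v = v₁ ∨ v = v₂) → T (T v) = (4 * b ^ 2 - 2) • T v - v := by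
      rintro v (rfl | rfl)
      · rw [hT1, map_sub, map_smul, map_smul, hT1, hT2]
        module
      · rw [hT2, map_sub, map_smul, hT1, hT2]
        module
    have hR : (T * T - (4 * b ^ 2 - 2) • T + 1) * (T - 1) = 0 := by
      apply LinearMap.ext
      intro x
      rw [Module.End.mul_apply]
      have h5 : (T - 1) x = (-(2 * bf M x v₂)) • v₂ + (-(2 * bf M x v₁ - 4 * bf M x v₂ * b)) • v₁ := by
        rw [LinearMap.sub_apply, Module.End.one_apply, hTx x]
        module
      have h6 : ∀ v : S → ℝ, (v = v₁ ∨ v = v₂) →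
          (T * T - (4 * b ^ 2 - 2) • T + 1 : Module.End ℝ (S → ℝ)) v = 0 := by
        intro v hv
        rw [LinearMap.add_apply, LinearMap.sub_apply, Module.End.mul_apply, LinearMap.smul_apply,
          Module.End.one_apply, hrel v hv]
        module
      rw [h5, map_add, map_smul, map_smul, h6 v₂ (Or.inr rfl), h6 v₁ (Or.inl rfl)]
      simp
    have fin : ∀ m : ℕ, T ^ m = 1 → (r₁ * r₂) ^ m = 1 := by
      intro m h
      apply hF S M ρ hM hρ
      rw [map_pow]
      exact h
    have hl' : l = 0 ∨ l = 1 ∨ l = 2 ∨ l = 3 := by omega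
    rcases hl' with rfl | rfl | rfl | rfl
    · -- b = 0
      left
      have hb0 : b = 0 := by
        have : b ^ 2 = 0 := by push_cast at hl4; linarith
        exact pow_eq_zero_iff (two_ne_zero) |>.1 this
      apply fin
      have h7 : T * T = 1 := by
        apply LinearMap.ext
        intro x
        have hT1' : T v₁ = -v₁ := by rw [hT1, hb0]; module
        have hT2' : T v₂ = -v₂ := by rw [hT2, hb0]; module
        rw [Module.End.mul_apply, hTx x, map_sub, map_sub, map_smul, map_smul, hT1', hT2', hTx x,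
          Module.End.one_apply]
        module
      rw [pow_succ, pow_succ, pow_two, h7, one_mul, h7]
    · right
      apply fin
      have h8 : (4 * b ^ 2 - 2 : ℝ) = -1 := by rw [hl4]; norm_num
      rw [h8] at hR
      have h9 : T ^ 6 - 1 = (T ^ 3 + 1) * ((T * T - (-1 : ℝ) • T + 1) * (T - 1)) := by
        have h10 : (Polynomial.X ^ 6 - 1 : Polynomial ℝ) = (Polynomial.X ^ 3 + 1) *
            ((Polynomial.X * Polynomial.X + Polynomial.X + 1) * (Polynomial.X - 1)) := by ring
        have h11 := congrArg (Polynomial.aeval T) h10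
        have h12 : T * T - (-1 : ℝ) • T + 1 = T * T + T + 1 := by
          apply LinearMap.ext
          intro x
          simp only [LinearMap.add_apply, LinearMap.sub_apply, LinearMap.smul_apply]
          module
        rw [h12]
        simpa using h11
      rw [hR, mul_zero] at h9
      exact sub_eq_zero.1 h9
    · left
      apply fin
      have h8 : (4 * b ^ 2 - 2 : ℝ) = 0 := by rw [hl4]; norm_num
      rw [h8] at hR
      have h9 : T ^ 4 - 1 = (T + 1) * ((T * T - (0 : ℝ) • T + 1) * (T - 1)) := by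
        have h10 : (Polynomial.X ^ 4 - 1 : Polynomial ℝ) = (Polynomial.X + 1) *
            ((Polynomial.X * Polynomial.X + 1) * (Polynomial.X - 1)) := by ring
        have h11 := congrArg (Polynomial.aeval T) h10
        simp only [zero_smul, sub_zero]
        simpa using h11
      rw [hR, mul_zero] at h9
      exact sub_eq_zero.1 h9
    · right
      apply fin
      have h8 : (4 * b ^ 2 - 2 : ℝ) = 1 := by rw [hl4]; norm_num
      rw [h8] at hR
      have h9 : T ^ 6 - 1 = (T + 1) * (T * T + T + 1) * ((T * T - (1 : ℝ) • T + 1) * (T - 1)) := by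
        have h10 : (Polynomial.X ^ 6 - 1 : Polynomial ℝ) =
            (Polynomial.X + 1) * (Polynomial.X * Polynomial.X + Polynomial.X + 1) *
            ((Polynomial.X * Polynomial.X - Polynomial.X + 1) * (Polynomial.X - 1)) := by ring
        have h11 := congrArg (Polynomial.aeval T) h10
        simp only [one_smul]
        simpa using h11
      rw [hR, mul_zero] at h9
      exact sub_eq_zero.1 h9

end Pool.HE
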