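import Pool.Agent.Work.MP_7084a3_full.InterfaceH

set_option autoImplicit false

/-! # F8 (helper48): two reflections with two common fixed vertices are equal -/

namespace Pool.HE

open Pool.HA

/-- a walk in a fixed set can be made reduced -/
theorem f8_red {G S : Type} [Group G] {g : S → G} (r : G) :
    ∀ (n : ℕ) (l : List (Vtx g)) (v w : Vtx g), l.length ≤ n → Wk l v w → Fx r l →
      ∃ l', Wk l' v w ∧ Fx r l' ∧ Red l' := by
  intro n
  induction n with
  | zero =>
    intro l v w hl hw _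
    have : l = [] := List.length_eq_zero_iff.mp (by omega)
    subst this
    simp [Wk] at hw
  | succ n ih =>
    intro l v w hl hw hf
    by_cases hr : Red l
    · exact ⟨l, hw, hf, hr⟩
    · unfold Red at hr
      push Not at hr
      obtain ⟨x, a, b, c, y, h1, h2⟩ := hr
      subst h2
      subst h1
      refine ih (x ++ a :: y) v w ?_ ?_ ?_
      · simp only [List.length_append, List.length_cons] at hl ⊢
        omega
      · obtain ⟨h3, h4, h5⟩ := hw
        refine ⟨?_, ?_, ?_⟩
        · cases x <;> simpa using h3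
        · cases y with
          | nil => simpa using h4
          | cons z y => simpa using h4
        · rw [List.isChain_append] at h5 ⊢
          obtain ⟨h6, h7, h8⟩ := h5
          refine ⟨h6, ?_, ?_⟩
          · rw [List.isChain_cons_cons, List.isChain_cons_cons] at h7
            exact h7.2.2
          · intro p hp q hq
            exact h8 p hp q (by simpa using hq)
      · intro u hu
        apply hf u
        simp only [List.mem_append, List.mem_cons] at hu ⊢
        tauto

/-- the first edge of a walk between different vertices -/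
theorem f8_edge {G S : Type} [Group G] {g : S → G} {l : List (Vtx g)} {v w : Vtx g} {r : G}
    (h : Wk l v w) (hne : v ≠ w) (hf : Fx r l) :
    ∃ p, v.ad p ∧ r • v = v ∧ r • p = p ∧ ∃ q, l = v :: p :: q := by
  obtain ⟨h1, h2, h3⟩ := h
  rcases l with _ | ⟨a, _ | ⟨b, l⟩⟩
  · simp at h1
  · simp only [List.head?_cons, Option.some.injEq, List.getLast?_singleton] at h1 h2
    exact absurd (h1.symm.trans h2) hne
  · simp only [List.head?_cons, Option.some.injEq] at h1
    subst h1
    rw [List.isChain_cons_cons] at h3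
    exact ⟨b, h3.1, hf _ (by simp), hf _ (by simp), l, rfl⟩

theorem stmt_F8 (h1 : Stmt_F3) (h2 : Stmt_BIG) : Stmt_F8 := by
  intro S _ M hM r₁ r₂ v w hr₁ hr₂ hne a1 a2 b1 b2
  obtain ⟨l₁, hw₁, hf₁⟩ := (h1 S M hM r₁ hr₁).2 v w a1 a2
  obtain ⟨l₂, hw₂, hf₂⟩ := (h1 S M hM r₂ hr₂).2 v w b1 b2
  obtain ⟨P, hP, hfP, hRP⟩ := f8_red r₁ _ l₁ v w le_rfl hw₁ hf₁
  obtain ⟨Q, hQ, hfQ, hRQ⟩ := f8_red r₂ _ l₂ v w le_rfl hw₂ hf₂
  have he := h2 S M hM r₁ r₂ v w P Q hr₁ hr₂ hP hQ hfP hfQ hRP hRQ
  subst he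
  obtain ⟨p, hp, c1, c2, q, hq⟩ := f8_edge hP hne hfP
  have d2 : r₂ • p = p := hfQ p (by rw [hq]; simp)
  have e0 := ty_ne_zero_of_fix hr₁.ne_one c1
  have e1 := ty_ne_zero_of_fix hr₁.ne_one c2
  rcases ad_12 hp e0 e1 with e | e
  · exact hr₁.eq_of_fix1 hr₂ e.1 c1 b1
  · exact hr₁.eq_of_fix1 hr₂ e.2 c2 d2

end Pool.HE
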