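import Pool.Agent.Work.MP_7084a3_full.InterfaceG
import Pool.Agent.Work.MP_7084a3_h91.B.GB

set_option autoImplicit false

/-! # The strengthened Gauss–Bonnet theorem (helper60) -/

namespace Pool.HE

open Pool.HA

section defs
variable {V A : Type} [AddCommGroup A]

/-- a sector: nonempty reduced chain of steps -/
def SecY (adj : V → V → Prop) (la lb : ℕ → ℕ) (Y : ℕ → Set V) (P : V → Stp V → Prop) (v : V)
    (ω : List (Stp V)) : Prop :=
  ω ≠ [] ∧ ω.IsChain (CmpY la lb Y) ∧ ∀ s ∈ ω, TStp adj v s ∨ (s.k ≠ 0 ∧ P v s)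

/-- compatibility of consecutive entries -/
def NxtY (adj : V → V → Prop) (la lb : ℕ → ℕ) (E E' : V × List (Stp V)) : Prop :=
  adj E.1 E'.1 ∧ ∀ s ∈ E.2.head?, ∀ t ∈ E'.2.getLast?, s.a = E'.1 ∧ t.b = E.1 ∧
    lsd la s = rsd lb t

/-- a state -/
def StY (adj : V → V → Prop) (la lb : ℕ → ℕ) (Y : ℕ → Set V) (P : V → Stp V → Prop)
    (Q : List (V × List (Stp V))) : Prop :=
  (∀ E ∈ Q, SecY adj la lb Y P E.1 E.2) ∧
    ∀ x E y, Q = x ++ E :: y → ∃ E' ∈ (y ++ x).head?, NxtY adj la lb E E'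

/-- `c` can be glued at the side of the step `s`, with defect `δ` -/
def adm (la : ℕ → ℕ) (Y : ℕ → Set V) (s : Stp V) (c : V) (δ : ℕ) : Prop :=
  (s.k = 0 ∧ c = s.b ∧ δ = 1) ∨ (s.k ≠ 0 ∧ c ∈ Y (la s.k) ∧ δ = 0)

def Inv1 (adj : V → V → Prop) (T : V → V → V → A) (la : ℕ → ℕ) (Y : ℕ → Set V)
    (Q : List (V × List (Stp V))) (D : A) (n : ℕ) : Prop :=
  ∀ x E y, Q = x ++ E :: y → ∀ s ∈ E.2.head?, ∀ c δ, adm la Y s c δ → adj E.1 c → adj c s.a →
    ∀ n', Fill adj T (x.map Prod.fst ++ E.1 :: c :: y.map Prod.fst) (D - T E.1 s.a c) n' →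
      n + δ ≤ n'

def Inv2 (adj : V → V → Prop) (T : V → V → V → A) (la : ℕ → ℕ) (Y : ℕ → Set V)
    (Q : List (V × List (Stp V))) (D : A) (n : ℕ) : Prop :=
  ∀ x E y E' z, Q = x ++ E :: (y ++ E' :: z) → ∀ s ∈ E.2.head?, ∀ s' ∈ E'.2.head?,
    s.a = E'.1 → s'.a = E.1 → ∀ c δ δ', adm la Y s c δ → adm la Y s' c δ' → 1 ≤ δ + δ' →
    adj E.1 c → adj c E'.1 →
    ∀ n', Fill adj T (x.map Prod.fst ++ E.1 :: c :: (y.map Prod.fst ++
      E'.1 :: c :: z.map Prod.fst)) D n' → n + δ + δ' ≤ n'

end defs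

section acc
variable {V A B : Type} [AddCommGroup A] [AddCommGroup B] {adj : V → V → Prop}
  {T : V → V → V → A}

/-- value of an open chain of steps -/
def Acc.sec (F : Acc adj T B) (la lb : ℕ → ℕ) (v : V) : List (Stp V) → B
  | [] => 0
  | [s] => F.val v s
  | s :: t :: l => F.val v s + F.jn la lb v s t + Acc.sec F la lb v (t :: l)

/-- value of a junction between optional steps -/
def Acc.jo (F : Acc adj T B) (la lb : ℕ → ℕ) (v : V) : Option (Stp V) → Option (Stp V) → B
  | some s, some t => F.jn la lb v s t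
  | _, _ => 0

/-- value of a closed chain of steps -/
def Acc.csec (F : Acc adj T B) (la lb : ℕ → ℕ) (v : V) (ω : List (Stp V)) : B :=
  F.sec la lb v ω + F.jo la lb v ω.getLast? ω.head?

theorem Acc.sec_append (F : Acc adj T B) (la lb : ℕ → ℕ) (v : V) (ω ω' : List (Stp V))
    (h : ω ≠ []) (h' : ω' ≠ []) :
    F.sec la lb v (ω ++ ω') =
      F.sec la lb v ω + F.jo la lb v ω.getLast? ω'.head? + F.sec la lb v ω' := by
  induction ω with
  | nil => exact absurd rfl h
  | cons s ω ih =>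
    rcases ω with _ | ⟨t, ω⟩
    · obtain ⟨t, l, rfl⟩ := List.exists_cons_of_ne_nil h'
      simp [Acc.sec, Acc.jo]
    · have := ih (by simp)
      simp only [List.cons_append, Acc.sec] at this ⊢
      rw [this]
      simp only [List.getLast?_cons_cons]
      abel

theorem Acc.sec_single (F : Acc adj T B) (la lb : ℕ → ℕ) (v : V) (s : Stp V) :
    F.sec la lb v [s] = F.val v s := rfl

theorem Acc.val_tri (F : Acc adj T B) (v a b : V) : F.val v ⟨a, b, 0⟩ = F.f v a b := by
  simp [Acc.val]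

/-- the two junctions over an edge passed in both directions cancel -/
theorem Acc.jo_swap (F : Acc adj T B) (la lb : ℕ → ℕ) {u v : V} {s t s' t' : Stp V}
    (h1 : s.a = v) (h2 : lsd la s = rsd lb t) (h3 : s'.a = u) (h4 : lsd la s' = rsd lb t') :
    F.jn la lb v t s' + F.jn la lb u t' s = 0 := by
  unfold Acc.jn
  rw [h1, h3, h2, h4]
  exact F.swap _ _ _ _

end acc

section main
variable {V A : Type} [AddCommGroup A] {adj : V → V → Prop} {T : V → V → V → A}
  {la lb : ℕ → ℕ} {Y : ℕ → Set V} {P : V → Stp V → Prop}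

theorem nxtY_head {E E' : V × List (Stp V)} (h1 : E'.1 = E.1) (h2 : E'.2.head? = E.2.head?)
    (F : V × List (Stp V)) (h : NxtY adj la lb E F) : NxtY adj la lb E' F := by
  unfold NxtY at h ⊢
  rw [h1, h2]; exact h

theorem nxtY_last {E E' : V × List (Stp V)} (h1 : E'.1 = E.1)
    (h2 : E'.2.getLast? = E.2.getLast?)
    (F : V × List (Stp V)) (h : NxtY adj la lb F E) : NxtY adj la lb F E' := by
  unfold NxtY at h ⊢
  rw [h1, h2]; exact h

/-- composability of `t` (whose right side is the left side of `s`) with `s'` -/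
theorem cmp_of {s t s' : Stp V} {u : V} (htb : t.b = u) (hs' : s'.a = u)
    (hls : lsd la s = rsd lb t)
    (hno : ∀ c δ δ', adm la Y s c δ → adm la Y s' c δ' → 1 ≤ δ + δ' →
      (s.k = 0 → c = s.b) → (s'.k = 0 → c = s'.b) → False) : CmpY la lb Y t s' := by
  unfold lsd rsd at hls
  refine ⟨by rw [htb, hs'], ?_, ?_, ?_⟩
  · intro hk hk' he
    have hs0 : s.k = 0 := by
      by_contra h
      rw [if_neg h, if_pos hk] at hls
      cases hls
    rw [if_pos hs0, if_pos hk] at hls
    have e1 : s.b = t.a := Sum.inl.inj hls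
    exact hno s.b 1 1 (Or.inl ⟨hs0, rfl, rfl⟩) (Or.inl ⟨hk', by rw [e1, he], rfl⟩) (by omega)
      (fun _ => rfl) (fun _ => by rw [e1, he])
  · intro hk hk' hY
    have hs0 : s.k ≠ 0 := by
      intro h
      rw [if_pos h, if_neg hk] at hls
      cases hls
    rw [if_neg hs0, if_neg hk] at hls
    have e1 : la s.k = lb t.k := Sum.inr.inj hls
    exact hno s'.b 0 1 (Or.inr ⟨hs0, by rw [e1]; exact hY, rfl⟩) (Or.inl ⟨hk', rfl, rfl⟩)
      (by omega) (fun h => absurd h hs0) (fun _ => rfl)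
  · intro hk hk' hY
    have hs0 : s.k = 0 := by
      by_contra h
      rw [if_neg h, if_pos hk] at hls
      cases hls
    rw [if_pos hs0, if_pos hk] at hls
    have e1 : s.b = t.a := Sum.inl.inj hls
    exact hno s.b 1 0 (Or.inl ⟨hs0, rfl, rfl⟩) (Or.inr ⟨hk', by rw [e1]; exact hY, rfl⟩)
      (by omega) (fun _ => rfl) (fun h => absurd h hk')

/-- the `tri` step: the new state is fine -/
theorem triY (hT : TriOK adj T)
    (hTRI : Stmt_FTRI) (hBR : Stmt_FBR) {u v c : V} (huv : adj u v)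
    (huc : adj u c) (hcv : adj c v) {ω₀ ω₁ : List (Stp V)} {Q' : List (V × List (Stp V))}
    {D₀ : A} {n₀ : ℕ} (hF : Fill adj T (u :: c :: v :: Q'.map Prod.fst) D₀ n₀)
    (hS : StY adj la lb Y P ((u, ω₀) :: (v, ω₁) :: Q'))
    (hM : ∀ n', Fill adj T (u :: v :: Q'.map Prod.fst) (D₀ + T u v c) n' → n₀ + 1 ≤ n')
    (hB : Inv1 adj T la Y ((u, ω₀) :: (v, ω₁) :: Q') (D₀ + T u v c) (n₀ + 1))
    (hC : Inv2 adj T la Y ((u, ω₀) :: (v, ω₁) :: Q') (D₀ + T u v c) (n₀ + 1)) :
    StY adj la lb Y P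
      ((u, ⟨c, v, 0⟩ :: ω₀) :: (c, [⟨v, u, 0⟩]) :: (v, ω₁ ++ [⟨u, c, 0⟩]) :: Q') ∧
    (∀ n', Fill adj T (u :: c :: v :: Q'.map Prod.fst) D₀ n' → n₀ ≤ n') ∧
    Inv1 adj T la Y
      ((u, ⟨c, v, 0⟩ :: ω₀) :: (c, [⟨v, u, 0⟩]) :: (v, ω₁ ++ [⟨u, c, 0⟩]) :: Q') D₀ n₀ ∧
    Inv2 adj T la Y
      ((u, ⟨c, v, 0⟩ :: ω₀) :: (c, [⟨v, u, 0⟩]) :: (v, ω₁ ++ [⟨u, c, 0⟩]) :: Q') D₀ n₀ := by
  have hvc := hT.symm _ _ hcv
  have hcu := hT.symm _ _ huc
  have hvu := hT.symm _ _ huv
  have hS0 := hS.1 (u, ω₀) (by simp)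
  have hS1 := hS.1 (v, ω₁) (by simp)
  have hne0 : ω₀ ≠ [] := hS0.1
  have hne1 : ω₁ ≠ [] := hS1.1
  obtain ⟨s0, w0, rfl⟩ := List.exists_cons_of_ne_nil hne0
  have hN01 : NxtY adj la lb (u, s0 :: w0) (v, ω₁) := by
    obtain ⟨E', h1, h2⟩ := hS.2 [] _ _ rfl
    simp at h1
    rw [← h1] at h2; exact h2
  have hchain := cyc_mp _ _ hS.2
  obtain ⟨t0, ht0⟩ := getLast?_some hne1
  have ha : s0.a = v := (hN01.2 s0 (by simp) t0 ht0).1
  -- `c` cannot be glued at the first edge
  have hlab : ∀ δ, ¬ adm la Y s0 c δ := by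
    intro δ hδ
    have := hB [] (u, s0 :: w0) ((v, ω₁) :: Q') rfl s0 (by simp) c δ hδ huc
      (by rw [ha]; exact hcv) n₀ (by simpa [ha] using hF)
    omega
  refine ⟨⟨?_, ?_⟩, ?_, ?_, ?_⟩
  · -- sectors
    intro E hE
    simp only [List.mem_cons] at hE
    rcases hE with rfl | rfl | rfl | hE
    · refine ⟨by simp, ?_, ?_⟩
      · rw [List.isChain_cons_cons]
        refine ⟨⟨ha.symm, ?_, ?_, ?_⟩, hS0.2.1⟩
        · intro _ hk he
          exact hlab 1 (Or.inl ⟨hk, he, rfl⟩)
        · intro h; exact absurd rfl h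
        · intro _ hk hY
          exact hlab 0 (Or.inr ⟨hk, hY, rfl⟩)
      · intro s hs
        rcases List.mem_cons.1 hs with rfl | hs
        · exact Or.inl ⟨rfl, huc, huv, hcv⟩
        · exact hS0.2.2 s hs
    · refine ⟨by simp, by simp, ?_⟩
      intro s hs
      simp only [List.mem_singleton] at hs
      subst hs
      exact Or.inl ⟨rfl, hcv, hcu, hvu⟩
    · refine ⟨by simp, ?_, ?_⟩
      · rw [List.isChain_append]
        refine ⟨hS1.2.1, by simp, ?_⟩
        intro t ht y hy
        simp only [List.head?_cons, Option.mem_def, Option.some.injEq] at hy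
        subst hy
        have h1 := hN01.2 s0 (by simp) t ht
        refine cmp_of (s := s0) h1.2.1 rfl h1.2.2 ?_
        intro e δ δ' h2 _ _ _ h5
        have he : e = c := h5 rfl
        subst he
        exact hlab δ h2
      · intro s hs
        rcases List.mem_append.1 hs with hs | hs
        · exact hS1.2.2 s hs
        · simp only [List.mem_singleton] at hs
          subst hs
          exact Or.inl ⟨rfl, hvu, hvc, huc⟩
    · exact hS.1 E (by simp [hE])
  · -- cyclic chain
    apply cyc_mpr _ _ (by simp)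
    rw [List.cons_append, List.cons_append, List.isChain_cons_cons, List.isChain_cons_cons]
    refine ⟨?_, ?_, ?_⟩
    · refine ⟨huc, ?_⟩
      simp [lsd, rsd]
    · refine ⟨hcv, ?_⟩
      simp [lsd, rsd]
    · rw [List.cons_append, List.isChain_cons_cons] at hchain
      have h2 := chain_head (R := NxtY adj la lb) (a := (v, ω₁)) (a' := (v, ω₁ ++ [⟨u, c, 0⟩]))
        (fun b => nxtY_head (E := (v, ω₁)) (E' := (v, ω₁ ++ [⟨u, c, 0⟩])) rfl
          (head?_append_ne _ hne1) b) hchain.2
      rw [← List.cons_append] at h2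
      have h3 := chain_last (R := NxtY adj la lb) (l := (v, ω₁ ++ [⟨u, c, 0⟩]) :: Q')
        (a := (u, s0 :: w0)) (a' := (u, ⟨c, v, 0⟩ :: s0 :: w0))
        (fun b => nxtY_last (E := (u, s0 :: w0)) (E' := (u, ⟨c, v, 0⟩ :: s0 :: w0)) rfl
          (getLast?_cons_ne _ (by simp)) b) h2
      exact h3
  · intro n' h
    have := hM (n' + 1) (Fill.tri huv huc hcv h)
    omega
  · -- Inv1
    intro x E y hxy s hs d δ hd had hda n' hn'
    rcases x with _ | ⟨e0, _ | ⟨e1, _ | ⟨e2, x⟩⟩⟩
    · simp only [List.nil_append, List.cons.injEq] at hxy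
      obtain ⟨rfl, rfl⟩ := hxy
      simp only [List.head?_cons, Option.mem_def, Option.some.injEq] at hs
      subst hs
      rcases hd with ⟨-, h9, rfl⟩ | ⟨h0, -⟩
      · have h9 : v = d := h9.symm
        subst h9
        simp only [List.map_nil, List.nil_append, List.map_cons] at hn'
        rw [T_ucv hT u v c, sub_neg_eq_add] at hn'
        exact hM n' (hBR V A adj T hT [u] (Q'.map Prod.fst) v c _ _ hvc hn')
      · exact absurd rfl h0
    · simp only [List.cons_append, List.nil_append, List.cons.injEq] at hxy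
      obtain ⟨rfl, rfl, rfl⟩ := hxy
      simp only [List.head?_cons, Option.mem_def, Option.some.injEq] at hs
      subst hs
      rcases hd with ⟨-, h9, rfl⟩ | ⟨h0, -⟩
      · have h9 : u = d := h9.symm
        subst h9
        simp only [List.map_nil, List.nil_append, List.map_cons, List.cons_append] at hn'
        rw [T_cvu hT u v c, sub_neg_eq_add] at hn'
        exact hM n' (hBR V A adj T hT [] (v :: Q'.map Prod.fst) u c _ _ huc hn')
      · exact absurd rfl h0
    · simp only [List.cons_append, List.nil_append, List.cons.injEq] at hxy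
      obtain ⟨rfl, rfl, rfl, rfl⟩ := hxy
      rw [head?_append_ne _ hne1] at hs
      simp only [List.map_nil, List.nil_append, List.map_cons, List.cons_append] at hn'
      have h1 := hTRI V A adj T hT [] _ u v c _ _ huv huc hcv hn'
      have h2 := hB [(u, s0 :: w0)] (v, ω₁) Q' rfl s hs d δ hd had hda (n' + 1) (by
        have e : D₀ + T u v c - T v s.a d = D₀ - T v s.a d + T u v c := by abel
        simpa [e] using h1)
      omega
    · simp only [List.cons_append, List.cons.injEq] at hxy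
      obtain ⟨rfl, rfl, rfl, rfl⟩ := hxy
      simp only [List.map_cons, List.cons_append] at hn'
      have h1 := hTRI V A adj T hT [] _ u v c _ _ huv huc hcv hn'
      have h2 := hB ((u, s0 :: w0) :: (v, ω₁) :: x) E y rfl s hs d δ hd had hda (n' + 1) (by
        have e : D₀ + T u v c - T E.1 s.a d = D₀ - T E.1 s.a d + T u v c := by abel
        simpa [e] using h1)
      omega
  · -- Inv2
    intro x E y E' z hxy s hs s' hs' ha1 ha' d δ δ' hd hd' hpos hEd hdE n' hn'
    rcases x with _ | ⟨e0, _ | ⟨e1, _ | ⟨e2, x⟩⟩⟩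
    · simp only [List.nil_append, List.cons.injEq] at hxy
      obtain ⟨rfl, hxy⟩ := hxy
      simp only [List.head?_cons, Option.mem_def, Option.some.injEq] at hs
      subst hs
      simp only at ha1 ha'
      rcases hd with ⟨-, h9, rfl⟩ | ⟨h0, -⟩
      · have h9 : v = d := h9.symm
        subst h9
        simp only at *
        rcases y with _ | ⟨f0, _ | ⟨f1, y⟩⟩
        · simp only [List.nil_append, List.cons.injEq] at hxy
          obtain ⟨rfl, rfl⟩ := hxy
          simp only [List.head?_cons, Option.mem_def, Option.some.injEq] at hs'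
          subst hs'
          simp only at ha'
          subst ha'
          exact absurd huv (hT.irr _)
        · simp only [List.cons_append, List.nil_append, List.cons.injEq] at hxy
          obtain ⟨rfl, rfl, rfl⟩ := hxy
          simp only at ha1
          subst ha1
          exact absurd hcv (hT.irr _)
        · simp only [List.cons_append, List.cons.injEq] at hxy
          obtain ⟨rfl, rfl, rfl⟩ := hxy
          simp only [List.map_nil, List.nil_append, List.map_cons, List.cons_append] at hn'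
          have h1 := hBR V A adj T hT [u] _ v c _ _ hvc hn'
          have h2 := hB ((u, s0 :: w0) :: (v, ω₁) :: y) E' z rfl s' hs' v δ' hd'
            (by rw [← ha1]; exact hcv) (by rw [ha']; exact hvu) n' (by
            have e : D₀ + T u v c - T E'.1 s'.a v = D₀ := by
              rw [← ha1, ha', T_cuv hT u v c]; abel
            simpa [e] using h1)
          omega
      · exact absurd rfl h0
    · simp only [List.cons_append, List.nil_append, List.cons.injEq] at hxy
      obtain ⟨rfl, rfl, hxy⟩ := hxy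
      simp only [List.head?_cons, Option.mem_def, Option.some.injEq] at hs
      subst hs
      simp only at ha1 ha'
      rcases hd with ⟨-, h9, rfl⟩ | ⟨h0, -⟩
      · have h9 : u = d := h9.symm
        subst h9
        simp only at *
        rcases y with _ | ⟨f0, y⟩
        · simp only [List.nil_append, List.cons.injEq] at hxy
          obtain ⟨rfl, rfl⟩ := hxy
          rw [head?_append_ne _ hne1] at hs'
          simp only [List.map_nil, List.nil_append, List.map_cons, List.cons_append] at hn'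
          have h1 := hBR V A adj T hT [] _ u c _ _ huc hn'
          have h2 := hB [(u, s0 :: w0)] (v, ω₁) Q' rfl s' hs' u δ' hd' hvu
            (by rw [ha']; exact huc) n' (by
            have e : D₀ + T u v c - T v s'.a u = D₀ := by
              rw [ha', T_vcu hT u v c]; abel
            simpa [e] using h1)
          omega
        · simp only [List.cons_append, List.cons.injEq] at hxy
          obtain ⟨rfl, rfl⟩ := hxy
          simp only [List.map_nil, List.nil_append, List.map_cons, List.cons_append] at hn'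
          have h1 := hBR V A adj T hT [] _ u c _ _ huc hn'
          have h2 := hB ((u, s0 :: w0) :: (v, ω₁) :: y) E' z rfl s' hs' u δ' hd'
            (by rw [← ha1]; exact hvu) (by rw [ha']; exact huc) n' (by
            have e : D₀ + T u v c - T E'.1 s'.a u = D₀ := by
              rw [← ha1, ha', T_vcu hT u v c]; abel
            simpa [e] using h1)
          omega
      · exact absurd rfl h0
    · simp only [List.cons_append, List.nil_append, List.cons.injEq] at hxy
      obtain ⟨rfl, rfl, rfl, rfl⟩ := hxy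
      rw [head?_append_ne _ hne1] at hs
      simp only [List.map_nil, List.nil_append, List.map_cons, List.cons_append] at hn'
      have h1 := hTRI V A adj T hT [] _ u v c _ _ huv huc hcv hn'
      have h2 := hC [(u, s0 :: w0)] (v, ω₁) y E' z rfl s hs s' hs' ha1 ha' d δ δ' hd hd' hpos
        hEd hdE (n' + 1) (by simpa using h1)
      omega
    · simp only [List.cons_append, List.cons.injEq] at hxy
      obtain ⟨rfl, rfl, rfl, rfl⟩ := hxy
      simp only [List.map_cons, List.cons_append] at hn'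
      have h1 := hTRI V A adj T hT [] _ u v c _ _ huv huc hcv hn'
      have h2 := hC ((u, s0 :: w0) :: (v, ω₁) :: x) E y E' z rfl s hs s' hs' ha1 ha' d δ δ'
        hd hd' hpos hEd hdE (n' + 1) (by simpa using h1)
      omega

/-- nothing can be glued at both sides of an edge passed in both directions -/
theorem pairY_lab (hT : TriOK adj T) {u v : V} {ωa ωb : List (Stp V)}
    {Q₁ Q₂ : List (V × List (Stp V))} {D₁ D₂ : A} {n₁ n₂ : ℕ}
    (hh1 : ∀ x ∈ (Q₁.map Prod.fst).head?, x = v)
    (hh2 : ∀ x ∈ (Q₂.map Prod.fst).head?, x = u) (hF1 : Fill adj T (Q₁.map Prod.fst) D₁ n₁)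
    (hF2 : Fill adj T (Q₂.map Prod.fst) D₂ n₂)
    (hS : StY adj la lb Y P ((u, ωa) :: (Q₁ ++ (v, ωb) :: Q₂)))
    (hC : Inv2 adj T la Y ((u, ωa) :: (Q₁ ++ (v, ωb) :: Q₂)) (D₁ + D₂) (n₁ + n₂))
    (hnv : ∀ s ∈ ωa.head?, s.a = v) (hnu : ∀ s ∈ ωb.head?, s.a = u) :
    ∀ s ∈ ωa.head?, ∀ s' ∈ ωb.head?, ∀ c δ δ', adm la Y s c δ → adm la Y s' c δ' →
      1 ≤ δ + δ' → (s.k = 0 → c = s.b) → (s'.k = 0 → c = s'.b) → False := by
  intro s hs s' hs' c δ δ' hd hd' hpos hc hc'
  have ev := hnv s hs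
  have eu := hnu s' hs'
  have hadj : adj u c ∧ adj c v := by
    rcases hd with ⟨hk, rfl, -⟩ | ⟨hk, -, h0⟩
    · have hsa : s ∈ ωa := List.mem_of_mem_head? hs
      rcases (hS.1 (u, ωa) (by simp)).2.2 s hsa with h | h
      · obtain ⟨-, h2, h3, h4⟩ := h
        rw [ev] at h2 h4
        exact ⟨h3, hT.symm _ _ h4⟩
      · exact absurd hk h.1
    · rcases hd' with ⟨hk', rfl, -⟩ | ⟨hk', -, h0'⟩
      · have hsa : s' ∈ ωb := List.mem_of_mem_head? hs'
        rcases (hS.1 (v, ωb) (by simp)).2.2 s' hsa with h | h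
        · obtain ⟨-, h2, h3, h4⟩ := h
          rw [eu] at h2 h4
          exact ⟨h4, hT.symm _ _ h3⟩
        · exact absurd hk' h.1
      · omega
  have i1 := Fill.pair hadj.2 hh1 (by simp) hF1 Fill.nil
  have i2 := Fill.pair hadj.1 (by simp) hh2 i1 hF2
  have := hC [] (u, ωa) Q₁ (v, ωb) Q₂ rfl s hs s' hs' ev eu c δ δ' hd hd' hpos hadj.1 hadj.2
    (n₁ + n₂) (by simpa using i2)
  omega

/-- the `pair` step, piece at `v` -/
theorem pairY_left (hT : TriOK adj T) {u v : V} (huv : adj u v)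
    {ωa ωb ω₁ : List (Stp V)} {Q₁ Q₂ : List (V × List (Stp V))}
    {D₁ D₂ : A} {n₁ n₂ : ℕ} (hF2 : Fill adj T (Q₂.map Prod.fst) D₂ n₂)
    (hh2 : ∀ x ∈ (Q₂.map Prod.fst).head?, x = u)
    (hS : StY adj la lb Y P ((u, ωa) :: (((v, ω₁) :: Q₁) ++ (v, ωb) :: Q₂)))
    (hM : ∀ n', Fill adj T (u :: (v :: Q₁.map Prod.fst ++ v :: Q₂.map Prod.fst)) (D₁ + D₂) n' →
      n₁ + n₂ ≤ n')
    (hB : Inv1 adj T la Y ((u, ωa) :: (((v, ω₁) :: Q₁) ++ (v, ωb) :: Q₂)) (D₁ + D₂) (n₁ + n₂))
    (hC : Inv2 adj T la Y ((u, ωa) :: (((v, ω₁) :: Q₁) ++ (v, ωb) :: Q₂)) (D₁ + D₂) (n₁ + n₂))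
    (hnu : ∀ s ∈ ωb.head?, s.a = u)
    (hlab : ∀ s ∈ ωa.head?, ∀ s' ∈ ωb.head?, ∀ c δ δ', adm la Y s c δ → adm la Y s' c δ' →
      1 ≤ δ + δ' → (s.k = 0 → c = s.b) → (s'.k = 0 → c = s'.b) → False) :
    StY adj la lb Y P ((v, ω₁ ++ ωb) :: Q₁) ∧
    (∀ n', Fill adj T (v :: Q₁.map Prod.fst) D₁ n' → n₁ ≤ n') ∧
    Inv1 adj T la Y ((v, ω₁ ++ ωb) :: Q₁) D₁ n₁ ∧
    Inv2 adj T la Y ((v, ω₁ ++ ωb) :: Q₁) D₁ n₁ := by
  have hSa := hS.1 (u, ωa) (by simp)
  have hS1 := hS.1 (v, ω₁) (by simp)
  have hSb := hS.1 (v, ωb) (by simp)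
  have hne1 : ω₁ ≠ [] := hS1.1
  have hneb : ωb ≠ [] := hSb.1
  have hnea : ωa ≠ [] := hSa.1
  have hchain := cyc_mp _ _ hS.2
  have hNa1 : NxtY adj la lb (u, ωa) (v, ω₁) := by
    simp only [List.cons_append, List.isChain_cons_cons] at hchain
    exact hchain.1
  have hch1 : ((v, ω₁) :: (Q₁ ++ [(v, ωb)])).IsChain (NxtY adj la lb) := by
    refine chain_mid hchain ⟨[(u, ωa)], Q₂ ++ [(u, ωa)], ?_⟩
    simp
  refine ⟨⟨?_, ?_⟩, ?_, ?_, ?_⟩
  · intro E hE
    rcases List.mem_cons.1 hE with rfl | hE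
    · refine ⟨by simp [hne1], ?_, ?_⟩
      · rw [List.isChain_append]
        refine ⟨hS1.2.1, hSb.2.1, ?_⟩
        intro t ht s' hs'
        obtain ⟨s0, w0, rfl⟩ := List.exists_cons_of_ne_nil hnea
        have h1 := hNa1.2 s0 (by simp) t ht
        exact cmp_of (s := s0) h1.2.1 (hnu s' hs') h1.2.2 (hlab s0 (by simp) s' hs')
      · intro s hs
        rcases List.mem_append.1 hs with hs | hs
        · exact hS1.2.2 s hs
        · exact hSb.2.2 s hs
    · exact hS.1 E (by simp [hE])
  · have hQ : Q₁ ≠ [] := by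
      rintro rfl
      simp only [List.nil_append, List.isChain_cons_cons] at hch1
      exact hT.irr _ hch1.1.1
    apply cyc_mpr _ _ hQ
    have h2 := chain_head (R := NxtY adj la lb) (a := (v, ω₁)) (a' := (v, ω₁ ++ ωb))
      (fun b => nxtY_head (E := (v, ω₁)) (E' := (v, ω₁ ++ ωb)) rfl
        (head?_append_ne _ hne1) b) hch1
    rw [← List.cons_append] at h2
    exact chain_last (R := NxtY adj la lb) (l := (v, ω₁ ++ ωb) :: Q₁)
      (a := (v, ωb)) (a' := (v, ω₁ ++ ωb))
      (fun b => nxtY_last (E := (v, ωb)) (E' := (v, ω₁ ++ ωb)) rfl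
        (getLast?_append_ne _ hneb) b) h2
  · intro n' h
    have := hM (n' + n₂) (Fill.pair huv (by simp) hh2 h hF2)
    omega
  · intro x E y hxy s hs c δ hd hEc hca n' hn'
    rcases x with _ | ⟨e0, x⟩
    · simp only [List.nil_append, List.cons.injEq] at hxy
      obtain ⟨rfl, rfl⟩ := hxy
      rw [head?_append_ne _ hne1] at hs
      simp only [List.map_nil, List.nil_append] at hn'
      have h1 := Fill.pair huv (by simp) hh2 hn' hF2
      have h2 := hB [(u, ωa)] (v, ω₁) (Q₁ ++ (v, ωb) :: Q₂) rfl s hs c δ hd hEc hca (n' + n₂) (by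
        have e : D₁ + D₂ - T v s.a c = D₁ - T v s.a c + D₂ := by abel
        simpa [e] using h1)
      omega
    · simp only [List.cons_append, List.cons.injEq] at hxy
      obtain ⟨rfl, rfl⟩ := hxy
      simp only [List.map_cons, List.cons_append] at hn'
      have h1 := Fill.pair huv (by simp) hh2 hn' hF2
      have h2 := hB ((u, ωa) :: (v, ω₁) :: x) E (y ++ (v, ωb) :: Q₂) (by simp) s hs c δ hd hEc hca
        (n' + n₂) (by
        have e : D₁ + D₂ - T E.1 s.a c = D₁ - T E.1 s.a c + D₂ := by abel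
        simpa [e] using h1)
      omega
  · intro x E y E' z hxy s hs s' hs' ha ha' c δ δ' hd hd' hpos hEc hcE n' hn'
    rcases x with _ | ⟨e0, x⟩
    · simp only [List.nil_append, List.cons.injEq] at hxy
      obtain ⟨rfl, rfl⟩ := hxy
      rw [head?_append_ne _ hne1] at hs
      simp only [List.map_nil, List.nil_append] at hn'
      have h1 := Fill.pair huv (by simp) hh2 hn' hF2
      have h2 := hC [(u, ωa)] (v, ω₁) y E' (z ++ (v, ωb) :: Q₂) (by simp) s hs s' hs' ha ha'
        c δ δ' hd hd' hpos hEc hcE (n' + n₂) (by simpa using h1)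
      omega
    · simp only [List.cons_append, List.cons.injEq] at hxy
      obtain ⟨rfl, rfl⟩ := hxy
      simp only [List.map_cons, List.cons_append] at hn'
      have h1 := Fill.pair huv (by simp) hh2 hn' hF2
      have h2 := hC ((u, ωa) :: (v, ω₁) :: x) E y E' (z ++ (v, ωb) :: Q₂) (by simp) s hs s' hs'
        ha ha' c δ δ' hd hd' hpos hEc hcE (n' + n₂) (by simpa using h1)
      omega

/-- the `pair` step, piece at `u` -/
theorem pairY_right (hT : TriOK adj T) {u v : V} (huv : adj u v)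
    {ωa ωb ω₂ : List (Stp V)} {Q₁ Q₂ : List (V × List (Stp V))}
    {D₁ D₂ : A} {n₁ n₂ : ℕ} (hF1 : Fill adj T (Q₁.map Prod.fst) D₁ n₁)
    (hh1 : ∀ x ∈ (Q₁.map Prod.fst).head?, x = v)
    (hS : StY adj la lb Y P ((u, ωa) :: (Q₁ ++ (v, ωb) :: (u, ω₂) :: Q₂)))
    (hM : ∀ n', Fill adj T (u :: (Q₁.map Prod.fst ++ v :: u :: Q₂.map Prod.fst)) (D₁ + D₂) n' →
      n₁ + n₂ ≤ n')
    (hB : Inv1 adj T la Y ((u, ωa) :: (Q₁ ++ (v, ωb) :: (u, ω₂) :: Q₂)) (D₁ + D₂) (n₁ + n₂))
    (hC : Inv2 adj T la Y ((u, ωa) :: (Q₁ ++ (v, ωb) :: (u, ω₂) :: Q₂)) (D₁ + D₂) (n₁ + n₂))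
    (hnv : ∀ s ∈ ωa.head?, s.a = v)
    (hlab : ∀ s ∈ ωa.head?, ∀ s' ∈ ωb.head?, ∀ c δ δ', adm la Y s c δ → adm la Y s' c δ' →
      1 ≤ δ + δ' → (s.k = 0 → c = s.b) → (s'.k = 0 → c = s'.b) → False) :
    StY adj la lb Y P ((u, ω₂ ++ ωa) :: Q₂) ∧
    (∀ n', Fill adj T (u :: Q₂.map Prod.fst) D₂ n' → n₂ ≤ n') ∧
    Inv1 adj T la Y ((u, ω₂ ++ ωa) :: Q₂) D₂ n₂ ∧
    Inv2 adj T la Y ((u, ω₂ ++ ωa) :: Q₂) D₂ n₂ := by
  have hSa := hS.1 (u, ωa) (by simp)
  have hS2 := hS.1 (u, ω₂) (by simp)
  have hSb := hS.1 (v, ωb) (by simp)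
  have hne2 : ω₂ ≠ [] := hS2.1
  have hneb : ωb ≠ [] := hSb.1
  have hnea : ωa ≠ [] := hSa.1
  have hchain := cyc_mp _ _ hS.2
  have hch1 : ((u, ω₂) :: (Q₂ ++ [(u, ωa)])).IsChain (NxtY adj la lb) := by
    refine chain_mid hchain ⟨(u, ωa) :: (Q₁ ++ [(v, ωb)]), [], ?_⟩
    simp
  have hNb2 : NxtY adj la lb (v, ωb) (u, ω₂) := by
    have : [(v, ωb), (u, ω₂)].IsChain (NxtY adj la lb) := by
      refine chain_mid hchain ⟨(u, ωa) :: Q₁, Q₂ ++ [(u, ωa)], ?_⟩
      simp
    simpa using this
  refine ⟨⟨?_, ?_⟩, ?_, ?_, ?_⟩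
  · intro E hE
    rcases List.mem_cons.1 hE with rfl | hE
    · refine ⟨by simp [hne2], ?_, ?_⟩
      · rw [List.isChain_append]
        refine ⟨hS2.2.1, hSa.2.1, ?_⟩
        intro t ht s0 hs0
        obtain ⟨s', w', rfl⟩ := List.exists_cons_of_ne_nil hneb
        have h1 := hNb2.2 s' (by simp) t ht
        refine cmp_of (s := s') h1.2.1 (hnv s0 hs0) h1.2.2 ?_
        intro c δ δ' hd hd' hpos hc hc'
        exact hlab s0 hs0 s' (by simp) c δ' δ hd' hd (by omega) hc' hc
      · intro s hs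
        rcases List.mem_append.1 hs with hs | hs
        · exact hS2.2.2 s hs
        · exact hSa.2.2 s hs
    · exact hS.1 E (by simp [hE])
  · have hQ : Q₂ ≠ [] := by
      rintro rfl
      simp only [List.nil_append, List.isChain_cons_cons] at hch1
      exact hT.irr _ hch1.1.1
    apply cyc_mpr _ _ hQ
    have h2 := chain_head (R := NxtY adj la lb) (a := (u, ω₂)) (a' := (u, ω₂ ++ ωa))
      (fun b => nxtY_head (E := (u, ω₂)) (E' := (u, ω₂ ++ ωa)) rfl
        (head?_append_ne _ hne2) b) hch1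
    rw [← List.cons_append] at h2
    exact chain_last (R := NxtY adj la lb) (l := (u, ω₂ ++ ωa) :: Q₂)
      (a := (u, ωa)) (a' := (u, ω₂ ++ ωa))
      (fun b => nxtY_last (E := (u, ωa)) (E' := (u, ω₂ ++ ωa)) rfl
        (getLast?_append_ne _ hnea) b) h2
  · intro n' h
    have := hM (n₁ + n') (Fill.pair huv hh1 (by simp) hF1 h)
    omega
  · intro x E y hxy s hs c δ hd hEc hca n' hn'
    rcases x with _ | ⟨e0, x⟩
    · simp only [List.nil_append, List.cons.injEq] at hxy
      obtain ⟨rfl, rfl⟩ := hxy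
      rw [head?_append_ne _ hne2] at hs
      simp only [List.map_nil, List.nil_append] at hn'
      have h1 := Fill.pair huv hh1 (by simp) hF1 hn'
      have h2 := hB ((u, ωa) :: (Q₁ ++ [(v, ωb)])) (u, ω₂) Q₂ (by simp) s hs c δ hd hEc hca
        (n₁ + n') (by
        have e : D₁ + D₂ - T u s.a c = D₁ + (D₂ - T u s.a c) := by abel
        simpa [e] using h1)
      omega
    · simp only [List.cons_append, List.cons.injEq] at hxy
      obtain ⟨rfl, rfl⟩ := hxy
      simp only [List.map_cons, List.cons_append] at hn'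
      have h1 := Fill.pair huv hh1 (by simp) hF1 hn'
      have h2 := hB ((u, ωa) :: (Q₁ ++ (v, ωb) :: (u, ω₂) :: x)) E y (by simp) s hs c δ hd hEc hca
        (n₁ + n') (by
        have e : D₁ + D₂ - T E.1 s.a c = D₁ + (D₂ - T E.1 s.a c) := by abel
        simpa [e] using h1)
      omega
  · intro x E y E' z hxy s hs s' hs' ha ha' c δ δ' hd hd' hpos hEc hcE n' hn'
    rcases x with _ | ⟨e0, x⟩
    · simp only [List.nil_append, List.cons.injEq] at hxy
      obtain ⟨rfl, rfl⟩ := hxy
      rw [head?_append_ne _ hne2] at hs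
      simp only [List.map_nil, List.nil_append] at hn'
      have h1 := Fill.pair huv hh1 (by simp) hF1 hn'
      have h2 := hC ((u, ωa) :: (Q₁ ++ [(v, ωb)])) (u, ω₂) y E' z (by simp) s hs s' hs' ha ha'
        c δ δ' hd hd' hpos hEc hcE (n₁ + n') (by simpa using h1)
      omega
    · simp only [List.cons_append, List.cons.injEq] at hxy
      obtain ⟨rfl, rfl⟩ := hxy
      simp only [List.map_cons, List.cons_append] at hn'
      have h1 := Fill.pair huv hh1 (by simp) hF1 hn'
      have h2 := hC ((u, ωa) :: (Q₁ ++ (v, ωb) :: (u, ω₂) :: x)) E y E' z (by simp) s hs s' hs'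
        ha ha' c δ δ' hd hd' hpos hEc hcE (n₁ + n') (by simpa using h1)
      omega

/-- the conclusion of the theorem, for a state `Q` -/
def Concl (adj : V → V → Prop) (T : V → V → V → A) (la lb : ℕ → ℕ) (Y : ℕ → Set V)
    (P : V → Stp V → Prop) (Q : List (V × List (Stp V))) (D : A) (n : ℕ) : Prop :=
  ∃ L : List (V × List (Stp V)),
    (∀ E ∈ L, SecY adj la lb Y P E.1 E.2 ∧
      ∀ s ∈ E.2.getLast?, ∀ t ∈ E.2.head?, CmpY la lb Y s t) ∧
    2 * L.length = Q.length + n + 2 ∧
    ∀ (B : Type) [AddCommGroup B] (F : Acc adj T B),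
      (L.map (fun E => F.csec la lb E.1 E.2)).sum =
        (Q.map (fun E => F.sec la lb E.1 E.2)).sum + n • F.κ - F.ψ D

theorem gbs_main (hTRI : Stmt_FTRI) (hBR : Stmt_FBR) (hT : TriOK adj T)
    {l : List V} {D : A} {n : ℕ} (hF : Fill adj T l D n) :
    ∀ Q : List (V × List (Stp V)), Q.map Prod.fst = l → Q ≠ [] → StY adj la lb Y P Q →
      (∀ n', Fill adj T l D n' → n ≤ n') → Inv1 adj T la Y Q D n → Inv2 adj T la Y Q D n →
      (∀ (D' : A) (n' : ℕ), n' ≤ n → Fill adj T [] D' n' → D' = 0) →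
      Concl adj T la lb Y P Q D n := by
  induction hF with
  | nil => intro Q h1 h2; exact absurd (List.map_eq_nil_iff.1 h1) h2
  | sph _ _ _ => intro Q h1 h2; exact absurd (List.map_eq_nil_iff.1 h1) h2
  | @pair u v P₁ P₂ D₁ D₂ n₁ n₂ huv hh1 hh2 hF1 hF2 ih1 ih2 =>
    intro Q hQ hne hS hM hB hC hsph
    have hvu := hT.symm _ _ huv
    -- decompose `Q`
    obtain ⟨⟨a, ωa⟩, R, rfl, ha, hR⟩ := List.map_eq_cons_iff.1 hQ
    obtain ⟨Q₁, R₂, rfl, hQ1, hR2⟩ := List.map_eq_append_iff.1 hR
    obtain ⟨⟨b, ωb⟩, Q₂, rfl, hb, hQ2⟩ := List.map_eq_cons_iff.1 hR2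
    simp only at ha hb
    subst ha hb hQ1 hQ2
    have hchain := cyc_mp _ _ hS.2
    have hSa := hS.1 (a, ωa) (by simp)
    have hSb := hS.1 (b, ωb) (by simp)
    have hnea : ωa ≠ [] := hSa.1
    have hneb : ωb ≠ [] := hSb.1
    -- next vertices, and the sides
    obtain ⟨sa, wa, hsa⟩ := List.exists_cons_of_ne_nil hnea
    obtain ⟨sb, wb, hsb⟩ := List.exists_cons_of_ne_nil hneb
    have hnv : ∀ s ∈ ωa.head?, s.a = b := by
      intro s hs
      rcases Q₁ with _ | ⟨⟨e, ω₁⟩, Q₁⟩
      · simp only [List.nil_append, List.cons_append, List.isChain_cons_cons] at hchain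
        obtain ⟨t, ht⟩ := getLast?_some hneb
        exact (hchain.1.2 s hs t ht).1
      · have he : e = b := hh1 e (by simp)
        subst he
        have hS1 := hS.1 (e, ω₁) (by simp)
        obtain ⟨t, ht⟩ := getLast?_some hS1.1
        simp only [List.cons_append, List.isChain_cons_cons] at hchain
        exact (hchain.1.2 s hs t ht).1
    have hnu : ∀ s ∈ ωb.head?, s.a = a := by
      intro s hs
      rcases Q₂ with _ | ⟨⟨e, ω₂⟩, Q₂⟩
      · have : [(b, ωb), (a, ωa)].IsChain (NxtY adj la lb) := by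
          refine chain_mid hchain ⟨(a, ωa) :: Q₁, [], ?_⟩
          simp
        obtain ⟨t, ht⟩ := getLast?_some hnea
        simp only [List.isChain_cons_cons] at this
        exact (this.1.2 s hs t ht).1
      · have he : e = a := hh2 e (by simp)
        subst he
        have : [(b, ωb), (e, ω₂)].IsChain (NxtY adj la lb) := by
          refine chain_mid hchain ⟨(e, ωa) :: Q₁, Q₂ ++ [(e, ωa)], ?_⟩
          simp
        have hS1 := hS.1 (e, ω₂) (by simp)
        obtain ⟨t, ht⟩ := getLast?_some hS1.1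
        simp only [List.isChain_cons_cons] at this
        exact (this.1.2 s hs t ht).1
    have hlab := pairY_lab hT hh1 hh2 hF1 hF2 hS hC hnv hnu
    -- the step of `v` before `u`, on the left
    have hL : ∃ t : Stp V, lsd la sa = rsd lb t ∧ ∃ L : List (V × List (Stp V)),
        (∀ E ∈ L, SecY adj la lb Y P E.1 E.2 ∧
          ∀ s ∈ E.2.getLast?, ∀ t ∈ E.2.head?, CmpY la lb Y s t) ∧
        2 * L.length = Q₁.length + n₁ + 2 ∧
        ∀ (B : Type) [AddCommGroup B] (F : Acc adj T B),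
          (L.map (fun E => F.csec la lb E.1 E.2)).sum =
            (Q₁.map (fun E => F.sec la lb E.1 E.2)).sum + F.jn la lb b t sb +
              F.sec la lb b ωb + n₁ • F.κ - F.ψ D₁ := by
      rcases Q₁ with _ | ⟨⟨e, ω₁⟩, Q₁⟩
      · have h0 : D₁ = 0 := hsph D₁ n₁ (by omega) (by simpa using hF1)
        have hn0 : n₁ = 0 := by
          have := hM (0 + n₂) (by
            have i := Fill.pair (P₁ := []) huv (by simp) hh2 Fill.nil hF2
            rw [h0]; simpa using i)
          omega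
        obtain ⟨t, ht⟩ := getLast?_some hneb
        simp only [List.nil_append, List.cons_append, List.isChain_cons_cons] at hchain
        have h1 := hchain.1.2 sa (by simp [hsa]) t ht
        refine ⟨t, h1.2.2, [(b, ωb)], ?_, by simp [hn0], ?_⟩
        · intro E hE
          rw [List.mem_singleton] at hE
          subst hE
          refine ⟨hSb, ?_⟩
          intro t' ht' s' hs'
          have ht2 : t' = t := by
            rw [ht] at ht'; exact (Option.some.inj ht').symm
          subst ht2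
          exact cmp_of (s := sa) h1.2.1 (hnu s' hs') h1.2.2 (hlab sa (by simp [hsa]) s' hs')
        · intro B _ F
          have hh : ωb.head? = some sb := by simp [hsb]
          simp only [List.map_cons, List.map_nil, List.sum_cons, List.sum_nil, add_zero, h0, hn0,
            map_zero, zero_smul, sub_zero, zero_add, Acc.csec, ht, hh, Acc.jo]
          abel
      · have he : e = b := hh1 e (by simp)
        subst he
        have hS1 := hS.1 (e, ω₁) (by simp)
        obtain ⟨t, ht⟩ := getLast?_some hS1.1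
        simp only [List.cons_append, List.isChain_cons_cons] at hchain
        have h1 := hchain.1.2 sa (by simp [hsa]) t ht
        obtain ⟨j1, j2, j3, j4⟩ := pairY_left hT huv hF2 hh2 hS (by simpa using hM) hB hC hnu hlab
        obtain ⟨L, l1, l2, l3⟩ := ih1 ((e, ω₁ ++ ωb) :: Q₁) (by simp) (by simp) j1
          (by simpa using j2) j3 j4 (fun D' n' hn' => hsph D' n' (by omega))
        refine ⟨t, h1.2.2, L, l1, by simpa using l2, ?_⟩
        intro B _ F
        have hh : ωb.head? = some sb := by simp [hsb]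
        rw [l3 B F]
        simp only [List.map_cons, List.sum_cons]
        rw [F.sec_append la lb e ω₁ ωb hS1.1 hneb, ht, hh]
        simp only [Acc.jo]
        abel
    have hR : ∃ t : Stp V, lsd la sb = rsd lb t ∧ ∃ L : List (V × List (Stp V)),
        (∀ E ∈ L, SecY adj la lb Y P E.1 E.2 ∧
          ∀ s ∈ E.2.getLast?, ∀ t ∈ E.2.head?, CmpY la lb Y s t) ∧
        2 * L.length = Q₂.length + n₂ + 2 ∧
        ∀ (B : Type) [AddCommGroup B] (F : Acc adj T B),
          (L.map (fun E => F.csec la lb E.1 E.2)).sum =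
            (Q₂.map (fun E => F.sec la lb E.1 E.2)).sum + F.jn la lb a t sa +
              F.sec la lb a ωa + n₂ • F.κ - F.ψ D₂ := by
      rcases Q₂ with _ | ⟨⟨e, ω₂⟩, Q₂⟩
      · have h0 : D₂ = 0 := hsph D₂ n₂ (by omega) (by simpa using hF2)
        have hn0 : n₂ = 0 := by
          have := hM (n₁ + 0) (by
            have i := Fill.pair (P₂ := []) huv hh1 (by simp) hF1 Fill.nil
            rw [h0]; simpa using i)
          omega
        obtain ⟨t, ht⟩ := getLast?_some hnea
        have : [(b, ωb), (a, ωa)].IsChain (NxtY adj la lb) := by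
          refine chain_mid hchain ⟨(a, ωa) :: Q₁, [], ?_⟩
          simp
        simp only [List.isChain_cons_cons] at this
        have h1 := this.1.2 sb (by simp [hsb]) t ht
        refine ⟨t, h1.2.2, [(a, ωa)], ?_, by simp [hn0], ?_⟩
        · intro E hE
          rw [List.mem_singleton] at hE
          subst hE
          refine ⟨hSa, ?_⟩
          intro t' ht' s' hs'
          have ht2 : t' = t := by
            rw [ht] at ht'; exact (Option.some.inj ht').symm
          subst ht2
          refine cmp_of (s := sb) h1.2.1 (hnv s' hs') h1.2.2 ?_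
          intro c δ δ' hd hd' hpos hc hc'
          exact hlab s' hs' sb (by simp [hsb]) c δ' δ hd' hd (by omega) hc' hc
        · intro B _ F
          have hh : ωa.head? = some sa := by simp [hsa]
          simp only [List.map_cons, List.map_nil, List.sum_cons, List.sum_nil, add_zero, h0, hn0,
            map_zero, zero_smul, sub_zero, zero_add, Acc.csec, ht, hh, Acc.jo]
          abel
      · have he : e = a := hh2 e (by simp)
        subst he
        have hS1 := hS.1 (e, ω₂) (by simp)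
        obtain ⟨t, ht⟩ := getLast?_some hS1.1
        have : [(b, ωb), (e, ω₂)].IsChain (NxtY adj la lb) := by
          refine chain_mid hchain ⟨(e, ωa) :: Q₁, Q₂ ++ [(e, ωa)], ?_⟩
          simp
        simp only [List.isChain_cons_cons] at this
        have h1 := this.1.2 sb (by simp [hsb]) t ht
        obtain ⟨j1, j2, j3, j4⟩ := pairY_right hT huv hF1 hh1 hS (by simpa using hM) hB hC hnv hlab
        obtain ⟨L, l1, l2, l3⟩ := ih2 ((e, ω₂ ++ ωa) :: Q₂) (by simp) (by simp) j1
          (by simpa using j2) j3 j4 (fun D' n' hn' => hsph D' n' (by omega))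
        refine ⟨t, h1.2.2, L, l1, by simpa using l2, ?_⟩
        intro B _ F
        have hh : ωa.head? = some sa := by simp [hsa]
        rw [l3 B F]
        simp only [List.map_cons, List.sum_cons]
        rw [F.sec_append la lb e ω₂ ωa hS1.1 hnea, ht, hh]
        simp only [Acc.jo]
        abel
    obtain ⟨t, ht, L, l1, l2, l3⟩ := hL
    obtain ⟨t', ht', L', l1', l2', l3'⟩ := hR
    refine ⟨L ++ L', ?_, ?_, ?_⟩
    · intro E hE
      rcases List.mem_append.1 hE with h | h
      · exact l1 E h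
      · exact l1' E h
    · simp only [List.length_append, List.length_cons]
      omega
    · intro B _ F
      have hsw : F.jn la lb b t sb + F.jn la lb a t' sa = 0 :=
        F.jo_swap la lb (hnv sa (by simp [hsa])) ht (hnu sb (by simp [hsb])) ht'
      have hsw' : F.jn la lb b t sb = - F.jn la lb a t' sa := eq_neg_of_add_eq_zero_left hsw
      simp only [List.map_append, List.map_cons, List.sum_append, List.sum_cons]
      rw [l3 B F, l3' B F, hsw', add_smul, map_add]
      abel
  | @tri u v c q D₀ n₀ huv huc hcv hF ih =>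
    intro Q hQ hne hS hM hB hC hsph
    obtain ⟨⟨a, ω₀⟩, R, rfl, ha, hR⟩ := List.map_eq_cons_iff.1 hQ
    obtain ⟨⟨b, ω₁⟩, Q', rfl, hb, hQ'⟩ := List.map_eq_cons_iff.1 hR
    simp only at ha hb
    subst ha hb hQ'
    obtain ⟨j1, j2, j3, j4⟩ := triY hT hTRI hBR huv huc hcv hF hS hM hB hC
    obtain ⟨L, l1, l2, l3⟩ := ih _ (by simp) (by simp) j1 j2 j3 j4
      (fun D' n' hn' => hsph D' n' (by omega))
    refine ⟨L, l1, ?_, ?_⟩
    · simp only [List.length_cons] at l2 ⊢
      omega
    · intro B _ F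
      rw [l3 B F]
      have hne0 := (hS.1 (a, ω₀) (by simp)).1
      have hne1 := (hS.1 (b, ω₁) (by simp)).1
      obtain ⟨s0, w0, rfl⟩ := List.exists_cons_of_ne_nil hne0
      obtain ⟨t0, ht0⟩ := getLast?_some hne1
      have hN01 : NxtY adj la lb (a, s0 :: w0) (b, ω₁) := by
        obtain ⟨E', h1, h2⟩ := hS.2 [] _ _ rfl
        simp at h1
        rw [← h1] at h2; exact h2
      have h1 := hN01.2 s0 (by simp) t0 ht0
      simp only [List.map_cons, List.sum_cons]
      rw [F.sec_append la lb b ω₁ [⟨a, c, 0⟩] hne1 (by simp), ht0]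
      simp only [Acc.sec, Acc.jo, List.head?_cons]
      have hj : F.jn la lb b t0 ⟨a, c, 0⟩ + F.jn la lb a ⟨c, b, 0⟩ s0 = 0 :=
        F.jo_swap la lb h1.1 h1.2.2 rfl (by simp [lsd, rsd])
      have hj' : F.jn la lb b t0 ⟨a, c, 0⟩ = - F.jn la lb a ⟨c, b, 0⟩ s0 :=
        eq_neg_of_add_eq_zero_left hj
      rw [hj', F.val_tri, F.val_tri, F.val_tri, add_smul, one_smul, map_add]
      have := F.tri a b c huv huc hcv
      have h9 : F.f a c b = F.κ - F.ψ (T a b c) - F.f c b a - F.f b a c := by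
        rw [← this]; abel
      rw [h9]
      abel

end main

end Pool.HE
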