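import Pool.Agent.Work.MP_7084a3_full.InterfaceE

set_option autoImplicit false

/-! # Block GBX (helper63): the loop system of a closed walk -/

namespace Pool.HE

open Pool.HA

namespace GBX

theorem gapsGo_length {V : Type} (f : V) : ∀ (p : V) (P : List (V × ℕ)),
    (gapsGo f p P).length = P.length
  | _, [] => rfl
  | _, [_] => rfl
  | _, q :: r :: l => by
    show (gapsGo f q.1 (r :: l)).length + 1 = _
    rw [gapsGo_length f q.1 (r :: l)]
    rfl

theorem gaps_length {V : Type} (P : List (V × ℕ)) : (gaps P).length = P.length := by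
  unfold gaps
  cases h1 : P.head? with
  | none =>
    have : P = [] := List.head?_eq_none_iff.1 h1
    rw [this]; rfl
  | some q =>
    cases h2 : P.getLast? with
    | none =>
      have : P = [] := List.getLast?_eq_none_iff.1 h2
      rw [this]; rfl
    | some r => exact gapsGo_length _ _ _

/-- the accounting data of constants on the gaps -/
noncomputable def acc {V A : Type} [AddCommGroup A] (adj : V → V → Prop) (T : V → V → V → A)
    (f : V → V → V → ℝ) (x κ : ℝ)
    (h : ∀ u v c, adj u v → adj u c → adj c v → f u c v + f c v u + f v u c = κ) :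
    Acc adj T ℝ where
  f := f
  g := fun _ _ => x
  J := fun _ _ _ _ => 0
  κ := κ
  ψ := 0
  tri := fun u v c h1 h2 h3 => by
    rw [h u v c h1 h2 h3, AddMonoidHom.zero_apply, sub_zero]
  swap := fun _ _ _ _ => add_zero 0

theorem sum_const {V : Type} (l : List (V × Stp V)) (x : ℝ) :
    (l.map (fun _ => x)).sum = l.length * x := by
  induction l with
  | nil => simp
  | cons a l ih => simp only [List.map_cons, List.sum_cons, ih, List.length_cons]; push_cast; ring

/-- one loop -/
theorem one {V : Type} {adj : V → V → Prop} {ang : V → V → V → ℝ} {v : V} {K : ℕ}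
    {s : ℕ → Stp V} {c : ℝ} (hc : 0 < c) (hpos : 0 < K) (hper : ∀ j, s (j + K) = s j)
    (hstp : ∀ j, TStp adj v (s j) ∨ (s j).k ≠ 0)
    (hcmp : ∀ j, Cmp (s j) (s (j + 1)))
    (hle : TLoop adj v K s → (∑ j ∈ Finset.range K, ang v (s j).a (s j).b = 2 ∨
      2 + c * K ≤ ∑ j ∈ Finset.range K, ang v (s j).a (s j).b))
    (hang : ∀ a b, adj v a → adj a b → adj v b → c ≤ ang v a b) :
    2 ≤ (∑ j ∈ Finset.range K, if (s j).k = 0 then ang v (s j).a (s j).b else 2) ∧
      (¬ ((∀ j, (s j).k = 0) ∧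
        (∑ j ∈ Finset.range K, if (s j).k = 0 then ang v (s j).a (s j).b else 2) = 2) →
        c * K ≤ (∑ j ∈ Finset.range K, if (s j).k = 0 then ang v (s j).a (s j).b else 2) - 2 +
          c * ∑ j ∈ Finset.range K, if (s j).k = 0 then (0 : ℝ) else 1) := by
  obtain ⟨w, hw⟩ : ∃ w : ℝ,
    w = ∑ j ∈ Finset.range K, if (s j).k = 0 then ang v (s j).a (s j).b else 2 := ⟨_, rfl⟩
  obtain ⟨γ, hγ⟩ : ∃ γ : ℝ, γ = ∑ j ∈ Finset.range K, if (s j).k = 0 then (0 : ℝ) else 1 :=
    ⟨_, rfl⟩
  rw [← hw, ← hγ]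
  have hγ0 : 0 ≤ γ := by
    rw [hγ]
    exact Finset.sum_nonneg fun j _ => by split <;> norm_num
  by_cases h0 : ∀ j, (s j).k = 0
  · -- no gap
    have hw' : w = ∑ j ∈ Finset.range K, ang v (s j).a (s j).b := by
      rw [hw]
      exact Finset.sum_congr rfl fun j _ => by rw [if_pos (h0 j)]
    have hT : TLoop adj v K s := ⟨hpos, hper, fun j => by
      rcases hstp j with h | h
      · exact h
      · exact absurd (h0 j) h, hcmp⟩
    have hK : (0 : ℝ) ≤ K := Nat.cast_nonneg K
    rcases hle hT with h | h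
    · rw [← hw'] at h
      refine ⟨h.ge, fun hn => absurd ⟨h0, h⟩ hn⟩
    · rw [← hw'] at h
      have h1 : 0 ≤ c * K := mul_nonneg hc.le hK
      have h2 : 0 ≤ c * γ := mul_nonneg hc.le hγ0
      exact ⟨by linarith, fun _ => by linarith⟩
  · -- a gap
    push Not at h0
    obtain ⟨j₀, hj₀⟩ := h0
    have hj₁ : (s (j₀ % K)).k ≠ 0 := by
      have : ∀ m j, s (j + m * K) = s j := by
        intro m
        induction m with
        | zero => intro j; simp
        | succ m ih =>
          intro j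
          have : j + (m + 1) * K = (j + m * K) + K := by ring
          rw [this, hper, ih]
      have h2 := this (j₀ / K) (j₀ % K)
      rw [Nat.mod_add_div'] at h2
      rw [← h2]
      exact hj₀
    have hγ1 : 1 ≤ γ := by
      have := Finset.single_le_sum (f := fun j => if (s j).k = 0 then (0 : ℝ) else 1)
        (fun j _ => by split <;> norm_num) (Finset.mem_range.2 (Nat.mod_lt j₀ hpos))
      simp only [if_neg hj₁] at this
      rw [hγ]
      exact this
    have hge : 2 * γ + c * (K - γ) ≤ w := by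
      have e1 : 2 * γ + c * (K - γ) = ∑ j ∈ Finset.range K,
          (if (s j).k = 0 then c else 2) := by
        have e2 : (K : ℝ) = ∑ _j ∈ Finset.range K, (1 : ℝ) := by simp
        have e3 : (K : ℝ) - γ = ∑ j ∈ Finset.range K, (if (s j).k = 0 then (1 : ℝ) else 0) := by
          rw [e2, hγ, ← Finset.sum_sub_distrib]
          refine Finset.sum_congr rfl fun j _ => ?_
          split <;> norm_num
        rw [e3, hγ, Finset.mul_sum, Finset.mul_sum, ← Finset.sum_add_distrib]
        refine Finset.sum_congr rfl fun j _ => ?_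
        split <;> ring
      rw [e1, hw]
      refine Finset.sum_le_sum fun j _ => ?_
      by_cases hk : (s j).k = 0
      · rw [if_pos hk, if_pos hk]
        rcases hstp j with h | h
        · exact hang _ _ h.2.1 h.2.2.2 h.2.2.1
        · exact absurd hk h
      · rw [if_neg hk, if_neg hk]
    have hKγ : 0 ≤ c * (K - γ) := by
      refine mul_nonneg hc.le ?_
      rw [hγ]
      have e2 : (K : ℝ) = ∑ _j ∈ Finset.range K, (1 : ℝ) := by simp
      rw [e2, ← Finset.sum_sub_distrib]
      exact Finset.sum_nonneg fun j _ => by split <;> norm_num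
    exact ⟨by linarith, fun _ => by linarith⟩

end GBX

open GBX in
open Classical in
theorem stmt_GBX (hGBW : Stmt_GBW) (hASPH0 : Stmt_ASPH0) (hNPC0 : Stmt_NPC0) (hLE : Stmt_LE)
    (hEXF : Stmt_EXF) (hTTOK : Stmt_TTOK) : Stmt_GBX := by
  intro S _ _ M hM
  obtain ⟨hNP, c₁, hc₁, hang⟩ := hNPC0 S M hM
  obtain ⟨c₂, hc₂, hle⟩ := hLE S M hM
  obtain ⟨c, hc⟩ : ∃ c : ℝ, c = min c₁ c₂ := ⟨_, rfl⟩
  have hc0 : 0 < c := by rw [hc]; exact lt_min hc₁ hc₂
  have hcc₁ : c ≤ c₁ := by rw [hc]; exact min_le_left _ _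
  have hcc₂ : c ≤ c₂ := by rw [hc]; exact min_le_right _ _
  obtain ⟨C, hC⟩ := exists_nat_ge (1 / c)
  refine ⟨C + 1, fun l hl hCW => ?_⟩
  have hT := hTTOK (Art M) S (gen M)
  obtain ⟨D, n₀, hD₀⟩ := hEXF S M hM.ne_zero l hCW
  have hex : ∃ n, Fill Vtx.ad TT l D n := ⟨n₀, hD₀⟩
  obtain ⟨n, hn⟩ : ∃ n, n = Nat.find hex := ⟨_, rfl⟩
  have hfill : Fill Vtx.ad TT l D n := by rw [hn]; exact Nat.find_spec hex
  have hmin : MinF Vtx.ad TT l D n :=
    ⟨hfill, fun n' h' => by rw [hn]; exact Nat.find_min' hex h'⟩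
  obtain ⟨P, hP⟩ : ∃ P : List (Vtx (gen M) × ℕ), P = l.map (fun v => (v, 2)) := ⟨_, rfl⟩
  have hPl : P.map Prod.fst = l := by
    rw [hP, List.map_map]
    exact List.map_id' l
  have hPlen : P.length = l.length := by rw [hP, List.length_map]
  obtain ⟨X, hX, hcard, hacc⟩ := hGBW (Vtx (gen M)) (C2 (gen M)) Vtx.ad TT hT (fun _ => 0)
    (fun _ => 0) (fun _ => ∅) P D n
    (by
      intro h
      rw [h] at hPlen
      exact hl (List.length_eq_zero_iff.1 hPlen.symm))
    (by
      intro q hq
      rw [hP, List.mem_map] at hq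
      obtain ⟨v, -, rfl⟩ := hq
      norm_num)
    (by
      have : ∀ Q : List (Vtx (gen M) × ℕ), Q.IsChain (fun _ _ => (0 : ℕ) = 0) := by
        intro Q
        induction Q with
        | nil => exact List.IsChain.nil
        | cons a Q ih =>
          cases Q with
          | nil => exact List.isChain_singleton a
          | cons b Q => exact List.IsChain.cons_cons rfl ih
      exact this P)
    (fun _ _ _ _ => rfl) (by rw [hPl]; exact hmin)
    (fun _ _ _ _ _ _ _ hc => absurd hc (Set.notMem_empty _))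
    (fun D' n' _ h' => hASPH0 _ _ Vtx.ad TT (ang M 0) hT hNP D' n' h')
  have hX' : LSOK Vtx.ad (fun _ => 0) (fun _ => 0) (fun _ => (∅ : Set (Vtx (gen M))))
      (fun _ _ => True) X :=
    ⟨hX.pos, hX.per, fun i j => (hX.stp i j).imp id (fun h => ⟨h.1, trivial⟩), hX.cmp⟩
  refine ⟨D, n, X, hfill, hX', ?_, ?_⟩
  · intro B _ F hF
    rw [hacc B F]
    have : ((gaps P).map (fun q => F.g q.1 q.2)).sum = 0 := by
      refine List.sum_eq_zero fun x hx => ?_
      rw [List.mem_map] at hx
      obtain ⟨q, -, rfl⟩ := hx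
      exact hF _ _
    rw [this, zero_add]
  · -- the weights
    have e1 := hacc ℝ (acc Vtx.ad TT (ang M 0) 2 1
      (fun u v w h1 h2 h3 => hNP.sum u w v h2 h3 h1))
    have e2 := hacc ℝ (acc Vtx.ad TT (fun _ _ _ => 0) 1 0 (fun u v w h1 h2 h3 => by norm_num))
    have f1 : (acc Vtx.ad (TT : Vtx (gen M) → _) (ang M 0) 2 1
        (fun u v w h1 h2 h3 => hNP.sum u w v h2 h3 h1)).ψ D = 0 := rfl
    have f2 : (acc Vtx.ad (TT : Vtx (gen M) → _) (fun _ _ _ => 0) 1 0
      (fun u v w h1 h2 h3 => by norm_num)).ψ D = 0 := rfl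
    have g1 : X.tot (fun _ => 0) (fun _ => 0) (acc Vtx.ad TT (ang M 0) 2 1
        (fun u v w h1 h2 h3 => hNP.sum u w v h2 h3 h1)) =
        ∑ i, ∑ j ∈ Finset.range (X.K i), (if (X.s i j).k = 0 then
          ang M 0 (X.v i) (X.s i j).a (X.s i j).b else 2) := by
      unfold LSys.tot
      refine Finset.sum_congr rfl fun i _ => Finset.sum_congr rfl fun j _ => ?_
      exact add_zero _
    have g2 : X.tot (fun _ => 0) (fun _ => 0) (acc Vtx.ad (TT : Vtx (gen M) → _)
        (fun _ _ _ => 0) 1 0 (fun u v w h1 h2 h3 => by norm_num)) =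
        ∑ i, ∑ j ∈ Finset.range (X.K i), (if (X.s i j).k = 0 then (0 : ℝ) else 1) := by
      unfold LSys.tot
      refine Finset.sum_congr rfl fun i _ => Finset.sum_congr rfl fun j _ => ?_
      exact add_zero _
    have k1 : ((gaps P).map (fun q => (acc Vtx.ad (TT : Vtx (gen M) → _) (ang M 0) 2 1
        (fun u v w h1 h2 h3 => hNP.sum u w v h2 h3 h1)).g q.1 q.2)).sum = l.length * 2 := by
      show ((gaps P).map (fun _ => (2 : ℝ))).sum = _
      rw [sum_const, gaps_length, hPlen]
    have k2 : ((gaps P).map (fun q => (acc Vtx.ad (TT : Vtx (gen M) → _) (fun _ _ _ => 0) 1 0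
        (fun u v w h1 h2 h3 => by norm_num)).g q.1 q.2)).sum = l.length := by
      show ((gaps P).map (fun _ => (1 : ℝ))).sum = _
      rw [sum_const, gaps_length, hPlen, mul_one]
    have m1 : n • (acc Vtx.ad (TT : Vtx (gen M) → _) (ang M 0) 2 1
        (fun u v w h1 h2 h3 => hNP.sum u w v h2 h3 h1)).κ = (n : ℝ) := by
      show n • (1 : ℝ) = n
      rw [nsmul_eq_mul, mul_one]
    have m2 : n • (acc Vtx.ad (TT : Vtx (gen M) → _) (fun _ _ _ => 0) 1 0
        (fun u v w h1 h2 h3 => by norm_num)).κ = (0 : ℝ) := by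
      show n • (0 : ℝ) = 0
      rw [smul_zero]
    rw [g1, k1, m1, f1, sub_zero] at e1
    rw [g2, k2, m2, f2, sub_zero, add_zero] at e2
    -- every loop
    have hone := fun i => one (adj := Vtx.ad) (ang := ang M 0) (v := X.v i) (K := X.K i)
      (s := X.s i) hc0 (hX'.pos i) (hX'.per i)
      (fun j => (hX'.stp i j).imp id (fun h => h.1))
      (fun j => ⟨(hX'.cmp i j).1, (hX'.cmp i j).2.1⟩)
      (fun hL => by
        rcases hle (X.v i) (X.K i) (X.s i) hL with ⟨-, h, -⟩ | h
        · exact Or.inl h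
        · refine Or.inr (le_trans ?_ h)
          have : c * (X.K i : ℝ) ≤ c₂ * (X.K i : ℝ) :=
            mul_le_mul_of_nonneg_right hcc₂ (Nat.cast_nonneg _)
          linarith)
      (fun a b h1 h2 h3 => hcc₁.trans (hang _ _ _ h1 h2 h3).1)
    have hcard' : (2 : ℝ) * (Fintype.card X.ι : ℝ) = l.length + n + 2 := by
      rw [hPlen] at hcard
      exact_mod_cast hcard
    have hsum2 : ∑ _i : X.ι, (2 : ℝ) = l.length + n + 2 := by
      rw [Finset.sum_const, Finset.card_univ, nsmul_eq_mul, mul_comm]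
      exact hcard'
    have hmain : c * ((∑ i, if X.Flat (ang M 0) i then 0 else X.K i : ℕ) : ℝ) ≤
        ∑ i, ((∑ j ∈ Finset.range (X.K i), (if (X.s i j).k = 0 then
          ang M 0 (X.v i) (X.s i j).a (X.s i j).b else 2)) - 2 +
          c * ∑ j ∈ Finset.range (X.K i), (if (X.s i j).k = 0 then (0 : ℝ) else 1)) := by
      push_cast
      rw [Finset.mul_sum]
      refine Finset.sum_le_sum fun i _ => ?_
      obtain ⟨h1, h2⟩ := hone i
      by_cases hfl : X.Flat (ang M 0) i
      · rw [if_pos hfl, mul_zero]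
        have h3 : 0 ≤ c * ∑ j ∈ Finset.range (X.K i), (if (X.s i j).k = 0 then (0 : ℝ) else 1) :=
          mul_nonneg hc0.le (Finset.sum_nonneg fun j _ => by split <;> norm_num)
        linarith
      · rw [if_neg hfl]
        exact h2 hfl
    rw [Finset.sum_add_distrib, Finset.sum_sub_distrib, ← Finset.mul_sum, e1, e2, hsum2] at hmain
    have hfin : ((∑ i, if X.Flat (ang M 0) i then 0 else X.K i : ℕ) : ℝ) ≤
        ((C : ℝ) + 1) * l.length := by
      have h1 : 1 ≤ (C : ℝ) * c := by
        have := (div_le_iff₀ hc0).1 hC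
        exact this
      have hL0 : (0 : ℝ) ≤ l.length := Nat.cast_nonneg _
      have h2 : (l.length : ℝ) * 1 ≤ l.length * ((C : ℝ) * c) :=
        mul_le_mul_of_nonneg_left h1 hL0
      have h3 : c * ((∑ i, if X.Flat (ang M 0) i then 0 else X.K i : ℕ) : ℝ) ≤
          c * (((C : ℝ) + 1) * l.length) := by
        refine hmain.trans ?_
        have e3 : c * (((C : ℝ) + 1) * l.length) = l.length * ((C : ℝ) * c) + c * l.length := by
          ring
        rw [e3]
        linarith
      exact le_of_mul_le_mul_left h3 hc0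
    exact_mod_cast hfin

end Pool.HE
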