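import Pool.Agent.Work.MP_7084a3_full.InterfaceC

set_option autoImplicit false

/-! # Common lemmas for BAD1, BADX, EL2, NEL1 -/

namespace Pool.HE

open Pool.HA

section
variable {S : Type} {M : CoxeterMatrix S}

theorem h73_fix_zpow {G S : Type} [Group G] {g : S → G} {h : G} {v : Vtx g} (hv : h • v = v)
    (k : ℤ) : (h ^ k) • v = v := by
  have : h ∈ MulAction.stabilizer G v := hv
  exact (MulAction.stabilizer G v).zpow_mem this k

theorem h73_fix_mul {G S : Type} [Group G] {g : S → G} {h h' : G} {v : Vtx g} (hv : h • v = v)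
    (hv' : h' • v = v) : (h * h') • v = v := by
  rw [mul_smul, hv', hv]

/-- `z = zz M s t` is in the parabolic -/
theorem h73_zz_mem (s t : S) : zz M s t ∈ pr (gen M) s t :=
  Subgroup.pow_mem _ (Subgroup.mul_mem _ (left_mem_pr s t) (right_mem_pr s t)) _

theorem h73_esum_zz (s t : S) : esum M (zz M s t) = Multiplicative.ofAdd (2 * (M s t : ℤ)) := by
  unfold zz
  rw [map_pow, map_mul, esum_gen, esum_gen, ← ofAdd_add, ← ofAdd_nsmul]
  congr 1
  rw [nsmul_eq_mul]
  push_cast
  ring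

theorem h73_zz_zpow_ne_one {s t : S} (h : M s t ≠ 0) {k : ℤ} (hk : k ≠ 0) :
    zz M s t ^ k ≠ 1 := by
  intro h1
  have h2 := congrArg (esum M) h1
  rw [map_zpow, h73_esum_zz, ← ofAdd_zsmul, (esum M).map_one] at h2
  have h3 : k • (2 * (M s t : ℤ)) = 0 := Multiplicative.ofAdd.injective h2
  rw [smul_eq_mul] at h3
  have h4 : (M s t : ℤ) ≠ 0 := by exact_mod_cast h
  exact (mul_ne_zero hk (mul_ne_zero two_ne_zero h4)) h3

/-- everything commuting with an element with a unique fixed vertex fixes this vertex -/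
theorem h73_fix_of_comm {e y : Art M} {u : Vtx (gen M)} (hu : e • u = u)
    (hq : ∀ k : ℤ, k ≠ 0 → ∀ w : Vtx (gen M), (e ^ k) • w = w → w = u) (hy : Commute y e) :
    y • u = u := by
  have h2 : e • (y • u) = y • u := Fx.of_commute hy hu
  exact hq 1 one_ne_zero (y • u) (by simpa using h2)

theorem h73_fix_J {s t : S} {u : Vtx (gen M)} (hJ : ∀ a, a ∈ u.J ↔ a = s ∨ a = t)
    (hu : u.mem 1) (h : Art M) : h • u = u ↔ h ∈ pr (gen M) s t := by
  rw [Vtx.fix2' hJ hu]
  simp

/-- the vertex `A_{st}` -/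
theorem h73_exists_u (s t : S) : ∃ u : Vtx (gen M), (∀ a, a ∈ u.J ↔ a = s ∨ a = t) ∧
    u.mem 1 := by
  classical
  exact ⟨Vtx.mk (gen M) {s, t} (Finset.card_le_two) 1, fun a => by simp, Vtx.mk_mem _ _ _⟩

end

end Pool.HE
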