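import Pool.Agent.Work.MP_7084a3_full.InterfaceC
import Pool.Agent.Work.MP_7084a3_h91.B.NOFX

set_option autoImplicit false

/-! # Block NOFX (helper24) -/

namespace Pool.HE

open Pool.HA Pool.HA.H35

/-- NOFX -/
theorem stmt_NOFX (hF : Stmt_FINP) (hI : Stmt_INF3) (hB : Stmt_BFI) (hP : Stmt_POS) :
    Stmt_NOFX := by
  intro S S' _ _ _ _ M M' ρ ρ' ψ β hW hbf a b c hab hbc hac x hx ⟨xa, xb, xc⟩
  have F := FB.of hB hW.rep'
  have hfin := fin_zero hP hW.hM'.ne_zero hW.rep' F hx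
  have hE : ∀ s ∈ ({a, b, c} : Set S), x (β s) = 0 := by
    intro s hs
    rcases hs with rfl | rfl | rfl
    · exact xa
    · exact xb
    · exact xc
  have hinv : ∀ w ∈ Subgroup.closure (M.simple '' ({a, b, c} : Set S)),
      ∀ v, x (ρ' (ψ w) v) = x v := by
    intro w hw
    induction hw using Subgroup.closure_induction with
    | mem w hw =>
      obtain ⟨s, hs, rfl⟩ := hw
      intro v
      rw [F.rfx _ _ (hW.refl s) v, map_sub, map_smul, hE s hs, smul_zero, sub_zero]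
    | one => intro v; rw [map_one, one_app]
    | mul w w' _ _ h h' => intro v; rw [map_mul, mul_app, h, h']
    | inv w _ h =>
      intro v
      rw [← h (ρ' (ψ w⁻¹) v), ← mul_app, ← map_mul, mul_inv_cancel, map_one, one_app]
  obtain ⟨w₁, w₂, p, q, hw₁, hw₂, hp, hq, hinf⟩ := hI S M hW.hM a b c hab hbc hac
  have hgen : ∀ s ∈ ({a, b, c} : Set S), M.simple s ∈
      Subgroup.closure (M.simple '' ({a, b, c} : Set S)) :=
    fun s hs => Subgroup.subset_closure ⟨s, hs, rfl⟩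
  have hconj : ∀ w s, IsRf M' ρ' (ψ (w * M.simple s * w⁻¹)) (ρ' (ψ w) (β s)) := by
    intro w s
    obtain ⟨g, s', h1, h2⟩ := hW.refl s
    refine ⟨ψ w * g, s', ?_, ?_⟩
    · rw [map_mul, map_mul, map_inv, h1]
      group
    · rcases h2 with h2 | h2
      · left; rw [h2, mul_app]
      · right; rw [h2, mul_app, map_neg]
  have hstab : ∀ w ∈ Subgroup.closure (M.simple '' ({a, b, c} : Set S)),
      ∀ v ∈ {v | IsRt M' ρ' v ∧ x v = 0}, ρ' (ψ w) v ∈ {v | IsRt M' ρ' v ∧ x v = 0} := by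
    rintro w hw v ⟨h1, h2⟩
    exact ⟨FB.act_rt h1 _, by rw [hinv w hw, h2]⟩
  have hm : ∀ w ∈ Subgroup.closure (M.simple '' ({a, b, c} : Set S)),
      ∀ s ∈ ({a, b, c} : Set S), w * M.simple s * w⁻¹ ∈
      Subgroup.closure (M.simple '' ({a, b, c} : Set S)) := fun w hw s hs =>
    Subgroup.mul_mem _ (Subgroup.mul_mem _ hw (hgen s hs)) (Subgroup.inv_mem _ hw)
  obtain ⟨k, hk, hk1⟩ := hF S' M' ρ' hW.hM'.ne_zero hW.rep' _ _ _ _
    {v | IsRt M' ρ' v ∧ x v = 0} (hconj w₁ p) (hconj w₂ q) hfin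
    ⟨F.rf_rt (hconj w₁ p), by rw [hinv w₁ hw₁, hE p hp]⟩
    (hstab _ (hm w₁ hw₁ p hp)) (hstab _ (hm w₂ hw₂ q hq))
  refine hinf k hk (ψ.injective ?_)
  rw [map_pow, map_mul, hk1, map_one]

end Pool.HE
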