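import Pool.Agent.Work.MP_7084a3_full.InterfaceE

set_option autoImplicit false

namespace Pool.HE

open Pool.HA

theorem stmt_QUAD (hWCH : Pool.HA.Stmt_WCH) : Stmt_QUAD := by
  intro G S _ g a b c d P Q P' Q' hP hQ hP' hQ'
  obtain ⟨h1, _, h3, _⟩ := hWCH G S g
  obtain ⟨w1, e1⟩ := h1 P Q a b c hP hQ
  obtain ⟨w2, e2⟩ := h1 Q' P' a d c hQ' hP'
  obtain ⟨w3, e3⟩ := h3 _ _ a c w1 w2
  refine ⟨_, w3, ?_, ?_⟩
  · simp only [List.length_append, List.length_dropLast, List.length_reverse]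
    omega
  · rw [e3, e1, e2]
    abel

end Pool.HE
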