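import Pool.Agent.Work.MP_7084a3_full.InterfaceE
import Pool.Agent.Work.MP_7084a3_h91.B.X1

set_option autoImplicit false

namespace Pool.HE

open Pool.HA

theorem stmt_X1 (hISOQ : Stmt_ISOQ) (hINJ2 : Stmt_INJ2) (hBD : Stmt_BD) (hBD1 : Stmt_BD1)
    (hCONN : Stmt_CONN) (hWCH : Stmt_WCH) (hACT : Stmt_ACT) (hZL : Stmt_ZL) (hZPER : Stmt_ZPER)
    (hZG : Stmt_ZG) : Stmt_X1 := by
  intro S _ M hM h v w hinf hvw hv hw
  classical
  obtain ⟨C, hC⟩ := hISOQ S M hM
  obtain ⟨γ, hγ⟩ := hCONN S M v w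
  obtain ⟨W1, W2, W3, W4, W5⟩ := hWCH (Art M) S (gen M)
  obtain ⟨A1, A2, A3, A4, A5, A6, A7, A8, A9⟩ := hACT (Art M) S (gen M)
  have hp : ∀ (e : Vtx (gen M)), h • e = e → ∀ n : ℕ, h ^ n • e = e := by
    intro e hx n
    induction n with
    | zero => simp
    | succ n ihn => rw [pow_succ, mul_smul, hx, ihn]
  have hDN : ∀ N : ℕ, ∃ D : C2 (gen M), bd2 (gen M) D = wch γ - act1 (h ^ N) (wch γ) ∧
      Flagged D ∧ nrm D ≤ C * (2 * γ.length) ^ 2 := by
    intro N
    obtain ⟨q1, q2⟩ := W4 (h ^ N) γ v w hγ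
    rw [hp v hv, hp w hw] at q1
    obtain ⟨q3, q4⟩ := W3 γ (γ.map (fun v => h ^ N • v)) v w hγ q1
    rw [q2] at q4
    set l := γ.dropLast ++ (γ.map (fun v => h ^ N • v)).reverse.dropLast with hl
    have hlen : l.length ≤ 2 * γ.length := by
      rw [hl, List.length_append, List.length_dropLast, List.length_dropLast, List.length_reverse,
        List.length_map]
      omega
    obtain ⟨D, n, hF, hn⟩ := hC l q3
    obtain ⟨b1, b2, b3⟩ := hBD (Art M) S (gen M) l D n hF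
    exact ⟨D, b1.trans q4, b2, b3.trans (hn.trans (Nat.mul_le_mul_left C
      (Nat.pow_le_pow_left hlen 2)))⟩
  choose D hD1 hD2 hD3 using hDN
  have hsum : ∀ N : ℕ, D N = ∑ i ∈ Finset.range N, act2 (h ^ i) (D 1) := by
    intro N
    have hfs : Flagged (∑ i ∈ Finset.range N, act2 (h ^ i) (D 1)) :=
      X1h.flagged_sum (fun D D' a b => (A3 D D' a b).1) _ (fun i => (A1 (h ^ i) (D 1)).2.1 (hD2 1)) N
    have h0 := hINJ2 S M hM (D N - ∑ i ∈ Finset.range N, act2 (h ^ i) (D 1))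
      (A3 _ _ (hD2 N) hfs).2 (by
        rw [map_sub, map_sum, hD1 N]
        have e1 : ∀ i ∈ Finset.range N, bd2 (gen M) (act2 (h ^ i) (D 1)) =
            act1 (h ^ i) (wch γ) - act1 (h ^ (i + 1)) (wch γ) := by
          intro i _
          rw [(A1 (h ^ i) (D 1)).1, hD1 1, map_sub, pow_one, pow_succ, A5]
        rw [Finset.sum_congr rfl e1, Finset.sum_range_sub', pow_zero, A8, sub_self])
    exact sub_eq_zero.mp h0
  -- the permutation on triples
  set σ : Equiv.Perm (Vtx (gen M) × Vtx (gen M) × Vtx (gen M)) := MulAction.toPerm h with hσ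
  have hσk : ∀ k : ℤ, σ ^ k = MulAction.toPerm (h ^ k) := by
    intro k
    exact (map_zpow (MulAction.toPermHom (Art M) (Vtx (gen M) × Vtx (gen M) × Vtx (gen M))) h k).symm
  have hσn : ∀ k : ℕ, σ ^ k = MulAction.toPerm (h ^ k) := by
    intro k
    exact (map_pow (MulAction.toPermHom (Art M) (Vtx (gen M) × Vtx (gen M) × Vtx (gen M))) h k).symm
  have hmv : ∀ (x : Art M) (D : C2 (gen M)),
      mv (MulAction.toPerm x : Equiv.Perm (Vtx (gen M) × Vtx (gen M) × Vtx (gen M))) D = act2 x D :=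
    fun _ _ => rfl
  obtain ⟨P, hP1, hP2⟩ := hZL _ σ (D 1) (C * (2 * γ.length) ^ 2) (by
      intro x hx k hk hxk
      rw [hσn] at hxk
      have h1 : h ^ k • x.1 = x.1 := congrArg Prod.fst hxk
      exact hinf k hk (X1h.ty0 _ _ (hD2 1 x hx).1 h1)) (by
      intro N
      have e1 : ∑ i ∈ Finset.range N, mv (σ ^ i) (D 1) = D N := by
        rw [hsum N]
        refine Finset.sum_congr rfl ?_
        intro i _
        rw [hσn]; rfl
      rw [e1]
      exact hD3 N)
  have hPf : Flagged P := by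
    intro t ht
    obtain ⟨k, hk⟩ := hP2 t ht
    rw [hσk] at hk
    obtain ⟨c0, c1, c2, c3, c4, c5⟩ := hD2 1 _ hk
    exact ⟨c0, c1, c2, (X1h.ad_smul_iff (h ^ k) _ _).mp c3, (X1h.ad_smul_iff (h ^ k) _ _).mp c4,
      (X1h.ad_smul_iff (h ^ k) _ _).mp c5⟩
  set E : C1 (gen M) := wch γ - bd2 (gen M) P with hE
  have hE1 : act1 h E = E := by
    have h1 : bd2 (gen M) (D 1) = bd2 (gen M) P - bd2 (gen M) (act2 h P) := by
      rw [← map_sub, ← hmv h P, ← hσ, ← hP1]
    rw [hD1 1, pow_one, (A1 h P).1] at h1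
    rw [hE, map_sub]
    have h2 : wch γ - act1 h (wch γ) - (bd2 (gen M) P - act1 h (bd2 (gen M) P)) = 0 := by
      rw [h1, sub_self]
    have h3 : (wch γ - bd2 (gen M) P) - (act1 h (wch γ) - act1 h (bd2 (gen M) P)) = 0 := by
      rw [← h2]; abel
    exact (sub_eq_zero.mp h3).symm
  have hE2 : bd1 (gen M) E = Finsupp.single w 1 - Finsupp.single v 1 := by
    rw [hE, map_sub, (hBD1 (Art M) S (gen M)).1 γ v w hγ, (hBD1 (Art M) S (gen M)).2 P hPf, sub_zero]
  have hE3 : E ∈ X1h.SA (gen M) :=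
    (X1h.SA (gen M)).sub_mem (X1h.wch_mem γ hγ.2.2) (X1h.bd2_mem P hPf)
  have hE4 : ∀ e ∈ E.support, e.1.ad e.2 := by
    intro e he
    by_contra hcon
    exact (Finsupp.mem_support_iff.mp he) (hE3 e hcon)
  have hmv1 : ∀ (x : Art M) (D : C1 (gen M)),
      mv (MulAction.toPerm x : Equiv.Perm (Vtx (gen M) × Vtx (gen M))) D = act1 x D :=
    fun _ _ => rfl
  clear_value E
  obtain ⟨K, hK, hKE⟩ := X1h.common_power h E.support (by
    intro e he
    obtain ⟨k, hk, hk2⟩ := hZPER _ (MulAction.toPerm h : Equiv.Perm (Vtx (gen M) × Vtx (gen M))) E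
      ((hmv1 h E).trans hE1) e he
    refine ⟨k, hk, ?_⟩
    have e1 : (MulAction.toPerm h : Equiv.Perm (Vtx (gen M) × Vtx (gen M))) ^ k =
        MulAction.toPerm (h ^ k) :=
      (map_pow (MulAction.toPermHom (Art M) (Vtx (gen M) × Vtx (gen M))) h k).symm
    rw [e1] at hk2
    exact hk2)
  rw [X1h.bd1_eq] at hE2
  obtain ⟨l, hl1, hl2, hl3⟩ := hZG (Vtx (gen M)) E v w hvw hE2
  refine ⟨K, hK, l, ⟨hl1, hl2, ?_⟩, ?_⟩
  · refine hl3.imp ?_
    intro a b hab
    rcases hab with hab | hab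
    · exact hE4 (a, b) hab
    · exact X1h.ad_symm (hE4 (b, a) hab)
  · intro a ha
    have hlen : 2 ≤ l.length := by
      rcases l with _ | ⟨x, l⟩
      · simp at hl1
      · rcases l with _ | ⟨y, l⟩
        · simp only [List.head?_cons, Option.some.injEq] at hl1
          simp only [List.getLast?_singleton, Option.some.injEq] at hl2
          exact absurd (hl1.symm.trans hl2) hvw
        · simp
    obtain ⟨b, hb⟩ := X1h.chain_nb _ l hl3 hlen a ha
    have e1 : ∀ p : Vtx (gen M) × Vtx (gen M), h ^ K • p = p → h ^ K • p.1 = p.1 :=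
      fun p hp => congrArg Prod.fst hp
    have e2 : ∀ p : Vtx (gen M) × Vtx (gen M), h ^ K • p = p → h ^ K • p.2 = p.2 :=
      fun p hp => congrArg Prod.snd hp
    rcases hb with (hb | hb) | (hb | hb)
    · exact e1 (a, b) (hKE (a, b) hb)
    · exact e2 (b, a) (hKE (b, a) hb)
    · exact e2 (b, a) (hKE (b, a) hb)
    · exact e1 (a, b) (hKE (a, b) hb)

end Pool.HE
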