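import Pool.Agent.Work.MP_7084a3_full.InterfaceG
import Pool.Agent.Work.MP_7084a3_h91.B.ZG
import Mathlib.Combinatorics.SimpleGraph.Walk.Basic
import Mathlib.Combinatorics.SimpleGraph.Paths

/-! # Block ZG2 (helper83) -/

set_option autoImplicit false

namespace Pool.HE

open Pool.HA

theorem stmt_ZG2 : Stmt_ZG2 := by
  classical
  intro V E v w hvw h
  obtain ⟨l, h1, h2, h3⟩ := stmt_ZG V E v w hvw h
  let G : SimpleGraph V :=
    { Adj := fun a b => a ≠ b ∧ ((a, b) ∈ E.support ∨ (b, a) ∈ E.support)
      symm := ⟨fun a b h => ⟨h.1.symm, h.2.symm⟩⟩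
      loopless := ⟨fun a h => h.1 rfl⟩ }
  have key : ∀ (l : List V) (a b : V), l.head? = some a → l.getLast? = some b →
      l.IsChain (fun a b => (a, b) ∈ E.support ∨ (b, a) ∈ E.support) → G.Reachable a b := by
    intro l
    induction l with
    | nil => intro a b h; simp at h
    | cons x l ih =>
      intro a b ha hb hc
      rw [List.head?_cons, Option.some.injEq] at ha
      subst ha
      cases l with
      | nil =>
        simp only [List.getLast?_singleton, Option.some.injEq] at hb
        subst hb
        exact SimpleGraph.Reachable.refl _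
      | cons y l =>
        rw [List.isChain_cons_cons] at hc
        have h4 := ih y b rfl (by rw [List.getLast?_cons_cons] at hb; exact hb) hc.2
        by_cases hxy : x = y
        · rw [hxy]; exact h4
        · exact (SimpleGraph.Adj.reachable (⟨hxy, hc.1⟩ : G.Adj x y)).trans h4
  obtain ⟨p⟩ := key l v w h1 h2 h3
  let q := p.toPath
  refine ⟨q.1.support, ?_, ?_, q.2.support_nodup, ?_⟩
  · rw [List.head?_eq_some_head q.1.support_ne_nil, SimpleGraph.Walk.head_support]
  · rw [List.getLast?_eq_getLast_of_ne_nil q.1.support_ne_nil, SimpleGraph.Walk.getLast_support]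
  · exact q.1.isChain_adj_support.imp (fun a b h => h.2)

end Pool.HE
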